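import Pool.Agent.TH164.Spin.Gen

/-!
# The even Clifford algebra
-/

set_option autoImplicit false
set_option linter.unusedSectionVars false
set_option linter.unusedVariables false

open Module Matrix

namespace Pool.Agent.TH164.Spin

open Pool.Agent.TH119.MX Pool.Agent.TH119.DR Pool.Agent.TH164.A1

section rat

open Finset

/-- A subspace stable under derivations is spanned by its algebraic vectors. -/
theorem exists_rat' {I : Type*} [Fintype I] (W : Submodule ℂ (I → ℂ))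
    (hW : ∀ δ : Derivation ℚ ℂ ℂ, ∀ w ∈ W, (fun i => δ (w i)) ∈ W) :
    W ≤ Submodule.span ℂ {w | w ∈ W ∧ ∀ i, IsAlgebraic ℚ (w i)} := by
  classical
  by_contra hcon
  rw [SetLike.not_le_iff_exists] at hcon
  set W' := Submodule.span ℂ {w | w ∈ W ∧ ∀ i, IsAlgebraic ℚ (w i)} with hW'
  have h1 : ∃ n : ℕ, ∃ w ∈ W, w ∉ W' ∧ (univ.filter fun i => w i ≠ 0).card = n := by
    obtain ⟨w, hw, hw0⟩ := hcon
    exact ⟨_, w, hw, hw0, rfl⟩
  obtain ⟨w, hw, hw0, hc⟩ := Nat.find_spec h1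
  obtain ⟨u, hu, hu0, hua⟩ := exists_rat
    { carrier := {v | v ∈ W ∧ ∀ i, w i = 0 → v i = 0}
      zero_mem' := ⟨W.zero_mem, fun i _ => rfl⟩
      add_mem' := by
        rintro a b ⟨ha, ha'⟩ ⟨hb, hb'⟩
        refine ⟨W.add_mem ha hb, fun i hi => ?_⟩
        rw [Pi.add_apply, ha' i hi, hb' i hi, add_zero]
      smul_mem' := by
        rintro c a ⟨ha, ha'⟩
        refine ⟨W.smul_mem _ ha, fun i hi => ?_⟩
        rw [Pi.smul_apply, ha' i hi, smul_zero] } (by
    rintro δ v ⟨hv, hv'⟩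
    refine ⟨hW δ v hv, fun i hi => ?_⟩
    change δ (v i) = 0
    rw [hv' i hi, map_zero]) (by
    refine (Submodule.ne_bot_iff _).2 ⟨w, ⟨hw, fun i hi => hi⟩, ?_⟩
    rintro rfl
    exact hw0 W'.zero_mem)
  obtain ⟨j, hj⟩ := Function.ne_iff.1 hu0
  have hwj : w j ≠ 0 := fun h2 => hj (hu.2 j h2)
  have huW' : u ∈ W' := Submodule.subset_span ⟨hu.1, hua⟩
  have hv : w - (w j / u j) • u ∈ W := W.sub_mem hw (W.smul_mem _ hu.1)
  have hv' : w - (w j / u j) • u ∉ W' := by
    intro h2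
    apply hw0
    have := W'.add_mem h2 (W'.smul_mem (w j / u j) huW')
    rwa [sub_add_cancel] at this
  have h3 : (univ.filter fun i => (w - (w j / u j) • u) i ≠ 0).card <
      (univ.filter fun i => w i ≠ 0).card := by
    refine Finset.card_lt_card ⟨?_, ?_⟩
    · intro x hx
      rw [Finset.mem_filter] at hx ⊢
      refine ⟨Finset.mem_univ _, fun h4 => hx.2 ?_⟩
      rw [Pi.sub_apply, Pi.smul_apply, h4, hu.2 x h4, smul_zero, sub_zero]
    · intro hsub
      have h4 := hsub (Finset.mem_filter.2 ⟨Finset.mem_univ j, hwj⟩)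
      rw [Finset.mem_filter] at h4
      refine h4.2 ?_
      rw [Pi.sub_apply, Pi.smul_apply, smul_eq_mul, div_mul_cancel₀ _ hj, sub_self]
  rw [hc] at h3
  exact Nat.find_min h1 h3 ⟨_, hv, hv', rfl⟩

end rat

section adj

variable {N : Type*} [Fintype N] [DecidableEq N]

/-- **The matrices generate everything** if all linear relations between the entries of `P` with
algebraic coefficients are satisfied by `E A'`. -/
theorem adjoin_ge (E : Subalgebra ℂ (Matrix N N ℂ)) (h : Submodule ℂ (Matrix N N ℂ))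
    {P P' A A' : Matrix N N ℂ} (h1 : P * P' = 1)
    (h2 : P' * P = 1) (hE : ∀ δ : Derivation ℚ ℂ ℂ, ∀ X ∈ E, X.map δ ∈ E)
    (hδ : ∀ δ : Derivation ℚ ℂ ℂ, ∀ X ∈ h, X.map δ ∈ h) (hhE : ∀ X ∈ h, X ∈ E)
    (hP : ∀ δ : Derivation ℚ ℂ ℂ, P.map δ * P' ∈ h)
    (hA : A * A' = 1) (hAa : ∀ i j, IsAlgebraic ℚ (A' i j)) (hPA : P * A ∈ E)
    (hW : ∀ B : Matrix N N ℂ, (∀ i j, IsAlgebraic ℚ (B i j)) → ∑ p : N × N,
      B p.1 p.2 * P p.1 p.2 = 0 → ∀ x ∈ E, ∑ p : N × N, B p.1 p.2 * (x * A') p.1 p.2 = 0) :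
    E ≤ Algebra.adjoin ℂ (h : Set (Matrix N N ℂ)) := by
  set A₀ := Algebra.adjoin ℂ (h : Set (Matrix N N ℂ)) with hA₀
  have hle : A₀ ≤ E := Algebra.adjoin_le fun x hx => hhE x hx
  have hAδ : ∀ δ : Derivation ℚ ℂ ℂ, ∀ X ∈ A₀, X.map δ ∈ A₀ := by
    intro δ X hX
    induction hX using Algebra.adjoin_induction with
    | mem x hx => exact Algebra.subset_adjoin (hδ δ x hx)
    | algebraMap r =>
      rw [Algebra.algebraMap_eq_smul_one, map_smul_der, map_one_der, smul_zero, add_zero]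
      exact A₀.smul_mem A₀.one_mem _
    | add x y _ _ hx hy =>
      have : (x + y).map δ = x.map δ + y.map δ := by
        ext i j
        exact map_add δ _ _
      rw [this]
      exact A₀.add_mem hx hy
    | mul x y hx' hy' hx hy =>
      rw [map_mul_der]
      exact A₀.add_mem (A₀.mul_mem hx hy') (A₀.mul_mem hx' hy)
  by_contra hne
  rw [SetLike.not_le_iff_exists] at hne
  obtain ⟨x₀, hx₀, hx₀'⟩ := hne
  set V : Submodule ℂ (Matrix N N ℂ) := A₀.toSubmodule.map (LinearMap.mulRight ℂ P) with hV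
  set V₁ : Submodule ℂ (Matrix N N ℂ) := E.toSubmodule.map (LinearMap.mulRight ℂ A') with hV₁
  have hx₁ : x₀ * P ∈ V₁ := by
    refine ⟨x₀ * (P * A), E.mul_mem hx₀ hPA, ?_⟩
    change x₀ * (P * A) * A' = x₀ * P
    rw [Matrix.mul_assoc, Matrix.mul_assoc P A A', hA, Matrix.mul_one]
  have hx₂ : x₀ * P ∉ V := by
    rintro ⟨a, ha, h5⟩
    have h6 : a * P = x₀ * P := h5
    have h7 : a = x₀ := by
      calc a = a * P * P' := by rw [Matrix.mul_assoc, h1, Matrix.mul_one]
        _ = x₀ := by rw [h6, Matrix.mul_assoc, h1, Matrix.mul_one]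
    rw [← h7] at hx₀'
    exact hx₀' ha
  have hVδ : ∀ δ : Derivation ℚ ℂ ℂ, ∀ v ∈ V, v.map δ ∈ V := by
    rintro δ _ ⟨a, ha, rfl⟩
    refine ⟨a.map δ + a * (P.map δ * P'), ?_, ?_⟩
    · exact A₀.add_mem (hAδ δ a ha) (A₀.mul_mem ha (Algebra.subset_adjoin (hP δ)))
    · change (a.map δ + a * (P.map δ * P')) * P = (a * P).map δ
      rw [map_mul_der, Matrix.add_mul]
      congr 1
      rw [Matrix.mul_assoc, Matrix.mul_assoc, h2, Matrix.mul_one]
  have hPV : P ∈ V := ⟨1, A₀.one_mem, Matrix.one_mul P⟩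
  obtain ⟨f, hf0, hf⟩ := Submodule.exists_le_ker_of_notMem hx₂
  set W : Submodule ℂ (N × N → ℂ) :=
    { carrier := {w | ∀ v ∈ V, ∑ p : N × N, w p * v p.1 p.2 = 0}
      zero_mem' := fun v _ => by simp
      add_mem' := by
        intro a b ha hb v hv
        simp only [Pi.add_apply, add_mul, Finset.sum_add_distrib]
        rw [ha v hv, hb v hv, add_zero]
      smul_mem' := by
        intro c a ha v hv
        simp only [Pi.smul_apply, smul_eq_mul, mul_assoc]
        rw [← Finset.mul_sum, ha v hv, mul_zero] } with hWdef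
  have hWf : (fun p : N × N => f (Matrix.single p.1 p.2 1)) ∈ W := by
    intro v hv
    rw [← exists_coeff]
    exact LinearMap.mem_ker.1 (hf hv)
  have h3 := exists_rat' W (by
    intro δ w hw v hv
    have h3 := congrArg δ (hw v hv)
    rw [map_zero, map_sum] at h3
    have h4 := hw _ (hVδ δ v hv)
    have h5 : ∑ p : N × N, δ (w p * v p.1 p.2) = ∑ p : N × N, δ (w p) * v p.1 p.2 +
        ∑ p : N × N, w p * (v.map δ) p.1 p.2 := by
      rw [← Finset.sum_add_distrib]
      refine Finset.sum_congr rfl fun p _ => ?_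
      rw [Derivation.leibniz, smul_eq_mul, smul_eq_mul, Matrix.map_apply]
      ring
    rw [h5, h4, add_zero] at h3
    exact h3) hWf
  have h4 : (Submodule.span ℂ {w | w ∈ W ∧ ∀ i, IsAlgebraic ℚ (w i)} : Submodule ℂ (N × N → ℂ)) ≤
      { carrier := {w | ∀ v ∈ V₁, ∑ p : N × N, w p * v p.1 p.2 = 0}
        zero_mem' := fun v _ => by simp
        add_mem' := by
          intro a b ha hb v hv
          simp only [Pi.add_apply, add_mul, Finset.sum_add_distrib]
          rw [ha v hv, hb v hv, add_zero]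
        smul_mem' := by
          intro c a ha v hv
          simp only [Pi.smul_apply, smul_eq_mul, mul_assoc]
          rw [← Finset.mul_sum, ha v hv, mul_zero] } := by
    refine Submodule.span_le.2 ?_
    rintro w ⟨hw, hwa⟩ _ ⟨x, hx, rfl⟩
    exact hW (Matrix.of fun i j => w (i, j)) (fun i j => hwa _) (hw P hPV) x hx
  have h5 := h4 h3 _ hx₁
  rw [← exists_coeff] at h5
  exact hf0 h5

end adj

variable {N : Type} [Fintype N] [DecidableEq N] [Nonempty N] {n : ℕ}
variable {Γ : Fin n → Matrix N N ℂ}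

/-- The even Clifford algebra. -/
def Ev (Γ : Fin n → Matrix N N ℂ) : Subalgebra ℂ (Matrix N N ℂ) :=
  Algebra.adjoin ℂ {x | ∃ i j, x = Γ i * Γ j}

theorem two_mem_Ev (i j : Fin n) : Γ i * Γ j ∈ Ev Γ := Algebra.subset_adjoin ⟨i, j, rfl⟩

theorem Ts_mul_mem_Ev {t s : Matrix N N ℂ} (ht : t ∈ Ts Γ) (hs : s ∈ Ts Γ) : t * s ∈ Ev Γ := by
  obtain ⟨v, rfl⟩ := mem_Ts.1 ht
  obtain ⟨w, rfl⟩ := mem_Ts.1 hs
  rw [Finset.sum_mul_sum]
  refine Subalgebra.sum_mem _ fun i _ => Subalgebra.sum_mem _ fun j _ => ?_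
  rw [Matrix.smul_mul, Matrix.mul_smul]
  exact Subalgebra.smul_mem _ (Subalgebra.smul_mem _ (two_mem_Ev i j) _) _

theorem La_le_Ev {X : Matrix N N ℂ} (hX : X ∈ La Γ) : X ∈ Ev Γ := by
  have h1 : La Γ ≤ (Ev Γ).toSubmodule := by
    refine Submodule.span_le.2 ?_
    rintro _ ⟨t, ht, s, hs, rfl⟩
    exact Subalgebra.sub_mem _ (Ts_mul_mem_Ev ht hs) (Ts_mul_mem_Ev hs ht)
  exact h1 hX

theorem prod_mem_Ev : ∀ (m : ℕ) (l : List (Fin n)), l.length = m + m → (l.map Γ).prod ∈ Ev Γ := by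
  intro m
  induction m with
  | zero =>
    intro l hl
    rw [List.length_eq_zero_iff.1 hl]
    exact Subalgebra.one_mem _
  | succ m ih =>
    intro l hl
    match l, hl with
    | [a], hl =>
      rw [List.length_singleton] at hl
      omega
    | a :: b :: l, hl =>
      rw [List.map_cons, List.map_cons, List.prod_cons, List.prod_cons, ← Matrix.mul_assoc]
      refine Subalgebra.mul_mem _ (two_mem_Ev a b) (ih l ?_)
      simp only [List.length_cons] at hl
      omega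

theorem Ev_der (hΓ : ∀ i a b, IsAlgebraic ℚ (Γ i a b)) (δ : Derivation ℚ ℂ ℂ)
    {X : Matrix N N ℂ} (hX : X ∈ Ev Γ) : X.map δ ∈ Ev Γ := by
  induction hX using Algebra.adjoin_induction with
  | mem x hx =>
    obtain ⟨i, j, rfl⟩ := hx
    rw [map_mul_der, map_gam hΓ, map_gam hΓ, Matrix.zero_mul, Matrix.mul_zero, add_zero]
    exact Subalgebra.zero_mem _
  | algebraMap r =>
    rw [Algebra.algebraMap_eq_smul_one, map_smul_der, map_one_der, smul_zero, add_zero]
    exact Subalgebra.smul_mem _ (Subalgebra.one_mem _) _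
  | add x y _ _ hx hy =>
    have : (x + y).map δ = x.map δ + y.map δ := by
      ext i j
      exact map_add δ _ _
    rw [this]
    exact Subalgebra.add_mem _ hx hy
  | mul x y hx' hy' hx hy =>
    rw [map_mul_der]
    exact Subalgebra.add_mem _ (Subalgebra.mul_mem _ hx hy') (Subalgebra.mul_mem _ hx' hy)

namespace Cl

/-- The product of all generators. -/
theorem omega_mul (h : Cl Γ) (i : Fin n) : Γ i * ((List.finRange n).map Γ).prod =
    ((-1 : ℂ) ^ (n - 1)) • (((List.finRange n).map Γ).prod * Γ i) := by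
  have hprod : ∀ ε : Fin n → ℂ, ((List.finRange n).map ε).prod = ∏ j, ε j := by
    intro ε
    rw [← List.ofFn_eq_map, List.prod_ofFn]
  have h3 := sgn (Γ := Γ) (x := Γ i) (ε := fun j => if i = j then 1 else -1) (fun j => by
    by_cases hij : i = j
    · simp only [hij, if_true, one_smul]
    · simp only [if_neg hij, neg_one_smul]
      exact h.anti' hij) (List.finRange n)
  rw [hprod, Finset.prod_ite, Finset.prod_const_one, one_mul, Finset.prod_const] at h3
  have h4 : (Finset.univ.filter fun j => ¬ i = j).card = n - 1 := by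
    rw [Finset.filter_ne, Finset.card_erase_of_mem (Finset.mem_univ i), Finset.card_univ,
      Fintype.card_fin]
  rwa [h4] at h3

theorem omega_unit (h : Cl Γ) : IsUnit ((List.finRange n).map Γ).prod := by
  refine List.prod_isUnit fun m hm => ?_
  obtain ⟨i, -, rfl⟩ := List.mem_map.1 hm
  exact ⟨⟨Γ i, Γ i, h.sq_one i, h.sq_one i⟩, rfl⟩

theorem omega_scalar (h : Cl Γ) (hn : Odd n) : ∃ c : ℂ, c ≠ 0 ∧
    ((List.finRange n).map Γ).prod = c • (1 : Matrix N N ℂ) := by
  have h1 : Even (n - 1) := by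
    obtain ⟨m, hm⟩ := hn
    exact ⟨m, by omega⟩
  obtain ⟨c, hc⟩ := h.scalar_of_commute (X := ((List.finRange n).map Γ).prod) (fun i => by
    rw [h.omega_mul i, h1.neg_one_pow, one_smul])
  refine ⟨c, ?_, hc⟩
  rintro rfl
  have h2 := h.omega_unit
  rw [hc, zero_smul] at h2
  exact not_isUnit_zero h2

/-- For odd `n` the even Clifford algebra is everything. -/
theorem Ev_eq_top (h : Cl Γ) (hn : Odd n) : Ev Γ = ⊤ := by
  rw [eq_top_iff, ← h.gen]
  refine Algebra.adjoin_le ?_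
  rintro _ ⟨i, rfl⟩
  obtain ⟨c, hc0, hc⟩ := h.omega_scalar hn
  obtain ⟨m, hm⟩ := hn
  have h1 := prod_mem_Ev (Γ := Γ) (m + 1) (i :: List.finRange n) (by
    rw [List.length_cons, List.length_finRange]
    omega)
  rw [List.map_cons, List.prod_cons, hc, Matrix.mul_smul, Matrix.mul_one] at h1
  have h2 := Subalgebra.smul_mem _ h1 c⁻¹
  rwa [smul_smul, inv_mul_cancel₀ hc0, one_smul] at h2

/-- **The classification for matrices**, odd dimension. -/
theorem spinE (h : Cl Γ) (hn : Odd n) (h5 : n ≠ 5) {l : Submodule ℂ (Matrix N N ℂ)}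
    (hbr : ∀ X ∈ l, ∀ Y ∈ l, X * Y - Y * X ∈ l) (hle : l ≤ La Γ)
    (hirr : Ev Γ ≤ Algebra.adjoin ℂ (l : Set (Matrix N N ℂ))) : La Γ ≤ l := by
  refine h.spin h5 hbr hle ?_
  rw [h.Ev_eq_top hn] at hirr
  exact eq_top_iff.2 hirr

end Cl

end Pool.Agent.TH164.Spin
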