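import Pool.Agent.TH164.Spin.Ev8
import Pool.Agent.TH164.Spin.Evn

/-!
# The classification for matrices, all dimensions
-/

set_option autoImplicit false
set_option linter.unusedSectionVars false
set_option linter.unusedVariables false

open Module Matrix

attribute [local instance 100] LieRing.ofAssociativeRing

namespace Pool.Agent.TH164.Spin

variable {N : Type} [Fintype N] [DecidableEq N] [Nonempty N] {n : ℕ}
variable {Γ : Fin n → Matrix N N ℂ}

/-- A grading operator. -/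
structure Sg (Γ : Fin n → Matrix N N ℂ) (σ : Matrix N N ℂ) : Prop where
  sq : σ * σ = 1
  an : ∀ i, σ * Γ i = -(Γ i * σ)
  ev : σ ∈ Ev Γ

theorem Cl.exists_sg (h : Cl Γ) (hn : Even n) (h0 : 0 < n) : ∃ σ, Sg Γ σ := by
  set ω := ((List.finRange n).map Γ).prod with hω
  have h1 : Odd (n - 1) := by
    obtain ⟨m, hm⟩ := hn
    exact ⟨m - 1, by omega⟩
  have h2 : ∀ i, Γ i * ω = -(ω * Γ i) := by
    intro i
    rw [h.omega_mul i, h1.neg_one_pow, neg_one_smul]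
  have h3 : ∀ i, ω * ω * Γ i = Γ i * (ω * ω) := by
    intro i
    have e1 : ω * Γ i = -(Γ i * ω) := by rw [h2, neg_neg]
    calc ω * ω * Γ i = ω * (ω * Γ i) := Matrix.mul_assoc _ _ _
      _ = ω * (-(Γ i * ω)) := by rw [e1]
      _ = -(ω * Γ i * ω) := by rw [Matrix.mul_neg, ← Matrix.mul_assoc]
      _ = Γ i * (ω * ω) := by rw [e1, Matrix.neg_mul, neg_neg, Matrix.mul_assoc]
  obtain ⟨c, hc⟩ := h.scalar_of_commute h3
  have hc0 : c ≠ 0 := by
    rintro rfl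
    have h4 := h.omega_unit.mul h.omega_unit
    rw [← hω, hc, zero_smul] at h4
    exact not_isUnit_zero h4
  obtain ⟨ζ, hζ⟩ := IsAlgClosed.exists_pow_nat_eq c⁻¹ two_pos
  refine ⟨ζ • ω, ?_, ?_, ?_⟩
  · rw [Matrix.smul_mul, Matrix.mul_smul, hc, smul_smul, smul_smul, ← pow_two, hζ,
      inv_mul_cancel₀ hc0, one_smul]
  · intro i
    rw [Matrix.smul_mul, Matrix.mul_smul, h2, smul_neg, neg_neg]
  · refine Subalgebra.smul_mem _ ?_ _
    obtain ⟨m, hm⟩ := hn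
    exact prod_mem_Ev m _ (by rw [List.length_finRange, hm])

theorem Cl.even_part (h : Cl Γ) {σ : Matrix N N ℂ} (hσ : Sg Γ σ) (X : Matrix N N ℂ) :
    X + σ * X * σ ∈ Ev Γ ∧ ∀ i, Γ i * (X - σ * X * σ) ∈ Ev Γ := by
  have hX : X ∈ Algebra.adjoin ℂ (Set.range Γ) := by
    rw [h.gen]
    trivial
  have key : ∀ Y : Matrix N N ℂ, (Y + σ * Y * σ ∈ Ev Γ ∧ ∀ i, Γ i * (Y - σ * Y * σ) ∈ Ev Γ) →
      (X * Y + σ * (X * Y) * σ ∈ Ev Γ ∧ ∀ i, Γ i * (X * Y - σ * (X * Y) * σ) ∈ Ev Γ) := by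
    induction hX using Algebra.adjoin_induction with
    | mem x hx =>
      obtain ⟨j, rfl⟩ := hx
      rintro Y ⟨h1, h2⟩
      have e1 : σ * (Γ j * Y) * σ = -(Γ j * (σ * Y * σ)) := by
        rw [← Matrix.mul_assoc, hσ.an, Matrix.neg_mul, Matrix.neg_mul]
        simp only [Matrix.mul_assoc]
      constructor
      · rw [e1, ← sub_eq_add_neg, ← Matrix.mul_sub]
        exact h2 j
      · intro i
        rw [e1, sub_neg_eq_add, ← Matrix.mul_add, ← Matrix.mul_assoc]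
        exact Subalgebra.mul_mem _ (two_mem_Ev i j) h1
    | algebraMap r =>
      rintro Y ⟨h1, h2⟩
      have e1 : algebraMap ℂ (Matrix N N ℂ) r * Y = r • Y := by
        rw [Algebra.algebraMap_eq_smul_one, Matrix.smul_mul, Matrix.one_mul]
      rw [e1, Matrix.mul_smul, Matrix.smul_mul, ← smul_add, ← smul_sub]
      refine ⟨Subalgebra.smul_mem _ h1 _, fun i => ?_⟩
      rw [Matrix.mul_smul]
      exact Subalgebra.smul_mem _ (h2 i) _
    | add x y _ _ hx hy =>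
      intro Y hY
      obtain ⟨a1, a2⟩ := hx Y hY
      obtain ⟨b1, b2⟩ := hy Y hY
      rw [Matrix.add_mul, Matrix.mul_add, Matrix.add_mul]
      refine ⟨?_, fun i => ?_⟩
      · have := Subalgebra.add_mem _ a1 b1
        rwa [add_add_add_comm] at this
      · have := Subalgebra.add_mem _ (a2 i) (b2 i)
        rwa [← Matrix.mul_add, sub_add_sub_comm] at this
    | mul x y _ _ hx hy =>
      intro Y hY
      have := hx _ (hy Y hY)
      rwa [← Matrix.mul_assoc] at this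
  have h1 := key 1 (by
    rw [Matrix.mul_one, hσ.sq, sub_self]
    refine ⟨Subalgebra.add_mem _ (Subalgebra.one_mem _) (Subalgebra.one_mem _), fun i => ?_⟩
    rw [Matrix.mul_zero]
    exact Subalgebra.zero_mem _)
  rwa [Matrix.mul_one] at h1

/-- Subspaces stable under the even Clifford algebra. -/
theorem Cl.ev_stable (h : Cl Γ) {σ : Matrix N N ℂ} (hσ : Sg Γ σ) {W : Submodule ℂ (N → ℂ)}
    (hW : ∀ X ∈ Ev Γ, ∀ w ∈ W, X *ᵥ w ∈ W) (h0 : W ≠ ⊥) : W = ⊤ ∨
      ∃ ε : ℂ, (ε = 1 ∨ ε = -1) ∧ ∀ m, m ∈ W ↔ σ *ᵥ m = ε • m := by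
  have hs : ∀ m : N → ℂ, σ *ᵥ (σ *ᵥ m) = m := by
    intro m
    rw [Matrix.mulVec_mulVec, hσ.sq, Matrix.one_mulVec]
  have key : ∀ ε : ℂ, (ε = 1 ∨ ε = -1) → ∀ w ∈ W, w ≠ 0 → σ *ᵥ w = ε • w →
      ∀ v, σ *ᵥ v = ε • v → v ∈ W := by
    intro ε hε w hw hw0 hwε v hv
    obtain ⟨i, hi⟩ := Function.ne_iff.1 hw0
    have h2 : vecMulVec v (Pi.single i (w i)⁻¹) *ᵥ w = v := by
      rw [Matrix.vecMulVec_mulVec, single_dotProduct, inv_mul_cancel₀ hi]
      simp
    set X := vecMulVec v (Pi.single i (w i)⁻¹) with hX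
    have h1 := hW _ (h.even_part hσ X).1 w hw
    rw [Matrix.add_mulVec, ← Matrix.mulVec_mulVec, ← Matrix.mulVec_mulVec, hwε, Matrix.mulVec_smul,
      h2, Matrix.mulVec_smul, hv, smul_smul] at h1
    have h3 : ε * ε = 1 := by rcases hε with rfl | rfl <;> norm_num
    rw [h3, one_smul, ← two_smul ℂ v] at h1
    have h4 := W.smul_mem (2 : ℂ)⁻¹ h1
    rwa [smul_smul, inv_mul_cancel₀ two_ne_zero, one_smul] at h4
  have hsplit : ∀ m : N → ℂ, m = (2 : ℂ)⁻¹ • (m + σ *ᵥ m) + (2 : ℂ)⁻¹ • (m - σ *ᵥ m) := by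
    intro m
    rw [← smul_add, add_add_sub_cancel, ← two_smul ℂ m, smul_smul, inv_mul_cancel₀ two_ne_zero,
      one_smul]
  have hp : ∀ m : N → ℂ, σ *ᵥ ((2 : ℂ)⁻¹ • (m + σ *ᵥ m)) = (1 : ℂ) • ((2 : ℂ)⁻¹ • (m + σ *ᵥ m)) := by
    intro m
    rw [Matrix.mulVec_smul, Matrix.mulVec_add, hs, one_smul, add_comm]
  have hm : ∀ m : N → ℂ, σ *ᵥ ((2 : ℂ)⁻¹ • (m - σ *ᵥ m)) =
      (-1 : ℂ) • ((2 : ℂ)⁻¹ • (m - σ *ᵥ m)) := by
    intro m
    rw [Matrix.mulVec_smul, Matrix.mulVec_sub, hs, neg_one_smul, ← smul_neg, neg_sub]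
  have hWσ : ∀ w ∈ W, σ *ᵥ w ∈ W := fun w hw => hW σ hσ.ev w hw
  by_cases h1 : ∃ w ∈ W, w ≠ 0 ∧ σ *ᵥ w = (1 : ℂ) • w
  · obtain ⟨w, hw, hw0, hw1⟩ := h1
    by_cases h2 : ∃ w ∈ W, w ≠ 0 ∧ σ *ᵥ w = (-1 : ℂ) • w
    · obtain ⟨u, hu, hu0, hu1⟩ := h2
      left
      rw [eq_top_iff]
      intro m _
      rw [hsplit m]
      exact W.add_mem (key 1 (Or.inl rfl) w hw hw0 hw1 _ (hp m))
        (key (-1) (Or.inr rfl) u hu hu0 hu1 _ (hm m))
    · push Not at h2
      right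
      refine ⟨1, Or.inl rfl, fun m => ⟨fun hmW => ?_, fun h3 =>
        key 1 (Or.inl rfl) w hw hw0 hw1 m h3⟩⟩
      have h4 : (2 : ℂ)⁻¹ • (m - σ *ᵥ m) = 0 := by
        by_contra h5
        exact h2 _ (W.smul_mem _ (W.sub_mem hmW (hWσ m hmW))) h5 (hm m)
      rw [smul_eq_zero, or_iff_right (by norm_num), sub_eq_zero] at h4
      rw [one_smul]
      exact h4.symm
  · push Not at h1
    obtain ⟨w, hw, hw0⟩ := Submodule.exists_mem_ne_zero_of_ne_bot h0
    have h5 : ∀ m ∈ W, σ *ᵥ m = (-1 : ℂ) • m := by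
      intro m hmW
      have h4 : (2 : ℂ)⁻¹ • (m + σ *ᵥ m) = 0 := by
        by_contra h5
        exact h1 _ (W.smul_mem _ (W.add_mem hmW (hWσ m hmW))) h5 (hp m)
      rw [smul_eq_zero, or_iff_right (by norm_num)] at h4
      rw [neg_one_smul]
      exact eq_neg_of_add_eq_zero_right h4
    right
    exact ⟨-1, Or.inr rfl, fun m => ⟨h5 m, fun h3 =>
      key (-1) (Or.inr rfl) w hw hw0 (h5 w hw) m h3⟩⟩

/-- **The classification for matrices**, even dimension. -/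
theorem Cl.spinEven (h : Cl Γ) (hn : Even n) (h3 : 3 ≤ n) {l : Submodule ℂ (Matrix N N ℂ)}
    (hbr : ∀ X ∈ l, ∀ Y ∈ l, X * Y - Y * X ∈ l) (hle : l ≤ La Γ)
    (hirr : Ev Γ ≤ Algebra.adjoin ℂ (l : Set (Matrix N N ℂ))) : La Γ ≤ l := by
  obtain ⟨σ, hσ⟩ := h.exists_sg hn (by omega)
  set ρ : Matrix N N ℂ ≃ₐ[ℂ] ((N → ℂ) →ₗ[ℂ] (N → ℂ)) := Matrix.toLinAlgEquiv' with hρ
  have hρa : ∀ X v, ρ X v = X *ᵥ v := fun X v => Matrix.toLinAlgEquiv'_apply X v
  set L : LieSubalgebra ℂ (End ℂ (N → ℂ)) :=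
    { l.map ρ.toLinearMap with
      lie_mem' := by
        rintro _ _ ⟨X, hX, rfl⟩ ⟨Y, hY, rfl⟩
        refine ⟨X * Y - Y * X, hbr X hX Y hY, ?_⟩
        change ρ (X * Y - Y * X) = ρ X * ρ Y - ρ Y * ρ X
        rw [map_sub, map_mul, map_mul] } with hL
  have hmemL : ∀ x : End ℂ (N → ℂ), x ∈ L ↔ ∃ X ∈ l, ρ X = x := fun x => Iff.rfl
  set T' : Submodule ℂ (End ℂ (N → ℂ)) := (Ts Γ).map ρ.toLinearMap with hT'
  have hmemT : ∀ x : End ℂ (N → ℂ), x ∈ T' ↔ ∃ X ∈ Ts Γ, ρ X = x := fun x => Iff.rfl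
  set q' : T' →ₗ[ℂ] T' →ₗ[ℂ] ℂ := (bq (N := N)).compl₁₂
    (ρ.symm.toLinearMap ∘ₗ T'.subtype) (ρ.symm.toLinearMap ∘ₗ T'.subtype) with hq'
  have hq'a : ∀ t s : T', q' t s = bq (ρ.symm t) (ρ.symm s) := fun t s => rfl
  have hsT : ∀ t : T', ρ.symm t ∈ Ts Γ := by
    rintro ⟨_, X, hX, rfl⟩
    change ρ.symm (ρ X) ∈ _
    rwa [AlgEquiv.symm_apply_apply]
  have hfin : finrank ℂ T' = n := by
    have h1 := LinearEquiv.finrank_map_eq ρ.toLinearEquiv (Ts Γ)
    exact h1.trans h.finrank_Ts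
  have hg : Gr L T' q' (ρ σ) := by
    refine ⟨?_, ?_, ?_, ?_, ?_, ?_⟩
    · intro t s
      have h1 := h.relT (hsT t) (hsT s)
      have h2 := congrArg ρ h1
      rw [map_add, map_mul, map_mul, AlgEquiv.apply_symm_apply, AlgEquiv.apply_symm_apply,
        map_smul, map_one] at h2
      rw [h2, hq'a, Algebra.algebraMap_eq_smul_one]
    · intro t ht
      have h1 : ρ.symm (t : End ℂ (N → ℂ)) = 0 := by
        refine h.nd (hsT t) fun s hs => ?_
        have h2 := ht ⟨ρ s, s, hs, rfl⟩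
        rw [hq'a] at h2
        change bq (ρ.symm t) (ρ.symm (ρ s)) = 0 at h2
        rwa [AlgEquiv.symm_apply_apply] at h2
      rw [map_eq_zero_iff _ ρ.symm.injective] at h1
      exact Subtype.ext h1
    · intro x hx
      obtain ⟨X, hX, rfl⟩ := (hmemL x).1 hx
      have h1 : La Γ ≤ (Submodule.span ℂ
          {y | ∃ t s : T', y = (t : End ℂ (N → ℂ)) * s - s * t}).comap ρ.toLinearMap := by
        refine Submodule.span_le.2 ?_
        rintro _ ⟨t, ht, s, hs, rfl⟩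
        refine Submodule.subset_span ⟨⟨ρ t, t, ht, rfl⟩, ⟨ρ s, s, hs, rfl⟩, ?_⟩
        change ρ (t * s - s * t) = ρ t * ρ s - ρ s * ρ t
        rw [map_sub, map_mul, map_mul]
      exact h1 (hle hX)
    · rw [← map_mul, hσ.sq, map_one]
    · intro t
      have h0 : ∀ x ∈ Ts Γ, σ * x = -(x * σ) := by
        intro x hx
        induction hx using Submodule.span_induction with
        | mem x hx =>
          obtain ⟨i, rfl⟩ := hx
          exact hσ.an i
        | zero => rw [Matrix.mul_zero, Matrix.zero_mul, neg_zero]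
        | add a b _ _ ha hb => rw [Matrix.mul_add, Matrix.add_mul, ha, hb, neg_add]
        | smul c a _ ha => rw [Matrix.mul_smul, Matrix.smul_mul, ha, smul_neg]
      have h1 : σ * ρ.symm t = -(ρ.symm t * σ) := h0 _ (hsT t)
      have h2 := congrArg ρ h1
      rwa [map_mul, map_neg, map_mul, AlgEquiv.apply_symm_apply] at h2
    · intro W hW h0
      have hWE : ∀ X ∈ Ev Γ, ∀ w ∈ W, X *ᵥ w ∈ W := by
        intro X hX0
        have hX := hirr hX0
        clear hX0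
        induction hX using Algebra.adjoin_induction with
        | mem x hx =>
          intro w hw
          rw [← hρa]
          exact hW (ρ x) ((hmemL _).2 ⟨x, hx, rfl⟩) w hw
        | algebraMap r =>
          intro w hw
          rw [Algebra.algebraMap_eq_smul_one, Matrix.smul_mulVec, Matrix.one_mulVec]
          exact W.smul_mem _ hw
        | add x y _ _ hx hy =>
          intro w hw
          rw [Matrix.add_mulVec]
          exact W.add_mem (hx w hw) (hy w hw)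
        | mul x y _ _ hx hy =>
          intro w hw
          rw [← Matrix.mulVec_mulVec]
          exact hx _ (hy w hw)
      rcases h.ev_stable hσ hWE h0 with h1 | ⟨ε, hε, h1⟩
      · exact Or.inl h1
      · refine Or.inr ⟨ε, hε, fun m => ?_⟩
        rw [h1, hρa]
  have key := hg.full (fun W hW h0 => by
    refine eq_top_of_stable (fun X => ?_) h0
    have hX : X ∈ Algebra.adjoin ℂ (Set.range Γ) := by
      rw [h.gen]
      trivial
    induction hX using Algebra.adjoin_induction with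
    | mem x hx =>
      obtain ⟨i, rfl⟩ := hx
      intro w hw
      rw [← hρa]
      exact hW ⟨ρ (Γ i), Γ i, gam_mem i, rfl⟩ w hw
    | algebraMap r =>
      intro w hw
      rw [Algebra.algebraMap_eq_smul_one, Matrix.smul_mulVec, Matrix.one_mulVec]
      exact W.smul_mem _ hw
    | add x y _ _ hx hy =>
      intro w hw
      rw [Matrix.add_mulVec]
      exact W.add_mem (hx w hw) (hy w hw)
    | mul x y _ _ hx hy =>
      intro w hw
      rw [← Matrix.mulVec_mulVec]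
      exact hx _ (hy w hw)) (by rw [hfin]; exact h3)
  refine Submodule.span_le.2 ?_
  rintro _ ⟨t, ht, s, hs, rfl⟩
  obtain ⟨X, hX, h1⟩ := (hmemL _).1 (key ⟨ρ t, t, ht, rfl⟩ ⟨ρ s, s, hs, rfl⟩)
  have h2 : ρ X = ρ (t * s - s * t) := by
    rw [h1, map_sub, map_mul, map_mul]
  rw [← ρ.injective h2]
  exact hX

/-- **The classification for matrices.** -/
theorem Cl.spinAll (h : Cl Γ) (h3 : 3 ≤ n) (h5 : n ≠ 5) {l : Submodule ℂ (Matrix N N ℂ)}
    (hbr : ∀ X ∈ l, ∀ Y ∈ l, X * Y - Y * X ∈ l) (hle : l ≤ La Γ)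
    (hirr : Ev Γ ≤ Algebra.adjoin ℂ (l : Set (Matrix N N ℂ))) : La Γ ≤ l := by
  rcases Nat.even_or_odd n with hn | hn
  · exact h.spinEven hn h3 hbr hle hirr
  · exact h.spinE hn h5 hbr hle hirr

end Pool.Agent.TH164.Spin
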