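import Mathlib

/-!
# The formula of Jacobi for derivations
-/

set_option autoImplicit false

open Matrix Finset

namespace Pool.Agent.TH164.Spin

variable {n : Type*} [Fintype n] [DecidableEq n]

theorem der_prod {ι : Type*} [DecidableEq ι] (δ : Derivation ℚ ℂ ℂ) (s : Finset ι) (f : ι → ℂ) :
    δ (∏ i ∈ s, f i) = ∑ i ∈ s, (∏ j ∈ s.erase i, f j) * δ (f i) := by
  induction s using Finset.induction_on with
  | empty => simp
  | insert a s ha ih =>
    rw [Finset.prod_insert ha, Derivation.leibniz, ih, Finset.sum_insert ha,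
      Finset.erase_insert ha, smul_eq_mul, smul_eq_mul, Finset.mul_sum, add_comm]
    congr 1
    refine Finset.sum_congr rfl fun i hi => ?_
    have hia : i ≠ a := by
      rintro rfl
      exact ha hi
    rw [Finset.erase_insert_of_ne hia.symm, Finset.prod_insert (by
      rw [Finset.mem_erase]
      exact fun h => ha h.2)]
    ring

/-- Jacobi's formula. -/
theorem der_det (δ : Derivation ℚ ℂ ℂ) (M : Matrix n n ℂ) :
    δ M.det = (M.adjugate * M.map δ).trace := by
  have h1 : (M.adjugate * M.map δ).trace =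
      ∑ i, (M.updateCol i (fun k => δ (M k i))).det := by
    unfold Matrix.trace
    refine Finset.sum_congr rfl fun i _ => ?_
    rw [Matrix.diag_apply, Matrix.mul_apply, ← Matrix.cramer_apply, Matrix.cramer_eq_adjugate_mulVec]
    rfl
  rw [h1, Matrix.det_apply', map_sum]
  simp_rw [Matrix.det_apply']
  rw [Finset.sum_comm]
  refine Finset.sum_congr rfl fun σ _ => ?_
  rw [← Finset.mul_sum]
  have h2 : δ (((Equiv.Perm.sign σ : ℤ) : ℂ) * ∏ i, M (σ i) i) =
      ((Equiv.Perm.sign σ : ℤ) : ℂ) * δ (∏ i, M (σ i) i) := by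
    rw [Derivation.leibniz, Derivation.map_intCast, smul_zero, add_zero, smul_eq_mul]
  rw [h2]
  congr 1
  rw [der_prod]
  refine Finset.sum_congr rfl fun i _ => ?_
  rw [← Finset.mul_prod_erase Finset.univ (fun j => (M.updateCol i fun k => δ (M k i)) (σ j) j)
    (Finset.mem_univ i), mul_comm]
  congr 1
  · simp
  · refine Finset.prod_congr rfl fun j hj => ?_
    rw [Matrix.updateCol_ne (Finset.ne_of_mem_erase hj)]

/-- The logarithmic derivative of the determinant. -/
theorem der_det' (δ : Derivation ℚ ℂ ℂ) {P P' : Matrix n n ℂ} (h : P * P' = 1) :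
    δ P.det = P.det * (P.map δ * P').trace := by
  have h2 : P' * P = 1 := mul_eq_one_comm.1 h
  have h3 : P.adjugate = P.det • P' := by
    calc P.adjugate = P.adjugate * (P * P') := by rw [h, Matrix.mul_one]
      _ = P.det • P' := by
        rw [← Matrix.mul_assoc, Matrix.adjugate_mul, Matrix.smul_mul, Matrix.one_mul]
  rw [der_det, h3, Matrix.smul_mul, Matrix.trace_smul, smul_eq_mul, Matrix.trace_mul_comm]

end Pool.Agent.TH164.Spin
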