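import Pool.Agent.TH164.Spin.Gen2

/-!
# The group `GSpin` is algebraic over the algebraic numbers
-/

set_option autoImplicit false
set_option linter.unusedSectionVars false
set_option linter.unusedVariables false

open Module Matrix

namespace Pool.Agent.TH164.Spin

open Pool.Agent.TH119.MX Pool.Agent.TH119.DR Pool.Agent.TH164.A1

/-- Subspaces spanned by algebraic vectors are cut out by algebraic linear forms. -/
theorem exists_ann {I : Type*} [Fintype I] [DecidableEq I] (W : Submodule ℂ (I → ℂ))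
    (hW : W ≤ Submodule.span ℂ {w | w ∈ W ∧ ∀ i, IsAlgebraic ℚ (w i)}) {v : I → ℂ} (hv : v ∉ W) :
    ∃ w : I → ℂ, (∀ i, IsAlgebraic ℚ (w i)) ∧ (∀ u ∈ W, ∑ i, w i * u i = 0) ∧
      ∑ i, w i * v i ≠ 0 := by
  obtain ⟨f, hf0, hf⟩ := Submodule.exists_le_ker_of_notMem hv
  have hfe : ∀ x : I → ℂ, f x = ∑ i, f (Pi.single i 1) * x i := by
    intro x
    conv_lhs => rw [← Finset.univ_sum_single x]
    rw [map_sum]
    refine Finset.sum_congr rfl fun i _ => ?_
    have h1 : (Pi.single i (x i) : I → ℂ) = x i • Pi.single i (1 : ℂ) := by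
      rw [← Pi.single_smul, smul_eq_mul, mul_one]
    rw [h1, map_smul, smul_eq_mul, mul_comm]
  set V : Submodule ℂ (I → ℂ) :=
    { carrier := {w | ∀ u ∈ W, ∑ i, w i * u i = 0}
      zero_mem' := fun v _ => by simp
      add_mem' := by
        intro a b ha hb v hv
        simp only [Pi.add_apply, add_mul, Finset.sum_add_distrib]
        rw [ha v hv, hb v hv, add_zero]
      smul_mem' := by
        intro c a ha v hv
        simp only [Pi.smul_apply, smul_eq_mul, mul_assoc]
        rw [← Finset.mul_sum, ha v hv, mul_zero] } with hV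
  have h1 := exists_rat' V (by
    intro δ w hw u hu
    have h2 := hW hu
    clear hu
    induction h2 using Submodule.span_induction with
    | mem x hx =>
      have h3 := congrArg δ (hw x hx.1)
      rw [map_zero, map_sum] at h3
      rw [← h3]
      refine Finset.sum_congr rfl fun i _ => ?_
      rw [Derivation.leibniz, deriv_alg δ (hx.2 i), smul_zero, zero_add, smul_eq_mul, mul_comm]
    | zero => simp
    | add a b _ _ ha hb =>
      simp only [Pi.add_apply, mul_add, Finset.sum_add_distrib]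
      rw [ha, hb, add_zero]
    | smul c a _ ha =>
      have h3 : ∀ i, δ (w i) * (c • a) i = c * (δ (w i) * a i) := by
        intro i
        rw [Pi.smul_apply, smul_eq_mul]
        ring
      simp only [h3]
      rw [← Finset.mul_sum, ha, mul_zero])
  have h2 : (fun i => f (Pi.single i 1)) ∈ V := by
    intro u hu
    rw [← hfe]
    exact LinearMap.mem_ker.1 (hf hu)
  by_contra hcon
  push Not at hcon
  have h3 : (Submodule.span ℂ {w | w ∈ V ∧ ∀ i, IsAlgebraic ℚ (w i)} : Submodule ℂ (I → ℂ)) ≤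
      { carrier := {w | ∑ i, w i * v i = 0}
        zero_mem' := by simp
        add_mem' := by
          intro a b ha hb
          change ∑ i, (a + b) i * v i = 0
          simp only [Pi.add_apply, add_mul, Finset.sum_add_distrib]
          rw [show ∑ i, a i * v i = 0 from ha, show ∑ i, b i * v i = 0 from hb, add_zero]
        smul_mem' := by
          intro c a ha
          change ∑ i, (c • a) i * v i = 0
          simp only [Pi.smul_apply, smul_eq_mul, mul_assoc]
          rw [← Finset.mul_sum, show ∑ i, a i * v i = 0 from ha, mul_zero] } := by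
    refine Submodule.span_le.2 ?_
    rintro w ⟨hw, hwa⟩
    exact hcon w hwa hw
  have h4 : ∑ i, f (Pi.single i 1) * v i = 0 := h3 (h1 h2)
  rw [← hfe] at h4
  exact hf0 h4

/-- The polynomials with algebraic coefficients. -/
noncomputable def Ap (I : Type*) : Subring (MvPolynomial I ℂ) :=
  (MvPolynomial.map (algebraMap (algebraicClosure ℚ ℂ) ℂ)).range

theorem Ap_coeff {I : Type*} {p : MvPolynomial I ℂ} (hp : p ∈ Ap I) (m : I →₀ ℕ) :
    IsAlgebraic ℚ (p.coeff m) := by
  obtain ⟨r, rfl⟩ := hp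
  rw [MvPolynomial.coeff_map]
  exact mem_algebraicClosure_iff.1 (r.coeff m).2

theorem C_Ap {I : Type*} {c : ℂ} (hc : IsAlgebraic ℚ c) : MvPolynomial.C c ∈ Ap I :=
  ⟨MvPolynomial.C ⟨c, mem_algebraicClosure_iff.2 hc⟩, by rw [MvPolynomial.map_C]; rfl⟩

theorem X_Ap {I : Type*} (i : I) : (MvPolynomial.X i : MvPolynomial I ℂ) ∈ Ap I :=
  ⟨MvPolynomial.X i, by rw [MvPolynomial.map_X]⟩

variable {N : Type} [Fintype N] [DecidableEq N] [Nonempty N] {n : ℕ}
variable {Γ : Fin n → Matrix N N ℂ}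

/-- The generic matrix. -/
noncomputable def gX (N : Type) : Matrix N N (MvPolynomial (N × N) ℂ) :=
  Matrix.of fun a b => MvPolynomial.X (a, b)

theorem det_Ap {M : Matrix N N (MvPolynomial (N × N) ℂ)} (hM : ∀ a b, M a b ∈ Ap (N × N)) :
    M.det ∈ Ap (N × N) := by
  rw [Matrix.det_apply]
  refine Subring.sum_mem _ fun σ _ => ?_
  rw [Units.smul_def, zsmul_eq_mul]
  exact Subring.mul_mem _ (intCast_mem _ _) (Subring.prod_mem _ fun i _ => hM _ _)

theorem adj_Ap {M : Matrix N N (MvPolynomial (N × N) ℂ)} (hM : ∀ a b, M a b ∈ Ap (N × N))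
    (a b : N) : M.adjugate a b ∈ Ap (N × N) := by
  rw [Matrix.adjugate_apply]
  refine det_Ap fun c d => ?_
  rw [Matrix.updateRow_apply]
  split_ifs
  · rw [Pi.single_apply]
    split_ifs
    · exact Subring.one_mem _
    · exact Subring.zero_mem _
  · exact hM _ _

theorem mul_Ap {M M' : Matrix N N (MvPolynomial (N × N) ℂ)} (hM : ∀ a b, M a b ∈ Ap (N × N))
    (hM' : ∀ a b, M' a b ∈ Ap (N × N)) (a b : N) : (M * M') a b ∈ Ap (N × N) := by
  rw [Matrix.mul_apply]
  exact Subring.sum_mem _ fun c _ => Subring.mul_mem _ (hM _ _) (hM' _ _)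

theorem gX_Ap (a b : N) : gX N a b ∈ Ap (N × N) := X_Ap _

/-- Evaluation of matrices of polynomials. -/
noncomputable def evM (g : Matrix N N ℂ) : MvPolynomial (N × N) ℂ →+* ℂ :=
  MvPolynomial.eval (fun b => g b.1 b.2)

theorem evM_gX (g : Matrix N N ℂ) : (gX N).map (evM g) = g := by
  ext a b
  rw [Matrix.map_apply]
  change MvPolynomial.eval _ (MvPolynomial.X (a, b)) = _
  rw [MvPolynomial.eval_X]

theorem evM_C (g X : Matrix N N ℂ) : (X.map MvPolynomial.C).map (evM g) = X := by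
  ext a b
  rw [Matrix.map_apply, Matrix.map_apply]
  change MvPolynomial.eval _ (MvPolynomial.C _) = _
  rw [MvPolynomial.eval_C]

/-- Membership in a subspace of matrices, as a condition on all pairings. -/
theorem mem_iff_ann {V : Submodule ℂ (Matrix N N ℂ)}
    (hV : V ≤ Submodule.span ℂ {x | x ∈ V ∧ ∀ a b, IsAlgebraic ℚ (x a b)}) (x : Matrix N N ℂ) :
    x ∈ V ↔ ∀ w : N × N → ℂ, (∀ p, IsAlgebraic ℚ (w p)) →
      (∀ u ∈ V, ∑ p : N × N, w p * u p.1 p.2 = 0) → ∑ p : N × N, w p * x p.1 p.2 = 0 := by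
  constructor
  · intro hx w _ h2
    exact h2 x hx
  · intro h
    by_contra hx
    let φ : Matrix N N ℂ →ₗ[ℂ] (N × N → ℂ) :=
      { toFun := fun x p => x p.1 p.2
        map_add' := fun _ _ => rfl
        map_smul' := fun _ _ => rfl }
    have hφ : Function.Injective φ := by
      intro a b hab
      ext i j
      exact congrFun hab (i, j)
    have h1 : φ x ∉ V.map φ := by
      rintro ⟨y, hy, hyx⟩
      rw [hφ hyx] at hy
      exact hx hy
    obtain ⟨w, hw1, hw2, hw3⟩ := exists_ann (V.map φ) (by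
      rintro _ ⟨y, hy, rfl⟩
      have h2 := hV hy
      have h3 : Submodule.span ℂ {x | x ∈ V ∧ ∀ a b, IsAlgebraic ℚ (x a b)} ≤
          (Submodule.span ℂ {w | w ∈ V.map φ ∧ ∀ i, IsAlgebraic ℚ (w i)}).comap φ := by
        rw [Submodule.span_le]
        rintro z ⟨hz1, hz2⟩
        exact Submodule.subset_span ⟨⟨z, hz1, rfl⟩, fun p => hz2 _ _⟩
      exact h3 h2) h1
    exact hw3 (h w hw1 fun u hu => hw2 (φ u) ⟨u, hu, rfl⟩)

theorem Ts_alg (hΓ : ∀ i a b, IsAlgebraic ℚ (Γ i a b)) :
    Ts Γ ≤ Submodule.span ℂ {x | x ∈ Ts Γ ∧ ∀ a b, IsAlgebraic ℚ (x a b)} := by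
  refine Submodule.span_le.2 ?_
  rintro _ ⟨i, rfl⟩
  exact Submodule.subset_span ⟨gam_mem i, hΓ i⟩

theorem Ev_alg (hΓ : ∀ i a b, IsAlgebraic ℚ (Γ i a b)) :
    (Ev Γ).toSubmodule ≤ Submodule.span ℂ
      {x | x ∈ (Ev Γ).toSubmodule ∧ ∀ a b, IsAlgebraic ℚ (x a b)} := by
  intro x hx
  have hx' : x ∈ Ev Γ := hx
  clear hx
  induction hx' using Algebra.adjoin_induction with
  | mem x hx' =>
    obtain ⟨i, j, rfl⟩ := hx'
    refine Submodule.subset_span ⟨two_mem_Ev i j, fun a b => ?_⟩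
    rw [Matrix.mul_apply]
    exact mem_QA.1 (Subfield.sum_mem _ fun c _ =>
      Subfield.mul_mem _ (mem_QA.2 (hΓ _ _ _)) (mem_QA.2 (hΓ _ _ _)))
  | algebraMap r =>
    rw [Algebra.algebraMap_eq_smul_one]
    refine Submodule.smul_mem _ _ (Submodule.subset_span ⟨Subalgebra.one_mem _, fun a b => ?_⟩)
    rw [Matrix.one_apply]
    split_ifs
    · exact isAlgebraic_one
    · exact isAlgebraic_zero
  | add x y hx1 hy1 hx hy => exact Submodule.add_mem _ hx hy
  | mul x y hx1 hy1 h1 h2 =>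
    clear hx1 hy1
    induction h1 using Submodule.span_induction with
    | mem a ha =>
      induction h2 using Submodule.span_induction with
      | mem b hb =>
        refine Submodule.subset_span ⟨Subalgebra.mul_mem _ ha.1 hb.1, fun i j => ?_⟩
        rw [Matrix.mul_apply]
        exact mem_QA.1 (Subfield.sum_mem _ fun c _ =>
          Subfield.mul_mem _ (mem_QA.2 (ha.2 _ _)) (mem_QA.2 (hb.2 _ _)))
      | zero =>
        rw [Matrix.mul_zero]
        exact Submodule.zero_mem _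
      | add b c _ _ hb hc =>
        rw [Matrix.mul_add]
        exact Submodule.add_mem _ hb hc
      | smul c b _ hb =>
        rw [Matrix.mul_smul]
        exact Submodule.smul_mem _ _ hb
    | zero =>
      rw [Matrix.zero_mul]
      exact Submodule.zero_mem _
    | add a b _ _ ha hb =>
      rw [Matrix.add_mul]
      exact Submodule.add_mem _ ha hb
    | smul c a _ ha =>
      rw [Matrix.smul_mul]
      exact Submodule.smul_mem _ _ ha

/-- Inverses in the even Clifford algebra. -/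
theorem inv_mem_Ev {g g' : Matrix N N ℂ} (h : g * g' = 1) (hg : g ∈ Ev Γ) : g' ∈ Ev Γ := by
  have h' : g' * g = 1 := mul_eq_one_comm.1 h
  let f : (Ev Γ).toSubmodule →ₗ[ℂ] (Ev Γ).toSubmodule :=
    { toFun := fun x => ⟨g * x, Subalgebra.mul_mem _ hg x.2⟩
      map_add' := fun x y => Subtype.ext (Matrix.mul_add _ _ _)
      map_smul' := fun c x => Subtype.ext (Matrix.mul_smul _ _ _) }
  have hf : Function.Injective f := by
    intro x y hxy
    have h1 : g * (x : Matrix N N ℂ) = g * y := congrArg Subtype.val hxy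
    have h2 := congrArg (fun z => g' * z) h1
    simp only [← Matrix.mul_assoc, h', Matrix.one_mul] at h2
    exact Subtype.ext h2
  obtain ⟨y, hy⟩ := (LinearMap.injective_iff_surjective.1 hf) ⟨1, Subalgebra.one_mem _⟩
  have h1 : g * (y : Matrix N N ℂ) = 1 := congrArg Subtype.val hy
  have h2 : g' = y := by
    calc g' = g' * (g * y) := by rw [h1, Matrix.mul_one]
      _ = y := by rw [← Matrix.mul_assoc, h', Matrix.one_mul]
  rw [h2]
  exact y.2

theorem conj_iff {g g' : Matrix N N ℂ} (h : g * g' = 1) (hg : ∀ i, g * Γ i * g' ∈ Ts Γ)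
    (t : Matrix N N ℂ) : g * t * g' ∈ Ts Γ ↔ t ∈ Ts Γ := by
  have h' : g' * g = 1 := mul_eq_one_comm.1 h
  have h1 : ∀ t ∈ Ts Γ, g * t * g' ∈ Ts Γ := by
    intro t ht
    induction ht using Submodule.span_induction with
    | mem x hx =>
      obtain ⟨i, rfl⟩ := hx
      exact hg i
    | zero => simp
    | add a b _ _ ha hb =>
      rw [Matrix.mul_add, Matrix.add_mul]
      exact Submodule.add_mem _ ha hb
    | smul c a _ ha =>
      rw [Matrix.mul_smul, Matrix.smul_mul]
      exact Submodule.smul_mem _ _ ha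
  refine ⟨fun h2 => ?_, h1 t⟩
  let f : Ts Γ →ₗ[ℂ] Ts Γ :=
    { toFun := fun x => ⟨g * x * g', h1 x x.2⟩
      map_add' := fun x y => Subtype.ext (by
        change g * ((x : Matrix N N ℂ) + y) * g' = g * x * g' + g * y * g'
        rw [Matrix.mul_add, Matrix.add_mul])
      map_smul' := fun c x => Subtype.ext (by
        change g * (c • (x : Matrix N N ℂ)) * g' = c • (g * x * g')
        rw [Matrix.mul_smul, Matrix.smul_mul]) }
  have hinj : ∀ x y : Matrix N N ℂ, g * x * g' = g * y * g' → x = y := by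
    intro x y hxy
    have h3 : ∀ z : Matrix N N ℂ, g' * (g * z * g') * g = z := by
      intro z
      calc g' * (g * z * g') * g = (g' * g) * z * (g' * g) := by simp only [Matrix.mul_assoc]
        _ = z := by rw [h', Matrix.one_mul, Matrix.mul_one]
    rw [← h3 x, hxy, h3]
  have hf : Function.Injective f := fun x y hxy =>
    Subtype.ext (hinj _ _ (congrArg Subtype.val hxy))
  obtain ⟨y, hy⟩ := (LinearMap.injective_iff_surjective.1 hf) ⟨_, h2⟩
  have h3 : g * (y : Matrix N N ℂ) * g' = g * t * g' := congrArg Subtype.val hy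
  rw [← hinj _ _ h3]
  exact y.2

/-- **The group is algebraic.** -/
theorem gspin_alg (hΓ : ∀ i a b, IsAlgebraic ℚ (Γ i a b)) :
    ∃ I : Set (MvPolynomial (N × N) ℂ), (∀ p ∈ I, ∀ m, IsAlgebraic ℚ (p.coeff m)) ∧
      ∀ g : GL N ℂ, (g.val ∈ Ev Γ ∧ (g⁻¹).val ∈ Ev Γ ∧
        ∀ t : Matrix N N ℂ, g.val * t * (g⁻¹).val ∈ Ts Γ ↔ t ∈ Ts Γ) ↔
          ∀ p ∈ I, MvPolynomial.eval (fun b => g.val b.1 b.2) p = 0 := by
  let P1 : (N × N → ℂ) → MvPolynomial (N × N) ℂ := fun w =>
    ∑ p : N × N, MvPolynomial.C (w p) * gX N p.1 p.2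
  let P2 : Fin n → (N × N → ℂ) → MvPolynomial (N × N) ℂ := fun i w =>
    ∑ p : N × N, MvPolynomial.C (w p) *
      (gX N * (Γ i).map (MvPolynomial.C : ℂ →+* MvPolynomial (N × N) ℂ) * (gX N).adjugate :
        Matrix N N (MvPolynomial (N × N) ℂ)) p.1 p.2
  have hP1 : ∀ w (g : Matrix N N ℂ), MvPolynomial.eval (fun b => g b.1 b.2) (P1 w) =
      ∑ p : N × N, w p * g p.1 p.2 := by
    intro w g
    rw [map_sum]
    refine Finset.sum_congr rfl fun p _ => ?_
    rw [map_mul, MvPolynomial.eval_C]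
    congr 1
    exact congrFun (congrFun (evM_gX g) p.1) p.2
  have hP2 : ∀ i w (g : Matrix N N ℂ), MvPolynomial.eval (fun b => g b.1 b.2) (P2 i w) =
      ∑ p : N × N, w p * (g * Γ i * g.adjugate) p.1 p.2 := by
    intro i w g
    rw [map_sum]
    refine Finset.sum_congr rfl fun p _ => ?_
    rw [map_mul, MvPolynomial.eval_C]
    congr 1
    have h1 : (gX N * (Γ i).map MvPolynomial.C * (gX N).adjugate).map (evM g) =
        g * Γ i * g.adjugate := by
      rw [Matrix.map_mul, Matrix.map_mul, evM_gX, evM_C]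
      congr 1
      have h2 := RingHom.map_adjugate (evM g) (gX N)
      rw [RingHom.mapMatrix_apply, RingHom.mapMatrix_apply, evM_gX] at h2
      exact h2
    exact congrFun (congrFun h1 p.1) p.2
  refine ⟨{p | ∃ w : N × N → ℂ, (∀ p, IsAlgebraic ℚ (w p)) ∧
      ((∀ u ∈ Ev Γ, ∑ p : N × N, w p * u p.1 p.2 = 0) ∧ p = P1 w ∨
        (∀ u ∈ Ts Γ, ∑ p : N × N, w p * u p.1 p.2 = 0) ∧ ∃ i, p = P2 i w)}, ?_, ?_⟩
  · rintro p ⟨w, hw, ⟨-, rfl⟩ | ⟨-, i, rfl⟩⟩ m
    · refine Ap_coeff ?_ m
      exact Subring.sum_mem _ fun p _ => Subring.mul_mem _ (C_Ap (hw p)) (gX_Ap _ _)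
    · refine Ap_coeff ?_ m
      refine Subring.sum_mem _ fun p _ => Subring.mul_mem _ (C_Ap (hw p)) ?_
      refine mul_Ap (mul_Ap gX_Ap fun a b => ?_) (adj_Ap gX_Ap) _ _
      rw [Matrix.map_apply]
      exact C_Ap (hΓ i a b)
  · intro g
    have hr : g.val * (g⁻¹).val = 1 := by rw [← Units.val_mul, mul_inv_cancel, Units.val_one]
    have hadj : g.val.adjugate = g.val.det • (g⁻¹).val := by
      calc g.val.adjugate = g.val.adjugate * (g.val * (g⁻¹).val) := by rw [hr, Matrix.mul_one]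
        _ = g.val.det • (g⁻¹).val := by
          rw [← Matrix.mul_assoc, Matrix.adjugate_mul, Matrix.smul_mul, Matrix.one_mul]
    have hdet : g.val.det ≠ 0 := by
      have := (Matrix.isUnit_iff_isUnit_det _).1 g.isUnit
      exact this.ne_zero
    constructor
    · rintro ⟨h1, h2, h3⟩ p ⟨w, hw, ⟨h4, rfl⟩ | ⟨h4, i, rfl⟩⟩
      · rw [hP1]
        exact h4 _ h1
      · rw [hP2]
        refine h4 _ ?_
        rw [hadj, Matrix.mul_smul]
        exact Submodule.smul_mem _ _ ((h3 _).2 (gam_mem i))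
    · intro h
      have h1 : g.val ∈ Ev Γ := (mem_iff_ann (Ev_alg hΓ) _).2 fun w hw h4 => by
        rw [← hP1]
        exact h _ ⟨w, hw, Or.inl ⟨h4, rfl⟩⟩
      refine ⟨h1, inv_mem_Ev hr h1, conj_iff hr fun i => ?_⟩
      have h2 : g.val * Γ i * g.val.adjugate ∈ Ts Γ :=
        (mem_iff_ann (Ts_alg hΓ) _).2 fun w hw h4 => by
          rw [← hP2]
          exact h _ ⟨w, hw, Or.inr ⟨h4, i, rfl⟩⟩
      rw [hadj, Matrix.mul_smul] at h2
      have h5 := Submodule.smul_mem _ (g.val.det)⁻¹ h2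
      rwa [smul_smul, inv_mul_cancel₀ hdet, one_smul] at h5

end Pool.Agent.TH164.Spin

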