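import Pool.Agent.TH164.Spin.Line

/-!
# The weight zero and the bound for the length of the line
-/

set_option autoImplicit false
set_option linter.unusedSectionVars false
set_option linter.unusedVariables false

open Module LieModule LieAlgebra LieAlgebra.IsKilling

namespace Pool.Agent.TH164.Spin

variable {k L : Type*} [Field k] [IsAlgClosed k] [CharZero k] [LieRing L] [LieAlgebra k L]
  [FiniteDimensional k L] [LieAlgebra.IsKilling k L] {H : LieSubalgebra k L}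
  [H.IsCartanSubalgebra]
variable {S : Type*} [AddCommGroup S] [Module k S] [LieRingModule L S] [LieModule k L S]
  [FiniteDimensional k S] [Nontrivial S]
variable {T : Type*} [AddCommGroup T] [Module k T] [LieRingModule L T] [LieModule k L T]
  [FiniteDimensional k T]

variable {q : T →ₗ[k] T →ₗ[k] k} {cl : T →ₗ[k] S →ₗ[k] S}

/-- The weights on the line of a root are `i β` with `|i| ≤ j`. -/
structure Len (T : Type*) [AddCommGroup T] [Module k T] [LieRingModule L T] [LieModule k L T]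
    (β : H → k) (j : ℕ) : Prop where
  one : 1 ≤ j
  ne : ∀ i : ℤ, |i| ≤ j → wt H T (i • β) ≠ ⊥
  le : ∀ i : ℤ, wt H T (i • β) ≠ ⊥ → |i| ≤ j

theorem val_smul {β : H → k} (hβ : IsRt H β) (i : ℤ) : (i • β) (cv β) = ((2 * i : ℤ) : k) := by
  rw [Pi.smul_apply, rt_two hβ, zsmul_eq_mul]
  push_cast
  ring

namespace Sp

theorem exists_len (h : Sp H q cl) {β : H → k} {e f : L} (t : Tri β e f) {i : ℕ} (hi : 1 ≤ i)
    (hw : wt H T (i • β) ≠ ⊥) : ∃ j : ℕ, Len T β j := by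
  obtain ⟨p, hp0, hp1⟩ := exists_string_top t.rt.1 hw
  rw [← add_smul] at hp0 hp1
  have h1 : ∀ j : ℤ, 0 ≤ j → j ≤ (i + p : ℕ) → wt H T (j • β) ≠ ⊥ := by
    intro j hj0 hj
    have h2 := t.str hp0 (z := 2 * ((i + p : ℕ) : ℤ)) (by
      rw [← val_smul t.rt, natCast_zsmul]) (i := ((i + p : ℕ) - j).natAbs) (by omega)
    have h3 : (i + p) • β - ((i + p : ℕ) - j).natAbs • β = j • β := by
      rw [← natCast_zsmul, ← natCast_zsmul, ← sub_smul]
      congr 1
      omega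
    rwa [h3] at h2
  have h2 : ∀ j : ℤ, 0 ≤ j → wt H T (j • β) ≠ ⊥ → j ≤ (i + p : ℕ) := by
    intro j hj0 hj
    by_contra hcon
    have h2 := t.str hj (z := 2 * j) (val_smul t.rt j) (i := (j - ((i + (p + 1) : ℕ) : ℤ)).natAbs)
      (by omega)
    have h3 : j • β - (j - ((i + (p + 1) : ℕ) : ℤ)).natAbs • β = (i + (p + 1)) • β := by
      rw [← natCast_zsmul _ (j - ((i + (p + 1) : ℕ) : ℤ)).natAbs, ← natCast_zsmul _ (i + (p + 1)),
        ← sub_smul]
      congr 1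
      omega
    rw [h3] at h2
    exact h2 hp1
  refine ⟨i + p, by omega, ?_, ?_⟩
  · intro j hj
    rcases le_total 0 j with h3 | h3
    · exact h1 j h3 (by rwa [abs_of_nonneg h3] at hj)
    · have h4 := h.tw_neg (h1 (-j) (by omega) (by rwa [abs_of_nonpos h3] at hj))
      rwa [neg_smul, neg_neg] at h4
  · intro j hj
    rcases le_total 0 j with h3 | h3
    · rw [abs_of_nonneg h3]
      exact h2 j h3 hj
    · rw [abs_of_nonpos h3]
      refine h2 (-j) (by omega) ?_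
      rw [neg_smul]
      exact h.tw_neg hj

end Sp

theorem Len.neg {β : H → k} {j : ℕ} (h : Len T β j) : Len T (-β) j where
  one := h.one
  ne i hi := by
    rw [smul_neg, ← neg_smul]
    exact h.ne _ (by rwa [abs_neg])
  le i hi := by
    rw [smul_neg, ← neg_smul] at hi
    rw [← abs_neg]
    exact h.le _ hi

theorem Len.self {β : H → k} {j : ℕ} (h : Len T β j) : wt H T β ≠ ⊥ := by
  have h2 : |(1 : ℤ)| ≤ j := by
    rw [abs_one]
    exact_mod_cast h.one
  have h1 := h.ne 1 h2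
  rwa [one_smul] at h1

namespace Sp

/-- A highest vector on the line. -/
theorem high (h : Sp H q cl) {β : H → k} {e f : L} (t : Tri β e f) {j : ℕ} (hl : Len T β j) :
    ∃ u ∈ wt H T (j • β), u ≠ 0 ∧ ⁅e, u⁆ = 0 ∧ ∀ i ≤ 2 * j, up f i u ≠ 0 := by
  have h1 := hl.ne (j : ℤ) (by rw [Nat.abs_cast])
  rw [natCast_zsmul] at h1
  obtain ⟨u, hu, h0⟩ := Submodule.exists_mem_ne_zero_of_ne_bot h1
  have h2 : ⁅e, u⁆ = 0 := by
    by_contra h3
    have h4 := t.lie_e hu
    have h5 := hl.le ((j : ℤ) + 1) (by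
      rw [add_smul, one_smul, natCast_zsmul]
      exact (Submodule.ne_bot_iff _).2 ⟨_, h4, h3⟩)
    rw [abs_of_nonneg (by positivity)] at h5
    omega
  obtain ⟨N, hN, hN1, -⟩ := t.nat hu h0 h2
  refine ⟨u, hu, h0, h2, ?_⟩
  have h3 : (2 * (j : ℤ)) = N := by
    have h4 := val_smul t.rt (j : ℤ)
    rw [natCast_zsmul, hN] at h4
    exact_mod_cast h4.symm
  intro i hi
  exact hN1 i (by omega)

/-- The action on the weight zero. -/
theorem cas (h : Sp H q cl) {β : H → k} {e f : L} (t : Tri β e f) {j : ℕ} (hl : Len T β j)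
    {m : T} (hm : m ∈ wt H T 0) : ⁅f, ⁅e, m⁆⁆ = ((j * (j + 1) : ℕ) : k) • m := by
  obtain ⟨u, hu, h0, hu1, hu2⟩ := h.high t hl
  have h1 : up f j u ∈ wt H T 0 := by
    have := t.dn_mem hu j
    rwa [sub_self] at this
  obtain ⟨c, rfl⟩ := h.zero_span h1 (hu2 j (by omega)) hm
  have h2 : ⁅f, ⁅e, up f j u⁆⁆ = ((j * (j + 1) : ℕ) : k) • up f j u := by
    obtain ⟨i, rfl⟩ := Nat.exists_eq_add_of_le' hl.one
    rw [t.e_f hu h0 hu1, lie_smul, ← up_succ]
    congr 1
    rw [← natCast_zsmul, val_smul t.rt]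
    push_cast
    ring
  rw [lie_smul, lie_smul, h2, smul_comm]

theorem cas' (h : Sp H q cl) {β : H → k} {e f : L} (t : Tri β e f) {j : ℕ} (hl : Len T β j)
    {m : T} (hm : m ∈ wt H T 0) : ⁅e, ⁅f, m⁆⁆ = ((j * (j + 1) : ℕ) : k) • m :=
  h.cas t.neg hl.neg hm

theorem zero_ne (h : Sp H q cl) {β : H → k} {e f : L} (t : Tri β e f) {j : ℕ} (hl : Len T β j) :
    ∃ m ∈ wt H T 0, m ≠ 0 := by
  have h1 := hl.ne 0 (by simp)
  rw [zero_smul] at h1
  exact Submodule.exists_mem_ne_zero_of_ne_bot h1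

theorem e_zero (h : Sp H q cl) {β : H → k} {e f : L} (t : Tri β e f) {j : ℕ} (hl : Len T β j)
    {m : T} (hm : m ∈ wt H T 0) (h0 : m ≠ 0) : ⁅e, m⁆ ≠ 0 := by
  intro h1
  have h2 := h.cas t hl hm
  rw [h1, lie_zero] at h2
  have h3 := (smul_eq_zero.1 h2.symm).resolve_right h0
  have h4 : j * (j + 1) = 0 := by exact_mod_cast h3
  have h5 := hl.one
  rcases Nat.mul_eq_zero.1 h4 with h6 | h6 <;> omega

theorem f_zero (h : Sp H q cl) {β : H → k} {e f : L} (t : Tri β e f) {j : ℕ} (hl : Len T β j)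
    {m : T} (hm : m ∈ wt H T 0) (h0 : m ≠ 0) : ⁅f, m⁆ ≠ 0 := h.e_zero t.neg hl.neg hm h0

/-- A nonzero combination of creation operators. -/
theorem cre (h : Sp H q cl) {a b : T} {s : S} (hab : q a b = 1) (h1 : cl a s = 0) :
    cl a (cl b s) = (2 : k) • s := by
  have := h.anti a b s
  rwa [hab, h1, map_zero, add_zero, mul_one] at this

/-- The bound for the number of weights on a line. -/
theorem bound (h : Sp H q cl) {β : H → k} {e f : L} (t : Tri β e f) {j : ℕ} (hl : Len T β j)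
    {φ : (H → k) →ₗ[ℚ] ℚ} {M : ℚ} (hM : IsTop H S φ M) {s : S} {Λ : H → k} {N : ℕ}
    (l : Lin S φ M β e f s Λ N) : N < 2 * j := by
  obtain ⟨u, hu, h0, hu1, -⟩ := h.high t.neg hl.neg
  have hs : s ∈ tp H S φ M := wt_le_lv (P := fun χ => φ χ = M) l.lev l.mem
  have hlev : φ (j • -β) = 0 := by
    rw [map_nsmul, map_neg, l.ze, neg_zero, smul_zero]
  have hcomm : ∀ i : ℕ, cl u (up f i s) = up f i (cl u s) := by
    intro i
    induction i with
    | zero => rfl
    | succ i ih =>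
      rw [up_succ, up_succ, ← ih, h.lie, hu1, map_zero, LinearMap.zero_apply, zero_add]
  have hsp : ∃ c : k, cl u s = c • up f j s := by
    by_cases h1 : cl u s = 0
    · exact ⟨0, by rw [h1, zero_smul]⟩
    · obtain ⟨i, hiN, hi, c, hc⟩ := l.wt_mem t (h.stab hlev hu hs) (h.cl_mem hu l.mem) h1
      have h2 : i = j := by
        rw [smul_neg, ← sub_eq_add_neg, sub_right_inj, ← natCast_zsmul, ← natCast_zsmul] at hi
        exact_mod_cast (smul_inj t.rt.1 hi).symm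
      exact ⟨c, by rw [hc, h2]⟩
  obtain ⟨c, hc⟩ := hsp
  have hc0 : c ≠ 0 := by
    rintro rfl
    rw [zero_smul] at hc
    refine h.not_kill hM hlev hu h0 fun m hm => ?_
    have h2 : Submodule.span k (Set.range fun i : ℕ => up f i s) ≤ LinearMap.ker (cl u) := by
      rw [Submodule.span_le]
      rintro _ ⟨i, rfl⟩
      refine LinearMap.mem_ker.2 ?_
      change cl u (up f i s) = 0
      rw [hcomm, hc]
      clear * -
      induction i with
      | zero => rfl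
      | succ d ih => rw [up_succ, ih, lie_zero]
    exact LinearMap.mem_ker.1 (h2 (l.le hm))
  by_contra hN
  push Not at hN
  have h3 : cl u (cl u s) = 0 := by
    refine h.nil hu ?_ s
    intro h4
    have h5 := hl.one
    have h6 : ((j : ℤ)) • (-β) = (0 : ℤ) • (-β) := by
      rw [natCast_zsmul, h4, zero_smul]
    have := smul_inj (neg_ne_zero.2 t.rt.1) h6
    omega
  rw [hc, map_smul, hcomm, hc, up_smul, ← up_add, ← two_mul, smul_smul, smul_eq_zero] at h3
  rcases h3 with h3 | h3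
  · exact mul_ne_zero hc0 hc0 h3
  · exact l.ne _ hN h3

theorem ann (h : Sp H q cl) {a b : T} {s : S} (hab : q a b = 0) (h1 : cl a s = 0) :
    cl a (cl b s) = 0 := by
  have := h.anti a b s
  rwa [hab, h1, map_zero, add_zero, mul_zero, zero_smul] at this

theorem high_kill (h : Sp H q cl) {β : H → k} {e f : L} (t : Tri β e f)
    {φ : (H → k) →ₗ[ℚ] ℚ} {M : ℚ} (hM : IsTop H S φ M) {s : S} {Λ : H → k} {N : ℕ}
    (l : Lin S φ M β e f s Λ N) {i : ℕ} (hi : 1 ≤ i) {a : T} (ha : a ∈ wt H T (i • β)) :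
    cl a s = 0 := by
  have hs : s ∈ tp H S φ M := wt_le_lv (P := fun χ => φ χ = M) l.lev l.mem
  by_contra h1
  obtain ⟨i', -, hi', -⟩ := l.wt_mem t (h.stab (by rw [map_nsmul, l.ze, smul_zero]) ha hs)
    (h.cl_mem ha l.mem) h1
  have h2 : (i : ℤ) • β = (-(i' : ℤ)) • β := by
    rw [neg_smul, natCast_zsmul, natCast_zsmul]
    have h3 : i • β = (Λ + i • β) - Λ := by abel
    rw [h3, hi']
    abel
  have := smul_inj t.rt.1 h2
  omega

theorem j_le (h : Sp H q cl) {β : H → k} {e f : L} (t : Tri β e f) {j : ℕ} (hl : Len T β j)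
    {φ : (H → k) →ₗ[ℚ] ℚ} {M : ℚ} (hM : IsTop H S φ M) {s : S} {Λ : H → k} {N : ℕ}
    (l : Lin S φ M β e f s Λ N) : j ≤ 2 := by
  have hN := h.bound t hl hM l
  have hs : s ∈ tp H S φ M := wt_le_lv (P := fun χ => φ χ = M) l.lev l.mem
  by_contra hj
  push Not at hj
  have hex : ∀ i : ℕ, 1 ≤ i → i ≤ j → ∃ a ∈ wt H T (i • β), ∃ b ∈ wt H T (-(i • β)),
      q a b = 1 := by
    intro i hi1 hi2
    have h1 := hl.ne (i : ℤ) (by rw [Nat.abs_cast]; exact_mod_cast hi2)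
    rw [natCast_zsmul] at h1
    obtain ⟨a, ha, h0⟩ := Submodule.exists_mem_ne_zero_of_ne_bot h1
    obtain ⟨b, hb, hab⟩ := h.dual ha h0
    exact ⟨a, ha, b, hb, hab⟩
  obtain ⟨m, rfl⟩ := Nat.exists_eq_add_of_le' (show 2 ≤ j by omega)
  obtain ⟨a1, ha1, b1, hb1, h1⟩ := hex (m + 2) (by omega) (by omega)
  obtain ⟨a2, ha2, b2, hb2, h2⟩ := hex (m + 1) (by omega) (by omega)
  obtain ⟨a3, ha3, b3, hb3, h3⟩ := hex m (by omega) (by omega)
  have k1 := h.high_kill t hM l (by omega) ha1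
  have k2 := h.high_kill t hM l (by omega) ha2
  have k3 := h.high_kill t hM l (by omega) ha3
  have hne : ∀ x y : ℕ, x ≠ y → x • β + -(y • β) ≠ 0 := by
    intro x y hxy h4
    rw [← sub_eq_add_neg, sub_eq_zero, ← natCast_zsmul, ← natCast_zsmul] at h4
    exact hxy (by exact_mod_cast smul_inj t.rt.1 h4)
  have q12 : q a1 b2 = 0 := h.q_zero ha1 hb2 (hne _ _ (by omega))
  have q13 : q a1 b3 = 0 := h.q_zero ha1 hb3 (hne _ _ (by omega))
  have q23 : q a2 b3 = 0 := h.q_zero ha2 hb3 (hne _ _ (by omega))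
  have s0 : s ≠ 0 := l.ne 0 (Nat.zero_le _)
  have n3 : cl b3 s ≠ 0 := by
    intro h4
    have h5 := cre h h3 k3
    rw [h4, map_zero] at h5
    exact smul_ne_zero (two_ne_zero' k) s0 h5.symm
  have n2 : cl b2 (cl b3 s) ≠ 0 := by
    intro h4
    have h5 := cre h h2 (ann h q23 k2)
    rw [h4, map_zero] at h5
    exact smul_ne_zero (two_ne_zero' k) n3 h5.symm
  have n1 : cl b1 (cl b2 (cl b3 s)) ≠ 0 := by
    intro h4
    have h5 := cre h h1 (ann h q12 (ann h q13 k1))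
    rw [h4, map_zero] at h5
    exact smul_ne_zero (two_ne_zero' k) n2 h5.symm
  have hz : ∀ i : ℕ, φ (-(i • β)) = 0 := by
    intro i
    rw [map_neg, map_nsmul, l.ze, smul_zero, neg_zero]
  obtain ⟨i, hiN, hi, -⟩ := l.wt_mem t (h.stab (hz _) hb1 (h.stab (hz _) hb2
    (h.stab (hz _) hb3 hs))) (h.cl_mem hb1 (h.cl_mem hb2 (h.cl_mem hb3 l.mem))) n1
  have h4 : ((m + (m + 1) + (m + 2) : ℕ) : ℤ) • β = (i : ℤ) • β := by
    rw [natCast_zsmul, natCast_zsmul]
    have h5 : i • β = Λ - (Λ - i • β) := by abel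
    rw [h5, ← hi, add_smul, add_smul]
    abel
  have h6 := smul_inj t.rt.1 h4
  omega

theorem n_one (h : Sp H q cl) {β : H → k} {e f : L} (t : Tri β e f) (hl : Len T β 1)
    {φ : (H → k) →ₗ[ℚ] ℚ} {M : ℚ} (hM : IsTop H S φ M) {s : S} {Λ : H → k} {N : ℕ}
    (l : Lin S φ M β e f s Λ N) : N = 1 := by
  have hN := h.bound t hl hM l
  have hs : s ∈ tp H S φ M := wt_le_lv (P := fun χ => φ χ = M) l.lev l.mem
  have s0 : s ≠ 0 := l.ne 0 (Nat.zero_le _)
  obtain ⟨a, ha, h0⟩ := Submodule.exists_mem_ne_zero_of_ne_bot hl.self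
  obtain ⟨b, hb, hab⟩ := h.dual ha h0
  have k1 := h.high_kill t hM l (i := 1) le_rfl (a := a) (by rwa [one_smul])
  have n1 : cl b s ≠ 0 := by
    intro h4
    have h5 := cre h hab k1
    rw [h4, map_zero] at h5
    exact smul_ne_zero (two_ne_zero' k) s0 h5.symm
  obtain ⟨i, hiN, hi, -⟩ := l.wt_mem t (h.stab (by rw [map_neg, l.ze, neg_zero]) hb hs)
    (h.cl_mem hb l.mem) n1
  have h4 : (1 : ℤ) • β = (i : ℤ) • β := by
    rw [natCast_zsmul, one_smul]
    have h5 : i • β = Λ - (Λ - i • β) := by abel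
    rw [h5, ← hi]
    abel
  have h6 := smul_inj t.rt.1 h4
  omega

end Sp

/-! ### A lemma on two roots -/

namespace Sp

/-- Two weights which are roots cannot have a difference which is neither a root nor a weight. -/
theorem two_roots (h : Sp H q cl) {α β : H → k} {e f e' f' : L} (t : Tri α e f) (t' : Tri β e' f')
    {i j : ℕ} (hi : Len T α i) (hj : Len T β j) (hαβ : ∀ c : k, β ≠ c • α)
    (h1 : wt H T (α - β) = ⊥) (h2 : wt H L (α - β) = ⊥) : False := by
  obtain ⟨m, hm, h0⟩ := h.zero_ne t hi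
  have h1' : wt H T (β - α) = ⊥ := by
    by_contra h3
    have := h.tw_neg h3
    rw [neg_sub] at this
    exact this h1
  have hne : α - β ≠ 0 := by
    intro h3
    refine hαβ 1 ?_
    rw [one_smul]
    exact (sub_eq_zero.1 h3).symm
  have h2' : wt H L (β - α) = ⊥ := by
    by_contra h3
    have h4 := (rt_neg (β := β - α) ⟨fun h4 => hne (by rw [← neg_sub, h4, neg_zero]), h3⟩).2
    rw [neg_sub] at h4
    exact h4 h2
  have z1 : ⁅e, f'⁆ = 0 := by
    have h3 := lie_mem_wt t.he t'.hf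
    rw [neg_add_eq_sub, h2] at h3
    exact (Submodule.mem_bot k).1 h3
  have z2 : ⁅e', f⁆ = 0 := by
    have h3 := lie_mem_wt t'.he t.hf
    rw [neg_add_eq_sub, h2'] at h3
    exact (Submodule.mem_bot k).1 h3
  have z3 : ⁅e, ⁅f', m⁆⁆ = 0 := by
    have h3 := t.lie_e (t'.lie_f hm)
    rw [zero_sub, neg_add_eq_sub, h1] at h3
    exact (Submodule.mem_bot k).1 h3
  have z4 : ⁅e', ⁅f, m⁆⁆ = 0 := by
    have h3 := t'.lie_e (t.lie_f hm)
    rw [zero_sub, neg_add_eq_sub, h1'] at h3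
    exact (Submodule.mem_bot k).1 h3
  have c1 := h.cas' t hi hm
  have c2 := h.cas' t' hj hm
  have f1 := h.f_zero t hi hm h0
  have f2 := h.f_zero t' hj hm h0
  obtain ⟨z, hz⟩ := rt_int t.rt t'.rt
  obtain ⟨z', hz'⟩ := rt_int t'.rt t.rt
  -- the two products
  have w1 : ⁅e, ⁅f, ⁅f', m⁆⁆⁆ = (-(z : k)) • ⁅f', m⁆ := by
    rw [leibniz_lie e f, z3, lie_zero, add_zero, t.ht.lie_e_f, t'.lie_f hm (cv α), Pi.sub_apply,
      Pi.zero_apply, zero_sub, hz]
  have w2 : ⁅e', ⁅f, ⁅f', m⁆⁆⁆ = ((j * (j + 1) : ℕ) : k) • ⁅f, m⁆ := by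
    rw [leibniz_lie e' f, z2, zero_lie, zero_add, c2, lie_smul]
  have w3 : ⁅e', ⁅f', ⁅f, m⁆⁆⁆ = (-(z' : k)) • ⁅f, m⁆ := by
    rw [leibniz_lie e' f', z4, lie_zero, add_zero, t'.ht.lie_e_f, t.lie_f hm (cv β), Pi.sub_apply,
      Pi.zero_apply, zero_sub, hz']
  have w4 : ⁅e, ⁅f', ⁅f, m⁆⁆⁆ = ((i * (i + 1) : ℕ) : k) • ⁅f', m⁆ := by
    rw [leibniz_lie e f', z1, zero_lie, zero_add, c1, lie_smul]
  have hi0 : ((i * (i + 1) : ℕ) : k) ≠ 0 := by
    have := hi.one
    exact_mod_cast (by positivity : i * (i + 1) ≠ 0)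
  have hj0 : ((j * (j + 1) : ℕ) : k) ≠ 0 := by
    have := hj.one
    exact_mod_cast (by positivity : j * (j + 1) ≠ 0)
  have n1 : ⁅f, ⁅f', m⁆⁆ ≠ 0 := by
    intro h3
    rw [h3, lie_zero] at w2
    exact smul_ne_zero hj0 f1 w2.symm
  have m1 : ⁅f, ⁅f', m⁆⁆ ∈ wt H T (-β - α) := by
    have := t.lie_f (t'.lie_f hm)
    rwa [zero_sub] at this
  have m2 : ⁅f', ⁅f, m⁆⁆ ∈ wt H T (-β - α) := by
    have := t'.lie_f (t.lie_f hm)
    rw [zero_sub] at this
    rwa [sub_eq_add_neg, add_comm, ← sub_eq_add_neg] at this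
  have hs : -β - α ≠ 0 := by
    intro h3
    refine hαβ (-1) ?_
    rw [neg_one_smul, ← sub_eq_zero]
    rw [← neg_eq_zero] at h3
    rw [← h3]
    abel
  obtain ⟨c, hc⟩ := h.one hs m1 n1 m2
  have e1 : (-(z' : k)) = c * ((j * (j + 1) : ℕ) : k) := by
    have h3 := w3
    rw [hc, lie_smul, w2, smul_smul] at h3
    exact (smul_left_injective k f1 h3).symm
  have e2 : ((i * (i + 1) : ℕ) : k) = c * (-(z : k)) := by
    have h3 := w4
    rw [hc, lie_smul, w1, smul_smul] at h3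
    exact (smul_left_injective k f2 h3).symm
  have e3 : ((i * (i + 1) : ℕ) : k) * ((j * (j + 1) : ℕ) : k) = (z : k) * z' := by
    rw [e2]
    linear_combination (z : k) * e1
  have e4 : ((i * (i + 1) : ℕ) : ℤ) * ((j * (j + 1) : ℕ) : ℤ) = z * z' := by
    exact_mod_cast e3
  have e5 := (rt_prod t.rt t'.rt hαβ hz hz').1
  have e6 : (2 : ℤ) ≤ ((i * (i + 1) : ℕ) : ℤ) := by
    have := hi.one
    exact_mod_cast (by nlinarith : 2 ≤ i * (i + 1))
  have e7 : (2 : ℤ) ≤ ((j * (j + 1) : ℕ) : ℤ) := by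
    have := hj.one
    exact_mod_cast (by nlinarith : 2 ≤ j * (j + 1))
  nlinarith

end Sp

end Pool.Agent.TH164.Spin
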