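import Pool.Agent.TH164.Spin.Tri

/-!
# Spin modules of Lie algebras
-/

set_option autoImplicit false
set_option linter.unusedSectionVars false
set_option linter.unusedVariables false

open Module LieModule LieAlgebra LieAlgebra.IsKilling

namespace Pool.Agent.TH164.Spin

variable {k L : Type*} [Field k] [IsAlgClosed k] [CharZero k] [LieRing L] [LieAlgebra k L]
  [FiniteDimensional k L] [LieAlgebra.IsKilling k L] {H : LieSubalgebra k L}
  [H.IsCartanSubalgebra]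
variable {S : Type*} [AddCommGroup S] [Module k S] [LieRingModule L S] [LieModule k L S]
  [FiniteDimensional k S] [Nontrivial S]
variable {T : Type*} [AddCommGroup T] [Module k T] [LieRingModule L T] [LieModule k L T]
  [FiniteDimensional k T]

/-- The data of a spin module. -/
structure Sp (H : LieSubalgebra k L) (q : T →ₗ[k] T →ₗ[k] k) (cl : T →ₗ[k] S →ₗ[k] S) :
    Prop where
  dS : Diag H S
  dT : Diag H T
  anti : ∀ t s m, cl t (cl s m) + cl s (cl t m) = (2 * q t s) • m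
  lie : ∀ (x : L) t m, ⁅x, cl t m⁆ = cl ⁅x, t⁆ m + cl t ⁅x, m⁆
  nd : ∀ t, (∀ s, q t s = 0) → t = 0
  irr : ∀ W : Submodule k S, (∀ x : L, ∀ m ∈ W, ⁅x, m⁆ ∈ W) → W ≠ ⊥ → W = ⊤
  irc : ∀ W : Submodule k S, (∀ t, ∀ m ∈ W, cl t m ∈ W) → W ≠ ⊥ → W = ⊤

variable {q : T →ₗ[k] T →ₗ[k] k} {cl : T →ₗ[k] S →ₗ[k] S}

namespace Sp

theorem symm (h : Sp H q cl) (t s : T) : q t s = q s t := by
  obtain ⟨m, hm⟩ := exists_ne (0 : S)
  have h1 := h.anti t s m
  rw [add_comm, h.anti s t m] at h1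
  have h2 := smul_left_injective k hm h1
  exact (mul_left_cancel₀ (two_ne_zero' k) h2).symm

theorem inv (h : Sp H q cl) (x : L) (t s : T) : q ⁅x, t⁆ s + q t ⁅x, s⁆ = 0 := by
  obtain ⟨m, hm⟩ := exists_ne (0 : S)
  have h1 := congrArg (fun m => ⁅x, m⁆) (h.anti t s m)
  simp only [lie_add, lie_smul, h.lie, map_add] at h1
  have h2 := h.anti ⁅x, t⁆ s m
  have h3 := h.anti t ⁅x, s⁆ m
  have h4 := h.anti t s ⁅x, m⁆
  have h5 : (2 * q ⁅x, t⁆ s) • m + (2 * q t ⁅x, s⁆) • m = 0 := by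
    rw [← h2, ← h3]
    rw [← h4] at h1
    have h6 : (cl ⁅x, t⁆ (cl s m) + (cl t (cl ⁅x, s⁆ m) + cl t (cl s ⁅x, m⁆)) +
      (cl ⁅x, s⁆ (cl t m) + (cl s (cl ⁅x, t⁆ m) + cl s (cl t ⁅x, m⁆)))) -
      (cl t (cl s ⁅x, m⁆) + cl s (cl t ⁅x, m⁆)) = 0 := sub_eq_zero.2 h1
    rw [← h6]
    abel
  rw [← add_smul, smul_eq_zero, or_iff_left hm, ← mul_add, mul_eq_zero,
    or_iff_right (two_ne_zero' k)] at h5
  exact h5

theorem cl_mem (h : Sp H q cl) {μ χ : H → k} {t : T} (ht : t ∈ wt H T μ) {m : S}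
    (hm : m ∈ wt H S χ) : cl t m ∈ wt H S (χ + μ) := by
  intro x
  rw [h.lie, ht x, hm x, map_smul, LinearMap.smul_apply, map_smul, ← add_smul, Pi.add_apply,
    add_comm (χ x)]

theorem cl_mem' (h : Sp H q cl) {μ χ ψ : H → k} {t : T} (ht : t ∈ wt H T μ) {m : S}
    (hm : m ∈ wt H S χ) (hψ : χ + μ = ψ) : cl t m ∈ wt H S ψ := by
  rw [← hψ]
  exact h.cl_mem ht hm

theorem q_zero (h : Sp H q cl) {μ ν : H → k} {t s : T} (ht : t ∈ wt H T μ) (hs : s ∈ wt H T ν)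
    (hne : μ + ν ≠ 0) : q t s = 0 := by
  obtain ⟨x, hx⟩ := Function.ne_iff.1 hne
  have h1 := h.inv (x : L) t s
  rw [ht x, hs x, map_smul, map_smul, LinearMap.smul_apply, smul_eq_mul, smul_eq_mul,
    ← add_mul, mul_eq_zero] at h1
  exact h1.resolve_left hx

theorem dual (h : Sp H q cl) {μ : H → k} {t : T} (ht : t ∈ wt H T μ) (h0 : t ≠ 0) :
    ∃ s ∈ wt H T (-μ), q t s = 1 := by
  by_contra hcon
  push Not at hcon
  have h1 : ∀ s ∈ wt H T (-μ), q t s = 0 := by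
    intro s hs
    by_contra h2
    refine hcon ((q t s)⁻¹ • s) (Submodule.smul_mem _ _ hs) ?_
    rw [map_smul, smul_eq_mul, inv_mul_cancel₀ h2]
  refine h0 (h.nd t fun s => ?_)
  refine h.dT.induction (p := fun s => q t s = 0) s ?_ (map_zero _) ?_
  · intro ν s hs
    by_cases h2 : μ + ν = 0
    · have h3 : ν = -μ := (neg_eq_of_add_eq_zero_right h2).symm
      rw [h3] at hs
      exact h1 s hs
    · exact h.q_zero ht hs h2
  · intro a b ha hb
    rw [map_add, ha, hb, add_zero]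

theorem tw_neg (h : Sp H q cl) {μ : H → k} (hμ : wt H T μ ≠ ⊥) : wt H T (-μ) ≠ ⊥ := by
  obtain ⟨t, ht, h0⟩ := Submodule.exists_mem_ne_zero_of_ne_bot hμ
  obtain ⟨s, hs, h1⟩ := h.dual ht h0
  intro h2
  rw [h2] at hs
  rw [(Submodule.mem_bot k).1 hs, map_zero] at h1
  exact zero_ne_one h1

theorem sq (h : Sp H q cl) (t : T) (m : S) : cl t (cl t m) = q t t • m := by
  have h1 := h.anti t t m
  rw [← two_smul k (cl t (cl t m)), mul_smul] at h1
  exact smul_right_injective S (two_ne_zero' k) h1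

theorem nil (h : Sp H q cl) {μ : H → k} {t : T} (ht : t ∈ wt H T μ) (hμ : μ ≠ 0) (m : S) :
    cl t (cl t m) = 0 := by
  have h2 : μ + μ ≠ 0 := by
    obtain ⟨x, hx⟩ := Function.ne_iff.1 hμ
    intro h3
    have h4 := congrFun h3 x
    rw [Pi.add_apply, ← two_mul, Pi.zero_apply, mul_eq_zero] at h4
    exact h4.elim (two_ne_zero' k) hx
  rw [h.sq, h.q_zero ht ht h2, zero_smul]

end Sp

/-! ### The top -/

/-- The largest value of a functional on the weights. -/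
def IsTop (H : LieSubalgebra k L) (S : Type*) [AddCommGroup S] [Module k S] [LieRingModule L S]
    [LieModule k L S] (φ : (H → k) →ₗ[ℚ] ℚ) (M : ℚ) : Prop :=
  (∃ χ, wt H S χ ≠ ⊥ ∧ φ χ = M) ∧ ∀ χ, wt H S χ ≠ ⊥ → φ χ ≤ M

theorem exists_top (hS : Diag H S) (φ : (H → k) →ₗ[ℚ] ℚ) : ∃ M, IsTop H S φ M := by
  obtain ⟨χ0, h0⟩ := exists_wt_ne hS
  obtain ⟨χ, h1, h2⟩ := Set.exists_max_image _ φ (finite_wt (H := H) (M := S)) ⟨χ0, h0⟩
  exact ⟨φ χ, ⟨χ, h1, rfl⟩, h2⟩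

theorem lv_eq_bot {M : Type*} [AddCommGroup M] [Module k M] [LieRingModule L M] [LieModule k L M]
    {P : (H → k) → Prop} (h : ∀ χ, wt H M χ ≠ ⊥ → ¬ P χ) : lv (M := M) P = ⊥ := by
  rw [eq_bot_iff]
  refine iSup₂_le fun χ hχ => ?_
  by_cases h0 : wt H M χ = ⊥
  · rw [h0]
  · exact absurd hχ (h χ h0)

/-- The top level. -/
def tp (H : LieSubalgebra k L) (S : Type*) [AddCommGroup S] [Module k S] [LieRingModule L S]
    [LieModule k L S] (φ : (H → k) →ₗ[ℚ] ℚ) (M : ℚ) : Submodule k S :=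
  lv (H := H) (M := S) (fun χ => φ χ = M)

theorem lie_lv {φ : (H → k) →ₗ[ℚ] ℚ} {P Q : (H → k) → Prop} {β : H → k} {x : L}
    (hx : x ∈ wt H L β) (hPQ : ∀ χ, P χ → Q (χ + β)) {m : S} (hm : m ∈ lv (H := H) (M := S) P) :
    ⁅x, m⁆ ∈ lv (H := H) (M := S) Q := by
  have := lv_map (f := toEnd k L S x) (P := P) (Q := Q) (H := H) ?_ hm
  · exact this
  · intro χ hχ m hm
    exact wt_le_lv (hPQ χ hχ) (lie_mem_wt hx hm)

namespace Sp

theorem cl_lv (h : Sp H q cl) {P Q : (H → k) → Prop} {μ : H → k} {t : T}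
    (ht : t ∈ wt H T μ) (hPQ : ∀ χ, P χ → Q (χ + μ)) {m : S} (hm : m ∈ lv (H := H) (M := S) P) :
    cl t m ∈ lv (H := H) (M := S) Q :=
  lv_map (f := cl t) (P := P) (Q := Q) (H := H)
    (fun χ hχ m hm => wt_le_lv (hPQ χ hχ) (h.cl_mem ht hm)) hm

theorem top_lemma (h : Sp H q cl) {φ : (H → k) →ₗ[ℚ] ℚ} {M : ℚ} (hM : IsTop H S φ M)
    {U : Submodule k S} (hU : U ≤ tp H S φ M) (hU0 : U ≠ ⊥)
    (hst : ∀ β, φ β = 0 → ∀ x ∈ wt H L β, ∀ u ∈ U, ⁅x, u⁆ ∈ U) : tp H S φ M ≤ U := by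
  set X : Set (S →ₗ[k] S) := {f | ∃ β, φ β < 0 ∧ ∃ x ∈ wt H L β, f = toEnd k L S x} with hX
  set Y : Set (S →ₗ[k] S) := Set.range (toEnd k L S) with hY
  have h1 : ∀ y ∈ Y, ∀ u ∈ U, y u ∈ gen X U := by
    rintro _ ⟨x, rfl⟩ u hu
    refine (diag_L (H := H)).induction (p := fun x => toEnd k L S x u ∈ gen X U) x ?_ ?_ ?_
    · intro β x hx
      rcases lt_trichotomy (φ β) 0 with h2 | h2 | h2
      · have h3 : toEnd k L S x ∈ X := ⟨β, h2, x, hx, rfl⟩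
        exact gen_stable h3 (le_gen hu)
      · exact le_gen (hst β h2 x hx u hu)
      · have h3 : ⁅x, u⁆ ∈ lv (H := H) (M := S) (fun χ => M < φ χ) := by
          refine lie_lv (φ := φ) hx ?_ (hU hu)
          intro χ hχ
          rw [map_add, hχ]
          linarith
        rw [lv_eq_bot (fun χ hχ => not_lt.2 (hM.2 χ hχ))] at h3
        have h4 : toEnd k L S x u = 0 := (Submodule.mem_bot k).1 h3
        rw [h4]
        exact Submodule.zero_mem _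
    · rw [map_zero, LinearMap.zero_apply]
      exact Submodule.zero_mem _
    · intro a b ha hb
      rw [map_add, LinearMap.add_apply]
      exact Submodule.add_mem _ ha hb
  have h2 := gen_transfer h1 (by
    rintro _ ⟨a, rfl⟩ _ ⟨β, hβ, b, hb, rfl⟩ w hw hyw
    have h3 : toEnd k L S a (toEnd k L S b w) = toEnd k L S ⁅a, b⁆ w +
        toEnd k L S b (toEnd k L S a w) := leibniz_lie a b w
    rw [h3]
    refine Submodule.add_mem _ (hyw _ (Set.mem_range_self _)) ?_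
    have h4 : toEnd k L S b ∈ X := ⟨β, hβ, b, hb, rfl⟩
    exact gen_stable h4 (hyw _ (Set.mem_range_self _)))
  have h3 : gen X U = ⊤ := by
    refine h.irr _ (fun x m hm => h2 _ (Set.mem_range_self x) m hm) ?_
    intro h4
    refine hU0 (eq_bot_iff.2 ?_)
    rw [← h4]
    exact le_gen
  have h4 : gen X U ≤ U ⊔ lv (H := H) (M := S) (fun χ => φ χ < M) := by
    refine gen_le le_sup_left ?_
    rintro _ ⟨β, hβ, b, hb, rfl⟩ w hw
    refine Submodule.mem_sup_right ?_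
    refine lie_lv (φ := φ) (P := fun χ => φ χ ≤ M) hb ?_ ?_
    · intro χ hχ
      rw [map_add]
      linarith
    · refine (sup_le ?_ ?_ : U ⊔ lv (H := H) (M := S) (fun χ => φ χ < M) ≤ _) hw
      · refine hU.trans (lv_mono fun χ _ hχ => ?_)
        exact le_of_eq hχ
      · exact lv_mono fun χ _ hχ => le_of_lt hχ
  intro s hs
  have h5 : s ∈ U ⊔ lv (H := H) (M := S) (fun χ => φ χ < M) := h4 (by rw [h3]; trivial)
  obtain ⟨u, hu, w, hw, rfl⟩ := Submodule.mem_sup.1 h5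
  have h6 : w ∈ tp H S φ M := by
    have := Submodule.sub_mem _ hs (hU hu)
    rwa [add_sub_cancel_left] at this
  have h7 : w = 0 := eq_zero_of_mem_lv (fun χ h8 h9 => (ne_of_lt h9) h8) h6 hw
  rw [h7, add_zero]
  exact hu

theorem tp_ne (h : Sp H q cl) {φ : (H → k) →ₗ[ℚ] ℚ} {M : ℚ} (hM : IsTop H S φ M) :
    ∃ s ∈ tp H S φ M, s ≠ 0 := by
  obtain ⟨⟨χ, h1, h2⟩, -⟩ := hM
  obtain ⟨s, hs, h0⟩ := Submodule.exists_mem_ne_zero_of_ne_bot h1
  exact ⟨s, wt_le_lv (P := fun χ => φ χ = M) h2 hs, h0⟩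

theorem kill (h : Sp H q cl) {φ : (H → k) →ₗ[ℚ] ℚ} {M : ℚ} (hM : IsTop H S φ M) {μ : H → k}
    (hμ : 0 < φ μ) {t : T} (ht : t ∈ wt H T μ) {s : S} (hs : s ∈ tp H S φ M) : cl t s = 0 := by
  have h3 : cl t s ∈ lv (H := H) (M := S) (fun χ => M < φ χ) := by
    refine h.cl_lv ht ?_ hs
    intro χ hχ
    rw [map_add, hχ]
    linarith
  rw [lv_eq_bot (fun χ hχ => not_lt.2 (hM.2 χ hχ))] at h3
  exact (Submodule.mem_bot k).1 h3

theorem stab (h : Sp H q cl) {φ : (H → k) →ₗ[ℚ] ℚ} {M : ℚ} {μ : H → k}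
    (hμ : φ μ = 0) {t : T} (ht : t ∈ wt H T μ) {s : S} (hs : s ∈ tp H S φ M) :
    cl t s ∈ tp H S φ M := by
  refine h.cl_lv ht ?_ hs
  intro χ hχ
  rw [map_add, hχ, hμ, add_zero]

theorem not_kill (h : Sp H q cl) {φ : (H → k) →ₗ[ℚ] ℚ} {M : ℚ} (hM : IsTop H S φ M) {μ : H → k}
    (hμ : φ μ = 0) {t : T} (ht : t ∈ wt H T μ) (h0 : t ≠ 0) :
    ¬ ∀ s ∈ tp H S φ M, cl t s = 0 := by
  intro hk
  obtain ⟨s, hs, hs0⟩ := h.tp_ne hM
  obtain ⟨t', ht', h1⟩ := h.dual ht h0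
  have h2 := h.anti t t' s
  rw [h1, hk s hs, hk _ (h.stab (by rw [map_neg, hμ, neg_zero]) ht' hs), map_zero, add_zero,
    mul_one] at h2
  exact (smul_ne_zero (two_ne_zero' k) hs0) h2.symm

/-- A functional in general position. -/
theorem exists_phi' (T : Type*) [AddCommGroup T] [Module k T] [LieRingModule L T] [LieModule k L T]
    [FiniteDimensional k T] (U : Submodule ℚ (H → k)) :
    ∃ φ : (H → k) →ₗ[ℚ] ℚ, (∀ u ∈ U, φ u = 0) ∧ (∀ χ, wt H T χ ≠ ⊥ → φ χ = 0 → χ ∈ U) ∧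
      ∀ β, wt H L β ≠ ⊥ → φ β = 0 → β ∈ U := by
  obtain ⟨φ, h1, h2⟩ := exists_phi U
    (F := {χ : H → k | wt H T χ ≠ ⊥} ∪ {χ : H → k | wt H L χ ≠ ⊥})
    ((finite_wt (H := H) (M := T)).union (finite_wt (H := H) (M := L)))
  refine ⟨φ, h1, fun χ hχ h3 => ?_, fun χ hχ h3 => ?_⟩
  · by_contra h4
    exact h2 χ (Or.inl hχ) h4 h3
  · by_contra h4
    exact h2 χ (Or.inr hχ) h4 h3

/-- If there are no roots of level zero, vectors of level zero are not nilpotent. -/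
theorem no_root (h : Sp H q cl) {φ : (H → k) →ₗ[ℚ] ℚ}
    (hφ : ∀ β, wt H L β ≠ ⊥ → φ β = 0 → β = 0) {μ : H → k}
    (hμ : φ μ = 0) {t : T} (ht : t ∈ wt H T μ) (h0 : t ≠ 0) : q t t ≠ 0 := by
  intro hq
  obtain ⟨M, hM⟩ := exists_top h.dS φ
  have h1 := h.top_lemma hM (U := tp H S φ M ⊓ LinearMap.ker (cl t)) inf_le_left ?_ ?_
  · refine h.not_kill hM hμ ht h0 fun s hs => ?_
    exact LinearMap.mem_ker.1 (h1 hs).2
  · obtain ⟨s, hs, hs0⟩ := h.tp_ne hM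
    by_cases h2 : cl t s = 0
    · exact (Submodule.ne_bot_iff _).2 ⟨s, ⟨hs, h2⟩, hs0⟩
    · refine (Submodule.ne_bot_iff _).2 ⟨cl t s, ⟨h.stab hμ ht hs, ?_⟩, h2⟩
      change cl t (cl t s) = 0
      rw [h.sq, hq, zero_smul]
  · intro β hβ x hx u hu
    by_cases hx0 : x = 0
    · rw [hx0, zero_lie]
      exact Submodule.zero_mem _
    have h2 : β = 0 := hφ β ((Submodule.ne_bot_iff _).2 ⟨x, hx, hx0⟩) hβ
    rw [h2] at hx
    refine ⟨?_, ?_⟩
    · refine lie_lv (φ := φ) hx ?_ hu.1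
      intro χ hχ
      rw [add_zero]
      exact hχ
    · have h3 := h.lie x t u
      have h4 : cl t u = 0 := LinearMap.mem_ker.1 hu.2
      have h5 := ht ⟨x, wt_zero_L.1 hx⟩
      have h6 : cl ⁅x, t⁆ u = 0 := by
        rw [show ⁅x, t⁆ = μ ⟨x, wt_zero_L.1 hx⟩ • t from h5, map_smul, LinearMap.smul_apply, h4,
          smul_zero]
      rw [h4, lie_zero, h6, zero_add] at h3
      exact LinearMap.mem_ker.2 h3.symm

theorem zero_q (h : Sp H q cl) {t : T} (ht : t ∈ wt H T 0) (h0 : t ≠ 0) : q t t ≠ 0 := by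
  obtain ⟨φ, -, -, h3⟩ := exists_phi' T (⊥ : Submodule ℚ (H → k))
  exact h.no_root (fun β hβ h4 => (Submodule.mem_bot ℚ).1 (h3 β hβ h4)) (map_zero φ) ht h0

theorem zero_span (h : Sp H q cl) {t s : T} (ht : t ∈ wt H T 0) (h0 : t ≠ 0)
    (hs : s ∈ wt H T 0) : ∃ c : k, s = c • t := by
  have h1 := h.zero_q ht h0
  -- an isotropic combination
  obtain ⟨c, hc⟩ : ∃ c : k, q (s + c • t) (s + c • t) = 0 := by
    obtain ⟨d, hd⟩ := IsAlgClosed.exists_pow_nat_eq (q s t ^ 2 - q t t * q s s) two_pos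
    refine ⟨(d - q s t) / q t t, ?_⟩
    simp only [map_add, LinearMap.add_apply, map_smul, LinearMap.smul_apply, h.symm t s,
      smul_eq_mul]
    field_simp
    linear_combination hd
  refine ⟨-c, ?_⟩
  by_contra h2
  refine h.zero_q (t := s + c • t) (Submodule.add_mem _ hs (Submodule.smul_mem _ c ht)) ?_ hc
  intro h3
  exact h2 (by rw [neg_smul]; exact eq_neg_of_add_eq_zero_left h3)

/-- There is a root on the line of each weight. -/
theorem exists_root (h : Sp H q cl) {μ : H → k} (hμ : wt H T μ ≠ ⊥) (hμ0 : μ ≠ 0) :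
    ∃ β, IsRt H β ∧ ∃ r : ℚ, μ = r • β := by
  by_contra hcon
  push Not at hcon
  obtain ⟨φ, h1, -, h3⟩ := exists_phi' T (Submodule.span ℚ {μ})
  obtain ⟨t, ht, h0⟩ := Submodule.exists_mem_ne_zero_of_ne_bot hμ
  refine h.no_root (φ := φ) (fun β hβ h4 => ?_) (h1 μ (Submodule.mem_span_singleton_self μ)) ht h0
    ?_
  · by_contra hβ0
    obtain ⟨r, hr⟩ := Submodule.mem_span_singleton.1 (h3 β hβ h4)
    have hr0 : r ≠ 0 := by
      rintro rfl
      rw [zero_smul] at hr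
      exact hβ0 hr.symm
    refine hcon β ⟨hβ0, hβ⟩ r⁻¹ ?_
    rw [← hr, smul_smul, inv_mul_cancel₀ hr0, one_smul]
  · refine h.q_zero ht ht ?_
    obtain ⟨x, hx⟩ := Function.ne_iff.1 hμ0
    intro h3
    have h4 := congrFun h3 x
    rw [Pi.add_apply, ← two_mul, Pi.zero_apply, mul_eq_zero] at h4
    exact h4.elim (two_ne_zero' k) hx

end Sp

end Pool.Agent.TH164.Spin
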