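import Pool.Agent.TH164.Spin.Ss

/-!
# Matrices which satisfy the Clifford relations
-/

set_option autoImplicit false
set_option linter.unusedSectionVars false
set_option linter.unusedVariables false

open Module Matrix

attribute [local instance 100] LieRing.ofAssociativeRing

namespace Pool.Agent.TH164.Spin

variable {N : Type*} [Fintype N] [DecidableEq N] [Nonempty N] {n : ℕ}

/-- The bilinear form of the trace. -/
noncomputable def bq : Matrix N N ℂ →ₗ[ℂ] Matrix N N ℂ →ₗ[ℂ] ℂ :=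
  LinearMap.mk₂ ℂ (fun t s => (t * s).trace / (Fintype.card N : ℂ))
    (fun a b c => by rw [Matrix.add_mul, Matrix.trace_add, add_div])
    (fun c a b => by rw [Matrix.smul_mul, Matrix.trace_smul, smul_eq_mul, smul_eq_mul, mul_div_assoc])
    (fun a b c => by rw [Matrix.mul_add, Matrix.trace_add, add_div])
    (fun c a b => by rw [Matrix.mul_smul, Matrix.trace_smul, smul_eq_mul, smul_eq_mul, mul_div_assoc])

theorem bq_apply (t s : Matrix N N ℂ) : bq t s = (t * s).trace / (Fintype.card N : ℂ) := rfl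

/-- The Clifford relations, and generation. -/
structure Cl (Γ : Fin n → Matrix N N ℂ) : Prop where
  rel : ∀ i j, Γ i * Γ j + Γ j * Γ i = (if i = j then (2 : ℂ) else 0) • (1 : Matrix N N ℂ)
  gen : Algebra.adjoin ℂ (Set.range Γ) = ⊤

/-- The span. -/
def Ts (Γ : Fin n → Matrix N N ℂ) : Submodule ℂ (Matrix N N ℂ) :=
  Submodule.span ℂ (Set.range Γ)

/-- The span of the commutators. -/
def La (Γ : Fin n → Matrix N N ℂ) : Submodule ℂ (Matrix N N ℂ) :=
  Submodule.span ℂ {y | ∃ t ∈ Ts Γ, ∃ s ∈ Ts Γ, y = t * s - s * t}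

variable {Γ : Fin n → Matrix N N ℂ}

theorem mem_Ts {t : Matrix N N ℂ} : t ∈ Ts Γ ↔ ∃ v : Fin n → ℂ, ∑ i, v i • Γ i = t :=
  Submodule.mem_span_range_iff_exists_fun ℂ

theorem gam_mem (i : Fin n) : Γ i ∈ Ts Γ := Submodule.subset_span ⟨i, rfl⟩

namespace Cl

theorem card_ne : ((Fintype.card N : ℕ) : ℂ) ≠ 0 := by
  exact_mod_cast Fintype.card_ne_zero

theorem bq_gam (h : Cl Γ) (i j : Fin n) : bq (Γ i) (Γ j) = if i = j then 1 else 0 := by
  have h1 := congrArg Matrix.trace (h.rel i j)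
  rw [Matrix.trace_add, Matrix.trace_mul_comm (Γ j) (Γ i), Matrix.trace_smul, Matrix.trace_one,
    ← two_mul, smul_eq_mul] at h1
  rw [bq_apply]
  have hc := card_ne (N := N)
  split_ifs at h1 ⊢ with hij
  · have h2 : (Γ i * Γ j).trace = (Fintype.card N : ℂ) := by linear_combination (1 / 2 : ℂ) * h1
    rw [h2, div_self hc]
  · have h2 : (Γ i * Γ j).trace = 0 := by linear_combination (1 / 2 : ℂ) * h1
    rw [h2, zero_div]

theorem relT (h : Cl Γ) {t s : Matrix N N ℂ} (ht : t ∈ Ts Γ) (hs : s ∈ Ts Γ) :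
    t * s + s * t = (2 * bq t s) • (1 : Matrix N N ℂ) := by
  induction ht using Submodule.span_induction with
  | mem x hx =>
    obtain ⟨i, rfl⟩ := hx
    induction hs using Submodule.span_induction with
    | mem y hy =>
      obtain ⟨j, rfl⟩ := hy
      rw [h.rel, h.bq_gam]
      split_ifs
      · rw [mul_one]
      · rw [mul_zero]
    | zero => simp
    | add a b _ _ ha hb =>
      rw [Matrix.mul_add, Matrix.add_mul, map_add, mul_add, add_smul, ← ha, ← hb]
      abel
    | smul c a _ ha =>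
      rw [Matrix.mul_smul, Matrix.smul_mul, ← smul_add, ha, map_smul, smul_smul, smul_eq_mul]
      congr 1
      ring
  | zero => simp
  | add a b _ _ ha hb =>
    rw [Matrix.mul_add, Matrix.add_mul, map_add, LinearMap.add_apply, mul_add, add_smul, ← ha,
      ← hb]
    abel
  | smul c a _ ha =>
    rw [Matrix.mul_smul, Matrix.smul_mul, ← smul_add, ha, map_smul, LinearMap.smul_apply, smul_smul,
      smul_eq_mul]
    congr 1
    ring

theorem bq_sum (h : Cl Γ) (v : Fin n → ℂ) (j : Fin n) : bq (∑ i, v i • Γ i) (Γ j) = v j := by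
  rw [map_sum, LinearMap.sum_apply, Finset.sum_eq_single j]
  · rw [map_smul, LinearMap.smul_apply, h.bq_gam, if_pos rfl, smul_eq_mul, mul_one]
  · intro i _ hij
    rw [map_smul, LinearMap.smul_apply, h.bq_gam, if_neg hij, smul_eq_mul, mul_zero]
  · intro hj
    exact absurd (Finset.mem_univ _) hj

theorem li (h : Cl Γ) : LinearIndependent ℂ Γ := by
  rw [Fintype.linearIndependent_iff]
  intro g hg i
  have h1 := h.bq_sum g i
  rw [hg, map_zero, LinearMap.zero_apply] at h1
  exact h1.symm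

theorem finrank_Ts (h : Cl Γ) : finrank ℂ (Ts Γ) = n := by
  have h1 := finrank_span_eq_card h.li
  rw [Fintype.card_fin] at h1
  exact h1

theorem nd (h : Cl Γ) {t : Matrix N N ℂ} (ht : t ∈ Ts Γ) (h0 : ∀ s ∈ Ts Γ, bq t s = 0) :
    t = 0 := by
  obtain ⟨v, rfl⟩ := mem_Ts.1 ht
  have h1 : v = 0 := by
    funext j
    rw [← h.bq_sum v j]
    exact h0 _ (gam_mem j)
  rw [h1]
  simp

/-- The bracket with a vector. -/
theorem com_vec (h : Cl Γ) {t s r : Matrix N N ℂ} (ht : t ∈ Ts Γ) (hs : s ∈ Ts Γ)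
    (hr : r ∈ Ts Γ) : (t * s - s * t) * r - r * (t * s - s * t) =
      (4 : ℂ) • (bq s r • t - bq t r • s) := by
  have f1 : s * r = (2 * bq s r) • (1 : Matrix N N ℂ) - r * s := eq_sub_of_add_eq (h.relT hs hr)
  have f2 : t * r = (2 * bq t r) • (1 : Matrix N N ℂ) - r * t := eq_sub_of_add_eq (h.relT ht hr)
  have g1 : t * s * r = (2 * bq s r) • t - (2 * bq t r) • s + r * (t * s) := by
    rw [Matrix.mul_assoc, f1, Matrix.mul_sub, ← Matrix.mul_assoc, f2, Matrix.sub_mul,
      Matrix.mul_smul, Matrix.smul_mul, Matrix.mul_one, Matrix.one_mul, Matrix.mul_assoc]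
    abel
  have g2 : s * t * r = (2 * bq t r) • s - (2 * bq s r) • t + r * (s * t) := by
    rw [Matrix.mul_assoc, f2, Matrix.mul_sub, ← Matrix.mul_assoc, f1, Matrix.sub_mul,
      Matrix.mul_smul, Matrix.smul_mul, Matrix.mul_one, Matrix.one_mul, Matrix.mul_assoc]
    abel
  rw [Matrix.sub_mul, g1, g2, Matrix.mul_sub]
  module

/-- The scalar matrices. -/
theorem scalar_of_commute (h : Cl Γ) {X : Matrix N N ℂ} (hX : ∀ i, X * Γ i = Γ i * X) :
    ∃ c : ℂ, X = c • (1 : Matrix N N ℂ) := by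
  have h1 : ∀ Y : Matrix N N ℂ, X * Y = Y * X := by
    intro Y
    have hY : Y ∈ Algebra.adjoin ℂ (Set.range Γ) := by
      rw [h.gen]
      trivial
    induction hY using Algebra.adjoin_induction with
    | mem x hx =>
      obtain ⟨i, rfl⟩ := hx
      exact hX i
    | algebraMap r => exact (Algebra.commutes r X).symm
    | add x y _ _ hx hy => rw [Matrix.mul_add, Matrix.add_mul, hx, hy]
    | mul x y _ _ hx hy => rw [← Matrix.mul_assoc, hx, Matrix.mul_assoc, hy, Matrix.mul_assoc]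
  have h2 : X ∈ Set.range (Matrix.scalar N) := by
    refine Matrix.mem_range_scalar_of_commute_single fun i j _ => ?_
    exact (h1 _).symm
  obtain ⟨c, hc⟩ := h2
  refine ⟨c, ?_⟩
  rw [← hc, Matrix.scalar_apply, Matrix.smul_one_eq_diagonal]

/-- The Lie algebra of the normalizer. -/
theorem decomp (h : Cl Γ) {X : Matrix N N ℂ} (hX : ∀ i, X * Γ i - Γ i * X ∈ Ts Γ) :
    ∃ Y ∈ La Γ, ∃ c : ℂ, X = Y + c • (1 : Matrix N N ℂ) := by
  choose d hd using fun j => mem_Ts.1 (hX j)
  have hdv : ∀ j k, d j k = bq (X * Γ j - Γ j * X) (Γ k) := by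
    intro j k
    rw [← hd j, h.bq_sum]
  have hskew : ∀ j k, d j k = -d k j := by
    intro j k
    have e1 : (X * Γ j * Γ k).trace - (Γ j * X * Γ k).trace =
        -((X * Γ k * Γ j).trace - (Γ k * X * Γ j).trace) := by
      rw [Matrix.trace_mul_cycle (Γ k) X (Γ j), Matrix.trace_mul_cycle (Γ j) X (Γ k)]
      rw [Matrix.trace_mul_cycle X (Γ k) (Γ j), Matrix.trace_mul_cycle X (Γ j) (Γ k)]
      rw [← Matrix.trace_mul_cycle (Γ j) X (Γ k), ← Matrix.trace_mul_cycle (Γ k) X (Γ j)]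
      rw [Matrix.trace_mul_cycle (Γ j) X (Γ k), Matrix.trace_mul_cycle (Γ k) X (Γ j)]
      ring
    rw [hdv, hdv, bq_apply, bq_apply, Matrix.sub_mul, Matrix.sub_mul, Matrix.trace_sub,
      Matrix.trace_sub, e1, neg_div]
  refine ⟨∑ i, ∑ j, (d j i / 8) • (Γ i * Γ j - Γ j * Γ i), ?_, ?_⟩
  · exact Submodule.sum_mem _ fun i _ => Submodule.sum_mem _ fun j _ =>
      Submodule.smul_mem _ _ (Submodule.subset_span ⟨_, gam_mem i, _, gam_mem j, rfl⟩)
  · have h1 := h.scalar_of_commute (X := X - ∑ i, ∑ j, (d j i / 8) • (Γ i * Γ j - Γ j * Γ i))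
      (fun k => by
        rw [← sub_eq_zero]
        have h2 : (∑ i, ∑ j, (d j i / 8) • (Γ i * Γ j - Γ j * Γ i)) * Γ k -
            Γ k * (∑ i, ∑ j, (d j i / 8) • (Γ i * Γ j - Γ j * Γ i)) = X * Γ k - Γ k * X := by
          have h3 : ∀ i j : Fin n, (d j i / 8) • (Γ i * Γ j - Γ j * Γ i) * Γ k -
              Γ k * ((d j i / 8) • (Γ i * Γ j - Γ j * Γ i)) =
              (if j = k then (d j i / 2) • Γ i else 0) - (if i = k then (d j i / 2) • Γ j else 0) := by
            intro i j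
            rw [Matrix.smul_mul, Matrix.mul_smul, ← smul_sub,
              h.com_vec (gam_mem i) (gam_mem j) (gam_mem k), h.bq_gam, h.bq_gam, smul_smul,
              smul_sub]
            congr 1
            · split_ifs
              · rw [one_smul]
                congr 1
                ring
              · rw [zero_smul, smul_zero]
            · split_ifs
              · rw [one_smul]
                congr 1
                ring
              · rw [zero_smul, smul_zero]
          rw [Finset.sum_mul, Finset.mul_sum, ← Finset.sum_sub_distrib]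
          have h4 : ∀ i : Fin n, (∑ j, (d j i / 8) • (Γ i * Γ j - Γ j * Γ i)) * Γ k -
              Γ k * (∑ j, (d j i / 8) • (Γ i * Γ j - Γ j * Γ i)) =
              (d k i / 2) • Γ i - (if i = k then ∑ j, (d j i / 2) • Γ j else 0) := by
            intro i
            rw [Finset.sum_mul, Finset.mul_sum, ← Finset.sum_sub_distrib]
            simp only [h3, Finset.sum_sub_distrib]
            congr 1
            · rw [Finset.sum_ite_eq' Finset.univ k, if_pos (Finset.mem_univ _)]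
            · split_ifs
              · rfl
              · exact Finset.sum_const_zero
          simp only [h4, Finset.sum_sub_distrib]
          rw [Finset.sum_ite_eq' Finset.univ k, if_pos (Finset.mem_univ _), ← hd k,
            ← Finset.sum_sub_distrib]
          refine Finset.sum_congr rfl fun i _ => ?_
          rw [hskew i k, ← sub_smul]
          congr 1
          ring
        rw [Matrix.sub_mul, Matrix.mul_sub, sub_sub_sub_comm, h2, sub_self])
    obtain ⟨c, hc⟩ := h1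
    exact ⟨c, by rw [← hc]; abel⟩

end Cl

/-- Subspaces stable under all matrices. -/
theorem eq_top_of_stable {W : Submodule ℂ (N → ℂ)} (h : ∀ X : Matrix N N ℂ, ∀ w ∈ W, X *ᵥ w ∈ W)
    (h0 : W ≠ ⊥) : W = ⊤ := by
  obtain ⟨w, hw, hw0⟩ := Submodule.exists_mem_ne_zero_of_ne_bot h0
  obtain ⟨i, hi⟩ := Function.ne_iff.1 hw0
  rw [eq_top_iff]
  intro v _
  have h1 := h (vecMulVec v (Pi.single i (w i)⁻¹)) w hw
  have h2 : vecMulVec v (Pi.single i (w i)⁻¹) *ᵥ w = v := by
    rw [Matrix.vecMulVec_mulVec, single_dotProduct, inv_mul_cancel₀ hi]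
    simp
  rwa [h2] at h1

/-- **The classification for matrices.** -/
theorem Cl.spin (h : Cl Γ) (h5 : n ≠ 5) {l : Submodule ℂ (Matrix N N ℂ)}
    (hbr : ∀ X ∈ l, ∀ Y ∈ l, X * Y - Y * X ∈ l) (hle : l ≤ La Γ)
    (hirr : Algebra.adjoin ℂ (l : Set (Matrix N N ℂ)) = ⊤) : La Γ ≤ l := by
  set ρ : Matrix N N ℂ ≃ₐ[ℂ] ((N → ℂ) →ₗ[ℂ] (N → ℂ)) := Matrix.toLinAlgEquiv' with hρ
  have hρa : ∀ X v, ρ X v = X *ᵥ v := fun X v => Matrix.toLinAlgEquiv'_apply X v
  set L : LieSubalgebra ℂ (End ℂ (N → ℂ)) :=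
    { l.map ρ.toLinearMap with
      lie_mem' := by
        rintro _ _ ⟨X, hX, rfl⟩ ⟨Y, hY, rfl⟩
        refine ⟨X * Y - Y * X, hbr X hX Y hY, ?_⟩
        change ρ (X * Y - Y * X) = ρ X * ρ Y - ρ Y * ρ X
        rw [map_sub, map_mul, map_mul] } with hL
  have hmemL : ∀ x : End ℂ (N → ℂ), x ∈ L ↔ ∃ X ∈ l, ρ X = x := fun x => Iff.rfl
  set T' : Submodule ℂ (End ℂ (N → ℂ)) := (Ts Γ).map ρ.toLinearMap with hT'
  have hmemT : ∀ x : End ℂ (N → ℂ), x ∈ T' ↔ ∃ X ∈ Ts Γ, ρ X = x := fun x => Iff.rfl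
  set q' : T' →ₗ[ℂ] T' →ₗ[ℂ] ℂ := (bq (N := N)).compl₁₂
    (ρ.symm.toLinearMap ∘ₗ T'.subtype) (ρ.symm.toLinearMap ∘ₗ T'.subtype) with hq'
  have hq'a : ∀ t s : T', q' t s = bq (ρ.symm t) (ρ.symm s) := fun t s => rfl
  have hsT : ∀ t : T', ρ.symm t ∈ Ts Γ := by
    rintro ⟨_, X, hX, rfl⟩
    change ρ.symm (ρ X) ∈ _
    rwa [AlgEquiv.symm_apply_apply]
  have hfin : finrank ℂ T' = n := by
    have h1 := LinearEquiv.finrank_map_eq ρ.toLinearEquiv (Ts Γ)
    exact h1.trans h.finrank_Ts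
  have key := spin_full L T' q' ?_ ?_ ?_ ?_ (by rw [hfin]; exact h5)
  · refine Submodule.span_le.2 ?_
    rintro _ ⟨t, ht, s, hs, rfl⟩
    obtain ⟨X, hX, h1⟩ := (hmemL _).1 (key ⟨ρ t, t, ht, rfl⟩ ⟨ρ s, s, hs, rfl⟩)
    have h2 : ρ X = ρ (t * s - s * t) := by
      rw [h1, map_sub, map_mul, map_mul]
    rw [← ρ.injective h2]
    exact hX
  · intro t s
    have h1 := h.relT (hsT t) (hsT s)
    have h2 := congrArg ρ h1
    rw [map_add, map_mul, map_mul, AlgEquiv.apply_symm_apply, AlgEquiv.apply_symm_apply, map_smul,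
      map_one] at h2
    rw [h2, hq'a, Algebra.algebraMap_eq_smul_one]
  · intro t ht
    have h1 : ρ.symm (t : End ℂ (N → ℂ)) = 0 := by
      refine h.nd (hsT t) fun s hs => ?_
      have h2 := ht ⟨ρ s, s, hs, rfl⟩
      rw [hq'a] at h2
      change bq (ρ.symm t) (ρ.symm (ρ s)) = 0 at h2
      rwa [AlgEquiv.symm_apply_apply] at h2
    rw [map_eq_zero_iff _ ρ.symm.injective] at h1
    exact Subtype.ext h1
  · intro x hx
    obtain ⟨X, hX, rfl⟩ := (hmemL x).1 hx
    have h1 : La Γ ≤ (Submodule.span ℂ {y | ∃ t s : T', y = (t : End ℂ (N → ℂ)) * s - s * t}).comap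
        ρ.toLinearMap := by
      refine Submodule.span_le.2 ?_
      rintro _ ⟨t, ht, s, hs, rfl⟩
      refine Submodule.subset_span ⟨⟨ρ t, t, ht, rfl⟩, ⟨ρ s, s, hs, rfl⟩, ?_⟩
      change ρ (t * s - s * t) = ρ t * ρ s - ρ s * ρ t
      rw [map_sub, map_mul, map_mul]
    exact h1 (hle hX)
  · intro W hW h0
    refine eq_top_of_stable (fun X => ?_) h0
    have hX : X ∈ Algebra.adjoin ℂ (l : Set (Matrix N N ℂ)) := by
      rw [hirr]
      trivial
    induction hX using Algebra.adjoin_induction with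
    | mem x hx =>
      intro w hw
      rw [← hρa]
      exact hW (ρ x) ((hmemL _).2 ⟨x, hx, rfl⟩) w hw
    | algebraMap r =>
      intro w hw
      rw [Algebra.algebraMap_eq_smul_one, Matrix.smul_mulVec, Matrix.one_mulVec]
      exact W.smul_mem _ hw
    | add x y _ _ hx hy =>
      intro w hw
      rw [Matrix.add_mulVec]
      exact W.add_mem (hx w hw) (hy w hw)
    | mul x y _ _ hx hy =>
      intro w hw
      rw [← Matrix.mulVec_mulVec]
      exact hx _ (hy w hw)

end Pool.Agent.TH164.Spin
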