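import Pool.Agent.TH119.DR.Rat

/-!
# Subspaces stable under the derivations of the complex numbers
-/

set_option autoImplicit false
set_option linter.unusedSectionVars false
set_option linter.unusedVariables false

open Finset Matrix

namespace Pool.Agent.TH164.Spin

open Pool.Agent.TH119.DR

/-- A nonzero subspace stable under derivations contains a nonzero algebraic vector. -/
theorem exists_rat {I : Type*} [Fintype I] (W : Submodule ℂ (I → ℂ))
    (hW : ∀ δ : Derivation ℚ ℂ ℂ, ∀ w ∈ W, (fun i => δ (w i)) ∈ W) (h0 : W ≠ ⊥) :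
    ∃ w ∈ W, w ≠ 0 ∧ ∀ i, IsAlgebraic ℚ (w i) := by
  classical
  have h1 : ∃ n : ℕ, ∃ w ∈ W, w ≠ 0 ∧ (univ.filter fun i => w i ≠ 0).card = n := by
    obtain ⟨w, hw, hw0⟩ := Submodule.exists_mem_ne_zero_of_ne_bot h0
    exact ⟨_, w, hw, hw0, rfl⟩
  obtain ⟨w, hw, hw0, hc⟩ := Nat.find_spec h1
  obtain ⟨j, hj⟩ := Function.ne_iff.1 hw0
  have hv : (w j)⁻¹ • w ∈ W := W.smul_mem _ hw
  have hvj : ((w j)⁻¹ • w) j = 1 := by
    rw [Pi.smul_apply, smul_eq_mul]
    exact inv_mul_cancel₀ hj
  refine ⟨(w j)⁻¹ • w, hv, ?_, fun i => ?_⟩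
  · intro h
    rw [h] at hvj
    exact zero_ne_one hvj
  by_contra hi
  obtain ⟨δ, hδ⟩ := exists_deriv hi
  have h2 := hW δ _ hv
  have h3 : (univ.filter fun i => δ (((w j)⁻¹ • w) i) ≠ 0).card <
      (univ.filter fun i => w i ≠ 0).card := by
    refine Finset.card_lt_card ⟨?_, ?_⟩
    · intro x hx
      rw [Finset.mem_filter] at hx ⊢
      refine ⟨Finset.mem_univ _, fun h4 => hx.2 ?_⟩
      rw [Pi.smul_apply, h4, smul_zero, map_zero]
    · intro hsub
      have h4 := hsub (Finset.mem_filter.2 ⟨Finset.mem_univ j, hj⟩)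
      rw [Finset.mem_filter, hvj, Derivation.map_one_eq_zero] at h4
      exact h4.2 rfl
  rw [hc] at h3
  refine Nat.find_min h1 h3 ⟨_, h2, fun h4 => hδ ?_, rfl⟩
  exact congrFun h4 i

variable {N : Type*} [Fintype N] [DecidableEq N]

/-- The pairing of matrices. -/
theorem exists_coeff (f : Matrix N N ℂ →ₗ[ℂ] ℂ) (M : Matrix N N ℂ) :
    f M = ∑ p : N × N, f (Matrix.single p.1 p.2 1) * M p.1 p.2 := by
  conv_lhs => rw [Matrix.matrix_eq_sum_single M]
  rw [map_sum, Fintype.sum_prod_type]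
  refine Finset.sum_congr rfl fun i _ => ?_
  rw [map_sum]
  refine Finset.sum_congr rfl fun j _ => ?_
  have h1 : Matrix.single i j (M i j) = M i j • Matrix.single i j (1 : ℂ) := by
    rw [Matrix.smul_single, smul_eq_mul, mul_one]
  rw [h1, map_smul, smul_eq_mul, mul_comm]

theorem map_mul_der (δ : Derivation ℚ ℂ ℂ) (X Y : Matrix N N ℂ) :
    (X * Y).map δ = X.map δ * Y + X * Y.map δ := by
  ext i j
  rw [Matrix.map_apply, Matrix.mul_apply, map_sum, Matrix.add_apply, Matrix.mul_apply,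
    Matrix.mul_apply, ← Finset.sum_add_distrib]
  refine Finset.sum_congr rfl fun x _ => ?_
  rw [Derivation.leibniz, Matrix.map_apply, Matrix.map_apply, smul_eq_mul, smul_eq_mul]
  ring

theorem map_one_der (δ : Derivation ℚ ℂ ℂ) : (1 : Matrix N N ℂ).map δ = 0 := by
  ext i j
  rw [Matrix.map_apply, Matrix.one_apply, Matrix.zero_apply]
  split_ifs
  · exact Derivation.map_one_eq_zero δ
  · exact map_zero δ

theorem map_smul_der (δ : Derivation ℚ ℂ ℂ) (c : ℂ) (X : Matrix N N ℂ) :
    (c • X).map δ = δ c • X + c • X.map δ := by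
  ext i j
  rw [Matrix.map_apply, Matrix.smul_apply, smul_eq_mul, Derivation.leibniz, Matrix.add_apply,
    Matrix.smul_apply, Matrix.smul_apply, Matrix.map_apply]
  simp only [smul_eq_mul]
  ring

/-- **The matrices generate everything** if the entries of `P` are linearly independent over the
algebraic numbers. -/
theorem adjoin_eq_top (h : Submodule ℂ (Matrix N N ℂ)) {P P' : Matrix N N ℂ} (h1 : P * P' = 1)
    (h2 : P' * P = 1) (hδ : ∀ δ : Derivation ℚ ℂ ℂ, ∀ X ∈ h, X.map δ ∈ h)
    (hP : ∀ δ : Derivation ℚ ℂ ℂ, P.map δ * P' ∈ h)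
    (hW : ∀ B : Matrix N N ℂ, (∀ i j, IsAlgebraic ℚ (B i j)) → ∑ p : N × N,
      B p.1 p.2 * P p.1 p.2 = 0 → B = 0) :
    Algebra.adjoin ℂ (h : Set (Matrix N N ℂ)) = ⊤ := by
  set A := Algebra.adjoin ℂ (h : Set (Matrix N N ℂ)) with hA
  have hAδ : ∀ δ : Derivation ℚ ℂ ℂ, ∀ X ∈ A, X.map δ ∈ A := by
    intro δ X hX
    induction hX using Algebra.adjoin_induction with
    | mem x hx => exact Algebra.subset_adjoin (hδ δ x hx)
    | algebraMap r =>
      rw [Algebra.algebraMap_eq_smul_one, map_smul_der, map_one_der, smul_zero, add_zero]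
      exact A.smul_mem A.one_mem _
    | add x y _ _ hx hy =>
      have : (x + y).map δ = x.map δ + y.map δ := by
        ext i j
        exact map_add δ _ _
      rw [this]
      exact A.add_mem hx hy
    | mul x y hx' hy' hx hy =>
      rw [map_mul_der]
      exact A.add_mem (A.mul_mem hx hy') (A.mul_mem hx' hy)
  by_contra hne
  set V : Submodule ℂ (Matrix N N ℂ) := A.toSubmodule.map (LinearMap.mulRight ℂ P) with hV
  have hVt : V < ⊤ := by
    refine lt_top_iff_ne_top.2 fun h3 => hne ?_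
    rw [eq_top_iff]
    intro X _
    have h4 : X * P ∈ V := by
      rw [h3]
      trivial
    obtain ⟨a, ha, h5⟩ := h4
    have h6 : a * P = X * P := h5
    have h7 : a = X := by
      calc a = a * P * P' := by rw [Matrix.mul_assoc, h1, Matrix.mul_one]
        _ = X := by rw [h6, Matrix.mul_assoc, h1, Matrix.mul_one]
    rw [← h7]
    exact ha
  have hVδ : ∀ δ : Derivation ℚ ℂ ℂ, ∀ v ∈ V, v.map δ ∈ V := by
    rintro δ _ ⟨a, ha, rfl⟩
    refine ⟨a.map δ + a * (P.map δ * P'), ?_, ?_⟩
    · exact A.add_mem (hAδ δ a ha) (A.mul_mem ha (Algebra.subset_adjoin (hP δ)))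
    · change (a.map δ + a * (P.map δ * P')) * P = (a * P).map δ
      rw [map_mul_der, Matrix.add_mul]
      congr 1
      rw [Matrix.mul_assoc, Matrix.mul_assoc, h2, Matrix.mul_one]
  have hPV : P ∈ V := ⟨1, A.one_mem, Matrix.one_mul P⟩
  obtain ⟨f, hf0, hf⟩ := Submodule.exists_le_ker_of_lt_top V hVt
  set W : Submodule ℂ (N × N → ℂ) :=
    { carrier := {w | ∀ v ∈ V, ∑ p : N × N, w p * v p.1 p.2 = 0}
      zero_mem' := fun v _ => by simp
      add_mem' := by
        intro a b ha hb v hv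
        simp only [Pi.add_apply, add_mul, Finset.sum_add_distrib]
        rw [ha v hv, hb v hv, add_zero]
      smul_mem' := by
        intro c a ha v hv
        simp only [Pi.smul_apply, smul_eq_mul, mul_assoc]
        rw [← Finset.mul_sum, ha v hv, mul_zero] } with hWdef
  have hWne : W ≠ ⊥ := by
    refine (Submodule.ne_bot_iff _).2 ⟨fun p => f (Matrix.single p.1 p.2 1), ?_, ?_⟩
    · intro v hv
      rw [← exists_coeff]
      exact LinearMap.mem_ker.1 (hf hv)
    · intro h3
      apply hf0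
      refine LinearMap.ext fun M => ?_
      rw [exists_coeff, LinearMap.zero_apply]
      refine Finset.sum_eq_zero fun p _ => ?_
      have h4 : f (Matrix.single p.1 p.2 1) = 0 := congrFun h3 p
      rw [h4, zero_mul]
  obtain ⟨w, hw, hw0, hwa⟩ := exists_rat W (by
    intro δ w hw v hv
    have h3 := congrArg δ (hw v hv)
    rw [map_zero, map_sum] at h3
    have h4 := hw _ (hVδ δ v hv)
    have h5 : ∑ p : N × N, δ (w p * v p.1 p.2) = ∑ p : N × N, δ (w p) * v p.1 p.2 +
        ∑ p : N × N, w p * (v.map δ) p.1 p.2 := by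
      rw [← Finset.sum_add_distrib]
      refine Finset.sum_congr rfl fun p _ => ?_
      rw [Derivation.leibniz, smul_eq_mul, smul_eq_mul, Matrix.map_apply]
      ring
    rw [h5, h4, add_zero] at h3
    exact h3) hWne
  refine hw0 ?_
  have h3 := hW (Matrix.of fun i j => w (i, j)) (fun i j => hwa _) (hw P hPV)
  funext p
  exact congrFun (congrFun h3 p.1) p.2

end Pool.Agent.TH164.Spin
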