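import Pool.Agent.TH164.Spin.Full

/-!
# Graded spin modules (the case of even dimension)
-/

set_option autoImplicit false
set_option linter.unusedSectionVars false
set_option linter.unusedVariables false

open Module LieModule LieAlgebra LieAlgebra.IsKilling

namespace Pool.Agent.TH164.Spin

variable {k L : Type*} [Field k] [IsAlgClosed k] [CharZero k] [LieRing L] [LieAlgebra k L]
  [FiniteDimensional k L] [LieAlgebra.IsKilling k L] {H : LieSubalgebra k L}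
  [H.IsCartanSubalgebra]
variable {S : Type*} [AddCommGroup S] [Module k S] [LieRingModule L S] [LieModule k L S]
  [FiniteDimensional k S] [Nontrivial S]
variable {T : Type*} [AddCommGroup T] [Module k T] [LieRingModule L T] [LieModule k L T]
  [FiniteDimensional k T]

/-- The data of a graded spin module. -/
structure Gs (H : LieSubalgebra k L) (q : T →ₗ[k] T →ₗ[k] k) (cl : T →ₗ[k] S →ₗ[k] S)
    (σ : S →ₗ[k] S) : Prop where
  dS : Diag H S
  dT : Diag H T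
  anti : ∀ t s m, cl t (cl s m) + cl s (cl t m) = (2 * q t s) • m
  lie : ∀ (x : L) t m, ⁅x, cl t m⁆ = cl ⁅x, t⁆ m + cl t ⁅x, m⁆
  nd : ∀ t, (∀ s, q t s = 0) → t = 0
  irc : ∀ W : Submodule k S, (∀ t, ∀ m ∈ W, cl t m ∈ W) → W ≠ ⊥ → W = ⊤
  sq' : ∀ m, σ (σ m) = m
  sc : ∀ t m, σ (cl t m) = -cl t (σ m)
  sl : ∀ (x : L) m, σ ⁅x, m⁆ = ⁅x, σ m⁆
  irr : ∀ W : Submodule k S, (∀ x : L, ∀ m ∈ W, ⁅x, m⁆ ∈ W) → W ≠ ⊥ → W = ⊤ ∨
    ∃ ε : k, (ε = 1 ∨ ε = -1) ∧ ∀ m, m ∈ W ↔ σ m = ε • m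

variable {q : T →ₗ[k] T →ₗ[k] k} {cl : T →ₗ[k] S →ₗ[k] S} {σ : S →ₗ[k] S}

namespace Gs

theorem symm (h : Gs H q cl σ) (t s : T) : q t s = q s t := by
  obtain ⟨m, hm⟩ := exists_ne (0 : S)
  have h1 := h.anti t s m
  rw [add_comm, h.anti s t m] at h1
  have h2 := smul_left_injective k hm h1
  exact (mul_left_cancel₀ (two_ne_zero' k) h2).symm

theorem inv (h : Gs H q cl σ) (x : L) (t s : T) : q ⁅x, t⁆ s + q t ⁅x, s⁆ = 0 := by
  obtain ⟨m, hm⟩ := exists_ne (0 : S)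
  have h1 := congrArg (fun m => ⁅x, m⁆) (h.anti t s m)
  simp only [lie_add, lie_smul, h.lie, map_add] at h1
  have h2 := h.anti ⁅x, t⁆ s m
  have h3 := h.anti t ⁅x, s⁆ m
  have h4 := h.anti t s ⁅x, m⁆
  have h5 : (2 * q ⁅x, t⁆ s) • m + (2 * q t ⁅x, s⁆) • m = 0 := by
    rw [← h2, ← h3]
    rw [← h4] at h1
    have h6 : (cl ⁅x, t⁆ (cl s m) + (cl t (cl ⁅x, s⁆ m) + cl t (cl s ⁅x, m⁆)) +
      (cl ⁅x, s⁆ (cl t m) + (cl s (cl ⁅x, t⁆ m) + cl s (cl t ⁅x, m⁆)))) -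
      (cl t (cl s ⁅x, m⁆) + cl s (cl t ⁅x, m⁆)) = 0 := sub_eq_zero.2 h1
    rw [← h6]
    abel
  rw [← add_smul, smul_eq_zero, or_iff_left hm, ← mul_add, mul_eq_zero,
    or_iff_right (two_ne_zero' k)] at h5
  exact h5

theorem cl_mem (h : Gs H q cl σ) {μ χ : H → k} {t : T} (ht : t ∈ wt H T μ) {m : S}
    (hm : m ∈ wt H S χ) : cl t m ∈ wt H S (χ + μ) := by
  intro x
  rw [h.lie, ht x, hm x, map_smul, LinearMap.smul_apply, map_smul, ← add_smul, Pi.add_apply,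
    add_comm (χ x)]

theorem cl_mem' (h : Gs H q cl σ) {μ χ ψ : H → k} {t : T} (ht : t ∈ wt H T μ) {m : S}
    (hm : m ∈ wt H S χ) (hψ : χ + μ = ψ) : cl t m ∈ wt H S ψ := by
  rw [← hψ]
  exact h.cl_mem ht hm

theorem q_zero (h : Gs H q cl σ) {μ ν : H → k} {t s : T} (ht : t ∈ wt H T μ)
    (hs : s ∈ wt H T ν) (hne : μ + ν ≠ 0) : q t s = 0 := by
  obtain ⟨x, hx⟩ := Function.ne_iff.1 hne
  have h1 := h.inv (x : L) t s
  rw [ht x, hs x, map_smul, map_smul, LinearMap.smul_apply, smul_eq_mul, smul_eq_mul,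
    ← add_mul, mul_eq_zero] at h1
  exact h1.resolve_left hx

theorem dual (h : Gs H q cl σ) {μ : H → k} {t : T} (ht : t ∈ wt H T μ) (h0 : t ≠ 0) :
    ∃ s ∈ wt H T (-μ), q t s = 1 := by
  by_contra hcon
  push Not at hcon
  have h1 : ∀ s ∈ wt H T (-μ), q t s = 0 := by
    intro s hs
    by_contra h2
    refine hcon ((q t s)⁻¹ • s) (Submodule.smul_mem _ _ hs) ?_
    rw [map_smul, smul_eq_mul, inv_mul_cancel₀ h2]
  refine h0 (h.nd t fun s => ?_)
  refine h.dT.induction (p := fun s => q t s = 0) s ?_ (map_zero _) ?_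
  · intro ν s hs
    by_cases h2 : μ + ν = 0
    · have h3 : ν = -μ := (neg_eq_of_add_eq_zero_right h2).symm
      rw [h3] at hs
      exact h1 s hs
    · exact h.q_zero ht hs h2
  · intro a b ha hb
    rw [map_add, ha, hb, add_zero]

theorem tw_neg (h : Gs H q cl σ) {μ : H → k} (hμ : wt H T μ ≠ ⊥) : wt H T (-μ) ≠ ⊥ := by
  obtain ⟨t, ht, h0⟩ := Submodule.exists_mem_ne_zero_of_ne_bot hμ
  obtain ⟨s, hs, h1⟩ := h.dual ht h0
  intro h2
  rw [h2] at hs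
  rw [(Submodule.mem_bot k).1 hs, map_zero] at h1
  exact zero_ne_one h1

theorem sq (h : Gs H q cl σ) (t : T) (m : S) : cl t (cl t m) = q t t • m := by
  have h1 := h.anti t t m
  rw [← two_smul k (cl t (cl t m)), mul_smul] at h1
  exact smul_right_injective S (two_ne_zero' k) h1

theorem nil (h : Gs H q cl σ) {μ : H → k} {t : T} (ht : t ∈ wt H T μ) (hμ : μ ≠ 0) (m : S) :
    cl t (cl t m) = 0 := by
  have h2 : μ + μ ≠ 0 := by
    obtain ⟨x, hx⟩ := Function.ne_iff.1 hμ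
    intro h3
    have h4 := congrFun h3 x
    rw [Pi.add_apply, ← two_mul, Pi.zero_apply, mul_eq_zero] at h4
    exact h4.elim (two_ne_zero' k) hx
  rw [h.sq, h.q_zero ht ht h2, zero_smul]

theorem cre (h : Gs H q cl σ) {a b : T} {s : S} (hab : q a b = 1) (h1 : cl a s = 0) :
    cl a (cl b s) = (2 : k) • s := by
  have := h.anti a b s
  rwa [hab, h1, map_zero, add_zero, mul_one] at this

theorem ann (h : Gs H q cl σ) {a b : T} {s : S} (hab : q a b = 0) (h1 : cl a s = 0) :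
    cl a (cl b s) = 0 := by
  have := h.anti a b s
  rwa [hab, h1, map_zero, add_zero, mul_zero, zero_smul] at this

theorem cl_lv (h : Gs H q cl σ) {P Q : (H → k) → Prop} {μ : H → k} {t : T}
    (ht : t ∈ wt H T μ) (hPQ : ∀ χ, P χ → Q (χ + μ)) {m : S} (hm : m ∈ lv (H := H) (M := S) P) :
    cl t m ∈ lv (H := H) (M := S) Q :=
  lv_map (f := cl t) (P := P) (Q := Q) (H := H)
    (fun χ hχ m hm => wt_le_lv (hPQ χ hχ) (h.cl_mem ht hm)) hm

theorem sig_wt (h : Gs H q cl σ) {χ : H → k} {m : S} (hm : m ∈ wt H S χ) : σ m ∈ wt H S χ := by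
  intro x
  rw [← h.sl, hm x, map_smul]

theorem sig_lv (h : Gs H q cl σ) {P : (H → k) → Prop} {m : S} (hm : m ∈ lv (H := H) (M := S) P) :
    σ m ∈ lv (H := H) (M := S) P :=
  lv_map (f := σ) (P := P) (Q := P) (H := H)
    (fun χ hχ m hm => wt_le_lv hχ (h.sig_wt hm)) hm

/-- The homogeneous parts. -/
theorem split (h : Gs H q cl σ) (m : S) : m = (2 : k)⁻¹ • (m + σ m) + (2 : k)⁻¹ • (m - σ m) := by
  rw [← smul_add, add_add_sub_cancel, ← two_smul k m, smul_smul, inv_mul_cancel₀ two_ne_zero,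
    one_smul]

theorem sig_pl (h : Gs H q cl σ) (m : S) :
    σ ((2 : k)⁻¹ • (m + σ m)) = (1 : k) • ((2 : k)⁻¹ • (m + σ m)) := by
  rw [map_smul, map_add, h.sq', one_smul, add_comm]

theorem sig_mi (h : Gs H q cl σ) (m : S) :
    σ ((2 : k)⁻¹ • (m - σ m)) = (-1 : k) • ((2 : k)⁻¹ • (m - σ m)) := by
  rw [map_smul, map_sub, h.sq', neg_one_smul, ← smul_neg, neg_sub]

/-- Subspaces that contain the homogeneous parts. -/
theorem mem_of_parts (h : Gs H q cl σ) {W : Submodule k S} {m : S}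
    (hW : ∀ ε : k, (ε = 1 ∨ ε = -1) → ∀ m' : S, σ m' = ε • m' →
      m' = (2 : k)⁻¹ • (m + σ m) ∨ m' = (2 : k)⁻¹ • (m - σ m) → m' ∈ W) : m ∈ W := by
  rw [h.split m]
  exact W.add_mem (hW 1 (Or.inl rfl) _ (h.sig_pl m) (Or.inl rfl))
    (hW (-1) (Or.inr rfl) _ (h.sig_mi m) (Or.inr rfl))

/-- A homogeneous weight vector on which an operator does not vanish. -/
theorem exists_hom (h : Gs H q cl σ) {P : (H → k) → Prop} (f : S →ₗ[k] S)
    (hf : ¬ ∀ s ∈ lv (H := H) (M := S) P, f s = 0) :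
    ∃ χ, P χ ∧ ∃ s ∈ wt H S χ, f s ≠ 0 ∧ ∃ ε : k, (ε = 1 ∨ ε = -1) ∧ σ s = ε • s := by
  by_contra hcon
  push Not at hcon
  refine hf fun s hs => ?_
  refine lv_induction (p := fun s => f s = 0) hs ?_ (map_zero f) ?_
  · intro χ hχ m hm
    have hkey : ∀ ε : k, (ε = 1 ∨ ε = -1) → ∀ m' : S, m' ∈ wt H S χ → σ m' = ε • m' → f m' = 0 := by
      intro ε hε m' hm' h1
      by_contra h2
      exact hcon χ hχ m' hm' h2 ε hε h1
    have h1 := h.sig_wt hm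
    rw [h.split m, map_add, hkey 1 (Or.inl rfl) _ (Submodule.smul_mem _ _
      (Submodule.add_mem _ hm h1)) (h.sig_pl m), hkey (-1) (Or.inr rfl) _ (Submodule.smul_mem _ _
      (Submodule.sub_mem _ hm h1)) (h.sig_mi m), add_zero]
  · intro a b ha hb
    rw [map_add, ha, hb, add_zero]

theorem hom_unique (h : Gs H q cl σ) {ε : k} {m : S} (h1 : σ m = ε • m)
    (h2 : σ m = (-ε) • m) (hε : ε = 1 ∨ ε = -1) : m = 0 := by
  rw [h1] at h2
  have h3 : (ε + ε) • m = 0 := by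
    rw [add_smul]
    nth_rewrite 1 [h2]
    rw [neg_smul, neg_add_cancel]
  refine (smul_eq_zero.1 h3).resolve_left ?_
  rcases hε with rfl | rfl <;> norm_num

/-- The top lemma. -/
theorem top_lemma (h : Gs H q cl σ) {φ : (H → k) →ₗ[ℚ] ℚ} {M : ℚ} (hM : ∀ χ, wt H S χ ≠ ⊥ →
    M < φ χ → ∀ m ∈ wt H S χ, m = 0)
    {U : Submodule k S} (hU : U ≤ tp H S φ M) (hU0 : U ≠ ⊥)
    (hup : ∀ β, 0 < φ β → ∀ x ∈ wt H L β, ∀ u ∈ U, ⁅x, u⁆ = 0)
    (hst : ∀ β, φ β = 0 → ∀ x ∈ wt H L β, ∀ u ∈ U, ⁅x, u⁆ ∈ U) :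
    ∃ G : Submodule k S, (∀ x : L, ∀ m ∈ G, ⁅x, m⁆ ∈ G) ∧ U ≤ G ∧
      G ≤ U ⊔ lv (H := H) (M := S) (fun χ => φ χ < M) ∧
      ∀ W : Submodule k S, U ≤ W → (∀ β, φ β < 0 → ∀ x ∈ wt H L β, ∀ m ∈ W, ⁅x, m⁆ ∈ W) →
        G ≤ W := by
  set X : Set (S →ₗ[k] S) := {f | ∃ β, φ β < 0 ∧ ∃ x ∈ wt H L β, f = toEnd k L S x} with hX
  set Y : Set (S →ₗ[k] S) := Set.range (toEnd k L S) with hY
  have h1 : ∀ y ∈ Y, ∀ u ∈ U, y u ∈ gen X U := by
    rintro _ ⟨x, rfl⟩ u hu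
    refine (diag_L (H := H)).induction (p := fun x => toEnd k L S x u ∈ gen X U) x ?_ ?_ ?_
    · intro β x hx
      rcases lt_trichotomy (φ β) 0 with h2 | h2 | h2
      · have h3 : toEnd k L S x ∈ X := ⟨β, h2, x, hx, rfl⟩
        exact gen_stable h3 (le_gen hu)
      · exact le_gen (hst β h2 x hx u hu)
      · have h4 : toEnd k L S x u = 0 := hup β h2 x hx u hu
        rw [h4]
        exact Submodule.zero_mem _
    · rw [map_zero, LinearMap.zero_apply]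
      exact Submodule.zero_mem _
    · intro a b ha hb
      rw [map_add, LinearMap.add_apply]
      exact Submodule.add_mem _ ha hb
  have h2 := gen_transfer h1 (by
    rintro _ ⟨a, rfl⟩ _ ⟨β, hβ, b, hb, rfl⟩ w hw hyw
    have h3 : toEnd k L S a (toEnd k L S b w) = toEnd k L S ⁅a, b⁆ w +
        toEnd k L S b (toEnd k L S a w) := leibniz_lie a b w
    rw [h3]
    refine Submodule.add_mem _ (hyw _ (Set.mem_range_self _)) ?_
    have h4 : toEnd k L S b ∈ X := ⟨β, hβ, b, hb, rfl⟩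
    exact gen_stable h4 (hyw _ (Set.mem_range_self _)))
  refine ⟨gen X U, fun x m hm => h2 _ (Set.mem_range_self x) m hm, le_gen, ?_, ?_⟩
  · refine gen_le le_sup_left ?_
    rintro _ ⟨β, hβ, b, hb, rfl⟩ w hw
    refine Submodule.mem_sup_right ?_
    refine lie_lv (φ := φ) (P := fun χ => φ χ ≤ M) hb ?_ ?_
    · intro χ hχ
      rw [map_add]
      linarith
    · refine (sup_le ?_ ?_ : U ⊔ lv (H := H) (M := S) (fun χ => φ χ < M) ≤ _) hw
      · refine hU.trans (lv_mono fun χ _ hχ => ?_)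
        exact le_of_eq hχ
      · exact lv_mono fun χ _ hχ => le_of_lt hχ
  · intro W hUW hW
    refine gen_le hUW ?_
    rintro _ ⟨β, hβ, b, hb, rfl⟩ w hw
    exact hW β hβ b hb w hw

/-- Elements of the top in the subspace generated by `U`. -/
theorem top_cap {φ : (H → k) →ₗ[ℚ] ℚ} {M : ℚ} {U G : Submodule k S} (hU : U ≤ tp H S φ M)
    (hG : G ≤ U ⊔ lv (H := H) (M := S) (fun χ => φ χ < M)) {s : S} (hs : s ∈ tp H S φ M)
    (hsG : s ∈ G) : s ∈ U := by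
  obtain ⟨u, hu, w, hw, rfl⟩ := Submodule.mem_sup.1 (hG hsG)
  have h6 : w ∈ tp H S φ M := by
    have := Submodule.sub_mem _ hs (hU hu)
    rwa [add_sub_cancel_left] at this
  have h7 : w = 0 := eq_zero_of_mem_lv (fun χ h8 h9 => (ne_of_lt h9) h8) h6 hw
  rw [h7, add_zero]
  exact hu

/-- The top lemma at the top level of `S`. -/
theorem top2 (h : Gs H q cl σ) {φ : (H → k) →ₗ[ℚ] ℚ} {M : ℚ} (hM : IsTop H S φ M)
    {U : Submodule k S} (hU : U ≤ tp H S φ M) (hU0 : U ≠ ⊥)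
    (hst : ∀ β, φ β = 0 → ∀ x ∈ wt H L β, ∀ u ∈ U, ⁅x, u⁆ ∈ U) :
    tp H S φ M ≤ U ∨ ∃ ε : k, (ε = 1 ∨ ε = -1) ∧ (∀ m ∈ U, σ m = ε • m) ∧
      ∀ m ∈ tp H S φ M, σ m = ε • m → m ∈ U := by
  obtain ⟨G, h1, h2, h3, -⟩ := h.top_lemma (M := M) (U := U)
    (fun χ hχ h1 => absurd h1 (not_lt.2 (hM.2 χ hχ))) hU hU0 (by
      intro β hβ x hx u hu
      have h3 : ⁅x, u⁆ ∈ lv (H := H) (M := S) (fun χ => M < φ χ) := by
        refine lie_lv (φ := φ) hx ?_ (hU hu)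
        intro χ hχ
        rw [map_add, hχ]
        linarith
      rw [lv_eq_bot (fun χ hχ => not_lt.2 (hM.2 χ hχ))] at h3
      exact (Submodule.mem_bot k).1 h3) hst
  have hG0 : G ≠ ⊥ := by
    intro h4
    rw [h4] at h2
    exact hU0 (le_bot_iff.1 h2)
  rcases h.irr G h1 hG0 with h4 | ⟨ε, hε, h4⟩
  · left
    intro s hs
    exact top_cap hU h3 hs (by rw [h4]; trivial)
  · right
    exact ⟨ε, hε, fun m hm => (h4 m).1 (h2 hm), fun m hm h5 => top_cap hU h3 hm ((h4 m).2 h5)⟩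

theorem top2_mixed (h : Gs H q cl σ) {φ : (H → k) →ₗ[ℚ] ℚ} {M : ℚ} (hM : IsTop H S φ M)
    {U : Submodule k S} (hU : U ≤ tp H S φ M)
    (hst : ∀ β, φ β = 0 → ∀ x ∈ wt H L β, ∀ u ∈ U, ⁅x, u⁆ ∈ U) {a b : S} {ε : k}
    (hε : ε = 1 ∨ ε = -1) (ha : σ a = ε • a) (hb : σ b = (-ε) • b) (ha0 : a ≠ 0) (hb0 : b ≠ 0)
    (hab : a + b ∈ U) : tp H S φ M ≤ U := by
  have hab0 : a + b ≠ 0 := by
    intro h1
    have h2 : σ a = (-ε) • a := by
      rw [eq_neg_of_add_eq_zero_left h1, map_neg, hb, smul_neg]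
    exact ha0 (h.hom_unique ha h2 hε)
  rcases h.top2 hM hU ((Submodule.ne_bot_iff _).2 ⟨_, hab, hab0⟩) hst with h1 | ⟨ε', hε', h1, -⟩
  · exact h1
  · exfalso
    have h2 := h1 _ hab
    rw [map_add, ha, hb, smul_add] at h2
    have h3 : (ε - ε') • a = (ε' + ε) • b := by
      rw [sub_smul, add_smul]
      rw [neg_smul] at h2
      have h4 : ε • a + -(ε • b) - (ε' • a + ε' • b) = 0 := sub_eq_zero.2 h2
      rw [← sub_eq_zero, ← h4]
      abel
    have hcases : ε' = ε ∨ ε' = -ε := by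
      rcases hε with rfl | rfl <;> rcases hε' with rfl | rfl <;> simp
    have hne : ε + ε ≠ 0 := by
      rcases hε with rfl | rfl <;> norm_num
    rcases hcases with h5 | h5
    · rw [h5, sub_self, zero_smul] at h3
      exact smul_ne_zero hne hb0 h3.symm
    · rw [h5, neg_add_cancel, zero_smul, sub_neg_eq_add] at h3
      exact smul_ne_zero hne ha0 h3

theorem top2_hom (h : Gs H q cl σ) {φ : (H → k) →ₗ[ℚ] ℚ} {M : ℚ} (hM : IsTop H S φ M)
    {U : Submodule k S} (hU : U ≤ tp H S φ M) (hU0 : U ≠ ⊥)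
    (hst : ∀ β, φ β = 0 → ∀ x ∈ wt H L β, ∀ u ∈ U, ⁅x, u⁆ ∈ U) {ε : k}
    (hε : ε = 1 ∨ ε = -1) (hUε : ∀ m ∈ U, σ m = ε • m) {s : S} (hs : s ∈ tp H S φ M)
    (hsε : σ s = ε • s) : s ∈ U := by
  rcases h.top2 hM hU hU0 hst with h1 | ⟨ε', hε', h1, h2⟩
  · exact h1 hs
  · obtain ⟨u, hu, hu0⟩ := Submodule.exists_mem_ne_zero_of_ne_bot hU0
    have h3 : ε' = ε := by
      have h4 := h1 u hu
      rw [hUε u hu] at h4
      exact (smul_left_injective k hu0 h4).symm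
    exact h2 s hs (by rw [h3]; exact hsε)

theorem tp_ne (h : Gs H q cl σ) {φ : (H → k) →ₗ[ℚ] ℚ} {M : ℚ} (hM : IsTop H S φ M) :
    ∃ s ∈ tp H S φ M, s ≠ 0 := by
  obtain ⟨⟨χ, h1, h2⟩, -⟩ := hM
  obtain ⟨s, hs, h0⟩ := Submodule.exists_mem_ne_zero_of_ne_bot h1
  exact ⟨s, wt_le_lv (P := fun χ => φ χ = M) h2 hs, h0⟩

theorem kill (h : Gs H q cl σ) {φ : (H → k) →ₗ[ℚ] ℚ} {M : ℚ} (hM : IsTop H S φ M) {μ : H → k}
    (hμ : 0 < φ μ) {t : T} (ht : t ∈ wt H T μ) {s : S} (hs : s ∈ tp H S φ M) : cl t s = 0 := by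
  have h3 : cl t s ∈ lv (H := H) (M := S) (fun χ => M < φ χ) := by
    refine h.cl_lv ht ?_ hs
    intro χ hχ
    rw [map_add, hχ]
    linarith
  rw [lv_eq_bot (fun χ hχ => not_lt.2 (hM.2 χ hχ))] at h3
  exact (Submodule.mem_bot k).1 h3

theorem stab (h : Gs H q cl σ) {φ : (H → k) →ₗ[ℚ] ℚ} {M : ℚ} {μ : H → k}
    (hμ : φ μ = 0) {t : T} (ht : t ∈ wt H T μ) {s : S} (hs : s ∈ tp H S φ M) :
    cl t s ∈ tp H S φ M := by
  refine h.cl_lv ht ?_ hs
  intro χ hχ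
  rw [map_add, hχ, hμ, add_zero]

theorem not_kill (h : Gs H q cl σ) {φ : (H → k) →ₗ[ℚ] ℚ} {M : ℚ} (hM : IsTop H S φ M)
    {μ : H → k} (hμ : φ μ = 0) {t : T} (ht : t ∈ wt H T μ) (h0 : t ≠ 0) :
    ¬ ∀ s ∈ tp H S φ M, cl t s = 0 := by
  intro hk
  obtain ⟨s, hs, hs0⟩ := h.tp_ne hM
  obtain ⟨t', ht', h1⟩ := h.dual ht h0
  have h2 := h.anti t t' s
  rw [h1, hk s hs, hk _ (h.stab (by rw [map_neg, hμ, neg_zero]) ht' hs), map_zero, add_zero,
    mul_one] at h2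
  exact (smul_ne_zero (two_ne_zero' k) hs0) h2.symm

/-- The weight zero does not occur. -/
theorem zero_bot (h : Gs H q cl σ) : wt H T (0 : H → k) = ⊥ := by
  by_contra hcon
  obtain ⟨t, ht, h0⟩ := Submodule.exists_mem_ne_zero_of_ne_bot hcon
  obtain ⟨r, hr, hr0⟩ : ∃ r ∈ wt H T (0 : H → k), q r r ≠ 0 := by
    obtain ⟨t', ht', h1⟩ := h.dual ht h0
    rw [neg_zero] at ht'
    by_contra h2
    push Not at h2
    have h3 := h2 _ (Submodule.add_mem _ ht ht')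
    simp only [map_add, LinearMap.add_apply, h2 t ht, h2 t' ht', h.symm t' t, h1] at h3
    norm_num at h3
  obtain ⟨φ, -, -, hφ⟩ := Sp.exists_phi' (H := H) T (⊥ : Submodule ℚ (H → k))
  obtain ⟨M, hM⟩ := exists_top h.dS φ
  obtain ⟨χ, hχ, s, hs, hs0, ε, hε, hsε⟩ := h.exists_hom (P := fun χ => φ χ = M) LinearMap.id (by
    intro h1
    obtain ⟨s, hs, hs0⟩ := h.tp_ne hM
    exact hs0 (h1 s hs))
  have hstp : s ∈ tp H S φ M := wt_le_lv (P := fun χ => φ χ = M) hχ hs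
  have hrs : cl r s ∈ wt H S χ := h.cl_mem' hr hs (add_zero χ)
  have hrs0 : cl r s ≠ 0 := by
    intro h1
    have h2 := h.sq r s
    rw [h1, map_zero] at h2
    exact smul_ne_zero hr0 hs0 h2.symm
  have hrsε : σ (cl r s) = (-ε) • cl r s := by
    rw [h.sc, hsε, map_smul, neg_smul]
  have h1 := h.top2_mixed hM (U := Submodule.span k {s + cl r s}) (by
    rw [Submodule.span_le, Set.singleton_subset_iff]
    exact Submodule.add_mem _ hstp (wt_le_lv (P := fun χ => φ χ = M) hχ hrs)) (by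
    intro β hβ x hx u hu
    by_cases hx0 : x = 0
    · rw [hx0, zero_lie]
      exact Submodule.zero_mem _
    have h2 : β = 0 := (Submodule.mem_bot ℚ).1
      (hφ β ((Submodule.ne_bot_iff _).2 ⟨x, hx, hx0⟩) hβ)
    rw [h2] at hx
    obtain ⟨c, rfl⟩ := Submodule.mem_span_singleton.1 hu
    have h3 : s + cl r s ∈ wt H S χ := Submodule.add_mem _ hs hrs
    have h4 := h3 ⟨x, wt_zero_L.1 hx⟩
    rw [lie_smul, show ⁅x, s + cl r s⁆ = _ from h4]
    exact Submodule.smul_mem _ _ (Submodule.smul_mem _ _ (Submodule.mem_span_singleton_self _)))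
    hε hsε hrsε hs0 hrs0 (Submodule.mem_span_singleton_self _)
  obtain ⟨c, hc⟩ := Submodule.mem_span_singleton.1 (h1 hstp)
  -- compare the homogeneous parts
  have h2 : (c - 1) • s = -(c • cl r s) := by
    rw [sub_smul, one_smul]
    rw [smul_add] at hc
    rw [← sub_eq_zero]
    have h3 : c • s + c • cl r s - s = 0 := sub_eq_zero.2 hc
    rw [← h3]
    abel
  have h3 : (c - 1) • s = 0 := by
    refine h.hom_unique (ε := ε) ?_ ?_ hε
    · rw [map_smul, hsε, smul_comm]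
    · rw [h2, map_neg, map_smul, hrsε, smul_neg, smul_comm]
  have h4 : c = 1 := by
    have := (smul_eq_zero.1 h3).resolve_right hs0
    rwa [sub_eq_zero] at this
  rw [h4, sub_self, zero_smul, one_smul, zero_eq_neg] at h2
  exact hrs0 h2

end Gs

end Pool.Agent.TH164.Spin
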