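import Pool.Agent.TH164.Spin.Ev1

/-!
# Graded spin modules: the lines of the weights
-/

set_option autoImplicit false
set_option linter.unusedSectionVars false
set_option linter.unusedVariables false

open Module LieModule LieAlgebra LieAlgebra.IsKilling

namespace Pool.Agent.TH164.Spin

variable {k L : Type*} [Field k] [IsAlgClosed k] [CharZero k] [LieRing L] [LieAlgebra k L]
  [FiniteDimensional k L] [LieAlgebra.IsKilling k L] {H : LieSubalgebra k L}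
  [H.IsCartanSubalgebra]
variable {S : Type*} [AddCommGroup S] [Module k S] [LieRingModule L S] [LieModule k L S]
  [FiniteDimensional k S] [Nontrivial S]
variable {T : Type*} [AddCommGroup T] [Module k T] [LieRingModule L T] [LieModule k L T]
  [FiniteDimensional k T]
variable {q : T →ₗ[k] T →ₗ[k] k} {cl : T →ₗ[k] S →ₗ[k] S} {σ : S →ₗ[k] S}

/-- Weights on a string. -/
theorem Tri.reach {M : Type*} [AddCommGroup M] [Module k M] [LieRingModule L M] [LieModule k L M]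
    [FiniteDimensional k M] {β : H → k} {e f : L} (t : Tri β e f) {χ : H → k}
    (h : wt H M χ ≠ ⊥) {z z' j : ℤ} (hz : χ (cv β) = z) (hz' : |z'| ≤ |z|) (hj : z = z' + 2 * j) :
    wt H M (χ - j • β) ≠ ⊥ := by
  rcases le_total 0 z with h0 | h0
  · rw [abs_of_nonneg h0, abs_le] at hz'
    have h1 := t.str h hz (i := j.toNat) (by omega)
    rwa [← natCast_zsmul, Int.toNat_of_nonneg (by omega)] at h1
  · rw [abs_of_nonpos h0, abs_le] at hz'
    have h1 := t.str' h hz (i := (-j).toNat) (by omega)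
    rwa [← natCast_zsmul, Int.toNat_of_nonneg (by omega), neg_smul, ← sub_eq_add_neg] at h1

theorem exists_pos {β : H → k} (hβ : β ≠ 0) : ∃ φ : (H → k) →ₗ[ℚ] ℚ, 0 < φ β := by
  obtain ⟨φ, -, h1⟩ := exists_phi (⊥ : Submodule ℚ (H → k)) (F := {β}) (Set.finite_singleton β)
  have h2 := h1 β rfl (by rwa [Submodule.mem_bot])
  rcases lt_or_gt_of_ne h2 with h3 | h3
  · exact ⟨-φ, by rw [LinearMap.neg_apply]; linarith⟩
  · exact ⟨φ, h3⟩

theorem exists_max {φ : (H → k) →ₗ[ℚ] ℚ} {M : ℚ} (hM : IsTop H S φ M)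
    (φ' : (H → k) →ₗ[ℚ] ℚ) : ∃ Λ, wt H S Λ ≠ ⊥ ∧ φ Λ = M ∧
      ∀ χ, wt H S χ ≠ ⊥ → φ χ = M → φ' χ ≤ φ' Λ := by
  obtain ⟨χ0, h1, h2⟩ := hM.1
  obtain ⟨Λ, ⟨h3, h4⟩, h5⟩ := Set.exists_max_image {χ : H → k | wt H S χ ≠ ⊥ ∧ φ χ = M} φ'
    ((finite_wt (H := H) (M := S)).subset fun χ hχ => hχ.1) ⟨χ0, h1, h2⟩
  exact ⟨Λ, h3, h4, fun χ h6 h7 => h5 χ ⟨h6, h7⟩⟩

/-- The span of a string is stable. -/
theorem str_stable {β : H → k} {e f : L} (t : Tri β e f) {φ : (H → k) →ₗ[ℚ] ℚ}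
    (hφ : Ln T φ β) {u : S} {Λ : H → k} (hu : u ∈ wt H S Λ) (h0 : u ≠ 0) (h1 : ⁅e, u⁆ = 0) :
    ∀ γ, φ γ = 0 → ∀ x ∈ wt H L γ, ∀ w ∈ Submodule.span k (Set.range fun i : ℕ => up f i u),
      ⁅x, w⁆ ∈ Submodule.span k (Set.range fun i : ℕ => up f i u) := by
  intro γ hγ x hx w hw
  by_cases hx0 : x = 0
  · rw [hx0, zero_lie]
    exact Submodule.zero_mem _
  have hγ' : wt H L γ ≠ ⊥ := (Submodule.ne_bot_iff _).2 ⟨x, hx, hx0⟩
  have key : ∀ i : ℕ, ⁅x, up f i u⁆ ∈ Submodule.span k (Set.range fun i : ℕ => up f i u) := by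
    intro i
    rcases root_line t.rt hγ' (hφ.l γ hγ' hγ) with h2 | h2 | h2
    · rw [h2] at hx
      have h3 := t.dn_mem hu i ⟨x, wt_zero_L.1 hx⟩
      rw [show ⁅x, up f i u⁆ = _ from h3]
      exact Submodule.smul_mem _ _ (Submodule.subset_span ⟨i, rfl⟩)
    · rw [h2] at hx
      obtain ⟨c, rfl⟩ := rt_one t.rt t.he hx t.ht.e_ne_zero
      rw [smul_lie]
      refine Submodule.smul_mem _ _ ?_
      cases i with
      | zero =>
        rw [up_zero, h1]
        exact Submodule.zero_mem _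
      | succ i =>
        rw [t.e_f hu h0 h1]
        exact Submodule.smul_mem _ _ (Submodule.subset_span ⟨i, rfl⟩)
    · rw [h2] at hx
      obtain ⟨c, rfl⟩ := rt_one t.neg.rt t.hf hx t.ht.f_ne_zero
      rw [smul_lie]
      refine Submodule.smul_mem _ _ (Submodule.subset_span ⟨i + 1, ?_⟩)
      exact up_succ _ _ _
  induction hw using Submodule.span_induction with
  | mem x hx =>
    obtain ⟨i, rfl⟩ := hx
    exact key i
  | zero =>
    rw [lie_zero]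
    exact Submodule.zero_mem _
  | add a b _ _ ha hb =>
    rw [lie_add]
    exact Submodule.add_mem _ ha hb
  | smul c a _ ha =>
    rw [lie_smul]
    exact Submodule.smul_mem _ _ ha

namespace Gs

theorem sig_up (h : Gs H q cl σ) {ε : k} (f : L) {u : S} (hu : σ u = ε • u) (i : ℕ) :
    σ (up f i u) = ε • up f i u := by
  induction i with
  | zero => exact hu
  | succ i ih => rw [up_succ, h.sl, ih, lie_smul]

/-- Homogeneous weight vectors exist. -/
theorem hom_wt (h : Gs H q cl σ) {χ : H → k} (hχ : wt H S χ ≠ ⊥) :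
    ∃ s ∈ wt H S χ, s ≠ 0 ∧ ∃ ε : k, (ε = 1 ∨ ε = -1) ∧ σ s = ε • s := by
  obtain ⟨s, hs, h0⟩ := Submodule.exists_mem_ne_zero_of_ne_bot hχ
  by_cases h1 : (2 : k)⁻¹ • (s + σ s) = 0
  · refine ⟨_, Submodule.smul_mem _ _ (Submodule.sub_mem _ hs (h.sig_wt hs)), ?_, -1, Or.inr rfl,
      h.sig_mi s⟩
    intro h2
    apply h0
    rw [h.split s, h1, h2, add_zero]
  · exact ⟨_, Submodule.smul_mem _ _ (Submodule.add_mem _ hs (h.sig_wt hs)), h1, 1, Or.inl rfl,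
      h.sig_pl s⟩

theorem cl_par (h : Gs H q cl σ) {ε : k} {m : S} (hm : σ m = ε • m) (t : T) :
    σ (cl t m) = (-ε) • cl t m := by
  rw [h.sc, hm, map_smul, neg_smul]

theorem lie_par (h : Gs H q cl σ) {ε : k} {m : S} (hm : σ m = ε • m) (x : L) :
    σ ⁅x, m⁆ = ε • ⁅x, m⁆ := by
  rw [h.sl, hm, lie_smul]

theorem neg_par {ε : k} (h : ε = 1 ∨ ε = -1) : -ε = 1 ∨ -ε = -1 := by
  rcases h with rfl | rfl
  · exact Or.inr rfl
  · exact Or.inl (neg_neg _)

/-- Products which do not vanish. -/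
theorem cl_ne (h : Gs H q cl σ) {ν : H → k} {t : T} (ht : t ∈ wt H T ν) (h0 : t ≠ 0) {s : S}
    (hs : s ≠ 0) (hk : ∀ t' ∈ wt H T (-ν), cl t' s = 0) : cl t s ≠ 0 := by
  intro h1
  obtain ⟨t', ht', h2⟩ := h.dual ht h0
  have h3 := h.anti t t' s
  rw [hk t' ht', h1, map_zero, map_zero, add_zero, h2, mul_one] at h3
  exact smul_ne_zero (two_ne_zero' k) hs h3.symm

/-- The top lemma for the Clifford algebra. -/
theorem ctop (h : Gs H q cl σ) {φ : (H → k) →ₗ[ℚ] ℚ} {M : ℚ} (hM : IsTop H S φ M)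
    {U : Submodule k S} (hU : U ≤ tp H S φ M) (hU0 : U ≠ ⊥)
    (hst : ∀ μ, φ μ = 0 → ∀ t ∈ wt H T μ, ∀ u ∈ U, cl t u ∈ U) : tp H S φ M ≤ U := by
  set X : Set (S →ₗ[k] S) := {f | ∃ μ, φ μ < 0 ∧ ∃ t ∈ wt H T μ, f = cl t} with hX
  set Y : Set (S →ₗ[k] S) := Set.range cl with hY
  have h1 : ∀ y ∈ Y, ∀ u ∈ U, y u ∈ gen X U := by
    rintro _ ⟨t, rfl⟩ u hu
    refine h.dT.induction (p := fun t => cl t u ∈ gen X U) t ?_ ?_ ?_
    · intro μ t ht
      rcases lt_trichotomy (φ μ) 0 with h2 | h2 | h2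
      · have h3 : cl t ∈ X := ⟨μ, h2, t, ht, rfl⟩
        exact gen_stable h3 (le_gen hu)
      · exact le_gen (hst μ h2 t ht u hu)
      · rw [h.kill hM h2 ht (hU hu)]
        exact Submodule.zero_mem _
    · rw [map_zero, LinearMap.zero_apply]
      exact Submodule.zero_mem _
    · intro a b ha hb
      rw [map_add, LinearMap.add_apply]
      exact Submodule.add_mem _ ha hb
  have h2 := gen_transfer h1 (by
    rintro _ ⟨a, rfl⟩ _ ⟨β, hβ, b, hb, rfl⟩ w hw hyw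
    have h3 : cl a (cl b w) = (2 * q a b) • w - cl b (cl a w) := by
      rw [← h.anti a b w]
      abel
    rw [h3]
    refine Submodule.sub_mem _ (Submodule.smul_mem _ _ hw) ?_
    have h4 : cl b ∈ X := ⟨β, hβ, b, hb, rfl⟩
    exact gen_stable h4 (hyw _ (Set.mem_range_self _)))
  have h3 : gen X U = ⊤ := by
    refine h.irc _ (fun x m hm => h2 _ (Set.mem_range_self x) m hm) ?_
    intro h4
    refine hU0 (eq_bot_iff.2 ?_)
    rw [← h4]
    exact le_gen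
  have h4 : gen X U ≤ U ⊔ lv (H := H) (M := S) (fun χ => φ χ < M) := by
    refine gen_le le_sup_left ?_
    rintro _ ⟨β, hβ, b, hb, rfl⟩ w hw
    refine Submodule.mem_sup_right ?_
    refine h.cl_lv (P := fun χ => φ χ ≤ M) hb ?_ ?_
    · intro χ hχ
      rw [map_add]
      linarith
    · refine (sup_le ?_ ?_ : U ⊔ lv (H := H) (M := S) (fun χ => φ χ < M) ≤ _) hw
      · refine hU.trans (lv_mono fun χ _ hχ => ?_)
        exact le_of_eq hχ
      · exact lv_mono fun χ _ hχ => le_of_lt hχ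
  intro s hs
  exact top_cap hU h4 hs (by rw [h3]; trivial)

/-- Multiplicity one along the line of a root. -/
theorem line_two (h : Gs H q cl σ) {β : H → k} {e f : L} (t : Tri β e f)
    {φ : (H → k) →ₗ[ℚ] ℚ} (hφ : Ln T φ β) {M : ℚ} (hM : IsTop H S φ M) {ε : k}
    (hε : ε = 1 ∨ ε = -1) {χ : H → k} (hχ : φ χ = M) {a b : S} (ha : a ∈ wt H S χ)
    (hb : b ∈ wt H S χ) (ha1 : σ a = ε • a) (hb1 : σ b = ε • b) (ha0 : a ≠ 0) :
    ∃ c : k, b = c • a := by
  obtain ⟨p, hp0, hp1⟩ := t.prim ha ha0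
  rw [up_succ] at hp1
  have hu := t.up_mem ha p
  set u := up e p a with hudef
  have hu1 : σ u = ε • u := h.sig_up e ha1 p
  have hU : Submodule.span k (Set.range fun i : ℕ => up f i u) ≤ tp H S φ M := by
    rw [Submodule.span_le]
    rintro _ ⟨i, rfl⟩
    refine wt_le_lv (P := fun χ => φ χ = M) ?_ (t.dn_mem hu i)
    rw [map_sub, map_nsmul, hφ.zero, smul_zero, sub_zero, map_add, map_nsmul, hφ.zero, smul_zero,
      add_zero, hχ]
  have hU0 : Submodule.span k (Set.range fun i : ℕ => up f i u) ≠ ⊥ :=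
    (Submodule.ne_bot_iff _).2 ⟨u, Submodule.subset_span ⟨0, rfl⟩, hp0⟩
  have hUε : ∀ m ∈ Submodule.span k (Set.range fun i : ℕ => up f i u), σ m = ε • m := by
    intro m hm
    induction hm using Submodule.span_induction with
    | mem x hx =>
      obtain ⟨i, rfl⟩ := hx
      exact h.sig_up f hu1 i
    | zero => rw [map_zero, smul_zero]
    | add a b _ _ ha hb => rw [map_add, ha, hb, smul_add]
    | smul c a _ ha => rw [map_smul, ha, smul_comm]
  have hst := str_stable t hφ hu hp0 hp1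
  have hmem : ∀ m ∈ wt H S χ, σ m = ε • m → ∃ c : k, m = c • up f p u := by
    intro m hm hm1
    have h1 := h.top2_hom hM hU hU0 hst hε hUε (wt_le_lv (P := fun χ => φ χ = M) hχ hm) hm1
    have h2 := mem_span_wt (v := fun i : ℕ => up f i u) (X := fun i : ℕ => χ + p • β - i • β)
      (fun i => t.dn_mem hu i) h1 hm
    have h3 : {i : ℕ | χ + p • β - i • β = χ} = {p} := by
      ext i
      rw [Set.mem_ofPred_eq, Set.mem_singleton_iff]
      constructor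
      · intro h4
        rw [add_sub_assoc, add_eq_left, sub_eq_zero, ← natCast_zsmul, ← natCast_zsmul] at h4
        exact_mod_cast (smul_inj t.rt.1 h4).symm
      · rintro rfl
        rw [add_sub_cancel_right]
    rw [h3, Set.image_singleton, Submodule.mem_span_singleton] at h2
    obtain ⟨c, hc⟩ := h2
    exact ⟨c, hc.symm⟩
  obtain ⟨c, hc⟩ := hmem a ha ha1
  obtain ⟨d, hd⟩ := hmem b hb hb1
  have hc0 : c ≠ 0 := by
    rintro rfl
    rw [zero_smul] at hc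
    exact ha0 hc
  refine ⟨d * c⁻¹, ?_⟩
  rw [hd, hc, smul_smul, mul_assoc, inv_mul_cancel₀ hc0, mul_one]

/-- There are no weights on the line of a root. -/
theorem no_line (h : Gs H q cl σ) {β : H → k} (hβ : IsRt H β) {μ : H → k}
    (hμ : wt H T μ ≠ ⊥) : μ ∉ Submodule.span ℚ {β} := by
  intro hspan
  obtain ⟨r, rfl⟩ := Submodule.mem_span_singleton.1 hspan
  obtain ⟨e, f, t⟩ := exists_tri hβ
  obtain ⟨z, hz⟩ := t.int hμ
  have hr : (z : ℚ) = 2 * r := by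
    rw [Pi.smul_apply, rt_two hβ, Rat.smul_def] at hz
    have h1 : ((r * 2 : ℚ) : k) = ((z : ℚ) : k) := by
      push_cast
      exact hz
    have h2 := Rat.cast_injective h1
    linarith
  rcases Int.even_or_odd' z with ⟨j, hj | hj⟩
  · have h1 := t.reach hμ hz (z' := 0) (j := j) (by simp) (by omega)
    have h2 : r • β - j • β = 0 := by
      have h3 : r = j := by
        rw [hj] at hr
        push_cast at hr
        linarith
      rw [h3, Int.cast_smul_eq_zsmul, sub_self]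
    rw [h2] at h1
    exact h1 h.zero_bot
  · have h1 := t.reach hμ hz (z' := 1) (j := j) (by
      rw [hj, abs_one]
      exact Int.one_le_abs (by omega)) (by omega)
    have h2 : r • β - j • β = (1 / 2 : ℚ) • β := by
      have h3 : r = j + 1 / 2 := by
        rw [hj] at hr
        push_cast at hr
        linarith
      rw [h3, add_smul, Int.cast_smul_eq_zsmul, add_sub_cancel_left]
    rw [h2] at h1
    set δ := (1 / 2 : ℚ) • β with hδ
    have hδβ : δ - β = -δ := by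
      rw [sub_eq_iff_eq_add, ← sub_eq_iff_eq_add', sub_neg_eq_add, hδ, ← add_smul]
      norm_num
    have hδv : δ (cv β) = ((1 : ℤ) : k) := by
      rw [hδ, Pi.smul_apply, rt_two hβ, Rat.smul_def]
      push_cast
      norm_num
    obtain ⟨φ, hφ⟩ := exists_ln T β
    obtain ⟨M, hM⟩ := exists_top h.dS φ
    obtain ⟨φ', hφ'⟩ := exists_pos hβ.1
    obtain ⟨Λ, hΛ1, hΛ2, hΛ3⟩ := exists_max hM φ'
    obtain ⟨s, hs, s0, ε, hε, hsε⟩ := h.hom_wt hΛ1
    have hφδ : φ δ = 0 := by rw [hδ, map_smul, hφ.zero, smul_zero]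
    have hφ'δ : 0 < φ' δ := by
      rw [hδ, map_smul, smul_eq_mul]
      positivity
    have hk : ∀ t' ∈ wt H T δ, cl t' s = 0 := by
      intro t' ht'
      by_contra h3
      have h4 := hΛ3 (Λ + δ) ((Submodule.ne_bot_iff _).2 ⟨_, h.cl_mem ht' hs, h3⟩)
        (by rw [map_add, hφδ, add_zero, hΛ2])
      rw [map_add] at h4
      linarith
    obtain ⟨u, hu, u0⟩ := Submodule.exists_mem_ne_zero_of_ne_bot h1
    have hf0 : ⁅f, u⁆ ≠ 0 := t.inj hu u0 hδv one_pos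
    have hfm : ⁅f, u⁆ ∈ wt H T (-δ) := by
      rw [← hδβ]
      exact t.lie_f hu
    obtain ⟨v, hv, huv⟩ := h.dual hu u0
    have h3 := h.cl_ne hfm hf0 s0 (by rwa [neg_neg])
    obtain ⟨c, hc⟩ := h.line_two t hφ hM (neg_par hε) (χ := Λ + -δ)
      (by rw [map_add, map_neg, hφδ, neg_zero, add_zero, hΛ2]) (h.cl_mem hfm hs)
      (h.cl_mem hv hs) (h.cl_par hsε _) (h.cl_par hsε _) h3
    have h4 : v = c • ⁅f, u⁆ := by
      by_contra h5
      refine h.cl_ne (t := v - c • ⁅f, u⁆) (Submodule.sub_mem _ hv (Submodule.smul_mem _ c hfm))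
        (sub_ne_zero.2 h5) s0 (by rwa [neg_neg]) ?_
      rw [map_sub, map_smul, LinearMap.sub_apply, LinearMap.smul_apply, hc, sub_self]
    have h5 := h.inv f u u
    rw [h.symm ⁅f, u⁆ u, ← two_mul, mul_eq_zero, or_iff_right (two_ne_zero' k)] at h5
    rw [h4, map_smul, h5, smul_zero] at huv
    exact zero_ne_one huv

/-- If there are no roots of level zero, the homogeneous parts of the top level have dimension
one. -/
theorem one_two (h : Gs H q cl σ) {φ : (H → k) →ₗ[ℚ] ℚ}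
    (hφ : ∀ β, wt H L β ≠ ⊥ → φ β = 0 → β = 0) {M : ℚ} (hM : IsTop H S φ M) {ε : k}
    (hε : ε = 1 ∨ ε = -1) {χ : H → k} (hχ : φ χ = M) {a b : S} (ha : a ∈ wt H S χ)
    (hb : b ∈ tp H S φ M) (ha1 : σ a = ε • a) (hb1 : σ b = ε • b) (ha0 : a ≠ 0) :
    ∃ c : k, b = c • a := by
  have h1 := h.top2_hom hM (U := Submodule.span k {a}) (by
    rw [Submodule.span_le, Set.singleton_subset_iff]
    exact wt_le_lv (P := fun χ => φ χ = M) hχ ha)
    ((Submodule.ne_bot_iff _).2 ⟨a, Submodule.mem_span_singleton_self a, ha0⟩) (by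
    intro β hβ x hx u hu
    by_cases hx0 : x = 0
    · rw [hx0, zero_lie]
      exact Submodule.zero_mem _
    have h2 : β = 0 := hφ β ((Submodule.ne_bot_iff _).2 ⟨x, hx, hx0⟩) hβ
    rw [h2] at hx
    obtain ⟨c, rfl⟩ := Submodule.mem_span_singleton.1 hu
    have h4 := ha ⟨x, wt_zero_L.1 hx⟩
    rw [lie_smul, show ⁅x, a⁆ = _ from h4]
    exact Submodule.smul_mem _ _ (Submodule.smul_mem _ _ (Submodule.mem_span_singleton_self _)))
    hε (by
    intro m hm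
    obtain ⟨c, rfl⟩ := Submodule.mem_span_singleton.1 hm
    rw [map_smul, ha1, smul_comm]) hb hb1
  obtain ⟨c, hc⟩ := Submodule.mem_span_singleton.1 h1
  exact ⟨c, hc.symm⟩

theorem ne_zero (h : Gs H q cl σ) {μ : H → k} (hμ : wt H T μ ≠ ⊥) : μ ≠ 0 := by
  rintro rfl
  exact hμ h.zero_bot

/-- The functional with kernel the line of a weight. -/
structure Lw (T : Type*) [AddCommGroup T] [Module k T] [LieRingModule L T] [LieModule k L T]
    (φ : (H → k) →ₗ[ℚ] ℚ) (μ : H → k) : Prop where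
  zero : φ μ = 0
  t : ∀ χ, wt H T χ ≠ ⊥ → φ χ = 0 → χ ∈ Submodule.span ℚ {μ}
  l : ∀ β, wt H L β ≠ ⊥ → φ β = 0 → β = 0

theorem mk_lw (h : Gs H q cl σ) {μ : H → k} (hμ : wt H T μ ≠ ⊥) {φ : (H → k) →ₗ[ℚ] ℚ}
    (h1 : φ μ = 0) (h2 : ∀ χ, wt H T χ ≠ ⊥ → φ χ = 0 → χ ∈ Submodule.span ℚ {μ})
    (h3 : ∀ χ, wt H L χ ≠ ⊥ → φ χ = 0 → χ ∈ Submodule.span ℚ {μ}) : Lw T φ μ := by
  refine ⟨h1, h2, fun β hβ hβ0 => ?_⟩
  by_contra h4
  refine h.no_line ⟨h4, hβ⟩ hμ ?_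
  obtain ⟨r, hr⟩ := Submodule.mem_span_singleton.1 (h3 β hβ hβ0)
  have hr0 : r ≠ 0 := by
    rintro rfl
    rw [zero_smul] at hr
    exact h4 hr.symm
  rw [Submodule.mem_span_singleton]
  refine ⟨r⁻¹, ?_⟩
  rw [← hr, smul_smul, inv_mul_cancel₀ hr0, one_smul]

theorem exists_lw (h : Gs H q cl σ) {μ : H → k} (hμ : wt H T μ ≠ ⊥) :
    ∃ φ : (H → k) →ₗ[ℚ] ℚ, Lw T φ μ := by
  obtain ⟨φ, h1, h2, h3⟩ := Sp.exists_phi' T (Submodule.span ℚ {μ})
  exact ⟨φ, h.mk_lw hμ (h1 μ (Submodule.mem_span_singleton_self μ)) h2 h3⟩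

/-- The top level for the functional. -/
structure Tl (cl : T →ₗ[k] S →ₗ[k] S) (σ : S →ₗ[k] S) (φ : (H → k) →ₗ[ℚ] ℚ) (M : ℚ) (μ : H → k)
    (s : S) (Λ : H → k) (ε : k) : Prop where
  mem : s ∈ wt H S Λ
  ne : s ≠ 0
  lev : φ Λ = M
  hε : ε = 1 ∨ ε = -1
  par : σ s = ε • s
  kill : ∀ t ∈ wt H T μ, cl t s = 0

theorem exists_tl (h : Gs H q cl σ) {μ : H → k} (hμ : wt H T μ ≠ ⊥) {φ : (H → k) →ₗ[ℚ] ℚ}
    (hφ : φ μ = 0) {M : ℚ} (hM : IsTop H S φ M) :
    ∃ s Λ ε, Tl cl σ φ M μ s Λ ε := by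
  obtain ⟨φ', hφ'⟩ := exists_pos (h.ne_zero hμ)
  obtain ⟨Λ, hΛ1, hΛ2, hΛ3⟩ := exists_max hM φ'
  obtain ⟨s, hs, s0, ε, hε, hsε⟩ := h.hom_wt hΛ1
  refine ⟨s, Λ, ε, hs, s0, hΛ2, hε, hsε, ?_⟩
  intro t' ht'
  by_contra h3
  have h4 := hΛ3 (Λ + μ) ((Submodule.ne_bot_iff _).2 ⟨_, h.cl_mem ht' hs, h3⟩)
    (by rw [map_add, hφ, add_zero, hΛ2])
  rw [map_add] at h4
  linarith

theorem dim_aux (h : Gs H q cl σ) {μ : H → k} {t t' : T} (ht : t ∈ wt H T (-μ)) (h0 : t ≠ 0)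
    (hμ : wt H T μ ≠ ⊥) (ht' : t' ∈ wt H T (-μ)) : ∃ c : k, t' = c • t := by
  obtain ⟨φ, hφ⟩ := h.exists_lw hμ
  obtain ⟨M, hM⟩ := exists_top h.dS φ
  obtain ⟨s, Λ, ε, l⟩ := h.exists_tl hμ hφ.zero hM
  have h1 := h.cl_ne ht h0 l.ne (by rw [neg_neg]; exact l.kill)
  have hlev : φ (Λ + -μ) = M := by rw [map_add, map_neg, hφ.zero, neg_zero, add_zero, l.lev]
  obtain ⟨c, hc⟩ := h.one_two hφ.l hM (neg_par l.hε) hlev
    (h.cl_mem ht l.mem) (wt_le_lv (P := fun χ => φ χ = M) hlev (h.cl_mem ht' l.mem))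
    (h.cl_par l.par _) (h.cl_par l.par _) h1
  refine ⟨c, ?_⟩
  by_contra h5
  refine h.cl_ne (t := t' - c • t) (Submodule.sub_mem _ ht' (Submodule.smul_mem _ c ht))
    (sub_ne_zero.2 h5) l.ne (by rw [neg_neg]; exact l.kill) ?_
  rw [map_sub, map_smul, LinearMap.sub_apply, LinearMap.smul_apply, hc, sub_self]

/-- The weights have multiplicity one. -/
theorem one (h : Gs H q cl σ) {μ : H → k} {t t' : T} (ht : t ∈ wt H T μ) (h0 : t ≠ 0)
    (ht' : t' ∈ wt H T μ) : ∃ c : k, t' = c • t := by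
  have h1 := h.tw_neg ((Submodule.ne_bot_iff _).2 ⟨t, ht, h0⟩)
  exact h.dim_aux (μ := -μ) (by rwa [neg_neg]) h0 h1 (by rwa [neg_neg])

/-- The weights on the line of a weight. -/
theorem line_pm (h : Gs H q cl σ) {μ ν : H → k} (hμ : wt H T μ ≠ ⊥) (hν : wt H T ν ≠ ⊥)
    (hsp : ν ∈ Submodule.span ℚ {μ}) : ν = μ ∨ ν = -μ := by
  obtain ⟨φ, hφ⟩ := h.exists_lw hμ
  obtain ⟨M, hM⟩ := exists_top h.dS φ
  obtain ⟨φ', hφ'⟩ := exists_pos (h.ne_zero hμ)
  obtain ⟨Λ, hΛ1, hΛ2, hΛ3⟩ := exists_max hM φ'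
  obtain ⟨s, hs, s0, ε, hε, hsε⟩ := h.hom_wt hΛ1
  have key : ∀ ν : H → k, wt H T ν ≠ ⊥ → φ ν = 0 → φ' ν < 0 → ν = -μ := by
    intro ν hν hν0 hν1
    have hk : ∀ χ : H → k, φ χ = 0 → 0 < φ' χ → ∀ t' ∈ wt H T χ, cl t' s = 0 := by
      intro χ hχ hχ' t' ht'
      by_contra h3
      have h4 := hΛ3 (Λ + χ) ((Submodule.ne_bot_iff _).2 ⟨_, h.cl_mem ht' hs, h3⟩)
        (by rw [map_add, hχ, add_zero, hΛ2])
      rw [map_add] at h4
      linarith
    obtain ⟨t, ht, t0⟩ := Submodule.exists_mem_ne_zero_of_ne_bot hν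
    obtain ⟨t', ht', t0'⟩ := Submodule.exists_mem_ne_zero_of_ne_bot (h.tw_neg hμ)
    have h1 := h.cl_ne ht t0 s0 (hk _ (by rw [map_neg, hν0, neg_zero])
      (by rw [map_neg]; linarith))
    have h2 := h.cl_ne ht' t0' s0 (by
      rw [neg_neg]
      exact hk _ hφ.zero hφ')
    have hlev : φ (Λ + -μ) = M := by rw [map_add, map_neg, hφ.zero, neg_zero, add_zero, hΛ2]
    have hlev' : φ (Λ + ν) = M := by rw [map_add, hν0, add_zero, hΛ2]
    obtain ⟨c, hc⟩ := h.one_two hφ.l hM (neg_par hε) hlev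
      (h.cl_mem ht' hs) (wt_le_lv (P := fun χ => φ χ = M) hlev' (h.cl_mem ht hs))
      (h.cl_par hsε _) (h.cl_par hsε _) h2
    by_contra h3
    refine h1 (eq_zero_of_mem_wt (χ := Λ + ν) (ψ := Λ + -μ) (fun h4 => h3 (add_left_cancel h4))
      (h.cl_mem ht hs) ?_)
    rw [hc]
    exact Submodule.smul_mem _ _ (h.cl_mem ht' hs)
  obtain ⟨r, hr⟩ := Submodule.mem_span_singleton.1 hsp
  have hν0 : φ ν = 0 := by rw [← hr, map_smul, hφ.zero, smul_zero]
  have hr0 : r ≠ 0 := by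
    rintro rfl
    rw [zero_smul] at hr
    exact h.ne_zero hν hr.symm
  have hν1 : φ' ν = r * φ' μ := by rw [← hr, map_smul, smul_eq_mul]
  rcases lt_or_gt_of_ne hr0 with h3 | h3
  · exact Or.inr (key ν hν hν0 (by rw [hν1]; exact mul_neg_of_neg_of_pos h3 hφ'))
  · left
    have h4 := key (-ν) (h.tw_neg hν) (by rw [map_neg, hν0, neg_zero]) (by
      rw [map_neg, hν1]
      have := mul_pos h3 hφ'
      linarith)
    exact neg_injective h4

end Gs

end Pool.Agent.TH164.Spin
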