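import Pool.Agent.TH164.Spin.Ev2

/-!
# Graded spin modules: the second level
-/

set_option autoImplicit false
set_option linter.unusedSectionVars false
set_option linter.unusedVariables false

open Module LieModule LieAlgebra LieAlgebra.IsKilling

namespace Pool.Agent.TH164.Spin

variable {k L : Type*} [Field k] [IsAlgClosed k] [CharZero k] [LieRing L] [LieAlgebra k L]
  [FiniteDimensional k L] [LieAlgebra.IsKilling k L] {H : LieSubalgebra k L}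
  [H.IsCartanSubalgebra]
variable {S : Type*} [AddCommGroup S] [Module k S] [LieRingModule L S] [LieModule k L S]
  [FiniteDimensional k S] [Nontrivial S]
variable {T : Type*} [AddCommGroup T] [Module k T] [LieRingModule L T] [LieModule k L T]
  [FiniteDimensional k T]
variable {q : T →ₗ[k] T →ₗ[k] k} {cl : T →ₗ[k] S →ₗ[k] S} {σ : S →ₗ[k] S}

/-- The set of products of elements of level `-c` with the part of parity `ε` of the top level. -/
def stepP (L : Type*) [LieRing L] [LieAlgebra k L] {H : LieSubalgebra k L} {S : Type*}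
    [AddCommGroup S] [Module k S] [LieRingModule L S]
    [LieModule k L S] (σ : S →ₗ[k] S) (φ : (H → k) →ₗ[ℚ] ℚ) (M c : ℚ) (ε : k) : Set S :=
  {m | ∃ γ, φ γ = -c ∧ ∃ x ∈ wt H L γ, ∃ s ∈ tp H S φ M, σ s = ε • s ∧ m = ⁅x, s⁆}

namespace Gs

theorem stepT_le (h : Gs H q cl σ) {φ : (H → k) →ₗ[ℚ] ℚ} {M c : ℚ} :
    Submodule.span k (stepT cl φ M c) ≤ lv (H := H) (M := S) (fun χ => φ χ = M - c) := by
  rw [Submodule.span_le]
  rintro _ ⟨μ, hμ, t, ht, s, hs, rfl⟩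
  refine h.cl_lv ht ?_ hs
  intro χ hχ
  rw [map_add, hχ, hμ]
  ring

theorem stepP_le (h : Gs H q cl σ) {φ : (H → k) →ₗ[ℚ] ℚ} {M c : ℚ} {ε : k} :
    Submodule.span k (stepP L σ φ M c ε) ≤ lv (H := H) (M := S) (fun χ => φ χ = M - c) := by
  rw [Submodule.span_le]
  rintro _ ⟨μ, hμ, t, ht, s, hs, -, rfl⟩
  refine lie_lv (φ := φ) ht ?_ hs
  intro χ hχ
  rw [map_add, hχ, hμ]
  ring

theorem gen_T (h : Gs H q cl σ) {φ : (H → k) →ₗ[ℚ] ℚ} {M c : ℚ} (hM : IsTop H S φ M)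
    (hc0 : 0 < c) (hc : ∀ μ, wt H T μ ≠ ⊥ → φ μ < 0 → φ μ ≤ -c) :
    (⊤ : Submodule k S) ≤ tp H S φ M ⊔ Submodule.span k (stepT cl φ M c) ⊔
      lv (H := H) (M := S) (fun χ => φ χ < M - c) := by
  set X : Set (S →ₗ[k] S) := {f | ∃ μ, φ μ < 0 ∧ ∃ t ∈ wt H T μ, f = cl t} with hX
  set Y : Set (S →ₗ[k] S) := Set.range cl with hY
  have h1 : ∀ y ∈ Y, ∀ u ∈ tp H S φ M, y u ∈ gen X (tp H S φ M) := by
    rintro _ ⟨t, rfl⟩ u hu
    refine h.dT.induction (p := fun t => cl t u ∈ gen X (tp H S φ M)) t ?_ ?_ ?_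
    · intro μ t ht
      rcases lt_trichotomy (φ μ) 0 with h2 | h2 | h2
      · have h3 : cl t ∈ X := ⟨μ, h2, t, ht, rfl⟩
        exact gen_stable h3 (le_gen hu)
      · exact le_gen (h.stab h2 ht hu)
      · rw [h.kill hM h2 ht hu]
        exact Submodule.zero_mem _
    · rw [map_zero, LinearMap.zero_apply]
      exact Submodule.zero_mem _
    · intro a b ha hb
      rw [map_add, LinearMap.add_apply]
      exact Submodule.add_mem _ ha hb
  have h2 := gen_transfer h1 (by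
    rintro _ ⟨a, rfl⟩ _ ⟨β, hβ, b, hb, rfl⟩ w hw hyw
    have h3 : cl a (cl b w) = (2 * q a b) • w - cl b (cl a w) := by
      rw [← h.anti a b w]
      abel
    rw [h3]
    refine Submodule.sub_mem _ (Submodule.smul_mem _ _ hw) ?_
    have h4 : cl b ∈ X := ⟨β, hβ, b, hb, rfl⟩
    exact gen_stable h4 (hyw _ (Set.mem_range_self _)))
  have h3 : gen X (tp H S φ M) = ⊤ := by
    refine h.irc _ (fun x m hm => h2 _ (Set.mem_range_self x) m hm) ?_
    obtain ⟨s, hs, h0⟩ := h.tp_ne hM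
    exact (Submodule.ne_bot_iff _).2 ⟨s, le_gen hs, h0⟩
  rw [← h3]
  refine gen_le (le_sup_left.trans le_sup_left) ?_
  rintro _ ⟨μ, hμ, t, ht, rfl⟩ w hw
  by_cases ht0 : t = 0
  · rw [ht0, map_zero, LinearMap.zero_apply]
    exact Submodule.zero_mem _
  have hμc := hc μ ((Submodule.ne_bot_iff _).2 ⟨t, ht, ht0⟩) hμ
  obtain ⟨w1, hw1, w2, hw2, rfl⟩ := Submodule.mem_sup.1 hw
  obtain ⟨w3, hw3, w4, hw4, rfl⟩ := Submodule.mem_sup.1 hw1
  rw [map_add, map_add]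
  refine Submodule.add_mem _ (Submodule.add_mem _ ?_ ?_) ?_
  · rcases eq_or_lt_of_le hμc with h4 | h4
    · exact Submodule.mem_sup_left (Submodule.mem_sup_right
        (Submodule.subset_span ⟨μ, h4, t, ht, w3, hw3, rfl⟩))
    · refine Submodule.mem_sup_right (h.cl_lv ht ?_ hw3)
      intro χ hχ
      rw [map_add, hχ]
      linarith
  · refine Submodule.mem_sup_right (h.cl_lv ht ?_ (h.stepT_le hw4))
    intro χ hχ
    rw [map_add, hχ]
    linarith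
  · refine Submodule.mem_sup_right (h.cl_lv ht ?_ hw2)
    intro χ hχ
    rw [map_add]
    linarith

/-- There are no levels between the top and the level `M - c`. -/
theorem no_level (h : Gs H q cl σ) {φ : (H → k) →ₗ[ℚ] ℚ} {M c : ℚ} (hM : IsTop H S φ M)
    (hc0 : 0 < c) (hc : ∀ μ, wt H T μ ≠ ⊥ → φ μ < 0 → φ μ ≤ -c) {χ : H → k}
    (hχ : wt H S χ ≠ ⊥) (hχ0 : φ χ < M) : φ χ ≤ M - c := by
  obtain ⟨m, hm, h0⟩ := Submodule.exists_mem_ne_zero_of_ne_bot hχ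
  by_contra hcon
  push Not at hcon
  have h1 : tp H S φ M ⊔ Submodule.span k (stepT cl φ M c) ⊔
      lv (H := H) (M := S) (fun χ => φ χ < M - c) ≤
      lv (H := H) (M := S) (fun χ => φ χ = M ∨ φ χ ≤ M - c) := by
    refine sup_le (sup_le ?_ (h.stepT_le.trans ?_)) ?_
    · exact lv_mono fun χ _ h2 => Or.inl h2
    · exact lv_mono fun χ _ h2 => Or.inr (le_of_eq h2)
    · exact lv_mono fun χ _ h2 => Or.inr (le_of_lt h2)
  have h2 := h1 (h.gen_T hM hc0 hc (Submodule.mem_top (x := m)))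
  rw [wt_eq_lv] at hm
  refine h0 (eq_zero_of_mem_lv ?_ hm h2)
  rintro _ rfl (h3 | h3)
  · linarith
  · linarith

/-- The second level. -/
theorem second_T (h : Gs H q cl σ) {φ : (H → k) →ₗ[ℚ] ℚ} {M c : ℚ} (hM : IsTop H S φ M)
    (hc0 : 0 < c) (hc : ∀ μ, wt H T μ ≠ ⊥ → φ μ < 0 → φ μ ≤ -c) :
    lv (H := H) (M := S) (fun χ => φ χ = M - c) ≤ Submodule.span k (stepT cl φ M c) := by
  intro m hm
  obtain ⟨w1, hw1, w2, hw2, rfl⟩ := Submodule.mem_sup.1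
    (h.gen_T hM hc0 hc (Submodule.mem_top (x := m)))
  obtain ⟨w3, hw3, w4, hw4, rfl⟩ := Submodule.mem_sup.1 hw1
  have h1 : w3 + w2 ∈ lv (H := H) (M := S) (fun χ => φ χ = M - c) := by
    have := Submodule.sub_mem _ hm (h.stepT_le hw4)
    have h2 : w3 + w4 + w2 - w4 = w3 + w2 := by abel
    rwa [h2] at this
  have h2 : w3 + w2 ∈ lv (H := H) (M := S) (fun χ => φ χ ≠ M - c) := by
    refine Submodule.add_mem _ ?_ ?_
    · refine lv_mono (P := fun χ => φ χ = M) (fun χ _ h3 => ?_) hw3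
      rw [h3]
      intro h4
      linarith
    · exact lv_mono (P := fun χ => φ χ < M - c) (fun χ _ h3 => ne_of_lt h3) hw2
  have h3 : w3 + w2 = 0 := eq_zero_of_mem_lv (fun χ h4 h5 => h5 h4) h1 h2
  have h4 : w3 + w4 + w2 = w4 := by
    rw [add_right_comm, h3, zero_add]
  rw [h4]
  exact hw4

theorem gen_P (h : Gs H q cl σ) {φ : (H → k) →ₗ[ℚ] ℚ} {M c : ℚ} (hM : IsTop H S φ M)
    (hc0 : 0 < c) (hc : ∀ μ, wt H T μ ≠ ⊥ → φ μ < 0 → φ μ ≤ -c) {ε : k}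
    {s0 : S} (hs0 : s0 ∈ tp H S φ M) (hs1 : σ s0 = ε • s0) (hs2 : s0 ≠ 0) {m : S}
    (hm : σ m = ε • m) :
    m ∈ tp H S φ M ⊔ Submodule.span k (stepP L σ φ M c ε) ⊔
      lv (H := H) (M := S) (fun χ => φ χ < M - c) := by
  set U : Submodule k S := tp H S φ M ⊓ LinearMap.eqLocus σ (ε • LinearMap.id) with hU
  have hUm : ∀ s, s ∈ U ↔ s ∈ tp H S φ M ∧ σ s = ε • s := fun s => Iff.rfl
  obtain ⟨G, h1, h2, h3, h4⟩ := h.top_lemma (φ := φ) (M := M) (U := U)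
    (fun χ hχ h1 => absurd h1 (not_lt.2 (hM.2 χ hχ))) inf_le_left
    ((Submodule.ne_bot_iff _).2 ⟨s0, (hUm _).2 ⟨hs0, hs1⟩, hs2⟩) (by
      intro β hβ x hx u hu
      have h3 : ⁅x, u⁆ ∈ lv (H := H) (M := S) (fun χ => M < φ χ) := by
        refine lie_lv (φ := φ) hx ?_ ((hUm _).1 hu).1
        intro χ hχ
        rw [map_add, hχ]
        linarith
      rw [lv_eq_bot (fun χ hχ => not_lt.2 (hM.2 χ hχ))] at h3
      exact (Submodule.mem_bot k).1 h3) (by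
      intro β hβ x hx u hu
      rw [hUm] at hu ⊢
      refine ⟨lie_lv (φ := φ) hx ?_ hu.1, h.lie_par hu.2 x⟩
      intro χ hχ
      rw [map_add, hχ, hβ, add_zero])
  have hs0G : s0 ∈ G := h2 ((hUm _).2 ⟨hs0, hs1⟩)
  have hmG : m ∈ G := by
    rcases h.irr G h1 ((Submodule.ne_bot_iff _).2 ⟨s0, hs0G, hs2⟩) with h5 | ⟨ε', hε', h5⟩
    · rw [h5]
      trivial
    · have h6 : ε' = ε := by
        have h7 := (h5 s0).1 hs0G
        rw [hs1] at h7
        exact (smul_left_injective k hs2 h7).symm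
      rw [h5, h6]
      exact hm
  refine (h4 (U ⊔ Submodule.span k (stepP L σ φ M c ε) ⊔
      lv (H := H) (M := S) (fun χ => φ χ < M - c)) (le_sup_left.trans le_sup_left) ?_).trans ?_ hmG
  · intro μ hμ t ht w hw
    obtain ⟨w1, hw1, w2, hw2, rfl⟩ := Submodule.mem_sup.1 hw
    obtain ⟨w3, hw3, w4, hw4, rfl⟩ := Submodule.mem_sup.1 hw1
    rw [lie_add, lie_add]
    refine Submodule.add_mem _ (Submodule.add_mem _ ?_ ?_) ?_
    · rcases lt_trichotomy (φ μ) (-c) with h4 | h4 | h4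
      · refine Submodule.mem_sup_right (lie_lv (φ := φ) ht ?_ ((hUm _).1 hw3).1)
        intro χ hχ
        rw [map_add, hχ]
        linarith
      · exact Submodule.mem_sup_left (Submodule.mem_sup_right
          (Submodule.subset_span ⟨μ, h4, t, ht, w3, ((hUm _).1 hw3).1, ((hUm _).1 hw3).2, rfl⟩))
      · have h5 : ⁅t, w3⁆ ∈ lv (H := H) (M := S) (fun χ => φ χ < M ∧ ¬ φ χ ≤ M - c) := by
          refine lie_lv (φ := φ) ht ?_ ((hUm _).1 hw3).1
          intro χ hχ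
          rw [map_add, hχ]
          constructor
          · linarith
          · push Not
            linarith
        rw [lv_eq_bot (fun χ hχ h6 => h6.2 (h.no_level hM hc0 hc hχ h6.1))] at h5
        rw [(Submodule.mem_bot k).1 h5]
        exact Submodule.zero_mem _
    · refine Submodule.mem_sup_right (lie_lv (φ := φ) ht ?_ (h.stepP_le hw4))
      intro χ hχ
      rw [map_add, hχ]
      linarith
    · refine Submodule.mem_sup_right (lie_lv (φ := φ) ht ?_ hw2)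
      intro χ hχ
      rw [map_add]
      linarith
  · exact sup_le_sup_right (sup_le_sup_right inf_le_left _) _

theorem second_P (h : Gs H q cl σ) {φ : (H → k) →ₗ[ℚ] ℚ} {M c : ℚ} (hM : IsTop H S φ M)
    (hc0 : 0 < c) (hc : ∀ μ, wt H T μ ≠ ⊥ → φ μ < 0 → φ μ ≤ -c) {ε : k}
    {s0 : S} (hs0 : s0 ∈ tp H S φ M) (hs1 : σ s0 = ε • s0) (hs2 : s0 ≠ 0) {m : S}
    (hm : m ∈ lv (H := H) (M := S) (fun χ => φ χ = M - c)) (hmε : σ m = ε • m) :
    m ∈ Submodule.span k (stepP L σ φ M c ε) := by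
  obtain ⟨w1, hw1, w2, hw2, rfl⟩ := Submodule.mem_sup.1 (h.gen_P hM hc0 hc hs0 hs1 hs2 hmε)
  obtain ⟨w3, hw3, w4, hw4, rfl⟩ := Submodule.mem_sup.1 hw1
  have h1 : w3 + w2 ∈ lv (H := H) (M := S) (fun χ => φ χ = M - c) := by
    have := Submodule.sub_mem _ hm (h.stepP_le hw4)
    have h2 : w3 + w4 + w2 - w4 = w3 + w2 := by abel
    rwa [h2] at this
  have h2 : w3 + w2 ∈ lv (H := H) (M := S) (fun χ => φ χ ≠ M - c) := by
    refine Submodule.add_mem _ ?_ ?_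
    · refine lv_mono (P := fun χ => φ χ = M) (fun χ _ h3 => ?_) hw3
      rw [h3]
      intro h4
      linarith
    · exact lv_mono (P := fun χ => φ χ < M - c) (fun χ _ h3 => ne_of_lt h3) hw2
  have h3 : w3 + w2 = 0 := eq_zero_of_mem_lv (fun χ h4 h5 => h5 h4) h1 h2
  have h4 : w3 + w4 + w2 = w4 := by
    rw [add_right_comm, h3, zero_add]
  rw [h4]
  exact hw4

theorem eps_sq {ε : k} (hε : ε = 1 ∨ ε = -1) : ε * ε = 1 := by
  rcases hε with rfl | rfl <;> norm_num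

/-- The weight vectors of the second level, as products with elements of `L`. -/
theorem second_P' (h : Gs H q cl σ) {φ : (H → k) →ₗ[ℚ] ℚ} {M c : ℚ} (hM : IsTop H S φ M)
    (hc : Lvl T φ c) {ε : k} (hε : ε = 1 ∨ ε = -1)
    {s0 : S} (hs0 : s0 ∈ tp H S φ M) (hs1 : σ s0 = ε • s0) (hs2 : s0 ≠ 0) {χ : H → k} {m : S}
    (hm : m ∈ wt H S χ) (hχ : φ χ = M - c) (hmε : σ m = ε • m) :
    m ∈ Submodule.span k {y | ∃ γ, ∃ x ∈ wt H L γ, ∃ ψ, ∃ s ∈ wt H S ψ, φ ψ = M ∧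
      σ s = ε • s ∧ ψ + γ = χ ∧ y = ⁅x, s⁆} := by
  have h1 := h.second_P hM hc.pos hc.le hs0 hs1 hs2
    (wt_le_lv (P := fun χ => φ χ = M - c) hχ hm) hmε
  set ι := {p : (H → k) × L × (H → k) × S // p.2.1 ∈ wt H L p.1 ∧ p.2.2.2 ∈ wt H S p.2.2.1 ∧
    φ p.2.2.1 = M ∧ σ p.2.2.2 = ε • p.2.2.2} with hι
  have h2 : Submodule.span k (stepP L σ φ M c ε) ≤ Submodule.span k
      (Set.range fun p : ι => ⁅p.1.2.1, p.1.2.2.2⁆) := by
    rw [Submodule.span_le]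
    rintro _ ⟨γ, hγ, x, hx, s, hs, hsε, rfl⟩
    have h3 : ⁅x, s + ε • σ s⁆ ∈ Submodule.span k (Set.range fun p : ι => ⁅p.1.2.1, p.1.2.2.2⁆) := by
      clear hsε
      refine lv_induction (p := fun s => ⁅x, s + ε • σ s⁆ ∈ Submodule.span k
        (Set.range fun p : ι => ⁅p.1.2.1, p.1.2.2.2⁆)) hs ?_ ?_ ?_
      · intro ψ hψ s hs
        refine Submodule.subset_span ⟨⟨(γ, x, ψ, s + ε • σ s), hx,
          Submodule.add_mem _ hs (Submodule.smul_mem _ _ (h.sig_wt hs)), hψ, ?_⟩, rfl⟩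
        change σ (s + ε • σ s) = ε • (s + ε • σ s)
        rw [map_add, map_smul, h.sq', smul_add, smul_smul, eps_sq hε, one_smul, add_comm]
      · rw [map_zero, smul_zero, add_zero, lie_zero]
        exact Submodule.zero_mem _
      · intro a b ha hb
        have h4 : a + b + ε • σ (a + b) = (a + ε • σ a) + (b + ε • σ b) := by
          rw [map_add, smul_add]
          abel
        rw [h4, lie_add]
        exact Submodule.add_mem _ ha hb
    rw [hsε, smul_smul, eps_sq hε, one_smul, ← two_smul k s, lie_smul] at h3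
    have h4 := Submodule.smul_mem _ (2 : k)⁻¹ h3
    rwa [smul_smul, inv_mul_cancel₀ (two_ne_zero' k), one_smul] at h4
  have h3 := mem_span_wt (v := fun p : ι => ⁅p.1.2.1, p.1.2.2.2⁆)
    (X := fun p : ι => p.1.2.2.1 + p.1.1) (fun p => lie_mem_wt p.2.1 p.2.2.1) (h2 h1) hm
  refine Submodule.span_mono ?_ h3
  rintro _ ⟨⟨⟨γ, x, ψ, s⟩, hx, hs, h5, h6⟩, h4, rfl⟩
  exact ⟨γ, x, hx, ψ, s, hs, h5, h6, h4, rfl⟩

/-- The weight vectors of the second level, as products with vectors. -/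
theorem second_T' (h : Gs H q cl σ) {φ : (H → k) →ₗ[ℚ] ℚ} {M c : ℚ} (hM : IsTop H S φ M)
    (hc : Lvl T φ c) {ε : k} (hε : ε = 1 ∨ ε = -1) {χ : H → k} {m : S}
    (hm : m ∈ wt H S χ) (hχ : φ χ = M - c) (hmε : σ m = ε • m) :
    m ∈ Submodule.span k {y | ∃ γ, ∃ x ∈ wt H T γ, ∃ ψ, ∃ s ∈ wt H S ψ, φ ψ = M ∧
      σ s = (-ε) • s ∧ ψ + γ = χ ∧ y = cl x s} := by
  have h1 := h.second_T hM hc.pos hc.le (wt_le_lv (P := fun χ => φ χ = M - c) hχ hm)
  set ι := {p : (H → k) × T × (H → k) × S // p.2.1 ∈ wt H T p.1 ∧ p.2.2.2 ∈ wt H S p.2.2.1 ∧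
    φ p.2.2.1 = M ∧ σ p.2.2.2 = (-ε) • p.2.2.2} with hι
  have h2 : Submodule.span k (stepT cl φ M c) ≤ (Submodule.span k
      (Set.range fun p : ι => cl p.1.2.1 p.1.2.2.2)).comap (LinearMap.id + ε • σ) := by
    rw [Submodule.span_le]
    rintro _ ⟨γ, hγ, x, hx, s, hs, rfl⟩
    have h3 : cl x s + ε • σ (cl x s) ∈
        Submodule.span k (Set.range fun p : ι => cl p.1.2.1 p.1.2.2.2) := by
      refine lv_induction (p := fun s => cl x s + ε • σ (cl x s) ∈ Submodule.span k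
        (Set.range fun p : ι => cl p.1.2.1 p.1.2.2.2)) hs ?_ ?_ ?_
      · intro ψ hψ s hs
        refine Submodule.subset_span ⟨⟨(γ, x, ψ, s - ε • σ s), hx,
          Submodule.sub_mem _ hs (Submodule.smul_mem _ _ (h.sig_wt hs)), hψ, ?_⟩, ?_⟩
        · change σ (s - ε • σ s) = (-ε) • (s - ε • σ s)
          rw [map_sub, map_smul, h.sq', smul_sub, smul_smul, neg_mul, eps_sq hε, neg_one_smul,
            neg_smul]
          abel
        · change cl x (s - ε • σ s) = cl x s + ε • σ (cl x s)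
          rw [map_sub, map_smul, h.sc, smul_neg, sub_eq_add_neg]
      · rw [map_zero, map_zero, smul_zero, add_zero]
        exact Submodule.zero_mem _
      · intro a b ha hb
        have h4 : cl x (a + b) + ε • σ (cl x (a + b)) = (cl x a + ε • σ (cl x a)) +
            (cl x b + ε • σ (cl x b)) := by
          rw [map_add, map_add, smul_add]
          abel
        rw [h4]
        exact Submodule.add_mem _ ha hb
    exact h3
  have h2' : m ∈ Submodule.span k (Set.range fun p : ι => cl p.1.2.1 p.1.2.2.2) := by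
    have h3 : m + ε • σ m ∈ Submodule.span k (Set.range fun p : ι => cl p.1.2.1 p.1.2.2.2) :=
      h2 h1
    rw [hmε, smul_smul, eps_sq hε, one_smul, ← two_smul k m] at h3
    have h4 := Submodule.smul_mem _ (2 : k)⁻¹ h3
    rwa [smul_smul, inv_mul_cancel₀ (two_ne_zero' k), one_smul] at h4
  have h3 := mem_span_wt (v := fun p : ι => cl p.1.2.1 p.1.2.2.2)
    (X := fun p : ι => p.1.2.2.1 + p.1.1) (fun p => h.cl_mem p.2.1 p.2.2.1) h2' hm
  refine Submodule.span_mono ?_ h3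
  rintro _ ⟨⟨⟨γ, x, ψ, s⟩, hx, hs, h5, h6⟩, h4, rfl⟩
  exact ⟨γ, x, hx, ψ, s, hs, h5, h6, h4, rfl⟩

theorem exists_P (h : Gs H q cl σ) {φ : (H → k) →ₗ[ℚ] ℚ} {M c : ℚ} (hM : IsTop H S φ M)
    (hc : Lvl T φ c) {ε : k} (hε : ε = 1 ∨ ε = -1)
    {s0 : S} (hs0 : s0 ∈ tp H S φ M) (hs1 : σ s0 = ε • s0) (hs2 : s0 ≠ 0) {χ : H → k} {m : S}
    (hm : m ∈ wt H S χ) (hχ : φ χ = M - c) (hmε : σ m = ε • m) (hm0 : m ≠ 0) :
    ∃ γ, ∃ x ∈ wt H L γ, ∃ ψ, ∃ s ∈ wt H S ψ, φ ψ = M ∧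
      σ s = ε • s ∧ ψ + γ = χ ∧ ⁅x, s⁆ ≠ 0 := by
  by_contra hcon
  push Not at hcon
  have h1 := h.second_P' hM hc hε hs0 hs1 hs2 hm hχ hmε
  have h2 : Submodule.span k {y | ∃ γ, ∃ x ∈ wt H L γ, ∃ ψ, ∃ s ∈ wt H S ψ, φ ψ = M ∧
      σ s = ε • s ∧ ψ + γ = χ ∧ y = ⁅x, s⁆} ≤ ⊥ := by
    rw [Submodule.span_le]
    rintro _ ⟨γ, x, hx, ψ, s, hs, h3, h4, h5, rfl⟩
    rw [hcon γ x hx ψ s hs h3 h4 h5]
    exact Submodule.zero_mem _
  exact hm0 ((Submodule.mem_bot k).1 (h2 h1))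

theorem exists_T (h : Gs H q cl σ) {φ : (H → k) →ₗ[ℚ] ℚ} {M c : ℚ} (hM : IsTop H S φ M)
    (hc : Lvl T φ c) {ε : k} (hε : ε = 1 ∨ ε = -1) {χ : H → k} {m : S}
    (hm : m ∈ wt H S χ) (hχ : φ χ = M - c) (hmε : σ m = ε • m) (hm0 : m ≠ 0) :
    ∃ γ, ∃ x ∈ wt H T γ, ∃ ψ, ∃ s ∈ wt H S ψ, φ ψ = M ∧
      σ s = (-ε) • s ∧ ψ + γ = χ ∧ cl x s ≠ 0 := by
  by_contra hcon
  push Not at hcon
  have h1 := h.second_T' hM hc hε hm hχ hmε
  have h2 : Submodule.span k {y | ∃ γ, ∃ x ∈ wt H T γ, ∃ ψ, ∃ s ∈ wt H S ψ, φ ψ = M ∧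
      σ s = (-ε) • s ∧ ψ + γ = χ ∧ y = cl x s} ≤ ⊥ := by
    rw [Submodule.span_le]
    rintro _ ⟨γ, x, hx, ψ, s, hs, h3, h4, h5, rfl⟩
    rw [hcon γ x hx ψ s hs h3 h4 h5]
    exact Submodule.zero_mem _
  exact hm0 ((Submodule.mem_bot k).1 (h2 h1))

theorem exists_lvl (h : Gs H q cl σ) {φ : (H → k) →ₗ[ℚ] ℚ} {μ : H → k} (hμ : wt H T μ ≠ ⊥)
    (hμ0 : φ μ ≠ 0) : ∃ c, Lvl T φ c ∧ ∃ ν, wt H T ν ≠ ⊥ ∧ φ ν = -c := by
  have h1 : ∃ μ', wt H T μ' ≠ ⊥ ∧ φ μ' < 0 := by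
    rcases lt_or_gt_of_ne hμ0 with h2 | h2
    · exact ⟨μ, hμ, h2⟩
    · exact ⟨-μ, h.tw_neg hμ, by rw [map_neg]; linarith⟩
  obtain ⟨ν, ⟨hν1, hν2⟩, hν3⟩ := Set.exists_max_image {χ : H → k | wt H T χ ≠ ⊥ ∧ φ χ < 0} φ
    ((finite_wt (H := H) (M := T)).subset fun χ hχ => hχ.1) h1
  refine ⟨-φ ν, ⟨by linarith, fun μ' h2 h3 => ?_⟩, ν, hν1, by ring⟩
  rw [neg_neg]
  exact hν3 μ' ⟨h2, h3⟩

end Gs

end Pool.Agent.TH164.Spin
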