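import Pool.Agent.TH164.Spin.Ev3

/-!
# Graded spin modules: two weights
-/

set_option autoImplicit false
set_option linter.unusedSectionVars false
set_option linter.unusedVariables false

open Module LieModule LieAlgebra LieAlgebra.IsKilling

namespace Pool.Agent.TH164.Spin

variable {k L : Type*} [Field k] [IsAlgClosed k] [CharZero k] [LieRing L] [LieAlgebra k L]
  [FiniteDimensional k L] [LieAlgebra.IsKilling k L] {H : LieSubalgebra k L}
  [H.IsCartanSubalgebra]
variable {S : Type*} [AddCommGroup S] [Module k S] [LieRingModule L S] [LieModule k L S]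
  [FiniteDimensional k S] [Nontrivial S]
variable {T : Type*} [AddCommGroup T] [Module k T] [LieRingModule L T] [LieModule k L T]
  [FiniteDimensional k T]
variable {q : T →ₗ[k] T →ₗ[k] k} {cl : T →ₗ[k] S →ₗ[k] S} {σ : S →ₗ[k] S}

namespace Gs

/-- Sums and differences with the weights of the smallest level are roots. -/
theorem lvl_two (h : Gs H q cl σ) {κ : H → k} (hκ : wt H T κ ≠ ⊥) {φ : (H → k) →ₗ[ℚ] ℚ}
    (hφ : Lw T φ κ) {c : ℚ} (hc : Lvl T φ c) {ν : H → k} (hν : wt H T ν ≠ ⊥) (hν0 : φ ν = -c) :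
    wt H L (ν + κ) ≠ ⊥ ∧ wt H L (ν - κ) ≠ ⊥ := by
  obtain ⟨M, hM⟩ := exists_top h.dS φ
  obtain ⟨s, Λ, ε, l⟩ := h.exists_tl hκ hφ.zero hM
  obtain ⟨t, ht, t0⟩ := Submodule.exists_mem_ne_zero_of_ne_bot (h.tw_neg hκ)
  obtain ⟨u, hu, u0⟩ := Submodule.exists_mem_ne_zero_of_ne_bot hν
  have hc0 := hc.pos
  have n2 := h.cl_ne ht t0 l.ne (by rw [neg_neg]; exact l.kill)
  have m2 := h.cl_mem ht l.mem
  have p2 := h.cl_par l.par t
  have l2 : φ (Λ + -κ) = M := by rw [map_add, map_neg, hφ.zero, neg_zero, add_zero, l.lev]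
  have tp1 : s ∈ tp H S φ M := wt_le_lv (P := fun χ => φ χ = M) l.lev l.mem
  have tp2 : cl t s ∈ tp H S φ M := wt_le_lv (P := fun χ => φ χ = M) l2 m2
  have hk : ∀ w ∈ tp H S φ M, ∀ t' ∈ wt H T (-ν), cl t' w = 0 := by
    intro w hw t' ht'
    exact h.kill hM (by rw [map_neg, hν0]; linarith) ht' hw
  constructor
  · have n3 := h.cl_ne hu u0 l.ne (hk s tp1)
    obtain ⟨γ, x, hx, ψ, w, hw, h1, h2, h3, h4⟩ := h.exists_P hM hc (neg_par l.hε) tp2 p2 n2
      (h.cl_mem hu l.mem) (by rw [map_add, l.lev, hν0, sub_eq_add_neg]) (h.cl_par l.par u) n3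
    obtain ⟨d, hd⟩ := h.one_two hφ.l hM (neg_par l.hε) l2 m2
      (wt_le_lv (P := fun χ => φ χ = M) h1 hw) p2 h2 n2
    have h5 : ψ = Λ + -κ := by
      by_contra h6
      have h7 := eq_zero_of_mem_wt h6 hw (by rw [hd]; exact Submodule.smul_mem _ _ m2)
      rw [h7, lie_zero] at h4
      exact h4 rfl
    have h6 : γ = ν + κ := by
      have h7 : γ = (ψ + γ) - ψ := by abel
      rw [h7, h3, h5]
      abel
    rw [← h6]
    refine (Submodule.ne_bot_iff _).2 ⟨x, hx, ?_⟩
    rintro rfl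
    rw [zero_lie] at h4
    exact h4 rfl
  · have n3 := h.cl_ne hu u0 n2 (hk _ tp2)
    have p3 : σ (cl u (cl t s)) = ε • cl u (cl t s) := by
      have := h.cl_par p2 u
      rwa [neg_neg] at this
    obtain ⟨γ, x, hx, ψ, w, hw, h1, h2, h3, h4⟩ := h.exists_P hM hc l.hε tp1 l.par l.ne
      (h.cl_mem hu m2) (by rw [map_add, l2, hν0, sub_eq_add_neg]) p3 n3
    obtain ⟨d, hd⟩ := h.one_two hφ.l hM l.hε l.lev l.mem
      (wt_le_lv (P := fun χ => φ χ = M) h1 hw) l.par h2 l.ne
    have h5 : ψ = Λ := by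
      by_contra h6
      have h7 := eq_zero_of_mem_wt h6 hw (by rw [hd]; exact Submodule.smul_mem _ _ l.mem)
      rw [h7, lie_zero] at h4
      exact h4 rfl
    have h6 : γ = ν - κ := by
      have h7 : γ = (ψ + γ) - ψ := by abel
      rw [h7, h3, h5]
      abel
    rw [← h6]
    refine (Submodule.ne_bot_iff _).2 ⟨x, hx, ?_⟩
    rintro rfl
    rw [zero_lie] at h4
    exact h4 rfl

theorem two_zero {X : Type*} [AddCommGroup X] [Module ℚ X] {x : X} (h : x + x = 0) : x = 0 := by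
  rw [← two_smul ℚ x, smul_eq_zero] at h
  exact h.resolve_left (by norm_num)

/-- The values of the coroots of the sum and the difference. -/
structure Or (T : Type*) [AddCommGroup T] [Module k T] [LieRingModule L T] [LieModule k L T]
    (ν κ : H → k) : Prop where
  rp : IsRt H (ν + κ)
  rm : IsRt H (ν - κ)
  np : ν (cv (ν + κ)) = 1
  kp : κ (cv (ν + κ)) = 1
  nm : ν (cv (ν - κ)) = 1
  km : κ (cv (ν - κ)) = -1

theorem orth (h : Gs H q cl σ) {κ ν : H → k} (hκ : wt H T κ ≠ ⊥) (hν : wt H T ν ≠ ⊥)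
    (h1 : ν ≠ κ) (h2 : ν ≠ -κ) (r1 : wt H L (ν + κ) ≠ ⊥) (r2 : wt H L (ν - κ) ≠ ⊥) :
    Or T ν κ := by
  have ra : IsRt H (ν + κ) := ⟨fun h3 => h2 (eq_neg_of_add_eq_zero_left h3), r1⟩
  have rb : IsRt H (ν - κ) := ⟨fun h3 => h1 (sub_eq_zero.1 h3), r2⟩
  obtain ⟨e, f, t⟩ := exists_tri ra
  obtain ⟨e', f', t'⟩ := exists_tri rb
  obtain ⟨a, ha⟩ := t.int hν
  obtain ⟨b, hb⟩ := t'.int hν
  have e1 := rt_two ra
  have e2 := rt_two rb
  rw [Pi.add_apply, ha] at e1
  rw [Pi.sub_apply, hb] at e2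
  have v1 : κ (cv (ν + κ)) = ((2 - a : ℤ) : k) := by
    push_cast
    linear_combination e1
  have v2 : κ (cv (ν - κ)) = ((b - 2 : ℤ) : k) := by
    push_cast
    linear_combination -e2
  have w1 : (ν - κ) (cv (ν + κ)) = ((2 * a - 2 : ℤ) : k) := by
    rw [Pi.sub_apply, ha, v1]
    push_cast
    ring
  have w2 : (ν + κ) (cv (ν - κ)) = ((2 * b - 2 : ℤ) : k) := by
    rw [Pi.add_apply, hb, v2]
    push_cast
    ring
  have hnp : ∀ c : k, ν - κ ≠ c • (ν + κ) := by
    intro c hc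
    rcases rt_smul ra rb hc with h3 | h3
    · refine h.ne_zero hκ (two_zero ?_)
      have h4 : κ + κ = (ν + κ) - (ν - κ) := by abel
      rw [h4, h3, sub_self]
    · refine h.ne_zero hν (two_zero ?_)
      have h4 : ν + ν = (ν + κ) + (ν - κ) := by abel
      rw [h4, h3, add_neg_cancel]
  obtain ⟨p1, p2, p3, -, -⟩ := rt_prod ra rb hnp w1 w2
  have ha1 : a = 1 := by
    by_contra h3
    rcases lt_or_gt_of_ne h3 with h4 | h4
    · have h5 : b < 1 := by
        by_contra h6
        push Not at h6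
        rcases eq_or_lt_of_le h6 with h7 | h7
        · have := p2.2 (by omega)
          omega
        · have := p3.2 (by omega)
          omega
      nlinarith
    · have h5 : 1 < b := by
        have := p3.1 (by omega)
        omega
      nlinarith
  have hb1 : b = 1 := by
    have := p2.1 (by omega)
    omega
  subst ha1
  subst hb1
  refine ⟨ra, rb, ?_, ?_, ?_, ?_⟩
  · rw [ha, Int.cast_one]
  · rw [v1]
    norm_num
  · rw [hb, Int.cast_one]
  · rw [v2]
    norm_num

theorem lvl_abs (h : Gs H q cl σ) {φ : (H → k) →ₗ[ℚ] ℚ} {c : ℚ} (hc : Lvl T φ c) {χ : H → k}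
    (hχ : wt H T χ ≠ ⊥) (h0 : φ χ ≠ 0) : c ≤ |φ χ| := by
  rcases lt_or_gt_of_ne h0 with h1 | h1
  · rw [abs_of_neg h1]
    have := hc.le χ hχ h1
    linarith
  · rw [abs_of_pos h1]
    have := hc.le (-χ) (h.tw_neg hχ) (by rw [map_neg]; linarith)
    rw [map_neg] at this
    linarith

/-- The weights in the plane of `κ` and a weight of the smallest level. -/
theorem plane_aux (h : Gs H q cl σ) {κ : H → k} (hκ : wt H T κ ≠ ⊥) {φ : (H → k) →ₗ[ℚ] ℚ}
    (hφ : Lw T φ κ) {c : ℚ} (hc : Lvl T φ c) {ν : H → k} (hν : wt H T ν ≠ ⊥) (hν0 : φ ν = -c)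
    {γ : H → k} (hγ : wt H T γ ≠ ⊥) {x y : ℚ} (hxy : γ = x • ν + y • κ) :
    γ = κ ∨ γ = -κ ∨ γ = ν ∨ γ = -ν := by
  have hc0 := hc.pos
  have key : ∀ ν : H → k, wt H T ν ≠ ⊥ → φ ν = -c → Or T ν κ := by
    intro ν hν hν0
    obtain ⟨r1, r2⟩ := h.lvl_two hκ hφ hc hν hν0
    refine h.orth hκ hν ?_ ?_ r1 r2
    · rintro rfl
      rw [hφ.zero] at hν0
      linarith
    · rintro rfl
      rw [map_neg, hφ.zero] at hν0
      linarith
  have o := key ν hν hν0
  obtain ⟨e, f, t⟩ := exists_tri o.rp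
  obtain ⟨e', f', t'⟩ := exists_tri o.rm
  obtain ⟨a, ha⟩ := t.int hγ
  obtain ⟨b, hb⟩ := t'.int hγ
  have ea : (a : ℚ) = x + y := by
    have h1 := ha
    rw [hxy, Pi.add_apply, Pi.smul_apply, Pi.smul_apply, o.np, o.kp, Rat.smul_def, Rat.smul_def]
      at h1
    have h2 : ((x + y : ℚ) : k) = ((a : ℚ) : k) := by
      push_cast
      linear_combination h1
    exact (Rat.cast_injective h2).symm
  have eb : (b : ℚ) = x - y := by
    have h1 := hb
    rw [hxy, Pi.add_apply, Pi.smul_apply, Pi.smul_apply, o.nm, o.km, Rat.smul_def, Rat.smul_def]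
      at h1
    have h2 : ((x - y : ℚ) : k) = ((b : ℚ) : k) := by
      push_cast
      linear_combination h1
    exact (Rat.cast_injective h2).symm
  have pt : ∀ z z' j j' : ℤ, |z| ≤ |a| → |z'| ≤ |b| → a = z + 2 * j → b = z' + 2 * j' →
      wt H T (((z + z' : ℚ) / 2) • ν + ((z - z' : ℚ) / 2) • κ) ≠ ⊥ := by
    intro z z' j j' h1 h2 h3 h4
    have g1 := t.reach hγ ha h1 h3
    have hb' : (γ - j • (ν + κ)) (cv (ν - κ)) = b := by
      rw [Pi.sub_apply, Pi.smul_apply, hb, Pi.add_apply, o.nm, o.km, add_neg_cancel, smul_zero,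
        sub_zero]
    have g2 := t'.reach g1 hb' h2 h4
    have h5 : γ - j • (ν + κ) - j' • (ν - κ) =
        ((z + z' : ℚ) / 2) • ν + ((z - z' : ℚ) / 2) • κ := by
      have e1 : (j : ℚ) = (x + y - z) / 2 := by
        rw [← ea, h3]
        push_cast
        ring
      have e2 : (j' : ℚ) = (x - y - z') / 2 := by
        rw [← eb, h4]
        push_cast
        ring
      rw [← Int.cast_smul_eq_zsmul ℚ j, ← Int.cast_smul_eq_zsmul ℚ j', e1, e2, hxy]
      module
    rwa [h5] at g2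
  have half : ∀ γ : H → k, wt H T γ ≠ ⊥ → |φ γ| = c / 2 → False := by
    intro γ hγ h1
    have h2 := h.lvl_abs hc hγ (by
      intro h3
      rw [h3, abs_zero] at h1
      linarith)
    linarith
  rcases Int.even_or_odd' a with ⟨j, hj | hj⟩
  · rcases Int.even_or_odd' b with ⟨j', hj' | hj'⟩
    · have h1 := pt 0 0 j j' (by simp) (by simp) (by omega) (by omega)
      have h2 : (((0 : ℤ) + (0 : ℤ) : ℚ) / 2) • ν + (((0 : ℤ) - (0 : ℤ) : ℚ) / 2) • κ = 0 := by
        simp
      rw [h2] at h1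
      exact absurd h.zero_bot h1
    · have h1 := pt 0 1 j j' (by simp) (by
        rw [hj', abs_one]
        exact Int.one_le_abs (by omega)) (by omega) (by omega)
      exfalso
      refine half _ h1 ?_
      rw [map_add, map_smul, map_smul, hφ.zero, smul_zero, add_zero, hν0, smul_eq_mul, abs_mul,
        abs_neg, abs_of_pos hc0]
      norm_num
      ring
  · rcases Int.even_or_odd' b with ⟨j', hj' | hj'⟩
    · have h1 := pt 1 0 j j' (by
        rw [hj, abs_one]
        exact Int.one_le_abs (by omega)) (by simp) (by omega) (by omega)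
      exfalso
      refine half _ h1 ?_
      rw [map_add, map_smul, map_smul, hφ.zero, smul_zero, add_zero, hν0, smul_eq_mul, abs_mul,
        abs_neg, abs_of_pos hc0]
      norm_num
      ring
    · have ha3 : |a| < 3 := by
        by_contra h3
        push Not at h3
        have h1 := pt 3 (-1) (j - 1) (j' + 1) (by norm_num; exact h3) (by
          rw [hj', abs_neg, abs_one]
          exact Int.one_le_abs (by omega)) (by omega) (by omega)
        have h2 : (((3 : ℤ) + (-1 : ℤ) : ℚ) / 2) • ν + (((3 : ℤ) - (-1 : ℤ) : ℚ) / 2) • κ =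
            ν + (κ + κ) := by
          push_cast
          module
        rw [h2] at h1
        have o' := key _ h1 (by rw [map_add, map_add, hφ.zero, add_zero, add_zero, hν0])
        have h4 := o'.nm
        have h5 : ν + (κ + κ) - κ = ν + κ := by abel
        rw [h5, Pi.add_apply, Pi.add_apply, o.np, o.kp] at h4
        norm_num at h4
      have hb3 : |b| < 3 := by
        by_contra h3
        push Not at h3
        have h1 := pt (-1) 3 (j + 1) (j' - 1) (by
          rw [hj, abs_neg, abs_one]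
          exact Int.one_le_abs (by omega)) (by norm_num; exact h3) (by omega) (by omega)
        have h2 : (((-1 : ℤ) + (3 : ℤ) : ℚ) / 2) • ν + (((-1 : ℤ) - (3 : ℤ) : ℚ) / 2) • κ =
            ν - (κ + κ) := by
          push_cast
          module
        rw [h2] at h1
        have o' := key _ h1 (by rw [map_sub, map_add, hφ.zero, add_zero, sub_zero, hν0])
        have h4 := o'.np
        have h5 : ν - (κ + κ) + κ = ν - κ := by abel
        rw [h5, Pi.sub_apply, Pi.add_apply, o.nm, o.km] at h4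
        norm_num at h4
      rw [abs_lt] at ha3 hb3
      have ha1 : a = 1 ∨ a = -1 := by omega
      have hb1 : b = 1 ∨ b = -1 := by omega
      have ex : x = (a + b) / 2 := by linear_combination (-1 / 2 : ℚ) * ea + (-1 / 2 : ℚ) * eb
      have ey : y = (a - b) / 2 := by linear_combination (-1 / 2 : ℚ) * ea + (1 / 2 : ℚ) * eb
      rw [hxy, ex, ey]
      rcases ha1 with rfl | rfl <;> rcases hb1 with rfl | rfl <;> push_cast
      · right; right; left
        module
      · left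
        module
      · right; left
        module
      · right; right; right
        module

/-- The weights in the plane of two weights, and the roots. -/
theorem plane (h : Gs H q cl σ) {κ ν : H → k} (hκ : wt H T κ ≠ ⊥) (hν : wt H T ν ≠ ⊥)
    (h1 : ν ≠ κ) (h2 : ν ≠ -κ) : Or T ν κ ∧ ∀ γ, wt H T γ ≠ ⊥ →
      γ ∈ Submodule.span ℚ {κ, ν} → γ = κ ∨ γ = -κ ∨ γ = ν ∨ γ = -ν := by
  have hspan : ν ∉ Submodule.span ℚ {κ} := by
    intro h3
    rcases h.line_pm hκ hν h3 with h4 | h4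
    · exact h1 h4
    · exact h2 h4
  obtain ⟨φ, f1, f2, f3⟩ := exists_phi2 (Submodule.span ℚ {κ}) (Submodule.span ℚ {κ, ν})
    (Submodule.span_mono (by simp))
    (F := {χ : H → k | wt H T χ ≠ ⊥} ∪ {χ : H → k | wt H L χ ≠ ⊥})
    ((finite_wt (H := H) (M := T)).union (finite_wt (H := H) (M := L)))
  have hφ : Lw T φ κ := h.mk_lw hκ (f1 κ (Submodule.mem_span_singleton_self κ))
    (fun χ hχ h3 => by
      by_contra h4
      exact f2 χ (Or.inl hχ) h4 h3)
    (fun χ hχ h3 => by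
      by_contra h4
      exact f2 χ (Or.inr hχ) h4 h3)
  have hφν : φ ν ≠ 0 := f2 ν (Or.inl hν) hspan
  obtain ⟨c, hc, ν0, hν0, hν1⟩ := h.exists_lvl hν hφν
  have hc0 := hc.pos
  have hU : ν0 ∈ Submodule.span ℚ {κ, ν} := by
    by_contra h4
    have h6 := f3 ν0 (Or.inl hν0) h4 ν (Or.inl hν) (Submodule.subset_span (by simp))
    have h7 := h.lvl_abs hc hν hφν
    rw [hν1, abs_neg, abs_of_pos hc0] at h6
    linarith
  obtain ⟨x, y, hxy⟩ := Submodule.mem_span_pair.1 hU
  have hy : y ≠ 0 := by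
    rintro rfl
    rw [zero_smul, add_zero] at hxy
    rw [← hxy, map_smul, hφ.zero, smul_zero] at hν1
    linarith
  have hνe : ν = y⁻¹ • ν0 + (-(y⁻¹ * x)) • κ := by
    rw [← hxy, smul_add, smul_smul, smul_smul, inv_mul_cancel₀ hy, one_smul, neg_smul]
    abel
  have key : ∀ γ, wt H T γ ≠ ⊥ → γ ∈ Submodule.span ℚ {κ, ν} →
      γ = κ ∨ γ = -κ ∨ γ = ν0 ∨ γ = -ν0 := by
    intro γ hγ hγs
    obtain ⟨a, b, hab⟩ := Submodule.mem_span_pair.1 hγs
    refine h.plane_aux hκ hφ hc hν0 hν1 hγ (x := b * y⁻¹) (y := a + b * (-(y⁻¹ * x))) ?_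
    rw [← hab]
    nth_rewrite 1 [hνe]
    module
  obtain ⟨r1, r2⟩ := h.lvl_two hκ hφ hc hν0 hν1
  rcases key ν hν (Submodule.subset_span (by simp)) with h3 | h3 | h3 | h3
  · exact absurd h3 h1
  · exact absurd h3 h2
  · rw [← h3] at r1 r2 key
    exact ⟨h.orth hκ hν h1 h2 r1 r2, key⟩
  · have h4 : ν0 = -ν := by rw [h3, neg_neg]
    rw [h4] at r1 r2 key
    have g1 : IsRt H (-ν + κ) := ⟨fun h5 => h1 (by
      rw [neg_add_eq_zero] at h5
      exact h5), r1⟩
    have g2 : IsRt H (-ν - κ) := ⟨fun h5 => h2 (by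
      rw [sub_eq_zero] at h5
      rw [← h5, neg_neg]), r2⟩
    have g3 := (rt_neg g1).2
    have g4 := (rt_neg g2).2
    rw [neg_add, neg_neg, ← sub_eq_add_neg] at g3
    rw [neg_sub, sub_neg_eq_add, add_comm] at g4
    refine ⟨h.orth hκ hν h1 h2 g4 g3, fun γ hγ hγs => ?_⟩
    rcases key γ hγ hγs with h5 | h5 | h5 | h5
    · exact Or.inl h5
    · exact Or.inr (Or.inl h5)
    · exact Or.inr (Or.inr (Or.inr h5))
    · rw [neg_neg] at h5
      exact Or.inr (Or.inr (Or.inl h5))

end Gs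

end Pool.Agent.TH164.Spin
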