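import Pool.Agent.TH164.Spin.Ev4

/-!
# Graded spin modules: three weights
-/

set_option autoImplicit false
set_option linter.unusedSectionVars false
set_option linter.unusedVariables false

open Module LieModule LieAlgebra LieAlgebra.IsKilling

namespace Pool.Agent.TH164.Spin

variable {k L : Type*} [Field k] [IsAlgClosed k] [CharZero k] [LieRing L] [LieAlgebra k L]
  [FiniteDimensional k L] [LieAlgebra.IsKilling k L] {H : LieSubalgebra k L}
  [H.IsCartanSubalgebra]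
variable {S : Type*} [AddCommGroup S] [Module k S] [LieRingModule L S] [LieModule k L S]
  [FiniteDimensional k S] [Nontrivial S]
variable {T : Type*} [AddCommGroup T] [Module k T] [LieRingModule L T] [LieModule k L T]
  [FiniteDimensional k T]
variable {q : T →ₗ[k] T →ₗ[k] k} {cl : T →ₗ[k] S →ₗ[k] S} {σ : S →ₗ[k] S}

/-- Different lines. -/
def Np {X : Type*} [AddCommGroup X] (μ ν : X) : Prop := μ ≠ ν ∧ μ ≠ -ν

section np

variable {X : Type*} [AddCommGroup X] {μ ν : X}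

theorem Np.symm (h : Np μ ν) : Np ν μ := ⟨h.1.symm, fun h1 => h.2 (by rw [h1, neg_neg])⟩

theorem Np.neg_right (h : Np μ ν) : Np μ (-ν) := ⟨h.2, by rw [neg_neg]; exact h.1⟩

theorem Np.neg_left (h : Np μ ν) : Np (-μ) ν := h.symm.neg_right.symm

end np

namespace Gs

theorem pl (h : Gs H q cl σ) {μ ν : H → k} (hμ : wt H T μ ≠ ⊥) (hν : wt H T ν ≠ ⊥)
    (hn : Np μ ν) : Or T μ ν := (h.plane hν hμ hn.1 hn.2).1

theorem pl2 (h : Gs H q cl σ) {μ ν : H → k} (hμ : wt H T μ ≠ ⊥) (hν : wt H T ν ≠ ⊥)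
    (hn : Np μ ν) {γ : H → k} (hγ : wt H T γ ≠ ⊥) {a b : ℚ} (hab : γ = a • μ + b • ν)
    (h1 : Np γ μ) (h2 : Np γ ν) : False := by
  rcases (h.plane hν hμ hn.1 hn.2).2 γ hγ (by
    rw [hab]
    exact Submodule.add_mem _ (Submodule.smul_mem _ _ (Submodule.subset_span (by simp)))
      (Submodule.smul_mem _ _ (Submodule.subset_span (by simp)))) with h3 | h3 | h3 | h3
  · exact h2.1 h3
  · exact h2.2 h3
  · exact h1.1 h3
  · exact h1.2 h3

/-- Weights on one line. -/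
theorem np_of (h : Gs H q cl σ) {μ ν : H → k} (hμ : wt H T μ ≠ ⊥) (hν : wt H T ν ≠ ⊥)
    (hn : Np μ ν) (a b : ℚ) (h0 : a ≠ 0) : a • μ + b • ν ≠ 0 := by
  intro h1
  have h2 : μ ∈ Submodule.span ℚ {ν} := by
    rw [Submodule.mem_span_singleton]
    refine ⟨-(a⁻¹ * b), ?_⟩
    have h3 : μ = a⁻¹ • (a • μ + b • ν) - (a⁻¹ * b) • ν := by
      rw [smul_add, smul_smul, smul_smul, inv_mul_cancel₀ h0, one_smul, add_sub_cancel_right]
    rw [h1, smul_zero, zero_sub, ← neg_smul] at h3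
    exact h3.symm
  rcases h.line_pm hν hμ h2 with h3 | h3
  · exact hn.1 h3
  · exact hn.2 h3

theorem no_three (h : Gs H q cl σ) {γ β : H → k} (hβ : β ≠ 0) (hγ : wt H T γ ≠ ⊥)
    (hns : γ ∉ Submodule.span ℚ {β}) (h1 : wt H T (γ - β) ≠ ⊥) (h2 : wt H T (γ - β - β) ≠ ⊥) :
    False := by
  have hsp : ∀ (c : ℚ), γ ≠ c • β := fun c hc => hns (Submodule.mem_span_singleton.2 ⟨c, hc.symm⟩)
  refine h.pl2 hγ h1 ⟨?_, ?_⟩ h2 (a := -1) (b := 2) (by module) ⟨?_, ?_⟩ ⟨?_, ?_⟩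
  · intro h3
    apply hβ
    have h4 : β = γ - (γ - β) := by abel
    rw [h4, ← h3, sub_self]
  · intro h3
    refine hsp (1 / 2) ?_
    have h4 : γ = (1 / 2 : ℚ) • β + (1 / 2 : ℚ) • (γ - -(γ - β)) := by module
    rw [← h3, sub_self, smul_zero, add_zero] at h4
    exact h4
  · intro h3
    apply hβ
    apply two_zero
    have h4 : β + β = γ - (γ - β - β) := by abel
    rw [h4, h3, sub_self]
  · intro h3
    refine hsp 1 ?_
    have h4 : γ = (1 : ℚ) • β + (1 / 2 : ℚ) • ((γ - β - β) - -γ) := by module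
    rw [h3, sub_self, smul_zero, add_zero] at h4
    exact h4
  · intro h3
    apply hβ
    have h4 : β = (γ - β) - (γ - β - β) := by abel
    rw [h4, h3, sub_self]
  · intro h3
    refine hsp (3 / 2) ?_
    have h4 : γ = (3 / 2 : ℚ) • β + (1 / 2 : ℚ) • ((γ - β - β) - -(γ - β)) := by module
    rw [h3, sub_self, smul_zero, add_zero] at h4
    exact h4

/-- The values of a weight on the coroots. -/
theorem minus (h : Gs H q cl σ) {γ β : H → k} (hγ : wt H T γ ≠ ⊥) (hβ : IsRt H β) :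
    ∃ z : ℤ, γ (cv β) = z ∧ -1 ≤ z ∧ z ≤ 1 ∧ (z = 1 → wt H T (γ - β) ≠ ⊥) ∧
      (z = -1 → wt H T (γ + β) ≠ ⊥) := by
  obtain ⟨e, f, t⟩ := exists_tri hβ
  obtain ⟨z, hz⟩ := t.int hγ
  have hns := h.no_line hβ hγ
  refine ⟨z, hz, ?_, ?_, ?_, ?_⟩
  · by_contra h1
    push Not at h1
    have h2 := t.reach hγ hz (z' := z + 2) (j := -1) (by
      rw [abs_of_neg (by omega : z < 0), abs_le]
      constructor <;> omega) (by ring)
    have h3 := t.reach hγ hz (z' := z + 4) (j := -2) (by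
      rw [abs_of_neg (by omega : z < 0), abs_le]
      constructor <;> omega) (by ring)
    refine h.no_three (γ := γ) (β := -β) (neg_ne_zero.2 hβ.1) hγ ?_ ?_ ?_
    · rw [Submodule.mem_span_singleton]
      rintro ⟨c, hc⟩
      exact hns (Submodule.mem_span_singleton.2 ⟨-c, by rw [neg_smul, ← smul_neg, hc]⟩)
    · rwa [neg_one_smul] at h2
    · have h4 : γ - (-2 : ℤ) • β = γ - -β - -β := by
        rw [neg_smul, two_smul]
        abel
      rwa [h4] at h3
  · by_contra h1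
    push Not at h1
    have h2 := t.reach hγ hz (z' := z - 2) (j := 1) (by
      rw [abs_of_pos (by omega : 0 < z), abs_le]
      constructor <;> omega) (by ring)
    have h3 := t.reach hγ hz (z' := z - 4) (j := 2) (by
      rw [abs_of_pos (by omega : 0 < z), abs_le]
      constructor <;> omega) (by ring)
    refine h.no_three (γ := γ) (β := β) hβ.1 hγ hns ?_ ?_
    · rwa [one_smul] at h2
    · have h4 : γ - (2 : ℤ) • β = γ - β - β := by
        rw [two_smul]
        abel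
      rwa [h4] at h3
  · rintro rfl
    have h2 := t.reach hγ hz (z' := -1) (j := 1) (by simp) (by ring)
    rwa [one_smul] at h2
  · rintro rfl
    have h2 := t.reach hγ hz (z' := 1) (j := -1) (by simp) (by ring)
    rwa [neg_one_smul, sub_neg_eq_add] at h2

theorem b3a (h : Gs H q cl σ) {κ μ ν : H → k} (hκ : wt H T κ ≠ ⊥) (hμ : wt H T μ ≠ ⊥)
    (hν : wt H T ν ≠ ⊥) (h1 : Np κ μ) (h2 : Np κ ν) (h3 : Np μ ν)
    (hk : wt H T (κ + μ + ν) ≠ ⊥) : κ (cv (μ + ν)) = -1 ∧ μ (cv (κ - ν)) = 0 := by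
  have o1 := h.pl hμ hν h3
  have o2 := h.pl hκ hν h2
  have n1 : Np (κ + μ + ν) κ := by
    constructor
    · intro h4
      refine o1.rp.1 ?_
      have h5 : μ + ν = (κ + μ + ν) - κ := by abel
      rw [h5, h4, sub_self]
    · intro h4
      refine h.pl2 hμ hν h3 hκ (a := -1 / 2) (b := -1 / 2) ?_ h1 h2
      have h5 : κ = (-1 / 2 : ℚ) • μ + (-1 / 2 : ℚ) • ν + (1 / 2 : ℚ) • ((κ + μ + ν) - -κ) := by
        module
      rw [h4, sub_self, smul_zero, add_zero] at h5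
      exact h5
  have o3 := h.pl hk hκ n1
  have e1 : κ + μ + ν - κ = μ + ν := by abel
  have v1 : κ (cv (μ + ν)) = -1 := by
    have := o3.km
    rwa [e1] at this
  refine ⟨v1, ?_⟩
  obtain ⟨b, hb⟩ := rt_int o2.rm o1.rp
  have w1 : (κ - ν) (cv (μ + ν)) = ((-2 : ℤ) : k) := by
    rw [Pi.sub_apply, v1, o1.kp]
    norm_num
  have hnp : ∀ c : k, κ - ν ≠ c • (μ + ν) := by
    intro c hc
    rcases rt_smul o1.rp o2.rm hc with h4 | h4
    · refine h.pl2 hμ hν h3 hκ (a := 1) (b := 2) ?_ h1 h2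
      have h5 : κ = (1 : ℚ) • μ + (2 : ℚ) • ν + (1 : ℚ) • ((κ - ν) - (μ + ν)) := by
        module
      rw [h4, sub_self, smul_zero, add_zero] at h5
      exact h5
    · refine h1.2 ?_
      have h5 : κ = -μ + ((κ - ν) - -(μ + ν)) := by abel
      rw [h4, sub_self, add_zero] at h5
      exact h5
  obtain ⟨p1, p2, p3, -, -⟩ := rt_prod o1.rp o2.rm hnp w1 hb
  have hb1 : b = -1 := by
    have h4 : ¬ b = 0 := fun h5 => by
      have := p2.2 h5
      omega
    have h5 : ¬ 0 < b := fun h5 => by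
      have := p3.2 h5
      omega
    omega
  rw [Pi.add_apply, o2.km, hb1] at hb
  push_cast at hb
  linear_combination hb

theorem b3 (h : Gs H q cl σ) {κ μ ν : H → k} (hκ : wt H T κ ≠ ⊥) (hμ : wt H T μ ≠ ⊥)
    (hν : wt H T ν ≠ ⊥) (h1 : Np κ μ) (h2 : Np κ ν) (h3 : Np μ ν)
    (hk : wt H T (κ + μ + ν) ≠ ⊥) : κ (cv (μ + ν)) = -1 ∧ κ (cv (μ - ν)) = 0 := by
  refine ⟨(h.b3a hκ hμ hν h1 h2 h3 hk).1, (h.b3a hμ hκ hν h1.symm h3 h2 ?_).2⟩
  rwa [add_comm μ κ]

end Gs

/-- Functionals adapted to a plane. -/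
structure Ad (T : Type*) [AddCommGroup T] [Module k T] [LieRingModule L T] [LieModule k L T]
    (φ : (H → k) →ₗ[ℚ] ℚ) (c : ℚ) (μ ν : H → k) (U : Submodule ℚ (H → k)) : Prop where
  hμ : wt H T μ ≠ ⊥
  hν : wt H T ν ≠ ⊥
  np : Np μ ν
  mμ : μ ∈ U
  mν : ν ∈ U
  sp : ∀ u ∈ U, ∃ a b : ℚ, u = a • μ + b • ν
  zero : ∀ u ∈ U, φ u = 0
  tz : ∀ χ, wt H T χ ≠ ⊥ → φ χ = 0 → χ ∈ U
  lvl : Lvl T φ c
  dif : ∀ w w', wt H T w ≠ ⊥ → wt H T w' ≠ ⊥ → φ w = -c → φ w' = -c → w' - w ∈ U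

namespace Gs

theorem ad_neg_left (h : Gs H q cl σ) {φ : (H → k) →ₗ[ℚ] ℚ} {c : ℚ} {μ ν : H → k}
    {U : Submodule ℚ (H → k)} (A : Ad T φ c μ ν U) : Ad T φ c (-μ) ν U where
  hμ := h.tw_neg A.hμ
  hν := A.hν
  np := A.np.neg_left
  mμ := U.neg_mem A.mμ
  mν := A.mν
  sp u hu := by
    obtain ⟨a, b, hab⟩ := A.sp u hu
    exact ⟨-a, b, by rw [hab, neg_smul, smul_neg, neg_neg]⟩
  zero := A.zero
  tz := A.tz
  lvl := A.lvl
  dif := A.dif

theorem ad_neg_right (h : Gs H q cl σ) {φ : (H → k) →ₗ[ℚ] ℚ} {c : ℚ} {μ ν : H → k}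
    {U : Submodule ℚ (H → k)} (A : Ad T φ c μ ν U) : Ad T φ c μ (-ν) U where
  hμ := A.hμ
  hν := h.tw_neg A.hν
  np := A.np.neg_right
  mμ := A.mμ
  mν := U.neg_mem A.mν
  sp u hu := by
    obtain ⟨a, b, hab⟩ := A.sp u hu
    exact ⟨a, -b, by rw [hab, neg_smul, smul_neg, neg_neg]⟩
  zero := A.zero
  tz := A.tz
  lvl := A.lvl
  dif := A.dif

/-- The weights of level zero. -/
theorem ad_four (h : Gs H q cl σ) {φ : (H → k) →ₗ[ℚ] ℚ} {c : ℚ} {μ ν : H → k}
    {U : Submodule ℚ (H → k)} (A : Ad T φ c μ ν U) {χ : H → k} (hχ : wt H T χ ≠ ⊥)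
    (h0 : φ χ = 0) : χ = μ ∨ χ = -μ ∨ χ = ν ∨ χ = -ν := by
  obtain ⟨a, b, hab⟩ := A.sp χ (A.tz χ hχ h0)
  by_contra hcon
  push Not at hcon
  exact h.pl2 A.hμ A.hν A.np hχ hab ⟨hcon.1, hcon.2.1⟩ ⟨hcon.2.2.1, hcon.2.2.2⟩

theorem ad_np (h : Gs H q cl σ) {φ : (H → k) →ₗ[ℚ] ℚ} {c : ℚ} {μ ν : H → k}
    {U : Submodule ℚ (H → k)} (A : Ad T φ c μ ν U) {w : H → k} (hw : φ w = -c) :
    Np w μ ∧ Np w ν := by
  have hc := A.lvl.pos
  refine ⟨⟨?_, ?_⟩, ⟨?_, ?_⟩⟩
  · rintro rfl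
    rw [A.zero _ A.mμ] at hw
    linarith
  · rintro rfl
    rw [map_neg, A.zero _ A.mμ] at hw
    linarith
  · rintro rfl
    rw [A.zero _ A.mν] at hw
    linarith
  · rintro rfl
    rw [map_neg, A.zero _ A.mν] at hw
    linarith

/-- The sum of two weights is not a weight. -/
theorem add_ne (h : Gs H q cl σ) {μ ν : H → k} (hμ : wt H T μ ≠ ⊥) (hν : wt H T ν ≠ ⊥)
    (hn : Np μ ν) : wt H T (μ + ν) = ⊥ := by
  by_contra h1
  refine h.pl2 hμ hν hn h1 (a := 1) (b := 1) (by rw [one_smul, one_smul]) ⟨?_, ?_⟩ ⟨?_, ?_⟩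
  · intro h2
    exact h.ne_zero hν (by rwa [add_eq_left] at h2)
  · intro h2
    refine h.np_of hμ hν hn 2 1 two_ne_zero ?_
    have h3 : (2 : ℚ) • μ + (1 : ℚ) • ν = (μ + ν) - -μ := by module
    rw [h3, h2, sub_self]
  · intro h2
    exact h.ne_zero hμ (by rwa [add_eq_right] at h2)
  · intro h2
    refine h.np_of hμ hν hn 1 2 one_ne_zero ?_
    have h3 : (1 : ℚ) • μ + (2 : ℚ) • ν = (μ + ν) - -ν := by module
    rw [h3, h2, sub_self]

/-- The weights of the smallest level if the sum is a weight. -/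
theorem two_left (h : Gs H q cl σ) {φ : (H → k) →ₗ[ℚ] ℚ} {c : ℚ} {μ ν : H → k}
    {U : Submodule ℚ (H → k)} (A : Ad T φ c μ ν U) {w : H → k} (hw : wt H T w ≠ ⊥)
    (hw0 : φ w = -c) (hk : wt H T (w + μ + ν) ≠ ⊥) {x : H → k} (hx : wt H T x ≠ ⊥)
    (hx0 : φ x = -c) : x = w ∨ x = w + μ + ν := by
  have hc := A.lvl.pos
  obtain ⟨n1, n2⟩ := h.ad_np A hw0
  obtain ⟨n3, n4⟩ := h.ad_np A hx0
  obtain ⟨v1, v2⟩ := h.b3 hw A.hμ A.hν n1 n2 A.np hk
  obtain ⟨a, b, hab⟩ := A.sp _ (A.dif w x hw hx hw0 hx0)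
  have hxe : x = w + (a • μ + b • ν) := by rw [← hab]; abel
  have o := h.pl A.hμ A.hν A.np
  obtain ⟨z, hz, hz1, hz2, hz3, hz4⟩ := h.minus hx o.rp
  obtain ⟨y, hy, hy1, hy2, hy3, hy4⟩ := h.minus hx o.rm
  have ez : (z : ℚ) = -1 + a + b := by
    have h1 := hz
    rw [hxe, Pi.add_apply, v1, Pi.add_apply, Pi.smul_apply, Pi.smul_apply, o.np, o.kp,
      Rat.smul_def, Rat.smul_def] at h1
    have h2 : ((-1 + a + b : ℚ) : k) = ((z : ℚ) : k) := by
      push_cast
      linear_combination h1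
    exact (Rat.cast_injective h2).symm
  have ey : (y : ℚ) = a - b := by
    have h1 := hy
    rw [hxe, Pi.add_apply, v2, Pi.add_apply, Pi.smul_apply, Pi.smul_apply, o.nm, o.km,
      Rat.smul_def, Rat.smul_def] at h1
    have h2 : ((a - b : ℚ) : k) = ((y : ℚ) : k) := by
      push_cast
      linear_combination h1
    exact (Rat.cast_injective h2).symm
  by_cases hy0 : y = 0
  · have hab2 : a = b := by
      rw [hy0, Int.cast_zero] at ey
      linarith
    have hz5 : z = -1 ∨ z = 0 ∨ z = 1 := by omega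
    rcases hz5 with rfl | rfl | rfl
    · left
      have ha : a = 0 := by
        push_cast at ez
        linarith
      rw [hxe, ← hab2, ha, zero_smul, zero_smul, add_zero, add_zero]
    · exfalso
      have ha : a = 1 / 2 := by
        push_cast at ez
        linarith
      have e1 : x - w = (1 / 2 : ℚ) • (μ + ν) := by
        rw [hxe, ← hab2, ha]
        module
      have n5 : Np x w := by
        constructor
        · intro h1
          rw [h1, sub_self] at e1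
          exact o.rp.1 ((smul_eq_zero.1 e1.symm).resolve_left (by norm_num))
        · intro h1
          rw [h1, map_neg, hw0] at hx0
          linarith
      have o2 := (h.pl hx hw n5).rm
      rw [e1] at o2
      have e2 : (1 / 2 : ℚ) • (μ + ν) = ((1 / 2 : ℚ) : k) • (μ + ν) :=
        (Rat.cast_smul_eq_qsmul k _ _).symm
      rcases rt_smul o.rp o2 e2 with h1 | h1
      · refine o.rp.1 ?_
        have h2 : μ + ν = (2 : ℚ) • ((μ + ν) - (1 / 2 : ℚ) • (μ + ν)) := by module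
        rw [h2, h1, sub_self, smul_zero]
      · refine o.rp.1 ?_
        have h2 : μ + ν = (2 / 3 : ℚ) • ((1 / 2 : ℚ) • (μ + ν) - -(μ + ν)) := by module
        rw [h2, h1, sub_self, smul_zero]
    · right
      have ha : a = 1 := by
        push_cast at ez
        linarith
      rw [hxe, ← hab2, ha, one_smul, one_smul, add_assoc]
  · exfalso
    have hz0 : z = 0 := by
      have hy5 : y = 1 ∨ y = -1 := by omega
      have hzk : x (cv (μ + ν)) = 0 := by
        rcases hy5 with h1 | h1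
        · have h2 := hy3 h1
          have h3 : x - (μ - ν) = x + -μ + ν := by abel
          rw [h3] at h2
          have h4 := (h.b3 hx (h.tw_neg A.hμ) A.hν n3.neg_right n4 A.np.neg_left h2).2
          have h5 : -μ - ν = -(μ + ν) := by abel
          rw [h5, cv_neg o.rp, apply_neg hx, neg_eq_zero] at h4
          exact h4
        · have h2 := hy4 h1
          have h3 : x + (μ - ν) = x + μ + -ν := by abel
          rw [h3] at h2
          have h4 := (h.b3 hx A.hμ (h.tw_neg A.hν) n3 n4.neg_right A.np.neg_right h2).2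
          rwa [sub_neg_eq_add] at h4
      rw [hz] at hzk
      exact_mod_cast hzk
    have hs : a + b = 1 := by
      rw [hz0, Int.cast_zero] at ez
      linarith
    have hy5 : y = 1 ∨ y = -1 := by omega
    rcases hy5 with h1 | h1
    · rw [h1] at ey
      push_cast at ey
      have ha : a = 1 := by linarith
      have hb : b = 0 := by linarith
      rw [hxe, ha, hb, zero_smul, add_zero, one_smul, h.add_ne hw A.hμ n1] at hx
      exact hx rfl
    · rw [h1] at ey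
      push_cast at ey
      have ha : a = 0 := by linarith
      have hb : b = 1 := by linarith
      rw [hxe, ha, hb, zero_smul, zero_add, one_smul, h.add_ne hw A.hν n2] at hx
      exact hx rfl

end Gs

end Pool.Agent.TH164.Spin
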