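import Pool.Agent.TH164.Spin.Ev5

/-!
# Graded spin modules: exclusion of the exceptional pattern
-/

set_option autoImplicit false
set_option linter.unusedSectionVars false
set_option linter.unusedVariables false

open Module LieModule LieAlgebra LieAlgebra.IsKilling

namespace Pool.Agent.TH164.Spin

variable {k L : Type*} [Field k] [IsAlgClosed k] [CharZero k] [LieRing L] [LieAlgebra k L]
  [FiniteDimensional k L] [LieAlgebra.IsKilling k L] {H : LieSubalgebra k L}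
  [H.IsCartanSubalgebra]
variable {S : Type*} [AddCommGroup S] [Module k S] [LieRingModule L S] [LieModule k L S]
  [FiniteDimensional k S] [Nontrivial S]
variable {T : Type*} [AddCommGroup T] [Module k T] [LieRingModule L T] [LieModule k L T]
  [FiniteDimensional k T]
variable {q : T →ₗ[k] T →ₗ[k] k} {cl : T →ₗ[k] S →ₗ[k] S} {σ : S →ₗ[k] S}

/-- A vector of the top level killed by two weights. -/
structure Tf (cl : T →ₗ[k] S →ₗ[k] S) (σ : S →ₗ[k] S) (φ : (H → k) →ₗ[ℚ] ℚ) (M : ℚ)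
    (μ ν : H → k) (tm tn : T) (s : S) (Λ : H → k) (ε : k) : Prop where
  mem : s ∈ wt H S Λ
  ne : s ≠ 0
  lev : φ Λ = M
  hε : ε = 1 ∨ ε = -1
  par : σ s = ε • s
  kμ : ∀ t ∈ wt H T μ, cl t s = 0
  kν : ∀ t ∈ wt H T ν, cl t s = 0
  htm : tm ∈ wt H T (-μ)
  htn : tn ∈ wt H T (-ν)
  tm0 : tm ≠ 0
  tn0 : tn ≠ 0

namespace Gs

theorem exists_tf (h : Gs H q cl σ) {φ : (H → k) →ₗ[ℚ] ℚ} {c : ℚ} {μ ν : H → k}
    {U : Submodule ℚ (H → k)} (A : Ad T φ c μ ν U) {M : ℚ} (hM : IsTop H S φ M) :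
    ∃ tm tn s Λ ε, Tf cl σ φ M μ ν tm tn s Λ ε := by
  have hs1 : ν ∉ Submodule.span ℚ {μ} := by
    intro h3
    rcases h.line_pm A.hμ A.hν h3 with h4 | h4
    · exact A.np.symm.1 h4
    · exact A.np.symm.2 h4
  have hs2 : μ ∉ Submodule.span ℚ {ν} := by
    intro h3
    rcases h.line_pm A.hν A.hμ h3 with h4 | h4
    · exact A.np.1 h4
    · exact A.np.2 h4
  have hpos : ∀ α β : H → k, β ∉ Submodule.span ℚ {α} → ∃ φ' : (H → k) →ₗ[ℚ] ℚ, φ' α = 0 ∧
      0 < φ' β := by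
    intro α β hαβ
    obtain ⟨φ1, g1, g2⟩ := exists_phi (Submodule.span ℚ {α}) (F := {β}) (Set.finite_singleton β)
    have g3 := g1 α (Submodule.mem_span_singleton_self α)
    have g4 := g2 β rfl hαβ
    rcases lt_or_gt_of_ne g4 with g5 | g5
    · exact ⟨-φ1, by rw [LinearMap.neg_apply, g3, neg_zero], by rw [LinearMap.neg_apply]; linarith⟩
    · exact ⟨φ1, g3, g5⟩
  obtain ⟨φ1, a1, a2⟩ := hpos μ ν hs1
  obtain ⟨φ2, b1, b2⟩ := hpos ν μ hs2
  obtain ⟨Λ, hΛ1, hΛ2, hΛ3⟩ := exists_max hM (φ1 + φ2)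
  obtain ⟨s, hs, s0, ε, hε, hsε⟩ := h.hom_wt hΛ1
  have hk : ∀ χ : H → k, φ χ = 0 → 0 < (φ1 + φ2) χ → ∀ t' ∈ wt H T χ, cl t' s = 0 := by
    intro χ hχ hχ' t' ht'
    by_contra h3
    have h4 := hΛ3 (Λ + χ) ((Submodule.ne_bot_iff _).2 ⟨_, h.cl_mem ht' hs, h3⟩)
      (by rw [map_add, hχ, add_zero, hΛ2])
    rw [map_add] at h4
    linarith
  obtain ⟨tm, htm, tm0⟩ := Submodule.exists_mem_ne_zero_of_ne_bot (h.tw_neg A.hμ)
  obtain ⟨tn, htn, tn0⟩ := Submodule.exists_mem_ne_zero_of_ne_bot (h.tw_neg A.hν)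
  exact ⟨tm, tn, s, Λ, ε, hs, s0, hΛ2, hε, hsε,
    hk μ (A.zero _ A.mμ) (by rw [LinearMap.add_apply, a1, zero_add]; exact b2),
    hk ν (A.zero _ A.mν) (by rw [LinearMap.add_apply, b1, add_zero]; exact a2),
    htm, htn, tm0, tn0⟩

/-- The anticommutation relation as a rule. -/
theorem swap (h : Gs H q cl σ) (a b : T) (m : S) :
    cl a (cl b m) = (2 * q a b) • m - cl b (cl a m) := by
  rw [← h.anti a b m, add_sub_cancel_right]

theorem add_ne_zero_of (h : Gs H q cl σ) {μ ν : H → k} (hn : Np μ ν) : μ + ν ≠ 0 :=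
  fun h1 => hn.2 (eq_neg_of_add_eq_zero_left h1)

theorem sub_ne_zero_of (h : Gs H q cl σ) {μ ν : H → k} (hn : Np μ ν) : μ - ν ≠ 0 :=
  sub_ne_zero.2 hn.1

/-- The top level is spanned by four vectors. -/
theorem tp_four (h : Gs H q cl σ) {φ : (H → k) →ₗ[ℚ] ℚ} {c : ℚ} {μ ν : H → k}
    {U : Submodule ℚ (H → k)} (A : Ad T φ c μ ν U) {M : ℚ} (hM : IsTop H S φ M)
    {tm tn : T} {s : S} {Λ : H → k} {ε : k} (l : Tf cl σ φ M μ ν tm tn s Λ ε) :
    tp H S φ M ≤ Submodule.span k (Set.range ![s, cl tm s, cl tn s, cl tm (cl tn s)]) := by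
  have zμ := A.zero _ A.mμ
  have zν := A.zero _ A.mν
  set V := Submodule.span k (Set.range ![s, cl tm s, cl tn s, cl tm (cl tn s)]) with hV
  have i0 : s ∈ V := Submodule.subset_span ⟨0, rfl⟩
  have i1 : cl tm s ∈ V := Submodule.subset_span ⟨1, rfl⟩
  have i2 : cl tn s ∈ V := Submodule.subset_span ⟨2, rfl⟩
  have i3 : cl tm (cl tn s) ∈ V := Submodule.subset_span ⟨3, rfl⟩
  have j0 : s ∈ tp H S φ M := wt_le_lv (P := fun χ => φ χ = M) l.lev l.mem
  have j1 : cl tm s ∈ tp H S φ M := h.stab (by rw [map_neg, zμ, neg_zero]) l.htm j0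
  have j2 : cl tn s ∈ tp H S φ M := h.stab (by rw [map_neg, zν, neg_zero]) l.htn j0
  have j3 : cl tm (cl tn s) ∈ tp H S φ M := h.stab (by rw [map_neg, zμ, neg_zero]) l.htm j2
  have hn1 := h.add_ne_zero_of A.np
  have hn2 := h.sub_ne_zero_of A.np
  refine h.ctop hM ?_ ((Submodule.ne_bot_iff _).2 ⟨s, i0, l.ne⟩) ?_
  · rw [Submodule.span_le]
    rintro _ ⟨i, rfl⟩
    fin_cases i
    · exact j0
    · exact j1
    · exact j2
    · exact j3
  · intro χ hχ t ht u hu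
    by_cases ht0 : t = 0
    · rw [ht0, map_zero, LinearMap.zero_apply]
      exact V.zero_mem
    have hgen : cl t s ∈ V ∧ cl t (cl tm s) ∈ V ∧ cl t (cl tn s) ∈ V ∧
        cl t (cl tm (cl tn s)) ∈ V := by
      rcases h.ad_four A ((Submodule.ne_bot_iff _).2 ⟨t, ht, ht0⟩) hχ with h1 | h1 | h1 | h1
      · rw [h1] at ht
        have k0 := l.kμ t ht
        have q1 : q t tn = 0 := h.q_zero ht l.htn (by rwa [← sub_eq_add_neg])
        have k2 : cl t (cl tn s) = 0 := by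
          rw [h.swap, k0, q1, mul_zero, zero_smul, map_zero, sub_zero]
        refine ⟨by rw [k0]; exact V.zero_mem, ?_, by rw [k2]; exact V.zero_mem, ?_⟩
        · rw [h.swap, k0, map_zero, sub_zero]
          exact V.smul_mem _ i0
        · rw [h.swap, k2, map_zero, sub_zero]
          exact V.smul_mem _ i2
      · rw [h1] at ht
        obtain ⟨d, rfl⟩ := h.one l.htm l.tm0 ht
        have hz : -μ ≠ 0 := neg_ne_zero.2 (h.ne_zero A.hμ)
        simp only [map_smul, LinearMap.smul_apply]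
        refine ⟨V.smul_mem _ i1, ?_, V.smul_mem _ i3, ?_⟩
        · rw [h.nil l.htm hz, smul_zero]
          exact V.zero_mem
        · rw [h.nil l.htm hz, smul_zero]
          exact V.zero_mem
      · rw [h1] at ht
        have k0 := l.kν t ht
        have q1 : q t tm = 0 := h.q_zero ht l.htm (by
          rw [← sub_eq_add_neg]
          intro h2
          exact hn2 (by rw [← neg_sub, h2, neg_zero]))
        have k1 : cl t (cl tm s) = 0 := by
          rw [h.swap, k0, q1, mul_zero, zero_smul, map_zero, sub_zero]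
        refine ⟨by rw [k0]; exact V.zero_mem, by rw [k1]; exact V.zero_mem, ?_, ?_⟩
        · rw [h.swap, k0, map_zero, sub_zero]
          exact V.smul_mem _ i0
        · rw [h.swap, q1, mul_zero, zero_smul, zero_sub, h.swap t tn, k0, map_zero, sub_zero,
            map_smul]
          exact V.neg_mem (V.smul_mem _ i1)
      · rw [h1] at ht
        obtain ⟨d, rfl⟩ := h.one l.htn l.tn0 ht
        have hz : -ν ≠ 0 := neg_ne_zero.2 (h.ne_zero A.hν)
        have q1 : q tn tm = 0 := h.q_zero l.htn l.htm (by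
          rw [← neg_add, add_comm]
          exact neg_ne_zero.2 hn1)
        simp only [map_smul, LinearMap.smul_apply]
        refine ⟨V.smul_mem _ i2, ?_, ?_, ?_⟩
        · rw [h.swap, q1, mul_zero, zero_smul, zero_sub]
          exact V.smul_mem _ (V.neg_mem i3)
        · rw [h.nil l.htn hz, smul_zero]
          exact V.zero_mem
        · rw [h.swap, q1, mul_zero, zero_smul, zero_sub, h.nil l.htn hz, map_zero, neg_zero,
            smul_zero]
          exact V.zero_mem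
    induction hu using Submodule.span_induction with
    | mem x hx =>
      obtain ⟨i, rfl⟩ := hx
      fin_cases i
      · exact hgen.1
      · exact hgen.2.1
      · exact hgen.2.2.1
      · exact hgen.2.2.2
    | zero =>
      rw [map_zero]
      exact V.zero_mem
    | add a b _ _ ha hb =>
      rw [map_add]
      exact V.add_mem ha hb
    | smul c a _ ha =>
      rw [map_smul]
      exact V.smul_mem _ ha

/-- The weight vectors of the top level. -/
theorem tp_wt (h : Gs H q cl σ) {φ : (H → k) →ₗ[ℚ] ℚ} {c : ℚ} {μ ν : H → k}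
    {U : Submodule ℚ (H → k)} (A : Ad T φ c μ ν U) {M : ℚ} (hM : IsTop H S φ M)
    {tm tn : T} {s : S} {Λ : H → k} {ε : k} (l : Tf cl σ φ M μ ν tm tn s Λ ε) {ψ : H → k}
    {m : S} (hm : m ∈ wt H S ψ) (hψ : φ ψ = M) (hm0 : m ≠ 0) :
    (ψ = Λ ∧ ∃ d : k, m = d • s) ∨ (ψ = Λ + -μ ∧ ∃ d : k, m = d • cl tm s) ∨
    (ψ = Λ + -ν ∧ ∃ d : k, m = d • cl tn s) ∨
    (ψ = Λ + -ν + -μ ∧ ∃ d : k, m = d • cl tm (cl tn s)) := by
  have h1 := h.tp_four A hM l (wt_le_lv (P := fun χ => φ χ = M) hψ hm)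
  have h2 := mem_span_wt (v := ![s, cl tm s, cl tn s, cl tm (cl tn s)])
    (X := ![Λ, Λ + -μ, Λ + -ν, Λ + -ν + -μ]) (by
      intro i
      fin_cases i
      · exact l.mem
      · exact h.cl_mem l.htm l.mem
      · exact h.cl_mem l.htn l.mem
      · exact h.cl_mem l.htm (h.cl_mem l.htn l.mem)) h1 hm
  have hμ0 := h.ne_zero A.hμ
  have hν0 := h.ne_zero A.hν
  have hn1 := h.add_ne_zero_of A.np
  have hn2 := h.sub_ne_zero_of A.np
  have d01 : Λ ≠ Λ + -μ := fun h3 => hμ0 (by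
    have : μ = Λ - (Λ + -μ) := by abel
    rw [this, ← h3, sub_self])
  have d02 : Λ ≠ Λ + -ν := fun h3 => hν0 (by
    have : ν = Λ - (Λ + -ν) := by abel
    rw [this, ← h3, sub_self])
  have d03 : Λ ≠ Λ + -ν + -μ := fun h3 => hn1 (by
    have : μ + ν = Λ - (Λ + -ν + -μ) := by abel
    rw [this, ← h3, sub_self])
  have d12 : Λ + -μ ≠ Λ + -ν := fun h3 => hn2 (by
    have : μ - ν = (Λ + -ν) - (Λ + -μ) := by abel
    rw [this, ← h3, sub_self])
  have d13 : Λ + -μ ≠ Λ + -ν + -μ := fun h3 => hν0 (by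
    have : ν = (Λ + -μ) - (Λ + -ν + -μ) := by abel
    rw [this, ← h3, sub_self])
  have d23 : Λ + -ν ≠ Λ + -ν + -μ := fun h3 => hμ0 (by
    have : μ = (Λ + -ν) - (Λ + -ν + -μ) := by abel
    rw [this, ← h3, sub_self])
  have hex : ∃ i : Fin 4, ![Λ, Λ + -μ, Λ + -ν, Λ + -ν + -μ] i = ψ := by
    by_contra hcon
    push Not at hcon
    have h3 : {i : Fin 4 | ![Λ, Λ + -μ, Λ + -ν, Λ + -ν + -μ] i = ψ} = ∅ :=
      Set.eq_empty_iff_forall_notMem.2 hcon
    rw [h3, Set.image_empty, Submodule.span_empty] at h2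
    exact hm0 ((Submodule.mem_bot k).1 h2)
  have hinj : Function.Injective ![Λ, Λ + -μ, Λ + -ν, Λ + -ν + -μ] := by
    intro i j hij
    fin_cases i <;> fin_cases j
    · rfl
    · exact absurd hij d01
    · exact absurd hij d02
    · exact absurd hij d03
    · exact absurd hij.symm d01
    · rfl
    · exact absurd hij d12
    · exact absurd hij d13
    · exact absurd hij.symm d02
    · exact absurd hij.symm d12
    · rfl
    · exact absurd hij d23
    · exact absurd hij.symm d03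
    · exact absurd hij.symm d13
    · exact absurd hij.symm d23
    · rfl
  obtain ⟨i, hi⟩ := hex
  have h3 : {j : Fin 4 | ![Λ, Λ + -μ, Λ + -ν, Λ + -ν + -μ] j = ψ} = {i} := by
    ext j
    rw [Set.mem_ofPred_eq, Set.mem_singleton_iff]
    constructor
    · intro h4
      exact hinj (h4.trans hi.symm)
    · rintro rfl
      exact hi
  rw [h3, Set.image_singleton, Submodule.mem_span_singleton] at h2
  obtain ⟨d, hd⟩ := h2
  fin_cases i
  · exact Or.inl ⟨hi.symm, d, hd.symm⟩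
  · exact Or.inr (Or.inl ⟨hi.symm, d, hd.symm⟩)
  · exact Or.inr (Or.inr (Or.inl ⟨hi.symm, d, hd.symm⟩))
  · exact Or.inr (Or.inr (Or.inr ⟨hi.symm, d, hd.symm⟩))

theorem par_ne (h : Gs H q cl σ) {ε d : k} {m v : S} (hε : ε = 1 ∨ ε = -1) (hm : σ m = ε • m)
    (hv : σ v = (-ε) • v) (hd : m = d • v) : m = 0 := by
  refine h.hom_unique hm ?_ hε
  rw [hd, map_smul, hv, smul_comm]

/-- Exclusion of the exceptional pattern. -/
theorem no_b3 (h : Gs H q cl σ) {φ : (H → k) →ₗ[ℚ] ℚ} {c : ℚ} {μ ν : H → k}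
    {U : Submodule ℚ (H → k)} (A : Ad T φ c μ ν U) {w : H → k} (hw : wt H T w ≠ ⊥)
    (hw0 : φ w = -c) : wt H T (w + μ + ν) = ⊥ := by
  by_contra hk
  have hc := A.lvl.pos
  have zμ := A.zero _ A.mμ
  have zν := A.zero _ A.mν
  obtain ⟨n1, n2⟩ := h.ad_np A hw0
  have hμ0 := h.ne_zero A.hμ
  have hν0 := h.ne_zero A.hν
  have hn1 := h.add_ne_zero_of A.np
  have hn2 := h.sub_ne_zero_of A.np
  obtain ⟨M, hM⟩ := exists_top h.dS φ
  obtain ⟨tm, tn, s, Λ, ε, l⟩ := h.exists_tf A hM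
  have o := h.pl A.hμ A.hν A.np
  have ow := h.pl hw A.hμ n1
  -- the vectors of the top level
  set s1 := cl tm s with hs1
  set s2 := cl tn s with hs2
  set s3 := cl tm s2 with hs3
  have m1 : s1 ∈ wt H S (Λ + -μ) := h.cl_mem l.htm l.mem
  have m2 : s2 ∈ wt H S (Λ + -ν) := h.cl_mem l.htn l.mem
  have m3 : s3 ∈ wt H S (Λ + -ν + -μ) := h.cl_mem l.htm m2
  have p1 : σ s1 = (-ε) • s1 := h.cl_par l.par tm
  have p2 : σ s2 = (-ε) • s2 := h.cl_par l.par tn
  have p3 : σ s3 = ε • s3 := by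
    have := h.cl_par p2 tm
    rwa [neg_neg] at this
  have l1 : φ (Λ + -μ) = M := by rw [map_add, map_neg, zμ, neg_zero, add_zero, l.lev]
  have l2 : φ (Λ + -ν) = M := by rw [map_add, map_neg, zν, neg_zero, add_zero, l.lev]
  have l3 : φ (Λ + -ν + -μ) = M := by rw [map_add, map_neg, zμ, neg_zero, add_zero, l2]
  have e1 : s1 ≠ 0 := h.cl_ne l.htm l.tm0 l.ne (by rw [neg_neg]; exact l.kμ)
  have e2 : s2 ≠ 0 := h.cl_ne l.htn l.tn0 l.ne (by rw [neg_neg]; exact l.kν)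
  have e3 : s3 ≠ 0 := h.cl_ne l.htm l.tm0 e2 (by
    rw [neg_neg]
    intro t ht
    have q1 : q t tn = 0 := h.q_zero ht l.htn (by rwa [← sub_eq_add_neg])
    rw [hs2, h.swap, l.kμ t ht, q1, mul_zero, zero_smul, map_zero, sub_zero])
  have t0 : s ∈ tp H S φ M := wt_le_lv (P := fun χ => φ χ = M) l.lev l.mem
  have t1 : s1 ∈ tp H S φ M := wt_le_lv (P := fun χ => φ χ = M) l1 m1
  have t3 : s3 ∈ tp H S φ M := wt_le_lv (P := fun χ => φ χ = M) l3 m3
  -- the root `μ - ν`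
  obtain ⟨e, f, t⟩ := exists_tri o.rm
  have f0 : ⁅e, s⁆ = 0 := by
    by_contra h1
    rcases h.tp_wt A hM l (t.lie_e l.mem) (by rw [map_add, l.lev, map_sub, zμ, zν, sub_zero,
      add_zero]) h1 with ⟨h2, -⟩ | ⟨h2, -⟩ | ⟨h2, -⟩ | ⟨h2, -⟩
    · exact hn2 (by rwa [add_eq_left] at h2)
    · refine h.np_of A.hμ A.hν A.np 2 (-1) two_ne_zero ?_
      have h3 : (2 : ℚ) • μ + (-1 : ℚ) • ν = (Λ + (μ - ν)) - (Λ + -μ) := by module
      rw [h3, h2, sub_self]
    · refine hμ0 ?_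
      have h3 : μ = (Λ + (μ - ν)) - (Λ + -ν) := by abel
      rw [h3, h2, sub_self]
    · refine hμ0 (two_zero ?_)
      have h3 : μ + μ = (Λ + (μ - ν)) - (Λ + -ν + -μ) := by abel
      rw [h3, h2, sub_self]
  obtain ⟨d, hd0, hd⟩ : ∃ d : k, d ≠ 0 ∧ ⁅e, s1⁆ = d • s2 := by
    have h1 : ⁅e, tm⁆ ≠ 0 := t.inj' l.htm l.tm0 (z := -1) (by
      rw [Pi.neg_apply, o.nm]
      push_cast
      rfl) (by norm_num)
    have h2 : ⁅e, tm⁆ ∈ wt H T (-ν) := lie_mem_wt' t.he l.htm (by abel)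
    obtain ⟨d, hd⟩ := h.one l.htn l.tn0 h2
    refine ⟨d, ?_, ?_⟩
    · rintro rfl
      rw [zero_smul] at hd
      exact h1 hd
    · rw [hs1, h.lie, f0, map_zero, add_zero, hd, map_smul, LinearMap.smul_apply]
  -- the weight space
  have g1 : ∀ x ∈ wt H L (w + ν), ⁅x, s1⁆ = 0 := by
    intro x hx
    by_contra h1
    obtain ⟨γ, a, ha, ψ, b, hb, k1, k2, k3, k4⟩ := h.exists_T hM A.lvl (neg_par l.hε)
      (lie_mem_wt hx m1) (by rw [map_add, l1, map_add, hw0, zν, add_zero, sub_eq_add_neg])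
      (h.lie_par p1 x) h1
    rw [neg_neg] at k2
    have b0 : b ≠ 0 := by
      rintro rfl
      rw [map_zero] at k4
      exact k4 rfl
    have a0 : wt H T γ ≠ ⊥ := (Submodule.ne_bot_iff _).2 ⟨a, ha, by
      rintro rfl
      rw [map_zero, LinearMap.zero_apply] at k4
      exact k4 rfl⟩
    have hγ : φ γ = -c := by
      have h2 := congrArg φ k3
      rw [map_add φ ψ γ, map_add φ (Λ + -μ), map_add φ w ν, k1, l1, hw0, zν] at h2
      linarith
    rcases h.two_left A hw hw0 hk a0 hγ with r1 | r1 <;>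
      rcases h.tp_wt A hM l hb k1 b0 with ⟨r2, -⟩ | ⟨r2, d', r3⟩ | ⟨r2, d', r3⟩ | ⟨r2, -⟩
    · refine hn2 ?_
      rw [r1, r2] at k3
      have h3 : μ - ν = (Λ + w) - (Λ + -μ + (w + ν)) := by abel
      rw [h3, k3, sub_self]
    · exact b0 (h.par_ne l.hε k2 p1 r3)
    · exact b0 (h.par_ne l.hε k2 p2 r3)
    · refine hν0 (two_zero ?_)
      rw [r1, r2] at k3
      have h3 : ν + ν = (Λ + -μ + (w + ν)) - (Λ + -ν + -μ + w) := by abel
      rw [h3, k3, sub_self]
    · refine hμ0 (two_zero ?_)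
      rw [r1, r2] at k3
      have h3 : μ + μ = (Λ + (w + μ + ν)) - (Λ + -μ + (w + ν)) := by abel
      rw [h3, k3, sub_self]
    · exact b0 (h.par_ne l.hε k2 p1 r3)
    · exact b0 (h.par_ne l.hε k2 p2 r3)
    · refine hn2 ?_
      rw [r1, r2] at k3
      have h3 : μ - ν = (Λ + -ν + -μ + (w + μ + ν)) - (Λ + -μ + (w + ν)) := by abel
      rw [h3, k3, sub_self]
  obtain ⟨x1, hx1, hx0⟩ := Submodule.exists_mem_ne_zero_of_ne_bot ow.rp.2
  have g2 : ∀ m ∈ wt H S (Λ + w), σ m = (-ε) • m → ∃ a : k, m = a • ⁅x1, s1⁆ := by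
    intro m hm hmε
    have h1 := h.second_P' hM A.lvl (neg_par l.hε) t1 p1 e1 hm
      (by rw [map_add, l.lev, hw0, sub_eq_add_neg]) hmε
    have h2 : Submodule.span k {y | ∃ γ, ∃ x ∈ wt H L γ, ∃ ψ, ∃ s ∈ wt H S ψ, φ ψ = M ∧
        σ s = (-ε) • s ∧ ψ + γ = Λ + w ∧ y = ⁅x, s⁆} ≤ Submodule.span k {⁅x1, s1⁆} := by
      rw [Submodule.span_le]
      rintro _ ⟨γ, x, hx, ψ, b, hb, k1, k2, k3, rfl⟩
      by_cases b0 : b = 0
      · rw [b0, lie_zero]
        exact Submodule.zero_mem _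
      rcases h.tp_wt A hM l hb k1 b0 with ⟨r2, d', r3⟩ | ⟨r2, d', r3⟩ | ⟨r2, d', r3⟩ | ⟨r2, d', r3⟩
      · exact absurd (h.par_ne (neg_par l.hε) k2 (by rw [neg_neg]; exact l.par) r3) b0
      · have h4 : γ = w + μ := by
          have h5 : γ = (ψ + γ) - ψ := by abel
          rw [h5, k3, r2]
          abel
        rw [h4] at hx
        obtain ⟨a, ha⟩ := rt_one ow.rp hx1 hx hx0
        rw [r3, ha, lie_smul, smul_lie]
        exact Submodule.smul_mem _ _ (Submodule.smul_mem _ _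
          (Submodule.mem_span_singleton_self _))
      · have h4 : γ = w + ν := by
          have h5 : γ = (ψ + γ) - ψ := by abel
          rw [h5, k3, r2]
          abel
        rw [h4] at hx
        have h5 : ⁅x, e⁆ ∈ wt H L (w + μ) := lie_mem_wt' hx t.he (by abel)
        obtain ⟨a, ha⟩ := rt_one ow.rp hx1 h5 hx0
        have h6 : ⁅x, d • s2⁆ = a • ⁅x1, s1⁆ := by
          rw [← hd, leibniz_lie, g1 x hx, lie_zero, add_zero, ha, smul_lie]
        rw [lie_smul] at h6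
        have h7 : ⁅x, s2⁆ = (d⁻¹ * a) • ⁅x1, s1⁆ := by
          rw [mul_smul, ← h6, smul_smul, inv_mul_cancel₀ hd0, one_smul]
        change ⁅x, b⁆ ∈ _
        rw [r3, lie_smul]
        change d' • ⁅x, s2⁆ ∈ _
        rw [h7]
        exact Submodule.smul_mem _ _ (Submodule.smul_mem _ _
          (Submodule.mem_span_singleton_self _))
      · exact absurd (h.par_ne (neg_par l.hε) k2 (by rw [neg_neg]; exact p3) r3) b0
    obtain ⟨a, ha⟩ := Submodule.mem_span_singleton.1 (h2 h1)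
    exact ⟨a, ha.symm⟩
  -- two vectors
  obtain ⟨u, hu, u0⟩ := Submodule.exists_mem_ne_zero_of_ne_bot hw
  obtain ⟨v, hv, v0⟩ := Submodule.exists_mem_ne_zero_of_ne_bot hk
  obtain ⟨v', hv', hvv⟩ := h.dual hv v0
  have k1 : cl u s ≠ 0 := h.cl_ne hu u0 l.ne fun t' ht' =>
    h.kill hM (by rw [map_neg, hw0]; linarith) ht' t0
  obtain ⟨a, ha⟩ := g2 _ (h.cl_mem hu l.mem) (h.cl_par l.par u)
  obtain ⟨b, hb⟩ := g2 (cl v s3) (h.cl_mem' hv m3 (by abel)) (h.cl_par p3 v)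
  have a0 : a ≠ 0 := by
    rintro rfl
    rw [zero_smul] at ha
    exact k1 ha
  have hab : cl v s3 = (b * a⁻¹) • cl u s := by
    rw [ha, hb, smul_smul, mul_assoc, inv_mul_cancel₀ a0, mul_one]
  have hlev : 0 < φ (-(w + μ + ν)) := by
    rw [map_neg, map_add, map_add, hw0, zμ, zν]
    linarith
  have c1 : cl v' (cl v s3) = (2 : k) • s3 := by
    rw [h.swap, h.symm v' v, hvv, h.kill hM hlev hv' t3, map_zero, sub_zero, mul_one]
  have c2 : cl v' (cl u s) = 0 := by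
    have q1 : q v' u = 0 := h.q_zero hv' hu (by
      intro h1
      refine hn1 ?_
      have h2 : μ + ν = -(-(w + μ + ν) + w) := by abel
      rw [h2, h1, neg_zero])
    rw [h.swap, q1, h.kill hM hlev hv' t0, map_zero, sub_zero, mul_zero, zero_smul]
  rw [hab, map_smul, c2, smul_zero] at c1
  exact smul_ne_zero (two_ne_zero' k) e3 c1.symm

end Gs

end Pool.Agent.TH164.Spin
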