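import Pool.Agent.TH164.Spin.Ev6

/-!
# Graded spin modules: the full orthogonal Lie algebra
-/

set_option autoImplicit false
set_option linter.unusedSectionVars false
set_option linter.unusedVariables false

open Module LieModule LieAlgebra LieAlgebra.IsKilling

namespace Pool.Agent.TH164.Spin

variable {k L : Type*} [Field k] [IsAlgClosed k] [CharZero k] [LieRing L] [LieAlgebra k L]
  [FiniteDimensional k L] [LieAlgebra.IsKilling k L] {H : LieSubalgebra k L}
  [H.IsCartanSubalgebra]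
variable {S : Type*} [AddCommGroup S] [Module k S] [LieRingModule L S] [LieModule k L S]
  [FiniteDimensional k S] [Nontrivial S]
variable {T : Type*} [AddCommGroup T] [Module k T] [LieRingModule L T] [LieModule k L T]
  [FiniteDimensional k T]
variable {q : T →ₗ[k] T →ₗ[k] k} {cl : T →ₗ[k] S →ₗ[k] S} {σ : S →ₗ[k] S}

namespace Gs

theorem ad_symm (h : Gs H q cl σ) {φ : (H → k) →ₗ[ℚ] ℚ} {c : ℚ} {μ ν : H → k}
    {U : Submodule ℚ (H → k)} (A : Ad T φ c μ ν U) : Ad T φ c ν μ U where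
  hμ := A.hν
  hν := A.hμ
  np := A.np.symm
  mμ := A.mν
  mν := A.mμ
  sp u hu := by
    obtain ⟨a, b, hab⟩ := A.sp u hu
    exact ⟨b, a, by rw [hab, add_comm]⟩
  zero := A.zero
  tz := A.tz
  lvl := A.lvl
  dif := A.dif

/-- The weights `μ`, `ν` and a weight of the smallest level are orthogonal. -/
theorem ad_orth (h : Gs H q cl σ) {φ : (H → k) →ₗ[ℚ] ℚ} {c : ℚ} {μ ν : H → k}
    {U : Submodule ℚ (H → k)} (A : Ad T φ c μ ν U) {w : H → k} (hw : wt H T w ≠ ⊥)
    (hw0 : φ w = -c) : ν (cv (w + μ)) = 0 ∧ ν (cv (w - μ)) = 0 := by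
  obtain ⟨n1, n2⟩ := h.ad_np A hw0
  have ow := h.pl hw A.hμ n1
  constructor
  · obtain ⟨z, hz, hz1, hz2, hz3, hz4⟩ := h.minus A.hν ow.rp
    rcases (by omega : z = -1 ∨ z = 0 ∨ z = 1) with r | r | r
    · have h1 := hz4 r
      have h2 : ν + (w + μ) = w + μ + ν := by abel
      rw [h2] at h1
      exact absurd (h.no_b3 A hw hw0) h1
    · rw [hz, r, Int.cast_zero]
    · have h1 := h.tw_neg (hz3 r)
      have h2 : -(ν - (w + μ)) = w + μ + -ν := by abel
      rw [h2] at h1
      exact absurd (h.no_b3 (h.ad_neg_right A) hw hw0) h1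
  · obtain ⟨z, hz, hz1, hz2, hz3, hz4⟩ := h.minus A.hν ow.rm
    rcases (by omega : z = -1 ∨ z = 0 ∨ z = 1) with r | r | r
    · have h1 := hz4 r
      have h2 : ν + (w - μ) = w + -μ + ν := by abel
      rw [h2] at h1
      exact absurd (h.no_b3 (h.ad_neg_left A) hw hw0) h1
    · rw [hz, r, Int.cast_zero]
    · have h1 := h.tw_neg (hz3 r)
      have h2 : -(ν - (w - μ)) = w + -μ + -ν := by abel
      rw [h2] at h1
      exact absurd (h.no_b3 (h.ad_neg_left (h.ad_neg_right A)) hw hw0) h1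

/-- The sum of three weights is not a weight. -/
theorem no_sum (h : Gs H q cl σ) {κ μ ν : H → k} (hκ : wt H T κ ≠ ⊥) (hμ : wt H T μ ≠ ⊥)
    (hν : wt H T ν ≠ ⊥) (n1 : Np κ μ) (n2 : Np κ ν) (n3 : Np μ ν) :
    wt H T (κ + μ + ν) = ⊥ := by
  set U : Submodule ℚ (H → k) := Submodule.span ℚ {μ, ν} with hU
  have hκU : κ ∉ U := by
    intro h1
    obtain ⟨a, b, hab⟩ := Submodule.mem_span_pair.1 h1
    exact h.pl2 hμ hν n3 hκ hab.symm n1 n2
  obtain ⟨φ, f1, f2, f3⟩ := exists_phi2 U (Submodule.span ℚ (insert κ {μ, ν}))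
    (Submodule.span_mono (Set.subset_insert _ _))
    (F := {χ : H → k | wt H T χ ≠ ⊥} ∪ {χ : H → k | wt H L χ ≠ ⊥})
    ((finite_wt (H := H) (M := T)).union (finite_wt (H := H) (M := L)))
  have hφκ : φ κ ≠ 0 := f2 κ (Or.inl hκ) hκU
  obtain ⟨c, hc, w, hw, hw0⟩ := h.exists_lvl hκ hφκ
  have hc0 := hc.pos
  have hin : ∀ x, wt H T x ≠ ⊥ → φ x = -c → ∃ a : ℚ, ∃ u ∈ U, x = a • κ + u := by
    intro x hx hx0
    have h1 : x ∈ Submodule.span ℚ (insert κ ({μ, ν} : Set (H → k))) := by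
      by_contra h4
      have h6 := f3 x (Or.inl hx) h4 κ (Or.inl hκ) (Submodule.subset_span (by simp))
      have h7 := h.lvl_abs hc hκ hφκ
      rw [hx0, abs_neg, abs_of_pos hc0] at h6
      linarith
    obtain ⟨a, z, hz, hxz⟩ := Submodule.mem_span_insert.1 h1
    exact ⟨a, z, hz, hxz⟩
  have A : Ad T φ c μ ν U :=
    { hμ := hμ
      hν := hν
      np := n3
      mμ := Submodule.subset_span (by simp)
      mν := Submodule.subset_span (by simp)
      sp := fun u hu => by
        obtain ⟨a, b, hab⟩ := Submodule.mem_span_pair.1 hu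
        exact ⟨a, b, hab.symm⟩
      zero := f1
      tz := fun χ hχ h3 => by
        by_contra h4
        exact f2 χ (Or.inl hχ) h4 h3
      lvl := hc
      dif := fun x y hx hy hx0 hy0 => by
        obtain ⟨a, u, hu, rfl⟩ := hin x hx hx0
        obtain ⟨b, v, hv, rfl⟩ := hin y hy hy0
        rw [map_add, map_smul, f1 u hu, add_zero, smul_eq_mul] at hx0
        rw [map_add, map_smul, f1 v hv, add_zero, smul_eq_mul] at hy0
        have h1 : a = b := mul_right_cancel₀ hφκ (hx0.trans hy0.symm)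
        rw [h1, add_sub_add_left_eq_sub]
        exact U.sub_mem hv hu }
  obtain ⟨a0, u0, hu0, hwe⟩ := hin w hw hw0
  have ha0 : a0 ≠ 0 := by
    rintro rfl
    rw [hwe, zero_smul, zero_add, f1 u0 hu0] at hw0
    linarith
  obtain ⟨p, r, hpr⟩ := A.sp u0 hu0
  obtain ⟨x, a, b, hκe⟩ : ∃ x a b : ℚ, κ = x • w + a • μ + b • ν := by
    refine ⟨a0⁻¹, -(a0⁻¹ * p), -(a0⁻¹ * r), ?_⟩
    rw [hwe, hpr]
    have : a0⁻¹ • (a0 • κ + (p • μ + r • ν)) = κ + (a0⁻¹ * p) • μ + (a0⁻¹ * r) • ν := by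
      rw [smul_add, smul_smul, inv_mul_cancel₀ ha0, one_smul, smul_add, smul_smul, smul_smul,
        add_assoc]
    rw [this, neg_smul, neg_smul]
    abel
  have hx0 : x ≠ 0 := by
    rintro rfl
    rw [zero_smul, zero_add] at hκe
    exact h.pl2 hμ hν n3 hκ hκe n1 n2
  obtain ⟨w1, w2⟩ := h.ad_np A hw0
  have ow1 := h.pl hw hμ w1
  have ow2 := h.pl hw hν w2
  obtain ⟨v1, v2⟩ := h.ad_orth A hw hw0
  obtain ⟨v3, v4⟩ := h.ad_orth (h.ad_symm A) hw hw0
  obtain ⟨z1, y1, i1, j1, -, -⟩ := h.minus hκ ow1.rp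
  obtain ⟨z2, y2, i2, j2, -, -⟩ := h.minus hκ ow1.rm
  obtain ⟨z3, y3, i3, j3, -, -⟩ := h.minus hκ ow2.rp
  obtain ⟨z4, y4, i4, j4, -, -⟩ := h.minus hκ ow2.rm
  have E1 : (z1 : ℚ) = x + a := by
    have h1 := y1
    rw [hκe, Pi.add_apply, Pi.add_apply, Pi.smul_apply, Pi.smul_apply, Pi.smul_apply, ow1.np,
      ow1.kp, v1, Rat.smul_def, Rat.smul_def, Rat.smul_def] at h1
    have h2 : ((x + a : ℚ) : k) = ((z1 : ℚ) : k) := by
      push_cast
      linear_combination h1
    exact (Rat.cast_injective h2).symm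
  have E2 : (z2 : ℚ) = x - a := by
    have h1 := y2
    rw [hκe, Pi.add_apply, Pi.add_apply, Pi.smul_apply, Pi.smul_apply, Pi.smul_apply, ow1.nm,
      ow1.km, v2, Rat.smul_def, Rat.smul_def, Rat.smul_def] at h1
    have h2 : ((x - a : ℚ) : k) = ((z2 : ℚ) : k) := by
      push_cast
      linear_combination h1
    exact (Rat.cast_injective h2).symm
  have E3 : (z3 : ℚ) = x + b := by
    have h1 := y3
    rw [hκe, Pi.add_apply, Pi.add_apply, Pi.smul_apply, Pi.smul_apply, Pi.smul_apply, ow2.np,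
      ow2.kp, v3, Rat.smul_def, Rat.smul_def, Rat.smul_def] at h1
    have h2 : ((x + b : ℚ) : k) = ((z3 : ℚ) : k) := by
      push_cast
      linear_combination h1
    exact (Rat.cast_injective h2).symm
  have E4 : (z4 : ℚ) = x - b := by
    have h1 := y4
    rw [hκe, Pi.add_apply, Pi.add_apply, Pi.smul_apply, Pi.smul_apply, Pi.smul_apply, ow2.nm,
      ow2.km, v4, Rat.smul_def, Rat.smul_def, Rat.smul_def] at h1
    have h2 : ((x - b : ℚ) : k) = ((z4 : ℚ) : k) := by
      push_cast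
      linear_combination h1
    exact (Rat.cast_injective h2).symm
  have hφe : φ κ = -(x * c) := by
    rw [hκe, map_add, map_add, map_smul, map_smul, map_smul, f1 μ A.mμ, f1 ν A.mν, hw0]
    simp
  have hlv := h.lvl_abs hc hκ hφκ
  rw [hφe, abs_neg, abs_mul, abs_of_pos hc0] at hlv
  have hx1 : 1 ≤ |x| := by
    by_contra h1
    push Not at h1
    nlinarith
  have hz12 : (z1 : ℚ) + z2 = 2 * x := by rw [E1, E2]; ring
  have hz34 : (z3 : ℚ) + z4 = 2 * x := by rw [E3, E4]; ring
  have hb1 : (z1 : ℚ) ≤ 1 ∧ (z2 : ℚ) ≤ 1 ∧ (z3 : ℚ) ≤ 1 ∧ (z4 : ℚ) ≤ 1 := by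
    refine ⟨?_, ?_, ?_, ?_⟩ <;> exact_mod_cast (by assumption)
  have hb2 : (-1 : ℚ) ≤ z1 ∧ (-1 : ℚ) ≤ z2 ∧ (-1 : ℚ) ≤ z3 ∧ (-1 : ℚ) ≤ z4 := by
    refine ⟨?_, ?_, ?_, ?_⟩ <;> exact_mod_cast (by assumption)
  rcases le_abs'.1 hx1 with h1 | h1
  · have hx : x = -1 := by linarith [hb2.1, hb2.2.1]
    have ha : a = 0 := by
      have : (z1 : ℚ) = -1 := by linarith [hb2.1, hb2.2.1]
      rw [this, hx] at E1
      linarith
    have hb : b = 0 := by
      have : (z3 : ℚ) = -1 := by linarith [hb2.2.2.1, hb2.2.2.2]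
      rw [this, hx] at E3
      linarith
    rw [hx, ha, hb, zero_smul, zero_smul, add_zero, add_zero, neg_one_smul] at hκe
    by_contra h2
    have h3 := h.tw_neg h2
    have h4 : -(κ + μ + ν) = w + -μ + -ν := by rw [hκe]; abel
    rw [h4] at h3
    exact h3 (h.no_b3 (h.ad_neg_left (h.ad_neg_right A)) hw hw0)
  · have hx : x = 1 := by linarith [hb1.1, hb1.2.1]
    have ha : a = 0 := by
      have : (z1 : ℚ) = 1 := by linarith [hb1.1, hb1.2.1]
      rw [this, hx] at E1
      linarith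
    have hb : b = 0 := by
      have : (z3 : ℚ) = 1 := by linarith [hb1.2.2.1, hb1.2.2.2]
      rw [this, hx] at E3
      linarith
    rw [hx, ha, hb, zero_smul, zero_smul, add_zero, add_zero, one_smul] at hκe
    rw [hκe]
    exact h.no_b3 A hw hw0

theorem com_lie (h : Gs H q cl σ) (u v t : T) (m : S) :
    com cl u v (cl t m) - cl t (com cl u v m) =
      (4 : k) • (q v t • cl u m - q u t • cl v m) := by
  have e1 : ∀ x y : T, ∀ m : S, cl x (cl y m) = (2 * q x y) • m - cl y (cl x m) := by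
    intro x y m
    rw [← h.anti x y m, add_sub_cancel_right]
  rw [com_apply, com_apply, map_sub, e1 v t m, e1 u t m, map_sub, map_sub, map_smul, map_smul,
    e1 u t (cl v m), e1 v t (cl u m)]
  module

theorem zero_com (h : Gs H q cl σ) {t s : T} (h1 : t = 0 ∨ s = 0) :
    ∃ x : L, ∀ m : S, ⁅x, m⁆ = com cl t s m := by
  refine ⟨0, fun m => ?_⟩
  rcases h1 with rfl | rfl
  · rw [zero_lie, com_apply, map_zero, LinearMap.zero_apply, LinearMap.zero_apply, map_zero,
      sub_zero]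
  · rw [zero_lie, com_apply, map_zero, LinearMap.zero_apply, LinearMap.zero_apply, map_zero,
      sub_zero]

/-- The root vectors. -/
theorem root_com (h : Gs H q cl σ) {μ ν : H → k} (hn : Np μ ν) {u v : T} (hu : u ∈ wt H T μ)
    (hv : v ∈ wt H T ν) : ∃ x : L, ∀ m : S, ⁅x, m⁆ = com cl u v m := by
  by_cases hu0 : u = 0
  · exact h.zero_com (Or.inl hu0)
  by_cases hv0 : v = 0
  · exact h.zero_com (Or.inr hv0)
  have hμ : wt H T μ ≠ ⊥ := (Submodule.ne_bot_iff _).2 ⟨u, hu, hu0⟩
  have hν : wt H T ν ≠ ⊥ := (Submodule.ne_bot_iff _).2 ⟨v, hv, hv0⟩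
  have o := h.pl hμ hν hn
  have hn1 := h.add_ne_zero_of hn
  have hn2 := h.sub_ne_zero_of hn
  obtain ⟨e, f, t⟩ := exists_tri o.rp
  obtain ⟨u', hu', huu⟩ := h.dual hu hu0
  obtain ⟨v', hv', hvv⟩ := h.dual hv hv0
  have hu0' : u' ≠ 0 := by
    rintro rfl
    rw [map_zero] at huu
    exact zero_ne_one huu
  have hv0' : v' ≠ 0 := by
    rintro rfl
    rw [map_zero] at hvv
    exact zero_ne_one hvv
  have h1 : ⁅e, v'⁆ ≠ 0 := t.inj' hv' hv0' (z := -1) (by
    rw [Pi.neg_apply, o.kp]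
    push_cast
    rfl) (by norm_num)
  have h2 : ⁅e, v'⁆ ∈ wt H T μ := lie_mem_wt' t.he hv' (by abel)
  have h3 : ⁅e, u'⁆ ∈ wt H T ν := lie_mem_wt' t.he hu' (by abel)
  obtain ⟨a, ha⟩ := h.one hu hu0 h2
  obtain ⟨b, hb⟩ := h.one hv hv0 h3
  have hb' : b = -a := by
    have h4 := h.inv e v' u'
    rw [ha, hb, map_smul, LinearMap.smul_apply, huu, map_smul, h.symm v' v, hvv, smul_eq_mul,
      smul_eq_mul] at h4
    linear_combination h4
  have ha0 : a ≠ 0 := by
    rintro rfl
    rw [zero_smul] at ha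
    exact h1 ha
  have q1 : q u v' = 0 := h.q_zero hu hv' (by rwa [← sub_eq_add_neg])
  have q2 : q v u' = 0 := h.q_zero hv hu' (by
    rw [← sub_eq_add_neg]
    exact sub_ne_zero.2 hn.1.symm)
  have key : ∀ s : T, ⁅e, s⁆ = a • (q v s • u - q u s • v) := by
    intro s
    refine h.dT.induction (p := fun s => ⁅e, s⁆ = a • (q v s • u - q u s • v)) s ?_ ?_ ?_
    · intro γ s hs
      by_cases hs0 : s = 0
      · rw [hs0, lie_zero, map_zero, map_zero, zero_smul, zero_smul, sub_zero, smul_zero]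
      have hγ : wt H T γ ≠ ⊥ := (Submodule.ne_bot_iff _).2 ⟨s, hs, hs0⟩
      by_cases g1 : γ = -ν
      · rw [g1] at hs
        obtain ⟨c, rfl⟩ := h.one hv' hv0' hs
        rw [lie_smul, ha, map_smul, map_smul, hvv, q1, smul_zero, zero_smul, sub_zero,
          smul_eq_mul, mul_one, smul_comm]
      by_cases g2 : γ = -μ
      · rw [g2] at hs
        obtain ⟨c, rfl⟩ := h.one hu' hu0' hs
        rw [lie_smul, hb, map_smul, map_smul, huu, q2, smul_zero, zero_smul, zero_sub,
          smul_eq_mul, mul_one, smul_neg, hb', neg_smul, smul_neg, smul_comm]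
      have g3 : wt H T (γ + (μ + ν)) = ⊥ := by
        by_contra h4
        by_cases g4 : γ = μ
        · rw [g4] at h4
          refine h.pl2 hμ hν hn h4 (a := 2) (b := 1) (by module) ⟨?_, ?_⟩ ⟨?_, ?_⟩
          · intro h5
            exact hn1 (by rwa [add_eq_left] at h5)
          · intro h5
            refine h.np_of hμ hν hn 3 1 three_ne_zero ?_
            have h6 : (3 : ℚ) • μ + (1 : ℚ) • ν = (μ + (μ + ν)) - -μ := by module
            rw [h6, h5, sub_self]
          · intro h5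
            refine h.ne_zero hμ (two_zero ?_)
            have h6 : μ + μ = (μ + (μ + ν)) - ν := by abel
            rw [h6, h5, sub_self]
          · intro h5
            refine hn1 (two_zero ?_)
            have h6 : μ + ν + (μ + ν) = (μ + (μ + ν)) - -ν := by abel
            rw [h6, h5, sub_self]
        by_cases g5 : γ = ν
        · rw [g5] at h4
          refine h.pl2 hμ hν hn h4 (a := 1) (b := 2) (by module) ⟨?_, ?_⟩ ⟨?_, ?_⟩
          · intro h5
            refine h.ne_zero hν (two_zero ?_)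
            have h6 : ν + ν = (ν + (μ + ν)) - μ := by abel
            rw [h6, h5, sub_self]
          · intro h5
            refine hn1 (two_zero ?_)
            have h6 : μ + ν + (μ + ν) = (ν + (μ + ν)) - -μ := by abel
            rw [h6, h5, sub_self]
          · intro h5
            exact hn1 (by rwa [add_eq_left] at h5)
          · intro h5
            refine h.np_of hμ hν hn 1 3 one_ne_zero ?_
            have h6 : (1 : ℚ) • μ + (3 : ℚ) • ν = (ν + (μ + ν)) - -ν := by module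
            rw [h6, h5, sub_self]
        rw [← add_assoc, h.no_sum hγ hμ hν ⟨g4, g2⟩ ⟨g5, g1⟩ hn] at h4
        exact h4 rfl
      have h4 : ⁅e, s⁆ ∈ wt H T (γ + (μ + ν)) := t.lie_e hs
      rw [g3] at h4
      rw [(Submodule.mem_bot k).1 h4, h.q_zero hv hs (fun h5 => g1 (neg_eq_of_add_eq_zero_right
        h5).symm), h.q_zero hu hs (fun h5 => g2 (neg_eq_of_add_eq_zero_right h5).symm), zero_smul,
        zero_smul, sub_zero, smul_zero]
    · rw [lie_zero, map_zero, map_zero, zero_smul, zero_smul, sub_zero, smul_zero]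
    · intro x y hx hy
      rw [lie_add, hx, hy, map_add, map_add, add_smul, add_smul, ← smul_add]
      congr 1
      abel
  -- the difference commutes with all vectors
  set D : S →ₗ[k] S := (4 : k) • toEnd k L S e - a • com cl u v with hD
  have hDa : ∀ m, D m = (4 : k) • ⁅e, m⁆ - a • com cl u v m := fun m => rfl
  have hcomm : ∀ s m, D (cl s m) = cl s (D m) := by
    intro s m
    have h1 := h.com_lie u v s m
    rw [sub_eq_iff_eq_add] at h1
    rw [hDa, hDa, h.lie, key, h1, map_sub, map_smul, map_smul]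
    simp only [map_sub, map_smul, LinearMap.sub_apply, LinearMap.smul_apply, smul_add, smul_sub]
    module
  have hDm : ∀ χ, ∀ m ∈ wt H S χ, D m ∈ wt H S (χ + (μ + ν)) := by
    intro χ m hm
    rw [hDa]
    refine Submodule.sub_mem _ (Submodule.smul_mem _ _ (t.lie_e hm)) (Submodule.smul_mem _ _ ?_)
    rw [com_apply]
    refine Submodule.sub_mem _ ?_ ?_
    · exact h.cl_mem' hu (h.cl_mem hv hm) (by abel)
    · exact h.cl_mem' hv (h.cl_mem hu hm) (by abel)
  have hker : LinearMap.ker D = ⊤ := by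
    refine h.irc _ (fun s m hm => ?_) ?_
    · rw [LinearMap.mem_ker] at hm ⊢
      rw [hcomm, hm, map_zero]
    · obtain ⟨χ, hχ⟩ := exists_wt_ne h.dS
      obtain ⟨p, hp1, hp2⟩ := exists_string_top t.rt.1 hχ
      obtain ⟨m, hm, hm0⟩ := Submodule.exists_mem_ne_zero_of_ne_bot hp1
      refine (Submodule.ne_bot_iff _).2 ⟨m, ?_, hm0⟩
      have h1 := hDm _ m hm
      rw [add_assoc, ← succ_nsmul, hp2] at h1
      exact LinearMap.mem_ker.2 ((Submodule.mem_bot k).1 h1)
  refine ⟨(a⁻¹ * 4) • e, fun m => ?_⟩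
  have h1 : D m = 0 := by
    have : m ∈ LinearMap.ker D := by
      rw [hker]
      trivial
    exact LinearMap.mem_ker.1 this
  rw [hDa, sub_eq_zero] at h1
  rw [smul_lie, mul_smul, h1, smul_smul, inv_mul_cancel₀ ha0, one_smul]

/-- **The classification, even case.** -/
theorem full (h : Gs H q cl σ) (h3 : 3 ≤ finrank k T) (t s : T) :
    ∃ x : L, ∀ m : S, ⁅x, m⁆ = com cl t s m := by
  have hadd1 : ∀ a b s : T, (∃ x : L, ∀ m : S, ⁅x, m⁆ = com cl a s m) →
      (∃ x : L, ∀ m : S, ⁅x, m⁆ = com cl b s m) →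
      ∃ x : L, ∀ m : S, ⁅x, m⁆ = com cl (a + b) s m := by
    rintro a b s ⟨x, hx⟩ ⟨y, hy⟩
    refine ⟨x + y, fun m => ?_⟩
    rw [add_lie, hx, hy]
    simp only [com_apply, map_add, LinearMap.add_apply]
    abel
  have hadd2 : ∀ a b s : T, (∃ x : L, ∀ m : S, ⁅x, m⁆ = com cl s a m) →
      (∃ x : L, ∀ m : S, ⁅x, m⁆ = com cl s b m) →
      ∃ x : L, ∀ m : S, ⁅x, m⁆ = com cl s (a + b) m := by
    rintro a b s ⟨x, hx⟩ ⟨y, hy⟩
    refine ⟨x + y, fun m => ?_⟩
    rw [add_lie, hx, hy]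
    simp only [com_apply, map_add, LinearMap.add_apply]
    abel
  refine h.dT.induction (p := fun t => ∃ x : L, ∀ m : S, ⁅x, m⁆ = com cl t s m) t ?_
    (h.zero_com (Or.inl rfl)) (fun a b => hadd1 a b s)
  intro μ t ht
  refine h.dT.induction (p := fun s => ∃ x : L, ∀ m : S, ⁅x, m⁆ = com cl t s m) s ?_
    (h.zero_com (Or.inr rfl)) (fun a b => hadd2 a b t)
  intro ν s hs
  by_cases ht0 : t = 0
  · exact h.zero_com (Or.inl ht0)
  by_cases hs0 : s = 0
  · exact h.zero_com (Or.inr hs0)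
  by_cases h1 : μ = ν
  · rw [← h1] at hs
    obtain ⟨c, rfl⟩ := h.one ht ht0 hs
    refine ⟨0, fun m => ?_⟩
    rw [zero_lie, com_apply, map_smul, LinearMap.smul_apply, LinearMap.smul_apply, map_smul,
      sub_self]
  by_cases h2 : μ = -ν
  · have hνe : ν = -μ := by rw [h2, neg_neg]
    rw [hνe] at hs
    -- another weight
    obtain ⟨κ, hκ, hκn⟩ : ∃ κ, wt H T κ ≠ ⊥ ∧ Np κ μ := by
      by_contra hcon
      push Not at hcon
      have h4 : (⊤ : Submodule k T) ≤ Submodule.span k {t, s} := by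
        intro r _
        refine h.dT.induction (p := fun r => r ∈ Submodule.span k {t, s}) r ?_
          (Submodule.zero_mem _) (fun a b => Submodule.add_mem _)
        intro γ r hr
        by_cases hr0 : r = 0
        · rw [hr0]
          exact Submodule.zero_mem _
        by_cases g1 : γ = μ
        · rw [g1] at hr
          obtain ⟨c, rfl⟩ := h.one ht ht0 hr
          exact Submodule.smul_mem _ _ (Submodule.subset_span (by simp))
        by_cases g2 : γ = -μ
        · rw [g2] at hr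
          obtain ⟨c, rfl⟩ := h.one hs hs0 hr
          exact Submodule.smul_mem _ _ (Submodule.subset_span (by simp))
        exact absurd ⟨g1, g2⟩ (hcon γ ((Submodule.ne_bot_iff _).2 ⟨r, hr, hr0⟩))
      have h5 : finrank k T ≤ 2 := by
        classical
        have h6 := finrank_span_finset_le_card (R := k) ({t, s} : Finset T)
        rw [Finset.coe_pair, Set.finrank, top_le_iff.1 h4, finrank_top] at h6
        exact h6.trans Finset.card_le_two
      omega
    obtain ⟨w, hw, hw0⟩ := Submodule.exists_mem_ne_zero_of_ne_bot hκ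
    obtain ⟨w', hw', hww⟩ := h.dual hw hw0
    obtain ⟨x1, hx1⟩ := h.root_com hκn.symm.neg_right ht hw'
    obtain ⟨y1, hy1⟩ := h.root_com hκn.neg_right hw hs
    obtain ⟨x2, hx2⟩ := h.root_com hκn.symm ht hw
    obtain ⟨y2, hy2⟩ := h.root_com hκn.neg_left.neg_right hw' hs
    have hq1 : q t w = 0 := h.q_zero ht hw (h.add_ne_zero_of hκn.symm)
    have hq2 : q t w' = 0 := h.q_zero ht hw' (h.add_ne_zero_of hκn.symm.neg_right)
    have hq3 : q w' s = 0 := h.q_zero hw' hs (h.add_ne_zero_of hκn.neg_left.neg_right)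
    have hq4 : q w s = 0 := h.q_zero hw hs (h.add_ne_zero_of hκn.neg_right)
    have hA : ∀ u v r m, com cl u v (cl r m) = cl r (com cl u v m) +
        (4 : k) • (q v r • cl u m - q u r • cl v m) := by
      intro u v r m
      rw [← h.com_lie u v r m]
      abel
    refine ⟨(8 : k)⁻¹ • (⁅x1, y1⁆ + ⁅x2, y2⁆), fun m => ?_⟩
    have g1 : ⁅⁅x1, y1⁆, m⁆ = (4 : k) • com cl t s m - (4 * q t s) • com cl w w' m := by
      rw [lie_lie, hy1, hx1, hx1, hy1]
      simp only [com_apply w s, map_sub, hA]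
      rw [hq1, hq3, h.symm w' w, hww]
      simp only [com_apply, map_sub, map_add, map_smul, zero_smul, one_smul, map_zero]
      module
    have g2 : ⁅⁅x2, y2⁆, m⁆ = (4 : k) • com cl t s m + (4 * q t s) • com cl w w' m := by
      rw [lie_lie, hy2, hx2, hx2, hy2]
      simp only [com_apply w' s, map_sub, hA]
      rw [hq2, hq4, hww]
      simp only [com_apply, map_sub, map_add, map_smul, zero_smul, one_smul, map_zero]
      module
    rw [smul_lie, add_lie, g1, g2]
    module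
  · exact h.root_com ⟨h1, h2⟩ ht hs

end Gs

end Pool.Agent.TH164.Spin
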