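import Pool.Agent.TH164.Spin.Full

/-!
# Lie algebras of operators
-/

set_option autoImplicit false
set_option linter.unusedSectionVars false
set_option linter.unusedVariables false

open Module LieModule LieAlgebra LieAlgebra.IsKilling

attribute [local instance 100] LieRing.ofAssociativeRing

namespace Pool.Agent.TH164.Spin

variable {k : Type*} [Field k] [IsAlgClosed k] [CharZero k]
variable {S : Type*} [AddCommGroup S] [Module k S] [FiniteDimensional k S] [Nontrivial S]

/-- Elements of a Cartan subalgebra of an irreducible Killing Lie algebra of operators are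
semisimple operators. -/
theorem isSemisimple_of_mem (L : LieSubalgebra k (End k S)) [LieAlgebra.IsKilling k L]
    (irr : ∀ W : Submodule k S, (∀ x ∈ L, ∀ m ∈ W, x m ∈ W) → W ≠ ⊥ → W = ⊤)
    (H : LieSubalgebra k L) [H.IsCartanSubalgebra] (h : H) :
    (((h : L) : End k S)).IsSemisimple := by
  set x : End k S := ((h : L) : End k S) with hx
  obtain ⟨n, hn, s, hs, hnil, hss, hxns⟩ := x.exists_isNilpotent_isSemisimple
  have hc : Commute n s := Algebra.commute_of_mem_adjoin_singleton_of_commute hs
      (Algebra.commute_of_mem_adjoin_self hn).symm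
  have h1 : ad k (End k S) n ∈ Algebra.adjoin k {ad k (End k S) x} := by
    rw [hxns]
    exact LieAlgebra.ad_mem_adjoin_of_isNilpotent hc hnil hss
  have h2 : ∃ B ∈ Algebra.adjoin k {ad k L (h : L)}, ∀ y : L,
      ad k (End k S) n (y : End k S) = ((B y : L) : End k S) := by
    refine Algebra.adjoin_induction (p := fun A _ => ∃ B ∈ Algebra.adjoin k {ad k L (h : L)},
      ∀ y : L, A (y : End k S) = ((B y : L) : End k S)) ?_ ?_ ?_ ?_ h1
    · rintro _ rfl
      exact ⟨_, Algebra.self_mem_adjoin_singleton k _, fun y => rfl⟩
    · intro r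
      refine ⟨algebraMap k _ r, Subalgebra.algebraMap_mem _ r, fun y => ?_⟩
      rw [Module.algebraMap_end_apply, Module.algebraMap_end_apply]
      rfl
    · rintro A A' _ _ ⟨B, hB, h3⟩ ⟨B', hB', h4⟩
      refine ⟨B + B', Subalgebra.add_mem _ hB hB', fun y => ?_⟩
      rw [LinearMap.add_apply, LinearMap.add_apply, h3, h4]
      rfl
    · rintro A A' _ _ ⟨B, hB, h3⟩ ⟨B', hB', h4⟩
      refine ⟨B * B', Subalgebra.mul_mem _ hB hB', fun y => ?_⟩
      rw [Module.End.mul_apply, Module.End.mul_apply, h4, h3]
  obtain ⟨B, hB, h3⟩ := h2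
  have hBss : B.IsSemisimple :=
    Module.End.IsSemisimple.of_mem_adjoin_singleton
      (isSemisimple_ad_of_mem_isCartanSubalgebra h.2) hB
  have hBn : IsNilpotent B := by
    obtain ⟨p, hp⟩ := LieAlgebra.ad_nilpotent_of_nilpotent (R := k) hnil
    refine ⟨p, LinearMap.ext fun y => Subtype.ext ?_⟩
    have h4 : ∀ q : ℕ, ∀ y : L, ((ad k (End k S) n) ^ q) (y : End k S) =
        (((B ^ q) y : L) : End k S) := by
      intro q
      induction q with
      | zero =>
        intro y
        rfl
      | succ q ih =>
        intro y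
        rw [pow_succ, pow_succ, Module.End.mul_apply, Module.End.mul_apply, h3, ih]
    rw [← h4, hp]
    rfl
  have hB0 : B = 0 := Module.End.eq_zero_of_isNilpotent_isSemisimple hBn hBss
  have h5 : ∀ y ∈ L, ∀ m : S, n (y m) = y (n m) := by
    intro y hy m
    have h6 := h3 ⟨y, hy⟩
    rw [hB0] at h6
    have h7 : n * y - y * n = 0 := h6
    exact LinearMap.congr_fun (sub_eq_zero.1 h7) m
  have h6 : LinearMap.ker n = ⊤ := by
    refine irr _ (fun y hy m hm => ?_) ?_
    · rw [LinearMap.mem_ker] at hm ⊢
      rw [h5 y hy, hm, map_zero]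
    · intro h7
      obtain ⟨p, hp⟩ := hnil
      have h8 : Function.Injective (n ^ p) := by
        rw [Module.End.coe_pow]
        exact (LinearMap.ker_eq_bot.1 h7).iterate p
      rw [hp] at h8
      obtain ⟨m, hm⟩ := exists_ne (0 : S)
      exact hm (h8 rfl)
  have h7 : n = 0 := LinearMap.ker_eq_top.1 h6
  rw [hxns, h7, zero_add]
  exact hss

section diag

variable {L : Type*} [LieRing L] [LieAlgebra k L] {H : LieSubalgebra k L}
  [LieRing.IsNilpotent H]
variable [LieRingModule L S] [LieModule k L S]
variable {T : Type*} [AddCommGroup T] [Module k T] [LieRingModule L T] [LieModule k L T]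
  [FiniteDimensional k T]

theorem mem_eigen {x : End k S} (hx : x.IsSemisimple) {c : k} {m : S} {N : ℕ}
    (h : ((x - algebraMap k (End k S) c) ^ N) m = 0) : x m = c • m := by
  have h1 : m ∈ x.maxGenEigenspace c := by
    rw [Module.End.mem_maxGenEigenspace]
    refine ⟨N, ?_⟩
    rw [← h]
    congr 2
  rw [hx.isFinitelySemisimple.maxGenEigenspace_eq_eigenspace] at h1
  exact Module.End.mem_eigenspace_iff.1 h1

theorem diag_S (hss : ∀ h : H, (toEnd k L S (h : L)).IsSemisimple) : Diag H S := by
  have h1 := LieModule.iSup_genWeightSpace_eq_top k H S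
  have h2 : (⨆ χ : H → k, (LieModule.genWeightSpace S χ : Submodule k S)) = ⊤ := by
    rw [← LieSubmodule.iSup_toSubmodule, h1]
    rfl
  unfold Diag
  rw [eq_top_iff, ← h2]
  refine iSup_mono fun χ m hm h => ?_
  have h3 : m ∈ genWeightSpace S χ := hm
  rw [LieModule.mem_genWeightSpace] at h3
  obtain ⟨N, hN⟩ := h3 h
  refine mem_eigen (hss h) (N := N) ?_
  rw [← hN]
  congr 2

theorem diag_T (hss : ∀ h : H, (toEnd k L S (h : L)).IsSemisimple)
    (cl : T →ₗ[k] S →ₗ[k] S) (hcl : Function.Injective cl)
    (hlie : ∀ (x : L) t m, ⁅x, cl t m⁆ = cl ⁅x, t⁆ m + cl t ⁅x, m⁆) : Diag H T := by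
  have hS := diag_S hss
  have h1 := LieModule.iSup_genWeightSpace_eq_top k H T
  have h2 : (⨆ χ : H → k, (LieModule.genWeightSpace T χ : Submodule k T)) = ⊤ := by
    rw [← LieSubmodule.iSup_toSubmodule, h1]
    rfl
  unfold Diag
  rw [eq_top_iff, ← h2]
  refine iSup_mono fun χ t ht h => ?_
  have h3 : t ∈ genWeightSpace T χ := ht
  rw [LieModule.mem_genWeightSpace] at h3
  obtain ⟨N, hN⟩ := h3 h
  refine hcl (LinearMap.ext fun m => ?_)
  refine hS.induction (p := fun m => cl ⁅(h : L), t⁆ m = cl (χ h • t) m) m ?_ ?_ ?_
  · intro ψ m hm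
    have h4 : ∀ q : ℕ, ∀ t : T, ((toEnd k L S (h : L) - algebraMap k (End k S) (χ h + ψ h)) ^ q)
        (cl t m) = cl (((toEnd k H T h - algebraMap k (End k T) (χ h)) ^ q) t) m := by
      intro q
      induction q with
      | zero =>
        intro t
        rfl
      | succ q ih =>
        intro t
        rw [pow_succ, pow_succ, Module.End.mul_apply, Module.End.mul_apply, ← ih]
        congr 1
        rw [LinearMap.sub_apply, LinearMap.sub_apply, Module.algebraMap_end_apply,
          Module.algebraMap_end_apply, toEnd_apply_apply, hlie, hm h, map_sub,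
          LinearMap.sub_apply, map_smul, map_smul, LinearMap.smul_apply, add_smul]
        change cl ⁅(h : L), t⁆ m + _ - _ = cl ⁅(h : L), t⁆ m - _
        abel
    have h5 : ((toEnd k H T h - algebraMap k (End k T) (χ h)) ^ N) t = 0 := by
      rw [← hN]
      congr 2
    have h6 := h4 N t
    rw [h5, map_zero, LinearMap.zero_apply] at h6
    have h7 := mem_eigen (hss h) h6
    rw [toEnd_apply_apply, hlie, hm h, map_smul, add_smul, add_left_inj] at h7
    rw [h7, map_smul, LinearMap.smul_apply]
  · rw [map_zero, map_zero]
  · intro a b ha hb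
    rw [map_add, map_add, ha, hb]

end diag

/-- **Irreducible Lie algebras of operators in the orthogonal Lie algebra are everything**, if the
dimension is not five. -/
theorem spin_full (L : LieSubalgebra k (End k S)) (T : Submodule k (End k S))
    (q : T →ₗ[k] T →ₗ[k] k)
    (hq : ∀ t s : T, (t : End k S) * s + (s : End k S) * t = algebraMap k (End k S) (2 * q t s))
    (nd : ∀ t, (∀ s, q t s = 0) → t = 0)
    (hL : ∀ x ∈ L, x ∈ Submodule.span k {y | ∃ t s : T, y = (t : End k S) * s - s * t})
    (irr : ∀ W : Submodule k S, (∀ x ∈ L, ∀ m ∈ W, x m ∈ W) → W ≠ ⊥ → W = ⊤)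
    (h5 : finrank k T ≠ 5) (t s : T) : (t : End k S) * s - s * t ∈ L := by
  -- the action on vectors
  have hcom : ∀ t s r : T, ((t : End k S) * s - s * t) * r - r * ((t : End k S) * s - s * t) =
      (((4 : k) • (q s r • t - q t r • s) : T) : End k S) := by
    intro t s r
    have e1 := hq s r
    have e2 := hq t r
    have f1 : (s : End k S) * r = algebraMap k _ (2 * q s r) - (r : End k S) * s :=
      eq_sub_of_add_eq e1
    have f2 : (t : End k S) * r = algebraMap k _ (2 * q t r) - (r : End k S) * t :=
      eq_sub_of_add_eq e2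
    have g1 : (t : End k S) * s * r = (2 * q s r) • (t : End k S) -
        (2 * q t r) • (s : End k S) + r * ((t : End k S) * s) := by
      rw [mul_assoc, f1, mul_sub, ← mul_assoc, f2, sub_mul, ← Algebra.commutes, ← Algebra.smul_def,
        ← Algebra.smul_def, mul_assoc]
      abel
    have g2 : (s : End k S) * t * r = (2 * q t r) • (s : End k S) -
        (2 * q s r) • (t : End k S) + r * ((s : End k S) * t) := by
      rw [mul_assoc, f2, mul_sub, ← mul_assoc, f1, sub_mul, ← Algebra.commutes, ← Algebra.smul_def,
        ← Algebra.smul_def, mul_assoc]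
      abel
    rw [sub_mul, g1, g2, mul_sub, Submodule.coe_smul, Submodule.coe_sub, Submodule.coe_smul,
      Submodule.coe_smul]
    module
  have hT : ∀ x ∈ L, ∀ t : T, x * t - t * x ∈ T := by
    intro x hx t
    have h1 := hL x hx
    clear hx
    induction h1 using Submodule.span_induction with
    | mem x hx =>
      obtain ⟨a, b, rfl⟩ := hx
      rw [hcom a b t]
      exact Subtype.property _
    | zero =>
      rw [zero_mul, mul_zero, sub_zero]
      exact Submodule.zero_mem _
    | add a b _ _ ha hb =>
      rw [add_mul, mul_add, add_sub_add_comm]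
      exact Submodule.add_mem _ ha hb
    | smul c a _ ha =>
      rw [smul_mul_assoc, mul_smul_comm, ← smul_sub]
      exact Submodule.smul_mem _ _ ha
  letI i1 : LieRingModule L T :=
    { bracket := fun x t => ⟨(x : End k S) * t - t * x, hT x x.2 t⟩
      add_lie := fun x y t => Subtype.ext (by
        change ((x : End k S) + y) * t - t * ((x : End k S) + y) =
          ((x : End k S) * t - t * x) + ((y : End k S) * t - t * y)
        rw [add_mul, mul_add]
        abel)
      lie_add := fun x t s => Subtype.ext (by
        change (x : End k S) * ((t : End k S) + s) - ((t : End k S) + s) * x =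
          ((x : End k S) * t - t * x) + ((x : End k S) * s - s * x)
        rw [add_mul, mul_add]
        abel)
      leibniz_lie := fun x y t => Subtype.ext (by
        change (x : End k S) * ((y : End k S) * t - t * y) - ((y : End k S) * t - t * y) * x =
          (((x : End k S) * y - y * x) * t - t * ((x : End k S) * y - y * x)) +
          ((y : End k S) * ((x : End k S) * t - t * x) - ((x : End k S) * t - t * x) * y)
        noncomm_ring) }
  letI i2 : LieModule k L T :=
    { smul_lie := fun c x t => Subtype.ext (by
        change (c • (x : End k S)) * t - t * (c • (x : End k S)) =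
          c • ((x : End k S) * t - t * x)
        rw [smul_mul_assoc, mul_smul_comm, smul_sub])
      lie_smul := fun c x t => Subtype.ext (by
        change (x : End k S) * (c • (t : End k S)) - (c • (t : End k S)) * x =
          c • ((x : End k S) * t - t * x)
        rw [smul_mul_assoc, mul_smul_comm, smul_sub]) }
  have htr : ∀ x : L, LinearMap.trace k S (toEnd k L S x) = 0 := by
    rintro ⟨x, hx⟩
    change LinearMap.trace k S x = 0
    have h1 := hL x hx
    clear hx
    induction h1 using Submodule.span_induction with
    | mem x hx =>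
      obtain ⟨a, b, rfl⟩ := hx
      rw [map_sub, LinearMap.trace_mul_comm, sub_self]
    | zero => rw [map_zero]
    | add a b _ _ ha hb => rw [map_add, ha, hb, add_zero]
    | smul c a _ ha => rw [map_smul, ha, smul_zero]
  haveI i3 : LieModule.IsIrreducible k L S := LieModule.IsIrreducible.mk fun N hN => by
    have h1 := irr N.toSubmodule (fun x hx m hm => N.lie_mem (x := ⟨x, hx⟩) hm) (by
      intro h2
      exact hN (by simpa using h2))
    simpa using h1
  haveI i4 : LieAlgebra.HasTrivialRadical k L :=
    LieAlgebra.hasTrivialRadical_of_isIrreducible_of_isFaithful k L S htr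
  haveI i5 : LieAlgebra.IsKilling k L := inferInstance
  obtain ⟨x0, hx0⟩ := LieAlgebra.exists_isCartanSubalgebra_engel k L
  set H := LieSubalgebra.engel k x0 with hH
  haveI i6 : H.IsCartanSubalgebra := hx0
  set cl : T →ₗ[k] S →ₗ[k] S := T.subtype with hcl
  have hlie : ∀ (x : L) (t : T) (m : S), ⁅x, cl t m⁆ = cl ⁅x, t⁆ m + cl t ⁅x, m⁆ := by
    intro x t m
    change (x : End k S) ((t : End k S) m) = ((x : End k S) * t - t * x) m +
      (t : End k S) ((x : End k S) m)
    rw [LinearMap.sub_apply, Module.End.mul_apply, Module.End.mul_apply]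
    abel
  have hss : ∀ h : H, (toEnd k L S (h : L)).IsSemisimple := fun h =>
    isSemisimple_of_mem L irr H h
  have hSp : Sp H q cl :=
    { dS := diag_S hss
      dT := diag_T hss cl Subtype.val_injective hlie
      anti := fun t s m => by
        have := LinearMap.congr_fun (hq t s) m
        rw [Module.algebraMap_end_apply] at this
        exact this
      lie := hlie
      nd := nd
      irr := fun W hW h0 => irr W (fun x hx m hm => hW ⟨x, hx⟩ m hm) h0
      irc := fun W hW h0 => by
        refine irr W (fun x hx m hm => ?_) h0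
        have h1 := hL x hx
        clear hx
        induction h1 using Submodule.span_induction with
        | mem x hx =>
          obtain ⟨a, b, rfl⟩ := hx
          exact Submodule.sub_mem _ (hW a _ (hW b _ hm)) (hW b _ (hW a _ hm))
        | zero => exact Submodule.zero_mem _
        | add a b _ _ ha hb => exact Submodule.add_mem _ ha hb
        | smul c a _ ha => exact Submodule.smul_mem _ _ ha }
  obtain ⟨x, hx⟩ := hSp.full h5 t s
  have h7 : (x : End k S) = (t : End k S) * s - s * t := LinearMap.ext fun m => hx m
  rw [← h7]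
  exact x.2

end Pool.Agent.TH164.Spin
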