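import Pool.Agent.TH164.Spin.Ev7
import Pool.Agent.TH164.Spin.Ss

/-!
# Lie algebras of operators, even case
-/

set_option autoImplicit false
set_option linter.unusedSectionVars false
set_option linter.unusedVariables false

open Module LieModule LieAlgebra LieAlgebra.IsKilling

attribute [local instance 100] LieRing.ofAssociativeRing

namespace Pool.Agent.TH164.Spin

variable {k : Type*} [Field k] [IsAlgClosed k] [CharZero k]
variable {S : Type*} [AddCommGroup S] [Module k S] [FiniteDimensional k S] [Nontrivial S]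

/-- Elements of a Cartan subalgebra are semisimple operators. -/
theorem isSemisimple_of_mem' (L : LieSubalgebra k (End k S)) [LieAlgebra.IsKilling k L]
    (H : LieSubalgebra k L) [H.IsCartanSubalgebra] (h : H)
    (hz : ∀ n : End k S, IsNilpotent n → (∀ y ∈ L, ∀ m : S, n (y m) = y (n m)) →
      n ∈ Algebra.adjoin k {((h : L) : End k S)} → n = 0) :
    (((h : L) : End k S)).IsSemisimple := by
  set x : End k S := ((h : L) : End k S) with hx
  obtain ⟨n, hn, s, hs, hnil, hss, hxns⟩ := x.exists_isNilpotent_isSemisimple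
  have hc : Commute n s := Algebra.commute_of_mem_adjoin_singleton_of_commute hs
      (Algebra.commute_of_mem_adjoin_self hn).symm
  have h1 : ad k (End k S) n ∈ Algebra.adjoin k {ad k (End k S) x} := by
    rw [hxns]
    exact LieAlgebra.ad_mem_adjoin_of_isNilpotent hc hnil hss
  have h2 : ∃ B ∈ Algebra.adjoin k {ad k L (h : L)}, ∀ y : L,
      ad k (End k S) n (y : End k S) = ((B y : L) : End k S) := by
    refine Algebra.adjoin_induction (p := fun A _ => ∃ B ∈ Algebra.adjoin k {ad k L (h : L)},
      ∀ y : L, A (y : End k S) = ((B y : L) : End k S)) ?_ ?_ ?_ ?_ h1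
    · rintro _ rfl
      exact ⟨_, Algebra.self_mem_adjoin_singleton k _, fun y => rfl⟩
    · intro r
      refine ⟨algebraMap k _ r, Subalgebra.algebraMap_mem _ r, fun y => ?_⟩
      rw [Module.algebraMap_end_apply, Module.algebraMap_end_apply]
      rfl
    · rintro A A' _ _ ⟨B, hB, h3⟩ ⟨B', hB', h4⟩
      refine ⟨B + B', Subalgebra.add_mem _ hB hB', fun y => ?_⟩
      rw [LinearMap.add_apply, LinearMap.add_apply, h3, h4]
      rfl
    · rintro A A' _ _ ⟨B, hB, h3⟩ ⟨B', hB', h4⟩
      refine ⟨B * B', Subalgebra.mul_mem _ hB hB', fun y => ?_⟩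
      rw [Module.End.mul_apply, Module.End.mul_apply, h4, h3]
  obtain ⟨B, hB, h3⟩ := h2
  have hBss : B.IsSemisimple :=
    Module.End.IsSemisimple.of_mem_adjoin_singleton
      (isSemisimple_ad_of_mem_isCartanSubalgebra h.2) hB
  have hBn : IsNilpotent B := by
    obtain ⟨p, hp⟩ := LieAlgebra.ad_nilpotent_of_nilpotent (R := k) hnil
    refine ⟨p, LinearMap.ext fun y => Subtype.ext ?_⟩
    have h4 : ∀ q : ℕ, ∀ y : L, ((ad k (End k S) n) ^ q) (y : End k S) =
        (((B ^ q) y : L) : End k S) := by
      intro q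
      induction q with
      | zero =>
        intro y
        rfl
      | succ q ih =>
        intro y
        rw [pow_succ, pow_succ, Module.End.mul_apply, Module.End.mul_apply, h3, ih]
    rw [← h4, hp]
    rfl
  have hB0 : B = 0 := Module.End.eq_zero_of_isNilpotent_isSemisimple hBn hBss
  have h5 : ∀ y ∈ L, ∀ m : S, n (y m) = y (n m) := by
    intro y hy m
    have h6 := h3 ⟨y, hy⟩
    rw [hB0] at h6
    have h7 : n * y - y * n = 0 := h6
    exact LinearMap.congr_fun (sub_eq_zero.1 h7) m
  have h7 : n = 0 := hz n hnil h5 hn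
  rw [hxns, h7, zero_add]
  exact hss

/-- The hypotheses on the grading. -/
structure Gr (L : LieSubalgebra k (End k S)) (T : Submodule k (End k S))
    (q : T →ₗ[k] T →ₗ[k] k) (σ : End k S) : Prop where
  hq : ∀ t s : T, (t : End k S) * s + (s : End k S) * t = algebraMap k (End k S) (2 * q t s)
  nd : ∀ t, (∀ s, q t s = 0) → t = 0
  hL : ∀ x ∈ L, x ∈ Submodule.span k {y | ∃ t s : T, y = (t : End k S) * s - s * t}
  sq : σ * σ = 1
  an : ∀ t : T, σ * t = -(t * σ)
  irr : ∀ W : Submodule k S, (∀ x ∈ L, ∀ m ∈ W, x m ∈ W) → W ≠ ⊥ → W = ⊤ ∨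
    ∃ ε : k, (ε = 1 ∨ ε = -1) ∧ ∀ m, m ∈ W ↔ σ m = ε • m

namespace Gr

variable {L : LieSubalgebra k (End k S)} {T : Submodule k (End k S)}
  {q : T →ₗ[k] T →ₗ[k] k} {σ : End k S}

theorem sigL (h : Gr L T q σ) {x : End k S} (hx : x ∈ L) : σ * x = x * σ := by
  have h1 := h.hL x hx
  clear hx
  induction h1 using Submodule.span_induction with
  | mem x hx =>
    obtain ⟨a, b, rfl⟩ := hx
    have e : ∀ a b : T, σ * ((a : End k S) * b) = (a : End k S) * b * σ := by
      intro a b
      rw [← mul_assoc, h.an a, neg_mul, mul_assoc, h.an b, mul_neg, neg_neg, mul_assoc]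
    rw [mul_sub, sub_mul, e, e]
  | zero => rw [mul_zero, zero_mul]
  | add a b _ _ ha hb => rw [mul_add, add_mul, ha, hb]
  | smul c a _ ha => rw [mul_smul_comm, smul_mul_assoc, ha]

theorem hom_zero (h : Gr L T q σ) {n : End k S} (h1 : ∀ ε : k, (ε = 1 ∨ ε = -1) →
    ∀ m, σ m = ε • m → n m = 0) : n = 0 := by
  refine LinearMap.ext fun m => ?_
  have hs : ∀ m, σ (σ m) = m := fun m => LinearMap.congr_fun h.sq m
  have h2 : m = (2 : k)⁻¹ • (m + σ m) + (2 : k)⁻¹ • (m - σ m) := by
    rw [← smul_add, add_add_sub_cancel, ← two_smul k m, smul_smul, inv_mul_cancel₀ two_ne_zero,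
      one_smul]
  rw [h2, map_add, h1 1 (Or.inl rfl) _ (by
    rw [map_smul, map_add, hs, one_smul, add_comm]), h1 (-1) (Or.inr rfl) _ (by
    rw [map_smul, map_sub, hs, neg_one_smul, ← smul_neg, neg_sub]), add_zero]
  rfl

/-- Nilpotent operators which commute with everything vanish. -/
theorem nil_zero (h : Gr L T q σ) {n : End k S} (hn : IsNilpotent n)
    (hL : ∀ y ∈ L, ∀ m : S, n (y m) = y (n m)) (hσ : ∀ m, n (σ m) = σ (n m)) : n = 0 := by
  refine h.hom_zero fun ε hε => ?_
  by_contra hcon
  push Not at hcon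
  obtain ⟨m, hm, hm0⟩ := hcon
  set W : Submodule k S := LinearMap.ker n ⊓ LinearMap.eqLocus σ (ε • LinearMap.id) with hW
  have hWm : ∀ m, m ∈ W ↔ n m = 0 ∧ σ m = ε • m := fun m => Iff.rfl
  have hne : W ≠ ⊥ := by
    obtain ⟨p, hp⟩ := hn
    have h1 : ∃ j : ℕ, (n ^ j) m ≠ 0 ∧ (n ^ (j + 1)) m = 0 := by
      refine Nat.exists_not_and_succ_of_not_zero_of_exists (p := fun j => (n ^ j) m = 0) ?_
        ⟨p, by rw [hp]; rfl⟩
      intro h2
      have h3 : m = 0 := h2
      rw [h3, map_zero] at hm0
      exact hm0 rfl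
    obtain ⟨j, hj1, hj2⟩ := h1
    refine (Submodule.ne_bot_iff _).2 ⟨(n ^ j) m, (hWm _).2 ⟨?_, ?_⟩, hj1⟩
    · rw [pow_succ'] at hj2
      exact hj2
    · have h3 : ∀ j : ℕ, σ ((n ^ j) m) = ε • (n ^ j) m := by
        intro j
        induction j with
        | zero => exact hm
        | succ j ih =>
          rw [pow_succ', Module.End.mul_apply, ← hσ, ih, map_smul]
      exact h3 j
  rcases h.irr W (fun x hx m hm => by
    rw [hWm] at hm ⊢
    refine ⟨by rw [hL x hx, hm.1, map_zero], ?_⟩
    have h2 := LinearMap.congr_fun (h.sigL hx) m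
    rw [Module.End.mul_apply, Module.End.mul_apply, hm.2, map_smul] at h2
    exact h2) hne with h1 | ⟨ε', hε', h1⟩
  · have h2 : m ∈ W := by
      rw [h1]
      trivial
    exact hm0 ((hWm _).1 h2).1
  · obtain ⟨w, hw, hw0⟩ := Submodule.exists_mem_ne_zero_of_ne_bot hne
    have h2 : ε' = ε := by
      have h3 := (h1 w).1 hw
      rw [((hWm _).1 hw).2] at h3
      exact (smul_left_injective k hw0 h3).symm
    have h3 : m ∈ W := (h1 m).2 (by rw [h2]; exact hm)
    exact hm0 ((hWm _).1 h3).1

/-- The part of parity `ε`. -/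
def part (h : Gr L T q σ) (ε : k) : LieSubmodule k L S where
  carrier := {m | σ m = ε • m}
  zero_mem' := by
    change σ 0 = ε • (0 : S)
    rw [map_zero, smul_zero]
  add_mem' := by
    intro a b ha hb
    change σ (a + b) = ε • (a + b)
    rw [map_add, ha, hb, smul_add]
  smul_mem' := by
    intro c a ha
    change σ (c • a) = ε • (c • a)
    rw [map_smul, ha, smul_comm]
  lie_mem := by
    intro x m hm
    change σ ((x : End k S) m) = ε • ((x : End k S) m)
    have h2 := LinearMap.congr_fun (h.sigL x.2) m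
    rw [Module.End.mul_apply, Module.End.mul_apply, hm, map_smul] at h2
    exact h2

theorem mem_part (h : Gr L T q σ) {ε : k} {m : S} : m ∈ h.part ε ↔ σ m = ε • m := Iff.rfl

/-- The radical acts by scalars on the parts. -/
theorem rad_scalar (h : Gr L T q σ) {ε : k} (hε : ε = 1 ∨ ε = -1) {x : L}
    (hx : x ∈ LieAlgebra.radical k L) : ∃ c : k, ∀ m, σ m = ε • m → (x : End k S) m = c • m := by
  by_cases hbot : Nontrivial (h.part ε)
  swap
  · refine ⟨0, fun m hm => ?_⟩
    have h1 : m = 0 := by
      by_contra h2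
      exact hbot ⟨⟨m, hm⟩, 0, fun h3 => h2 (congrArg Subtype.val h3)⟩
    rw [h1, map_zero, smul_zero]
  obtain ⟨χ, hχ⟩ : ∃ χ : Module.Dual k (LieAlgebra.radical k L),
      Nontrivial (LieModule.weightSpace (h.part ε) χ) :=
    LieModule.exists_nontrivial_weightSpace_of_isSolvable k (LieAlgebra.radical k L) (h.part ε)
  set N : LieSubmodule k L (h.part ε) := LieModule.weightSpaceOfIsLieTower k (h.part ε) χ with hN
  have hmemN : ∀ m : h.part ε, m ∈ N ↔ ∀ y : LieAlgebra.radical k L, ⁅y, m⁆ = χ y • m := by
    intro m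
    have h1 : m ∈ N ↔ m ∈ LieModule.weightSpace (h.part ε) χ := Iff.rfl
    rw [h1, LieModule.mem_weightSpace]
  obtain ⟨⟨m0, hm0⟩, hne⟩ := exists_ne (0 : LieModule.weightSpace (h.part ε) χ)
  have hm0N : m0 ∈ N := hm0
  have hm00 : m0 ≠ 0 := fun h1 => hne (Subtype.ext h1)
  refine ⟨χ ⟨x, hx⟩, fun m hm => ?_⟩
  set W : Submodule k S := N.toSubmodule.map (h.part ε).toSubmodule.subtype with hW
  have hWm : ∀ m : S, m ∈ W ↔ ∃ m' : h.part ε, m' ∈ N ∧ (m' : S) = m := fun m => Iff.rfl
  have hne2 : W ≠ ⊥ := (Submodule.ne_bot_iff _).2 ⟨m0, (hWm _).2 ⟨m0, hm0N, rfl⟩,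
    fun h1 => hm00 (Subtype.ext h1)⟩
  have hmW : m ∈ W := by
    rcases h.irr W (fun x hx m hm => by
      obtain ⟨m', h1, rfl⟩ := (hWm _).1 hm
      exact (hWm _).2 ⟨⁅(⟨x, hx⟩ : L), m'⁆, N.lie_mem h1, rfl⟩) hne2 with h1 | ⟨ε', hε', h1⟩
    · rw [h1]
      trivial
    · have h2 : ε' = ε := by
        have h3 := (h1 m0).1 ((hWm _).2 ⟨m0, hm0N, rfl⟩)
        have h4 : σ (m0 : S) = ε • (m0 : S) := m0.2
        rw [h4] at h3
        exact (smul_left_injective k (fun h5 => hm00 (Subtype.ext h5)) h3).symm
      rw [h1, h2]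
      exact hm
  obtain ⟨m', h1, rfl⟩ := (hWm _).1 hmW
  have h2 := (hmemN m').1 h1 ⟨x, hx⟩
  exact congrArg Subtype.val h2

theorem comT (h : Gr L T q σ) (t s r : T) :
    ((t : End k S) * s - s * t) * r - r * ((t : End k S) * s - s * t) =
      (((4 : k) • (q s r • t - q t r • s) : T) : End k S) := by
  have e1 := h.hq s r
  have e2 := h.hq t r
  have f1 : (s : End k S) * r = algebraMap k _ (2 * q s r) - (r : End k S) * s :=
    eq_sub_of_add_eq e1
  have f2 : (t : End k S) * r = algebraMap k _ (2 * q t r) - (r : End k S) * t :=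
    eq_sub_of_add_eq e2
  have g1 : (t : End k S) * s * r = (2 * q s r) • (t : End k S) -
      (2 * q t r) • (s : End k S) + r * ((t : End k S) * s) := by
    rw [mul_assoc, f1, mul_sub, ← mul_assoc, f2, sub_mul, ← Algebra.commutes, ← Algebra.smul_def,
      ← Algebra.smul_def, mul_assoc]
    abel
  have g2 : (s : End k S) * t * r = (2 * q t r) • (s : End k S) -
      (2 * q s r) • (t : End k S) + r * ((s : End k S) * t) := by
    rw [mul_assoc, f2, mul_sub, ← mul_assoc, f1, sub_mul, ← Algebra.commutes, ← Algebra.smul_def,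
      ← Algebra.smul_def, mul_assoc]
    abel
  rw [sub_mul, g1, g2, mul_sub, Submodule.coe_smul, Submodule.coe_sub, Submodule.coe_smul,
    Submodule.coe_smul]
  module

theorem LT (h : Gr L T q σ) {x : End k S} (hx : x ∈ L) (t : T) : x * t - t * x ∈ T := by
  have h1 := h.hL x hx
  clear hx
  induction h1 using Submodule.span_induction with
  | mem x hx =>
    obtain ⟨a, b, rfl⟩ := hx
    rw [h.comT a b t]
    exact Subtype.property _
  | zero =>
    rw [zero_mul, mul_zero, sub_zero]
    exact Submodule.zero_mem _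
  | add a b _ _ ha hb =>
    rw [add_mul, mul_add, add_sub_add_comm]
    exact Submodule.add_mem _ ha hb
  | smul c a _ ha =>
    rw [smul_mul_assoc, mul_smul_comm, ← smul_sub]
    exact Submodule.smul_mem _ _ ha

theorem trL (h : Gr L T q σ) {x : End k S} (hx : x ∈ L) : LinearMap.trace k S x = 0 := by
  have h1 := h.hL x hx
  clear hx
  induction h1 using Submodule.span_induction with
  | mem x hx =>
    obtain ⟨a, b, rfl⟩ := hx
    rw [map_sub, LinearMap.trace_mul_comm, sub_self]
  | zero => rw [map_zero]
  | add a b _ _ ha hb => rw [map_add, ha, hb, add_zero]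
  | smul c a _ ha => rw [map_smul, ha, smul_zero]

/-- The grading operator does not preserve the vectors. -/
theorem no_sig (h : Gr L T q σ) (h3 : 3 ≤ finrank k T) (hT : ∀ t : T, σ * t ∈ T) : False := by
  have hex : ∃ t : T, q t t ≠ 0 := by
    by_contra hcon
    push Not at hcon
    have h1 : ∀ t s : T, q t s = 0 := by
      intro t s
      have e1 := hcon (t + s)
      have e2 : q t s = q s t := by
        have e3 := h.hq t s
        rw [add_comm, h.hq s t] at e3
        have e4 := (FaithfulSMul.algebraMap_injective k (End k S)) e3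
        exact (mul_left_cancel₀ (two_ne_zero' k) e4).symm
      simp only [map_add, LinearMap.add_apply, hcon, ← e2, zero_add, add_zero] at e1
      rw [← two_mul, mul_eq_zero] at e1
      exact e1.resolve_left two_ne_zero
    have h2 : ∀ t : T, t = 0 := fun t => h.nd t (h1 t)
    have h4 : finrank k T = 0 := by
      rw [finrank_eq_zero_iff_of_free]
      exact ⟨fun a b => by rw [h2 a, h2 b]⟩
    omega
  obtain ⟨t, ht⟩ := hex
  set t' : T := ⟨σ * t, hT t⟩ with ht'
  have hker : 2 ≤ finrank k (LinearMap.ker (q t')) := by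
    have h1 := (q t').finrank_range_add_finrank_ker
    have h2 := (Submodule.finrank_le (LinearMap.range (q t')))
    rw [finrank_self] at h2
    omega
  have hex2 : ∃ s : T, q t' s = 0 ∧ s ∉ Submodule.span k {t} := by
    by_contra hcon
    push Not at hcon
    have h1 : LinearMap.ker (q t') ≤ Submodule.span k {t} := fun s hs =>
      hcon s (LinearMap.mem_ker.1 hs)
    have h2 := Submodule.finrank_mono h1
    have h4 := finrank_span_le_card (R := k) ({t} : Set T)
    rw [Set.toFinset_singleton, Finset.card_singleton] at h4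
    omega
  obtain ⟨s, hs, hst⟩ := hex2
  have h1 := h.hq t' s
  rw [hs, mul_zero, map_zero] at h1
  have h2 : (s : End k S) * (t' : T) = -(σ * ((s : End k S) * t)) := by
    change (s : End k S) * (σ * t) = _
    rw [← mul_assoc, ← mul_assoc, h.an s, neg_mul, neg_neg]
  have h4 : (t' : End k S) * s = σ * ((t : End k S) * s) := by
    change σ * (t : End k S) * s = _
    rw [mul_assoc]
  rw [h2, h4] at h1
  have h5 : (t : End k S) * s = s * t := by
    have h6 := congrArg (fun x => σ * x) h1
    simp only [mul_add, mul_neg, ← mul_assoc, h.sq, one_mul, mul_zero] at h6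
    have h7 := eq_neg_of_add_eq_zero_left h6
    rwa [neg_neg] at h7
  have h6 := h.hq t s
  rw [← h5, ← two_smul k ((t : End k S) * s), Algebra.algebraMap_eq_smul_one, mul_smul] at h6
  have h7 := smul_right_injective (End k S) (two_ne_zero' k) h6
  have h8 := h.hq t t
  rw [← two_smul k ((t : End k S) * t), Algebra.algebraMap_eq_smul_one, mul_smul] at h8
  have h9 := smul_right_injective (End k S) (two_ne_zero' k) h8
  have h10 : q t t • (s : End k S) = q t s • (t : End k S) := by
    have e1 : (t : End k S) * (t * s) = q t t • (s : End k S) := by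
      rw [← mul_assoc, h9, smul_mul_assoc, one_mul]
    rw [← e1, h7, mul_smul_comm, mul_one]
  refine hst (Submodule.mem_span_singleton.2 ⟨(q t t)⁻¹ * q t s, Subtype.ext ?_⟩)
  rw [Submodule.coe_smul, mul_smul, ← h10, smul_smul, inv_mul_cancel₀ ht, one_smul]

/-- The radical is trivial. -/
theorem rad_bot (h : Gr L T q σ) (h3 : 3 ≤ finrank k T) : LieAlgebra.HasTrivialRadical k L := by
  rw [LieAlgebra.hasTrivialRadical_iff, LieSubmodule.eq_bot_iff]
  intro x hx
  obtain ⟨a, ha⟩ := h.rad_scalar (Or.inl rfl) hx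
  obtain ⟨b, hb⟩ := h.rad_scalar (Or.inr rfl) hx
  have hxe : (x : End k S) = ((a + b) / 2) • (1 : End k S) + ((a - b) / 2) • σ := by
    rw [← sub_eq_zero]
    refine h.hom_zero ?_
    rintro ε (rfl | rfl) m hm
    · rw [LinearMap.sub_apply, LinearMap.add_apply, LinearMap.smul_apply, LinearMap.smul_apply,
        ha m hm, hm, Module.End.one_apply]
      module
    · rw [LinearMap.sub_apply, LinearMap.add_apply, LinearMap.smul_apply, LinearMap.smul_apply,
        hb m hm, hm, Module.End.one_apply]
      module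
  have hab : a - b = 0 := by
    by_contra h1
    refine h.no_sig h3 fun t => ?_
    have h2 := h.LT x.2 t
    have h4 : (x : End k S) * t - t * (x : End k S) = (a - b) • (σ * (t : End k S)) := by
      rw [hxe, add_mul, mul_add, smul_mul_assoc, smul_mul_assoc, mul_smul_comm, mul_smul_comm,
        one_mul, mul_one, h.an t]
      have h5 : (t : End k S) * σ = -(σ * t) := by rw [h.an t, neg_neg]
      rw [h5]
      module
    rw [h4] at h2
    have h5 := T.smul_mem (a - b)⁻¹ h2
    rwa [smul_smul, inv_mul_cancel₀ h1, one_smul] at h5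
  rw [hab, zero_div, zero_smul, add_zero] at hxe
  have h1 := h.trL x.2
  rw [hxe, map_smul, LinearMap.trace_one, smul_eq_mul, mul_eq_zero] at h1
  have h2 : ((finrank k S : ℕ) : k) ≠ 0 := by
    have := (finrank_pos (R := k) (M := S)).ne'
    exact_mod_cast this
  rw [h1.resolve_right h2, zero_smul] at hxe
  exact Subtype.ext hxe

/-- **Lie algebras of operators with two irreducible parts.** -/
theorem full (h : Gr L T q σ)
    (irc : ∀ W : Submodule k S, (∀ t : T, ∀ m ∈ W, (t : End k S) m ∈ W) → W ≠ ⊥ → W = ⊤)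
    (h3 : 3 ≤ finrank k T) (t s : T) : (t : End k S) * s - s * t ∈ L := by
  letI i1 : LieRingModule L T :=
    { bracket := fun x t => ⟨(x : End k S) * t - t * x, h.LT x.2 t⟩
      add_lie := fun x y t => Subtype.ext (by
        change ((x : End k S) + y) * t - t * ((x : End k S) + y) =
          ((x : End k S) * t - t * x) + ((y : End k S) * t - t * y)
        rw [add_mul, mul_add]
        abel)
      lie_add := fun x t s => Subtype.ext (by
        change (x : End k S) * ((t : End k S) + s) - ((t : End k S) + s) * x =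
          ((x : End k S) * t - t * x) + ((x : End k S) * s - s * x)
        rw [add_mul, mul_add]
        abel)
      leibniz_lie := fun x y t => Subtype.ext (by
        change (x : End k S) * ((y : End k S) * t - t * y) - ((y : End k S) * t - t * y) * x =
          (((x : End k S) * y - y * x) * t - t * ((x : End k S) * y - y * x)) +
          ((y : End k S) * ((x : End k S) * t - t * x) - ((x : End k S) * t - t * x) * y)
        noncomm_ring) }
  letI i2 : LieModule k L T :=
    { smul_lie := fun c x t => Subtype.ext (by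
        change (c • (x : End k S)) * t - t * (c • (x : End k S)) =
          c • ((x : End k S) * t - t * x)
        rw [smul_mul_assoc, mul_smul_comm, smul_sub])
      lie_smul := fun c x t => Subtype.ext (by
        change (x : End k S) * (c • (t : End k S)) - (c • (t : End k S)) * x =
          c • ((x : End k S) * t - t * x)
        rw [smul_mul_assoc, mul_smul_comm, smul_sub]) }
  haveI i4 : LieAlgebra.HasTrivialRadical k L := h.rad_bot h3
  haveI i5 : LieAlgebra.IsKilling k L := inferInstance
  obtain ⟨x0, hx0⟩ := LieAlgebra.exists_isCartanSubalgebra_engel k L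
  set H := LieSubalgebra.engel k x0 with hH
  haveI i6 : H.IsCartanSubalgebra := hx0
  set cl : T →ₗ[k] S →ₗ[k] S := T.subtype with hcl
  have hlie : ∀ (x : L) (t : T) (m : S), ⁅x, cl t m⁆ = cl ⁅x, t⁆ m + cl t ⁅x, m⁆ := by
    intro x t m
    change (x : End k S) ((t : End k S) m) = ((x : End k S) * t - t * x) m +
      (t : End k S) ((x : End k S) m)
    rw [LinearMap.sub_apply, Module.End.mul_apply, Module.End.mul_apply]
    abel
  have hss : ∀ x : H, (toEnd k L S (x : L)).IsSemisimple := fun x =>
    isSemisimple_of_mem' L H x fun n hn hLn hna => h.nil_zero hn hLn (by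
      intro m
      have h1 : Commute σ ((x : L) : End k S) := h.sigL (x : L).2
      have h2 : Commute σ n := by
        refine Algebra.adjoin_induction (p := fun y _ => Commute σ y) ?_ ?_ ?_ ?_ hna
        · rintro _ rfl
          exact h1
        · intro r
          exact (Algebra.commutes r σ).symm
        · intro a b _ _ ha hb
          exact ha.add_right hb
        · intro a b _ _ ha hb
          exact ha.mul_right hb
      exact (LinearMap.congr_fun h2.eq m).symm)
  have hSp : Gs H q cl σ :=
    { dS := diag_S hss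
      dT := diag_T hss cl Subtype.val_injective hlie
      anti := fun t s m => by
        have := LinearMap.congr_fun (h.hq t s) m
        rw [Module.algebraMap_end_apply] at this
        exact this
      lie := hlie
      nd := h.nd
      irc := irc
      sq' := fun m => LinearMap.congr_fun h.sq m
      sc := fun t m => LinearMap.congr_fun (h.an t) m
      sl := fun x m => LinearMap.congr_fun (h.sigL x.2) m
      irr := fun W hW h0 => h.irr W (fun x hx m hm => hW ⟨x, hx⟩ m hm) h0 }
  obtain ⟨x, hx⟩ := hSp.full h3 t s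
  have h7 : (x : End k S) = (t : End k S) * s - s * t := LinearMap.ext fun m => hx m
  rw [← h7]
  exact x.2

end Gr

end Pool.Agent.TH164.Spin
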