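import Pool.Agent.TH164.Spin.Lev

/-!
# The end of the classification
-/

set_option autoImplicit false
set_option linter.unusedSectionVars false
set_option linter.unusedVariables false

open Module LieModule LieAlgebra LieAlgebra.IsKilling

namespace Pool.Agent.TH164.Spin

variable {k L : Type*} [Field k] [IsAlgClosed k] [CharZero k] [LieRing L] [LieAlgebra k L]
  [FiniteDimensional k L] [LieAlgebra.IsKilling k L] {H : LieSubalgebra k L}
  [H.IsCartanSubalgebra]
variable {S : Type*} [AddCommGroup S] [Module k S] [LieRingModule L S] [LieModule k L S]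
  [FiniteDimensional k S] [Nontrivial S]
variable {T : Type*} [AddCommGroup T] [Module k T] [LieRingModule L T] [LieModule k L T]
  [FiniteDimensional k T]

variable {q : T →ₗ[k] T →ₗ[k] k} {cl : T →ₗ[k] S →ₗ[k] S}

namespace Sp

/-- The number five. -/
theorem five_dim (h : Sp H q cl) {α : H → k} {e f : L} (t : Tri α e f) (hj : Len T α 2)
    (hall : ∀ χ : H → k, wt H T χ ≠ ⊥ → χ ∈ Submodule.span ℚ {α}) : finrank k T = 5 := by
  obtain ⟨u, hu, hu0, -, hup⟩ := h.high t hj
  set v : Fin 5 → T := fun i => up f (i : ℕ) u with hv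
  have hvm : ∀ i : Fin 5, v i ∈ wt H T (2 • α - (i : ℕ) • α) := fun i => t.dn_mem hu i
  have hv0 : ∀ i : Fin 5, v i ≠ 0 := fun i => hup i (by omega)
  have hinj : Function.Injective fun i : Fin 5 => (2 • α - (i : ℕ) • α : H → k) := by
    intro a b hab
    simp only [sub_right_inj] at hab
    rw [← natCast_zsmul, ← natCast_zsmul] at hab
    have := smul_inj t.rt.1 hab
    exact Fin.ext (by exact_mod_cast this)
  have hli : LinearIndependent k v :=
    ((iSupIndep_wt (H := H) (M := T)).comp hinj).linearIndependent _ hvm hv0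
  have hsp : ⊤ ≤ Submodule.span k (Set.range v) := by
    intro m _
    refine h.dT.induction (p := fun m => m ∈ Submodule.span k (Set.range v)) m ?_
      (Submodule.zero_mem _) (fun a b ha hb => Submodule.add_mem _ ha hb)
    intro χ m hm
    by_cases hm0 : m = 0
    · rw [hm0]
      exact Submodule.zero_mem _
    have hχ : wt H T χ ≠ ⊥ := (Submodule.ne_bot_iff _).2 ⟨m, hm, hm0⟩
    obtain ⟨i, rfl⟩ := h.line_int' t.rt hχ (hall χ hχ)
    have hi := hj.le i hχ
    rw [abs_le] at hi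
    have hi1 : (2 - i).toNat < 5 := by omega
    have h1 := hvm ⟨(2 - i).toNat, hi1⟩
    have h2 : (2 • α - (((⟨(2 - i).toNat, hi1⟩ : Fin 5) : ℕ)) • α : H → k) = i • α := by
      rw [← natCast_zsmul, ← natCast_zsmul, ← sub_smul]
      congr 1
      change ((2 : ℕ) : ℤ) - ((2 - i).toNat : ℤ) = i
      omega
    rw [h2] at h1
    have h3 : ∃ c : k, m = c • v ⟨(2 - i).toNat, hi1⟩ := by
      by_cases hz : (i • α : H → k) = 0
      · rw [hz] at h1 hm
        exact h.zero_span h1 (hv0 _) hm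
      · exact h.one hz h1 (hv0 _) hm
    obtain ⟨c, hc⟩ := h3
    rw [hc]
    exact Submodule.smul_mem _ _ (Submodule.subset_span ⟨_, rfl⟩)
  have hb := finrank_eq_card_basis (Basis.mk hli hsp)
  rw [hb, Fintype.card_fin]

theorem len_one (h : Sp H q cl) (h5 : finrank k T ≠ 5) {α : H → k} {e f : L} (t : Tri α e f)
    {j : ℕ} (hj : Len T α j) : j = 1 := by
  obtain ⟨φ, hφ⟩ := exists_ln T α
  obtain ⟨M, hM⟩ := exists_top h.dS φ
  obtain ⟨s, Λ, N, l⟩ := h.line_top t hφ hM
  have h1 := h.j_le t hj hM l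
  have h2 := hj.one
  rcases (by omega : j = 1 ∨ j = 2) with h3 | h3
  · exact h3
  exfalso
  subst h3
  refine h5 (h.five_dim t hj fun χ hχ => hφ.t χ hχ ?_)
  by_contra h4
  obtain ⟨c, hc, ν, hν, hν0⟩ := h.exists_lvl hχ h4
  obtain ⟨p, hp1, hp2⟩ := exists_string_top t.rt.1 hν
  exact h.five t hj hc hφ.zero hp1 (by rw [map_add, map_nsmul, hφ.zero, smul_zero, add_zero,
      hν0]) (by rw [add_assoc, ← succ_nsmul]; exact hp2)

/-- All nonzero weights are roots. -/
theorem tri_of (h : Sp H q cl) (h5 : finrank k T ≠ 5) {μ : H → k} (hμ : wt H T μ ≠ ⊥)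
    (hμ0 : μ ≠ 0) : ∃ e f : L, Tri μ e f ∧ Len T μ 1 := by
  obtain ⟨β, e, f, i, t, hi, hi2⟩ := h.exists_tri hμ hμ0
  rw [hi2] at hμ
  obtain ⟨j, hj⟩ := h.exists_len t hi hμ
  have h1 := h.len_one h5 t hj
  subst h1
  have h2 := hj.le (i : ℤ) (by rwa [natCast_zsmul])
  rw [Nat.abs_cast] at h2
  have h3 : i = 1 := by
    have h4 : i ≤ 1 := by exact_mod_cast h2
    omega
  rw [h3, one_smul] at hi2
  rw [hi2]
  exact ⟨e, f, t, hj⟩

theorem Lvl_abs (h : Sp H q cl) {φ : (H → k) →ₗ[ℚ] ℚ} {c : ℚ} (hc : Lvl T φ c) {χ : H → k}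
    (hχ : wt H T χ ≠ ⊥) (h0 : φ χ ≠ 0) : c ≤ |φ χ| := by
  rcases lt_or_gt_of_ne h0 with h1 | h1
  · rw [abs_of_neg h1]
    have := hc.le χ hχ h1
    linarith
  · rw [abs_of_pos h1]
    have := hc.le (-χ) (h.tw_neg hχ) (by rw [map_neg]; linarith)
    rw [map_neg] at this
    linarith

/-- The inner step: the weights in a plane. -/
theorem plane (h : Sp H q cl) (h5 : finrank k T ≠ 5) {α : H → k} {e f : L} (t : Tri α e f)
    (hj : Len T α 1) {φ : (H → k) →ₗ[ℚ] ℚ} (hφ : Ln T φ α) {c : ℚ} (hc : Lvl T φ c)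
    {ν : H → k} (hν : wt H T ν ≠ ⊥) (hν0 : |φ ν| = c) (hp : wt H T (ν + α) = ⊥)
    (hm : wt H T (ν - α) = ⊥) (hαν : α (cv ν) = 0) {γ : H → k} (hγ : wt H T γ ≠ ⊥)
    (hγ0 : γ ∉ Submodule.span ℚ {α}) {a b : ℚ} (hab : γ = a • ν + b • α) {z : ℤ}
    (hz : γ (cv ν) = z) (hz0 : 0 ≤ z) : γ = ν := by
  have hc0 := hc.pos
  have hν1 : ν ≠ 0 := by
    rintro rfl
    rw [map_zero, abs_zero] at hν0
    linarith
  obtain ⟨e', f', t', hj'⟩ := h.tri_of h5 hν hν1
  have ha : 2 * a = z := by
    have h1 := hz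
    rw [hab, Pi.add_apply, Pi.smul_apply, Pi.smul_apply, hαν, smul_zero, add_zero,
      rt_two t'.rt, Rat.smul_def] at h1
    have h2 : ((a * 2 : ℚ) : k) = ((z : ℚ) : k) := by
      push_cast
      exact h1
    have h3 := Rat.cast_injective h2
    linarith
  have hφγ : φ γ = a * φ ν := by
    rw [hab, map_add, map_smul, map_smul, hφ.zero, smul_zero, add_zero, smul_eq_mul]
  obtain ⟨m, hm' | hm'⟩ : ∃ m : ℕ, z = 2 * m ∨ z = 2 * m + 1 :=
    ⟨(z / 2).toNat, by omega⟩
  · -- the even case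
    have ham : a = m := by
      rw [hm'] at ha
      push_cast at ha
      linarith
    have hm0 : m ≠ 0 := by
      rintro rfl
      rw [ham, Nat.cast_zero, zero_smul, zero_add] at hab
      exact hγ0 (Submodule.mem_span_singleton.2 ⟨b, hab.symm⟩)
    obtain ⟨p, rfl⟩ := Nat.exists_eq_succ_of_ne_zero hm0
    have h1 := t'.str hγ hz (i := p + 1) (by push_cast [hm']; omega)
    have h2 := t'.str hγ hz (i := p) (by push_cast [hm']; omega)
    have e0 : ∀ n : ℕ, (n • ν : H → k) = (n : ℚ) • ν := fun n => (Nat.cast_smul_eq_nsmul ℚ n ν).symm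
    have e1 : γ - (p + 1) • ν = b • α := by
      rw [hab, ham, e0]
      abel
    have e2 : γ - p • ν = ν + b • α := by
      rw [hab, ham, e0]
      push_cast
      rw [add_smul, one_smul]
      abel
    rw [e1] at h1
    rw [e2] at h2
    obtain ⟨i, hi⟩ := h.line_int' t.rt h1 (Submodule.mem_span_singleton.2 ⟨b, rfl⟩)
    rw [hi] at h1 h2
    have hi1 := hj.le i h1
    rw [abs_le] at hi1
    have hi2 : i = -1 ∨ i = 0 ∨ i = 1 := by omega
    rcases hi2 with rfl | rfl | rfl
    · rw [neg_one_smul, ← sub_eq_add_neg] at h2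
      exact absurd hm h2
    · rw [zero_smul] at hi
      have h3 : γ = (p + 1) • ν := by
        rw [hi, sub_eq_zero] at e1
        exact e1
      rw [h3, ← natCast_zsmul] at hγ
      have h4 := hj'.le _ hγ
      rw [Nat.abs_cast] at h4
      have h5 : p + 1 ≤ 1 := by exact_mod_cast h4
      have h6 : p = 0 := by omega
      rw [h3, h6, zero_add, one_smul]
    · rw [one_smul] at h2
      exact absurd hp h2
  · -- the odd case
    exfalso
    have ham : a = m + 1 / 2 := by
      rw [hm'] at ha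
      push_cast at ha
      linarith
    have h1 := t'.str hγ hz (i := m) (by omega)
    have h2 : φ (γ - m • ν) = 1 / 2 * φ ν := by
      rw [map_sub, map_nsmul, hφγ, ham, nsmul_eq_mul]
      ring
    have h3 : φ ν ≠ 0 := by
      intro h4
      rw [h4, abs_zero] at hν0
      linarith
    have h4 := h.Lvl_abs hc h1 (by rw [h2]; exact mul_ne_zero (by norm_num) h3)
    rw [h2, abs_mul, hν0, abs_of_pos (by norm_num : (0 : ℚ) < 1 / 2)] at h4
    linarith

/-- The sum of two nonzero weights is never a nonzero weight. -/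
theorem add_weights (h : Sp H q cl) (h5 : finrank k T ≠ 5) {α γ : H → k} (hα : wt H T α ≠ ⊥)
    (hα0 : α ≠ 0) (hγ : wt H T γ ≠ ⊥) (hγ0 : γ ≠ 0) (hγα : γ ≠ -α) : wt H T (γ + α) = ⊥ := by
  obtain ⟨e, f, t, hj⟩ := h.tri_of h5 hα hα0
  by_contra hcon
  by_cases hspan : γ ∈ Submodule.span ℚ {α}
  · obtain ⟨i, hi⟩ := h.line_int' t.rt hγ hspan
    have h1 : wt H T ((i + 1) • α) ≠ ⊥ := by
      rw [add_smul, one_smul, ← hi]
      exact hcon
    rw [hi] at hγ
    have h2 := hj.le i hγ
    have h3 := hj.le _ h1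
    rw [abs_le] at h2 h3
    have h4 : i = -1 ∨ i = 0 := by omega
    rcases h4 with rfl | rfl
    · exact hγα (by rw [hi, neg_one_smul])
    · exact hγ0 (by rw [hi, zero_smul])
  · obtain ⟨φ, f1, f2, f3⟩ := exists_phi2 (Submodule.span ℚ {α}) (Submodule.span ℚ {α, γ})
      (Submodule.span_mono (by simp))
      (F := {χ : H → k | wt H T χ ≠ ⊥} ∪ {χ : H → k | wt H L χ ≠ ⊥})
      ((finite_wt (H := H) (M := T)).union (finite_wt (H := H) (M := L)))
    have hφ : Ln T φ α :=
      { zero := f1 α (Submodule.mem_span_singleton_self α)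
        t := fun χ hχ h3 => by
          by_contra h4
          exact f2 χ (Or.inl hχ) h4 h3
        l := fun χ hχ h3 => by
          by_contra h4
          exact f2 χ (Or.inr hχ) h4 h3 }
    have hφγ : φ γ ≠ 0 := f2 γ (Or.inl hγ) hspan
    obtain ⟨c, hc, ν, hν, hν0⟩ := h.exists_lvl hγ hφγ
    have hc0 := hc.pos
    have hνU : ν ∈ Submodule.span ℚ {α, γ} := by
      by_contra h4
      have h6 := f3 ν (Or.inl hν) h4 γ (Or.inl hγ) (Submodule.subset_span (by simp))
      have h7 := h.Lvl_abs hc hγ hφγ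
      rw [hν0, abs_neg, abs_of_pos hc0] at h6
      linarith
    obtain ⟨x, y, hxy⟩ := Submodule.mem_span_pair.1 hνU
    have hne : φ ν ≠ 0 := by rw [hν0]; linarith
    have hy : y ≠ 0 := by
      rintro rfl
      rw [zero_smul, add_zero] at hxy
      rw [← hxy, map_smul, hφ.zero, smul_zero] at hne
      exact hne rfl
    have hγν : γ = y⁻¹ • ν + (-(y⁻¹ * x)) • α := by
      rw [← hxy, smul_add, smul_smul, smul_smul, inv_mul_cancel₀ hy, one_smul, neg_smul]
      abel
    obtain ⟨e', f', t', hj'⟩ := h.tri_of h5 hν (by rintro rfl; exact hne (map_zero φ))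
    have v1 := h.lvl_zero t hj hφ hc hν hν0
    have w1 := h.lvl_add t hj hφ hc hν hν0
    have w2 := h.lvl_sub t hj hφ hc hν hν0
    have hαν : α (cv ν) = 0 := by
      obtain ⟨b, hb⟩ := rt_int t'.rt t.rt
      have h6 := (rt_prod t.rt t'.rt (not_prop t.rt hφ.zero t'.rt hne) (a := 0)
        (by rw [v1, Int.cast_zero]) hb).2.1.1 rfl
      rw [hb, h6, Int.cast_zero]
    obtain ⟨z, hz⟩ := t'.int hγ
    rcases le_total 0 z with hz0 | hz0
    · have h6 := h.plane h5 t hj hφ hc hν (by rw [hν0, abs_neg, abs_of_pos hc0]) w1 w2 hαν hγ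
        hspan hγν hz hz0
      rw [h6] at hcon
      exact hcon w1
    · have n1 : wt H T (-ν + α) = ⊥ := by
        by_contra h6
        have := h.tw_neg h6
        rw [neg_add, neg_neg, ← sub_eq_add_neg] at this
        exact this w2
      have n2 : wt H T (-ν - α) = ⊥ := by
        by_contra h6
        have := h.tw_neg h6
        rw [neg_sub, sub_neg_eq_add, add_comm] at this
        exact this w1
      have n3 : α (cv (-ν)) = 0 := by
        rw [cv_neg t'.rt, apply_neg hα, hαν, neg_zero]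
      have n4 : γ (cv (-ν)) = ((-z : ℤ) : k) := by
        rw [cv_neg t'.rt, apply_neg hγ, hz]
        push_cast
        rfl
      have h6 := h.plane h5 t hj hφ hc (h.tw_neg hν) (by rw [map_neg, hν0, neg_neg,
        abs_of_pos hc0]) n1 n2 n3 hγ hspan (a := -y⁻¹) (b := -(y⁻¹ * x)) (by
          rw [neg_smul, smul_neg, neg_neg]
          exact hγν) n4 (by omega)
      rw [h6] at hcon
      exact hcon n1

end Sp

end Pool.Agent.TH164.Spin
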