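import Pool.Agent.TH164.Spin.Fin

/-!
# The full orthogonal Lie algebra
-/

set_option autoImplicit false
set_option linter.unusedSectionVars false
set_option linter.unusedVariables false

open Module LieModule LieAlgebra LieAlgebra.IsKilling

namespace Pool.Agent.TH164.Spin

variable {k L : Type*} [Field k] [IsAlgClosed k] [CharZero k] [LieRing L] [LieAlgebra k L]
  [FiniteDimensional k L] [LieAlgebra.IsKilling k L] {H : LieSubalgebra k L}
  [H.IsCartanSubalgebra]
variable {S : Type*} [AddCommGroup S] [Module k S] [LieRingModule L S] [LieModule k L S]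
  [FiniteDimensional k S] [Nontrivial S]
variable {T : Type*} [AddCommGroup T] [Module k T] [LieRingModule L T] [LieModule k L T]
  [FiniteDimensional k T]

variable {q : T →ₗ[k] T →ₗ[k] k} {cl : T →ₗ[k] S →ₗ[k] S}

/-- The commutator of two vectors, as an operator. -/
def com (cl : T →ₗ[k] S →ₗ[k] S) (t s : T) : S →ₗ[k] S := cl t ∘ₗ cl s - cl s ∘ₗ cl t

theorem com_apply (t s : T) (m : S) : com cl t s m = cl t (cl s m) - cl s (cl t m) := rfl

namespace Sp

theorem com_lie (h : Sp H q cl) (u v t : T) (m : S) :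
    com cl u v (cl t m) - cl t (com cl u v m) =
      (4 : k) • (q v t • cl u m - q u t • cl v m) := by
  have e1 : ∀ x y : T, ∀ m : S, cl x (cl y m) = (2 * q x y) • m - cl y (cl x m) := by
    intro x y m
    rw [← h.anti x y m, add_sub_cancel_right]
  rw [com_apply, com_apply, map_sub, e1 v t m, e1 u t m, map_sub, map_sub, map_smul, map_smul,
    e1 u t (cl v m), e1 v t (cl u m)]
  module

theorem root_com (h : Sp H q cl) (h5 : finrank k T ≠ 5) {t0 : T} (ht0 : t0 ∈ wt H T 0)
    (h0 : t0 ≠ 0) {α : H → k} (hα0 : α ≠ 0) {u : T} (hu : u ∈ wt H T α) :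
    ∃ x : L, ∀ m : S, ⁅x, m⁆ = com cl u t0 m := by
  by_cases hu0 : u = 0
  · refine ⟨0, fun m => ?_⟩
    rw [zero_lie, com_apply, hu0, map_zero, LinearMap.zero_apply, LinearMap.zero_apply, map_zero,
      sub_zero]
  have hα : wt H T α ≠ ⊥ := (Submodule.ne_bot_iff _).2 ⟨u, hu, hu0⟩
  obtain ⟨e, f, t, hj⟩ := h.tri_of h5 hα hα0
  have hw := h.e_zero t hj ht0 h0
  have hwm : ⁅e, t0⁆ ∈ wt H T α := lie_mem_wt' t.he ht0 (zero_add α)
  obtain ⟨c, rfl⟩ := h.one hα0 hwm hw hu
  set w := ⁅e, t0⁆ with hwdef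
  have q0 := h.zero_q ht0 h0
  -- the operator `e` on vectors
  have key : ∀ s : T, (q t0 t0) • ⁅e, s⁆ = q t0 s • w - q w s • t0 := by
    intro s
    refine h.dT.induction (p := fun s => (q t0 t0) • ⁅e, s⁆ = q t0 s • w - q w s • t0) s ?_ ?_ ?_
    · intro γ s hs
      by_cases hs0 : s = 0
      · rw [hs0, lie_zero, map_zero, map_zero, smul_zero, zero_smul, zero_smul, sub_zero]
      by_cases hγ0 : γ = 0
      · rw [hγ0] at hs
        obtain ⟨d, rfl⟩ := h.zero_span ht0 h0 hs
        rw [lie_smul, map_smul, map_smul, h.q_zero hwm ht0 (by rwa [add_zero]), ← hwdef]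
        simp only [smul_eq_mul, mul_zero, zero_smul, sub_zero, smul_smul, mul_comm]
      · have q1 : q t0 s = 0 := h.q_zero ht0 hs (by rwa [zero_add])
        rw [q1, zero_smul, zero_sub]
        by_cases hγ1 : γ = -α
        · have h1 : ⁅e, s⁆ ∈ wt H T 0 := lie_mem_wt' t.he hs (by rw [hγ1, neg_add_cancel])
          obtain ⟨d, hd⟩ := h.zero_span ht0 h0 h1
          have h2 := h.inv e s t0
          rw [hd, map_smul, LinearMap.smul_apply, smul_eq_mul, h.symm s ⁅e, t0⁆, ← hwdef] at h2
          rw [hd, smul_smul, ← neg_smul]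
          congr 1
          linear_combination h2
        · have h1 : ⁅e, s⁆ ∈ wt H T (γ + α) := t.lie_e hs
          rw [h.add_weights h5 hα hα0 ((Submodule.ne_bot_iff _).2 ⟨s, hs, hs0⟩) hγ0 hγ1] at h1
          have h2 : q w s = 0 := by
            refine h.q_zero hwm hs ?_
            intro h3
            exact hγ1 (neg_eq_of_add_eq_zero_right h3).symm
          rw [(Submodule.mem_bot k).1 h1, h2, smul_zero, zero_smul, neg_zero]
    · rw [lie_zero, map_zero, map_zero, smul_zero, zero_smul, zero_smul, sub_zero]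
    · intro a b ha hb
      rw [lie_add, smul_add, ha, hb, map_add, map_add, add_smul, add_smul]
      abel
  -- the difference commutes with all vectors
  set D : S →ₗ[k] S := (4 * q t0 t0) • toEnd k L S e - com cl w t0 with hD
  have hDa : ∀ m, D m = (4 * q t0 t0) • ⁅e, m⁆ - com cl w t0 m := fun m => rfl
  have hcomm : ∀ s m, D (cl s m) = cl s (D m) := by
    intro s m
    have h1 := h.com_lie w t0 s m
    have h2 := congrArg (fun x => cl x m) (key s)
    simp only [map_sub, map_smul, LinearMap.sub_apply, LinearMap.smul_apply] at h2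
    rw [hDa, hDa, h.lie, map_sub, map_smul]
    rw [sub_eq_iff_eq_add] at h1
    rw [h1]
    have h3 : (4 * q t0 t0) • cl ⁅e, s⁆ m = (4 : k) • (q t0 s • cl w m - q w s • cl t0 m) := by
      rw [mul_smul, h2]
    rw [smul_add, h3]
    abel
  have hDm : ∀ χ, ∀ m ∈ wt H S χ, D m ∈ wt H S (χ + α) := by
    intro χ m hm
    rw [hDa]
    refine Submodule.sub_mem _ (Submodule.smul_mem _ _ (t.lie_e hm)) ?_
    rw [com_apply]
    refine Submodule.sub_mem _ ?_ ?_
    · exact h.cl_mem' hwm (h.cl_mem ht0 hm) (by rw [add_zero])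
    · exact h.cl_mem' ht0 (h.cl_mem hwm hm) (by rw [add_zero])
  have hker : LinearMap.ker D = ⊤ := by
    refine h.irc _ (fun s m hm => ?_) ?_
    · rw [LinearMap.mem_ker] at hm ⊢
      rw [hcomm, hm, map_zero]
    · obtain ⟨χ, hχ⟩ := exists_wt_ne h.dS
      obtain ⟨p, hp1, hp2⟩ := exists_string_top t.rt.1 hχ
      obtain ⟨m, hm, hm0⟩ := Submodule.exists_mem_ne_zero_of_ne_bot hp1
      refine (Submodule.ne_bot_iff _).2 ⟨m, ?_, hm0⟩
      have h1 := hDm _ m hm
      rw [add_assoc, ← succ_nsmul, hp2] at h1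
      exact LinearMap.mem_ker.2 ((Submodule.mem_bot k).1 h1)
  refine ⟨(c * (4 * q t0 t0)) • e, fun m => ?_⟩
  have h1 : D m = 0 := by
    have : m ∈ LinearMap.ker D := by
      rw [hker]
      trivial
    exact LinearMap.mem_ker.1 this
  rw [hDa, sub_eq_zero] at h1
  rw [smul_lie, mul_smul, h1, com_apply, com_apply, map_smul, LinearMap.smul_apply,
    LinearMap.smul_apply, map_smul, smul_sub]

/-- **The classification.** -/
theorem full (h : Sp H q cl) (h5 : finrank k T ≠ 5) (t s : T) :
    ∃ x : L, ∀ m : S, ⁅x, m⁆ = com cl t s m := by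
  by_cases hex : ∃ t0 ∈ wt H T 0, t0 ≠ 0
  · obtain ⟨t0, ht0, h0⟩ := hex
    have q0 := h.zero_q ht0 h0
    have key : ∀ t : T, ∃ x : L, ∀ m : S, ⁅x, m⁆ = com cl t t0 m := by
      intro t
      refine h.dT.induction (p := fun t => ∃ x : L, ∀ m : S, ⁅x, m⁆ = com cl t t0 m) t ?_ ?_ ?_
      · intro χ u hu
        by_cases hχ : χ = 0
        · rw [hχ] at hu
          obtain ⟨c, rfl⟩ := h.zero_span ht0 h0 hu
          refine ⟨0, fun m => ?_⟩
          rw [zero_lie, com_apply, map_smul, LinearMap.smul_apply, LinearMap.smul_apply, map_smul,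
            sub_self]
        · exact h.root_com h5 ht0 h0 hχ hu
      · refine ⟨0, fun m => ?_⟩
        rw [zero_lie, com_apply, map_zero, LinearMap.zero_apply, LinearMap.zero_apply, map_zero,
          sub_zero]
      · rintro a b ⟨x, hx⟩ ⟨y, hy⟩
        refine ⟨x + y, fun m => ?_⟩
        rw [add_lie, hx, hy]
        simp only [com_apply, map_add, LinearMap.add_apply]
        abel
    obtain ⟨x, hx⟩ := key t
    obtain ⟨y, hy⟩ := key s
    have e1 : ∀ x y : T, ∀ m : S, cl x (cl y m) = (2 * q x y) • m - cl y (cl x m) := by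
      intro x y m
      rw [← h.anti x y m, add_sub_cancel_right]
    refine ⟨-((4 * q t0 t0)⁻¹ • (⁅x, y⁆ - (4 * q s t0) • x + (4 * q t t0) • y)), fun m => ?_⟩
    have h1 : ⁅⁅x, y⁆, m⁆ = (4 * q s t0) • com cl t t0 m - (4 * q t t0) • com cl s t0 m -
        (4 * q t0 t0) • com cl t s m := by
      rw [lie_lie, hy, hx, hx, hy]
      have g1 : ∀ m, com cl t t0 m = (2 : k) • cl t (cl t0 m) - (2 * q t t0) • m := by
        intro m
        rw [com_apply, e1 t0 t m, h.symm t0 t, two_smul]
        abel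
      have g2 : ∀ m, com cl s t0 m = (2 : k) • cl s (cl t0 m) - (2 * q s t0) • m := by
        intro m
        rw [com_apply, e1 t0 s m, h.symm t0 s, two_smul]
        abel
      rw [g1 (com cl s t0 m), g2 (com cl t t0 m), g1 m, g2 m, com_apply]
      simp only [map_sub, map_smul]
      rw [e1 t0 s (cl t0 m), e1 t0 t (cl t0 m), h.sq t0 m, h.symm t0 s, h.symm t0 t]
      simp only [map_sub, map_smul]
      module
    rw [neg_lie, smul_lie, add_lie, sub_lie, smul_lie, smul_lie, h1, hx, hy]
    have h2 : (4 * q t0 t0) ≠ 0 := mul_ne_zero (by norm_num) q0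
    have h3 : (4 * q s t0) • com cl t t0 m - (4 * q t t0) • com cl s t0 m -
        (4 * q t0 t0) • com cl t s m - (4 * q s t0) • com cl t t0 m +
        (4 * q t t0) • com cl s t0 m = -((4 * q t0 t0) • com cl t s m) := by abel
    rw [h3, smul_neg, neg_neg, smul_smul, inv_mul_cancel₀ h2, one_smul]
  · push Not at hex
    have hz : ∀ t : T, t = 0 := by
      intro t
      refine h.dT.induction (p := fun t => t = 0) t ?_ rfl ?_
      · intro χ m hm
        by_contra hm0
        have hχ : wt H T χ ≠ ⊥ := (Submodule.ne_bot_iff _).2 ⟨m, hm, hm0⟩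
        by_cases hχ0 : χ = 0
        · rw [hχ0] at hm
          exact hm0 (hex m hm)
        · obtain ⟨e, f, t, hj⟩ := h.tri_of h5 hχ hχ0
          obtain ⟨m', hm', h1⟩ := h.zero_ne t hj
          exact h1 (hex m' hm')
      · rintro a b rfl rfl
        rw [add_zero]
    refine ⟨0, fun m => ?_⟩
    rw [zero_lie, com_apply, hz t, hz s, sub_self]

end Sp

end Pool.Agent.TH164.Spin
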