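import Mathlib

/-!
# Rational functionals in general position
-/

set_option autoImplicit false

open Module

namespace Pool.Agent.TH164.Spin

variable {X : Type*} [AddCommGroup X] [Module ℚ X]

theorem exists_phi (U : Submodule ℚ X) {F : Set X} (hF : F.Finite) :
    ∃ φ : X →ₗ[ℚ] ℚ, (∀ u ∈ U, φ u = 0) ∧ ∀ f ∈ F, f ∉ U → φ f ≠ 0 := by
  have : Finite {f : X // f ∈ F ∧ f ∉ U} := (hF.subset fun f hf => hf.1 :
    Set.Finite {f : X | f ∈ F ∧ f ∉ U}).to_subtype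
  obtain ⟨ψ, hψ⟩ := Module.exists_dual_forall_apply_ne_zero (K := ℚ)
    (fun f : {f : X // f ∈ F ∧ f ∉ U} => U.mkQ f.1) (by
      rintro ⟨f, hf1, hf2⟩ h
      exact hf2 ((Submodule.Quotient.mk_eq_zero U).1 h))
  refine ⟨ψ ∘ₗ U.mkQ, ?_, ?_⟩
  · intro u hu
    rw [LinearMap.comp_apply, Submodule.mkQ_apply, (Submodule.Quotient.mk_eq_zero U).2 hu,
      map_zero]
  · intro f hf1 hf2
    exact hψ ⟨f, hf1, hf2⟩

/-- A functional whose values on the elements of a subspace are small. -/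
theorem exists_phi2 (U0 U : Submodule ℚ X) (h : U0 ≤ U) {F : Set X} (hF : F.Finite) :
    ∃ φ : X →ₗ[ℚ] ℚ, (∀ u ∈ U0, φ u = 0) ∧ (∀ f ∈ F, f ∉ U0 → φ f ≠ 0) ∧
      ∀ f ∈ F, f ∉ U → ∀ g ∈ F, g ∈ U → |φ g| < |φ f| := by
  obtain ⟨φ1, h1, h1'⟩ := exists_phi U hF
  obtain ⟨φ2, h2, h2'⟩ := exists_phi U0 hF
  have hB : ∃ B : ℚ, 0 < B ∧ ∀ g ∈ F, |φ2 g| < B := by
    obtain ⟨B, hB⟩ := (hF.image fun g => |φ2 g|).bddAbove
    refine ⟨|B| + 1, by positivity, fun g hg => ?_⟩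
    have := hB ⟨g, hg, rfl⟩
    have h3 := le_abs_self B
    simp only at this
    linarith
  obtain ⟨B, hB0, hB⟩ := hB
  have hN : ∃ N : ℚ, 0 < N ∧ ∀ f ∈ F, f ∉ U → 2 * B < N * |φ1 f| := by
    obtain ⟨N, hN⟩ := (hF.image fun f => 2 * B / |φ1 f|).bddAbove
    refine ⟨|N| + 1, by positivity, fun f hf hfU => ?_⟩
    have h3 := hN ⟨f, hf, rfl⟩
    have h4 := le_abs_self N
    have h5 : 0 < |φ1 f| := abs_pos.2 (h1' f hf hfU)
    simp only at h3
    rw [div_le_iff₀ h5] at h3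
    nlinarith
  obtain ⟨N, hN0, hN⟩ := hN
  have key : ∀ f ∈ F, f ∉ U → B < |(N • φ1 + φ2) f| := by
    intro f hf hfU
    have h3 := hN f hf hfU
    have h4 := hB f hf
    rw [LinearMap.add_apply, LinearMap.smul_apply, smul_eq_mul]
    have h5 : |N * φ1 f| = N * |φ1 f| := by rw [abs_mul, abs_of_pos hN0]
    have h6 := abs_sub_abs_le_abs_sub (N * φ1 f) (-φ2 f)
    rw [abs_neg, sub_neg_eq_add, h5] at h6
    linarith
  have hU : ∀ g ∈ U, (N • φ1 + φ2) g = φ2 g := by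
    intro g hg
    rw [LinearMap.add_apply, LinearMap.smul_apply, h1 g hg, smul_zero, zero_add]
  refine ⟨N • φ1 + φ2, ?_, ?_, ?_⟩
  · intro u hu
    rw [hU u (h hu), h2 u hu]
  · intro f hf hf0
    by_cases hfU : f ∈ U
    · rw [hU f hfU]
      exact h2' f hf hf0
    · have := key f hf hfU
      intro h3
      rw [h3, abs_zero] at this
      linarith
  · intro f hf hfU g hg hgU
    rw [hU g hgU]
    exact (hB g hg).trans (key f hf hfU)

end Pool.Agent.TH164.Spin
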