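import Pool.Agent.TH164.Spin.Grp

/-!
# Generation of the Clifford group
-/

set_option autoImplicit false
set_option linter.unusedSectionVars false
set_option linter.unusedVariables false

open Module Matrix

namespace Pool.Agent.TH164.Spin

open Pool.Agent.TH119.MX Pool.Agent.TH119.DR Pool.Agent.TH164.A1

variable {N : Type} [Fintype N] [DecidableEq N] [Nonempty N] {n : ℕ}
variable {Γ : Fin n → Matrix N N ℂ} {H : Set (Matrix N N ℂ)}

namespace Cl

theorem sq_vec (h : Cl Γ) {t : Matrix N N ℂ} (ht : t ∈ Ts Γ) :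
    t * t = bq t t • (1 : Matrix N N ℂ) := by
  have h1 := h.relT ht ht
  rw [← two_smul ℂ (t * t), mul_smul] at h1
  exact smul_right_injective _ (two_ne_zero' ℂ) h1

theorem tst (h : Cl Γ) {t r : Matrix N N ℂ} (ht : t ∈ Ts Γ) (hr : r ∈ Ts Γ) :
    t * r * t ∈ Ts Γ := by
  have h1 : t * r = (2 * bq t r) • (1 : Matrix N N ℂ) - r * t := eq_sub_of_add_eq (h.relT ht hr)
  rw [h1, Matrix.sub_mul, Matrix.mul_assoc, h.sq_vec ht, Matrix.smul_mul, Matrix.one_mul,
    Matrix.mul_smul, Matrix.mul_one]
  exact Submodule.sub_mem _ (Submodule.smul_mem _ _ ht) (Submodule.smul_mem _ _ hr)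

theorem prod_InG (h : Cl Γ) {t s : Matrix N N ℂ} (ht : t ∈ Ts Γ) (hs : s ∈ Ts Γ)
    (ht0 : bq t t ≠ 0) (hs0 : bq s s ≠ 0) :
    InG Γ (t * s) ((bq t t * bq s s)⁻¹ • (s * t)) := by
  have h0 : bq t t * bq s s ≠ 0 := mul_ne_zero ht0 hs0
  have e1 : t * s * (s * t) = (bq t t * bq s s) • (1 : Matrix N N ℂ) := by
    calc t * s * (s * t) = t * (s * s) * t := by simp only [Matrix.mul_assoc]
      _ = _ := by
        rw [h.sq_vec hs, Matrix.mul_smul, Matrix.mul_one, Matrix.smul_mul, h.sq_vec ht, smul_smul,
          mul_comm]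
  have e2 : s * t * (t * s) = (bq t t * bq s s) • (1 : Matrix N N ℂ) := by
    calc s * t * (t * s) = s * (t * t) * s := by simp only [Matrix.mul_assoc]
      _ = _ := by
        rw [h.sq_vec ht, Matrix.mul_smul, Matrix.mul_one, Matrix.smul_mul, h.sq_vec hs, smul_smul]
  refine ⟨?_, ?_, fun r hr => ?_, fun r hr => ?_⟩
  · rw [Matrix.mul_smul, e1, smul_smul, inv_mul_cancel₀ h0, one_smul]
  · rw [Matrix.smul_mul, e2, smul_smul, inv_mul_cancel₀ h0, one_smul]
  · rw [Matrix.mul_smul]
    have e3 : t * s * r * (s * t) = t * (s * r * s) * t := by simp only [Matrix.mul_assoc]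
    rw [e3]
    exact Submodule.smul_mem _ _ (h.tst ht (h.tst hs hr))
  · rw [Matrix.smul_mul, Matrix.smul_mul]
    have e3 : s * t * r * (t * s) = s * (t * r * t) * s := by simp only [Matrix.mul_assoc]
    rw [e3]
    exact Submodule.smul_mem _ _ (h.tst hs (h.tst ht hr))

theorem pres_scalar (hone : ∀ d, Stab H d (1 : Matrix N N ℂ)) (c : ℂ) :
    Pres H (c • (1 : Matrix N N ℂ)) := by
  have h1 := pres_of_stab (X := (1 : Matrix N N ℂ)) (ε := 1) (by rw [Matrix.mul_one, one_smul])
    hone (c - 1)
  rwa [sub_smul, one_smul, add_sub_cancel] at h1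

theorem prod_pres (h : Cl Γ) (hLa : ∀ d, ∀ X ∈ La Γ, Stab H d X)
    (hone : ∀ d, Stab H d (1 : Matrix N N ℂ)) {t s : Matrix N N ℂ} (ht : t ∈ Ts Γ)
    (hs : s ∈ Ts Γ) (ht0 : bq t t ≠ 0) (hs0 : bq s s ≠ 0) : Pres H (t * s) := by
  obtain ⟨d, hd⟩ := IsAlgClosed.exists_pow_nat_eq (bq t s ^ 2 - bq t t * bq s s) two_pos
  set r := bq t s + d with hr
  have hr0 : r * (bq t s - d) = bq t t * bq s s := by
    rw [hr]
    linear_combination -hd
  have hrne : r ≠ 0 := by
    intro h1
    rw [h1, zero_mul] at hr0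
    exact mul_ne_zero ht0 hs0 hr0.symm
  have hst : s * t = (2 * bq t s) • (1 : Matrix N N ℂ) - t * s := by
    rw [← h.relT ht hs, add_sub_cancel_left]
  have hZ : (t * s) * (t * s) = (2 * bq t s) • (t * s) -
      (bq t t * bq s s) • (1 : Matrix N N ℂ) := by
    calc (t * s) * (t * s) = t * (s * t) * s := by simp only [Matrix.mul_assoc]
      _ = (2 * bq t s) • (t * s) - (t * t) * (s * s) := by
        rw [hst, Matrix.mul_sub, Matrix.sub_mul, Matrix.mul_smul, Matrix.mul_one,
          Matrix.smul_mul]
        simp only [Matrix.mul_assoc]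
      _ = _ := by
        rw [h.sq_vec ht, h.sq_vec hs, Matrix.smul_mul, Matrix.one_mul, smul_smul]
  have hX : (t * s - r • (1 : Matrix N N ℂ)) * (t * s - r • (1 : Matrix N N ℂ)) =
      ((bq t s - d) - r) • (t * s - r • (1 : Matrix N N ℂ)) := by
    rw [Matrix.sub_mul, Matrix.mul_sub, Matrix.mul_sub, hZ, Matrix.mul_smul, Matrix.smul_mul,
      Matrix.smul_mul, Matrix.mul_one, Matrix.one_mul, ← hr0, hr, Matrix.mul_smul, Matrix.mul_one]
    module
  have hS : ∀ e, Stab H e (t * s - r • (1 : Matrix N N ℂ)) := by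
    intro e
    have h1 : t * s - r • (1 : Matrix N N ℂ) = (1 / 2 : ℂ) • (t * s - s * t) +
        (bq t s - r) • (1 : Matrix N N ℂ) := by
      rw [hst]
      module
    rw [h1]
    exact ((hLa e _ (Submodule.subset_span ⟨t, ht, s, hs, rfl⟩)).smul _).add ((hone e).smul _)
  have h1 := pres_of_stab hX hS r⁻¹
  have h2 : (1 : Matrix N N ℂ) + r⁻¹ • (t * s - r • (1 : Matrix N N ℂ)) = r⁻¹ • (t * s) := by
    rw [smul_sub, smul_smul, inv_mul_cancel₀ hrne, one_smul]
    abel
  rw [h2] at h1
  have h3 := (pres_scalar hone r).mul h1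
  rwa [Matrix.smul_mul, Matrix.one_mul, smul_smul, mul_inv_cancel₀ hrne, one_smul] at h3

/-- The signs of a product. -/
theorem sgn {x : Matrix N N ℂ} {ε : Fin n → ℂ} (hx : ∀ j, x * Γ j = ε j • (Γ j * x))
    (l : List (Fin n)) : x * (l.map Γ).prod = (l.map ε).prod • ((l.map Γ).prod * x) := by
  induction l with
  | nil => simp
  | cons j l ih =>
    rw [List.map_cons, List.prod_cons, List.map_cons, List.prod_cons, ← Matrix.mul_assoc, hx,
      Matrix.smul_mul, Matrix.mul_assoc, ih, Matrix.mul_smul, smul_smul, ← Matrix.mul_assoc]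

/-- There is no element which changes only one sign. -/
theorem no_flip (h : Cl Γ) (hn : Odd n) {x x' : Matrix N N ℂ} (hxx : x * x' = 1) (k : Fin n)
    (h1 : ∀ i, i ≠ k → x * Γ i = Γ i * x) (h2 : x * Γ k = -(Γ k * x)) : False := by
  set W := ((List.finRange n).map Γ).prod with hW
  have hprod : ∀ ε : Fin n → ℂ, ((List.finRange n).map ε).prod = ∏ j, ε j := by
    intro ε
    rw [← List.ofFn_eq_map, List.prod_ofFn]
  have hc : ∀ i, W * Γ i = Γ i * W := by
    intro i
    have h3 := sgn (Γ := Γ) (x := Γ i) (ε := fun j => if i = j then 1 else -1) (fun j => by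
      by_cases hij : i = j
      · simp only [hij, if_true, one_smul]
      · simp only [if_neg hij, neg_one_smul]
        exact h.anti' hij) (List.finRange n)
    rw [hprod, Finset.prod_ite, Finset.prod_const_one, one_mul, Finset.prod_const] at h3
    have h4 : (Finset.univ.filter fun j => ¬ i = j).card = n - 1 := by
      rw [Finset.filter_ne, Finset.card_erase_of_mem (Finset.mem_univ i), Finset.card_univ,
        Fintype.card_fin]
    have h5 : Even (n - 1) := by
      obtain ⟨m, hm⟩ := hn
      exact ⟨m, by omega⟩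
    rw [h4, h5.neg_one_pow, one_smul] at h3
    exact h3.symm
  obtain ⟨c, hc'⟩ := h.scalar_of_commute hc
  have h3 := sgn (Γ := Γ) (x := x) (ε := fun j => if j = k then -1 else 1) (fun j => by
      by_cases hij : j = k
      · simp only [hij, if_true, neg_one_smul]
        exact h2
      · simp only [if_neg hij, one_smul]
        exact h1 j hij) (List.finRange n)
  rw [hprod, Finset.prod_ite_eq' Finset.univ k, if_pos (Finset.mem_univ _), ← hW, hc',
    Matrix.mul_smul, Matrix.smul_mul, Matrix.mul_one, Matrix.one_mul, neg_one_smul] at h3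
  have hu : IsUnit W := by
    refine List.prod_isUnit fun m hm => ?_
    obtain ⟨i, -, rfl⟩ := List.mem_map.1 hm
    exact ⟨⟨Γ i, Γ i, h.sq_one i, h.sq_one i⟩, rfl⟩
  have hc0 : c ≠ 0 := by
    rintro rfl
    rw [hc', zero_smul] at hu
    exact not_isUnit_zero hu
  have hx0 : x ≠ 0 := by
    rintro rfl
    rw [Matrix.zero_mul] at hxx
    exact zero_ne_one hxx
  have h4 : (2 * c) • x = 0 := by
    rw [mul_smul, two_smul]
    nth_rewrite 1 [h3]
    exact neg_add_cancel _
  exact smul_ne_zero (mul_ne_zero two_ne_zero hc0) hx0 h4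

/-- **Generation.** -/
theorem pres_all (h : Cl Γ) (hn : Odd n) (hLa : ∀ d, ∀ X ∈ La Γ, Stab H d X)
    (hone : ∀ d, Stab H d (1 : Matrix N N ℂ)) : ∀ m ≤ n, ∀ g g' : Matrix N N ℂ, InG Γ g g' →
      (∀ i : Fin n, (i : ℕ) + m < n → g * Γ i = Γ i * g) → Pres H g := by
  intro m
  induction m with
  | zero =>
    intro _ g g' hg hc
    obtain ⟨c, rfl⟩ := h.scalar_of_commute fun i => hc i i.2
    exact pres_scalar hone c
  | succ m ih =>
    intro hmn g g' hg hc
    have hk : n - (m + 1) < n := by omega
    set k : Fin n := ⟨n - (m + 1), hk⟩ with hkdef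
    have hkv : (k : ℕ) = n - (m + 1) := rfl
    have hcl : ∀ i : Fin n, i < k → g * Γ i = Γ i * g := fun i hi => hc i (by
      have : (i : ℕ) < n - (m + 1) := hi
      omega)
    set v := g * Γ k * g' with hv
    have hvT : v ∈ Ts Γ := hg.c _ (gam_mem k)
    have hvv : v * v = 1 := by
      calc v * v = g * Γ k * (g' * g) * Γ k * g' := by simp only [hv, Matrix.mul_assoc]
        _ = g * (Γ k * Γ k) * g' := by rw [hg.l, Matrix.mul_one]; simp only [Matrix.mul_assoc]
        _ = 1 := by rw [h.sq_one, Matrix.mul_one, hg.r]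
    have hvi : ∀ i : Fin n, i < k → v * Γ i = -(Γ i * v) := by
      intro i hi
      have e1 : g' * Γ i = Γ i * g' := by
        calc g' * Γ i = g' * (Γ i * (g * g')) := by rw [hg.r, Matrix.mul_one]
          _ = g' * (g * Γ i) * g' := by rw [hcl i hi]; simp only [Matrix.mul_assoc]
          _ = Γ i * g' := by rw [← Matrix.mul_assoc, hg.l, Matrix.one_mul]
      calc v * Γ i = g * Γ k * (g' * Γ i) := by simp only [hv, Matrix.mul_assoc]
        _ = g * (Γ k * Γ i) * g' := by rw [e1]; simp only [Matrix.mul_assoc]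
        _ = -(g * Γ i * Γ k * g') := by
          rw [h.anti' (ne_of_gt hi), Matrix.mul_neg, Matrix.neg_mul]
          simp only [Matrix.mul_assoc]
        _ = -(Γ i * v) := by
          rw [hcl i hi]
          simp only [hv, Matrix.mul_assoc]
    have hvg : g * Γ k = v * g := by
      rw [hv, Matrix.mul_assoc, hg.l, Matrix.mul_one]
    -- the general step
    have step : ∀ w w' : Matrix N N ℂ, InG Γ w w' → Pres H w → (∀ i, i < k → w * Γ i = Γ i * w) →
        w * Γ k = v * w → Pres H g := by
      intro w w' hw hpw hwi hwk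
      have e1 : ∀ r s : Matrix N N ℂ, w * r = s * w → w' * s = r * w' := by
        intro r s hrs
        calc w' * s = w' * (s * w) * w' := by
              rw [Matrix.mul_assoc w' (s * w) w', Matrix.mul_assoc s w w', hw.r, Matrix.mul_one]
          _ = r * w' := by
              rw [← hrs, ← Matrix.mul_assoc, hw.l, Matrix.one_mul]
      have h1 := ih (by omega) (w' * g) (g' * w) (hw.symm.mul hg) (by
        intro i hi
        have hik : i < k ∨ i = k := by
          have h2 : (i : ℕ) ≤ k := by
            rw [hkv]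
            omega
          rcases Nat.lt_or_ge i k with h3 | h3
          · exact Or.inl h3
          · exact Or.inr (Fin.ext (le_antisymm h2 h3))
        rcases hik with h2 | h2
        · rw [Matrix.mul_assoc, hcl i h2, ← Matrix.mul_assoc, e1 _ _ (hwi i h2),
            Matrix.mul_assoc]
        · rw [h2, Matrix.mul_assoc, hvg, ← Matrix.mul_assoc, e1 _ _ hwk, Matrix.mul_assoc])
      have h2 := hpw.mul h1
      rwa [← Matrix.mul_assoc, hw.r, Matrix.one_mul] at h2
    have hq : v * Γ k + Γ k * v = (2 * bq v (Γ k)) • (1 : Matrix N N ℂ) :=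
      h.relT hvT (gam_mem k)
    have hkk : bq (Γ k) (Γ k) = 1 := by rw [h.bq_gam, if_pos rfl]
    have hvv' : bq v v = 1 := by
      have h1 := h.sq_vec hvT
      rw [hvv] at h1
      have h2 : (bq v v - 1) • (1 : Matrix N N ℂ) = 0 := by
        rw [sub_smul, one_smul, ← h1, sub_self]
      rw [smul_eq_zero, or_iff_left one_ne_zero, sub_eq_zero] at h2
      exact h2
    have hsym : bq (Γ k) v = bq v (Γ k) := by
      rw [bq_apply, bq_apply, Matrix.trace_mul_comm]
    by_cases hneg : bq v (Γ k) = -1
    · by_cases hm : m = 0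
      · -- the last vector
        exfalso
        have h1 : v = -Γ k := by
          obtain ⟨c, hc'⟩ := mem_Ts.1 hvT
          have h2 : ∀ j, c j = bq v (Γ j) := by
            intro j
            rw [← hc', h.bq_sum]
          have h3 : ∀ j, j ≠ k → c j = 0 := by
            intro j hj
            have hjk : j < k := by
              refine lt_of_le_of_ne ?_ hj
              have := j.2
              change (j : ℕ) ≤ (k : ℕ)
              rw [hkv]
              omega
            rw [h2]
            have h4 := h.relT hvT (gam_mem j)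
            rw [hvi j hjk, neg_add_cancel] at h4
            have h5 := (smul_eq_zero.1 h4.symm).resolve_right one_ne_zero
            simpa using h5
          rw [← hc', Finset.sum_eq_single k (fun j _ hj => by rw [h3 j hj, zero_smul])
            (fun hk => absurd (Finset.mem_univ _) hk), h2, hneg, neg_one_smul]
        refine h.no_flip hn hg.r k (fun i hi => hcl i ?_) ?_
        · refine lt_of_le_of_ne ?_ hi
          have := i.2
          change (i : ℕ) ≤ (k : ℕ)
          rw [hkv]
          omega
        · rw [hvg, h1, Matrix.neg_mul]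
      · -- use the next vector
        have hj : (k : ℕ) + 1 < n := by
          rw [hkv]
          omega
        set j : Fin n := ⟨(k : ℕ) + 1, hj⟩ with hjdef
        have hjk : j ≠ k := by
          intro h1
          have := congrArg Fin.val h1
          simp [hjdef] at this
        have hd : Γ k - v ∈ Ts Γ := Submodule.sub_mem _ (gam_mem k) hvT
        have hdd : bq (Γ k - v) (Γ k - v) = 4 := by
          simp only [map_sub, LinearMap.sub_apply, hkk, hvv', hsym, hneg]
          norm_num
        have hjj : bq (Γ j) (Γ j) = 1 := by rw [h.bq_gam, if_pos rfl]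
        refine step ((Γ k - v) * Γ j) _ (h.prod_InG hd (gam_mem j) (by rw [hdd]; norm_num)
          (by rw [hjj]; norm_num)) (h.prod_pres hLa hone hd (gam_mem j) (by rw [hdd]; norm_num)
          (by rw [hjj]; norm_num)) ?_ ?_
        · intro i hi
          have hij : j ≠ i := by
            intro h1
            rw [← h1] at hi
            have : (k : ℕ) + 1 < k := hi
            omega
          calc (Γ k - v) * Γ j * Γ i = (Γ k - v) * (Γ j * Γ i) := Matrix.mul_assoc _ _ _
            _ = -((Γ k * Γ i - v * Γ i) * Γ j) := by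
              rw [h.anti' hij, Matrix.mul_neg, ← Matrix.mul_assoc, Matrix.sub_mul]
            _ = Γ i * ((Γ k - v) * Γ j) := by
              rw [h.anti' (ne_of_gt hi), hvi i hi, neg_sub_neg, Matrix.sub_mul, neg_sub,
                Matrix.sub_mul, Matrix.mul_sub]
              simp only [Matrix.mul_assoc]
        · calc (Γ k - v) * Γ j * Γ k = (Γ k - v) * (Γ j * Γ k) := Matrix.mul_assoc _ _ _
            _ = -((Γ k * Γ k - v * Γ k) * Γ j) := by
              rw [h.anti' hjk, Matrix.mul_neg, ← Matrix.mul_assoc, Matrix.sub_mul]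
            _ = v * ((Γ k - v) * Γ j) := by
              rw [h.sq_one, ← Matrix.mul_assoc v, Matrix.mul_sub, hvv, ← Matrix.neg_mul, neg_sub]
    · have hd : Γ k + v ∈ Ts Γ := Submodule.add_mem _ (gam_mem k) hvT
      have hdd : bq (Γ k + v) (Γ k + v) ≠ 0 := by
        simp only [map_add, LinearMap.add_apply, hkk, hvv', hsym]
        intro h1
        apply hneg
        linear_combination (1 / 2 : ℂ) * h1
      refine step ((Γ k + v) * Γ k) _ (h.prod_InG hd (gam_mem k) hdd (by rw [hkk]; norm_num))
        (h.prod_pres hLa hone hd (gam_mem k) hdd (by rw [hkk]; norm_num)) ?_ ?_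
      · intro i hi
        calc (Γ k + v) * Γ k * Γ i = (Γ k + v) * (Γ k * Γ i) := Matrix.mul_assoc _ _ _
          _ = (Γ k + v) * (-(Γ i * Γ k)) := by rw [h.anti' (ne_of_gt hi)]
          _ = -((Γ k * Γ i + v * Γ i) * Γ k) := by
            rw [Matrix.mul_neg, ← Matrix.mul_assoc, Matrix.add_mul]
          _ = Γ i * ((Γ k + v) * Γ k) := by
            rw [h.anti' (ne_of_gt hi), hvi i hi, ← neg_add, Matrix.neg_mul, neg_neg,
              Matrix.add_mul, Matrix.add_mul, Matrix.mul_add]
            simp only [Matrix.mul_assoc]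
      · rw [Matrix.mul_assoc, h.sq_one, Matrix.mul_one, ← Matrix.mul_assoc, Matrix.mul_add, hvv,
          Matrix.add_mul, Matrix.mul_assoc, h.sq_one, Matrix.mul_one, Matrix.one_mul, add_comm]

end Cl

end Pool.Agent.TH164.Spin
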