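import Pool.Agent.TH164.Spin.Ev9

/-!
# The group `GSpin` in all dimensions
-/

set_option autoImplicit false
set_option linter.unusedSectionVars false
set_option linter.unusedVariables false

open Module Matrix

namespace Pool.Agent.TH164.Spin

open Pool.Agent.TH119.MX Pool.Agent.TH119.DR Pool.Agent.TH164.A1

variable {N : Type} [Fintype N] [DecidableEq N] [Nonempty N] {n : ℕ}
variable {Γ : Fin n → Matrix N N ℂ} {H : Set (Matrix N N ℂ)}

namespace Cl

/-- Elements of the even Clifford algebra commute with the product of all generators. -/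
theorem ev_omega (h : Cl Γ) {x : Matrix N N ℂ} (hx : x ∈ Ev Γ) :
    x * ((List.finRange n).map Γ).prod = ((List.finRange n).map Γ).prod * x := by
  set ω := ((List.finRange n).map Γ).prod with hω
  induction hx using Algebra.adjoin_induction with
  | mem x hx =>
    obtain ⟨i, j, rfl⟩ := hx
    have h1 : ((-1 : ℂ) ^ (n - 1)) * ((-1 : ℂ) ^ (n - 1)) = 1 := by
      rw [← mul_pow, neg_mul_neg, one_mul, one_pow]
    rw [Matrix.mul_assoc, h.omega_mul j, Matrix.mul_smul, ← Matrix.mul_assoc, h.omega_mul i,
      Matrix.smul_mul, smul_smul, h1, one_smul, Matrix.mul_assoc]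
  | algebraMap r => exact Algebra.commutes r ω
  | add x y _ _ hx hy => rw [Matrix.add_mul, Matrix.mul_add, hx, hy]
  | mul x y _ _ hx hy => rw [Matrix.mul_assoc, hy, ← Matrix.mul_assoc, hx, Matrix.mul_assoc]

/-- There is no even element which changes only one sign. -/
theorem no_flip' (h : Cl Γ) {x x' : Matrix N N ℂ} (hxx : x * x' = 1) (hxE : x ∈ Ev Γ) (k : Fin n)
    (h1 : ∀ i, i ≠ k → x * Γ i = Γ i * x) (h2 : x * Γ k = -(Γ k * x)) : False := by
  set W := ((List.finRange n).map Γ).prod with hW
  have hprod : ∀ ε : Fin n → ℂ, ((List.finRange n).map ε).prod = ∏ j, ε j := by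
    intro ε
    rw [← List.ofFn_eq_map, List.prod_ofFn]
  have h3 := sgn (Γ := Γ) (x := x) (ε := fun j => if j = k then -1 else 1) (fun j => by
      by_cases hij : j = k
      · simp only [hij, if_true, neg_one_smul]
        exact h2
      · simp only [if_neg hij, one_smul]
        exact h1 j hij) (List.finRange n)
  rw [hprod, Finset.prod_ite_eq' Finset.univ k, if_pos (Finset.mem_univ _), ← hW, h.ev_omega hxE,
    neg_one_smul] at h3
  obtain ⟨u, hu⟩ := h.omega_unit
  have hx0 : x ≠ 0 := by
    rintro rfl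
    rw [Matrix.zero_mul] at hxx
    exact zero_ne_one hxx
  have h4 : (2 : ℂ) • (W * x) = 0 := by
    rw [two_smul]
    nth_rewrite 1 [h3]
    exact neg_add_cancel _
  have h5 : W * x = 0 := (smul_eq_zero.1 h4).resolve_left two_ne_zero
  rw [hW, ← hu] at h5
  apply hx0
  calc x = (u⁻¹).val * (u.val * x) := by
        rw [← Matrix.mul_assoc]
        change x = ((u⁻¹).val * u.val) * x
        rw [Units.inv_mul, Matrix.one_mul]
    _ = 0 := by rw [h5, Matrix.mul_zero]

/-- **The stabilizer is everything.** -/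
theorem stab_all' (h : Cl Γ) (h3 : 3 ≤ n) (h5 : n ≠ 5) (hH : AlgGrp QA H)
    (hΓ : ∀ i a b, IsAlgebraic ℚ (Γ i a b)) {P P' : Matrix N N ℂ}
    (hP : P * P' = 1) (hP' : P' * P = 1) (hG : InG Γ P P') (hPE : P ∈ Ev Γ)
    {B B' : Matrix N N ℂ}
    (hB : B * B' = 1) (hBa : ∀ i j, B' i j ∈ QA) (hPB : P * B ∈ H)
    (hW : ∀ B : Matrix N N ℂ, (∀ i j, IsAlgebraic ℚ (B i j)) → ∑ p : N × N,
      B p.1 p.2 * P p.1 p.2 = 0 → ∀ x ∈ Ev Γ, ∑ p : N × N, B p.1 p.2 * x p.1 p.2 = 0)
    (hdet : ¬ IsAlgebraic ℚ P.det) (d : ℕ) :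
    (∀ X ∈ La Γ, Stab H d X) ∧ Stab H d (1 : Matrix N N ℂ) := by
  have hA : (1 : Matrix N N ℂ) * 1 = 1 := Matrix.one_mul 1
  have hAa : ∀ i j, IsAlgebraic ℚ ((1 : Matrix N N ℂ) i j) := by
    intro i j
    rw [Matrix.one_apply]
    split_ifs
    · exact isAlgebraic_one
    · exact isAlgebraic_zero
  have hG1 : InG Γ (P * 1) (1 * P') := by rwa [Matrix.mul_one, Matrix.one_mul]
  have hgen := adjoin_ge (Ev Γ) (Hd Γ H d) (A := 1) (A' := 1) hP hP'
    (fun δ X hX => Ev_der hΓ δ hX) (fun δ X hX => Hd_der hH hΓ d δ hX) (by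
      rintro X ⟨h1, h2⟩
      obtain ⟨Y, hY, c, rfl⟩ := h.decomp fun i => h1 _ (gam_mem i)
      exact Subalgebra.add_mem _ (La_le_Ev hY) (Subalgebra.smul_mem _ (Subalgebra.one_mem _) c))
    (fun δ => Hd_P hH hΓ hP hP' hG1 hA hAa hB hBa hPB d δ) hA hAa (by rwa [Matrix.mul_one]) (by
      intro B hB h1 x hx
      rw [Matrix.mul_one]
      exact hW B hB h1 x hx)
  set l : Submodule ℂ (Matrix N N ℂ) :=
    { carrier := {Y | Y ∈ La Γ ∧ ∃ c : ℂ, Stab H d (Y + c • (1 : Matrix N N ℂ))}
      zero_mem' := ⟨Submodule.zero_mem _, 0, by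
        rw [zero_smul, add_zero]
        exact Stab.zero⟩
      add_mem' := by
        rintro X Y ⟨h1, c, h2⟩ ⟨h3, c', h4⟩
        refine ⟨Submodule.add_mem _ h1 h3, c + c', ?_⟩
        have h5 : X + Y + (c + c') • (1 : Matrix N N ℂ) = (X + c • (1 : Matrix N N ℂ)) +
            (Y + c' • (1 : Matrix N N ℂ)) := by
          rw [add_smul]
          abel
        rw [h5]
        exact h2.add h4
      smul_mem' := by
        rintro a X ⟨h1, c, h2⟩
        refine ⟨Submodule.smul_mem _ _ h1, a * c, ?_⟩
        have h5 : a • X + (a * c) • (1 : Matrix N N ℂ) = a • (X + c • (1 : Matrix N N ℂ)) := by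
          rw [smul_add, smul_smul]
        rw [h5]
        exact h2.smul a } with hl
  have hbr : ∀ X Y : Matrix N N ℂ, ∀ c c' : ℂ, (X + c • (1 : Matrix N N ℂ)) *
      (Y + c' • (1 : Matrix N N ℂ)) - (Y + c' • (1 : Matrix N N ℂ)) *
      (X + c • (1 : Matrix N N ℂ)) = X * Y - Y * X := by
    intro X Y c c'
    simp only [Matrix.add_mul, Matrix.mul_add, Matrix.smul_mul, Matrix.mul_smul, Matrix.one_mul,
      Matrix.mul_one]
    module
  have hle := h.spinAll h3 h5 (l := l) (by
    rintro X ⟨h1, c, h2⟩ Y ⟨h3, c', h4⟩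
    refine ⟨h.la_br h1 h3, 0, ?_⟩
    rw [zero_smul, add_zero, ← hbr X Y c c']
    exact h2.comm h4) (fun X hX => hX.1) (by
    refine hgen.trans (Algebra.adjoin_le ?_)
    rintro X ⟨h1, h2⟩
    obtain ⟨Y, hY, c, rfl⟩ := h.decomp fun i => h1 _ (gam_mem i)
    refine Subalgebra.add_mem _ (Algebra.subset_adjoin ⟨hY, c, h2⟩) ?_
    exact Subalgebra.smul_mem _ (Subalgebra.one_mem _) c)
  have hst : ∀ i k : Fin n, Stab H d (Γ i * Γ k - Γ k * Γ i) := by
    intro i k
    by_cases hik : i = k
    · rw [hik, sub_self]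
      exact Stab.zero
    have hj : ∃ j : Fin n, j ≠ i ∧ j ≠ k := by
      by_contra hcon
      push Not at hcon
      have h6 : Fintype.card (Fin n) ≤ 2 := by
        have h7 : (Finset.univ : Finset (Fin n)) ⊆ {i, k} := by
          intro j _
          by_cases hj : j = i
          · rw [hj]
            simp
          · rw [hcon j hj]
            simp
        calc Fintype.card (Fin n) = (Finset.univ : Finset (Fin n)).card := rfl
          _ ≤ ({i, k} : Finset (Fin n)).card := Finset.card_le_card h7
          _ ≤ 2 := Finset.card_le_two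
      rw [Fintype.card_fin] at h6
      omega
    obtain ⟨j, hji, hjk⟩ := hj
    obtain ⟨-, c, hc⟩ := hle (Submodule.subset_span ⟨_, gam_mem i, _, gam_mem j, rfl⟩)
    obtain ⟨-, c', hc'⟩ := hle (Submodule.subset_span ⟨_, gam_mem j, _, gam_mem k, rfl⟩)
    have h6 := hc.comm hc'
    rw [hbr, h.triple hji.symm hjk hik] at h6
    have h7 := h6.smul (4 : ℂ)⁻¹
    rwa [smul_smul, inv_mul_cancel₀ (by norm_num), one_smul] at h7
  have hLa : ∀ X ∈ La Γ, Stab H d X := by
    intro X hX
    induction hX using Submodule.span_induction with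
    | mem y hy =>
      obtain ⟨a, ha, b, hb, rfl⟩ := hy
      induction ha using Submodule.span_induction with
      | mem x hx =>
        obtain ⟨i, rfl⟩ := hx
        induction hb using Submodule.span_induction with
        | mem y hy =>
          obtain ⟨k, rfl⟩ := hy
          exact hst i k
        | zero =>
          rw [Matrix.mul_zero, Matrix.zero_mul, sub_zero]
          exact Stab.zero
        | add a b _ _ ha hb =>
          rw [Matrix.mul_add, Matrix.add_mul, add_sub_add_comm]
          exact ha.add hb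
        | smul c a _ ha =>
          rw [Matrix.smul_mul, Matrix.mul_smul, ← smul_sub]
          exact ha.smul c
      | zero =>
        rw [Matrix.mul_zero, Matrix.zero_mul, sub_zero]
        exact Stab.zero
      | add a b _ _ ha hb =>
        rw [Matrix.mul_add, Matrix.add_mul, add_sub_add_comm]
        exact ha.add hb
      | smul c a _ ha =>
        rw [Matrix.smul_mul, Matrix.mul_smul, ← smul_sub]
        exact ha.smul c
    | zero => exact Stab.zero
    | add a b _ _ ha hb => exact ha.add hb
    | smul c a _ ha => exact ha.smul c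
  refine ⟨hLa, ?_⟩
  obtain ⟨δ, hδ⟩ := exists_deriv hdet
  obtain ⟨h6, h7⟩ := Hd_P hH hΓ hP hP' hG1 hA hAa hB hBa hPB d δ
  obtain ⟨Y, hY, c, hc⟩ := h.decomp fun i => h6 _ (gam_mem i)
  have h8 := der_det' δ hP
  rw [hc, Matrix.trace_add, la_trace hY, zero_add, Matrix.trace_smul, Matrix.trace_one,
    smul_eq_mul] at h8
  have hc0 : c ≠ 0 := by
    rintro rfl
    rw [zero_mul, mul_zero] at h8
    exact hδ h8
  rw [hc] at h7
  have h9 := h7.add ((hLa Y hY).smul (-1))
  have h10 : Y + c • (1 : Matrix N N ℂ) + (-1 : ℂ) • Y = c • (1 : Matrix N N ℂ) := by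
    rw [neg_one_smul]
    abel
  rw [h10] at h9
  have h11 := h9.smul c⁻¹
  rwa [smul_smul, inv_mul_cancel₀ hc0, one_smul] at h11

/-- **Generation.** -/
theorem pres_all' (h : Cl Γ) (hLa : ∀ d, ∀ X ∈ La Γ, Stab H d X)
    (hone : ∀ d, Stab H d (1 : Matrix N N ℂ)) : ∀ m ≤ n, ∀ g g' : Matrix N N ℂ, InG Γ g g' →
      g ∈ Ev Γ → (∀ i : Fin n, (i : ℕ) + m < n → g * Γ i = Γ i * g) → Pres H g := by
  intro m
  induction m with
  | zero =>
    intro _ g g' hg hgE hc
    obtain ⟨c, rfl⟩ := h.scalar_of_commute fun i => hc i i.2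
    exact pres_scalar hone c
  | succ m ih =>
    intro hmn g g' hg hgE hc
    have hk : n - (m + 1) < n := by omega
    set k : Fin n := ⟨n - (m + 1), hk⟩ with hkdef
    have hkv : (k : ℕ) = n - (m + 1) := rfl
    have hcl : ∀ i : Fin n, i < k → g * Γ i = Γ i * g := fun i hi => hc i (by
      have : (i : ℕ) < n - (m + 1) := hi
      omega)
    set v := g * Γ k * g' with hv
    have hvT : v ∈ Ts Γ := hg.c _ (gam_mem k)
    have hvv : v * v = 1 := by
      calc v * v = g * Γ k * (g' * g) * Γ k * g' := by simp only [hv, Matrix.mul_assoc]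
        _ = g * (Γ k * Γ k) * g' := by rw [hg.l, Matrix.mul_one]; simp only [Matrix.mul_assoc]
        _ = 1 := by rw [h.sq_one, Matrix.mul_one, hg.r]
    have hvi : ∀ i : Fin n, i < k → v * Γ i = -(Γ i * v) := by
      intro i hi
      have e1 : g' * Γ i = Γ i * g' := by
        calc g' * Γ i = g' * (Γ i * (g * g')) := by rw [hg.r, Matrix.mul_one]
          _ = g' * (g * Γ i) * g' := by rw [hcl i hi]; simp only [Matrix.mul_assoc]
          _ = Γ i * g' := by rw [← Matrix.mul_assoc, hg.l, Matrix.one_mul]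
      calc v * Γ i = g * Γ k * (g' * Γ i) := by simp only [hv, Matrix.mul_assoc]
        _ = g * (Γ k * Γ i) * g' := by rw [e1]; simp only [Matrix.mul_assoc]
        _ = -(g * Γ i * Γ k * g') := by
          rw [h.anti' (ne_of_gt hi), Matrix.mul_neg, Matrix.neg_mul]
          simp only [Matrix.mul_assoc]
        _ = -(Γ i * v) := by
          rw [hcl i hi]
          simp only [hv, Matrix.mul_assoc]
    have hvg : g * Γ k = v * g := by
      rw [hv, Matrix.mul_assoc, hg.l, Matrix.mul_one]
    -- the general step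
    have step : ∀ w w' : Matrix N N ℂ, InG Γ w w' → w' ∈ Ev Γ → Pres H w →
        (∀ i, i < k → w * Γ i = Γ i * w) → w * Γ k = v * w → Pres H g := by
      intro w w' hw hwE hpw hwi hwk
      have e1 : ∀ r s : Matrix N N ℂ, w * r = s * w → w' * s = r * w' := by
        intro r s hrs
        calc w' * s = w' * (s * w) * w' := by
              rw [Matrix.mul_assoc w' (s * w) w', Matrix.mul_assoc s w w', hw.r, Matrix.mul_one]
          _ = r * w' := by
              rw [← hrs, ← Matrix.mul_assoc, hw.l, Matrix.one_mul]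
      have h1 := ih (by omega) (w' * g) (g' * w) (hw.symm.mul hg)
        (Subalgebra.mul_mem _ hwE hgE) (by
        intro i hi
        have hik : i < k ∨ i = k := by
          have h2 : (i : ℕ) ≤ k := by
            rw [hkv]
            omega
          rcases Nat.lt_or_ge i k with h3 | h3
          · exact Or.inl h3
          · exact Or.inr (Fin.ext (le_antisymm h2 h3))
        rcases hik with h2 | h2
        · rw [Matrix.mul_assoc, hcl i h2, ← Matrix.mul_assoc, e1 _ _ (hwi i h2),
            Matrix.mul_assoc]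
        · rw [h2, Matrix.mul_assoc, hvg, ← Matrix.mul_assoc, e1 _ _ hwk, Matrix.mul_assoc])
      have h2 := hpw.mul h1
      rwa [← Matrix.mul_assoc, hw.r, Matrix.one_mul] at h2
    have hq : v * Γ k + Γ k * v = (2 * bq v (Γ k)) • (1 : Matrix N N ℂ) :=
      h.relT hvT (gam_mem k)
    have hkk : bq (Γ k) (Γ k) = 1 := by rw [h.bq_gam, if_pos rfl]
    have hvv' : bq v v = 1 := by
      have h1 := h.sq_vec hvT
      rw [hvv] at h1
      have h2 : (bq v v - 1) • (1 : Matrix N N ℂ) = 0 := by
        rw [sub_smul, one_smul, ← h1, sub_self]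
      rw [smul_eq_zero, or_iff_left one_ne_zero, sub_eq_zero] at h2
      exact h2
    have hsym : bq (Γ k) v = bq v (Γ k) := by
      rw [bq_apply, bq_apply, Matrix.trace_mul_comm]
    by_cases hneg : bq v (Γ k) = -1
    · by_cases hm : m = 0
      · -- the last vector
        exfalso
        have h1 : v = -Γ k := by
          obtain ⟨c, hc'⟩ := mem_Ts.1 hvT
          have h2 : ∀ j, c j = bq v (Γ j) := by
            intro j
            rw [← hc', h.bq_sum]
          have h3 : ∀ j, j ≠ k → c j = 0 := by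
            intro j hj
            have hjk : j < k := by
              refine lt_of_le_of_ne ?_ hj
              have := j.2
              change (j : ℕ) ≤ (k : ℕ)
              rw [hkv]
              omega
            rw [h2]
            have h4 := h.relT hvT (gam_mem j)
            rw [hvi j hjk, neg_add_cancel] at h4
            have h5 := (smul_eq_zero.1 h4.symm).resolve_right one_ne_zero
            simpa using h5
          rw [← hc', Finset.sum_eq_single k (fun j _ hj => by rw [h3 j hj, zero_smul])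
            (fun hk => absurd (Finset.mem_univ _) hk), h2, hneg, neg_one_smul]
        refine h.no_flip' hg.r hgE k (fun i hi => hcl i ?_) ?_
        · refine lt_of_le_of_ne ?_ hi
          have := i.2
          change (i : ℕ) ≤ (k : ℕ)
          rw [hkv]
          omega
        · rw [hvg, h1, Matrix.neg_mul]
      · -- use the next vector
        have hj : (k : ℕ) + 1 < n := by
          rw [hkv]
          omega
        set j : Fin n := ⟨(k : ℕ) + 1, hj⟩ with hjdef
        have hjk : j ≠ k := by
          intro h1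
          have := congrArg Fin.val h1
          simp [hjdef] at this
        have hd : Γ k - v ∈ Ts Γ := Submodule.sub_mem _ (gam_mem k) hvT
        have hdd : bq (Γ k - v) (Γ k - v) = 4 := by
          simp only [map_sub, LinearMap.sub_apply, hkk, hvv', hsym, hneg]
          norm_num
        have hjj : bq (Γ j) (Γ j) = 1 := by rw [h.bq_gam, if_pos rfl]
        refine step ((Γ k - v) * Γ j) _ (h.prod_InG hd (gam_mem j) (by rw [hdd]; norm_num)
          (by rw [hjj]; norm_num)) (Subalgebra.smul_mem _ (Ts_mul_mem_Ev (gam_mem j) hd) _)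
          (h.prod_pres hLa hone hd (gam_mem j) (by rw [hdd]; norm_num)
          (by rw [hjj]; norm_num)) ?_ ?_
        · intro i hi
          have hij : j ≠ i := by
            intro h1
            rw [← h1] at hi
            have : (k : ℕ) + 1 < k := hi
            omega
          calc (Γ k - v) * Γ j * Γ i = (Γ k - v) * (Γ j * Γ i) := Matrix.mul_assoc _ _ _
            _ = -((Γ k * Γ i - v * Γ i) * Γ j) := by
              rw [h.anti' hij, Matrix.mul_neg, ← Matrix.mul_assoc, Matrix.sub_mul]
            _ = Γ i * ((Γ k - v) * Γ j) := by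
              rw [h.anti' (ne_of_gt hi), hvi i hi, neg_sub_neg, Matrix.sub_mul, neg_sub,
                Matrix.sub_mul, Matrix.mul_sub]
              simp only [Matrix.mul_assoc]
        · calc (Γ k - v) * Γ j * Γ k = (Γ k - v) * (Γ j * Γ k) := Matrix.mul_assoc _ _ _
            _ = -((Γ k * Γ k - v * Γ k) * Γ j) := by
              rw [h.anti' hjk, Matrix.mul_neg, ← Matrix.mul_assoc, Matrix.sub_mul]
            _ = v * ((Γ k - v) * Γ j) := by
              rw [h.sq_one, ← Matrix.mul_assoc v, Matrix.mul_sub, hvv, ← Matrix.neg_mul, neg_sub]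
    · have hd : Γ k + v ∈ Ts Γ := Submodule.add_mem _ (gam_mem k) hvT
      have hdd : bq (Γ k + v) (Γ k + v) ≠ 0 := by
        simp only [map_add, LinearMap.add_apply, hkk, hvv', hsym]
        intro h1
        apply hneg
        linear_combination (1 / 2 : ℂ) * h1
      refine step ((Γ k + v) * Γ k) _ (h.prod_InG hd (gam_mem k) hdd (by rw [hkk]; norm_num))
        (Subalgebra.smul_mem _ (Ts_mul_mem_Ev (gam_mem k) hd) _) (h.prod_pres hLa hone hd (gam_mem k) hdd (by rw [hkk]; norm_num)) ?_ ?_
      · intro i hi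
        calc (Γ k + v) * Γ k * Γ i = (Γ k + v) * (Γ k * Γ i) := Matrix.mul_assoc _ _ _
          _ = (Γ k + v) * (-(Γ i * Γ k)) := by rw [h.anti' (ne_of_gt hi)]
          _ = -((Γ k * Γ i + v * Γ i) * Γ k) := by
            rw [Matrix.mul_neg, ← Matrix.mul_assoc, Matrix.add_mul]
          _ = Γ i * ((Γ k + v) * Γ k) := by
            rw [h.anti' (ne_of_gt hi), hvi i hi, ← neg_add, Matrix.neg_mul, neg_neg,
              Matrix.add_mul, Matrix.add_mul, Matrix.mul_add]
            simp only [Matrix.mul_assoc]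
      · rw [Matrix.mul_assoc, h.sq_one, Matrix.mul_one, ← Matrix.mul_assoc, Matrix.mul_add, hvv,
          Matrix.add_mul, Matrix.mul_assoc, h.sq_one, Matrix.mul_one, Matrix.one_mul, add_comm]

end Cl

end Pool.Agent.TH164.Spin
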