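import Pool.Agent.TH164.Spin.Cas

/-!
# The second level
-/

set_option autoImplicit false
set_option linter.unusedSectionVars false
set_option linter.unusedVariables false

open Module LieModule LieAlgebra LieAlgebra.IsKilling

namespace Pool.Agent.TH164.Spin

variable {k L : Type*} [Field k] [IsAlgClosed k] [CharZero k] [LieRing L] [LieAlgebra k L]
  [FiniteDimensional k L] [LieAlgebra.IsKilling k L] {H : LieSubalgebra k L}
  [H.IsCartanSubalgebra]
variable {S : Type*} [AddCommGroup S] [Module k S] [LieRingModule L S] [LieModule k L S]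
  [FiniteDimensional k S] [Nontrivial S]
variable {T : Type*} [AddCommGroup T] [Module k T] [LieRingModule L T] [LieModule k L T]
  [FiniteDimensional k T]

variable {q : T →ₗ[k] T →ₗ[k] k} {cl : T →ₗ[k] S →ₗ[k] S}

/-- The set of products of vectors of level `-c` with the top level. -/
def stepT (cl : T →ₗ[k] S →ₗ[k] S) (φ : (H → k) →ₗ[ℚ] ℚ) (M c : ℚ) : Set S :=
  {m | ∃ μ, φ μ = -c ∧ ∃ t ∈ wt H T μ, ∃ s ∈ tp H S φ M, m = cl t s}

/-- The set of products of elements of level `-c` with the top level. -/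
def stepL (S : Type*) [AddCommGroup S] [Module k S] [LieRingModule L S]
    [LieModule k L S] (φ : (H → k) →ₗ[ℚ] ℚ) (M c : ℚ) : Set S :=
  {m | ∃ γ, φ γ = -c ∧ ∃ x ∈ wt H L γ, ∃ s ∈ tp H S φ M, m = ⁅x, s⁆}

namespace Sp

theorem stepT_le (h : Sp H q cl) {φ : (H → k) →ₗ[ℚ] ℚ} {M c : ℚ} :
    Submodule.span k (stepT cl φ M c) ≤ lv (H := H) (M := S) (fun χ => φ χ = M - c) := by
  rw [Submodule.span_le]
  rintro _ ⟨μ, hμ, t, ht, s, hs, rfl⟩
  refine h.cl_lv ht ?_ hs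
  intro χ hχ
  rw [map_add, hχ, hμ]
  ring

theorem stepL_le (h : Sp H q cl) {φ : (H → k) →ₗ[ℚ] ℚ} {M c : ℚ} :
    Submodule.span k (stepL S φ M c) ≤ lv (H := H) (M := S) (fun χ => φ χ = M - c) := by
  rw [Submodule.span_le]
  rintro _ ⟨μ, hμ, t, ht, s, hs, rfl⟩
  refine lie_lv (φ := φ) ht ?_ hs
  intro χ hχ
  rw [map_add, hχ, hμ]
  ring

theorem gen_T (h : Sp H q cl) {φ : (H → k) →ₗ[ℚ] ℚ} {M c : ℚ} (hM : IsTop H S φ M) (hc0 : 0 < c)
    (hc : ∀ μ, wt H T μ ≠ ⊥ → φ μ < 0 → φ μ ≤ -c) :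
    (⊤ : Submodule k S) ≤ tp H S φ M ⊔ Submodule.span k (stepT cl φ M c) ⊔
      lv (H := H) (M := S) (fun χ => φ χ < M - c) := by
  set X : Set (S →ₗ[k] S) := {f | ∃ μ, φ μ < 0 ∧ ∃ t ∈ wt H T μ, f = cl t} with hX
  set Y : Set (S →ₗ[k] S) := Set.range cl with hY
  have h1 : ∀ y ∈ Y, ∀ u ∈ tp H S φ M, y u ∈ gen X (tp H S φ M) := by
    rintro _ ⟨t, rfl⟩ u hu
    refine h.dT.induction (p := fun t => cl t u ∈ gen X (tp H S φ M)) t ?_ ?_ ?_
    · intro μ t ht
      rcases lt_trichotomy (φ μ) 0 with h2 | h2 | h2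
      · have h3 : cl t ∈ X := ⟨μ, h2, t, ht, rfl⟩
        exact gen_stable h3 (le_gen hu)
      · exact le_gen (h.stab h2 ht hu)
      · rw [h.kill hM h2 ht hu]
        exact Submodule.zero_mem _
    · rw [map_zero, LinearMap.zero_apply]
      exact Submodule.zero_mem _
    · intro a b ha hb
      rw [map_add, LinearMap.add_apply]
      exact Submodule.add_mem _ ha hb
  have h2 := gen_transfer h1 (by
    rintro _ ⟨a, rfl⟩ _ ⟨β, hβ, b, hb, rfl⟩ w hw hyw
    have h3 : cl a (cl b w) = (2 * q a b) • w - cl b (cl a w) := by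
      rw [← h.anti a b w]
      abel
    rw [h3]
    refine Submodule.sub_mem _ (Submodule.smul_mem _ _ hw) ?_
    have h4 : cl b ∈ X := ⟨β, hβ, b, hb, rfl⟩
    exact gen_stable h4 (hyw _ (Set.mem_range_self _)))
  have h3 : gen X (tp H S φ M) = ⊤ := by
    refine h.irc _ (fun x m hm => h2 _ (Set.mem_range_self x) m hm) ?_
    obtain ⟨s, hs, h0⟩ := h.tp_ne hM
    exact (Submodule.ne_bot_iff _).2 ⟨s, le_gen hs, h0⟩
  rw [← h3]
  refine gen_le (le_sup_left.trans le_sup_left) ?_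
  rintro _ ⟨μ, hμ, t, ht, rfl⟩ w hw
  by_cases ht0 : t = 0
  · rw [ht0, map_zero, LinearMap.zero_apply]
    exact Submodule.zero_mem _
  have hμc := hc μ ((Submodule.ne_bot_iff _).2 ⟨t, ht, ht0⟩) hμ
  obtain ⟨w1, hw1, w2, hw2, rfl⟩ := Submodule.mem_sup.1 hw
  obtain ⟨w3, hw3, w4, hw4, rfl⟩ := Submodule.mem_sup.1 hw1
  rw [map_add, map_add]
  refine Submodule.add_mem _ (Submodule.add_mem _ ?_ ?_) ?_
  · rcases eq_or_lt_of_le hμc with h4 | h4
    · exact Submodule.mem_sup_left (Submodule.mem_sup_right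
        (Submodule.subset_span ⟨μ, h4, t, ht, w3, hw3, rfl⟩))
    · refine Submodule.mem_sup_right (h.cl_lv ht ?_ hw3)
      intro χ hχ
      rw [map_add, hχ]
      linarith
  · refine Submodule.mem_sup_right (h.cl_lv ht ?_ (h.stepT_le hw4))
    intro χ hχ
    rw [map_add, hχ]
    linarith
  · refine Submodule.mem_sup_right (h.cl_lv ht ?_ hw2)
    intro χ hχ
    rw [map_add]
    linarith

/-- There are no levels between the top and the level `M - c`. -/
theorem no_level (h : Sp H q cl) {φ : (H → k) →ₗ[ℚ] ℚ} {M c : ℚ} (hM : IsTop H S φ M)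
    (hc0 : 0 < c) (hc : ∀ μ, wt H T μ ≠ ⊥ → φ μ < 0 → φ μ ≤ -c) {χ : H → k}
    (hχ : wt H S χ ≠ ⊥) (hχ0 : φ χ < M) : φ χ ≤ M - c := by
  obtain ⟨m, hm, h0⟩ := Submodule.exists_mem_ne_zero_of_ne_bot hχ
  by_contra hcon
  push Not at hcon
  have h1 : tp H S φ M ⊔ Submodule.span k (stepT cl φ M c) ⊔
      lv (H := H) (M := S) (fun χ => φ χ < M - c) ≤
      lv (H := H) (M := S) (fun χ => φ χ = M ∨ φ χ ≤ M - c) := by
    refine sup_le (sup_le ?_ (h.stepT_le.trans ?_)) ?_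
    · exact lv_mono fun χ _ h2 => Or.inl h2
    · exact lv_mono fun χ _ h2 => Or.inr (le_of_eq h2)
    · exact lv_mono fun χ _ h2 => Or.inr (le_of_lt h2)
  have h2 := h1 (h.gen_T hM hc0 hc (Submodule.mem_top (x := m)))
  rw [wt_eq_lv] at hm
  refine h0 (eq_zero_of_mem_lv ?_ hm h2)
  rintro _ rfl (h3 | h3)
  · linarith
  · linarith

/-- The second level. -/
theorem second_T (h : Sp H q cl) {φ : (H → k) →ₗ[ℚ] ℚ} {M c : ℚ} (hM : IsTop H S φ M)
    (hc0 : 0 < c) (hc : ∀ μ, wt H T μ ≠ ⊥ → φ μ < 0 → φ μ ≤ -c) :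
    lv (H := H) (M := S) (fun χ => φ χ = M - c) ≤ Submodule.span k (stepT cl φ M c) := by
  intro m hm
  obtain ⟨w1, hw1, w2, hw2, rfl⟩ := Submodule.mem_sup.1
    (h.gen_T hM hc0 hc (Submodule.mem_top (x := m)))
  obtain ⟨w3, hw3, w4, hw4, rfl⟩ := Submodule.mem_sup.1 hw1
  have h1 : w3 + w2 ∈ lv (H := H) (M := S) (fun χ => φ χ = M - c) := by
    have := Submodule.sub_mem _ hm (h.stepT_le hw4)
    have h2 : w3 + w4 + w2 - w4 = w3 + w2 := by abel
    rwa [h2] at this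
  have h2 : w3 + w2 ∈ lv (H := H) (M := S) (fun χ => φ χ ≠ M - c) := by
    refine Submodule.add_mem _ ?_ ?_
    · refine lv_mono (P := fun χ => φ χ = M) (fun χ _ h3 => ?_) hw3
      rw [h3]
      intro h4
      linarith
    · exact lv_mono (P := fun χ => φ χ < M - c) (fun χ _ h3 => ne_of_lt h3) hw2
  have h3 : w3 + w2 = 0 := eq_zero_of_mem_lv (fun χ h4 h5 => h5 h4) h1 h2
  have h4 : w3 + w4 + w2 = w4 := by
    rw [add_right_comm, h3, zero_add]
  rw [h4]
  exact hw4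

theorem gen_L (h : Sp H q cl) {φ : (H → k) →ₗ[ℚ] ℚ} {M c : ℚ} (hM : IsTop H S φ M) (hc0 : 0 < c)
    (hc : ∀ μ, wt H T μ ≠ ⊥ → φ μ < 0 → φ μ ≤ -c) :
    (⊤ : Submodule k S) ≤ tp H S φ M ⊔ Submodule.span k (stepL S φ M c) ⊔
      lv (H := H) (M := S) (fun χ => φ χ < M - c) := by
  set X : Set (S →ₗ[k] S) := {f | ∃ μ, φ μ < 0 ∧ ∃ t ∈ wt H L μ, f = toEnd k L S t} with hX
  set Y : Set (S →ₗ[k] S) := Set.range (toEnd k L S) with hY
  have h1 : ∀ y ∈ Y, ∀ u ∈ tp H S φ M, y u ∈ gen X (tp H S φ M) := by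
    rintro _ ⟨t, rfl⟩ u hu
    refine (diag_L (H := H)).induction (p := fun t => toEnd k L S t u ∈ gen X (tp H S φ M))
      t ?_ ?_ ?_
    · intro μ t ht
      rcases lt_trichotomy (φ μ) 0 with h2 | h2 | h2
      · have h3 : toEnd k L S t ∈ X := ⟨μ, h2, t, ht, rfl⟩
        exact gen_stable h3 (le_gen hu)
      · refine le_gen ?_
        refine lie_lv (φ := φ) ht ?_ hu
        intro χ hχ
        rw [map_add, hχ, h2, add_zero]
      · have h3 : ⁅t, u⁆ ∈ lv (H := H) (M := S) (fun χ => M < φ χ) := by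
          refine lie_lv (φ := φ) ht ?_ hu
          intro χ hχ
          rw [map_add, hχ]
          linarith
        rw [lv_eq_bot (fun χ hχ => not_lt.2 (hM.2 χ hχ))] at h3
        have h4 : toEnd k L S t u = 0 := (Submodule.mem_bot k).1 h3
        rw [h4]
        exact Submodule.zero_mem _
    · rw [map_zero, LinearMap.zero_apply]
      exact Submodule.zero_mem _
    · intro a b ha hb
      rw [map_add, LinearMap.add_apply]
      exact Submodule.add_mem _ ha hb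
  have h2 := gen_transfer h1 (by
    rintro _ ⟨a, rfl⟩ _ ⟨β, hβ, b, hb, rfl⟩ w hw hyw
    have h3 : toEnd k L S a (toEnd k L S b w) = toEnd k L S ⁅a, b⁆ w +
        toEnd k L S b (toEnd k L S a w) := leibniz_lie a b w
    rw [h3]
    refine Submodule.add_mem _ (hyw _ (Set.mem_range_self _)) ?_
    have h4 : toEnd k L S b ∈ X := ⟨β, hβ, b, hb, rfl⟩
    exact gen_stable h4 (hyw _ (Set.mem_range_self _)))
  have h3 : gen X (tp H S φ M) = ⊤ := by
    refine h.irr _ (fun x m hm => h2 _ (Set.mem_range_self x) m hm) ?_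
    obtain ⟨s, hs, h0⟩ := h.tp_ne hM
    exact (Submodule.ne_bot_iff _).2 ⟨s, le_gen hs, h0⟩
  rw [← h3]
  refine gen_le (le_sup_left.trans le_sup_left) ?_
  rintro _ ⟨μ, hμ, t, ht, rfl⟩ w hw
  obtain ⟨w1, hw1, w2, hw2, rfl⟩ := Submodule.mem_sup.1 hw
  obtain ⟨w3, hw3, w4, hw4, rfl⟩ := Submodule.mem_sup.1 hw1
  rw [map_add, map_add]
  refine Submodule.add_mem _ (Submodule.add_mem _ ?_ ?_) ?_
  · rcases lt_trichotomy (φ μ) (-c) with h4 | h4 | h4
    · refine Submodule.mem_sup_right (lie_lv (φ := φ) ht ?_ hw3)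
      intro χ hχ
      rw [map_add, hχ]
      linarith
    · exact Submodule.mem_sup_left (Submodule.mem_sup_right
        (Submodule.subset_span ⟨μ, h4, t, ht, w3, hw3, rfl⟩))
    · have h5 : ⁅t, w3⁆ ∈ lv (H := H) (M := S) (fun χ => φ χ < M ∧ ¬ φ χ ≤ M - c) := by
        refine lie_lv (φ := φ) ht ?_ hw3
        intro χ hχ
        rw [map_add, hχ]
        constructor
        · linarith
        · push Not
          linarith
      rw [lv_eq_bot (fun χ hχ h6 => h6.2 (h.no_level hM hc0 hc hχ h6.1))] at h5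
      have h6 : toEnd k L S t w3 = 0 := (Submodule.mem_bot k).1 h5
      rw [h6]
      exact Submodule.zero_mem _
  · refine Submodule.mem_sup_right (lie_lv (φ := φ) ht ?_ (h.stepL_le hw4))
    intro χ hχ
    rw [map_add, hχ]
    linarith
  · refine Submodule.mem_sup_right (lie_lv (φ := φ) ht ?_ hw2)
    intro χ hχ
    rw [map_add]
    linarith

theorem second_L (h : Sp H q cl) {φ : (H → k) →ₗ[ℚ] ℚ} {M c : ℚ} (hM : IsTop H S φ M)
    (hc0 : 0 < c) (hc : ∀ μ, wt H T μ ≠ ⊥ → φ μ < 0 → φ μ ≤ -c) :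
    lv (H := H) (M := S) (fun χ => φ χ = M - c) ≤ Submodule.span k (stepL S φ M c) := by
  intro m hm
  obtain ⟨w1, hw1, w2, hw2, rfl⟩ := Submodule.mem_sup.1
    (h.gen_L hM hc0 hc (Submodule.mem_top (x := m)))
  obtain ⟨w3, hw3, w4, hw4, rfl⟩ := Submodule.mem_sup.1 hw1
  have h1 : w3 + w2 ∈ lv (H := H) (M := S) (fun χ => φ χ = M - c) := by
    have := Submodule.sub_mem _ hm (h.stepL_le hw4)
    have h2 : w3 + w4 + w2 - w4 = w3 + w2 := by abel
    rwa [h2] at this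
  have h2 : w3 + w2 ∈ lv (H := H) (M := S) (fun χ => φ χ ≠ M - c) := by
    refine Submodule.add_mem _ ?_ ?_
    · refine lv_mono (P := fun χ => φ χ = M) (fun χ _ h3 => ?_) hw3
      rw [h3]
      intro h4
      linarith
    · exact lv_mono (P := fun χ => φ χ < M - c) (fun χ _ h3 => ne_of_lt h3) hw2
  have h3 : w3 + w2 = 0 := eq_zero_of_mem_lv (fun χ h4 h5 => h5 h4) h1 h2
  have h4 : w3 + w4 + w2 = w4 := by
    rw [add_right_comm, h3, zero_add]
  rw [h4]
  exact hw4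

end Sp

end Pool.Agent.TH164.Spin
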