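import Pool.Agent.TH164.Spin.Tens4
import Pool.Agent.TH164.One.Fft

/-!
# Orthonormal bases with algebraic coefficients
-/

set_option autoImplicit false
set_option linter.unusedSectionVars false
set_option linter.unusedVariables false

open Module Matrix Finset

namespace Pool.Agent.TH164.Spin

open Pool.Agent.TH119.MX Pool.Agent.TH119.DR Pool.Agent.TH164.A1

theorem exists_orthonormal {n : ℕ} (Q : Matrix (Fin n) (Fin n) ℚ) (hs : ∀ i j, Q i j = Q j i)
    (hd : Q.det ≠ 0) : ∃ A : Matrix (Fin n) (Fin n) ℂ, (∀ i j, IsAlgebraic ℚ (A i j)) ∧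
      A * Q.map (fun x => (x : ℂ)) * Aᵀ = 1 := by
  set K := algebraicClosure ℚ ℂ with hK
  set QK : Matrix (Fin n) (Fin n) K := Q.map (algebraMap ℚ K) with hQK
  have hdK : QK.det ≠ 0 := by
    rw [hQK, ← RingHom.mapMatrix_apply, ← RingHom.map_det]
    exact (map_ne_zero_iff _ (algebraMap ℚ K).injective).2 hd
  have hB : ∀ v w : Fin n → K, Matrix.toLinearMap₂' K QK v w = v ⬝ᵥ (QK *ᵥ w) := by
    intro v w
    exact Matrix.toLinearMap₂'_apply' QK v w
  obtain ⟨q, hq1, hq2⟩ := Pool.Agent.TH164.One.exists_orth (Matrix.toLinearMap₂' K QK) (by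
    intro v w
    rw [hB, hB, Matrix.dotProduct_mulVec, ← Matrix.mulVec_transpose, dotProduct_comm]
    congr 2
    ext i j
    rw [Matrix.transpose_apply, hQK, Matrix.map_apply, Matrix.map_apply, hs]) (by
    intro v hv
    have h1 : v ᵥ* QK = 0 := by
      funext i
      have h2 := hv (Pi.single i 1)
      rw [hB, Matrix.dotProduct_mulVec] at h2
      simpa using h2
    exact Matrix.eq_zero_of_vecMul_eq_zero hdK h1)
  have hfin : finrank K (Fin n → K) = n := by
    rw [Module.finrank_pi, Fintype.card_fin]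
  set p : Fin n → (Fin n → K) := fun i => q (Fin.cast hfin.symm i) with hp
  have hp1 : ∀ i j, i ≠ j → p i ⬝ᵥ (QK *ᵥ p j) = 0 := by
    intro i j hij
    rw [← hB]
    exact hq1 _ _ (fun h => hij (Fin.cast_injective _ h))
  have hp2 : ∀ i, p i ⬝ᵥ (QK *ᵥ p i) ≠ 0 := by
    intro i
    rw [← hB]
    exact hq2 _
  have hsq : ∀ i, ∃ s : ℂ, s ^ 2 = ((p i ⬝ᵥ (QK *ᵥ p i) : K) : ℂ) := fun i =>
    IsAlgClosed.exists_pow_nat_eq _ two_pos
  choose s hs' using hsq
  have hs0 : ∀ i, s i ≠ 0 := by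
    intro i h
    have h1 := hs' i
    rw [h, zero_pow two_ne_zero] at h1
    exact hp2 i (Subtype.ext h1.symm)
  have hKa : ∀ x : K, IsAlgebraic ℚ (x : ℂ) := fun x => mem_algebraicClosure_iff.1 x.2
  have hsa : ∀ i, IsAlgebraic ℚ (s i) := by
    intro i
    have h1 : IsAlgebraic ℚ (s i ^ 2) := by
      rw [hs']
      exact hKa _
    exact h1.of_pow two_pos
  refine ⟨Matrix.of fun i j => (s i)⁻¹ * (p i j : ℂ), fun i j => ((hsa i).inv).mul (hKa _), ?_⟩
  ext i k
  have h1 : ((Matrix.of fun i j => (s i)⁻¹ * (p i j : ℂ)) * Q.map (fun x => (x : ℂ)) *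
      (Matrix.of fun i j => (s i)⁻¹ * (p i j : ℂ))ᵀ) i k =
      (s i)⁻¹ * (s k)⁻¹ * ((p i ⬝ᵥ (QK *ᵥ p k) : K) : ℂ) := by
    rw [Matrix.dotProduct_mulVec]
    rw [Matrix.mul_apply]
    simp only [Matrix.mul_apply, Matrix.of_apply, Matrix.transpose_apply, Matrix.map_apply,
      dotProduct, Matrix.vecMul, hQK]
    push_cast
    rw [Finset.mul_sum]
    refine Finset.sum_congr rfl fun x _ => ?_
    rw [Finset.sum_mul, Finset.sum_mul, Finset.mul_sum]
    refine Finset.sum_congr rfl fun y _ => ?_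
    have h2 : ((algebraMap ℚ K (Q y x) : K) : ℂ) = (Q y x : ℂ) := rfl
    rw [h2]
    ring
  rw [h1, Matrix.one_apply]
  split_ifs with hik
  · rw [← hik, ← hs' i, sq]
    field_simp [hs0 i]
  · rw [hp1 i k hik]
    simp

variable {N : Type} [Fintype N] [DecidableEq N] [Nonempty N] {n : ℕ}

/-- The data of the orthonormal basis. -/
structure Gm (e Γ : Fin n → Matrix N N ℂ) : Prop where
  cl : Cl Γ
  alg : ∀ i a b, IsAlgebraic ℚ (Γ i a b)
  ts : Ts Γ = Submodule.span ℂ (Set.range e)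
  ev : Ev Γ = Algebra.adjoin ℂ {x | ∃ i j, x = e i * e j}
  co : ∃ A : Matrix (Fin n) (Fin n) ℂ, (∀ i j, IsAlgebraic ℚ (A i j)) ∧
    ∀ i, Γ i = ∑ j, A i j • e j
  li : LinearIndependent ℂ e

theorem exists_gam (Q : Matrix (Fin n) (Fin n) ℚ) (hd : Q.det ≠ 0) (e : Fin n → Matrix N N ℂ)
    (hal : ∀ i a b, IsAlgebraic ℚ (e i a b))
    (hrel : ∀ i j, e i * e j + e j * e i = (2 * (Q i j : ℂ)) • (1 : Matrix N N ℂ))
    (hgen : Algebra.adjoin ℂ (Set.range e) = ⊤) : ∃ Γ : Fin n → Matrix N N ℂ, Gm e Γ := by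
  have hs : ∀ i j, Q i j = Q j i := by
    intro i j
    have h1 := hrel i j
    rw [add_comm, hrel j i] at h1
    have h2 := smul_left_injective ℂ (one_ne_zero : (1 : Matrix N N ℂ) ≠ 0) h1
    have h3 := mul_left_cancel₀ (two_ne_zero' ℂ) h2
    exact_mod_cast h3.symm
  obtain ⟨A, hA, hAQ⟩ := exists_orthonormal Q hs hd
  set QC := Q.map (fun x => (x : ℂ)) with hQC
  have hAQ' : QC * Aᵀ * A = 1 := by
    rw [Matrix.mul_assoc] at hAQ
    exact mul_eq_one_comm.1 hAQ
  set Γ : Fin n → Matrix N N ℂ := fun i => ∑ j, A i j • e j with hΓ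
  have he : ∀ i, e i = ∑ k, (QC * Aᵀ) i k • Γ k := by
    intro i
    simp only [hΓ, Finset.smul_sum, smul_smul]
    rw [Finset.sum_comm]
    simp only [← Finset.sum_smul]
    have h1 : ∀ j, ∑ k, (QC * Aᵀ) i k * A k j = (1 : Matrix (Fin n) (Fin n) ℂ) i j := by
      intro j
      rw [← hAQ', Matrix.mul_apply]
    simp only [h1, Matrix.one_apply, ite_smul, one_smul, zero_smul]
    rw [Finset.sum_ite_eq Finset.univ i, if_pos (mem_univ _)]
  have hG : ∀ i, Γ i ∈ Submodule.span ℂ (Set.range e) := fun i =>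
    Submodule.sum_mem _ fun j _ => Submodule.smul_mem _ _ (Submodule.subset_span ⟨j, rfl⟩)
  have hE : ∀ i, e i ∈ Ts Γ := by
    intro i
    rw [he]
    exact Submodule.sum_mem _ fun j _ => Submodule.smul_mem _ _ (gam_mem j)
  have hrel' : ∀ i k, Γ i * Γ k + Γ k * Γ i = (if i = k then (2 : ℂ) else 0) •
      (1 : Matrix N N ℂ) := by
    intro i k
    have h1 : Γ i * Γ k + Γ k * Γ i = ∑ j, ∑ l, (A i j * A k l) • (e j * e l + e l * e j) := by
      simp only [hΓ, Finset.sum_mul_sum]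
      rw [Finset.sum_comm (f := fun x y => (A k x • e x) * (A i y • e y)), ← Finset.sum_add_distrib]
      refine Finset.sum_congr rfl fun j _ => ?_
      rw [← Finset.sum_add_distrib]
      refine Finset.sum_congr rfl fun l _ => ?_
      rw [Matrix.smul_mul, Matrix.mul_smul, Matrix.smul_mul, Matrix.mul_smul, smul_smul, smul_smul,
        mul_comm (A k l), smul_add]
    rw [h1]
    simp only [hrel, smul_smul, ← Finset.sum_smul]
    congr 1
    have h2 : ∑ j, ∑ l, A i j * A k l * (2 * (Q j l : ℂ)) = 2 * (A * QC * Aᵀ) i k := by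
      rw [Matrix.mul_assoc, Matrix.mul_apply, Finset.mul_sum]
      refine Finset.sum_congr rfl fun j _ => ?_
      rw [Matrix.mul_apply, Finset.mul_sum, Finset.mul_sum]
      refine Finset.sum_congr rfl fun l _ => ?_
      rw [Matrix.transpose_apply, hQC, Matrix.map_apply]
      ring
    rw [h2, hAQ, Matrix.one_apply]
    split_ifs
    · rw [mul_one]
    · rw [mul_zero]
  have hts : Ts Γ = Submodule.span ℂ (Set.range e) := by
    refine le_antisymm (Submodule.span_le.2 ?_) (Submodule.span_le.2 ?_)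
    · rintro _ ⟨i, rfl⟩
      exact hG i
    · rintro _ ⟨i, rfl⟩
      exact hE i
  have hcl : Cl Γ := by
    refine ⟨hrel', ?_⟩
    rw [eq_top_iff, ← hgen]
    refine Algebra.adjoin_le ?_
    rintro _ ⟨i, rfl⟩
    have h1 : Ts Γ ≤ (Algebra.adjoin ℂ (Set.range Γ)).toSubmodule :=
      Submodule.span_le.2 Algebra.subset_adjoin
    exact h1 (hE i)
  refine ⟨Γ, hcl, ?_, hts, ?_, ⟨A, hA, fun i => rfl⟩, ?_⟩
  · intro i a b
    simp only [hΓ, Matrix.sum_apply, Matrix.smul_apply, smul_eq_mul]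
    refine mem_QA.1 (Subfield.sum_mem _ fun j _ => Subfield.mul_mem _ ?_ ?_)
    · exact mem_QA.2 (hA i j)
    · exact mem_QA.2 (hal j a b)
  · refine le_antisymm (Algebra.adjoin_le ?_) (Algebra.adjoin_le ?_)
    · rintro _ ⟨i, j, rfl⟩
      simp only [hΓ, Finset.sum_mul_sum]
      refine Subalgebra.sum_mem _ fun x _ => Subalgebra.sum_mem _ fun y _ => ?_
      rw [Matrix.smul_mul, Matrix.mul_smul]
      have h1 : e x * e y ∈ Algebra.adjoin ℂ {x | ∃ i j, x = e i * e j} :=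
        Algebra.subset_adjoin ⟨x, y, rfl⟩
      exact Subalgebra.smul_mem _ (Subalgebra.smul_mem _ h1 _) _
    · rintro _ ⟨i, j, rfl⟩
      exact Ts_mul_mem_Ev (hE i) (hE j)
  · have h1 : finrank ℂ (Submodule.span ℂ (Set.range e)) = Fintype.card (Fin n) := by
      rw [← hts, hcl.finrank_Ts, Fintype.card_fin]
    exact linearIndependent_iff_card_eq_finrank_span.2 (by
      rw [Set.finrank, h1])

end Pool.Agent.TH164.Spin
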