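import Pool.Agent.TH164.Spin.Cli
import Pool.Agent.TH164.Spin.Der
import Pool.Agent.TH164.Spin.Jac
import Pool.Agent.TH164.A1.Alg

/-!
# The stabilizer contains the Lie algebra of the Clifford group
-/

set_option autoImplicit false
set_option linter.unusedSectionVars false
set_option linter.unusedVariables false

open Module Matrix

namespace Pool.Agent.TH164.Spin

open Pool.Agent.TH119.MX Pool.Agent.TH119.DR Pool.Agent.TH164.A1

variable {N : Type} [Fintype N] [DecidableEq N] [Nonempty N] {n : ℕ}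
variable {Γ : Fin n → Matrix N N ℂ}

/-- Elements of the normalizer of the space of vectors, with their inverses. -/
structure InG (Γ : Fin n → Matrix N N ℂ) (g g' : Matrix N N ℂ) : Prop where
  r : g * g' = 1
  l : g' * g = 1
  c : ∀ t ∈ Ts Γ, g * t * g' ∈ Ts Γ
  c' : ∀ t ∈ Ts Γ, g' * t * g ∈ Ts Γ

theorem InG.symm {g g' : Matrix N N ℂ} (h : InG Γ g g') : InG Γ g' g :=
  ⟨h.l, h.r, h.c', h.c⟩

theorem InG.mul {g g' k k' : Matrix N N ℂ} (h : InG Γ g g') (h' : InG Γ k k') :
    InG Γ (g * k) (k' * g') where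
  r := by
    calc g * k * (k' * g') = g * (k * k') * g' := by simp only [Matrix.mul_assoc]
      _ = 1 := by rw [h'.r, Matrix.mul_one, h.r]
  l := by
    calc k' * g' * (g * k) = k' * (g' * g) * k := by simp only [Matrix.mul_assoc]
      _ = 1 := by rw [h.l, Matrix.mul_one, h'.l]
  c t ht := by
    have h1 := h.c _ (h'.c t ht)
    have h2 : g * (k * t * k') * g' = g * k * t * (k' * g') := by simp only [Matrix.mul_assoc]
    rwa [h2] at h1
  c' t ht := by
    have h1 := h'.c' _ (h.c' t ht)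
    have h2 : k' * (g' * t * g) * k = k' * g' * t * (g * k) := by simp only [Matrix.mul_assoc]
    rwa [h2] at h1

theorem map_Ts (hΓ : ∀ i a b, IsAlgebraic ℚ (Γ i a b)) (δ : Derivation ℚ ℂ ℂ)
    {t : Matrix N N ℂ} (ht : t ∈ Ts Γ) : t.map δ ∈ Ts Γ := by
  obtain ⟨v, rfl⟩ := mem_Ts.1 ht
  refine mem_Ts.2 ⟨fun i => δ (v i), ?_⟩
  ext a b
  rw [Matrix.map_apply, Matrix.sum_apply, Matrix.sum_apply, map_sum]
  refine Finset.sum_congr rfl fun i _ => ?_
  rw [Matrix.smul_apply, Matrix.smul_apply, smul_eq_mul, smul_eq_mul, Derivation.leibniz,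
    deriv_alg δ (hΓ i a b), smul_zero, zero_add, smul_eq_mul, mul_comm]

theorem map_gam (hΓ : ∀ i a b, IsAlgebraic ℚ (Γ i a b)) (δ : Derivation ℚ ℂ ℂ) (i : Fin n) :
    (Γ i).map δ = 0 := by
  ext a b
  rw [Matrix.map_apply, deriv_alg δ (hΓ i a b), Matrix.zero_apply]

variable {H : Set (Matrix N N ℂ)}

/-- The stabilizer inside the Lie algebra of the normalizer. -/
def Hd (Γ : Fin n → Matrix N N ℂ) (H : Set (Matrix N N ℂ)) (d : ℕ) :
    Submodule ℂ (Matrix N N ℂ) where
  carrier := {X | (∀ t ∈ Ts Γ, X * t - t * X ∈ Ts Γ) ∧ Stab H d X}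
  zero_mem' := ⟨fun t _ => by
    rw [Matrix.zero_mul, Matrix.mul_zero, sub_zero]
    exact Submodule.zero_mem _, Stab.zero⟩
  add_mem' := by
    rintro X Y ⟨h1, h2⟩ ⟨h3, h4⟩
    refine ⟨fun t ht => ?_, h2.add h4⟩
    rw [Matrix.add_mul, Matrix.mul_add, add_sub_add_comm]
    exact Submodule.add_mem _ (h1 t ht) (h3 t ht)
  smul_mem' := by
    rintro a X ⟨h1, h2⟩
    refine ⟨fun t ht => ?_, h2.smul a⟩
    rw [Matrix.smul_mul, Matrix.mul_smul, ← smul_sub]
    exact Submodule.smul_mem _ _ (h1 t ht)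

theorem Hd_der (hH : AlgGrp QA H) (hΓ : ∀ i a b, IsAlgebraic ℚ (Γ i a b)) (d : ℕ)
    (δ : Derivation ℚ ℂ ℂ) {X : Matrix N N ℂ} (hX : X ∈ Hd Γ H d) : X.map δ ∈ Hd Γ H d := by
  refine ⟨?_, ?_⟩
  · have key : ∀ i, X.map δ * Γ i - Γ i * X.map δ ∈ Ts Γ := by
      intro i
      have h1 := map_Ts hΓ δ (hX.1 _ (gam_mem i))
      have h2 : (X * Γ i - Γ i * X).map δ = X.map δ * Γ i - Γ i * X.map δ := by
        have h3 : (X * Γ i - Γ i * X).map δ = (X * Γ i).map δ - (Γ i * X).map δ := by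
          ext a b
          exact map_sub δ _ _
        rw [h3, map_mul_der, map_mul_der, map_gam hΓ, Matrix.mul_zero, Matrix.zero_mul, add_zero,
          zero_add]
      rwa [h2] at h1
    intro t ht
    induction ht using Submodule.span_induction with
    | mem x hx =>
      obtain ⟨i, rfl⟩ := hx
      exact key i
    | zero =>
      rw [Matrix.zero_mul, Matrix.mul_zero, sub_zero]
      exact Submodule.zero_mem _
    | add a b _ _ ha hb =>
      rw [Matrix.mul_add, Matrix.add_mul, add_sub_add_comm]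
      exact Submodule.add_mem _ ha hb
    | smul c a _ ha =>
      rw [Matrix.smul_mul, Matrix.mul_smul, ← smul_sub]
      exact Submodule.smul_mem _ _ ha
  · exact hH.stab_map (derK δ QA fun x hx => mem_QA.1 hx) hX.2

theorem Hd_P (hH : AlgGrp QA H) (hΓ : ∀ i a b, IsAlgebraic ℚ (Γ i a b)) {P P' A A' : Matrix N N ℂ}
    (hP : P * P' = 1) (hP' : P' * P = 1) (hG : InG Γ (P * A) (A' * P'))
    (hA : A * A' = 1) (hAa : ∀ i j, IsAlgebraic ℚ (A i j)) {B B' : Matrix N N ℂ}
    (hB : B * B' = 1) (hBa : ∀ i j, B' i j ∈ QA) (hPB : P * B ∈ H) (d : ℕ)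
    (δ : Derivation ℚ ℂ ℂ) : P.map δ * P' ∈ Hd Γ H d := by
  refine ⟨?_, hH.stab_der le_rfl (fun x hx => mem_QA.1 hx) hP hP' hB hBa hPB δ⟩
  have hAδ : A.map δ = 0 := by
    ext a b
    rw [Matrix.map_apply, deriv_alg δ (hAa a b), Matrix.zero_apply]
  set g := P * A with hg
  set g' := A' * P' with hg'
  have h1 : g.map δ * g' = P.map δ * P' := by
    rw [hg, map_mul_der, hAδ, Matrix.mul_zero, add_zero, hg']
    calc P.map δ * A * (A' * P') = P.map δ * (A * A') * P' := by simp only [Matrix.mul_assoc]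
      _ = _ := by rw [hA, Matrix.mul_one]
  rw [← h1]
  -- on the conjugates of the generators
  have key : ∀ i, (g.map δ * g') * (g * Γ i * g') - (g * Γ i * g') * (g.map δ * g') ∈ Ts Γ := by
    intro i
    have h2 := map_Ts hΓ δ (hG.c _ (gam_mem i))
    have h3 : g * Γ i = (g * Γ i * g') * g := by
      rw [Matrix.mul_assoc (g * Γ i) g' g, hG.l, Matrix.mul_one]
    have h4 := congrArg (fun M : Matrix N N ℂ => M.map δ) h3
    simp only [map_mul_der (X := g * Γ i * g') (Y := g)] at h4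
    rw [map_mul_der, map_gam hΓ, Matrix.mul_zero, add_zero] at h4
    have h5 : (g.map δ * g') * (g * Γ i * g') - (g * Γ i * g') * (g.map δ * g') =
        (g * Γ i * g').map δ := by
      have h6 : (g.map δ * g') * (g * Γ i * g') = (g.map δ * Γ i) * g' := by
        calc (g.map δ * g') * (g * Γ i * g') = g.map δ * (g' * g) * Γ i * g' := by
              simp only [Matrix.mul_assoc]
          _ = _ := by rw [hG.l, Matrix.mul_one]
      rw [h6, h4, Matrix.add_mul, Matrix.mul_assoc _ g g', hG.r, Matrix.mul_one,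
        Matrix.mul_assoc _ (g.map δ) g', add_sub_cancel_right]
    rwa [h5]
  have key2 : ∀ t ∈ Ts Γ, (g.map δ * g') * (g * t * g') - (g * t * g') * (g.map δ * g') ∈ Ts Γ := by
    intro t ht
    induction ht using Submodule.span_induction with
    | mem x hx =>
      obtain ⟨i, rfl⟩ := hx
      exact key i
    | zero =>
      simp
    | add a b _ _ ha hb =>
      rw [Matrix.mul_add, Matrix.add_mul, Matrix.mul_add, Matrix.add_mul, add_sub_add_comm]
      exact Submodule.add_mem _ ha hb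
    | smul c a _ ha =>
      rw [Matrix.mul_smul, Matrix.smul_mul, Matrix.mul_smul, Matrix.smul_mul, ← smul_sub]
      exact Submodule.smul_mem _ _ ha
  intro t ht
  have h2 := key2 _ (hG.c' t ht)
  have h3 : g * (g' * t * g) * g' = t := by
    calc g * (g' * t * g) * g' = (g * g') * t * (g * g') := by simp only [Matrix.mul_assoc]
      _ = t := by rw [hG.r, Matrix.one_mul, Matrix.mul_one]
  rwa [h3] at h2

namespace Cl

/-- The commutators form a Lie algebra. -/
theorem la_vec (h : Cl Γ) {X t : Matrix N N ℂ} (hX : X ∈ La Γ) (ht : t ∈ Ts Γ) :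
    X * t - t * X ∈ Ts Γ := by
  induction hX using Submodule.span_induction with
  | mem x hx =>
    obtain ⟨a, ha, b, hb, rfl⟩ := hx
    rw [h.com_vec ha hb ht]
    exact Submodule.smul_mem _ _ (Submodule.sub_mem _ (Submodule.smul_mem _ _ ha)
      (Submodule.smul_mem _ _ hb))
  | zero => simp
  | add a b _ _ ha hb =>
    rw [Matrix.add_mul, Matrix.mul_add, add_sub_add_comm]
    exact Submodule.add_mem _ ha hb
  | smul c a _ ha =>
    rw [Matrix.smul_mul, Matrix.mul_smul, ← smul_sub]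
    exact Submodule.smul_mem _ _ ha

theorem la_br (h : Cl Γ) {X Y : Matrix N N ℂ} (hX : X ∈ La Γ) (hY : Y ∈ La Γ) :
    X * Y - Y * X ∈ La Γ := by
  induction hY using Submodule.span_induction with
  | mem y hy =>
    obtain ⟨a, ha, b, hb, rfl⟩ := hy
    have h1 : X * (a * b - b * a) - (a * b - b * a) * X =
        ((X * a - a * X) * b - b * (X * a - a * X)) + (a * (X * b - b * X) -
          (X * b - b * X) * a) := by
      noncomm_ring
    rw [h1]
    exact Submodule.add_mem _ (Submodule.subset_span ⟨_, h.la_vec hX ha, _, hb, rfl⟩)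
      (Submodule.subset_span ⟨_, ha, _, h.la_vec hX hb, rfl⟩)
  | zero => simp
  | add a b _ _ ha hb =>
    rw [Matrix.mul_add, Matrix.add_mul, add_sub_add_comm]
    exact Submodule.add_mem _ ha hb
  | smul c a _ ha =>
    rw [Matrix.smul_mul, Matrix.mul_smul, ← smul_sub]
    exact Submodule.smul_mem _ _ ha

theorem la_trace {X : Matrix N N ℂ} (hX : X ∈ La Γ) : X.trace = 0 := by
  induction hX using Submodule.span_induction with
  | mem y hy =>
    obtain ⟨a, ha, b, hb, rfl⟩ := hy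
    rw [Matrix.trace_sub, Matrix.trace_mul_comm, sub_self]
  | zero => simp
  | add a b _ _ ha hb => rw [Matrix.trace_add, ha, hb, add_zero]
  | smul c a _ ha => rw [Matrix.trace_smul, ha, smul_zero]

theorem sq_one (h : Cl Γ) (i : Fin n) : Γ i * Γ i = 1 := by
  have h1 := h.rel i i
  rw [if_pos rfl, ← two_smul ℂ (Γ i * Γ i)] at h1
  exact smul_right_injective _ (two_ne_zero' ℂ) h1

theorem anti' (h : Cl Γ) {i j : Fin n} (hij : i ≠ j) : Γ i * Γ j = -(Γ j * Γ i) := by
  have h1 := h.rel i j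
  rw [if_neg hij, zero_smul] at h1
  exact eq_neg_of_add_eq_zero_left h1

/-- The Lie algebra is perfect. -/
theorem triple (h : Cl Γ) {i j k : Fin n} (hij : i ≠ j) (hjk : j ≠ k) (hik : i ≠ k) :
    (Γ i * Γ j - Γ j * Γ i) * (Γ j * Γ k - Γ k * Γ j) -
      (Γ j * Γ k - Γ k * Γ j) * (Γ i * Γ j - Γ j * Γ i) = (4 : ℂ) • (Γ i * Γ k - Γ k * Γ i) := by
  have e1 : Γ j * Γ i = -(Γ i * Γ j) := h.anti' hij.symm
  have e2 : Γ k * Γ j = -(Γ j * Γ k) := h.anti' hjk.symm
  have e3 : Γ i * Γ j * (Γ j * Γ k) = Γ i * Γ k := by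
    calc Γ i * Γ j * (Γ j * Γ k) = Γ i * (Γ j * Γ j) * Γ k := by simp only [Matrix.mul_assoc]
      _ = Γ i * Γ k := by rw [h.sq_one, Matrix.mul_one]
  have e4 : Γ j * Γ k * (Γ i * Γ j) = Γ k * Γ i := by
    calc Γ j * Γ k * (Γ i * Γ j) = (Γ j * Γ k) * -(Γ j * Γ i) := by rw [h.anti' hij]
      _ = -(Γ j * (Γ k * Γ j) * Γ i) := by
        rw [Matrix.mul_neg]
        simp only [Matrix.mul_assoc]
      _ = Γ j * (Γ j * Γ k) * Γ i := by rw [e2, Matrix.mul_neg, Matrix.neg_mul, neg_neg]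
      _ = (Γ j * Γ j) * (Γ k * Γ i) := by simp only [Matrix.mul_assoc]
      _ = Γ k * Γ i := by rw [h.sq_one, Matrix.one_mul]
  rw [e1, e2, sub_neg_eq_add, sub_neg_eq_add, ← two_smul ℂ (Γ i * Γ j), ← two_smul ℂ (Γ j * Γ k),
    Matrix.smul_mul, Matrix.mul_smul, Matrix.smul_mul, Matrix.mul_smul, smul_smul, smul_smul,
    ← smul_sub, e3, e4]
  norm_num

/-- **The stabilizer is everything.** -/
theorem stab_all (h : Cl Γ) (h3 : 3 ≤ n) (h5 : n ≠ 5) (hH : AlgGrp QA H)
    (hΓ : ∀ i a b, IsAlgebraic ℚ (Γ i a b)) {P P' A A' : Matrix N N ℂ}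
    (hP : P * P' = 1) (hP' : P' * P = 1) (hG : InG Γ (P * A) (A' * P'))
    (hA : A * A' = 1) (hAa : ∀ i j, IsAlgebraic ℚ (A i j)) {B B' : Matrix N N ℂ}
    (hB : B * B' = 1) (hBa : ∀ i j, B' i j ∈ QA) (hPB : P * B ∈ H)
    (hW : ∀ B : Matrix N N ℂ, (∀ i j, IsAlgebraic ℚ (B i j)) → ∑ p : N × N,
      B p.1 p.2 * P p.1 p.2 = 0 → B = 0) (hdet : ¬ IsAlgebraic ℚ P.det) (d : ℕ) :
    (∀ X ∈ La Γ, Stab H d X) ∧ Stab H d (1 : Matrix N N ℂ) := by
  have hgen := adjoin_eq_top (Hd Γ H d) hP hP' (fun δ X hX => Hd_der hH hΓ d δ hX)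
    (fun δ => Hd_P hH hΓ hP hP' hG hA hAa hB hBa hPB d δ) hW
  set l : Submodule ℂ (Matrix N N ℂ) :=
    { carrier := {Y | Y ∈ La Γ ∧ ∃ c : ℂ, Stab H d (Y + c • (1 : Matrix N N ℂ))}
      zero_mem' := ⟨Submodule.zero_mem _, 0, by
        rw [zero_smul, add_zero]
        exact Stab.zero⟩
      add_mem' := by
        rintro X Y ⟨h1, c, h2⟩ ⟨h3, c', h4⟩
        refine ⟨Submodule.add_mem _ h1 h3, c + c', ?_⟩
        have h5 : X + Y + (c + c') • (1 : Matrix N N ℂ) = (X + c • (1 : Matrix N N ℂ)) +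
            (Y + c' • (1 : Matrix N N ℂ)) := by
          rw [add_smul]
          abel
        rw [h5]
        exact h2.add h4
      smul_mem' := by
        rintro a X ⟨h1, c, h2⟩
        refine ⟨Submodule.smul_mem _ _ h1, a * c, ?_⟩
        have h5 : a • X + (a * c) • (1 : Matrix N N ℂ) = a • (X + c • (1 : Matrix N N ℂ)) := by
          rw [smul_add, smul_smul]
        rw [h5]
        exact h2.smul a } with hl
  have hbr : ∀ X Y : Matrix N N ℂ, ∀ c c' : ℂ, (X + c • (1 : Matrix N N ℂ)) *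
      (Y + c' • (1 : Matrix N N ℂ)) - (Y + c' • (1 : Matrix N N ℂ)) *
      (X + c • (1 : Matrix N N ℂ)) = X * Y - Y * X := by
    intro X Y c c'
    simp only [Matrix.add_mul, Matrix.mul_add, Matrix.smul_mul, Matrix.mul_smul, Matrix.one_mul,
      Matrix.mul_one]
    module
  have hle := h.spin h5 (l := l) (by
    rintro X ⟨h1, c, h2⟩ Y ⟨h3, c', h4⟩
    refine ⟨h.la_br h1 h3, 0, ?_⟩
    rw [zero_smul, add_zero, ← hbr X Y c c']
    exact h2.comm h4) (fun X hX => hX.1) (by
    rw [eq_top_iff, ← hgen]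
    refine Algebra.adjoin_le ?_
    rintro X ⟨h1, h2⟩
    obtain ⟨Y, hY, c, rfl⟩ := h.decomp fun i => h1 _ (gam_mem i)
    refine Subalgebra.add_mem _ (Algebra.subset_adjoin ⟨hY, c, h2⟩) ?_
    exact Subalgebra.smul_mem _ (Subalgebra.one_mem _) c)
  have hst : ∀ i k : Fin n, Stab H d (Γ i * Γ k - Γ k * Γ i) := by
    intro i k
    by_cases hik : i = k
    · rw [hik, sub_self]
      exact Stab.zero
    have hj : ∃ j : Fin n, j ≠ i ∧ j ≠ k := by
      by_contra hcon
      push Not at hcon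
      have h6 : Fintype.card (Fin n) ≤ 2 := by
        have h7 : (Finset.univ : Finset (Fin n)) ⊆ {i, k} := by
          intro j _
          by_cases hj : j = i
          · rw [hj]
            simp
          · rw [hcon j hj]
            simp
        calc Fintype.card (Fin n) = (Finset.univ : Finset (Fin n)).card := rfl
          _ ≤ ({i, k} : Finset (Fin n)).card := Finset.card_le_card h7
          _ ≤ 2 := Finset.card_le_two
      rw [Fintype.card_fin] at h6
      omega
    obtain ⟨j, hji, hjk⟩ := hj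
    obtain ⟨-, c, hc⟩ := hle (Submodule.subset_span ⟨_, gam_mem i, _, gam_mem j, rfl⟩)
    obtain ⟨-, c', hc'⟩ := hle (Submodule.subset_span ⟨_, gam_mem j, _, gam_mem k, rfl⟩)
    have h6 := hc.comm hc'
    rw [hbr, h.triple hji.symm hjk hik] at h6
    have h7 := h6.smul (4 : ℂ)⁻¹
    rwa [smul_smul, inv_mul_cancel₀ (by norm_num), one_smul] at h7
  have hLa : ∀ X ∈ La Γ, Stab H d X := by
    intro X hX
    induction hX using Submodule.span_induction with
    | mem y hy =>
      obtain ⟨a, ha, b, hb, rfl⟩ := hy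
      induction ha using Submodule.span_induction with
      | mem x hx =>
        obtain ⟨i, rfl⟩ := hx
        induction hb using Submodule.span_induction with
        | mem y hy =>
          obtain ⟨k, rfl⟩ := hy
          exact hst i k
        | zero =>
          rw [Matrix.mul_zero, Matrix.zero_mul, sub_zero]
          exact Stab.zero
        | add a b _ _ ha hb =>
          rw [Matrix.mul_add, Matrix.add_mul, add_sub_add_comm]
          exact ha.add hb
        | smul c a _ ha =>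
          rw [Matrix.smul_mul, Matrix.mul_smul, ← smul_sub]
          exact ha.smul c
      | zero =>
        rw [Matrix.mul_zero, Matrix.zero_mul, sub_zero]
        exact Stab.zero
      | add a b _ _ ha hb =>
        rw [Matrix.mul_add, Matrix.add_mul, add_sub_add_comm]
        exact ha.add hb
      | smul c a _ ha =>
        rw [Matrix.smul_mul, Matrix.mul_smul, ← smul_sub]
        exact ha.smul c
    | zero => exact Stab.zero
    | add a b _ _ ha hb => exact ha.add hb
    | smul c a _ ha => exact ha.smul c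
  refine ⟨hLa, ?_⟩
  obtain ⟨δ, hδ⟩ := exists_deriv hdet
  obtain ⟨h6, h7⟩ := Hd_P hH hΓ hP hP' hG hA hAa hB hBa hPB d δ
  obtain ⟨Y, hY, c, hc⟩ := h.decomp fun i => h6 _ (gam_mem i)
  have h8 := der_det' δ hP
  rw [hc, Matrix.trace_add, la_trace hY, zero_add, Matrix.trace_smul, Matrix.trace_one,
    smul_eq_mul] at h8
  have hc0 : c ≠ 0 := by
    rintro rfl
    rw [zero_mul, mul_zero] at h8
    exact hδ h8
  rw [hc] at h7
  have h9 := h7.add ((hLa Y hY).smul (-1))
  have h10 : Y + c • (1 : Matrix N N ℂ) + (-1 : ℂ) • Y = c • (1 : Matrix N N ℂ) := by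
    rw [neg_one_smul]
    abel
  rw [h10] at h9
  have h11 := h9.smul c⁻¹
  rwa [smul_smul, inv_mul_cancel₀ hc0, one_smul] at h11

end Cl

end Pool.Agent.TH164.Spin
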