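import Pool.Agent.TH164.Spin.Gram

/-!
# Classes with algebraic de Rham and rational Betti coordinates
-/

set_option autoImplicit false
set_option linter.unusedSectionVars false
set_option linter.unusedVariables false

open Module Matrix Finset

namespace Pool.Agent.TH164.Spin

open Pool.Agent.TH119.MX Pool.Agent.TH119.DR Pool.Agent.TH164.A1

variable {N : Type} [Fintype N] [DecidableEq N] [Nonempty N] {n a m : ℕ}

/-- Multilinear forms which are algebraic on vectors are algebraic on algebraic combinations. -/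
theorem alg_of_comb {U : Type*} [AddCommGroup U] [Module ℂ U] {κ : Type*} [Fintype κ] [DecidableEq κ]
    (c : MultilinearMap ℂ (fun _ : Fin m => U) ℂ) (b : κ → U)
    (hc : ∀ I : Fin m → κ, IsAlgebraic ℚ (c fun j => b (I j))) (v : Fin m → U)
    (hv : ∀ j, ∃ x : κ → ℂ, (∀ k, IsAlgebraic ℚ (x k)) ∧ v j = ∑ k, x k • b k) :
    IsAlgebraic ℚ (c v) := by
  choose x hx hv using hv
  have h1 : v = fun j => ∑ k, x j k • b k := funext hv
  rw [h1, MultilinearMap.map_sum]
  refine mem_QA.1 (Subfield.sum_mem _ fun I _ => ?_)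
  rw [MultilinearMap.map_smul_univ, smul_eq_mul]
  exact Subfield.mul_mem _ (Subfield.prod_mem _ fun j _ => mem_QA.2 (hx j _)) (mem_QA.2 (hc I))

/-- **The main statement.** -/
theorem main_kug {Q : Matrix (Fin n) (Fin n) ℚ} (hd : Q.det ≠ 0) {e : Fin n → Matrix N N ℂ}
    (hal : ∀ i a b, IsAlgebraic ℚ (e i a b))
    (hrel : ∀ i j, e i * e j + e j * e i = (2 * (Q i j : ℂ)) • (1 : Matrix N N ℂ))
    (hgen : Algebra.adjoin ℂ (Set.range e) = ⊤)
    (hcls : ∀ Γ : Fin n → Matrix N N ℂ, Cl Γ → ∀ l : Submodule ℂ (Matrix N N ℂ),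
      (∀ X ∈ l, ∀ Y ∈ l, X * Y - Y * X ∈ l) → l ≤ La Γ →
      Ev Γ ≤ Algebra.adjoin ℂ (l : Set (Matrix N N ℂ)) → La Γ ≤ l)
    {g g' : Matrix N N ℂ} (hr : g * g' = 1) (hl : g' * g = 1)
    (hgE : g ∈ Algebra.adjoin ℂ {x | ∃ i j, x = e i * e j})
    (hgE' : g' ∈ Algebra.adjoin ℂ {x | ∃ i j, x = e i * e j})
    (hgT : ∀ t ∈ Submodule.span ℂ (Set.range e), g * t * g' ∈ Submodule.span ℂ (Set.range e))
    (hgT' : ∀ t ∈ Submodule.span ℂ (Set.range e), g' * t * g ∈ Submodule.span ℂ (Set.range e))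
    (hW : ∀ B : Matrix N N ℂ, (∀ i j, IsAlgebraic ℚ (B i j)) → ∑ p : N × N,
      B p.1 p.2 * g p.1 p.2 = 0 → ∀ x ∈ Algebra.adjoin ℂ {x | ∃ i j, x = e i * e j},
        ∑ p : N × N, B p.1 p.2 * x p.1 p.2 = 0)
    (hm : m < n) (ha : 0 < a)
    (c : MultilinearMap ℂ (fun _ : Fin m => (Fin a → ℂ) × Submodule.span ℂ (Set.range e)) ℂ)
    (hcB : ∀ v : Fin m → (Fin a → ℂ) × Submodule.span ℂ (Set.range e),
      (∀ j, (∃ l, v j = (Pi.single l 1, 0)) ∨ (v j).1 = 0 ∧ ∃ i, ((v j).2 : Matrix N N ℂ) = e i) →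
        ∃ q : ℚ, c v = q)
    (hcD : ∀ v : Fin m → (Fin a → ℂ) × Submodule.span ℂ (Set.range e),
      (∀ j, (∃ l, v j = (Pi.single l 1, 0)) ∨ (v j).1 = 0 ∧ ∃ D : Matrix N N ℂ,
        (∀ i j, IsAlgebraic ℚ (D i j)) ∧ ((v j).2 : Matrix N N ℂ) = g * D * g') →
        IsAlgebraic ℚ (c v)) :
    ∃ z : {σ : Fin m → Fin m // ∀ j, σ (σ j) = j} → (Fin m → Fin a) → ℚ, ∀ v,
      c v = ∑ σ, ∑ l, (z σ l : ℂ) * ∏ j, (if σ.1 j = j then (v j).1 (l j) else
        if j < σ.1 j then bq (v j).2.1 (v (σ.1 j)).2.1 else 1) := by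
  obtain ⟨Γ, hG⟩ := exists_gam Q hd e hal hrel hgen
  have h := hG.cl
  obtain ⟨A, hA, hAe⟩ := hG.co
  have hg : InG Γ g g' := by
    refine ⟨hr, hl, ?_, ?_⟩
    · rw [hG.ts]
      exact hgT
    · rw [hG.ts]
      exact hgT'
  -- transport
  let φ₀ : Ts Γ ≃ₗ[ℂ] Submodule.span ℂ (Set.range e) := LinearEquiv.ofEq _ _ hG.ts
  let φ : ((Fin a → ℂ) × Ts Γ) ≃ₗ[ℂ] ((Fin a → ℂ) × Submodule.span ℂ (Set.range e)) :=
    LinearEquiv.prodCongr (LinearEquiv.refl ℂ _) φ₀
  have hφ1 : ∀ v, (φ v).1 = v.1 := fun v => rfl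
  have hφ2 : ∀ v, ((φ v).2 : Matrix N N ℂ) = v.2 := fun v => rfl
  set c' : MultilinearMap ℂ (fun _ : Fin m => (Fin a → ℂ) × Ts Γ) ℂ :=
    c.compLinearMap fun _ => φ.toLinearMap with hc'
  have hc'a : ∀ v, c' v = c fun j => φ (v j) := fun v => rfl
  -- the rational basis
  let b₀ : Basis (Fin n) ℂ (Ts Γ) := (Basis.span hG.li).map φ₀.symm
  let b : Basis (Fin a ⊕ Fin n) ℂ ((Fin a → ℂ) × Ts Γ) := (Pi.basisFun ℂ (Fin a)).prod b₀
  have hb0 : ∀ i, ((b₀ i : Ts Γ) : Matrix N N ℂ) = e i := by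
    intro i
    have h1 : b₀ i = φ₀.symm (Basis.span hG.li i) := Basis.map_apply _ _ _
    have h2 : Basis.span hG.li i = ⟨e i, Submodule.subset_span ⟨i, rfl⟩⟩ := Basis.span_apply hG.li i
    rw [h1, h2]
    rfl
  have hbl : ∀ l, b (Sum.inl l) = (Pi.single l 1, 0) := by
    intro l
    change (Pi.basisFun ℂ (Fin a)).prod b₀ (Sum.inl l) = _
    rw [Basis.prod_apply, Sum.elim_inl, Function.comp_apply, Pi.basisFun_apply]
    rfl
  have hbr : ∀ i, b (Sum.inr i) = (0, b₀ i) := by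
    intro i
    change (Pi.basisFun ℂ (Fin a)).prod b₀ (Sum.inr i) = _
    rw [Basis.prod_apply, Sum.elim_inr, Function.comp_apply]
    rfl
  have hcb : ∀ I : Fin m → Fin a ⊕ Fin n, ∃ q : ℚ, c' (fun j => b (I j)) = q := by
    intro I
    rw [hc'a]
    refine hcB _ fun j => ?_
    rcases hj : I j with l | i
    · left
      refine ⟨l, ?_⟩
      rw [hbl]
      rfl
    · right
      rw [hbr]
      exact ⟨rfl, i, hb0 i⟩
  have hca : ∀ I : Fin m → Fin a ⊕ Fin n, IsAlgebraic ℚ (c' fun j => h.bs a (I j)) := by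
    intro I
    refine alg_of_comb c' b (fun I => ?_) _ fun j => ?_
    · obtain ⟨q, hq⟩ := hcb I
      rw [hq]
      exact isAlgebraic_algebraMap (A := ℂ) q
    · rcases hj : I j with l | i
      · refine ⟨Pi.single (Sum.inl l) 1, fun k => ?_, ?_⟩
        · by_cases hk : k = Sum.inl l
          · rw [hk, Pi.single_eq_same]
            exact isAlgebraic_one
          · rw [Pi.single_eq_of_ne hk]
            exact isAlgebraic_zero
        · rw [Finset.sum_eq_single (Sum.inl l)]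
          · rw [Pi.single_eq_same, one_smul, h.bs_inl, hbl]
          · intro k _ hk
            rw [Pi.single_eq_of_ne hk, zero_smul]
          · intro h1
            exact absurd (mem_univ _) h1
      · refine ⟨Sum.elim (fun _ => 0) (A i), fun k => ?_, ?_⟩
        · rcases k with k | k
          · exact isAlgebraic_zero
          · exact hA i k
        · rw [Fintype.sum_sum_type]
          simp only [Sum.elim_inl, Sum.elim_inr, zero_smul, Finset.sum_const_zero, zero_add, hbr,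
            h.bs_inr]
          refine Prod.ext ?_ (Subtype.ext ?_)
          · rw [Prod.fst_sum]
            simp
          · rw [Prod.snd_sum, Submodule.coe_sum]
            simp only [Prod.smul_snd, Submodule.coe_smul, hb0]
            exact hAe i
  have hcg : ∀ I : Fin m → Fin a ⊕ Fin n, IsAlgebraic ℚ (c' fun j => gU a hg (h.bs a (I j))) := by
    intro I
    rw [hc'a]
    refine hcD _ fun j => ?_
    rcases hj : I j with l | i
    · left
      refine ⟨l, ?_⟩
      rw [h.bs_inl]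
      refine Prod.ext rfl (Subtype.ext ?_)
      rw [hφ2, gU_snd]
      change g * 0 * g' = 0
      rw [Matrix.mul_zero, Matrix.zero_mul]
    · right
      rw [h.bs_inr]
      exact ⟨rfl, Γ i, hG.alg i, rfl⟩
  have hk := kills_all h (hcls Γ h) hG.alg hca hg (by rw [hG.ev]; exact hgE)
    (by rw [hG.ev]; exact hgE') hcg (by rw [hG.ev]; exact hW)
  have hspan := span_cyc h hm ha hk
  have hbq : ∀ i k, bq (e i) (e k) = (Q i k : ℂ) := by
    intro i k
    have h1 := congrArg Matrix.trace (hrel i k)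
    rw [Matrix.trace_add, Matrix.trace_mul_comm (e k) (e i), Matrix.trace_smul, Matrix.trace_one,
      ← two_mul, smul_eq_mul, mul_assoc] at h1
    have h2 := mul_left_cancel₀ (two_ne_zero' ℂ) h1
    rw [bq_apply, h2, mul_div_assoc, div_self (Cl.card_ne (N := N)), mul_one]
  obtain ⟨z, hz⟩ := rat_cyc b hcb (by
    intro σ l I j
    have hfst : ∀ k l', ∃ q : ℚ, (b k).1 l' = q := by
      intro k l'
      rcases k with k | k
      · rw [hbl]
        by_cases hk : l' = k
        · exact ⟨1, by rw [hk]; simp⟩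
        · exact ⟨0, by simp [Pi.single_eq_of_ne hk]⟩
      · rw [hbr]
        exact ⟨0, by simp⟩
    have hbb : ∀ k k', ∃ q : ℚ, bq (b k).2.1 (b k').2.1 = q := by
      intro k k'
      rcases k with k | k
      · rw [hbl]
        refine ⟨0, ?_⟩
        change bq 0 _ = _
        rw [map_zero, LinearMap.zero_apply, Rat.cast_zero]
      · rcases k' with k' | k'
        · rw [hbl k']
          refine ⟨0, ?_⟩
          change bq _ 0 = _
          rw [map_zero, Rat.cast_zero]
        · rw [hbr, hbr]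
          refine ⟨Q k k', ?_⟩
          change bq (b₀ k : Ts Γ).1 (b₀ k' : Ts Γ).1 = _
          rw [hb0, hb0, hbq]
    unfold fac
    beta_reduce
    split_ifs
    · exact hfst _ _
    · exact hbb _ _
    · exact ⟨1, by simp⟩) hspan
  refine ⟨z, fun v => ?_⟩
  have h1 := hz fun j => φ.symm (v j)
  rw [hc'a] at h1
  simp only [LinearEquiv.apply_symm_apply] at h1
  exact h1

end Pool.Agent.TH164.Spin
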