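import Pool.Agent.TH164.Spin.Gn

/-!
# The weights of the second level
-/

set_option autoImplicit false
set_option linter.unusedSectionVars false
set_option linter.unusedVariables false

open Module LieModule LieAlgebra LieAlgebra.IsKilling

namespace Pool.Agent.TH164.Spin

variable {k L : Type*} [Field k] [IsAlgClosed k] [CharZero k] [LieRing L] [LieAlgebra k L]
  [FiniteDimensional k L] [LieAlgebra.IsKilling k L] {H : LieSubalgebra k L}
  [H.IsCartanSubalgebra]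
variable {S : Type*} [AddCommGroup S] [Module k S] [LieRingModule L S] [LieModule k L S]
  [FiniteDimensional k S] [Nontrivial S]
variable {T : Type*} [AddCommGroup T] [Module k T] [LieRingModule L T] [LieModule k L T]
  [FiniteDimensional k T]

variable {q : T →ₗ[k] T →ₗ[k] k} {cl : T →ₗ[k] S →ₗ[k] S}

/-- The number `c` is the smallest positive level. -/
structure Lvl (T : Type*) [AddCommGroup T] [Module k T] [LieRingModule L T] [LieModule k L T]
    (φ : (H → k) →ₗ[ℚ] ℚ) (c : ℚ) : Prop where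
  pos : 0 < c
  le : ∀ μ : H → k, wt H T μ ≠ ⊥ → φ μ < 0 → φ μ ≤ -c

namespace Sp

theorem exists_lvl (h : Sp H q cl) {φ : (H → k) →ₗ[ℚ] ℚ} {μ : H → k} (hμ : wt H T μ ≠ ⊥)
    (hμ0 : φ μ ≠ 0) : ∃ c, Lvl T φ c ∧ ∃ ν, wt H T ν ≠ ⊥ ∧ φ ν = -c := by
  have h1 : ∃ μ', wt H T μ' ≠ ⊥ ∧ φ μ' < 0 := by
    rcases lt_or_gt_of_ne hμ0 with h2 | h2
    · exact ⟨μ, hμ, h2⟩
    · exact ⟨-μ, h.tw_neg hμ, by rw [map_neg]; linarith⟩
  obtain ⟨ν, ⟨hν1, hν2⟩, hν3⟩ := Set.exists_max_image {χ : H → k | wt H T χ ≠ ⊥ ∧ φ χ < 0} φ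
    ((finite_wt (H := H) (M := T)).subset fun χ hχ => hχ.1) h1
  refine ⟨-φ ν, ⟨by linarith, fun μ' h2 h3 => ?_⟩, ν, hν1, by ring⟩
  rw [neg_neg]
  exact hν3 μ' ⟨h2, h3⟩

/-- The weights of the smallest level are roots. -/
theorem lvl_root (h : Sp H q cl) {φ : (H → k) →ₗ[ℚ] ℚ} {c : ℚ} (hc : Lvl T φ c) {ν : H → k}
    (hν : wt H T ν ≠ ⊥) (hν0 : φ ν = -c) : ∃ (e f : L) (j : ℕ), Tri ν e f ∧ Len T ν j := by
  have hν1 : ν ≠ 0 := by
    rintro rfl
    rw [map_zero] at hν0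
    have := hc.pos
    linarith
  obtain ⟨β, e, f, i, t, hi, hi2⟩ := h.exists_tri hν hν1
  rw [hi2] at hν
  obtain ⟨j, hj⟩ := h.exists_len t hi hν
  have h1 : φ ν = i * φ β := by
    rw [hi2, map_nsmul, nsmul_eq_mul]
  have h2 : i = 1 := by
    by_contra h3
    have h4 : (2 : ℚ) ≤ i := by exact_mod_cast (by omega : 2 ≤ i)
    have h5 := hc.pos
    have h6 : φ β < 0 := by
      rw [hν0] at h1
      by_contra h7
      push Not at h7
      have : 0 ≤ (i : ℚ) * φ β := by positivity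
      linarith
    have h7 := hc.le β hj.self h6
    nlinarith
  rw [h2, one_smul] at hi2
  rw [hi2]
  exact ⟨e, f, j, t, hj⟩

theorem not_prop {φ : (H → k) →ₗ[ℚ] ℚ} {α ν : H → k} (hα : IsRt H α) (hα0 : φ α = 0)
    (hν : IsRt H ν) (hν0 : φ ν ≠ 0) (c : k) : ν ≠ c • α := by
  intro h1
  rcases rt_smul hα hν h1 with h2 | h2
  · rw [h2] at hν0
    exact hν0 hα0
  · rw [h2, map_neg, hα0, neg_zero] at hν0
    exact hν0 rfl

/-- The vectors of the second level, as products. -/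
theorem second_T' (h : Sp H q cl) {α : H → k} {e f : L} (t : Tri α e f)
    {φ : (H → k) →ₗ[ℚ] ℚ} {M c : ℚ} (hM : IsTop H S φ M) (hc : Lvl T φ c) {s : S}
    {Λ : H → k} {N : ℕ} (l : Lin S φ M α e f s Λ N) {χ : H → k} (hχ : φ χ = M - c) {m : S}
    (hm : m ∈ wt H S χ) :
    m ∈ Submodule.span k {y | ∃ μ, ∃ t ∈ wt H T μ, ∃ i ≤ N, Λ - i • α + μ = χ ∧
      y = cl t (up f i s)} := by
  have h1 := h.second_T hM hc.pos hc.le (wt_le_lv (P := fun χ => φ χ = M - c) hχ hm)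
  set ι := {p : (H → k) × T × ℕ // p.2.1 ∈ wt H T p.1 ∧ p.2.2 ≤ N} with hι
  have h2 : Submodule.span k (stepT cl φ M c) ≤ Submodule.span k
      (Set.range fun p : ι => cl p.1.2.1 (up f p.1.2.2 s)) := by
    rw [Submodule.span_le]
    rintro _ ⟨μ, hμ, a, ha, s', hs', rfl⟩
    have h3 := l.le hs'
    have h4 : Submodule.span k (Set.range fun i : ℕ => up f i s) ≤ (Submodule.span k
      (Set.range fun p : ι => cl p.1.2.1 (up f p.1.2.2 s))).comap (cl a) := by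
      rw [Submodule.span_le]
      rintro _ ⟨i, rfl⟩
      by_cases hi : i ≤ N
      · exact Submodule.subset_span ⟨⟨(μ, a, i), ha, hi⟩, rfl⟩
      · have h5 : up f i s = 0 := by
          obtain ⟨d, rfl⟩ := Nat.exists_eq_add_of_lt (not_le.1 hi)
          rw [show N + d + 1 = d + (N + 1) by ring, up_add, l.zero]
          clear * -
          induction d with
          | zero => rfl
          | succ d ih => rw [up_succ, ih, lie_zero]
        simp only [h5]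
        exact Submodule.zero_mem _
    exact h4 h3
  have h3 := mem_span_wt (v := fun p : ι => cl p.1.2.1 (up f p.1.2.2 s))
    (X := fun p : ι => Λ - p.1.2.2 • α + p.1.1)
    (fun p => h.cl_mem p.2.1 (t.dn_mem l.mem _)) (h2 h1) hm
  refine Submodule.span_mono ?_ h3
  rintro _ ⟨⟨⟨μ, a, i⟩, ha, hi⟩, h4, rfl⟩
  exact ⟨μ, a, ha, i, hi, h4, rfl⟩

theorem second_L' (h : Sp H q cl) {α : H → k} {e f : L} (t : Tri α e f)
    {φ : (H → k) →ₗ[ℚ] ℚ} {M c : ℚ} (hM : IsTop H S φ M) (hc : Lvl T φ c) {s : S}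
    {Λ : H → k} {N : ℕ} (l : Lin S φ M α e f s Λ N) {χ : H → k} (hχ : φ χ = M - c) {m : S}
    (hm : m ∈ wt H S χ) :
    m ∈ Submodule.span k {y | ∃ μ, ∃ x ∈ wt H L μ, ∃ i ≤ N, Λ - i • α + μ = χ ∧
      y = ⁅x, up f i s⁆} := by
  have h1 := h.second_L hM hc.pos hc.le (wt_le_lv (P := fun χ => φ χ = M - c) hχ hm)
  set ι := {p : (H → k) × L × ℕ // p.2.1 ∈ wt H L p.1 ∧ p.2.2 ≤ N} with hι
  have h2 : Submodule.span k (stepL S φ M c) ≤ Submodule.span k
      (Set.range fun p : ι => ⁅p.1.2.1, up f p.1.2.2 s⁆) := by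
    rw [Submodule.span_le]
    rintro _ ⟨μ, hμ, a, ha, s', hs', rfl⟩
    have h3 := l.le hs'
    have h4 : Submodule.span k (Set.range fun i : ℕ => up f i s) ≤ (Submodule.span k
      (Set.range fun p : ι => ⁅p.1.2.1, up f p.1.2.2 s⁆)).comap (toEnd k L S a) := by
      rw [Submodule.span_le]
      rintro _ ⟨i, rfl⟩
      by_cases hi : i ≤ N
      · exact Submodule.subset_span ⟨⟨(μ, a, i), ha, hi⟩, rfl⟩
      · have h5 : up f i s = 0 := by
          obtain ⟨d, rfl⟩ := Nat.exists_eq_add_of_lt (not_le.1 hi)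
          rw [show N + d + 1 = d + (N + 1) by ring, up_add, l.zero]
          clear * -
          induction d with
          | zero => rfl
          | succ d ih => rw [up_succ, ih, lie_zero]
        simp only [h5]
        exact Submodule.zero_mem _
    exact h4 h3
  have h3 := mem_span_wt (v := fun p : ι => ⁅p.1.2.1, up f p.1.2.2 s⁆)
    (X := fun p : ι => Λ - p.1.2.2 • α + p.1.1)
    (fun p => lie_mem_wt p.2.1 (t.dn_mem l.mem _)) (h2 h1) hm
  refine Submodule.span_mono ?_ h3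
  rintro _ ⟨⟨⟨μ, a, i⟩, ha, hi⟩, h4, rfl⟩
  exact ⟨μ, a, ha, i, hi, h4, rfl⟩

/-- The top of a string in the smallest level. -/
theorem lvl_top (h : Sp H q cl) {α : H → k} {e f : L} (t : Tri α e f) {j : ℕ} (hj : Len T α j)
    {φ : (H → k) →ₗ[ℚ] ℚ} {c : ℚ} (hc : Lvl T φ c) (hα : φ α = 0) {ν : H → k}
    (hν : wt H T ν ≠ ⊥) (hν0 : φ ν = -c) (hν1 : wt H T (ν + α) = ⊥) :
    (ν (cv α) = 0 ∨ ν (cv α) = 1) ∧ wt H L (ν + α) ≠ ⊥ := by
  obtain ⟨e', f', j', t', hj'⟩ := h.lvl_root hc hν hν0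
  have hc0 := hc.pos
  have hne : φ ν ≠ 0 := by rw [hν0]; linarith
  have h1 : wt H L (ν + α) ≠ ⊥ := by
    intro h2
    refine h.two_roots t t'.neg hj hj'.neg (fun c => ?_) ?_ ?_
    · refine not_prop t.rt hα t'.neg.rt ?_ c
      rw [map_neg]
      exact neg_ne_zero.2 hne
    · rw [sub_neg_eq_add, add_comm]
      exact hν1
    · rw [sub_neg_eq_add, add_comm]
      exact h2
  refine ⟨?_, h1⟩
  obtain ⟨z, hz⟩ := t.int hν
  have hz0 : 0 ≤ z := by
    by_contra h2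
    push Not at h2
    have h3 := t.str' hν hz (i := 1) (by omega)
    rw [one_smul] at h3
    exact h3 hν1
  have hne2 : φ (ν + α) ≠ 0 := by rwa [map_add, hα, add_zero]
  have hrt : IsRt H (ν + α) := ⟨fun h2 => hne2 (by rw [h2, map_zero]), h1⟩
  obtain ⟨b, hb⟩ := rt_int hrt t.rt
  have h3 : (ν + α) (cv α) = ((z + 2 : ℤ) : k) := by
    rw [Pi.add_apply, hz, rt_two t.rt]
    push_cast
    rfl
  have h4 := (rt_prod t.rt hrt (not_prop t.rt hα hrt hne2) h3 hb).2.2.2.1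
  rcases (by omega : z = 0 ∨ z = 1) with h5 | h5
  · left
    rw [hz, h5, Int.cast_zero]
  · right
    rw [hz, h5, Int.cast_one]

/-- The case of a line with five weights. -/
theorem five (h : Sp H q cl) {α : H → k} {e f : L} (t : Tri α e f) (hj : Len T α 2)
    {φ : (H → k) →ₗ[ℚ] ℚ} {c : ℚ} (hc : Lvl T φ c) (hα : φ α = 0) {ν : H → k}
    (hν : wt H T ν ≠ ⊥) (hν0 : φ ν = -c) (hν1 : wt H T (ν + α) = ⊥) : False := by
  obtain ⟨e', f', j', t', hj'⟩ := h.lvl_root hc hν hν0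
  have hc0 := hc.pos
  have hne : φ ν ≠ 0 := by rw [hν0]; linarith
  have hnp := not_prop t.rt hα t'.rt hne
  obtain ⟨h1, h2⟩ := h.lvl_top t hj hc hα hν hν0 hν1
  have w2 : wt H T ((2 : ℕ) • α) ≠ ⊥ := by
    have := hj.ne 2 (by norm_num)
    rwa [show (2 : ℤ) • α = (2 : ℕ) • α from natCast_zsmul α 2] at this
  rcases h1 with h1 | h1
  · -- the value zero
    have w3 : wt H T (ν - α) = ⊥ := by
      by_contra h3
      have h4 : (ν - α) (cv α) = ((-2 : ℤ) : k) := by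
        rw [Pi.sub_apply, h1, rt_two t.rt]
        push_cast
        ring
      have h5 := t.str' h3 h4 (i := 2) (by norm_num)
      have h6 : ν - α + 2 • α = ν + α := by
        rw [two_smul]
        abel
      rw [h6] at h5
      exact h5 hν1
    obtain ⟨u, hu, hu0⟩ := Submodule.exists_mem_ne_zero_of_ne_bot (h.tw_neg w2)
    have hv2 : (-((2 : ℕ) • α)) (cv α) = ((-4 : ℤ) : k) := by
      rw [Pi.neg_apply, Pi.smul_apply, rt_two t.rt]
      push_cast
      rw [nsmul_eq_mul]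
      norm_num
    have hu1 := t.inj' hu hu0 hv2 (by norm_num)
    have hum : ⁅e, u⁆ ∈ wt H T (-α) := by
      refine lie_mem_wt' t.he hu ?_
      rw [two_smul]
      abel
    have hv1 : (-α) (cv α) = ((-2 : ℤ) : k) := by
      rw [Pi.neg_apply, rt_two t.rt]
      push_cast
      ring
    have hu2 := t.inj' hum hu1 hv1 (by norm_num)
    have hum2 : ⁅e, ⁅e, u⁆⁆ ∈ wt H T 0 := lie_mem_wt' t.he hum (neg_add_cancel α)
    have hx := h.e_zero t' hj' hum2 hu2
    have g0 : ⁅e', ⁅e, u⁆⁆ = 0 := by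
      have h3 := lie_mem_wt' (ψ := ν - α) t'.he hum (by abel)
      rw [w3] at h3
      exact (Submodule.mem_bot k).1 h3
    have g1 : ⁅⁅e, e'⁆, ⁅e, u⁆⁆ ≠ 0 := by
      rw [lie_lie, g0, lie_zero, zero_sub, neg_ne_zero]
      exact hx
    have hg : ⁅e, e'⁆ ∈ wt H L (ν + α) := lie_mem_wt t.he t'.he
    have g2 : ⁅⁅e, e'⁆, u⁆ = 0 := by
      have h3 := lie_mem_wt' (ψ := ν - α) hg hu (by rw [two_smul]; abel)
      rw [w3] at h3
      exact (Submodule.mem_bot k).1 h3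
    have g3 : ⁅⁅e, ⁅e, e'⁆⁆, u⁆ ≠ 0 := by
      rw [lie_lie, g2, lie_zero, zero_sub, neg_ne_zero]
      exact g1
    have g4 : ⁅e, ⁅e, e'⁆⁆ ≠ 0 := by
      intro h3
      rw [h3, zero_lie] at g3
      exact g3 rfl
    have g5 : ⁅e, ⁅e, e'⁆⁆ ∈ wt H L (ν + 2 • α) :=
      lie_mem_wt' t.he hg (by rw [two_smul]; abel)
    have hne2 : φ (ν + 2 • α) ≠ 0 := by rwa [map_add, map_nsmul, hα, smul_zero, add_zero]
    have hrt : IsRt H (ν + 2 • α) := ⟨fun h2 => hne2 (by rw [h2, map_zero]),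
      (Submodule.ne_bot_iff _).2 ⟨_, g5, g4⟩⟩
    obtain ⟨b, hb⟩ := rt_int hrt t.rt
    have h3 : (ν + 2 • α) (cv α) = ((4 : ℤ) : k) := by
      rw [Pi.add_apply, h1, Pi.smul_apply, rt_two t.rt]
      push_cast
      rw [nsmul_eq_mul]
      norm_num
    have h4 := (rt_prod t.rt hrt (not_prop t.rt hα hrt hne2) h3 hb).2.2.2.1
    omega
  · -- the value one
    have h1' : ν (cv α) = ((1 : ℤ) : k) := by rw [h1, Int.cast_one]
    obtain ⟨b, hb⟩ := rt_int t'.rt t.rt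
    have hb0 := (rt_prod t.rt t'.rt hnp h1' hb).2.2.1.1 (by norm_num)
    have h3 : ((2 : ℕ) • α) (cv ν) = ((2 * b : ℤ) : k) := by
      rw [Pi.smul_apply, hb]
      push_cast
      rw [nsmul_eq_mul]
      norm_num
    have h4 := t'.str w2 h3 (i := 1) (by omega)
    have h5 := h.tw_neg h4
    have h6 : (-((2 : ℕ) • α - (1 : ℕ) • ν)) (cv α) = ((-3 : ℤ) : k) := by
      rw [Pi.neg_apply, Pi.sub_apply, Pi.smul_apply, Pi.smul_apply, rt_two t.rt, h1]
      push_cast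
      rw [nsmul_eq_mul, nsmul_eq_mul]
      norm_num
    have h7 := t.str' h5 h6 (i := 3) (by norm_num)
    have h8 : -((2 : ℕ) • α - (1 : ℕ) • ν) + 3 • α = ν + α := by
      rw [one_smul, two_smul, show (3 : ℕ) = 2 + 1 from rfl, add_smul, two_smul, one_smul]
      abel
    rw [h8] at h7
    exact h7 hν1

/-- The case of a line with three weights. -/
theorem three (h : Sp H q cl) {α : H → k} {e f : L} (t : Tri α e f) (hj : Len T α 1)
    {φ : (H → k) →ₗ[ℚ] ℚ} (hφ : Ln T φ α) {c : ℚ} (hc : Lvl T φ c) {ν : H → k}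
    (hν : wt H T ν ≠ ⊥) (hν0 : φ ν = -c) (hν1 : wt H T (ν + α) = ⊥) : ν (cv α) = 0 := by
  obtain ⟨e', f', j', t', hj'⟩ := h.lvl_root hc hν hν0
  have hα := hφ.zero
  have hc0 := hc.pos
  have hne : φ ν ≠ 0 := by rw [hν0]; linarith
  obtain ⟨h1, h2⟩ := h.lvl_top t hj hc hα hν hν0 hν1
  refine h1.resolve_right fun h1 => ?_
  have h1' : ν (cv α) = ((1 : ℤ) : k) := by rw [h1, Int.cast_one]
  obtain ⟨M, hM⟩ := exists_top h.dS φ
  obtain ⟨s, Λ, N, l⟩ := h.line_top t hφ hM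
  have hN := h.n_one t hj hM l
  subst hN
  have hs : s ∈ tp H S φ M := wt_le_lv (P := fun χ => φ χ = M) l.lev l.mem
  have s0 : s ≠ 0 := l.ne 0 (Nat.zero_le _)
  have fs0 : ⁅f, s⁆ ≠ 0 := l.ne 1 le_rfl
  have ffs : ⁅f, ⁅f, s⁆⁆ = 0 := l.zero
  have hfs : ⁅f, s⁆ ∈ wt H S (Λ - α) := t.lie_f l.mem
  have hfs' : ⁅f, s⁆ ∈ tp H S φ M := wt_le_lv (P := fun χ => φ χ = M)
    (by rw [map_sub, hα, sub_zero, l.lev]) hfs
  obtain ⟨E, hE, hE0⟩ := Submodule.exists_mem_ne_zero_of_ne_bot h2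
  have w2 : wt H T (ν + α + α) = ⊥ := by
    by_contra h3
    have h4 : (ν + α + α) (cv α) = ((5 : ℤ) : k) := by
      rw [Pi.add_apply, Pi.add_apply, h1, rt_two t.rt]
      push_cast
      norm_num
    have h5 := t.str h3 h4 (i := 1) (by norm_num)
    rw [one_smul, add_sub_cancel_right] at h5
    exact h5 hν1
  -- the highest element kills the highest vector
  have hEs : ⁅E, s⁆ = 0 := by
    have h3 := h.second_T' t hM hc l (χ := Λ + (ν + α)) (by
      rw [map_add, map_add, l.lev, hν0, hα]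
      ring) (lie_mem_wt hE l.mem)
    have h4 : Submodule.span k {y | ∃ μ, ∃ t ∈ wt H T μ, ∃ i ≤ 1, Λ - i • α + μ = Λ + (ν + α) ∧
      y = cl t (up f i s)} ≤ ⊥ := by
      rw [Submodule.span_le]
      rintro _ ⟨μ, a, ha, i, hi, hμ, rfl⟩
      have ha0 : a = 0 := by
        rcases (by omega : i = 0 ∨ i = 1) with h5 | h5
        · rw [h5, zero_smul, sub_zero, add_right_inj] at hμ
          rw [hμ, hν1] at ha
          exact (Submodule.mem_bot k).1 ha
        · rw [h5, one_smul] at hμ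
          have h6 : μ = ν + α + α := by
            have h7 : μ = (Λ - α + μ) - Λ + α := by abel
            rw [h7, hμ]
            abel
          rw [h6, w2] at ha
          exact (Submodule.mem_bot k).1 ha
      rw [ha0, map_zero]
      exact Submodule.zero_mem _
    exact (Submodule.mem_bot k).1 (h4 h3)
  have hvE : (ν + α) (cv α) = ((3 : ℤ) : k) := by
    rw [Pi.add_apply, h1, rt_two t.rt]
    push_cast
    norm_num
  have hE1 : ⁅f, E⁆ ≠ 0 := t.inj hE hE0 hvE (by norm_num)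
  have hE1m : ⁅f, E⁆ ∈ wt H L ν := by
    have := t.lie_f hE
    rwa [add_sub_cancel_right] at this
  have hE2 : ⁅f, ⁅f, E⁆⁆ ≠ 0 := t.inj hE1m hE1 h1' (by norm_num)
  have hE2m : ⁅f, ⁅f, E⁆⁆ ∈ wt H L (ν - α) := t.lie_f hE1m
  have r1 : ⁅⁅f, E⁆, s⁆ = -⁅E, ⁅f, s⁆⁆ := by
    rw [lie_lie, hEs, lie_zero, zero_sub]
  have r2 : ⁅⁅f, ⁅f, E⁆⁆, s⁆ = (-2 : k) • ⁅⁅f, E⁆, ⁅f, s⁆⁆ := by
    have h3 : ⁅⁅f, E⁆, ⁅f, s⁆⁆ = ⁅f, ⁅E, ⁅f, s⁆⁆⁆ := by
      rw [lie_lie, ffs, lie_zero, sub_zero]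
    rw [lie_lie f ⁅f, E⁆ s, r1, lie_neg, ← h3, neg_smul, two_smul]
    abel
  -- the whole weight space
  have key : ∀ m ∈ wt H S (Λ + ν - α), ∃ c : k, m = c • ⁅⁅f, E⁆, ⁅f, s⁆⁆ := by
    intro m hm
    have h3 := h.second_L' t hM hc l (χ := Λ + ν - α) (by
      rw [map_sub, map_add, l.lev, hν0, hα]
      ring) hm
    have h4 : Submodule.span k {y | ∃ μ, ∃ x ∈ wt H L μ, ∃ i ≤ 1, Λ - i • α + μ = Λ + ν - α ∧
      y = ⁅x, up f i s⁆} ≤ Submodule.span k {⁅⁅f, E⁆, ⁅f, s⁆⁆} := by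
      rw [Submodule.span_le]
      rintro _ ⟨μ, a, ha, i, hi, hμ, rfl⟩
      rcases (by omega : i = 0 ∨ i = 1) with h5 | h5
      · rw [h5, zero_smul, sub_zero, add_sub_assoc, add_right_inj] at hμ
        rw [hμ] at ha
        have hne3 : φ (ν - α) ≠ 0 := by rwa [map_sub, hα, sub_zero]
        have hrt : IsRt H (ν - α) := ⟨fun h2 => hne3 (by rw [h2, map_zero]),
          (Submodule.ne_bot_iff _).2 ⟨_, hE2m, hE2⟩⟩
        obtain ⟨c, rfl⟩ := rt_one hrt hE2m ha hE2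
        rw [h5, up_zero, smul_lie, r2, smul_smul]
        exact Submodule.smul_mem _ _ (Submodule.mem_span_singleton_self _)
      · rw [h5, one_smul] at hμ
        have h6 : μ = ν := by
          have h7 : μ = (Λ - α + μ) - Λ + α := by abel
          rw [h7, hμ]
          abel
        rw [h6] at ha
        obtain ⟨c, rfl⟩ := rt_one t'.rt hE1m ha hE1
        rw [h5, up_one, smul_lie]
        exact Submodule.smul_mem _ _ (Submodule.mem_span_singleton_self _)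
    obtain ⟨c, hc⟩ := Submodule.mem_span_singleton.1 (h4 h3)
    exact ⟨c, hc.symm⟩
  -- two independent vectors
  obtain ⟨a, ha, ha0⟩ := Submodule.exists_mem_ne_zero_of_ne_bot hν
  have hνα : wt H T (ν - α) ≠ ⊥ := by
    have := t.str hν h1' (i := 1) (by norm_num)
    rwa [one_smul] at this
  obtain ⟨a', ha', ha0'⟩ := Submodule.exists_mem_ne_zero_of_ne_bot hνα
  obtain ⟨b, hb, hab⟩ := h.dual ha ha0
  obtain ⟨b', hb', hab'⟩ := h.dual ha' ha0'
  obtain ⟨c1, hc1⟩ := key (cl a ⁅f, s⁆) (h.cl_mem' ha hfs (by abel))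
  obtain ⟨c2, hc2⟩ := key (cl a' s) (h.cl_mem' ha' l.mem (by abel))
  have hb0 : 0 < φ (-ν) := by rw [map_neg, hν0]; linarith
  have hb0' : 0 < φ (-(ν - α)) := by rw [map_neg, map_sub, hν0, hα]; linarith
  have p1 := h.cre (a := b) (b := a) (s := ⁅f, s⁆) (by rw [h.symm, hab]) (h.kill hM hb0 hb hfs')
  have p2 := h.cre (a := b') (b := a') (s := s) (by rw [h.symm, hab']) (h.kill hM hb0' hb' hs)
  have p3 : cl b (cl a' s) = 0 := by
    refine h.ann (h.q_zero hb ha' ?_) (h.kill hM hb0 hb hs)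
    intro h5
    have h6 : -ν + (ν - α) = -α := by abel
    rw [h6, neg_eq_zero] at h5
    exact t.rt.1 h5
  have p4 : c2 • cl a ⁅f, s⁆ = c1 • cl a' s := by
    rw [hc1, hc2, smul_smul, smul_smul, mul_comm]
  have p5 := congrArg (cl b) p4
  rw [map_smul, map_smul, p1, p3, smul_zero, smul_smul, smul_eq_zero, or_iff_left fs0,
    mul_eq_zero, or_iff_left (two_ne_zero' k)] at p5
  rw [p5, zero_smul] at hc2
  rw [hc2, map_zero] at p2
  exact smul_ne_zero (two_ne_zero' k) s0 p2.symm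

/-- In the smallest level all weights are orthogonal to the root. -/
theorem lvl_zero (h : Sp H q cl) {α : H → k} {e f : L} (t : Tri α e f) (hj : Len T α 1)
    {φ : (H → k) →ₗ[ℚ] ℚ} (hφ : Ln T φ α) {c : ℚ} (hc : Lvl T φ c) {χ : H → k}
    (hχ : wt H T χ ≠ ⊥) (hχ0 : φ χ = -c) : χ (cv α) = 0 := by
  have hpos : ∀ χ : H → k, wt H T χ ≠ ⊥ → φ χ = -c → ∀ z : ℤ, χ (cv α) = z → ¬ 0 < z := by
    intro χ hχ hχ0 z hz hz0
    obtain ⟨p, hp1, hp2⟩ := exists_string_top t.rt.1 hχ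
    have h1 := h.three t hj hφ hc hp1 (by rw [map_add, map_nsmul, hφ.zero, smul_zero, add_zero,
      hχ0]) (by rw [add_assoc, ← succ_nsmul]; exact hp2)
    rw [Pi.add_apply, Pi.smul_apply, hz, rt_two t.rt, nsmul_eq_mul] at h1
    have h2 : z + p * 2 = 0 := by exact_mod_cast h1
    omega
  obtain ⟨z, hz⟩ := t.int hχ
  have h1 := hpos χ hχ hχ0 z hz
  have h2 : ¬ z < 0 := by
    intro h3
    have h4 := t.str' hχ hz (i := z.natAbs) (by omega)
    refine hpos _ h4 (by rw [map_add, map_nsmul, hφ.zero, smul_zero, add_zero, hχ0]) (-z) ?_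
      (by omega)
    rw [Pi.add_apply, Pi.smul_apply, hz, rt_two t.rt, nsmul_eq_mul]
    have h5 : ((z.natAbs : ℕ) : k) = ((-z : ℤ) : k) := by
      rw [← Int.cast_natCast]
      congr 1
      omega
    rw [h5]
    push_cast
    ring
  rw [hz, show z = 0 by omega, Int.cast_zero]

theorem lvl_add (h : Sp H q cl) {α : H → k} {e f : L} (t : Tri α e f) (hj : Len T α 1)
    {φ : (H → k) →ₗ[ℚ] ℚ} (hφ : Ln T φ α) {c : ℚ} (hc : Lvl T φ c) {χ : H → k}
    (hχ : wt H T χ ≠ ⊥) (hχ0 : φ χ = -c) : wt H T (χ + α) = ⊥ := by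
  by_contra h1
  have h2 := h.lvl_zero t hj hφ hc h1 (by rw [map_add, hφ.zero, add_zero, hχ0])
  rw [Pi.add_apply, h.lvl_zero t hj hφ hc hχ hχ0, rt_two t.rt, zero_add] at h2
  exact two_ne_zero' k h2

theorem lvl_sub (h : Sp H q cl) {α : H → k} {e f : L} (t : Tri α e f) (hj : Len T α 1)
    {φ : (H → k) →ₗ[ℚ] ℚ} (hφ : Ln T φ α) {c : ℚ} (hc : Lvl T φ c) {χ : H → k}
    (hχ : wt H T χ ≠ ⊥) (hχ0 : φ χ = -c) : wt H T (χ - α) = ⊥ := by
  by_contra h1
  have h2 := h.lvl_zero t hj hφ hc h1 (by rw [map_sub, hφ.zero, sub_zero, hχ0])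
  rw [Pi.sub_apply, h.lvl_zero t hj hφ hc hχ hχ0, rt_two t.rt, zero_sub, neg_eq_zero] at h2
  exact two_ne_zero' k h2

end Sp

end Pool.Agent.TH164.Spin
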