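import Pool.Agent.TH164.Spin.Clf

/-!
# The weights on the line of a root
-/

set_option autoImplicit false
set_option linter.unusedSectionVars false
set_option linter.unusedVariables false

open Module LieModule LieAlgebra LieAlgebra.IsKilling

namespace Pool.Agent.TH164.Spin

variable {k L : Type*} [Field k] [IsAlgClosed k] [CharZero k] [LieRing L] [LieAlgebra k L]
  [FiniteDimensional k L] [LieAlgebra.IsKilling k L] {H : LieSubalgebra k L}
  [H.IsCartanSubalgebra]
variable {S : Type*} [AddCommGroup S] [Module k S] [LieRingModule L S] [LieModule k L S]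
  [FiniteDimensional k S] [Nontrivial S]
variable {T : Type*} [AddCommGroup T] [Module k T] [LieRingModule L T] [LieModule k L T]
  [FiniteDimensional k T]

variable {q : T →ₗ[k] T →ₗ[k] k} {cl : T →ₗ[k] S →ₗ[k] S}

/-- The functional is in general position with kernel the line of `β`. -/
structure Ln (T : Type*) [AddCommGroup T] [Module k T] [LieRingModule L T] [LieModule k L T]
    (φ : (H → k) →ₗ[ℚ] ℚ) (β : H → k) : Prop where
  zero : φ β = 0
  t : ∀ χ, wt H T χ ≠ ⊥ → φ χ = 0 → χ ∈ Submodule.span ℚ {β}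
  l : ∀ χ, wt H L χ ≠ ⊥ → φ χ = 0 → χ ∈ Submodule.span ℚ {β}

theorem exists_ln (T : Type*) [AddCommGroup T] [Module k T] [LieRingModule L T] [LieModule k L T]
    [FiniteDimensional k T] (β : H → k) : ∃ φ : (H → k) →ₗ[ℚ] ℚ, Ln T φ β := by
  obtain ⟨φ, h1, h2, h3⟩ := Sp.exists_phi' T (Submodule.span ℚ {β})
  exact ⟨φ, h1 β (Submodule.mem_span_singleton_self β), h2, h3⟩

theorem Ln.neg {φ : (H → k) →ₗ[ℚ] ℚ} {β : H → k} (h : Ln T φ β) : Ln T φ (-β) where
  zero := by rw [map_neg, h.zero, neg_zero]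
  t χ h1 h2 := by
    have := h.t χ h1 h2
    rwa [Submodule.mem_span_singleton, ← Submodule.mem_span_singleton,
      ← Submodule.span_neg, Set.neg_singleton, neg_neg]
  l χ h1 h2 := by
    have := h.l χ h1 h2
    rwa [Submodule.mem_span_singleton, ← Submodule.mem_span_singleton,
      ← Submodule.span_neg, Set.neg_singleton, neg_neg]

theorem root_line {β γ : H → k} (hβ : IsRt H β) (hγ : wt H L γ ≠ ⊥)
    (h : γ ∈ Submodule.span ℚ {β}) : γ = 0 ∨ γ = β ∨ γ = -β := by
  by_cases h0 : γ = 0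
  · exact Or.inl h0
  right
  obtain ⟨r, hr⟩ := Submodule.mem_span_singleton.1 h
  refine rt_smul hβ ⟨h0, hγ⟩ (c := (r : k)) ?_
  rw [← hr]
  exact (Rat.cast_smul_eq_qsmul k r β).symm

theorem smul_inj {β : H → k} (hβ : β ≠ 0) {a b : ℤ} (h : a • β = b • β) : a = b := by
  obtain ⟨x, hx⟩ := Function.ne_iff.1 hβ
  have h2 := congrFun h x
  rw [Pi.smul_apply, Pi.smul_apply] at h2
  simp only [zsmul_eq_mul] at h2
  have h3 := mul_right_cancel₀ hx h2
  exact_mod_cast h3

/-- A generator of the top level for a functional which vanishes on a root. -/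
structure Lin (S : Type*) [AddCommGroup S] [Module k S] [LieRingModule L S] [LieModule k L S]
    (φ : (H → k) →ₗ[ℚ] ℚ) (M : ℚ) (β : H → k) (e f : L) (s : S) (Λ : H → k) (N : ℕ) : Prop where
  mem : s ∈ wt H S Λ
  lev : φ Λ = M
  ze : φ β = 0
  ne : ∀ i ≤ N, up f i s ≠ 0
  zero : up f (N + 1) s = 0
  e : ⁅e, s⁆ = 0
  val : Λ (cv β) = N
  le : tp H S φ M ≤ Submodule.span k (Set.range fun i : ℕ => up f i s)

namespace Sp

theorem line_top (h : Sp H q cl) {β : H → k} {e f : L} (t : Tri β e f) {φ : (H → k) →ₗ[ℚ] ℚ}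
    (hφ : Ln T φ β) {M : ℚ} (hM : IsTop H S φ M) : ∃ s Λ N, Lin S φ M β e f s Λ N := by
  obtain ⟨χ, hχ1, hχ2⟩ := hM.1
  obtain ⟨m, hm, h0⟩ := Submodule.exists_mem_ne_zero_of_ne_bot hχ1
  obtain ⟨p, hp0, hp1⟩ := t.prim hm h0
  have hu := t.up_mem hm p
  rw [up_succ] at hp1
  obtain ⟨N, hN, hN1, hN2⟩ := t.nat hu hp0 hp1
  have hlev : φ (χ + p • β) = M := by
    rw [map_add, map_nsmul, hφ.zero, smul_zero, add_zero, hχ2]
  refine ⟨up e p m, χ + p • β, N, hu, hlev, hφ.zero, hN1, hN2, hp1, hN, ?_⟩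
  have hst : ∀ (i : ℕ), φ (χ + p • β - i • β) = M := by
    intro i
    rw [map_sub, map_nsmul, hφ.zero, smul_zero, sub_zero, hlev]
  refine h.top_lemma hM ?_ ?_ ?_
  · rw [Submodule.span_le]
    rintro _ ⟨i, rfl⟩
    exact wt_le_lv (P := fun χ => φ χ = M) (hst i) (t.dn_mem hu i)
  · refine (Submodule.ne_bot_iff _).2 ⟨_, Submodule.subset_span ⟨0, rfl⟩, ?_⟩
    exact hN1 0 (Nat.zero_le _)
  · intro γ hγ x hx u hu'
    by_cases hx0 : x = 0
    · rw [hx0, zero_lie]
      exact Submodule.zero_mem _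
    have hγ' : wt H L γ ≠ ⊥ := (Submodule.ne_bot_iff _).2 ⟨x, hx, hx0⟩
    have key : ∀ i : ℕ, ⁅x, up f i (up e p m)⁆ ∈
        Submodule.span k (Set.range fun i : ℕ => up f i (up e p m)) := by
      intro i
      rcases root_line t.rt hγ' (hφ.l γ hγ' hγ) with h2 | h2 | h2
      · rw [h2] at hx
        have h3 := t.dn_mem hu i ⟨x, wt_zero_L.1 hx⟩
        rw [show ⁅x, up f i (up e p m)⁆ = _ from h3]
        exact Submodule.smul_mem _ _ (Submodule.subset_span ⟨i, rfl⟩)
      · rw [h2] at hx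
        obtain ⟨c, rfl⟩ := rt_one t.rt t.he hx t.ht.e_ne_zero
        rw [smul_lie]
        refine Submodule.smul_mem _ _ ?_
        cases i with
        | zero =>
          rw [up_zero, hp1]
          exact Submodule.zero_mem _
        | succ i =>
          rw [t.e_f hu hp0 hp1]
          exact Submodule.smul_mem _ _ (Submodule.subset_span ⟨i, rfl⟩)
      · rw [h2] at hx
        obtain ⟨c, rfl⟩ := rt_one t.neg.rt t.hf hx t.ht.f_ne_zero
        rw [smul_lie]
        refine Submodule.smul_mem _ _ (Submodule.subset_span ⟨i + 1, ?_⟩)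
        exact up_succ _ _ _
    induction hu' using Submodule.span_induction with
    | mem x hx =>
      obtain ⟨i, rfl⟩ := hx
      exact key i
    | zero =>
      rw [lie_zero]
      exact Submodule.zero_mem _
    | add a b _ _ ha hb =>
      rw [lie_add]
      exact Submodule.add_mem _ ha hb
    | smul c a _ ha =>
      rw [lie_smul]
      exact Submodule.smul_mem _ _ ha

end Sp

/-- The weight vectors in the top level. -/
theorem Lin.wt_mem {φ : (H → k) →ₗ[ℚ] ℚ} {M : ℚ} {β : H → k} {e f : L} (t : Tri β e f) {s : S}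
    {Λ : H → k} {N : ℕ} (l : Lin S φ M β e f s Λ N) {m : S} (hm : m ∈ tp H S φ M) {χ : H → k}
    (hχ : m ∈ wt H S χ) (h0 : m ≠ 0) :
    ∃ i : ℕ, i ≤ N ∧ χ = Λ - i • β ∧ ∃ c : k, m = c • up f i s := by
  have h1 := mem_span_wt (v := fun i : ℕ => up f i s) (X := fun i : ℕ => Λ - i • β)
    (fun i => t.dn_mem l.mem i) (l.le hm) hχ
  have h2 : ∃ i : ℕ, Λ - i • β = χ := by
    by_contra hcon
    push Not at hcon
    have h3 : {i : ℕ | Λ - i • β = χ} = ∅ := Set.eq_empty_iff_forall_notMem.2 hcon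
    rw [h3, Set.image_empty, Submodule.span_empty] at h1
    exact h0 ((Submodule.mem_bot k).1 h1)
  obtain ⟨i, hi⟩ := h2
  have h3 : {i : ℕ | Λ - i • β = χ} = {i} := by
    ext i'
    rw [Set.mem_ofPred_eq, Set.mem_singleton_iff]
    constructor
    · intro h4
      rw [← hi, sub_right_inj, ← natCast_zsmul, ← natCast_zsmul] at h4
      exact_mod_cast smul_inj t.rt.1 h4
    · rintro rfl
      exact hi
  rw [h3, Set.image_singleton, Submodule.mem_span_singleton] at h1
  obtain ⟨c, hc⟩ := h1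
  refine ⟨i, ?_, hi.symm, c, hc.symm⟩
  by_contra hiN
  push Not at hiN
  have h4 : up f i s = 0 := by
    obtain ⟨d, rfl⟩ := Nat.exists_eq_add_of_lt hiN
    rw [show N + d + 1 = d + (N + 1) by ring, up_add, l.zero]
    clear * -
    induction d with
    | zero => rfl
    | succ d ih => rw [up_succ, ih, lie_zero]
  rw [← hc, h4, smul_zero] at h0
  exact h0 rfl

namespace Sp

theorem line_int (h : Sp H q cl) {β : H → k} {e f : L} (t : Tri β e f) {φ : (H → k) →ₗ[ℚ] ℚ}
    (hφ : Ln T φ β) {μ : H → k} (hμ : wt H T μ ≠ ⊥) (hμ0 : φ μ = 0) : ∃ i : ℤ, μ = i • β := by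
  obtain ⟨M, hM⟩ := exists_top h.dS φ
  obtain ⟨s, Λ, N, l⟩ := h.line_top t hφ hM
  obtain ⟨u, hu, h0⟩ := Submodule.exists_mem_ne_zero_of_ne_bot hμ
  by_contra hcon
  push Not at hcon
  refine h.not_kill hM hμ0 hu h0 fun m hm => ?_
  have h1 : ∀ i : ℕ, cl u (up f i s) = 0 := by
    intro i
    by_contra h2
    have h3 : up f i s ∈ tp H S φ M := by
      refine wt_le_lv (P := fun χ => φ χ = M) ?_ (t.dn_mem l.mem i)
      rw [map_sub, map_nsmul, l.ze, smul_zero, sub_zero, l.lev]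
    obtain ⟨j, -, hj, -⟩ := l.wt_mem t (h.stab hμ0 hu h3) (h.cl_mem hu (t.dn_mem l.mem i)) h2
    refine hcon ((i : ℤ) - j) ?_
    rw [sub_smul, natCast_zsmul, natCast_zsmul]
    have h4 : μ = (Λ - i • β + μ) - (Λ - i • β) := by abel
    rw [h4, hj]
    abel
  have h2 : Submodule.span k (Set.range fun i : ℕ => up f i s) ≤ LinearMap.ker (cl u) := by
    rw [Submodule.span_le]
    rintro _ ⟨i, rfl⟩
    exact LinearMap.mem_ker.2 (h1 i)
  exact LinearMap.mem_ker.1 (h2 (l.le hm))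

/-- The weights on the line of a root are integral multiples. -/
theorem line_int' (h : Sp H q cl) {β : H → k} (hβ : IsRt H β) {μ : H → k} (hμ : wt H T μ ≠ ⊥)
    (hμ0 : μ ∈ Submodule.span ℚ {β}) : ∃ i : ℤ, μ = i • β := by
  obtain ⟨e, f, t⟩ := exists_tri hβ
  obtain ⟨φ, hφ⟩ := exists_ln T β
  refine h.line_int t hφ hμ ?_
  obtain ⟨r, hr⟩ := Submodule.mem_span_singleton.1 hμ0
  rw [← hr, map_smul, hφ.zero, smul_zero]

/-- Injectivity of the lowering operators. -/
theorem _root_.Pool.Agent.TH164.Spin.Tri.inj_up {β : H → k} {e f : L} (t : Tri β e f) {i : ℕ}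
    {m : T} (hm : m ∈ wt H T (i • β)) (h0 : m ≠ 0) : ∀ p ≤ i, up f p m ≠ 0 := by
  intro p
  induction p with
  | zero =>
    intro _
    exact h0
  | succ p ih =>
    intro hp
    rw [up_succ]
    refine t.inj (t.dn_mem hm p) (ih (by omega)) (z := 2 * ((i : ℤ) - p)) ?_ (by omega)
    rw [Pi.sub_apply, Pi.smul_apply, Pi.smul_apply, rt_two t.rt]
    push_cast
    rw [nsmul_eq_mul, nsmul_eq_mul]
    ring

theorem one_pos (h : Sp H q cl) {β : H → k} {e f : L} (t : Tri β e f) {i : ℕ}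
    {m n : T} (hm : m ∈ wt H T (i • β)) (h0 : m ≠ 0) (hn : n ∈ wt H T (i • β)) :
    ∃ c : k, n = c • m := by
  have h1 : ∀ m ∈ wt H T (i • β), up f i m ∈ wt H T 0 := by
    intro m hm
    have := t.dn_mem hm i
    rwa [sub_self] at this
  obtain ⟨c, hc⟩ := h.zero_span (h1 m hm) (t.inj_up hm h0 i le_rfl) (h1 n hn)
  refine ⟨c, ?_⟩
  by_contra h2
  refine t.inj_up (m := n - c • m) (Submodule.sub_mem _ hn (Submodule.smul_mem _ c hm))
    (sub_ne_zero.2 h2) i le_rfl ?_
  rw [up_eq (k := k), map_sub, map_smul, ← up_eq, ← up_eq, hc, sub_self]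

/-- Each nonzero weight is an integral multiple of a root. -/
theorem exists_tri (h : Sp H q cl) {μ : H → k} (hμ : wt H T μ ≠ ⊥) (hμ0 : μ ≠ 0) :
    ∃ (β : H → k) (e f : L) (i : ℕ), Tri β e f ∧ 1 ≤ i ∧ μ = i • β := by
  obtain ⟨β, hβ, r, hr⟩ := h.exists_root hμ hμ0
  obtain ⟨i, hi⟩ := h.line_int' hβ hμ (Submodule.mem_span_singleton.2 ⟨r, hr.symm⟩)
  rcases lt_trichotomy i 0 with h1 | h1 | h1
  · obtain ⟨e, f, t⟩ := Spin.exists_tri (rt_neg hβ)
    refine ⟨-β, e, f, i.natAbs, t, by omega, ?_⟩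
    rw [hi, ← natCast_zsmul, Int.natCast_natAbs, abs_of_neg h1, neg_smul, smul_neg, neg_neg]
  · rw [h1, zero_smul] at hi
    exact absurd hi hμ0
  · obtain ⟨e, f, t⟩ := Spin.exists_tri hβ
    refine ⟨β, e, f, i.natAbs, t, by omega, ?_⟩
    rw [hi, ← natCast_zsmul, Int.natCast_natAbs, abs_of_pos h1]

/-- The nonzero weights have multiplicity one. -/
theorem one (h : Sp H q cl) {μ : H → k} (hμ0 : μ ≠ 0) {m n : T} (hm : m ∈ wt H T μ) (h0 : m ≠ 0)
    (hn : n ∈ wt H T μ) : ∃ c : k, n = c • m := by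
  obtain ⟨β, e, f, i, t, -, rfl⟩ := h.exists_tri ((Submodule.ne_bot_iff _).2 ⟨m, hm, h0⟩) hμ0
  exact h.one_pos t hm h0 hn

end Sp

end Pool.Agent.TH164.Spin
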