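import Mathlib

/-!
# The Lie algebra of skew matrices
-/

set_option autoImplicit false
set_option linter.unusedSectionVars false
set_option linter.unusedVariables false

open Module Matrix

namespace Pool.Agent.TH164.Spin

variable {n : ℕ}

/-- The skew matrices. -/
def So (n : ℕ) : Submodule ℂ (Matrix (Fin n) (Fin n) ℂ) where
  carrier := {M | Mᵀ = -M}
  zero_mem' := by
    change (0 : Matrix (Fin n) (Fin n) ℂ)ᵀ = -0
    rw [Matrix.transpose_zero, neg_zero]
  add_mem' := by
    intro a b ha hb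
    change (a + b)ᵀ = -(a + b)
    rw [Matrix.transpose_add, ha, hb, neg_add]
  smul_mem' := by
    intro c a ha
    change (c • a)ᵀ = -(c • a)
    rw [Matrix.transpose_smul, ha, smul_neg]

theorem mem_So {M : Matrix (Fin n) (Fin n) ℂ} : M ∈ So n ↔ Mᵀ = -M := Iff.rfl

theorem So_tr {M : Matrix (Fin n) (Fin n) ℂ} (hM : M ∈ So n) : Mᵀ = -M := hM

theorem So_ent {M : Matrix (Fin n) (Fin n) ℂ} (hM : M ∈ So n) (i j : Fin n) :
    M j i = -M i j := by
  have h1 := congrFun (congrFun (So_tr hM) i) j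
  rwa [Matrix.transpose_apply, Matrix.neg_apply] at h1

theorem So_trace {M : Matrix (Fin n) (Fin n) ℂ} (hM : M ∈ So n) : M.trace = 0 := by
  have h1 := congrArg Matrix.trace (So_tr hM)
  rw [Matrix.trace_transpose, Matrix.trace_neg] at h1
  linear_combination (1 / 2 : ℂ) * h1

theorem So_br {D M : Matrix (Fin n) (Fin n) ℂ} (hD : D ∈ So n) (hM : M ∈ So n) :
    D * M - M * D ∈ So n := by
  rw [mem_So, Matrix.transpose_sub, Matrix.transpose_mul, Matrix.transpose_mul, So_tr hD,
    So_tr hM]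
  noncomm_ring

/-- The adjoint action. -/
noncomputable def ad (D : Matrix (Fin n) (Fin n) ℂ) :
    Matrix (Fin n) (Fin n) ℂ →ₗ[ℂ] Matrix (Fin n) (Fin n) ℂ :=
  LinearMap.mulLeft ℂ D - LinearMap.mulRight ℂ D

theorem ad_apply (D M : Matrix (Fin n) (Fin n) ℂ) : ad D M = D * M - M * D := rfl

/-- The projection. -/
noncomputable def skp : Matrix (Fin n) (Fin n) ℂ →ₗ[ℂ] Matrix (Fin n) (Fin n) ℂ :=
  (1 / 2 : ℂ) • (LinearMap.id - (Matrix.transposeLinearEquiv (Fin n) (Fin n) ℂ ℂ).toLinearMap)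

theorem skp_apply (M : Matrix (Fin n) (Fin n) ℂ) : skp M = (1 / 2 : ℂ) • (M - Mᵀ) := rfl

theorem skp_mem (M : Matrix (Fin n) (Fin n) ℂ) : skp M ∈ So n := by
  rw [mem_So, skp_apply, Matrix.transpose_smul, Matrix.transpose_sub, Matrix.transpose_transpose,
    ← smul_neg, neg_sub]

theorem skp_id {M : Matrix (Fin n) (Fin n) ℂ} (hM : M ∈ So n) : skp M = M := by
  rw [skp_apply, So_tr hM, sub_neg_eq_add, ← two_smul ℂ M, smul_smul]
  norm_num

theorem trace_lin (f : Matrix (Fin n) (Fin n) ℂ →ₗ[ℂ] Matrix (Fin n) (Fin n) ℂ) :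
    LinearMap.trace ℂ _ f = ∑ i, ∑ j, f (Matrix.single i j 1) i j := by
  rw [LinearMap.trace_eq_matrix_trace ℂ (Matrix.stdBasis ℂ (Fin n) (Fin n)), Matrix.trace,
    Fintype.sum_prod_type]
  refine Finset.sum_congr rfl fun i _ => Finset.sum_congr rfl fun j _ => ?_
  rw [Matrix.diag_apply, LinearMap.toMatrix_apply, Matrix.stdBasis_eq_single]
  rfl

theorem sgl (X Y : Matrix (Fin n) (Fin n) ℂ) (a b i j : Fin n) :
    (X * Matrix.single a b (1 : ℂ) * Y) i j = X i a * Y b j := by
  rw [Matrix.mul_apply, Finset.sum_eq_single b]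
  · rw [Matrix.mul_single_apply_same, mul_one]
  · intro k _ hk
    rw [Matrix.mul_single_apply_of_ne _ _ _ _ _ hk, zero_mul]
  · intro hb
    exact absurd (Finset.mem_univ _) hb

theorem sgl1 (X : Matrix (Fin n) (Fin n) ℂ) (a b i j : Fin n) :
    (X * Matrix.single a b (1 : ℂ)) i j = X i a * (1 : Matrix (Fin n) (Fin n) ℂ) b j := by
  rw [← sgl X 1, Matrix.mul_one]

theorem sgl2 (Y : Matrix (Fin n) (Fin n) ℂ) (a b i j : Fin n) :
    (Matrix.single a b (1 : ℂ) * Y) i j = (1 : Matrix (Fin n) (Fin n) ℂ) i a * Y b j := by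
  rw [← sgl 1 Y, Matrix.one_mul]

theorem sum_sq {D : Matrix (Fin n) (Fin n) ℂ} (hD : D ∈ So n) :
    ∑ i, ∑ j, D i j * D i j = -(D * D).trace := by
  rw [Matrix.trace, ← Finset.sum_neg_distrib]
  refine Finset.sum_congr rfl fun i _ => ?_
  rw [Matrix.diag_apply, Matrix.mul_apply, ← Finset.sum_neg_distrib]
  refine Finset.sum_congr rfl fun j _ => ?_
  rw [So_ent hD i j]
  ring

/-- The dimension. -/
theorem finrank_So : ((finrank ℂ (So n) : ℕ) : ℂ) = ((n : ℂ) * n - n) / 2 := by
  have h1 : ∀ x, skp (n := n) x ∈ So n := skp_mem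
  have h2 := LinearMap.trace_restrict_eq_of_forall_mem (So n) skp h1
  have h3 : (skp (n := n)).restrict (fun x _ => h1 x) = (LinearMap.id : So n →ₗ[ℂ] So n) := by
    ext x : 1
    exact Subtype.ext (skp_id x.2)
  rw [h3] at h2
  rw [LinearMap.trace_id, trace_lin] at h2
  rw [h2]
  have h4 : ∀ i j : Fin n, skp (Matrix.single i j (1 : ℂ)) i j =
      (1 / 2 : ℂ) * (1 - (1 : Matrix (Fin n) (Fin n) ℂ) i j) := by
    intro i j
    rw [skp_apply, Matrix.smul_apply, Matrix.sub_apply, Matrix.transpose_apply, smul_eq_mul,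
      Matrix.single_apply_same]
    congr 2
    by_cases hij : i = j
    · rw [hij, Matrix.single_apply_same, Matrix.one_apply_eq]
    · rw [Matrix.one_apply_ne hij, Matrix.single_apply_of_ne]
      tauto
  simp only [h4, ← Finset.mul_sum, Finset.sum_sub_distrib]
  simp only [Matrix.one_apply, Finset.sum_ite_eq, Finset.mem_univ, if_true, Finset.sum_const,
    Finset.card_univ, Fintype.card_fin, nsmul_eq_mul, mul_one]
  ring

/-- The Killing form. -/
theorem killing {D : Matrix (Fin n) (Fin n) ℂ} (hD : D ∈ So n)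
    (h : ∀ x ∈ So n, (ad D ∘ₗ ad D) x ∈ So n) :
    LinearMap.trace ℂ (So n) ((ad D ∘ₗ ad D).restrict h) = ((n : ℂ) - 2) * (D * D).trace := by
  have h0 : ∀ x, ((ad D ∘ₗ ad D) ∘ₗ skp) x ∈ So n := fun x => h _ (skp_mem x)
  have h2 := LinearMap.trace_restrict_eq_of_forall_mem (So n) ((ad D ∘ₗ ad D) ∘ₗ skp) h0
  have h3 : ((ad D ∘ₗ ad D) ∘ₗ skp).restrict (fun x _ => h0 x) = (ad D ∘ₗ ad D).restrict h := by
    ext x : 1
    refine Subtype.ext ?_
    change (ad D ∘ₗ ad D) (skp (x : Matrix (Fin n) (Fin n) ℂ)) = (ad D ∘ₗ ad D) x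
    rw [skp_id x.2]
  rw [← h3, h2, trace_lin]
  have h5 : ∀ M : Matrix (Fin n) (Fin n) ℂ, (ad D ∘ₗ ad D) M =
      D * D * M - (2 : ℂ) • (D * M * D) + M * (D * D) := by
    intro M
    change D * (D * M - M * D) - (D * M - M * D) * D = _
    rw [two_smul]
    noncomm_ring
  have h4 : ∀ i j : Fin n, ((ad D ∘ₗ ad D) ∘ₗ skp) (Matrix.single i j (1 : ℂ)) i j =
      (1 / 2 : ℂ) * ((D * D) i i - 2 * (D i i * D j j) + (D * D) j j +
        2 * (D i j * D i j)) - (D * D) i j * (1 : Matrix (Fin n) (Fin n) ℂ) i j := by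
    intro i j
    rw [LinearMap.comp_apply, skp_apply, map_smul, map_sub, Matrix.transpose_single, h5, h5,
      Matrix.smul_apply, Matrix.sub_apply, Matrix.add_apply, Matrix.add_apply, Matrix.sub_apply,
      Matrix.sub_apply, Matrix.smul_apply, Matrix.smul_apply, sgl, sgl, sgl1, sgl1, sgl2, sgl2,
      smul_eq_mul, smul_eq_mul, smul_eq_mul, Matrix.one_apply_eq, Matrix.one_apply_eq]
    ring
  simp only [h4]
  have e1 : ∀ f : Fin n → ℂ, ∑ i, ∑ j, f i * (1 : Matrix (Fin n) (Fin n) ℂ) i j = ∑ i, f i := by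
    intro f
    refine Finset.sum_congr rfl fun i _ => ?_
    rw [Finset.sum_eq_single i]
    · rw [Matrix.one_apply_eq, mul_one]
    · intro j _ hj
      rw [Matrix.one_apply_ne hj.symm, mul_zero]
    · intro hi
      exact absurd (Finset.mem_univ _) hi
  have e2 : ∑ i, ∑ j, (D * D) i j * (1 : Matrix (Fin n) (Fin n) ℂ) i j = (D * D).trace := by
    rw [Matrix.trace]
    refine Finset.sum_congr rfl fun i _ => ?_
    rw [Finset.sum_eq_single i]
    · rw [Matrix.one_apply_eq, mul_one, Matrix.diag_apply]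
    · intro j _ hj
      rw [Matrix.one_apply_ne hj.symm, mul_zero]
    · intro hi
      exact absurd (Finset.mem_univ _) hi
  have e3 : ∀ i, D i i = 0 := by
    intro i
    have := So_ent hD i i
    linear_combination (1 / 2 : ℂ) * this
  have e4 := sum_sq hD
  simp only [Finset.sum_sub_distrib, e2, ← Finset.mul_sum, Finset.sum_add_distrib, e3, zero_mul,
    Finset.sum_const_zero, mul_zero, e4, Finset.sum_const, Finset.card_univ, Fintype.card_fin,
    nsmul_eq_mul]
  have e5 : ∑ i, (D * D) i i = (D * D).trace := rfl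
  rw [e5]
  ring

/-- **Contraction.** -/
theorem contract {E : Matrix (Fin n) (Fin n) ℂ} (hE : E ∈ So n) {c : ℂ}
    (h : ∀ M ∈ So n, ad E (ad E (ad E M)) = -c • ad E M) :
    ((n : ℂ) - 8) • (E * E * E) = -(c * (n - 2) + 3 * (E * E).trace) • E := by
  have hT : ∀ M ∈ So n, E * E * E * M - (3 : ℂ) • (E * E * M * E) + (3 : ℂ) • (E * M * (E * E)) -
      M * (E * E * E) + c • (E * M - M * E) = 0 := by
    intro M hM
    have h1 := h M hM
    rw [ad_apply, ad_apply, ad_apply] at h1
    have h2 : E * (E * (E * M - M * E) - (E * M - M * E) * E) -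
        (E * (E * M - M * E) - (E * M - M * E) * E) * E =
        E * E * E * M - (3 : ℂ) • (E * E * M * E) + (3 : ℂ) • (E * M * (E * E)) -
          M * (E * E * E) := by
      have h3 : (3 : ℂ) = 1 + 1 + 1 := by norm_num
      rw [h3]
      simp only [add_smul, one_smul]
      noncomm_ring
    rw [← h2, h1, neg_smul, neg_add_cancel]
  have hE3 : E * E * E ∈ So n := by
    rw [mem_So, Matrix.transpose_mul, Matrix.transpose_mul, So_tr hE]
    noncomm_ring
  have hE2 : (E * E)ᵀ = E * E := by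
    rw [Matrix.transpose_mul, So_tr hE]
    noncomm_ring
  have hR : ∀ a b : Fin n, Matrix.single a b (1 : ℂ) - Matrix.single b a 1 ∈ So n := by
    intro a b
    rw [mem_So, Matrix.transpose_sub, Matrix.transpose_single, Matrix.transpose_single, neg_sub]
  have hent : ∀ i a b : Fin n, (E * E * E) i a * 1 - (E * E * E) i b *
      (1 : Matrix (Fin n) (Fin n) ℂ) a b -
      3 * ((E * E) i a * E b b - (E * E) i b * E a b) + 3 * (E i a * (E * E) b b -
        E i b * (E * E) a b) - ((1 : Matrix (Fin n) (Fin n) ℂ) i a * (E * E * E) b b -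
        (1 : Matrix (Fin n) (Fin n) ℂ) i b * (E * E * E) a b) +
      c * ((E i a * 1 - E i b * (1 : Matrix (Fin n) (Fin n) ℂ) a b) -
        ((1 : Matrix (Fin n) (Fin n) ℂ) i a * E b b -
        (1 : Matrix (Fin n) (Fin n) ℂ) i b * E a b)) = 0 := by
    intro i a b
    have h1 := congrFun (congrFun (hT _ (hR a b)) i) b
    simp only [Matrix.mul_sub, Matrix.sub_mul, Matrix.add_apply, Matrix.sub_apply,
      Matrix.smul_apply, smul_eq_mul, sgl, sgl1, sgl2, Matrix.zero_apply,
      Matrix.one_apply_eq] at h1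
    linear_combination h1
  have e0 : ∀ (f : Fin n → ℂ) (a : Fin n),
      ∑ b, f b * (1 : Matrix (Fin n) (Fin n) ℂ) a b = f a := by
    intro f a
    rw [Finset.sum_eq_single a]
    · rw [Matrix.one_apply_eq, mul_one]
    · intro j _ hj
      rw [Matrix.one_apply_ne hj.symm, mul_zero]
    · intro hi
      exact absurd (Finset.mem_univ _) hi
  have e0' : ∀ (f : Fin n → ℂ) (a : Fin n),
      ∑ b, (1 : Matrix (Fin n) (Fin n) ℂ) a b * f b = f a := by
    intro f a
    rw [← e0 f a]
    exact Finset.sum_congr rfl fun b _ => mul_comm _ _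
  have t1 : ∑ b, E b b = 0 := So_trace hE
  have t2 : ∑ b, (E * E) b b = (E * E).trace := rfl
  have t3 : ∑ b, (E * E * E) b b = 0 := So_trace hE3
  have m1 : ∀ i a, ∑ b, (E * E) i b * E a b = -(E * E * E) i a := by
    intro i a
    have h1 : E * E * Eᵀ = -(E * E * E) := by rw [So_tr hE, Matrix.mul_neg]
    have h2 := congrFun (congrFun h1 i) a
    rw [Matrix.mul_apply, Matrix.neg_apply] at h2
    exact h2
  have m2 : ∀ i a, ∑ b, E i b * (E * E) a b = (E * E * E) i a := by
    intro i a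
    have h1 : E * (E * E)ᵀ = E * E * E := by rw [hE2, ← Matrix.mul_assoc]
    have h2 := congrFun (congrFun h1 i) a
    rw [Matrix.mul_apply] at h2
    exact h2
  ext i a
  have h1 : ∑ b, ((E * E * E) i a * 1 - (E * E * E) i b *
      (1 : Matrix (Fin n) (Fin n) ℂ) a b -
      3 * ((E * E) i a * E b b - (E * E) i b * E a b) + 3 * (E i a * (E * E) b b -
        E i b * (E * E) a b) - ((1 : Matrix (Fin n) (Fin n) ℂ) i a * (E * E * E) b b -
        (1 : Matrix (Fin n) (Fin n) ℂ) i b * (E * E * E) a b) +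
      c * ((E i a * 1 - E i b * (1 : Matrix (Fin n) (Fin n) ℂ) a b) -
        ((1 : Matrix (Fin n) (Fin n) ℂ) i a * E b b -
        (1 : Matrix (Fin n) (Fin n) ℂ) i b * E a b))) = 0 :=
    Finset.sum_eq_zero fun b _ => hent i a b
  simp only [Finset.sum_add_distrib, Finset.sum_sub_distrib, ← Finset.mul_sum] at h1
  rw [e0 (fun b => (E * E * E) i b), e0 (fun b => E i b), e0' (fun b => (E * E * E) a b),
    e0' (fun b => E a b), t1, t2, t3, m1, m2, Finset.sum_const, Finset.card_univ,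
    Fintype.card_fin, nsmul_eq_mul, So_ent hE3 i a, So_ent hE i a] at h1
  rw [Matrix.smul_apply, Matrix.smul_apply, smul_eq_mul, smul_eq_mul]
  linear_combination h1

end Pool.Agent.TH164.Spin
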