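import Pool.Agent.TH164.Spin.Pr1

/-!
# Skew matrices: elements of rank two, and simplicity
-/

set_option autoImplicit false
set_option linter.unusedSectionVars false
set_option linter.unusedVariables false

open Module Matrix

namespace Pool.Agent.TH164.Spin

variable {n : ℕ}

/-- Elements of rank two. -/
def r2 (u v : Fin n → ℂ) : Matrix (Fin n) (Fin n) ℂ := vecMulVec u v - vecMulVec v u

theorem r2_mem (u v : Fin n → ℂ) : r2 u v ∈ So n := by
  rw [mem_So, r2, Matrix.transpose_sub, Matrix.transpose_vecMulVec, Matrix.transpose_vecMulVec,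
    neg_sub]

theorem vmv (u v w x : Fin n → ℂ) (M : Matrix (Fin n) (Fin n) ℂ) :
    vecMulVec u v * M * vecMulVec w x = (v ⬝ᵥ (M *ᵥ w)) • vecMulVec u x := by
  rw [Matrix.mul_assoc, Matrix.mul_vecMulVec, Matrix.vecMulVec_mul_vecMulVec, vecMulVec_smul]

theorem skew_dot {M : Matrix (Fin n) (Fin n) ℂ} (hM : M ∈ So n) (u v : Fin n → ℂ) :
    u ⬝ᵥ (M *ᵥ v) = -(v ⬝ᵥ (M *ᵥ u)) := by
  rw [Matrix.dotProduct_mulVec, ← Matrix.mulVec_transpose, So_tr hM, Matrix.neg_mulVec,
    neg_dotProduct, dotProduct_comm]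

theorem skew_dot_self {M : Matrix (Fin n) (Fin n) ℂ} (hM : M ∈ So n) (u : Fin n → ℂ) :
    u ⬝ᵥ (M *ᵥ u) = 0 := by
  have := skew_dot hM u u
  linear_combination (1 / 2 : ℂ) * this

theorem r2_mid {M : Matrix (Fin n) (Fin n) ℂ} (hM : M ∈ So n) (u v : Fin n → ℂ) :
    r2 u v * M * r2 u v = (v ⬝ᵥ (M *ᵥ u)) • r2 u v := by
  have h1 : r2 u v * M * r2 u v = vecMulVec u v * M * vecMulVec u v -
      vecMulVec u v * M * vecMulVec v u - (vecMulVec v u * M * vecMulVec u v -
      vecMulVec v u * M * vecMulVec v u) := by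
    rw [r2]
    noncomm_ring
  rw [h1, vmv, vmv, vmv, vmv, skew_dot_self hM, skew_dot_self hM, skew_dot hM u v, r2]
  module

theorem r2_cube (u v : Fin n → ℂ) : r2 u v * r2 u v * r2 u v =
    -((u ⬝ᵥ u) * (v ⬝ᵥ v) - (u ⬝ᵥ v) * (u ⬝ᵥ v)) • r2 u v := by
  rw [r2_mid (r2_mem u v)]
  congr 1
  rw [r2, Matrix.sub_mulVec, Matrix.vecMulVec_mulVec, Matrix.vecMulVec_mulVec]
  rw [dotProduct_sub]
  simp only [dotProduct_smul, MulOpposite.smul_eq_mul_unop, MulOpposite.unop_op]
  rw [dotProduct_comm v u]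
  ring

theorem r2_trace (u v : Fin n → ℂ) : (r2 u v * r2 u v).trace =
    -2 * ((u ⬝ᵥ u) * (v ⬝ᵥ v) - (u ⬝ᵥ v) * (u ⬝ᵥ v)) := by
  have h1 : r2 u v * r2 u v = vecMulVec u v * 1 * vecMulVec u v -
      vecMulVec u v * 1 * vecMulVec v u - (vecMulVec v u * 1 * vecMulVec u v -
      vecMulVec v u * 1 * vecMulVec v u) := by
    rw [r2]
    noncomm_ring
  rw [h1, vmv, vmv, vmv, vmv]
  simp only [Matrix.trace_sub, Matrix.trace_smul, Matrix.trace_vecMulVec, Matrix.one_mulVec,
    smul_eq_mul]
  rw [dotProduct_comm v u]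
  ring

theorem r2_ad {M : Matrix (Fin n) (Fin n) ℂ} (hM : M ∈ So n) (u v : Fin n → ℂ) :
    ad (r2 u v) (ad (r2 u v) (ad (r2 u v) M)) =
      -((u ⬝ᵥ u) * (v ⬝ᵥ v) - (u ⬝ᵥ v) * (u ⬝ᵥ v)) • ad (r2 u v) M := by
  have h1 := r2_mid hM u v
  have h2 := r2_cube u v
  set D := r2 u v with hD
  set c := (u ⬝ᵥ u) * (v ⬝ᵥ v) - (u ⬝ᵥ v) * (u ⬝ᵥ v) with hc
  rw [ad_apply, ad_apply, ad_apply]
  have h3 : D * (D * (D * M - M * D) - (D * M - M * D) * D) -
      (D * (D * M - M * D) - (D * M - M * D) * D) * D =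
      D * D * D * M - D * (D * M * D) - D * (D * M * D) - D * (D * M * D) +
        (D * M * D) * D + (D * M * D) * D + (D * M * D) * D - M * (D * D * D) := by
    noncomm_ring
  rw [h3, h1, h2, Matrix.smul_mul, Matrix.mul_smul, Matrix.smul_mul, Matrix.mul_smul]
  module

theorem sg_ne {a b i j : Fin n} (h : ¬(a = i ∧ b = j)) :
    (Matrix.single a b (1 : ℂ) : Matrix (Fin n) (Fin n) ℂ) i j = 0 := by
  rw [Matrix.single_apply, if_neg h]

theorem sg_eq (a b : Fin n) :
    (Matrix.single a b (1 : ℂ) : Matrix (Fin n) (Fin n) ℂ) a b = 1 := by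
  rw [Matrix.single_apply, if_pos ⟨rfl, rfl⟩]

/-- The elementary skew matrices. -/
def Rr (a b : Fin n) : Matrix (Fin n) (Fin n) ℂ := Matrix.single a b 1 - Matrix.single b a 1

theorem Rr_mem (a b : Fin n) : Rr a b ∈ So n := by
  rw [mem_So, Rr, Matrix.transpose_sub, Matrix.transpose_single, Matrix.transpose_single, neg_sub]

theorem Rr_neg (a b : Fin n) : Rr b a = -Rr a b := by
  rw [Rr, Rr, neg_sub]

theorem Rr_br {a b c : Fin n} (hab : a ≠ b) (hbc : b ≠ c) (hac : a ≠ c) :
    Rr a b * Rr b c - Rr b c * Rr a b = Rr a c := by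
  simp only [Rr, Matrix.mul_sub, Matrix.sub_mul]
  rw [Matrix.single_mul_single_same, Matrix.single_mul_single_of_ne (h := hbc),
    Matrix.single_mul_single_of_ne (h := hab), Matrix.single_mul_single_of_ne (h := hac),
    Matrix.single_mul_single_of_ne (h := hac.symm), Matrix.single_mul_single_of_ne (h := hbc.symm),
    Matrix.single_mul_single_same, Matrix.single_mul_single_of_ne (h := hab.symm)]
  simp

theorem Rr_ad2 {a b : Fin n} (hab : a ≠ b) {M : Matrix (Fin n) (Fin n) ℂ} (hM : M ∈ So n)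
    (i j : Fin n) : ad (Rr a b) (ad (Rr a b) M) i j =
      if ((i = a ∨ i = b) ↔ (j = a ∨ j = b)) then 0 else -M i j := by
  have hz : ∀ k, M k k = 0 := by
    intro k
    have := So_ent hM k k
    linear_combination (1 / 2 : ℂ) * this
  have e1 : Rr a b * Rr a b = -(Matrix.single a a 1 + Matrix.single b b (1 : ℂ)) := by
    simp only [Rr, Matrix.mul_sub, Matrix.sub_mul]
    rw [Matrix.single_mul_single_same, Matrix.single_mul_single_of_ne (h := hab.symm),
      Matrix.single_mul_single_of_ne (h := hab), Matrix.single_mul_single_same]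
    rw [one_mul]
    abel
  have e2 : ad (Rr a b) (ad (Rr a b) M) = Rr a b * Rr a b * M - Rr a b * M * Rr a b -
      Rr a b * M * Rr a b + M * (Rr a b * Rr a b) := by
    rw [ad_apply, ad_apply]
    noncomm_ring
  have e3 : ∀ (p q r s : Fin n), (Matrix.single p q (1 : ℂ) * M * Matrix.single r s (1 : ℂ)) i j =
      (1 : Matrix (Fin n) (Fin n) ℂ) i p * M q r * (1 : Matrix (Fin n) (Fin n) ℂ) s j := by
    intro p q r s
    rw [sgl1, sgl2]
  have e4 : (Rr a b * M * Rr a b) i j =
      (1 : Matrix (Fin n) (Fin n) ℂ) i a * M b a * (1 : Matrix (Fin n) (Fin n) ℂ) b j -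
      (1 : Matrix (Fin n) (Fin n) ℂ) i a * M b b * (1 : Matrix (Fin n) (Fin n) ℂ) a j -
      ((1 : Matrix (Fin n) (Fin n) ℂ) i b * M a a * (1 : Matrix (Fin n) (Fin n) ℂ) b j -
      (1 : Matrix (Fin n) (Fin n) ℂ) i b * M a b * (1 : Matrix (Fin n) (Fin n) ℂ) a j) := by
    have e5 : Rr a b * M * Rr a b = Matrix.single a b (1 : ℂ) * M * Matrix.single a b (1 : ℂ) -
        Matrix.single a b (1 : ℂ) * M * Matrix.single b a (1 : ℂ) -
        (Matrix.single b a (1 : ℂ) * M * Matrix.single a b (1 : ℂ) -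
        Matrix.single b a (1 : ℂ) * M * Matrix.single b a (1 : ℂ)) := by
      rw [Rr, Matrix.sub_mul, Matrix.mul_sub, Matrix.sub_mul, Matrix.sub_mul]
      abel
    rw [e5, Matrix.sub_apply, Matrix.sub_apply, Matrix.sub_apply, e3, e3, e3, e3]
  rw [e2, e1]
  simp only [Matrix.add_apply, Matrix.sub_apply, Matrix.neg_mul, Matrix.mul_neg, Matrix.add_mul,
    Matrix.mul_add, Matrix.neg_apply, sgl1, sgl2, e4, hz, So_ent hM a b]
  by_cases hia : i = a
  · by_cases hja : j = a
    · subst hia
      subst hja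
      simp [hab, hab.symm, hz]
    · by_cases hjb : j = b
      · subst hia
        subst hjb
        simp [hab, hab.symm]
      · subst hia
        simp [hab, hab.symm, hja, hjb, Ne.symm hja, Ne.symm hjb, Matrix.one_apply]
  · by_cases hib : i = b
    · by_cases hja : j = a
      · subst hib
        subst hja
        simp [hab, hab.symm, So_ent hM j i]
      · by_cases hjb : j = b
        · subst hib
          subst hjb
          simp [hab, hab.symm, hz]
        · subst hib
          simp [hab, hab.symm, hja, hjb, Ne.symm hja, Ne.symm hjb, Matrix.one_apply]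
    · by_cases hja : j = a
      · subst hja
        simp [hab, hab.symm, hia, hib, Matrix.one_apply]
      · by_cases hjb : j = b
        · subst hjb
          simp [hab, hab.symm, hia, hib, Matrix.one_apply]
        · simp [hia, hib, hja, hjb, Ne.symm hja, Ne.symm hjb, Matrix.one_apply]

theorem isolate {U : Submodule ℂ (Matrix (Fin n) (Fin n) ℂ)} (hU : U ≤ So n)
    (hi : ∀ D ∈ So n, ∀ M ∈ U, D * M - M * D ∈ U) {M : Matrix (Fin n) (Fin n) ℂ} (hM : M ∈ U)
    {x y : Fin n} (hxy : x ≠ y) (Z : Finset (Fin n)) (hZ : ∀ z ∈ Z, z ≠ x ∧ z ≠ y) :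
    ∃ M' ∈ U, ∀ i j, M' i j = if (∀ z ∈ Z, ¬((i = x ∨ i = z) ↔ (j = x ∨ j = z)) ∧
      ¬((i = y ∨ i = z) ↔ (j = y ∨ j = z))) then M i j else 0 := by
  induction Z using Finset.induction_on with
  | empty => exact ⟨M, hM, fun i j => by simp⟩
  | insert z Z hz ih =>
    obtain ⟨M', hM', h1⟩ := ih fun w hw => hZ w (Finset.mem_insert_of_mem hw)
    have hzx := (hZ z (Finset.mem_insert_self z Z)).1
    have hzy := (hZ z (Finset.mem_insert_self z Z)).2
    have hA : ∀ a b : Fin n, ∀ W ∈ U, ad (Rr a b) (ad (Rr a b) W) ∈ U := fun a b W hW =>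
      hi _ (Rr_mem a b) _ (hi _ (Rr_mem a b) _ hW)
    refine ⟨ad (Rr y z) (ad (Rr y z) (ad (Rr x z) (ad (Rr x z) M'))),
      hA y z _ (hA x z _ hM'), fun i j => ?_⟩
    rw [Rr_ad2 hzy.symm (hU (hA x z _ hM')), Rr_ad2 hzx.symm (hU hM'), h1]
    by_cases c1 : ((i = y ∨ i = z) ↔ (j = y ∨ j = z))
    · rw [if_pos c1, if_neg]
      intro hc
      exact (hc z (Finset.mem_insert_self z Z)).2 c1
    · rw [if_neg c1]
      by_cases c2 : ((i = x ∨ i = z) ↔ (j = x ∨ j = z))
      · rw [if_pos c2, if_neg, neg_zero]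
        intro hc
        exact (hc z (Finset.mem_insert_self z Z)).1 c2
      · rw [if_neg c2, neg_neg]
        by_cases c3 : ∀ z ∈ Z, ¬((i = x ∨ i = z) ↔ (j = x ∨ j = z)) ∧
            ¬((i = y ∨ i = z) ↔ (j = y ∨ j = z))
        · rw [if_pos c3, if_pos]
          intro w hw
          rcases Finset.mem_insert.1 hw with rfl | hw
          · exact ⟨c2, c1⟩
          · exact c3 w hw
        · rw [if_neg c3, if_neg]
          intro hc
          exact c3 fun w hw => hc w (Finset.mem_insert_of_mem hw)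

theorem So_sum {M : Matrix (Fin n) (Fin n) ℂ} (hM : M ∈ So n) :
    M = ∑ i, ∑ j, (M i j / 2) • Rr i j := by
  have h1 : ∑ i, ∑ j, (M i j / 2) • Rr i j = (1 / 2 : ℂ) • (M - Mᵀ) := by
    conv_rhs => rw [Matrix.matrix_eq_sum_single M]
    rw [Matrix.transpose_sum]
    simp only [Matrix.transpose_sum, Matrix.transpose_single]
    rw [← Finset.sum_sub_distrib, Finset.smul_sum]
    refine Finset.sum_congr rfl fun i _ => ?_
    rw [← Finset.sum_sub_distrib, Finset.smul_sum]
    refine Finset.sum_congr rfl fun j _ => ?_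
    rw [Rr, smul_sub, smul_sub, Matrix.smul_single, Matrix.smul_single, Matrix.smul_single,
      Matrix.smul_single]
    congr 2
    · rw [smul_eq_mul, smul_eq_mul]
      ring
    · rw [smul_eq_mul, smul_eq_mul]
      ring
  rw [h1, So_tr hM, sub_neg_eq_add, ← two_smul ℂ M, smul_smul]
  norm_num

/-- **Simplicity.** -/
theorem so_simple (h3 : 3 ≤ n) (h4 : n ≠ 4) {U : Submodule ℂ (Matrix (Fin n) (Fin n) ℂ)}
    (hU : U ≤ So n) (hi : ∀ D ∈ So n, ∀ M ∈ U, D * M - M * D ∈ U) {M : Matrix (Fin n) (Fin n) ℂ}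
    (hM : M ∈ U) (hM0 : M ≠ 0) : So n ≤ U := by
  obtain ⟨x, y, hxy0⟩ : ∃ x y, M x y ≠ 0 := by
    by_contra hcon
    push Not at hcon
    exact hM0 (Matrix.ext hcon)
  have hxy : x ≠ y := by
    rintro rfl
    apply hxy0
    have := So_ent (hU hM) x x
    linear_combination (1 / 2 : ℂ) * this
  obtain ⟨M', hM', h1⟩ := isolate hU hi hM hxy (Finset.univ.filter fun z => z ≠ x ∧ z ≠ y)
    (fun z hz => (Finset.mem_filter.1 hz).2)
  have hc : (Finset.univ.filter fun z : Fin n => z ≠ x ∧ z ≠ y).card = n - 2 := by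
    have h2 : (Finset.univ.filter fun z : Fin n => z ≠ x ∧ z ≠ y) =
        (Finset.univ.erase x).erase y := by
      ext z
      simp [and_comm]
    rw [h2, Finset.card_erase_of_mem (Finset.mem_erase.2 ⟨hxy.symm, Finset.mem_univ _⟩),
      Finset.card_erase_of_mem (Finset.mem_univ _), Finset.card_univ, Fintype.card_fin]
    omega
  have hmem : ∀ z : Fin n, z ≠ x → z ≠ y →
      z ∈ (Finset.univ.filter fun z : Fin n => z ≠ x ∧ z ≠ y) := fun z h2 h5 =>
    Finset.mem_filter.2 ⟨Finset.mem_univ _, h2, h5⟩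
  have hone : ∀ i j, (∀ z ∈ (Finset.univ.filter fun z : Fin n => z ≠ x ∧ z ≠ y),
      ¬((i = x ∨ i = z) ↔ (j = x ∨ j = z)) ∧ ¬((i = y ∨ i = z) ↔ (j = y ∨ j = z))) →
      (i = x ∧ j = y) ∨ (i = y ∧ j = x) := by
    intro i j hz
    have hij : i ≠ j := by
      rintro rfl
      have h2 : 0 < (Finset.univ.filter fun z : Fin n => z ≠ x ∧ z ≠ y).card := by
        rw [hc]
        omega
      obtain ⟨z, hz'⟩ := Finset.card_pos.1 h2
      exact (hz z hz').1 Iff.rfl
    by_cases hix : i = x
    · by_cases hjy : j = y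
      · exact Or.inl ⟨hix, hjy⟩
      · have h2 := (hz j (hmem j (fun h => hij (hix.trans h.symm)) hjy)).1
        exact absurd (iff_of_true (Or.inl hix) (Or.inr rfl)) h2
    · by_cases hiy : i = y
      · by_cases hjx : j = x
        · exact Or.inr ⟨hiy, hjx⟩
        · have h2 := (hz j (hmem j hjx (fun h => hij (hiy.trans h.symm)))).2
          exact absurd (iff_of_true (Or.inl hiy) (Or.inr rfl)) h2
      · exfalso
        have h2 := hz i (hmem i hix hiy)
        have hjx : j ≠ x := fun h => h2.1 (iff_of_true (Or.inr rfl) (Or.inl h))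
        have hjy : j ≠ y := fun h => h2.2 (iff_of_true (Or.inr rfl) (Or.inl h))
        have h5 : (Finset.univ.filter fun z : Fin n => z ≠ x ∧ z ≠ y) = {i, j} := by
          ext z
          rw [Finset.mem_insert, Finset.mem_singleton]
          constructor
          · intro h6
            by_contra hcon
            push Not at hcon
            exact (hz z h6).1 (iff_of_false (by
              rintro (h7 | h7)
              · exact hix h7
              · exact hcon.1 h7.symm) (by
              rintro (h7 | h7)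
              · exact hjx h7
              · exact hcon.2 h7.symm))
          · rintro (rfl | rfl)
            · exact hmem _ hix hiy
            · exact hmem _ hjx hjy
        rw [h5, Finset.card_pair hij] at hc
        omega
  have hR : M' = M x y • Rr x y := by
    ext i j
    rw [h1, Matrix.smul_apply, Rr, Matrix.sub_apply, smul_eq_mul]
    by_cases hxx : i = x ∧ j = y
    · obtain ⟨rfl, rfl⟩ := hxx
      rw [sg_eq, sg_ne (by tauto), sub_zero, mul_one, if_pos]
      intro z hz
      obtain ⟨-, h5, h6⟩ := Finset.mem_filter.1 hz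
      constructor
      · intro h7
        rcases h7.1 (Or.inl rfl) with h8 | h8
        · exact hxy h8.symm
        · exact h6 h8.symm
      · intro h7
        rcases h7.2 (Or.inl rfl) with h8 | h8
        · exact hxy h8
        · exact h5 h8.symm
    · by_cases hyy : i = y ∧ j = x
      · obtain ⟨rfl, rfl⟩ := hyy
        rw [sg_eq, sg_ne (by tauto), zero_sub, if_pos, So_ent (hU hM) j i]
        · ring
        intro z hz
        obtain ⟨-, h5, h6⟩ := Finset.mem_filter.1 hz
        constructor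
        · intro h7
          rcases h7.2 (Or.inl rfl) with h8 | h8
          · exact hxy h8.symm
          · exact h6 h8.symm
        · intro h7
          rcases h7.1 (Or.inl rfl) with h8 | h8
          · exact hxy h8
          · exact h5 h8.symm
      · rw [if_neg, sg_ne (by tauto), sg_ne (by tauto), sub_zero, mul_zero]
        intro h5
        rcases hone i j h5 with h6 | h6
        · exact hxx h6
        · exact hyy h6
  have hRxy : Rr x y ∈ U := by
    rw [hR] at hM'
    have := U.smul_mem (M x y)⁻¹ hM'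
    rwa [smul_smul, inv_mul_cancel₀ hxy0, one_smul] at this
  have hsym : ∀ a b : Fin n, Rr a b ∈ U → Rr b a ∈ U := by
    intro a b h5
    rw [Rr_neg a b]
    exact U.neg_mem h5
  have hsp : ∀ a b c : Fin n, a ≠ b → b ≠ c → a ≠ c → Rr a b ∈ U → Rr a c ∈ U := by
    intro a b c hab hbc hac h5
    rw [← Rr_br hab hbc hac, ← neg_sub]
    exact U.neg_mem (hi _ (Rr_mem b c) _ h5)
  have hall : ∀ i j : Fin n, i ≠ j → Rr i j ∈ U := by
    intro i j hij
    by_cases hix : i = x
    · by_cases hjy : j = y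
      · rw [hix, hjy]
        exact hRxy
      · rw [hix] at hij ⊢
        exact hsp x y j hxy (Ne.symm hjy) hij hRxy
    · have hxi : Rr x i ∈ U := by
        by_cases hiy : i = y
        · rw [hiy]
          exact hRxy
        · exact hsp x y i hxy (Ne.symm hiy) (Ne.symm hix) hRxy
      by_cases hjx : j = x
      · rw [hjx]
        exact hsym _ _ hxi
      · exact hsp i x j hix (Ne.symm hjx) hij (hsym _ _ hxi)
  intro W hW
  rw [So_sum hW]
  refine Submodule.sum_mem _ fun i _ => Submodule.sum_mem _ fun j _ => Submodule.smul_mem _ _ ?_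
  by_cases hij : i = j
  · rw [hij, Rr, sub_self]
    exact U.zero_mem
  · exact hall i j hij

end Pool.Agent.TH164.Spin
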