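import Pool.Agent.TH164.Spin.Rm6

/-!
# Several commuting parts: generation and algebraicity of the group
-/

set_option autoImplicit false
set_option linter.unusedSectionVars false
set_option linter.unusedVariables false

open Module Matrix

namespace Pool.Agent.TH164.Spin

open Pool.Agent.TH119.MX Pool.Agent.TH119.DR Pool.Agent.TH164.A1

variable {N : Type} [Fintype N] [DecidableEq N] [Nonempty N] {n r : ℕ}
variable {Γ : Fin n → Matrix N N ℂ} {κ : Fin n → Fin r} {H : Set (Matrix N N ℂ)}

theorem InK.mul {g g' k k' : Matrix N N ℂ} (h : InK Γ κ g g') (h' : InK Γ κ k k') :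
    InK Γ κ (g * k) (k' * g') := by
  refine ⟨?_, ?_, fun c => (h.2.2 c).mul (h'.2.2 c)⟩
  · calc g * k * (k' * g') = g * (k * k') * g' := by simp only [Matrix.mul_assoc]
      _ = 1 := by rw [h'.1, Matrix.mul_one, h.1]
  · calc k' * g' * (g * k) = k' * (g' * g) * k := by simp only [Matrix.mul_assoc]
      _ = 1 := by rw [h.2.1, Matrix.mul_one, h'.2.1]

theorem InK.symm {g g' : Matrix N N ℂ} (h : InK Γ κ g g') : InK Γ κ g' g :=
  ⟨h.2.1, h.1, fun c => (h.2.2 c).symm⟩

theorem Tk_mul_mem {c : Fin r} {t s : Matrix N N ℂ} (ht : t ∈ Tk Γ κ c) (hs : s ∈ Tk Γ κ c) :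
    t * s ∈ Ek Γ κ := Ev_le_Ek c (Ts_mul_mem_Ev ht hs)

namespace Cl

/-- **Generation.** -/
theorem pres_allK (h : Cl Γ) (hLa : ∀ d, ∀ X ∈ LD Γ κ Finset.univ, Stab H d X)
    (hone : ∀ d, Stab H d (1 : Matrix N N ℂ)) : ∀ m ≤ n, ∀ g g' : Matrix N N ℂ, InK Γ κ g g' →
      g ∈ Ek Γ κ → (∀ i : Fin n, (i : ℕ) + m < n → g * Γ i = Γ i * g) → Pres H g := by
  intro m
  induction m with
  | zero =>
    intro _ g g' hg hgE hc
    obtain ⟨c, rfl⟩ := h.scalar_of_commute fun i => hc i i.2
    exact pres_scalar hone c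
  | succ m ih =>
    intro hmn g g' hg hgE hc
    have hk : n - (m + 1) < n := by omega
    set k : Fin n := ⟨n - (m + 1), hk⟩ with hkdef
    have hkv : (k : ℕ) = n - (m + 1) := rfl
    have hgr : g * g' = 1 := hg.1
    have hgl : g' * g = 1 := hg.2.1
    have hcl : ∀ i : Fin n, i < k → g * Γ i = Γ i * g := fun i hi => hc i (by
      have : (i : ℕ) < n - (m + 1) := hi
      omega)
    set v := g * Γ k * g' with hv
    have hkT : Γ k ∈ Tk Γ κ (κ k) := gam_Tk k
    have hvT : v ∈ Tk Γ κ (κ k) := (hg.2.2 (κ k)).c _ hkT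
    have hvv : v * v = 1 := by
      calc v * v = g * Γ k * (g' * g) * Γ k * g' := by simp only [hv, Matrix.mul_assoc]
        _ = g * (Γ k * Γ k) * g' := by rw [hgl, Matrix.mul_one]; simp only [Matrix.mul_assoc]
        _ = 1 := by rw [h.sq_one, Matrix.mul_one, hgr]
    have hvi : ∀ i : Fin n, i < k → v * Γ i = -(Γ i * v) := by
      intro i hi
      have e1 : g' * Γ i = Γ i * g' := by
        calc g' * Γ i = g' * (Γ i * (g * g')) := by rw [hgr, Matrix.mul_one]
          _ = g' * (g * Γ i) * g' := by rw [hcl i hi]; simp only [Matrix.mul_assoc]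
          _ = Γ i * g' := by rw [← Matrix.mul_assoc, hgl, Matrix.one_mul]
      calc v * Γ i = g * Γ k * (g' * Γ i) := by simp only [hv, Matrix.mul_assoc]
        _ = g * (Γ k * Γ i) * g' := by rw [e1]; simp only [Matrix.mul_assoc]
        _ = -(g * Γ i * Γ k * g') := by
          rw [h.anti' (ne_of_gt hi), Matrix.mul_neg, Matrix.neg_mul]
          simp only [Matrix.mul_assoc]
        _ = -(Γ i * v) := by
          rw [hcl i hi]
          simp only [hv, Matrix.mul_assoc]
    have hvg : g * Γ k = v * g := by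
      rw [hv, Matrix.mul_assoc, hgl, Matrix.mul_one]
    -- the general step
    have step : ∀ w w' : Matrix N N ℂ, InK Γ κ w w' → w' ∈ Ek Γ κ → Pres H w →
        (∀ i, i < k → w * Γ i = Γ i * w) → w * Γ k = v * w → Pres H g := by
      intro w w' hw hwE hpw hwi hwk
      have hwr : w * w' = 1 := hw.1
      have hwl : w' * w = 1 := hw.2.1
      have e1 : ∀ r s : Matrix N N ℂ, w * r = s * w → w' * s = r * w' := by
        intro r s hrs
        calc w' * s = w' * (s * w) * w' := by
              rw [Matrix.mul_assoc w' (s * w) w', Matrix.mul_assoc s w w', hwr, Matrix.mul_one]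
          _ = r * w' := by
              rw [← hrs, ← Matrix.mul_assoc, hwl, Matrix.one_mul]
      have h1 := ih (by omega) (w' * g) (g' * w) (hw.symm.mul hg)
        (Subalgebra.mul_mem _ hwE hgE) (by
        intro i hi
        have hik : i < k ∨ i = k := by
          have h2 : (i : ℕ) ≤ k := by
            rw [hkv]
            omega
          rcases Nat.lt_or_ge i k with h3 | h3
          · exact Or.inl h3
          · exact Or.inr (Fin.ext (le_antisymm h2 h3))
        rcases hik with h2 | h2
        · rw [Matrix.mul_assoc, hcl i h2, ← Matrix.mul_assoc, e1 _ _ (hwi i h2),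
            Matrix.mul_assoc]
        · rw [h2, Matrix.mul_assoc, hvg, ← Matrix.mul_assoc, e1 _ _ hwk, Matrix.mul_assoc])
      have h2 := hpw.mul h1
      rwa [← Matrix.mul_assoc, hwr, Matrix.one_mul] at h2
    have hq : v * Γ k + Γ k * v = (2 * bq v (Γ k)) • (1 : Matrix N N ℂ) :=
      h.relT (Ts_col_le hvT) (gam_mem k)
    have hkk : bq (Γ k) (Γ k) = 1 := by rw [h.bq_gam, if_pos rfl]
    have hvv' : bq v v = 1 := by
      have h1 := h.sq_vec (Ts_col_le hvT)
      rw [hvv] at h1
      have h2 : (bq v v - 1) • (1 : Matrix N N ℂ) = 0 := by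
        rw [sub_smul, one_smul, ← h1, sub_self]
      rw [smul_eq_zero, or_iff_left one_ne_zero, sub_eq_zero] at h2
      exact h2
    have hsym : bq (Γ k) v = bq v (Γ k) := bq_symm _ _
    have hcom : ∀ t ∈ Tk Γ κ (κ k), ∀ s ∈ Tk Γ κ (κ k), ∀ d, Stab H d (t * s - s * t) :=
      fun t ht s hs d => hLa d _ (La_le_LD (Finset.mem_univ (κ k))
        (Submodule.subset_span ⟨t, ht, s, hs, rfl⟩))
    by_cases hneg : bq v (Γ k) = -1
    · by_cases hm : ∃ j : Fin n, k < j ∧ κ j = κ k
      · -- use another vector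
        obtain ⟨j, hkj, hjc⟩ := hm
        have hjk : j ≠ k := ne_of_gt hkj
        have hjT : Γ j ∈ Tk Γ κ (κ k) := gam_Tk' hjc
        have hd : Γ k - v ∈ Tk Γ κ (κ k) := Submodule.sub_mem _ hkT hvT
        have hdd : bq (Γ k - v) (Γ k - v) = 4 := by
          simp only [map_sub, LinearMap.sub_apply, hkk, hvv', hsym, hneg]
          norm_num
        have hjj : bq (Γ j) (Γ j) = 1 := by rw [h.bq_gam, if_pos rfl]
        refine step ((Γ k - v) * Γ j) _ (h.prod_InK hd hjT (by rw [hdd]; norm_num)
          (by rw [hjj]; norm_num)) (Subalgebra.smul_mem _ (Tk_mul_mem hjT hd) _)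
          (h.prod_pres' (Ts_col_le hd) (gam_mem j) (hcom _ hd _ hjT) hone
            (by rw [hdd]; norm_num) (by rw [hjj]; norm_num)) ?_ ?_
        · intro i hi
          have hij : j ≠ i := by
            intro h1
            rw [← h1] at hi
            exact lt_asymm hi hkj
          calc (Γ k - v) * Γ j * Γ i = (Γ k - v) * (Γ j * Γ i) := Matrix.mul_assoc _ _ _
            _ = -((Γ k * Γ i - v * Γ i) * Γ j) := by
              rw [h.anti' hij, Matrix.mul_neg, ← Matrix.mul_assoc, Matrix.sub_mul]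
            _ = Γ i * ((Γ k - v) * Γ j) := by
              rw [h.anti' (ne_of_gt hi), hvi i hi, neg_sub_neg, Matrix.sub_mul, neg_sub,
                Matrix.sub_mul, Matrix.mul_sub]
              simp only [Matrix.mul_assoc]
        · calc (Γ k - v) * Γ j * Γ k = (Γ k - v) * (Γ j * Γ k) := Matrix.mul_assoc _ _ _
            _ = -((Γ k * Γ k - v * Γ k) * Γ j) := by
              rw [h.anti' hjk, Matrix.mul_neg, ← Matrix.mul_assoc, Matrix.sub_mul]
            _ = v * ((Γ k - v) * Γ j) := by
              rw [h.sq_one, ← Matrix.mul_assoc v, Matrix.mul_sub, hvv, ← Matrix.neg_mul, neg_sub]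
      · -- the last vector of its colour
        exfalso
        push Not at hm
        have h1 : v + Γ k = 0 := h.nd_col (Submodule.add_mem _ hvT hkT) fun s hs => by
          induction hs using Submodule.span_induction with
          | mem x hx =>
            obtain ⟨j, rfl⟩ := hx
            by_cases hj : j ∈ cs κ (κ k)
            · rw [col_mem hj, map_add, LinearMap.add_apply]
              rcases lt_trichotomy j k with hjk | hjk | hjk
              · have h4 := h.relT (Ts_col_le hvT) (gam_mem j)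
                rw [hvi j hjk, neg_add_cancel] at h4
                have h5 := (smul_eq_zero.1 h4.symm).resolve_right one_ne_zero
                rw [(mul_eq_zero.1 h5).resolve_left two_ne_zero, h.bq_gam,
                  if_neg (ne_of_gt hjk), add_zero]
              · rw [hjk, hneg, hkk, neg_add_cancel]
              · exact absurd (mem_cs.1 hj) (hm j hjk)
            · rw [col_not hj, map_zero]
          | zero => rw [map_zero]
          | add a b _ _ ha hb => rw [map_add, ha, hb, add_zero]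
          | smul c a _ ha => rw [map_smul, ha, smul_zero]
        have h2 : v = -Γ k := eq_neg_of_add_eq_zero_left h1
        refine h.no_flipK hgr hgE (k := k) rfl (fun i hi hic => hcl i ?_) ?_
        · rcases lt_trichotomy i k with hik | hik | hik
          · exact hik
          · exact absurd hik hi
          · exact absurd hic (hm i hik)
        · rw [hvg, h2, Matrix.neg_mul]
    · have hd : Γ k + v ∈ Tk Γ κ (κ k) := Submodule.add_mem _ hkT hvT
      have hdd : bq (Γ k + v) (Γ k + v) ≠ 0 := by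
        simp only [map_add, LinearMap.add_apply, hkk, hvv', hsym]
        intro h1
        apply hneg
        linear_combination (1 / 2 : ℂ) * h1
      refine step ((Γ k + v) * Γ k) _ (h.prod_InK hd hkT hdd (by rw [hkk]; norm_num))
        (Subalgebra.smul_mem _ (Tk_mul_mem hkT hd) _) (h.prod_pres' (Ts_col_le hd) (gam_mem k)
          (hcom _ hd _ hkT) hone hdd (by rw [hkk]; norm_num)) ?_ ?_
      · intro i hi
        calc (Γ k + v) * Γ k * Γ i = (Γ k + v) * (Γ k * Γ i) := Matrix.mul_assoc _ _ _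
          _ = (Γ k + v) * (-(Γ i * Γ k)) := by rw [h.anti' (ne_of_gt hi)]
          _ = -((Γ k * Γ i + v * Γ i) * Γ k) := by
            rw [Matrix.mul_neg, ← Matrix.mul_assoc, Matrix.add_mul]
          _ = Γ i * ((Γ k + v) * Γ k) := by
            rw [h.anti' (ne_of_gt hi), hvi i hi, ← neg_add, Matrix.neg_mul, neg_neg,
              Matrix.add_mul, Matrix.add_mul, Matrix.mul_add]
            simp only [Matrix.mul_assoc]
      · rw [Matrix.mul_assoc, h.sq_one, Matrix.mul_one, ← Matrix.mul_assoc, Matrix.mul_add, hvv,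
          Matrix.add_mul, Matrix.mul_assoc, h.sq_one, Matrix.mul_one, Matrix.one_mul, add_comm]

end Cl

theorem Ek_alg (hΓ : ∀ i a b, IsAlgebraic ℚ (Γ i a b)) :
    (Ek Γ κ).toSubmodule ≤ Submodule.span ℂ
      {x | x ∈ (Ek Γ κ).toSubmodule ∧ ∀ a b, IsAlgebraic ℚ (x a b)} := by
  intro x hx
  have hx' : x ∈ Ek Γ κ := hx
  clear hx
  induction hx' using Algebra.adjoin_induction with
  | mem x hx' =>
    obtain ⟨i, j, hij, rfl⟩ := hx'
    refine Submodule.subset_span ⟨Algebra.subset_adjoin ⟨i, j, hij, rfl⟩, fun a b => ?_⟩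
    rw [Matrix.mul_apply]
    exact mem_QA.1 (Subfield.sum_mem _ fun c _ =>
      Subfield.mul_mem _ (mem_QA.2 (hΓ _ _ _)) (mem_QA.2 (hΓ _ _ _)))
  | algebraMap r =>
    rw [Algebra.algebraMap_eq_smul_one]
    refine Submodule.smul_mem _ _ (Submodule.subset_span ⟨Subalgebra.one_mem _, fun a b => ?_⟩)
    rw [Matrix.one_apply]
    split_ifs
    · exact isAlgebraic_one
    · exact isAlgebraic_zero
  | add x y hx1 hy1 hx hy => exact Submodule.add_mem _ hx hy
  | mul x y hx1 hy1 h1 h2 =>
    clear hx1 hy1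
    induction h1 using Submodule.span_induction with
    | mem a ha =>
      induction h2 using Submodule.span_induction with
      | mem b hb =>
        refine Submodule.subset_span ⟨Subalgebra.mul_mem _ ha.1 hb.1, fun i j => ?_⟩
        rw [Matrix.mul_apply]
        exact mem_QA.1 (Subfield.sum_mem _ fun c _ =>
          Subfield.mul_mem _ (mem_QA.2 (ha.2 _ _)) (mem_QA.2 (hb.2 _ _)))
      | zero =>
        rw [Matrix.mul_zero]
        exact Submodule.zero_mem _
      | add b c _ _ hb hc =>
        rw [Matrix.mul_add]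
        exact Submodule.add_mem _ hb hc
      | smul c b _ hb =>
        rw [Matrix.mul_smul]
        exact Submodule.smul_mem _ _ hb
    | zero =>
      rw [Matrix.zero_mul]
      exact Submodule.zero_mem _
    | add a b _ _ ha hb =>
      rw [Matrix.add_mul]
      exact Submodule.add_mem _ ha hb
    | smul c a _ ha =>
      rw [Matrix.smul_mul]
      exact Submodule.smul_mem _ _ ha

/-- Inverses in a subalgebra. -/
theorem inv_mem_sub (E : Subalgebra ℂ (Matrix N N ℂ)) {g g' : Matrix N N ℂ} (h : g * g' = 1)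
    (hg : g ∈ E) : g' ∈ E := by
  have h' : g' * g = 1 := mul_eq_one_comm.1 h
  let f : E.toSubmodule →ₗ[ℂ] E.toSubmodule :=
    { toFun := fun x => ⟨g * x, Subalgebra.mul_mem _ hg x.2⟩
      map_add' := fun x y => Subtype.ext (Matrix.mul_add _ _ _)
      map_smul' := fun c x => Subtype.ext (Matrix.mul_smul _ _ _) }
  have hf : Function.Injective f := by
    intro x y hxy
    have h1 : g * (x : Matrix N N ℂ) = g * y := congrArg Subtype.val hxy
    have h2 := congrArg (fun z => g' * z) h1
    simp only [← Matrix.mul_assoc, h', Matrix.one_mul] at h2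
    exact Subtype.ext h2
  obtain ⟨y, hy⟩ := (LinearMap.injective_iff_surjective.1 hf) ⟨1, Subalgebra.one_mem _⟩
  have h1 : g * (y : Matrix N N ℂ) = 1 := congrArg Subtype.val hy
  have h2 : g' = y := by
    calc g' = g' * (g * y) := by rw [h1, Matrix.mul_one]
      _ = y := by rw [← Matrix.mul_assoc, h', Matrix.one_mul]
  rw [h2]
  exact y.2

/-- **The group is algebraic.** -/
theorem gspinK_alg (hΓ : ∀ i a b, IsAlgebraic ℚ (Γ i a b)) :
    ∃ I : Set (MvPolynomial (N × N) ℂ), (∀ p ∈ I, ∀ m, IsAlgebraic ℚ (p.coeff m)) ∧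
      ∀ g : GL N ℂ, (g.val ∈ Ek Γ κ ∧ (g⁻¹).val ∈ Ek Γ κ ∧
        ∀ c, ∀ t : Matrix N N ℂ, g.val * t * (g⁻¹).val ∈ Tk Γ κ c ↔ t ∈ Tk Γ κ c) ↔
          ∀ p ∈ I, MvPolynomial.eval (fun b => g.val b.1 b.2) p = 0 := by
  let P1 : (N × N → ℂ) → MvPolynomial (N × N) ℂ := fun w =>
    ∑ p : N × N, MvPolynomial.C (w p) * gX N p.1 p.2
  let P2 : Fin n → (N × N → ℂ) → MvPolynomial (N × N) ℂ := fun i w =>
    ∑ p : N × N, MvPolynomial.C (w p) *
      (gX N * (Γ i).map (MvPolynomial.C : ℂ →+* MvPolynomial (N × N) ℂ) * (gX N).adjugate :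
        Matrix N N (MvPolynomial (N × N) ℂ)) p.1 p.2
  have hP1 : ∀ w (g : Matrix N N ℂ), MvPolynomial.eval (fun b => g b.1 b.2) (P1 w) =
      ∑ p : N × N, w p * g p.1 p.2 := by
    intro w g
    rw [map_sum]
    refine Finset.sum_congr rfl fun p _ => ?_
    rw [map_mul, MvPolynomial.eval_C]
    congr 1
    exact congrFun (congrFun (evM_gX g) p.1) p.2
  have hP2 : ∀ i w (g : Matrix N N ℂ), MvPolynomial.eval (fun b => g b.1 b.2) (P2 i w) =
      ∑ p : N × N, w p * (g * Γ i * g.adjugate) p.1 p.2 := by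
    intro i w g
    rw [map_sum]
    refine Finset.sum_congr rfl fun p _ => ?_
    rw [map_mul, MvPolynomial.eval_C]
    congr 1
    have h1 : (gX N * (Γ i).map MvPolynomial.C * (gX N).adjugate).map (evM g) =
        g * Γ i * g.adjugate := by
      rw [Matrix.map_mul, Matrix.map_mul, evM_gX, evM_C]
      congr 1
      have h2 := RingHom.map_adjugate (evM g) (gX N)
      rw [RingHom.mapMatrix_apply, RingHom.mapMatrix_apply, evM_gX] at h2
      exact h2
    exact congrFun (congrFun h1 p.1) p.2
  refine ⟨{p | ∃ w : N × N → ℂ, (∀ p, IsAlgebraic ℚ (w p)) ∧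
      ((∀ u ∈ Ek Γ κ, ∑ p : N × N, w p * u p.1 p.2 = 0) ∧ p = P1 w ∨
        ∃ i, (∀ u ∈ Tk Γ κ (κ i), ∑ p : N × N, w p * u p.1 p.2 = 0) ∧ p = P2 i w)}, ?_, ?_⟩
  · rintro p ⟨w, hw, ⟨-, rfl⟩ | ⟨i, -, rfl⟩⟩ m
    · refine Ap_coeff ?_ m
      exact Subring.sum_mem _ fun p _ => Subring.mul_mem _ (C_Ap (hw p)) (gX_Ap _ _)
    · refine Ap_coeff ?_ m
      refine Subring.sum_mem _ fun p _ => Subring.mul_mem _ (C_Ap (hw p)) ?_
      refine mul_Ap (mul_Ap gX_Ap fun a b => ?_) (adj_Ap gX_Ap) _ _
      rw [Matrix.map_apply]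
      exact C_Ap (hΓ i a b)
  · intro g
    have hr : g.val * (g⁻¹).val = 1 := by rw [← Units.val_mul, mul_inv_cancel, Units.val_one]
    have hadj : g.val.adjugate = g.val.det • (g⁻¹).val := by
      calc g.val.adjugate = g.val.adjugate * (g.val * (g⁻¹).val) := by rw [hr, Matrix.mul_one]
        _ = g.val.det • (g⁻¹).val := by
          rw [← Matrix.mul_assoc, Matrix.adjugate_mul, Matrix.smul_mul, Matrix.one_mul]
    have hdet : g.val.det ≠ 0 := by
      have := (Matrix.isUnit_iff_isUnit_det _).1 g.isUnit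
      exact this.ne_zero
    constructor
    · rintro ⟨h1, h2, h3⟩ p ⟨w, hw, ⟨h4, rfl⟩ | ⟨i, h4, rfl⟩⟩
      · rw [hP1]
        exact h4 _ h1
      · rw [hP2]
        refine h4 _ ?_
        rw [hadj, Matrix.mul_smul]
        exact Submodule.smul_mem _ _ ((h3 _ _).2 (gam_Tk i))
    · intro h
      have h1 : g.val ∈ Ek Γ κ := (mem_iff_ann (Ek_alg hΓ) _).2 fun w hw h4 => by
        rw [← hP1]
        exact h _ ⟨w, hw, Or.inl ⟨h4, rfl⟩⟩
      refine ⟨h1, inv_mem_sub _ hr h1, fun c => conj_iff hr fun i => ?_⟩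
      by_cases hi : i ∈ cs κ c
      · rw [col_mem hi]
        have hic := mem_cs.1 hi
        subst hic
        have h2 : g.val * Γ i * g.val.adjugate ∈ Tk Γ κ (κ i) :=
          (mem_iff_ann (Ts_alg (col_alg hΓ _)) _).2 fun w hw h4 => by
            rw [← hP2]
            exact h _ ⟨w, hw, Or.inr ⟨i, h4, rfl⟩⟩
        rw [hadj, Matrix.mul_smul] at h2
        have h5 := Submodule.smul_mem _ (g.val.det)⁻¹ h2
        rwa [smul_smul, inv_mul_cancel₀ hdet, one_smul] at h5
      · rw [col_not hi, Matrix.mul_zero, Matrix.zero_mul]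
        exact Submodule.zero_mem _

end Pool.Agent.TH164.Spin
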