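import Pool.Agent.TH164.Spin.Pr2
import Pool.Agent.TH164.Spin.Rm7

/-!
# Skew matrices and the Lie algebra of a Clifford system
-/

set_option autoImplicit false
set_option linter.unusedSectionVars false
set_option linter.unusedVariables false

open Module Matrix

namespace Pool.Agent.TH164.Spin

variable {N : Type} [Fintype N] [DecidableEq N] [Nonempty N] {n : ℕ}
variable {Γ : Fin n → Matrix N N ℂ}

/-- Skew matrices as elements of the Clifford algebra. -/
noncomputable def qm (Γ : Fin n → Matrix N N ℂ) :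
    Matrix (Fin n) (Fin n) ℂ →ₗ[ℂ] Matrix N N ℂ where
  toFun D := (1 / 4 : ℂ) • ∑ i, ∑ j, D i j • (Γ i * Γ j)
  map_add' D E := by
    rw [← smul_add, ← Finset.sum_add_distrib]
    congr 1
    refine Finset.sum_congr rfl fun i _ => ?_
    rw [← Finset.sum_add_distrib]
    refine Finset.sum_congr rfl fun j _ => ?_
    rw [Matrix.add_apply, add_smul]
  map_smul' c D := by
    rw [RingHom.id_apply, smul_comm c, Finset.smul_sum (r := c)]
    congr 1
    refine Finset.sum_congr rfl fun i _ => ?_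
    rw [Finset.smul_sum]
    refine Finset.sum_congr rfl fun j _ => ?_
    rw [Matrix.smul_apply, smul_eq_mul, mul_smul]

theorem qm_apply (D : Matrix (Fin n) (Fin n) ℂ) :
    qm Γ D = (1 / 4 : ℂ) • ∑ i, ∑ j, D i j • (Γ i * Γ j) := rfl

theorem qm_vec (u v : Fin n → ℂ) : qm Γ (vecMulVec u v) =
    (1 / 4 : ℂ) • ((∑ i, u i • Γ i) * (∑ j, v j • Γ j)) := by
  rw [qm_apply, Finset.sum_mul]
  congr 1
  refine Finset.sum_congr rfl fun i _ => ?_
  rw [Finset.mul_sum]
  refine Finset.sum_congr rfl fun j _ => ?_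
  rw [Matrix.vecMulVec_apply, Matrix.smul_mul, Matrix.mul_smul, smul_smul]

theorem qm_r2 (u v : Fin n → ℂ) : qm Γ (r2 u v) =
    (1 / 4 : ℂ) • ((∑ i, u i • Γ i) * (∑ j, v j • Γ j) -
      (∑ j, v j • Γ j) * (∑ i, u i • Γ i)) := by
  rw [r2, map_sub, qm_vec, qm_vec, smul_sub]

theorem Rr_eq (a b : Fin n) : Rr a b = r2 (Pi.single a 1) (Pi.single b 1) := by
  have h1 : ∀ a b : Fin n, Matrix.single a b (1 : ℂ) = vecMulVec (Pi.single a 1) (Pi.single b 1) := by
    intro a b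
    ext i j
    rw [Matrix.vecMulVec_apply, Matrix.single_apply, Pi.single_apply, Pi.single_apply]
    by_cases hi : i = a
    · by_cases hj : j = b
      · rw [if_pos hi, if_pos hj, if_pos ⟨hi.symm, hj.symm⟩, mul_one]
      · rw [if_neg hj, mul_zero, if_neg]
        rintro ⟨-, h⟩
        exact hj h.symm
    · rw [if_neg hi, zero_mul, if_neg]
      rintro ⟨h, -⟩
      exact hi h.symm
  rw [Rr, r2, h1, h1]

theorem qm_Rr (a b : Fin n) : qm Γ (Rr a b) = (1 / 4 : ℂ) • (Γ a * Γ b - Γ b * Γ a) := by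
  have h1 : ∀ a : Fin n, ∑ i, (Pi.single a (1 : ℂ) : Fin n → ℂ) i • Γ i = Γ a := by
    intro a
    rw [Finset.sum_eq_single a]
    · rw [Pi.single_eq_same, one_smul]
    · intro i _ hi
      rw [Pi.single_eq_of_ne hi, zero_smul]
    · intro ha
      exact absurd (Finset.mem_univ _) ha
  rw [Rr_eq, qm_r2, h1, h1]

theorem qm_mem {D : Matrix (Fin n) (Fin n) ℂ} (hD : D ∈ So n) : qm Γ D ∈ La Γ := by
  rw [So_sum hD, map_sum]
  refine Submodule.sum_mem _ fun i _ => ?_
  rw [map_sum]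
  refine Submodule.sum_mem _ fun j _ => ?_
  rw [map_smul, qm_Rr]
  exact Submodule.smul_mem _ _ (Submodule.smul_mem _ _
    (Submodule.subset_span ⟨_, gam_mem i, _, gam_mem j, rfl⟩))

theorem qm_surj {X : Matrix N N ℂ} (hX : X ∈ La Γ) : ∃ D ∈ So n, qm Γ D = X := by
  have h1 : La Γ ≤ (So n).map (qm Γ) := by
    refine Submodule.span_le.2 ?_
    rintro _ ⟨t, ht, s, hs, rfl⟩
    obtain ⟨v, rfl⟩ := mem_Ts.1 ht
    obtain ⟨w, rfl⟩ := mem_Ts.1 hs
    refine ⟨(4 : ℂ) • r2 v w, (So n).smul_mem _ (r2_mem v w), ?_⟩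
    rw [map_smul, qm_r2, smul_smul]
    norm_num
  exact h1 hX

namespace Cl

theorem la_zero (h : Cl Γ) {X : Matrix N N ℂ} (hX : X ∈ La Γ) (h0 : ∀ i, X * Γ i = Γ i * X) :
    X = 0 := by
  obtain ⟨c, hc⟩ := h.scalar_of_commute h0
  have h1 := la_trace hX
  rw [hc, Matrix.trace_smul, Matrix.trace_one, smul_eq_mul, mul_eq_zero] at h1
  rw [hc, h1.resolve_right card_ne, zero_smul]

theorem qm_com (h : Cl Γ) {D : Matrix (Fin n) (Fin n) ℂ} (hD : D ∈ So n) (k : Fin n) :
    qm Γ D * Γ k - Γ k * qm Γ D = ∑ i, D i k • Γ i := by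
  have h1 : ∀ i j : Fin n, (Γ i * Γ j) * Γ k - Γ k * (Γ i * Γ j) =
      (if j = k then (2 : ℂ) else 0) • Γ i - (if i = k then (2 : ℂ) else 0) • Γ j := by
    intro i j
    have e1 : Γ j * Γ k = (if j = k then (2 : ℂ) else 0) • (1 : Matrix N N ℂ) - Γ k * Γ j :=
      eq_sub_of_add_eq (h.rel j k)
    have e2 : Γ i * Γ k = (if i = k then (2 : ℂ) else 0) • (1 : Matrix N N ℂ) - Γ k * Γ i :=
      eq_sub_of_add_eq (h.rel i k)
    rw [Matrix.mul_assoc, e1, Matrix.mul_sub, ← Matrix.mul_assoc, e2, Matrix.sub_mul,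
      Matrix.mul_smul, Matrix.smul_mul, Matrix.mul_one, Matrix.one_mul, Matrix.mul_assoc]
    abel
  have h2 : qm Γ D * Γ k - Γ k * qm Γ D = (1 / 4 : ℂ) • ∑ i, ∑ j,
      (D i j • ((if j = k then (2 : ℂ) else 0) • Γ i) -
        D i j • ((if i = k then (2 : ℂ) else 0) • Γ j)) := by
    rw [qm_apply, Matrix.smul_mul, Matrix.mul_smul, ← smul_sub, Finset.sum_mul, Finset.mul_sum,
      ← Finset.sum_sub_distrib]
    congr 1
    refine Finset.sum_congr rfl fun i _ => ?_
    rw [Finset.sum_mul, Finset.mul_sum, ← Finset.sum_sub_distrib]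
    refine Finset.sum_congr rfl fun j _ => ?_
    rw [Matrix.smul_mul, Matrix.mul_smul, ← smul_sub, h1, smul_sub]
  rw [h2]
  simp only [Finset.sum_sub_distrib]
  have h3 : ∑ i, ∑ j, D i j • ((if j = k then (2 : ℂ) else 0) • Γ i) =
      ∑ i, (2 * D i k) • Γ i := by
    refine Finset.sum_congr rfl fun i _ => ?_
    rw [Finset.sum_eq_single k]
    · rw [if_pos rfl, smul_smul, mul_comm]
    · intro j _ hj
      rw [if_neg hj, zero_smul, smul_zero]
    · intro hk
      exact absurd (Finset.mem_univ _) hk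
  have h4 : ∑ i, ∑ j, D i j • ((if i = k then (2 : ℂ) else 0) • Γ j) =
      ∑ i, (-(2 * D i k)) • Γ i := by
    rw [Finset.sum_eq_single k]
    · refine Finset.sum_congr rfl fun i _ => ?_
      rw [if_pos rfl, smul_smul, So_ent hD i k]
      congr 1
      ring
    · intro j _ hj
      refine Finset.sum_eq_zero fun i _ => ?_
      rw [if_neg hj, zero_smul, smul_zero]
    · intro hk
      exact absurd (Finset.mem_univ _) hk
  rw [h3, h4, ← Finset.sum_sub_distrib, Finset.smul_sum]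
  refine Finset.sum_congr rfl fun i _ => ?_
  rw [← sub_smul, smul_smul]
  congr 1
  ring

theorem qm_inj (h : Cl Γ) {D : Matrix (Fin n) (Fin n) ℂ} (hD : D ∈ So n) (h0 : qm Γ D = 0) :
    D = 0 := by
  ext i k
  have h1 := h.qm_com hD k
  rw [h0, Matrix.zero_mul, Matrix.mul_zero, sub_zero] at h1
  have h2 := h.bq_sum (fun i => D i k) i
  rw [← h1, map_zero, LinearMap.zero_apply] at h2
  rw [← h2, Matrix.zero_apply]

theorem qm_br (h : Cl Γ) {D E : Matrix (Fin n) (Fin n) ℂ} (hD : D ∈ So n) (hE : E ∈ So n) :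
    qm Γ (D * E - E * D) = qm Γ D * qm Γ E - qm Γ E * qm Γ D := by
  rw [← sub_eq_zero]
  refine h.la_zero (Submodule.sub_mem _ (qm_mem (So_br hD hE)) (h.la_br (qm_mem hD) (qm_mem hE)))
    fun k => ?_
  rw [← sub_eq_zero]
  have h1 := h.qm_com (So_br hD hE) k
  have hD' := fun k => h.qm_com hD k
  have hE' := fun k => h.qm_com hE k
  set X := qm Γ D with hX
  set Y := qm Γ E with hY
  have hsum : ∀ (Z : Matrix N N ℂ) (v : Fin n → ℂ), Z * (∑ i, v i • Γ i) - (∑ i, v i • Γ i) * Z =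
      ∑ i, v i • (Z * Γ i - Γ i * Z) := by
    intro Z v
    rw [Finset.mul_sum, Finset.sum_mul, ← Finset.sum_sub_distrib]
    refine Finset.sum_congr rfl fun i _ => ?_
    rw [Matrix.mul_smul, Matrix.smul_mul, smul_sub]
  have h2 : (X * Y - Y * X) * Γ k - Γ k * (X * Y - Y * X) =
      (X * (Y * Γ k - Γ k * Y) - (Y * Γ k - Γ k * Y) * X) -
        (Y * (X * Γ k - Γ k * X) - (X * Γ k - Γ k * X) * Y) := by
    noncomm_ring
  have h3 : (qm Γ (D * E - E * D) - (X * Y - Y * X)) * Γ k -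
      Γ k * (qm Γ (D * E - E * D) - (X * Y - Y * X)) =
      (qm Γ (D * E - E * D) * Γ k - Γ k * qm Γ (D * E - E * D)) -
        ((X * Y - Y * X) * Γ k - Γ k * (X * Y - Y * X)) := by
    noncomm_ring
  rw [h3, h2, h1, hE', hD', hsum, hsum]
  simp only [hD', hE']
  have h4 : ∀ A B : Matrix (Fin n) (Fin n) ℂ, ∑ i, B i k • ∑ j, A j i • Γ j =
      ∑ j, (A * B) j k • Γ j := by
    intro A B
    simp only [Finset.smul_sum]
    rw [Finset.sum_comm]
    refine Finset.sum_congr rfl fun j _ => ?_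
    rw [Matrix.mul_apply, Finset.sum_smul]
    refine Finset.sum_congr rfl fun i _ => ?_
    rw [smul_smul, mul_comm]
  rw [h4, h4, ← Finset.sum_sub_distrib, ← Finset.sum_sub_distrib]
  refine Finset.sum_eq_zero fun i _ => ?_
  rw [Matrix.sub_apply, sub_smul, sub_self]

/-- **The square of an element of rank two.** -/
theorem qm_sq (h : Cl Γ) {E : Matrix (Fin n) (Fin n) ℂ} (hE : E ∈ So n) {c : ℂ} (hc : c ≠ 0)
    (h1 : E * E * E = -c • E) (h2 : (E * E).trace = -2 * c) :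
    qm Γ E * qm Γ E = -(c / 4) • (1 : Matrix N N ℂ) := by
  obtain ⟨ρ, hρ⟩ := IsAlgClosed.exists_pow_nat_eq (-c) two_pos
  have hρ0 : ρ ≠ 0 := by
    rintro rfl
    apply hc
    linear_combination hρ
  rw [← hρ] at h1
  have h2' : (E * E).trace = 2 * ρ ^ 2 := by
    rw [h2, hρ]
    ring
  have hE2 : (E * E)ᵀ = E * E := by
    rw [Matrix.transpose_mul, So_tr hE]
    noncomm_ring
  set π := (1 / (2 * ρ ^ 2)) • (E * E + ρ • E) with hπ
  have hπT : πᵀ = (1 / (2 * ρ ^ 2)) • (E * E - ρ • E) := by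
    rw [hπ, Matrix.transpose_smul, Matrix.transpose_add, hE2, Matrix.transpose_smul, So_tr hE,
      smul_neg, sub_eq_add_neg]
  have h4 : E * E * (E * E) = ρ ^ 2 • (E * E) := by
    rw [← Matrix.mul_assoc, h1, Matrix.smul_mul]
  have hππ : π * π = π := by
    rw [hπ, Matrix.smul_mul, Matrix.mul_smul, smul_smul]
    have h5 : (E * E + ρ • E) * (E * E + ρ • E) = (2 * ρ ^ 2) • (E * E + ρ • E) := by
      rw [Matrix.add_mul, Matrix.mul_add, Matrix.mul_add, h4, Matrix.smul_mul, Matrix.mul_smul,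
        Matrix.smul_mul, Matrix.mul_smul, ← Matrix.mul_assoc E E E, h1]
      module
    rw [h5, smul_smul]
    congr 1
    field_simp
  have hπ1 : π * πᵀ = 0 := by
    rw [hπT, hπ, Matrix.smul_mul, Matrix.mul_smul, Matrix.add_mul, Matrix.mul_sub, Matrix.mul_sub,
      h4, Matrix.smul_mul, Matrix.mul_smul, Matrix.smul_mul, Matrix.mul_smul,
      ← Matrix.mul_assoc E E E, h1]
    module
  have hπ2 : πᵀ * π = 0 := by
    rw [hπT, hπ, Matrix.smul_mul, Matrix.mul_smul, Matrix.sub_mul, Matrix.mul_add, Matrix.mul_add,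
      h4, Matrix.smul_mul, Matrix.mul_smul, Matrix.smul_mul, Matrix.mul_smul,
      ← Matrix.mul_assoc E E E, h1]
    module
  have hπtr : π.trace = 1 := by
    rw [hπ, Matrix.trace_smul, Matrix.trace_add, Matrix.trace_smul, So_trace hE, h2', smul_zero,
      add_zero, smul_eq_mul]
    field_simp
  have hEπ : E = ρ • (π - πᵀ) := by
    rw [hπT, hπ, ← smul_sub, smul_smul]
    have h5 : E * E + ρ • E - (E * E - ρ • E) = (2 * ρ) • E := by module
    rw [h5, smul_smul]
    have h6 : ρ * (1 / (2 * ρ ^ 2)) * (2 * ρ) = 1 := by field_simp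
    rw [h6, one_smul]
  -- rank one
  obtain ⟨x, y, hxy⟩ : ∃ x y : Fin n → ℂ, π = vecMulVec x y := by
    have hid : IsIdempotentElem (Matrix.toLin' π) := by
      change Matrix.toLin' π * Matrix.toLin' π = Matrix.toLin' π
      rw [Module.End.mul_eq_comp, ← Matrix.toLin'_mul, hππ]
    have h5 := LinearMap.IsIdempotentElem.isProj_range _ hid
    have h6 := h5.trace
    rw [Matrix.trace_toLin'_eq, hπtr] at h6
    have h7 : finrank ℂ (LinearMap.range (Matrix.toLin' π)) = 1 := by exact_mod_cast h6.symm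
    obtain ⟨x, hx⟩ := finrank_le_one_iff.1 h7.le
    have h8 : ∀ j, ∃ c : ℂ, c • (x : Fin n → ℂ) = π.col j := by
      intro j
      obtain ⟨c, hc⟩ := hx ⟨Matrix.toLin' π (Pi.single j 1), LinearMap.mem_range_self _ _⟩
      refine ⟨c, ?_⟩
      have h9 := congrArg Subtype.val hc
      rw [Submodule.coe_smul] at h9
      rw [h9]
      change Matrix.toLin' π (Pi.single j 1) = π.col j
      rw [Matrix.toLin'_apply, Matrix.mulVec_single_one]
    choose y hy using h8
    refine ⟨x, y, ?_⟩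
    ext i j
    rw [Matrix.vecMulVec_apply, mul_comm]
    exact (congrFun (hy j) i).symm
  have hyx : x ⬝ᵥ y = 1 := by
    rw [← Matrix.trace_vecMulVec, ← hxy, hπtr]
  have hx0 : x ≠ 0 := by
    rintro rfl
    rw [zero_dotProduct] at hyx
    exact zero_ne_one hyx
  have hy0 : y ≠ 0 := by
    rintro rfl
    rw [dotProduct_zero] at hyx
    exact zero_ne_one hyx
  have hz : ∀ u v : Fin n → ℂ, ∀ c : ℂ, u ≠ 0 → v ≠ 0 → c • vecMulVec u v = 0 → c = 0 := by
    intro u v c hu hv h5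
    obtain ⟨i, hi⟩ := Function.ne_iff.1 hu
    obtain ⟨j, hj⟩ := Function.ne_iff.1 hv
    have h6 := congrFun (congrFun h5 i) j
    rw [Matrix.smul_apply, Matrix.vecMulVec_apply, smul_eq_mul, Matrix.zero_apply] at h6
    exact (mul_eq_zero.1 h6).resolve_right (mul_ne_zero hi hj)
  have hyy : y ⬝ᵥ y = 0 := by
    rw [hxy, Matrix.transpose_vecMulVec, Matrix.vecMulVec_mul_vecMulVec, vecMulVec_smul] at hπ1
    exact hz x x _ hx0 hx0 hπ1
  have hxx : x ⬝ᵥ x = 0 := by
    rw [hxy, Matrix.transpose_vecMulVec, Matrix.vecMulVec_mul_vecMulVec, vecMulVec_smul] at hπ2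
    exact hz y y _ hy0 hy0 hπ2
  set a := ∑ i, x i • Γ i with ha
  set b := ∑ i, y i • Γ i with hb
  have haT : a ∈ Ts Γ := mem_Ts.2 ⟨x, rfl⟩
  have hbT : b ∈ Ts Γ := mem_Ts.2 ⟨y, rfl⟩
  have hbq : ∀ u v : Fin n → ℂ, bq (∑ i, u i • Γ i) (∑ i, v i • Γ i) = u ⬝ᵥ v := by
    intro u v
    rw [map_sum]
    refine Finset.sum_congr rfl fun i _ => ?_
    rw [map_smul, h.bq_sum, smul_eq_mul, mul_comm]
  have q1 := h.relT haT haT
  have q2 := h.relT hbT hbT
  have q3 := h.relT haT hbT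
  rw [ha, hbq, hxx, mul_zero, zero_smul, ← ha, ← two_smul ℂ (a * a)] at q1
  rw [hb, hbq, hyy, mul_zero, zero_smul, ← hb, ← two_smul ℂ (b * b)] at q2
  rw [ha, hb, hbq, hyx, mul_one, ← ha, ← hb] at q3
  have q1' : a * a = 0 := (smul_eq_zero.1 q1).resolve_left two_ne_zero
  have q2' : b * b = 0 := (smul_eq_zero.1 q2).resolve_left two_ne_zero
  have hq : qm Γ E = (ρ / 4) • (a * b - b * a) := by
    rw [hEπ, map_smul, map_sub, hxy, Matrix.transpose_vecMulVec, qm_vec, qm_vec, ← smul_sub,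
      smul_smul]
    congr 1
    ring
  have h5 : (a * b - b * a) * (a * b - b * a) = (4 : ℂ) • (1 : Matrix N N ℂ) := by
    have h6 : (a * b - b * a) * (a * b - b * a) = (a * b + b * a) * (a * b + b * a) -
        (2 : ℂ) • (a * (b * b) * a) - (2 : ℂ) • (b * (a * a) * b) := by
      rw [two_smul, two_smul]
      noncomm_ring
    rw [h6, q1', q2', q3, Matrix.mul_zero, Matrix.mul_zero, Matrix.zero_mul, Matrix.zero_mul,
      smul_zero, sub_zero, sub_zero, Matrix.smul_mul, Matrix.one_mul, smul_smul]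
    norm_num
  rw [hq, Matrix.smul_mul, Matrix.mul_smul, smul_smul, h5, smul_smul]
  congr 1
  linear_combination (1 / 4 : ℂ) * hρ

end Cl

end Pool.Agent.TH164.Spin
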