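import Pool.Agent.TH164.Spin.Pr3

/-!
# Isomorphisms between orthogonal Lie algebras come from the spin representations
-/

set_option autoImplicit false
set_option linter.unusedSectionVars false
set_option linter.unusedVariables false

open Module Matrix

namespace Pool.Agent.TH164.Spin

/-- The bracket. -/
def brS {n : ℕ} (D E : So n) : So n :=
  ⟨(D : Matrix (Fin n) (Fin n) ℂ) * E - E * D, So_br D.2 E.2⟩

theorem brS_val {n : ℕ} (D E : So n) : (brS D E : Matrix (Fin n) (Fin n) ℂ) = ad D E := rfl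

/-- The dimension determines the size. -/
theorem size_eq {n m : ℕ} (hn : 3 ≤ n) (hm : 3 ≤ m) (φ : So n ≃ₗ[ℂ] So m) : n = m := by
  have h1 := φ.finrank_eq
  have h2 := finrank_So (n := n)
  have h3 := finrank_So (n := m)
  rw [h1, h3] at h2
  have h4 : ((m : ℂ) - n) * ((m : ℂ) + n - 1) = 0 := by linear_combination 2 * h2
  rcases mul_eq_zero.1 h4 with h5 | h5
  · have h6 : (m : ℂ) = n := sub_eq_zero.1 h5
    exact_mod_cast h6.symm
  · exfalso
    have h6 : ((m + n : ℕ) : ℂ) = (1 : ℕ) := by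
      push_cast
      linear_combination h5
    have h7 : m + n = 1 := by exact_mod_cast h6
    omega

section auto

variable {n : ℕ}

/-- Isomorphisms preserve the Killing form. -/
theorem iso_trace (hn : 3 ≤ n) (φ : So n ≃ₗ[ℂ] So n) (hφ : ∀ D E, φ (brS D E) = brS (φ D) (φ E))
    (D : So n) : ((φ D : Matrix (Fin n) (Fin n) ℂ) * (φ D : Matrix (Fin n) (Fin n) ℂ)).trace =
      ((D : Matrix (Fin n) (Fin n) ℂ) * (D : Matrix (Fin n) (Fin n) ℂ)).trace := by
  have hr : ∀ E : So n, ∀ x ∈ So n, (ad (E : Matrix (Fin n) (Fin n) ℂ) ∘ₗ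
      ad (E : Matrix (Fin n) (Fin n) ℂ)) x ∈ So n := fun E x hx => So_br E.2 (So_br E.2 hx)
  have h1 := killing D.2 (hr D)
  have h2 := killing (φ D).2 (hr (φ D))
  have h3 : φ.conj ((ad (D : Matrix (Fin n) (Fin n) ℂ) ∘ₗ
      ad (D : Matrix (Fin n) (Fin n) ℂ)).restrict (hr D)) =
      (ad (φ D : Matrix (Fin n) (Fin n) ℂ) ∘ₗ
      ad (φ D : Matrix (Fin n) (Fin n) ℂ)).restrict (hr (φ D)) := by
    refine LinearMap.ext fun x => ?_
    obtain ⟨y, rfl⟩ := φ.surjective x
    rw [LinearEquiv.conj_apply, LinearMap.comp_apply, LinearMap.comp_apply,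
      LinearEquiv.coe_coe, LinearEquiv.coe_coe, LinearEquiv.symm_apply_apply]
    have h4 : (ad (D : Matrix (Fin n) (Fin n) ℂ) ∘ₗ
      ad (D : Matrix (Fin n) (Fin n) ℂ)).restrict (hr D) y = brS D (brS D y) := rfl
    have h5 : (ad (φ D : Matrix (Fin n) (Fin n) ℂ) ∘ₗ
      ad (φ D : Matrix (Fin n) (Fin n) ℂ)).restrict (hr (φ D)) (φ y) =
        brS (φ D) (brS (φ D) (φ y)) := rfl
    rw [h4, h5, hφ, hφ]
  rw [← h3, LinearMap.trace_conj', h1] at h2
  have h6 : (n : ℂ) - 2 ≠ 0 := by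
    intro h7
    have h8 : (n : ℂ) = (2 : ℕ) := by
      push_cast
      exact sub_eq_zero.1 h7
    have : n = 2 := by exact_mod_cast h8
    omega
  exact (mul_left_cancel₀ h6 h2).symm

/-- Isomorphisms preserve elements of rank two. -/
theorem iso_cube (hn : 3 ≤ n) (h8 : n ≠ 8) (φ : So n ≃ₗ[ℂ] So n)
    (hφ : ∀ D E, φ (brS D E) = brS (φ D) (φ E)) (u v : Fin n → ℂ) :
    (φ ⟨r2 u v, r2_mem u v⟩ : Matrix (Fin n) (Fin n) ℂ) *
      (φ ⟨r2 u v, r2_mem u v⟩ : Matrix (Fin n) (Fin n) ℂ) *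
      (φ ⟨r2 u v, r2_mem u v⟩ : Matrix (Fin n) (Fin n) ℂ) =
    -((u ⬝ᵥ u) * (v ⬝ᵥ v) - (u ⬝ᵥ v) * (u ⬝ᵥ v)) •
      (φ ⟨r2 u v, r2_mem u v⟩ : Matrix (Fin n) (Fin n) ℂ) := by
  have h1 := iso_trace hn φ hφ ⟨r2 u v, r2_mem u v⟩
  change _ = (r2 u v * r2 u v).trace at h1
  rw [r2_trace] at h1
  set c := (u ⬝ᵥ u) * (v ⬝ᵥ v) - (u ⬝ᵥ v) * (u ⬝ᵥ v) with hc
  have h2 : ∀ M ∈ So n, ad (φ ⟨r2 u v, r2_mem u v⟩ : Matrix (Fin n) (Fin n) ℂ)
      (ad (φ ⟨r2 u v, r2_mem u v⟩ : Matrix (Fin n) (Fin n) ℂ)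
      (ad (φ ⟨r2 u v, r2_mem u v⟩ : Matrix (Fin n) (Fin n) ℂ) M)) =
      -c • ad (φ ⟨r2 u v, r2_mem u v⟩ : Matrix (Fin n) (Fin n) ℂ) M := by
    intro M hM
    obtain ⟨y, hy⟩ := φ.surjective ⟨M, hM⟩
    have h3 : M = φ y := (congrArg Subtype.val hy).symm
    rw [h3, ← brS_val, ← brS_val, ← brS_val, ← hφ, ← hφ, ← hφ]
    have h4 : brS ⟨r2 u v, r2_mem u v⟩ (brS ⟨r2 u v, r2_mem u v⟩
        (brS ⟨r2 u v, r2_mem u v⟩ y)) = -c • brS ⟨r2 u v, r2_mem u v⟩ y :=
      Subtype.ext (r2_ad y.2 u v)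
    rw [h4, map_smul]
    rfl
  have h3 := contract (φ ⟨r2 u v, r2_mem u v⟩).2 h2
  rw [h1] at h3
  have h4 : (n : ℂ) - 8 ≠ 0 := by
    intro h7
    have h8' : (n : ℂ) = (8 : ℕ) := by
      push_cast
      exact sub_eq_zero.1 h7
    exact h8 (by exact_mod_cast h8')
  have h5 : -(c * ((n : ℂ) - 2) + 3 * (-2 * c)) = ((n : ℂ) - 8) * -c := by ring
  rw [h5, mul_smul] at h3
  exact smul_right_injective _ h4 h3

end auto

variable {N M : Type} [Fintype N] [DecidableEq N] [Nonempty N] [Fintype M] [DecidableEq M]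
  [Nonempty M] {n m : ℕ}
variable {Γ : Fin n → Matrix N N ℂ} {Δ : Fin m → Matrix M M ℂ}

/-- **The intertwiner.** -/
theorem intertwiner (h : Cl Γ) (h' : Cl Δ) (hn : 3 ≤ n) (hm : 3 ≤ m) (h8 : ¬(n = 8 ∧ m = 8))
    (φ : So n ≃ₗ[ℂ] So m) (hφ : ∀ D E, φ (brS D E) = brS (φ D) (φ E)) :
    ∃ X : Matrix M N ℂ, X ≠ 0 ∧ ∀ D : So n, qm Δ (φ D) * X = X * qm Γ D := by
  have hnm := size_eq hn hm φ
  subst hnm
  have h8 : n ≠ 8 := fun h => h8 ⟨h, h⟩
  set i0 : Fin n := ⟨0, by omega⟩ with hi0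
  let e : Fin n → (Fin n → ℂ) := fun s => Pi.single s 1
  let u : Fin n → ℂ := (2 : ℂ) • e i0
  let G : (Fin n → ℂ) → Matrix M M ℂ := fun v => qm Δ (φ ⟨r2 u v, r2_mem u v⟩)
  have hee : ∀ s t : Fin n, e s ⬝ᵥ e t = if s = t then 1 else 0 := by
    intro s t
    change (Pi.single s (1 : ℂ) : Fin n → ℂ) ⬝ᵥ Pi.single t 1 = _
    rw [single_dotProduct, one_mul, Pi.single_apply]
  have hu : ∀ v, u ⬝ᵥ v = 2 * (e i0 ⬝ᵥ v) := by
    intro v
    change ((2 : ℂ) • e i0) ⬝ᵥ v = _
    rw [smul_dotProduct, smul_eq_mul]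
  have huu : u ⬝ᵥ u = 4 := by
    rw [hu, dotProduct_comm, hu, hee, if_pos rfl]
    norm_num
  have hsq : ∀ v, u ⬝ᵥ v = 0 → v ⬝ᵥ v ≠ 0 → G v * G v = -(v ⬝ᵥ v) • (1 : Matrix M M ℂ) := by
    intro v hv hvv
    have h1 := h'.qm_sq (E := (φ ⟨r2 u v, r2_mem u v⟩ : Matrix (Fin n) (Fin n) ℂ))
      (φ ⟨r2 u v, r2_mem u v⟩).2
      (c := (u ⬝ᵥ u) * (v ⬝ᵥ v) - (u ⬝ᵥ v) * (u ⬝ᵥ v)) (by
        rw [hv, huu, mul_zero, sub_zero]
        exact mul_ne_zero (by norm_num) hvv) (iso_cube hn h8 φ hφ u v) (by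
        have h1 := iso_trace hn φ hφ ⟨r2 u v, r2_mem u v⟩
        rw [h1]
        exact r2_trace u v)
    rw [hv, huu, mul_zero, sub_zero] at h1
    change qm Δ _ * qm Δ _ = _
    rw [h1]
    congr 1
    ring
  have hGadd : ∀ v w, G (v + w) = G v + G w := by
    intro v w
    change qm Δ _ = qm Δ _ + qm Δ _
    rw [← map_add, ← Submodule.coe_add, ← map_add]
    congr 3
    refine Subtype.ext ?_
    change r2 u (v + w) = r2 u v + r2 u w
    rw [r2, r2, r2, Matrix.vecMulVec_add, Matrix.add_vecMulVec]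
    abel
  have hG1 : ∀ s, s ≠ i0 → G (e s) * G (e s) = -(1 : Matrix M M ℂ) := by
    intro s hs
    rw [hsq (e s) (by rw [hu, hee, if_neg (Ne.symm hs), mul_zero]) (by
      rw [hee, if_pos rfl]
      exact one_ne_zero), hee, if_pos rfl, neg_smul, one_smul]
  have hG2 : ∀ s t, s ≠ i0 → t ≠ i0 → s ≠ t → G (e s) * G (e t) = -(G (e t) * G (e s)) := by
    intro s t hs ht hst
    have h1 : (e s + e t) ⬝ᵥ (e s + e t) = 2 := by
      rw [add_dotProduct, dotProduct_add, dotProduct_add, hee, hee, hee, hee, if_pos rfl,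
        if_pos rfl, if_neg hst, if_neg (Ne.symm hst)]
      norm_num
    have h2 := hsq (e s + e t) (by
      rw [hu, dotProduct_add, hee, hee, if_neg (Ne.symm hs), if_neg (Ne.symm ht)]
      norm_num) (by
      rw [h1]
      norm_num)
    rw [h1, hGadd, Matrix.add_mul, Matrix.mul_add, Matrix.mul_add, hG1 s hs, hG1 t ht] at h2
    rw [eq_neg_iff_add_eq_zero]
    have h3 : G (e s) * G (e t) + G (e t) * G (e s) = (-(1 : Matrix M M ℂ) + G (e s) * G (e t) +
        (G (e t) * G (e s) + -1)) + (2 : ℂ) • (1 : Matrix M M ℂ) := by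
      rw [two_smul]
      abel
    rw [h3, h2, neg_smul, neg_add_cancel]
  -- the relations in the first system
  set g : Fin n → Matrix N N ℂ := fun s => Γ i0 * Γ s with hg
  have hg1 : ∀ s, s ≠ i0 → g s * g s = -(1 : Matrix N N ℂ) := by
    intro s hs
    calc Γ i0 * Γ s * (Γ i0 * Γ s) = Γ i0 * (Γ s * Γ i0) * Γ s := by simp only [Matrix.mul_assoc]
      _ = Γ i0 * -(Γ i0 * Γ s) * Γ s := by rw [h.anti' hs]
      _ = -((Γ i0 * Γ i0) * (Γ s * Γ s)) := by
        simp only [Matrix.mul_neg, Matrix.neg_mul, Matrix.mul_assoc]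
      _ = -1 := by rw [h.sq_one, h.sq_one, Matrix.one_mul]
  have hg3 : ∀ s t, s ≠ i0 → t ≠ i0 → g s * g t = -(Γ s * Γ t) := by
    intro s t hs ht
    calc Γ i0 * Γ s * (Γ i0 * Γ t) = Γ i0 * (Γ s * Γ i0) * Γ t := by simp only [Matrix.mul_assoc]
      _ = Γ i0 * -(Γ i0 * Γ s) * Γ t := by rw [h.anti' hs]
      _ = -((Γ i0 * Γ i0) * (Γ s * Γ t)) := by
        simp only [Matrix.mul_neg, Matrix.neg_mul, Matrix.mul_assoc]
      _ = -(Γ s * Γ t) := by rw [h.sq_one, Matrix.one_mul]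
  have hg2 : ∀ s t, s ≠ i0 → t ≠ i0 → s ≠ t → g s * g t = -(g t * g s) := by
    intro s t hs ht hst
    rw [hg3 s t hs ht, hg3 t s ht hs, h.anti' hst]
  have key : ∀ F : Finset (Fin n), i0 ∉ F → ∃ X : Matrix M N ℂ, X ≠ 0 ∧
      ∀ s ∈ F, G (e s) * X = X * g s := by
    intro F
    induction F using Finset.induction_on with
    | empty =>
      intro _
      obtain ⟨a⟩ := (inferInstance : Nonempty M)
      obtain ⟨b⟩ := (inferInstance : Nonempty N)
      refine ⟨Matrix.single a b 1, fun h0 => ?_, fun s hs => absurd hs (Finset.notMem_empty s)⟩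
      have h1 := congrFun (congrFun h0 a) b
      rw [Matrix.single_apply_same, Matrix.zero_apply] at h1
      exact one_ne_zero h1
    | insert t F ht ih =>
      intro hi
      have hti : t ≠ i0 := fun h => hi (h ▸ Finset.mem_insert_self t F)
      have hsi : ∀ s ∈ F, s ≠ i0 := fun s hs h => hi (h ▸ Finset.mem_insert_of_mem hs)
      have hst : ∀ s ∈ F, s ≠ t := fun s hs h => ht (h ▸ hs)
      obtain ⟨X, hX0, hX⟩ := ih fun h => hi (Finset.mem_insert_of_mem h)
      by_cases hY : X - G (e t) * X * g t = 0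
      · -- flip the sign
        have h1 : X = G (e t) * X * g t := sub_eq_zero.1 hY
        have h2 : G (e t) * X = -(X * g t) := by
          calc G (e t) * X = G (e t) * (G (e t) * X * g t) := by rw [← h1]
            _ = (G (e t) * G (e t)) * (X * g t) := by simp only [Matrix.mul_assoc]
            _ = -(X * g t) := by rw [hG1 t hti, Matrix.neg_mul, Matrix.one_mul]
        refine ⟨X * Γ t, fun h0 => hX0 ?_, fun s hs => ?_⟩
        · calc X = X * Γ t * Γ t := by rw [Matrix.mul_assoc, h.sq_one, Matrix.mul_one]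
            _ = 0 := by rw [h0, Matrix.zero_mul]
        · rcases Finset.mem_insert.1 hs with rfl | hs
          · calc G (e s) * (X * Γ s) = (G (e s) * X) * Γ s := (Matrix.mul_assoc _ _ _).symm
              _ = -(X * (Γ i0 * Γ s)) * Γ s := by rw [h2]
              _ = -(X * Γ i0 * (Γ s * Γ s)) := by
                rw [Matrix.neg_mul]
                simp only [Matrix.mul_assoc]
              _ = -(X * Γ i0) := by rw [h.sq_one, Matrix.mul_one]
              _ = X * (Γ s * (Γ i0 * Γ s)) := by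
                have h3 : Γ s * (Γ i0 * Γ s) = -Γ i0 := by
                  rw [← Matrix.mul_assoc, h.anti' hti, Matrix.neg_mul, Matrix.mul_assoc, h.sq_one,
                    Matrix.mul_one]
                rw [h3, Matrix.mul_neg]
              _ = X * Γ s * g s := (Matrix.mul_assoc _ _ _).symm
          · have h3 : Γ t * (Γ i0 * Γ s) = Γ i0 * Γ s * Γ t := by
              rw [← Matrix.mul_assoc, h.anti' hti, Matrix.neg_mul, Matrix.mul_assoc,
                h.anti' (hst s hs).symm, Matrix.mul_neg, neg_neg, Matrix.mul_assoc]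
            calc G (e s) * (X * Γ t) = (G (e s) * X) * Γ t := (Matrix.mul_assoc _ _ _).symm
              _ = X * (g s * Γ t) := by rw [hX s hs, Matrix.mul_assoc]
              _ = X * Γ t * g s := by
                rw [Matrix.mul_assoc X (Γ t)]
                exact congrArg (fun Z => X * Z) h3.symm
      · refine ⟨_, hY, fun s hs => ?_⟩
        rcases Finset.mem_insert.1 hs with rfl | hs
        · calc G (e s) * (X - G (e s) * X * g s)
            _ = G (e s) * X - (G (e s) * G (e s)) * X * g s := by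
              rw [Matrix.mul_sub]
              simp only [Matrix.mul_assoc]
            _ = X * g s - G (e s) * X * (g s * g s) := by
              rw [hG1 s hti, hg1 s hti]
              simp only [Matrix.neg_mul, Matrix.mul_neg, Matrix.one_mul, Matrix.mul_one,
                sub_neg_eq_add]
              abel
            _ = (X - G (e s) * X * g s) * g s := by
              rw [Matrix.sub_mul]
              simp only [Matrix.mul_assoc]
        · calc G (e s) * (X - G (e t) * X * g t)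
            _ = G (e s) * X - (G (e s) * G (e t)) * (X * g t) := by
              rw [Matrix.mul_sub]
              simp only [Matrix.mul_assoc]
            _ = X * g s + G (e t) * (G (e s) * X) * g t := by
              rw [hX s hs, hG2 s t (hsi s hs) hti (hst s hs), Matrix.neg_mul, sub_neg_eq_add,
                ← hX s hs]
              simp only [Matrix.mul_assoc]
            _ = X * g s + G (e t) * X * (g s * g t) := by
              rw [hX s hs]
              simp only [Matrix.mul_assoc]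
            _ = (X - G (e t) * X * g t) * g s := by
              rw [hg2 s t (hsi s hs) hti (hst s hs), Matrix.sub_mul, Matrix.mul_neg,
                ← sub_eq_add_neg]
              simp only [Matrix.mul_assoc]
  obtain ⟨X, hX0, hX⟩ := key (Finset.univ.erase i0) (Finset.notMem_erase _ _)
  refine ⟨X, hX0, ?_⟩
  -- the Lie algebra of all elements intertwined by X
  have hRi : ∀ s, qm Δ (φ ⟨Rr i0 s, Rr_mem i0 s⟩) * X = X * qm Γ (Rr i0 s) := by
    intro s
    by_cases hs : s = i0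
    · have h1 : (⟨Rr i0 s, Rr_mem i0 s⟩ : So n) = 0 := by
        refine Subtype.ext ?_
        change Rr i0 s = 0
        rw [hs, Rr, sub_self]
      have h2 : Rr i0 s = 0 := by rw [hs, Rr, sub_self]
      rw [h1, map_zero, Submodule.coe_zero, map_zero, h2, map_zero, Matrix.zero_mul,
        Matrix.mul_zero]
    · have h1 := hX s (Finset.mem_erase.2 ⟨hs, Finset.mem_univ _⟩)
      have h2 : (⟨r2 u (e s), r2_mem u (e s)⟩ : So n) = (2 : ℂ) • ⟨Rr i0 s, Rr_mem i0 s⟩ := by
        refine Subtype.ext ?_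
        change r2 ((2 : ℂ) • e i0) (e s) = (2 : ℂ) • Rr i0 s
        rw [Rr_eq, r2, r2, Matrix.smul_vecMulVec, Matrix.vecMulVec_smul, smul_sub]
      have h3 : G (e s) = (2 : ℂ) • qm Δ (φ ⟨Rr i0 s, Rr_mem i0 s⟩) := by
        change qm Δ (φ ⟨r2 u (e s), r2_mem u (e s)⟩) = _
        rw [h2, map_smul, Submodule.coe_smul, map_smul]
      have h4 : g s = (2 : ℂ) • qm Γ (Rr i0 s) := by
        rw [qm_Rr, smul_smul, hg]
        change Γ i0 * Γ s = _
        rw [h.anti' hs, sub_neg_eq_add, ← two_smul ℂ (Γ i0 * Γ s), smul_smul]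
        norm_num
      rw [h3, h4, Matrix.smul_mul, Matrix.mul_smul] at h1
      exact smul_right_injective _ (two_ne_zero' ℂ) h1
  have hbr : ∀ D E : So n, qm Δ (φ D) * X = X * qm Γ D → qm Δ (φ E) * X = X * qm Γ E →
      qm Δ (φ (brS D E)) * X = X * qm Γ (brS D E) := by
    intro D E h1 h2
    rw [hφ]
    have h3 : qm Δ (brS (φ D) (φ E) : Matrix (Fin n) (Fin n) ℂ) =
        qm Δ (φ D) * qm Δ (φ E) - qm Δ (φ E) * qm Δ (φ D) := h'.qm_br (φ D).2 (φ E).2
    have h4 : qm Γ (brS D E : Matrix (Fin n) (Fin n) ℂ) =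
        qm Γ D * qm Γ E - qm Γ E * qm Γ D := h.qm_br D.2 E.2
    rw [h3, h4, Matrix.sub_mul, Matrix.mul_sub, Matrix.mul_assoc, h2, ← Matrix.mul_assoc, h1,
      Matrix.mul_assoc (qm Δ (φ E)), h1, ← Matrix.mul_assoc (qm Δ (φ E)), h2]
    simp only [Matrix.mul_assoc]
  have hneg : ∀ D : So n, qm Δ (φ D) * X = X * qm Γ D →
      qm Δ (φ (-D)) * X = X * qm Γ (-D : So n) := by
    intro D h1
    rw [map_neg, Submodule.coe_neg, Submodule.coe_neg, map_neg, map_neg, Matrix.neg_mul,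
      Matrix.mul_neg, h1]
  have hR : ∀ a b, qm Δ (φ ⟨Rr a b, Rr_mem a b⟩) * X = X * qm Γ (Rr a b) := by
    intro a b
    by_cases ha : a = i0
    · rw [ha]
      exact hRi b
    by_cases hb : b = i0
    · rw [hb]
      have h1 : (⟨Rr a i0, Rr_mem a i0⟩ : So n) = -⟨Rr i0 a, Rr_mem i0 a⟩ :=
        Subtype.ext (Rr_neg i0 a)
      have h2 := hneg _ (hRi a)
      rw [← h1] at h2
      exact h2
    by_cases hab : a = b
    · have h1 : (⟨Rr a b, Rr_mem a b⟩ : So n) = 0 := by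
        refine Subtype.ext ?_
        change Rr a b = 0
        rw [hab, Rr, sub_self]
      have h2 : Rr a b = 0 := by rw [hab, Rr, sub_self]
      rw [h1, map_zero, Submodule.coe_zero, map_zero, h2, map_zero, Matrix.zero_mul,
        Matrix.mul_zero]
    · have h1 : (⟨Rr a b, Rr_mem a b⟩ : So n) =
          brS (-⟨Rr i0 a, Rr_mem i0 a⟩) ⟨Rr i0 b, Rr_mem i0 b⟩ := by
        refine Subtype.ext ?_
        change Rr a b = -(Rr i0 a) * Rr i0 b - Rr i0 b * -(Rr i0 a)
        rw [← Rr_neg i0 a]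
        exact (Rr_br ha (Ne.symm hb) hab).symm
      have h2 := hbr _ _ (hneg _ (hRi a)) (hRi b)
      rw [← h1] at h2
      exact h2
  intro D
  have h1 : D = ∑ i, ∑ j, ((D : Matrix (Fin n) (Fin n) ℂ) i j / 2) •
      (⟨Rr i j, Rr_mem i j⟩ : So n) := by
    refine Subtype.ext ?_
    simp only [Submodule.coe_sum, Submodule.coe_smul]
    exact So_sum D.2
  have h2 : qm Δ (φ D) = ∑ i, ∑ j, ((D : Matrix (Fin n) (Fin n) ℂ) i j / 2) •
      qm Δ (φ ⟨Rr i j, Rr_mem i j⟩) := by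
    conv_lhs => rw [h1]
    simp only [map_sum, map_smul, Submodule.coe_sum, Submodule.coe_smul]
  have h3 : qm Γ D = ∑ i, ∑ j, ((D : Matrix (Fin n) (Fin n) ℂ) i j / 2) •
      qm Γ (Rr i j) := by
    conv_lhs => rw [So_sum D.2]
    simp only [map_sum, map_smul]
  rw [h2, h3, Matrix.sum_mul, Matrix.mul_sum]
  refine Finset.sum_congr rfl fun i _ => ?_
  rw [Matrix.sum_mul, Matrix.mul_sum]
  refine Finset.sum_congr rfl fun j _ => ?_
  rw [Matrix.smul_mul, Matrix.mul_smul, hR]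

end Pool.Agent.TH164.Spin
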