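import Pool.Agent.TH164.Spin.Pr4

/-!
# Goursat's lemma for direct sums of spin representations
-/

set_option autoImplicit false
set_option linter.unusedSectionVars false
set_option linter.unusedVariables false

open Module Matrix

namespace Pool.Agent.TH164.Spin

namespace Cl

variable {N : Type} [Fintype N] [DecidableEq N] [Nonempty N] {n : ℕ}
variable {Γ : Fin n → Matrix N N ℂ}

/-- The Lie algebra is simple. -/
theorem la_simple (h : Cl Γ) (h3 : 3 ≤ n) (h4 : n ≠ 4) {U : Submodule ℂ (Matrix N N ℂ)}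
    (hU : U ≤ La Γ) (hi : ∀ X ∈ La Γ, ∀ Y ∈ U, X * Y - Y * X ∈ U) {Y : Matrix N N ℂ}
    (hY : Y ∈ U) (hY0 : Y ≠ 0) : La Γ ≤ U := by
  obtain ⟨D, hD, rfl⟩ := qm_surj (hU hY)
  have h1 := so_simple h3 h4 (U := So n ⊓ U.comap (qm Γ)) inf_le_left (by
    rintro E hE M ⟨hM, hM'⟩
    refine ⟨So_br hE hM, ?_⟩
    rw [SetLike.mem_coe, Submodule.mem_comap, h.qm_br hE hM]
    exact hi _ (qm_mem hE) _ hM') ⟨hD, hY⟩ (by
    rintro rfl
    exact hY0 (map_zero _))
  intro X hX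
  obtain ⟨E, hE, rfl⟩ := qm_surj hX
  exact (h1 hE).2

/-- The Lie algebra is not commutative. -/
theorem la_noncomm (h : Cl Γ) (h3 : 3 ≤ n) : ∃ X ∈ La Γ, ∃ Y ∈ La Γ, X * Y - Y * X ≠ 0 := by
  set i : Fin n := ⟨0, by omega⟩ with hi
  set j : Fin n := ⟨1, by omega⟩ with hj
  set k : Fin n := ⟨2, by omega⟩ with hk
  have hij : i ≠ j := by
    intro h0
    have := congrArg Fin.val h0
    simp [hi, hj] at this
  have hjk : j ≠ k := by
    intro h0
    have := congrArg Fin.val h0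
    simp [hk, hj] at this
  have hik : i ≠ k := by
    intro h0
    have := congrArg Fin.val h0
    simp [hi, hk] at this
  refine ⟨_, Submodule.subset_span ⟨_, gam_mem i, _, gam_mem j, rfl⟩, _,
    Submodule.subset_span ⟨_, gam_mem j, _, gam_mem k, rfl⟩, ?_⟩
  rw [h.triple hij hjk hik, h.anti' hik.symm, sub_neg_eq_add, ← two_smul ℂ (Γ i * Γ k), smul_smul]
  intro h0
  have h1 : Γ i * Γ k = 0 := (smul_eq_zero.1 h0).resolve_left (by norm_num)
  have h2 : (1 : Matrix N N ℂ) = 0 := by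
    calc (1 : Matrix N N ℂ) = Γ k * (Γ i * (Γ i * Γ k)) := by
          rw [← Matrix.mul_assoc (Γ i), h.sq_one, Matrix.one_mul, h.sq_one]
      _ = 0 := by rw [h1, Matrix.mul_zero, Matrix.mul_zero]
  exact one_ne_zero h2

end Cl

variable {J : Type} [Fintype J] [DecidableEq J] {n : J → ℕ} {N : J → Type}
  [∀ j, Fintype (N j)] [∀ j, DecidableEq (N j)] [∀ j, Nonempty (N j)]
variable {Γ : ∀ j, Fin (n j) → Matrix (N j) (N j) ℂ}

/-- **Goursat's lemma.** -/
theorem goursat (hcl : ∀ j, Cl (Γ j)) (h3 : ∀ j, 3 ≤ n j) (h4 : ∀ j, n j ≠ 4)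
    {l : Submodule ℂ (∀ j, Matrix (N j) (N j) ℂ)} (hle : ∀ x ∈ l, ∀ j, x j ∈ La (Γ j))
    (hbr : ∀ x ∈ l, ∀ y ∈ l, x * y - y * x ∈ l)
    (hsurj : ∀ j, ∀ X ∈ La (Γ j), ∃ x ∈ l, x j = X)
    (hno : ∀ i j, i ≠ j → ∃ x ∈ l, x i = 0 ∧ x j ≠ 0) :
    ∀ x : ∀ j, Matrix (N j) (N j) ℂ, (∀ j, x j ∈ La (Γ j)) → x ∈ l := by
  have hid : ∀ (j : J) (D : Finset J), (∃ x ∈ l, (∀ i ∈ D, x i = 0) ∧ x j ≠ 0) →
      ∀ X ∈ La (Γ j), ∃ x ∈ l, x j = X ∧ ∀ i ∈ D, x i = 0 := by
    rintro j D ⟨x, hx, hxD, hxj⟩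
    refine (hcl j).la_simple (h3 j) (h4 j) (U :=
      { carrier := {X | ∃ x ∈ l, x j = X ∧ ∀ i ∈ D, x i = 0}
        zero_mem' := ⟨0, l.zero_mem, rfl, fun i _ => rfl⟩
        add_mem' := by
          rintro _ _ ⟨x, hx, rfl, h1⟩ ⟨y, hy, rfl, h2⟩
          exact ⟨x + y, l.add_mem hx hy, rfl, fun i hi => by
            rw [Pi.add_apply, h1 i hi, h2 i hi, add_zero]⟩
        smul_mem' := by
          rintro c _ ⟨x, hx, rfl, h1⟩
          exact ⟨c • x, l.smul_mem c hx, rfl, fun i hi => by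
            rw [Pi.smul_apply, h1 i hi, smul_zero]⟩ }) ?_ ?_ ⟨x, hx, rfl, hxD⟩ hxj
    · rintro _ ⟨x, hx, rfl, -⟩
      exact hle x hx j
    · rintro X hX _ ⟨y, hy, rfl, h1⟩
      obtain ⟨x, hx, rfl⟩ := hsurj j X hX
      refine ⟨x * y - y * x, hbr x hx y hy, rfl, fun i hi => ?_⟩
      change x i * y i - y i * x i = 0
      rw [h1 i hi, Matrix.mul_zero, Matrix.zero_mul, sub_zero]
  have key : ∀ (j : J) (D : Finset J), j ∉ D → ∀ X ∈ La (Γ j), ∃ x ∈ l, x j = X ∧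
      ∀ i ∈ D, x i = 0 := by
    intro j D
    induction D using Finset.induction_on with
    | empty =>
      intro _ X hX
      obtain ⟨x, hx, hxj⟩ := hsurj j X hX
      exact ⟨x, hx, hxj, fun i hi => absurd hi (Finset.notMem_empty i)⟩
    | insert i D hiD ih =>
      intro hj
      have hij : i ≠ j := fun h => hj (h ▸ Finset.mem_insert_self i D)
      have hjD : j ∉ D := fun h => hj (Finset.mem_insert_of_mem h)
      refine hid j _ ?_
      obtain ⟨X, hX, Y, hY, hXY⟩ := (hcl j).la_noncomm (h3 j)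
      obtain ⟨x, hx, hxj, hxD⟩ := ih hjD X hX
      obtain ⟨z, hz, hzi, hzj⟩ := hno i j hij
      obtain ⟨y, hy, hyj, hyD⟩ := hid j {i} ⟨z, hz, fun i' hi' => by
        rw [Finset.mem_singleton.1 hi']
        exact hzi, hzj⟩ Y hY
      refine ⟨x * y - y * x, hbr x hx y hy, fun i' hi' => ?_, ?_⟩
      · change x i' * y i' - y i' * x i' = 0
        rcases Finset.mem_insert.1 hi' with rfl | hi'
        · rw [hyD _ (Finset.mem_singleton_self _), Matrix.mul_zero, Matrix.zero_mul, sub_zero]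
        · rw [hxD i' hi', Matrix.mul_zero, Matrix.zero_mul, sub_zero]
      · change x j * y j - y j * x j ≠ 0
        rw [hxj, hyj]
        exact hXY
  intro x hx
  have h1 : x = ∑ j, Pi.single j (x j) := (Finset.univ_sum_single x).symm
  rw [h1]
  refine Submodule.sum_mem _ fun j _ => ?_
  obtain ⟨y, hy, hyj, hyD⟩ := key j (Finset.univ.erase j) (Finset.notMem_erase _ _) (x j) (hx j)
  have h2 : Pi.single j (x j) = y := by
    funext i
    by_cases hij : i = j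
    · subst hij
      rw [Pi.single_eq_same, hyj]
    · rw [Pi.single_eq_of_ne hij, hyD i (Finset.mem_erase.2 ⟨hij, Finset.mem_univ _⟩)]
  rw [h2]
  exact hy

/-- **No graphs.** -/
theorem no_graph (hcl : ∀ j, Cl (Γ j)) (h3 : ∀ j, 3 ≤ n j) (h4 : ∀ j, n j ≠ 4)
    {l : Submodule ℂ (∀ j, Matrix (N j) (N j) ℂ)} (hle : ∀ x ∈ l, ∀ j, x j ∈ La (Γ j))
    (hbr : ∀ x ∈ l, ∀ y ∈ l, x * y - y * x ∈ l)
    (hsurj : ∀ j, ∀ X ∈ La (Γ j), ∃ x ∈ l, x j = X)
    (hone : ∀ j, Pi.single j (1 : Matrix (N j) (N j) ℂ) ∈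
      Algebra.adjoin ℂ (l : Set (∀ j, Matrix (N j) (N j) ℂ)))
    {i j : J} (hij : i ≠ j) (h8 : ¬(n i = 8 ∧ n j = 8)) : ∃ x ∈ l, x i = 0 ∧ x j ≠ 0 := by
  by_contra hcon
  push Not at hcon
  -- the other direction
  have hcon' : ∀ x ∈ l, x j = 0 → x i = 0 := by
    intro x hx hxj
    by_contra hxi
    have h1 : ∀ X ∈ La (Γ i), ∃ x ∈ l, x i = X ∧ x j = 0 := by
      refine (hcl i).la_simple (h3 i) (h4 i) (U :=
        { carrier := {X | ∃ x ∈ l, x i = X ∧ x j = 0}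
          zero_mem' := ⟨0, l.zero_mem, rfl, rfl⟩
          add_mem' := by
            rintro _ _ ⟨x, hx, rfl, h1⟩ ⟨y, hy, rfl, h2⟩
            exact ⟨x + y, l.add_mem hx hy, rfl, by rw [Pi.add_apply, h1, h2, add_zero]⟩
          smul_mem' := by
            rintro c _ ⟨x, hx, rfl, h1⟩
            exact ⟨c • x, l.smul_mem c hx, rfl, by rw [Pi.smul_apply, h1, smul_zero]⟩ })
        ?_ ?_ ⟨x, hx, rfl, hxj⟩ hxi
      · rintro _ ⟨x, hx, rfl, -⟩
        exact hle x hx i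
      · rintro X hX _ ⟨y, hy, rfl, h1⟩
        obtain ⟨x, hx, rfl⟩ := hsurj i X hX
        refine ⟨x * y - y * x, hbr x hx y hy, rfl, ?_⟩
        change x j * y j - y j * x j = 0
        rw [h1, Matrix.mul_zero, Matrix.zero_mul, sub_zero]
    obtain ⟨X, hX, Y, hY, hXY⟩ := (hcl j).la_noncomm (h3 j)
    obtain ⟨y, hy, rfl⟩ := hsurj j X hX
    obtain ⟨z, hz, hzi, hzj⟩ := h1 (y i) (hle y hy i)
    have h2 := hcon (y - z) (l.sub_mem hy hz) (by rw [Pi.sub_apply, hzi, sub_self])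
    rw [Pi.sub_apply, hzj, sub_zero] at h2
    apply hXY
    rw [h2, Matrix.zero_mul, Matrix.mul_zero, sub_zero]
  choose f hf1 hf2 using fun D : So (n i) => hsurj i (qm (Γ i) D) (qm_mem D.2)
  choose e he1 he2 using fun D : So (n i) => qm_surj (hle _ (hf1 D) j)
  have huni : ∀ x ∈ l, ∀ D : So (n i), x i = qm (Γ i) D → x j = qm (Γ j) (e D) := by
    intro x hx D hxD
    rw [he2, ← sub_eq_zero]
    have := hcon (x - f D) (l.sub_mem hx (hf1 D)) (by
      rw [Pi.sub_apply, hf2, hxD, sub_self])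
    exact this
  have hinj : ∀ E E' : Matrix (Fin (n j)) (Fin (n j)) ℂ, E ∈ So (n j) → E' ∈ So (n j) →
      qm (Γ j) E = qm (Γ j) E' → E = E' := by
    intro E E' hE hE' h1
    rw [← sub_eq_zero]
    refine (hcl j).qm_inj ((So (n j)).sub_mem hE hE') ?_
    rw [map_sub, h1, sub_self]
  let φ₀ : So (n i) →ₗ[ℂ] So (n j) :=
    { toFun := fun D => ⟨e D, he1 D⟩
      map_add' := by
        intro D D'
        refine Subtype.ext (hinj _ _ (he1 _) ((So (n j)).add_mem (he1 D) (he1 D')) ?_)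
        change qm (Γ j) (e (D + D')) = qm (Γ j) (e D + e D')
        rw [map_add, ← huni (f D + f D') (l.add_mem (hf1 D) (hf1 D')) (D + D') (by
          rw [Pi.add_apply, hf2, hf2, Submodule.coe_add, map_add]), Pi.add_apply, he2, he2]
      map_smul' := by
        intro c D
        refine Subtype.ext (hinj _ _ (he1 _) ((So (n j)).smul_mem c (he1 D)) ?_)
        change qm (Γ j) (e (c • D)) = qm (Γ j) (c • e D)
        rw [map_smul, ← huni (c • f D) (l.smul_mem c (hf1 D)) (c • D) (by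
          rw [Pi.smul_apply, hf2, Submodule.coe_smul, map_smul]), Pi.smul_apply, he2] }
  have hφv : ∀ D, (φ₀ D : Matrix (Fin (n j)) (Fin (n j)) ℂ) = e D := fun D => rfl
  have hbij : Function.Bijective φ₀ := by
    constructor
    · rw [injective_iff_map_eq_zero]
      intro D hD
      have h1 : e D = 0 := congrArg Subtype.val hD
      have h2 := hcon' (f D) (hf1 D) (by rw [← he2, h1, map_zero])
      rw [hf2] at h2
      exact Subtype.ext ((hcl i).qm_inj D.2 h2)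
    · intro E
      obtain ⟨x, hx, hxj⟩ := hsurj j (qm (Γ j) E) (qm_mem E.2)
      obtain ⟨D, hD, hDx⟩ := qm_surj (hle x hx i)
      refine ⟨⟨D, hD⟩, Subtype.ext (hinj _ _ (he1 _) E.2 ?_)⟩
      rw [← hxj]
      exact (huni x hx ⟨D, hD⟩ hDx.symm).symm
  let φ : So (n i) ≃ₗ[ℂ] So (n j) := LinearEquiv.ofBijective φ₀ hbij
  have hφ : ∀ D E, φ (brS D E) = brS (φ D) (φ E) := by
    intro D E
    refine Subtype.ext (hinj _ _ (he1 _) (So_br (he1 D) (he1 E)) ?_)
    have h1 := huni (f D * f E - f E * f D) (hbr _ (hf1 D) _ (hf1 E)) (brS D E) (by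
      change f D i * f E i - f E i * f D i = qm (Γ i) (brS D E : Matrix _ _ ℂ)
      rw [hf2, hf2]
      exact ((hcl i).qm_br D.2 E.2).symm)
    change f D j * f E j - f E j * f D j = _ at h1
    change qm (Γ j) (e (brS D E)) = qm (Γ j) (e D * e E - e E * e D)
    rw [← h1, (hcl j).qm_br (he1 D) (he1 E), he2, he2]
  obtain ⟨X, hX0, hX⟩ := intertwiner (hcl i) (hcl j) (h3 i) (h3 j) h8 φ hφ
  have hall : ∀ x ∈ l, x j * X = X * x i := by
    intro x hx
    obtain ⟨D, hD, hDx⟩ := qm_surj (hle x hx i)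
    have h1 := hX ⟨D, hD⟩
    have h2 := huni x hx ⟨D, hD⟩ hDx.symm
    rw [h2, ← hDx]
    exact h1
  have hadj : ∀ a ∈ Algebra.adjoin ℂ (l : Set (∀ j, Matrix (N j) (N j) ℂ)),
      a j * X = X * a i := by
    intro a ha
    induction ha using Algebra.adjoin_induction with
    | mem x hx => exact hall x hx
    | algebraMap r =>
      rw [Pi.algebraMap_apply, Pi.algebraMap_apply, Algebra.algebraMap_eq_smul_one,
        Algebra.algebraMap_eq_smul_one, Matrix.smul_mul, Matrix.mul_smul, Matrix.one_mul,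
        Matrix.mul_one]
    | add x y _ _ hx hy =>
      rw [Pi.add_apply, Pi.add_apply, Matrix.add_mul, Matrix.mul_add, hx, hy]
    | mul x y _ _ hx hy =>
      rw [Pi.mul_apply, Pi.mul_apply, Matrix.mul_assoc, hy, ← Matrix.mul_assoc, hx,
        Matrix.mul_assoc]
  have h1 := hadj _ (hone j)
  rw [Pi.single_eq_same, Pi.single_eq_of_ne hij, Matrix.one_mul, Matrix.mul_zero] at h1
  exact hX0 h1

/-- **The classification for direct sums of spin representations.** -/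
theorem spinP (hcl : ∀ j, Cl (Γ j)) (h3 : ∀ j, 3 ≤ n j) (h4 : ∀ j, n j ≠ 4) (h5 : ∀ j, n j ≠ 5)
    (h8 : ∀ i j, i ≠ j → ¬(n i = 8 ∧ n j = 8))
    {l : Submodule ℂ (∀ j, Matrix (N j) (N j) ℂ)} (hle : ∀ x ∈ l, ∀ j, x j ∈ La (Γ j))
    (hbr : ∀ x ∈ l, ∀ y ∈ l, x * y - y * x ∈ l)
    (halg : ∀ j, ∀ X ∈ Ev (Γ j), Pi.single j X ∈
      Algebra.adjoin ℂ (l : Set (∀ j, Matrix (N j) (N j) ℂ))) :
    ∀ x : ∀ j, Matrix (N j) (N j) ℂ, (∀ j, x j ∈ La (Γ j)) → x ∈ l := by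
  have hsurj : ∀ j, ∀ X ∈ La (Γ j), ∃ x ∈ l, x j = X := by
    intro j X hX
    have h1 := (hcl j).spinAll (h3 j) (h5 j) (l := l.map (LinearMap.proj j)) (by
      rintro _ ⟨x, hx, rfl⟩ _ ⟨y, hy, rfl⟩
      exact ⟨x * y - y * x, hbr x hx y hy, rfl⟩) (by
      rintro _ ⟨x, hx, rfl⟩
      exact hle x hx j) (by
      intro Y hY
      have h2 : Algebra.adjoin ℂ (l : Set (∀ j, Matrix (N j) (N j) ℂ)) ≤
          (Algebra.adjoin ℂ ((l.map (LinearMap.proj j) : Submodule ℂ (Matrix (N j) (N j) ℂ)) :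
            Set (Matrix (N j) (N j) ℂ))).comap
            (Pi.evalAlgHom ℂ (fun j => Matrix (N j) (N j) ℂ) j) := by
        refine Algebra.adjoin_le fun x hx => ?_
        exact Algebra.subset_adjoin ⟨x, hx, rfl⟩
      have h6 := h2 (halg j Y hY)
      rw [Subalgebra.mem_comap, Pi.evalAlgHom_apply, Pi.single_eq_same] at h6
      exact h6)
    obtain ⟨x, hx, hxX⟩ := h1 hX
    exact ⟨x, hx, hxX⟩
  exact goursat hcl h3 h4 hle hbr hsurj fun i j hij =>
    no_graph hcl h3 h4 hle hbr hsurj (fun j => halg j 1 (Subalgebra.one_mem _)) hij (h8 i j hij)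

end Pool.Agent.TH164.Spin
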