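import Pool.Agent.TH164.Spin.Pr5

/-!
# Direct sums of spin representations: the stabilizer
-/

set_option autoImplicit false
set_option linter.unusedSectionVars false
set_option linter.unusedVariables false

open Module Matrix

namespace Pool.Agent.TH164.Spin

open Pool.Agent.TH119.MX Pool.Agent.TH119.DR Pool.Agent.TH164.A1

variable {J : Type} [Fintype J] [DecidableEq J] {n : J → ℕ} {N : J → Type}
  [∀ j, Fintype (N j)] [∀ j, DecidableEq (N j)]

/-- Block diagonal matrices. -/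
def bd : (∀ j, Matrix (N j) (N j) ℂ) →ₐ[ℂ] Matrix (Σ j, N j) (Σ j, N j) ℂ :=
  { Matrix.blockDiagonal'RingHom N ℂ with
    commutes' := by
      intro r
      rw [Algebra.algebraMap_eq_smul_one, Algebra.algebraMap_eq_smul_one]
      change Matrix.blockDiagonal' (r • (1 : ∀ j, Matrix (N j) (N j) ℂ)) = r • 1
      rw [Matrix.blockDiagonal'_smul, Matrix.blockDiagonal'_one] }

theorem bd_apply (x : ∀ j, Matrix (N j) (N j) ℂ) : bd x = Matrix.blockDiagonal' x := rfl

theorem bd_inj {x y : ∀ j, Matrix (N j) (N j) ℂ} (h : bd x = bd y) : x = y :=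
  Matrix.blockDiagonal'_injective h

theorem bd_map (δ : Derivation ℚ ℂ ℂ) (x : ∀ j, Matrix (N j) (N j) ℂ) :
    (bd x).map δ = bd fun j => (x j).map δ :=
  Matrix.blockDiagonal'_map x δ (map_zero δ)

theorem bd_trace (x : ∀ j, Matrix (N j) (N j) ℂ) : (bd x).trace = ∑ j, (x j).trace :=
  Matrix.trace_blockDiagonal' x

theorem bd_sum (W : (Σ j, N j) × (Σ j, N j) → ℂ) (x : ∀ j, Matrix (N j) (N j) ℂ) :
    ∑ p : (Σ j, N j) × (Σ j, N j), W p * bd x p.1 p.2 =
      ∑ j, ∑ a, ∑ b, W (⟨j, a⟩, ⟨j, b⟩) * x j a b := by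
  rw [Fintype.sum_prod_type, Fintype.sum_sigma]
  refine Finset.sum_congr rfl fun j _ => Finset.sum_congr rfl fun a _ => ?_
  rw [Fintype.sum_sigma, Finset.sum_eq_single j]
  · refine Finset.sum_congr rfl fun b _ => ?_
    rw [bd_apply, Matrix.blockDiagonal'_apply_eq]
  · intro i _ hij
    refine Finset.sum_eq_zero fun b _ => ?_
    rw [bd_apply, Matrix.blockDiagonal'_apply_ne _ _ _ (Ne.symm hij), mul_zero]
  · intro hj
    exact absurd (Finset.mem_univ _) hj

variable [∀ j, Nonempty (N j)] [Nonempty J]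
variable {Γ : ∀ j, Fin (n j) → Matrix (N j) (N j) ℂ}
variable {H : Set (Matrix (Σ j, N j) (Σ j, N j) ℂ)}

/-- The algebra of block diagonal matrices. -/
def Eb (Γ : ∀ j, Fin (n j) → Matrix (N j) (N j) ℂ) :
    Subalgebra ℂ (Matrix (Σ j, N j) (Σ j, N j) ℂ) where
  carrier := {X | ∃ x : ∀ j, Matrix (N j) (N j) ℂ, (∀ j, x j ∈ Ev (Γ j)) ∧ X = bd x}
  mul_mem' := by
    rintro _ _ ⟨x, hx, rfl⟩ ⟨y, hy, rfl⟩
    exact ⟨x * y, fun j => Subalgebra.mul_mem _ (hx j) (hy j), (map_mul bd x y).symm⟩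
  add_mem' := by
    rintro _ _ ⟨x, hx, rfl⟩ ⟨y, hy, rfl⟩
    exact ⟨x + y, fun j => Subalgebra.add_mem _ (hx j) (hy j), (map_add bd x y).symm⟩
  algebraMap_mem' := by
    intro r
    exact ⟨algebraMap ℂ _ r, fun j => Subalgebra.algebraMap_mem _ r, (AlgHom.commutes bd r).symm⟩

/-- The stabilizer inside the Lie algebra of the group. -/
def Hb (Γ : ∀ j, Fin (n j) → Matrix (N j) (N j) ℂ) (H : Set (Matrix (Σ j, N j) (Σ j, N j) ℂ))
    (d : ℕ) : Submodule ℂ (Matrix (Σ j, N j) (Σ j, N j) ℂ) where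
  carrier := {X | (∃ y : ∀ j, Matrix (N j) (N j) ℂ, (∀ j, y j ∈ La (Γ j)) ∧
    ∃ c : ℂ, X = bd y + c • 1) ∧ Stab H d X}
  zero_mem' := ⟨⟨0, fun j => Submodule.zero_mem _, 0, by
    rw [map_zero, zero_smul, add_zero]⟩, Stab.zero⟩
  add_mem' := by
    rintro _ _ ⟨⟨x, hx, c, rfl⟩, h1⟩ ⟨⟨y, hy, c', rfl⟩, h2⟩
    refine ⟨⟨x + y, fun j => Submodule.add_mem _ (hx j) (hy j), c + c', ?_⟩, h1.add h2⟩
    rw [map_add, add_smul]
    abel
  smul_mem' := by
    rintro a _ ⟨⟨x, hx, c, rfl⟩, h1⟩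
    refine ⟨⟨a • x, fun j => Submodule.smul_mem _ _ (hx j), a * c, ?_⟩, h1.smul a⟩
    rw [map_smul, smul_add, smul_smul]

theorem la_der {N : Type} [Fintype N] [DecidableEq N] [Nonempty N] {n : ℕ}
    {Γ : Fin n → Matrix N N ℂ} (hΓ : ∀ i a b, IsAlgebraic ℚ (Γ i a b)) (δ : Derivation ℚ ℂ ℂ)
    {X : Matrix N N ℂ} (hX : X ∈ La Γ) : X.map δ ∈ La Γ := by
  have hadd : ∀ A B : Matrix N N ℂ, (A + B).map δ = A.map δ + B.map δ := by
    intro A B
    ext i j
    exact map_add δ _ _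
  have hsub : ∀ A B : Matrix N N ℂ, (A - B).map δ = A.map δ - B.map δ := by
    intro A B
    ext i j
    exact map_sub δ _ _
  induction hX using Submodule.span_induction with
  | mem y hy =>
    obtain ⟨t, ht, s, hs, rfl⟩ := hy
    have h1 := map_Ts hΓ δ ht
    have h2 := map_Ts hΓ δ hs
    have h3 : (t * s - s * t).map δ = (t.map δ * s - s * t.map δ) +
        (t * s.map δ - s.map δ * t) := by
      rw [hsub, map_mul_der, map_mul_der]
      abel
    rw [h3]
    exact Submodule.add_mem _ (Submodule.subset_span ⟨_, h1, _, hs, rfl⟩)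
      (Submodule.subset_span ⟨_, ht, _, h2, rfl⟩)
  | zero =>
    have h1 : (0 : Matrix N N ℂ).map δ = 0 := by
      ext i j
      exact map_zero δ
    rw [h1]
    exact Submodule.zero_mem _
  | add a b _ _ ha hb =>
    rw [hadd]
    exact Submodule.add_mem _ ha hb
  | smul c a ha' ha =>
    rw [map_smul_der]
    exact Submodule.add_mem _ (Submodule.smul_mem _ _ ha') (Submodule.smul_mem _ _ ha)

/-- **The stabilizer is everything.** -/
theorem stabP (hcl : ∀ j, Cl (Γ j)) (h3 : ∀ j, 3 ≤ n j) (h4 : ∀ j, n j ≠ 4) (h5 : ∀ j, n j ≠ 5)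
    (h8 : ∀ i j, i ≠ j → ¬(n i = 8 ∧ n j = 8)) (hH : AlgGrp QA H)
    (hΓ : ∀ j i a b, IsAlgebraic ℚ (Γ j i a b)) {P P' : Matrix (Σ j, N j) (Σ j, N j) ℂ}
    (hP : P * P' = 1) (hP' : P' * P = 1)
    (hder : ∀ δ : Derivation ℚ ℂ ℂ, ∃ y : ∀ j, Matrix (N j) (N j) ℂ, (∀ j, y j ∈ La (Γ j)) ∧
      ∃ c : ℂ, P.map δ * P' = bd y + c • 1)
    (hPE : P ∈ Eb Γ) {B B' : Matrix (Σ j, N j) (Σ j, N j) ℂ}
    (hB : B * B' = 1) (hBa : ∀ i j, B' i j ∈ QA) (hPB : P * B ∈ H)
    (hW : ∀ B : ∀ j, Matrix (N j) (N j) ℂ, (∀ j a b, IsAlgebraic ℚ (B j a b)) →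
      ∑ j, ∑ a, ∑ b, B j a b * P ⟨j, a⟩ ⟨j, b⟩ = 0 →
      ∀ j, ∀ x ∈ Ev (Γ j), ∑ a, ∑ b, B j a b * x a b = 0)
    (hdet : ¬ IsAlgebraic ℚ P.det) (d : ℕ) :
    (∀ j, ∀ Z ∈ La (Γ j), Stab H d (bd (Pi.single j Z))) ∧
      Stab H d (1 : Matrix (Σ j, N j) (Σ j, N j) ℂ) := by
  have hst : ∀ δ : Derivation ℚ ℂ ℂ, Stab H d (P.map δ * P') := fun δ =>
    hH.stab_der le_rfl (fun x hx => mem_QA.1 hx) hP hP' hB hBa hPB δ
  have hgen := adjoin_ge (Eb Γ) (Hb Γ H d) (A := 1) (A' := 1) hP hP' (by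
      rintro δ _ ⟨x, hx, rfl⟩
      exact ⟨_, fun j => Ev_der (hΓ j) δ (hx j), bd_map δ x⟩) (by
      rintro δ X ⟨⟨y, hy, c, hXy⟩, h2⟩
      refine ⟨⟨fun j => (y j).map δ, fun j => la_der (hΓ j) δ (hy j), δ c, ?_⟩,
        hH.stab_map (derK δ QA fun x hx => mem_QA.1 hx) h2⟩
      have hadd : ∀ A B : Matrix (Σ j, N j) (Σ j, N j) ℂ, (A + B).map δ = A.map δ + B.map δ := by
        intro A B
        ext i j
        exact map_add δ _ _
      rw [hXy, hadd, bd_map, map_smul_der, map_one_der, smul_zero, add_zero]) (by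
      rintro X ⟨⟨y, hy, c, rfl⟩, -⟩
      refine Subalgebra.add_mem _ ⟨y, fun j => La_le_Ev (hy j), rfl⟩ ?_
      exact Subalgebra.smul_mem _ (Subalgebra.one_mem _) _)
    (fun δ => ⟨hder δ, hst δ⟩) (Matrix.one_mul 1) (by
      intro i j
      rw [Matrix.one_apply]
      split_ifs
      · exact isAlgebraic_one
      · exact isAlgebraic_zero) (by rwa [Matrix.mul_one]) (by
      rintro W hWa h1 _ ⟨x, hx, rfl⟩
      rw [Matrix.mul_one]
      obtain ⟨p, hp, hPp⟩ := hPE
      have h2 := bd_sum (fun q => W q.1 q.2) x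
      rw [h2]
      have h6 := hW (fun j => Matrix.of fun a b => W ⟨j, a⟩ ⟨j, b⟩) (fun j a b => hWa _ _) (by
        rw [hPp, bd_sum (fun q => W q.1 q.2) p] at h1
        rw [← h1, hPp]
        refine Finset.sum_congr rfl fun j _ => Finset.sum_congr rfl fun a _ =>
          Finset.sum_congr rfl fun b _ => ?_
        rw [bd_apply, Matrix.blockDiagonal'_apply_eq, Matrix.of_apply])
      exact Finset.sum_eq_zero fun j _ => h6 j (x j) (hx j))
  set l : Submodule ℂ (∀ j, Matrix (N j) (N j) ℂ) :=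
    { carrier := {y | (∀ j, y j ∈ La (Γ j)) ∧ ∃ c : ℂ, Stab H d (bd y + c • 1)}
      zero_mem' := ⟨fun j => Submodule.zero_mem _, 0, by
        rw [map_zero, zero_smul, add_zero]
        exact Stab.zero⟩
      add_mem' := by
        rintro x y ⟨h1, c, h2⟩ ⟨h6, c', h7⟩
        refine ⟨fun j => Submodule.add_mem _ (h1 j) (h6 j), c + c', ?_⟩
        have h8 : bd (x + y) + (c + c') • (1 : Matrix (Σ j, N j) (Σ j, N j) ℂ) =
            (bd x + c • 1) + (bd y + c' • 1) := by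
          rw [map_add, add_smul]
          abel
        rw [h8]
        exact h2.add h7
      smul_mem' := by
        rintro a x ⟨h1, c, h2⟩
        refine ⟨fun j => Submodule.smul_mem _ _ (h1 j), a * c, ?_⟩
        have h8 : bd (a • x) + (a * c) • (1 : Matrix (Σ j, N j) (Σ j, N j) ℂ) =
            a • (bd x + c • 1) := by
          rw [map_smul, smul_add, smul_smul]
        rw [h8]
        exact h2.smul a } with hl
  have hbr : ∀ (x y : ∀ j, Matrix (N j) (N j) ℂ) (c c' : ℂ),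
      (bd x + c • (1 : Matrix (Σ j, N j) (Σ j, N j) ℂ)) * (bd y + c' • 1) -
        (bd y + c' • (1 : Matrix (Σ j, N j) (Σ j, N j) ℂ)) * (bd x + c • 1) =
        bd (x * y - y * x) := by
    intro x y c c'
    rw [map_sub, map_mul, map_mul]
    simp only [Matrix.add_mul, Matrix.mul_add, Matrix.smul_mul, Matrix.mul_smul, Matrix.one_mul,
      Matrix.mul_one]
    module
  have hall := spinP hcl h3 h4 h5 h8 (l := l) (fun x hx => hx.1) (by
    rintro x ⟨h1, c, h2⟩ y ⟨h6, c', h7⟩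
    refine ⟨fun j => (hcl j).la_br (h1 j) (h6 j), 0, ?_⟩
    rw [zero_smul, add_zero, ← hbr x y c c']
    exact h2.comm h7) (by
    intro j X hX
    have h1 : Algebra.adjoin ℂ (Hb Γ H d : Set (Matrix (Σ j, N j) (Σ j, N j) ℂ)) ≤
        (Algebra.adjoin ℂ (l : Set (∀ j, Matrix (N j) (N j) ℂ))).map bd := by
      refine Algebra.adjoin_le ?_
      rintro _ ⟨⟨y, hy, c, rfl⟩, h2⟩
      refine ⟨y + c • 1, ?_, ?_⟩
      · exact Subalgebra.add_mem _ (Algebra.subset_adjoin ⟨hy, c, h2⟩)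
          (Subalgebra.smul_mem _ (Subalgebra.one_mem _) _)
      · change bd (y + c • 1) = _
        rw [map_add, map_smul, map_one]
    have h2 : bd (Pi.single j X) ∈ Eb Γ := by
      refine ⟨Pi.single j X, fun i => ?_, rfl⟩
      by_cases hij : i = j
      · subst hij
        rw [Pi.single_eq_same]
        exact hX
      · rw [Pi.single_eq_of_ne hij]
        exact Subalgebra.zero_mem _
    obtain ⟨z, hz, hzX⟩ := h1 (hgen h2)
    have h6 : z = Pi.single j X := bd_inj hzX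
    rw [← h6]
    exact hz)
  have hLa : ∀ j, ∀ Z ∈ La (Γ j), Stab H d (bd (Pi.single j Z)) := by
    intro j
    have hsing : ∀ Z ∈ La (Γ j), ∃ c : ℂ, Stab H d (bd (Pi.single j Z) + c • 1) := by
      intro Z hZ
      exact (hall (Pi.single j Z) (fun i => by
        by_cases hij : i = j
        · subst hij
          rw [Pi.single_eq_same]
          exact hZ
        · rw [Pi.single_eq_of_ne hij]
          exact Submodule.zero_mem _)).2
    have hbs : ∀ X ∈ La (Γ j), ∀ Z ∈ La (Γ j), Stab H d (bd (Pi.single j (X * Z - Z * X))) := by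
      intro X hX Z hZ
      obtain ⟨c, hc⟩ := hsing X hX
      obtain ⟨c', hc'⟩ := hsing Z hZ
      have h1 := hc.comm hc'
      rw [hbr] at h1
      have h2 : (Pi.single j X * Pi.single j Z - Pi.single j Z * Pi.single j X :
          ∀ j, Matrix (N j) (N j) ℂ) = Pi.single j (X * Z - Z * X) := by
        rw [Pi.single_sub, Pi.single_mul, Pi.single_mul]
      rwa [h2] at h1
    obtain ⟨X, hX, Z, hZ, hXZ⟩ := (hcl j).la_noncomm (h3 j)
    have hs := (hcl j).la_simple (h3 j) (h4 j) (Y := X * Z - Z * X) (U :=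
      { carrier := {Z | Z ∈ La (Γ j) ∧ Stab H d (bd (Pi.single j Z))}
        zero_mem' := ⟨Submodule.zero_mem _, by
          rw [Pi.single_zero, map_zero]
          exact Stab.zero⟩
        add_mem' := by
          rintro X Z ⟨h1, h2⟩ ⟨h6, h7⟩
          refine ⟨Submodule.add_mem _ h1 h6, ?_⟩
          rw [Pi.single_add, map_add]
          exact h2.add h7
        smul_mem' := by
          rintro c X ⟨h1, h2⟩
          refine ⟨Submodule.smul_mem _ _ h1, ?_⟩
          rw [Pi.single_smul, map_smul]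
          exact h2.smul c })
      (fun Z hZ => hZ.1) (by
        rintro X hX Z ⟨hZ, -⟩
        exact ⟨(hcl j).la_br hX hZ, hbs X hX Z hZ⟩)
      ⟨(hcl j).la_br hX hZ, hbs X hX Z hZ⟩ hXZ
    intro W hW'
    exact (hs hW').2
  refine ⟨hLa, ?_⟩
  obtain ⟨δ, hδ⟩ := exists_deriv hdet
  obtain ⟨y, hy, c, hc⟩ := hder δ
  have hsy : Stab H d (bd y) := by
    have h1 : bd y = ∑ j, bd (Pi.single j (y j)) := by
      rw [← map_sum, Finset.univ_sum_single]
    rw [h1]
    have h2 : ∀ s : Finset J, Stab H d (∑ j ∈ s, bd (Pi.single j (y j))) := by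
      intro s
      induction s using Finset.induction_on with
      | empty =>
        rw [Finset.sum_empty]
        exact Stab.zero
      | insert j s hj ih =>
        rw [Finset.sum_insert hj]
        exact (hLa j _ (hy j)).add ih
    exact h2 Finset.univ
  have h8' := der_det' δ hP
  have htr : (bd y).trace = 0 := by
    rw [bd_trace]
    exact Finset.sum_eq_zero fun j _ => Cl.la_trace (hy j)
  rw [hc, Matrix.trace_add, htr, zero_add, Matrix.trace_smul, smul_eq_mul] at h8'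
  have hc0 : c ≠ 0 := by
    rintro rfl
    rw [zero_mul, mul_zero] at h8'
    exact hδ h8'
  have h9 := (hst δ).add (hsy.smul (-1))
  rw [hc] at h9
  have h10 : bd y + c • (1 : Matrix (Σ j, N j) (Σ j, N j) ℂ) + (-1 : ℂ) • bd y = c • 1 := by
    rw [neg_one_smul]
    abel
  rw [h10] at h9
  have h11 := h9.smul c⁻¹
  rwa [smul_smul, inv_mul_cancel₀ hc0, one_smul] at h11

end Pool.Agent.TH164.Spin
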