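import Pool.Agent.TH164.Spin.Pr6

/-!
# Direct sums of spin representations: the group
-/

set_option autoImplicit false
set_option linter.unusedSectionVars false
set_option linter.unusedVariables false

open Module Matrix

namespace Pool.Agent.TH164.Spin

open Pool.Agent.TH119.MX Pool.Agent.TH119.DR Pool.Agent.TH164.A1

section one

variable {N : Type} [Fintype N] [DecidableEq N] [Nonempty N] {n : ℕ}
variable {Γ : Fin n → Matrix N N ℂ}

/-- The spin group. -/
def SpG (Γ : Fin n → Matrix N N ℂ) : Subgroup (GL N ℂ) :=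
  Subgroup.closure {g | ∃ t ∈ Ts Γ, ∃ s ∈ Ts Γ, t * t = 1 ∧ s * s = 1 ∧ g.val = t * s}

theorem sq_bq (h : Cl Γ) {t : Matrix N N ℂ} (ht : t ∈ Ts Γ) : t * t = 1 ↔ bq t t = 1 := by
  rw [h.sq_vec ht]
  constructor
  · intro h1
    have h2 : (bq t t - 1) • (1 : Matrix N N ℂ) = 0 := by rw [sub_smul, h1, one_smul, sub_self]
    exact sub_eq_zero.1 ((smul_eq_zero.1 h2).resolve_right one_ne_zero)
  · intro h1
    rw [h1, one_smul]

/-- The properties of the elements of the spin group. -/
def QS (Γ : Fin n → Matrix N N ℂ) (g g' : Matrix N N ℂ) : Prop :=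
  (∀ X ∈ La Γ, g * X * g' ∈ La Γ) ∧ (∀ δ : Derivation ℚ ℂ ℂ, g.map δ * g' ∈ La Γ) ∧ g ∈ Ev Γ

theorem vec_der (h : Cl Γ) (hΓ : ∀ i a b, IsAlgebraic ℚ (Γ i a b)) {t : Matrix N N ℂ}
    (ht : t ∈ Ts Γ) (htt : t * t = 1) (δ : Derivation ℚ ℂ ℂ) : t.map δ * t ∈ La Γ := by
  have h1 := congrArg (fun X : Matrix N N ℂ => X.map δ) htt
  change (t * t).map δ = (1 : Matrix N N ℂ).map δ at h1
  rw [map_mul_der, map_one_der] at h1
  have h2 : t.map δ * t = (1 / 2 : ℂ) • (t.map δ * t - t * t.map δ) := by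
    have h3 : t * t.map δ = -(t.map δ * t) := by
      rw [add_comm] at h1
      exact eq_neg_of_add_eq_zero_left h1
    rw [h3, sub_neg_eq_add, ← two_smul ℂ (t.map δ * t), smul_smul]
    norm_num
  rw [h2]
  exact Submodule.smul_mem _ _ (Submodule.subset_span ⟨_, map_Ts hΓ δ ht, _, ht, rfl⟩)

theorem vec_conj (h : Cl Γ) {t : Matrix N N ℂ} (ht : t ∈ Ts Γ) (htt : t * t = 1)
    {X : Matrix N N ℂ} (hX : X ∈ La Γ) : t * X * t ∈ La Γ := by
  induction hX using Submodule.span_induction with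
  | mem y hy =>
    obtain ⟨a, ha, b, hb, rfl⟩ := hy
    have h1 : t * (a * b - b * a) * t = (t * a * t) * (t * b * t) - (t * b * t) * (t * a * t) := by
      have e1 : ∀ a b : Matrix N N ℂ, (t * a * t) * (t * b * t) = t * (a * b) * t := by
        intro a b
        calc (t * a * t) * (t * b * t) = t * a * (t * t) * b * t := by
              simp only [Matrix.mul_assoc]
          _ = t * (a * b) * t := by
            rw [htt, Matrix.mul_one]
            simp only [Matrix.mul_assoc]
      rw [e1, e1, Matrix.mul_sub, Matrix.sub_mul]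
    rw [h1]
    exact Submodule.subset_span ⟨_, h.tst ht ha, _, h.tst ht hb, rfl⟩
  | zero =>
    rw [Matrix.mul_zero, Matrix.zero_mul]
    exact Submodule.zero_mem _
  | add a b _ _ ha hb =>
    rw [Matrix.mul_add, Matrix.add_mul]
    exact Submodule.add_mem _ ha hb
  | smul c a _ ha =>
    rw [Matrix.mul_smul, Matrix.smul_mul]
    exact Submodule.smul_mem _ _ ha

theorem QS_two (h : Cl Γ) (hΓ : ∀ i a b, IsAlgebraic ℚ (Γ i a b)) {t s : Matrix N N ℂ}
    (ht : t ∈ Ts Γ) (hs : s ∈ Ts Γ) (htt : t * t = 1) (hss : s * s = 1) :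
    QS Γ (t * s) (s * t) := by
  refine ⟨fun X hX => ?_, fun δ => ?_, Ts_mul_mem_Ev ht hs⟩
  · have h1 : t * s * X * (s * t) = t * (s * X * s) * t := by simp only [Matrix.mul_assoc]
    rw [h1]
    exact vec_conj h ht htt (vec_conj h hs hss hX)
  · have h1 : (t * s).map δ * (s * t) = t.map δ * t + t * (s.map δ * s) * t := by
      rw [map_mul_der, Matrix.add_mul]
      congr 1
      · calc t.map δ * s * (s * t) = t.map δ * (s * s) * t := by simp only [Matrix.mul_assoc]
          _ = t.map δ * t := by rw [hss, Matrix.mul_one]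
      · simp only [Matrix.mul_assoc]
    rw [h1]
    exact Submodule.add_mem _ (vec_der h hΓ ht htt δ) (vec_conj h ht htt (vec_der h hΓ hs hss δ))

theorem QS_mul {g g' k k' : Matrix N N ℂ} (h1 : QS Γ g g') (h2 : QS Γ k k') (hk : k * k' = 1) :
    QS Γ (g * k) (k' * g') := by
  refine ⟨fun X hX => ?_, fun δ => ?_, Subalgebra.mul_mem _ h1.2.2 h2.2.2⟩
  · have e1 : g * k * X * (k' * g') = g * (k * X * k') * g' := by simp only [Matrix.mul_assoc]
    rw [e1]
    exact h1.1 _ (h2.1 X hX)
  · have e1 : (g * k).map δ * (k' * g') = g.map δ * g' + g * (k.map δ * k') * g' := by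
      rw [map_mul_der, Matrix.add_mul]
      congr 1
      · calc g.map δ * k * (k' * g') = g.map δ * (k * k') * g' := by simp only [Matrix.mul_assoc]
          _ = g.map δ * g' := by rw [hk, Matrix.mul_one]
      · simp only [Matrix.mul_assoc]
    rw [e1]
    exact Submodule.add_mem _ (h1.2.1 δ) (h1.1 _ (h2.2.1 δ))

theorem vi (x : GL N ℂ) : x.val * (x⁻¹).val = 1 := by
  rw [← Units.val_mul, mul_inv_cancel, Units.val_one]

theorem iv (x : GL N ℂ) : (x⁻¹).val * x.val = 1 := by
  rw [← Units.val_mul, inv_mul_cancel, Units.val_one]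

theorem SpG_QS (h : Cl Γ) (hΓ : ∀ i a b, IsAlgebraic ℚ (Γ i a b)) {g : GL N ℂ}
    (hg : g ∈ SpG Γ) : QS Γ g.val (g⁻¹).val ∧ QS Γ (g⁻¹).val g.val := by
  induction hg using Subgroup.closure_induction with
  | mem x hx =>
    obtain ⟨t, ht, s, hs, htt, hss, hx⟩ := hx
    have h1 : (x⁻¹).val = s * t := by
      have h2 : x.val * (s * t) = 1 := by
        calc x.val * (s * t) = t * (s * s) * t := by
              rw [hx]
              simp only [Matrix.mul_assoc]
          _ = 1 := by rw [hss, Matrix.mul_one, htt]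
      calc (x⁻¹).val = (x⁻¹).val * (x.val * (s * t)) := by rw [h2, Matrix.mul_one]
        _ = s * t := by rw [← Matrix.mul_assoc, iv, Matrix.one_mul]
    rw [h1, hx]
    exact ⟨QS_two h hΓ ht hs htt hss, QS_two h hΓ hs ht hss htt⟩
  | one =>
    have h1 : QS Γ (1 : Matrix N N ℂ) 1 := by
      refine ⟨fun X hX => by rwa [Matrix.one_mul, Matrix.mul_one], fun δ => ?_,
        Subalgebra.one_mem _⟩
      rw [map_one_der, Matrix.zero_mul]
      exact Submodule.zero_mem _
    rw [inv_one, Units.val_one]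
    exact ⟨h1, h1⟩
  | mul x y _ _ hx hy =>
    rw [_root_.mul_inv_rev, Units.val_mul, Units.val_mul]
    exact ⟨QS_mul hx.1 hy.1 (vi y), QS_mul hy.2 hx.2 (iv x)⟩
  | inv x _ hx =>
    rw [inv_inv]
    exact ⟨hx.2, hx.1⟩

/-- A third vector. -/
theorem third (h : Cl Γ) (h3 : 3 ≤ n) {t s : Matrix N N ℂ} (ht : t ∈ Ts Γ) (hs : s ∈ Ts Γ)
    (htt : bq t t = 1) (hss : bq s s = 1) (hts : bq t s = 0) :
    ∃ u ∈ Ts Γ, bq u u = 1 ∧ bq t u = 0 ∧ bq s u = 0 := by
  by_contra hcon
  push Not at hcon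
  have h1 : ∀ u ∈ Ts Γ, bq t u = 0 → bq s u = 0 → bq u u = 0 := by
    intro u hu htu hsu
    by_contra h0
    obtain ⟨d, hd⟩ := IsAlgClosed.exists_pow_nat_eq (bq u u) two_pos
    have hd0 : d ≠ 0 := by
      rintro rfl
      apply h0
      rw [← hd]
      norm_num
    refine hcon (d⁻¹ • u) (Submodule.smul_mem _ _ hu) ?_ ?_ ?_
    · rw [map_smul, map_smul, LinearMap.smul_apply, smul_eq_mul, smul_eq_mul, ← hd]
      field_simp
    · rw [map_smul, htu, smul_zero]
    · rw [map_smul, hsu, smul_zero]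
  have h2 : ∀ u ∈ Ts Γ, ∀ v ∈ Ts Γ, bq t u = 0 → bq s u = 0 → bq t v = 0 → bq s v = 0 →
      bq u v = 0 := by
    intro u hu v hv htu hsu htv hsv
    have e1 := h1 (u + v) (Submodule.add_mem _ hu hv) (by rw [map_add, htu, htv, add_zero])
      (by rw [map_add, hsu, hsv, add_zero])
    rw [map_add, map_add, LinearMap.add_apply, LinearMap.add_apply, h1 u hu htu hsu,
      h1 v hv htv hsv, bq_symm v u] at e1
    linear_combination (1 / 2 : ℂ) * e1
  have h4 : ∀ r ∈ Ts Γ, r - bq t r • t - bq s r • s ∈ Ts Γ ∧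
      bq t (r - bq t r • t - bq s r • s) = 0 ∧ bq s (r - bq t r • t - bq s r • s) = 0 := by
    intro r hr
    refine ⟨Submodule.sub_mem _ (Submodule.sub_mem _ hr (Submodule.smul_mem _ _ ht))
      (Submodule.smul_mem _ _ hs), ?_, ?_⟩
    · rw [map_sub, map_sub, map_smul, map_smul, htt, hts, smul_zero, smul_eq_mul, mul_one,
        sub_self, sub_zero]
    · rw [map_sub, map_sub, map_smul, map_smul, hss, bq_symm s t, hts, smul_zero, smul_eq_mul,
        mul_one, sub_zero, sub_self]
  have h5 : ∀ r ∈ Ts Γ, r = bq t r • t + bq s r • s := by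
    intro r hr
    obtain ⟨e1, e2, e3⟩ := h4 r hr
    have e4 : r - bq t r • t - bq s r • s = 0 := by
      refine h.nd e1 fun v hv => ?_
      obtain ⟨f1, f2, f3⟩ := h4 v hv
      have f4 := h2 _ e1 _ f1 e2 e3 f2 f3
      rw [map_sub, map_sub, map_smul, map_smul, bq_symm _ t, bq_symm _ s, e2, e3, smul_zero,
        smul_zero, sub_zero, sub_zero] at f4
      exact f4
    rw [sub_sub, sub_eq_zero] at e4
    exact e4
  have h6 : Ts Γ ≤ Submodule.span ℂ (Set.range ![t, s]) := by
    intro r hr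
    rw [h5 r hr]
    refine Submodule.add_mem _ (Submodule.smul_mem _ _ (Submodule.subset_span ⟨0, rfl⟩))
      (Submodule.smul_mem _ _ (Submodule.subset_span ⟨1, rfl⟩))
  have h7 := Submodule.finrank_mono h6
  have h8 : finrank ℂ (Submodule.span ℂ (Set.range ![t, s])) ≤ 2 := by
    have := finrank_range_le_card (R := ℂ) ![t, s]
    rwa [Fintype.card_fin] at this
  rw [h.finrank_Ts] at h7
  omega

theorem step (h : Cl Γ) (h3 : 3 ≤ n) {t : Matrix N N ℂ} (ht : t ∈ Ts Γ) (htt : bq t t = 1) :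
    ∃ u ∈ Ts Γ, ∃ k, bq u u = 1 ∧ bq t u = 0 ∧ bq u (Γ k) = 0 := by
  obtain ⟨v, rfl⟩ := mem_Ts.1 ht
  set t := ∑ i, v i • Γ i with htdef
  have hb : ∀ j, bq t (Γ j) = v j := h.bq_sum v
  have htt' : ∑ i, v i * v i = 1 := by
    rw [← htt]
    conv_rhs => rw [htdef, map_sum]
    refine Finset.sum_congr rfl fun i _ => ?_
    rw [map_smul, ← htdef, hb, smul_eq_mul]
  obtain ⟨a, b, hab, hab0⟩ : ∃ a b, a ≠ b ∧ v a * v a + v b * v b ≠ 0 := by
    by_contra hcon
    push Not at hcon
    have h1 : ∀ i, v i * v i = 0 := by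
      intro i
      have h2 : 1 < (Finset.univ.erase i).card := by
        rw [Finset.card_erase_of_mem (Finset.mem_univ _), Finset.card_univ, Fintype.card_fin]
        omega
      obtain ⟨a, ha, b, hb, hab⟩ := Finset.one_lt_card.1 h2
      have e1 := hcon i a (Finset.ne_of_mem_erase ha).symm
      have e2 := hcon i b (Finset.ne_of_mem_erase hb).symm
      have e3 := hcon a b hab
      linear_combination (1 / 2 : ℂ) * e1 + (1 / 2 : ℂ) * e2 - (1 / 2 : ℂ) * e3
    rw [Finset.sum_eq_zero fun i _ => h1 i] at htt'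
    exact zero_ne_one htt'
  obtain ⟨k, hk⟩ : ((Finset.univ.erase a).erase b).Nonempty := by
    rw [← Finset.card_pos, Finset.card_erase_of_mem
      (Finset.mem_erase.2 ⟨hab.symm, Finset.mem_univ _⟩),
      Finset.card_erase_of_mem (Finset.mem_univ _), Finset.card_univ, Fintype.card_fin]
    omega
  have hkb : k ≠ b := Finset.ne_of_mem_erase hk
  have hka : k ≠ a := Finset.ne_of_mem_erase (Finset.mem_of_mem_erase hk)
  obtain ⟨d, hd⟩ := IsAlgClosed.exists_pow_nat_eq (v a * v a + v b * v b) two_pos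
  have hd0 : d ≠ 0 := by
    rintro rfl
    apply hab0
    rw [← hd]
    norm_num
  refine ⟨d⁻¹ • (v a • Γ b - v b • Γ a), Submodule.smul_mem _ _ (Submodule.sub_mem _
    (Submodule.smul_mem _ _ (gam_mem b)) (Submodule.smul_mem _ _ (gam_mem a))), k, ?_, ?_, ?_⟩
  · simp only [map_smul, map_sub, LinearMap.smul_apply, LinearMap.sub_apply, smul_eq_mul,
      h.bq_gam, if_neg hab, if_neg hab.symm, if_true]
    field_simp
    linear_combination -hd
  · simp only [map_smul, map_sub, smul_eq_mul, hb]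
    ring
  · simp only [map_smul, map_sub, LinearMap.smul_apply, LinearMap.sub_apply, smul_eq_mul,
      h.bq_gam, if_neg hkb.symm, if_neg hka.symm, mul_zero, sub_zero]

end one

variable {J : Type} [Fintype J] [DecidableEq J] {n : J → ℕ} {N : J → Type}
  [∀ j, Fintype (N j)] [∀ j, DecidableEq (N j)] [∀ j, Nonempty (N j)] [Nonempty J]
variable {Γ : ∀ j, Fin (n j) → Matrix (N j) (N j) ℂ}
variable {H : Set (Matrix (Σ j, N j) (Σ j, N j) ℂ)}

/-- One block. -/
def blk (j : J) (Z : Matrix (N j) (N j) ℂ) : Matrix (Σ j, N j) (Σ j, N j) ℂ :=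
  bd (Pi.mulSingle j Z)

theorem blk_mul (j : J) (Z W : Matrix (N j) (N j) ℂ) : blk j (Z * W) = blk j Z * blk j W := by
  rw [blk, Pi.mulSingle_mul, map_mul]
  rfl

theorem blk_one (j : J) : blk j (1 : Matrix (N j) (N j) ℂ) = 1 := by
  rw [blk, Pi.mulSingle_one, map_one]

theorem blk_add (j : J) (X : Matrix (N j) (N j) ℂ) :
    blk j (1 + X) = 1 + bd (Pi.single j X) := by
  rw [blk, ← map_one (bd (N := N)), ← map_add]
  congr 1
  funext i
  by_cases hij : i = j
  · subst hij
    rw [Pi.mulSingle_eq_same, Pi.add_apply, Pi.one_apply, Pi.single_eq_same]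
  · rw [Pi.mulSingle_eq_of_ne hij, Pi.add_apply, Pi.one_apply, Pi.single_eq_of_ne hij, add_zero]

section pres

variable (hcl : ∀ j, Cl (Γ j)) (h3 : ∀ j, 3 ≤ n j)
  (hLa : ∀ d, ∀ j, ∀ Z ∈ La (Γ j), Stab H d (bd (Pi.single j Z)))
  (hone : ∀ d, Stab H d (1 : Matrix (Σ j, N j) (Σ j, N j) ℂ))

include hLa in
theorem unip_pres {j : J} {X : Matrix (N j) (N j) ℂ} (hX : X ∈ La (Γ j)) (hXX : X * X = 0) :
    Pres H (blk j (1 + X)) := by
  have h1 := pres_of_stab (X := bd (Pi.single j X)) (ε := 0) (by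
    rw [← map_mul, ← Pi.single_mul, hXX, Pi.single_zero, map_zero, zero_smul])
    (fun d => hLa d j X hX) 1
  rwa [one_smul, ← blk_add] at h1

include hcl h3 hLa in
theorem orth_pres {j : J} {t s : Matrix (N j) (N j) ℂ} (ht : t ∈ Ts (Γ j)) (hs : s ∈ Ts (Γ j))
    (htt : bq t t = 1) (hss : bq s s = 1) (hts : bq t s = 0) : Pres H (blk j (t * s)) := by
  have h := hcl j
  obtain ⟨u, hu, huu, htu, hsu⟩ := third h (h3 j) ht hs htt hss hts
  set w := s + Complex.I • u with hw
  set w' := s - Complex.I • u with hw'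
  have hwT : w ∈ Ts (Γ j) := Submodule.add_mem _ hs (Submodule.smul_mem _ _ hu)
  have hwT' : w' ∈ Ts (Γ j) := Submodule.sub_mem _ hs (Submodule.smul_mem _ _ hu)
  have hus : bq u s = 0 := by rw [bq_symm, hsu]
  have b1 : bq t w = 0 := by rw [hw, map_add, map_smul, hts, htu, smul_zero, add_zero]
  have b2 : bq t w' = 0 := by rw [hw', map_sub, map_smul, hts, htu, smul_zero, sub_zero]
  have b3 : bq w w = 0 := by
    simp only [hw, map_add, map_smul, LinearMap.add_apply, LinearMap.smul_apply, smul_eq_mul,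
      hss, hsu, hus, huu]
    linear_combination Complex.I_mul_I
  have b4 : bq w' w' = 0 := by
    simp only [hw', map_sub, map_smul, LinearMap.sub_apply, LinearMap.smul_apply, smul_eq_mul,
      hss, hsu, hus, huu]
    linear_combination Complex.I_mul_I
  have b5 : bq w w' = 2 := by
    simp only [hw, hw', map_add, map_sub, map_smul, LinearMap.add_apply, LinearMap.sub_apply,
      LinearMap.smul_apply, smul_eq_mul, hss, hsu, hus, huu]
    linear_combination -Complex.I_mul_I
  have c1 : w * t = -(t * w) := by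
    have := h.relT ht hwT
    rw [b1, mul_zero, zero_smul, add_comm] at this
    exact eq_neg_of_add_eq_zero_left this
  have c2 : w' * t = -(t * w') := by
    have := h.relT ht hwT'
    rw [b2, mul_zero, zero_smul, add_comm] at this
    exact eq_neg_of_add_eq_zero_left this
  have c3 : w * w = 0 := by rw [h.sq_vec hwT, b3, zero_smul]
  have c4 : w' * w' = 0 := by rw [h.sq_vec hwT', b4, zero_smul]
  have c5 : w * w' + w' * w = (4 : ℂ) • (1 : Matrix (N j) (N j) ℂ) := by
    rw [h.relT hwT hwT', b5]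
    norm_num
  have ctt : t * t = 1 := (sq_bq h ht).2 htt
  have hprod : ∀ a b : Matrix (N j) (N j) ℂ, a * t = -(t * a) → t * a * (t * b) = -(a * b) := by
    intro a b hab
    calc t * a * (t * b) = t * (a * t) * b := by simp only [Matrix.mul_assoc]
      _ = -((t * t) * (a * b)) := by
        rw [hab]
        simp only [Matrix.mul_neg, Matrix.neg_mul, Matrix.mul_assoc]
      _ = -(a * b) := by rw [ctt, Matrix.one_mul]
  have hla : ∀ a ∈ Ts (Γ j), a * t = -(t * a) → t * a ∈ La (Γ j) := by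
    intro a ha hab
    have h1 : t * a = (1 / 2 : ℂ) • (t * a - a * t) := by
      rw [hab, sub_neg_eq_add, ← two_smul ℂ (t * a), smul_smul]
      norm_num
    rw [h1]
    exact Submodule.smul_mem _ _ (Submodule.subset_span ⟨t, ht, a, ha, rfl⟩)
  set e := (1 / 2 : ℂ) • (t * w) with he
  set f := -((1 / 2 : ℂ) • (t * w')) with hf
  have he0 : e * e = 0 := by
    rw [he, Matrix.smul_mul, Matrix.mul_smul, hprod w w c1, c3, neg_zero, smul_zero, smul_zero]
  have hf0 : -f * -f = 0 := by
    rw [hf, neg_neg, Matrix.smul_mul, Matrix.mul_smul, hprod w' w' c2, c4, neg_zero, smul_zero,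
      smul_zero]
  have hef : e * f + f * e = 1 := by
    have h1 : e * f + f * e = (1 / 4 : ℂ) • (w * w' + w' * w) := by
      rw [he, hf, Matrix.mul_neg, Matrix.neg_mul, Matrix.smul_mul, Matrix.mul_smul,
        Matrix.smul_mul, Matrix.mul_smul, hprod w w' c1, hprod w' w c2]
      module
    rw [h1, c5, smul_smul]
    norm_num
  have hmain : (1 + e) * (1 + -f) * (1 + e) = t * s := by
    have h1 : (1 + e) * (1 + -f) * (1 + e) = 1 + e + e - f - (e * f + f * e) + e * e -
        e * (e * f + f * e) + e * e * f := by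
      noncomm_ring
    have h2 : e - f = t * s := by
      rw [he, hf, sub_neg_eq_add, ← smul_add, ← Matrix.mul_add, hw, hw']
      have h3 : s + Complex.I • u + (s - Complex.I • u) = (2 : ℂ) • s := by module
      rw [h3, Matrix.mul_smul, smul_smul]
      norm_num
    rw [h1, hef, he0, Matrix.mul_one, Matrix.zero_mul, ← h2]
    abel
  rw [← hmain, blk_mul, blk_mul]
  have p1 : Pres H (blk j (1 + e)) :=
    unip_pres hLa (Submodule.smul_mem _ _ (hla w hwT c1)) he0
  have p2 : Pres H (blk j (1 + -f)) := by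
    refine unip_pres hLa ?_ hf0
    rw [hf, neg_neg]
    exact Submodule.smul_mem _ _ (hla w' hwT' c2)
  exact (p1.mul p2).mul p1

include hcl h3 hLa hone in
theorem two_pres {j : J} {t s : Matrix (N j) (N j) ℂ} (ht : t ∈ Ts (Γ j)) (hs : s ∈ Ts (Γ j))
    (htt : bq t t = 1) (hss : bq s s = 1) : Pres H (blk j (t * s)) := by
  have h := hcl j
  have htr : ∀ a b c : Matrix (N j) (N j) ℂ, b ∈ Ts (Γ j) → bq b b = 1 →
      Pres H (blk j (a * b)) → Pres H (blk j (b * c)) → Pres H (blk j (a * c)) := by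
    intro a b c hb hbb h1 h2
    have h4 : a * c = a * b * (b * c) := by
      rw [Matrix.mul_assoc, ← Matrix.mul_assoc b b c, (sq_bq h hb).2 hbb, Matrix.one_mul]
    rw [h4, blk_mul]
    exact h1.mul h2
  have hgg : ∀ k, bq (Γ j k) (Γ j k) = 1 := fun k => by rw [h.bq_gam, if_pos rfl]
  obtain ⟨u, hu, k, huu, htu, huk⟩ := step h (h3 j) ht htt
  obtain ⟨v, hv, l, hvv, hsv, hvl⟩ := step h (h3 j) hs hss
  have q1 : Pres H (blk j (t * u)) := orth_pres hcl h3 hLa ht hu htt huu htu
  have q2 : Pres H (blk j (u * Γ j k)) := orth_pres hcl h3 hLa hu (gam_mem k) huu (hgg k) huk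
  have q3 : Pres H (blk j (Γ j k * Γ j l)) := by
    by_cases hkl : k = l
    · rw [hkl, h.sq_one, blk_one]
      have h4 := pres_of_stab (X := (1 : Matrix (Σ j, N j) (Σ j, N j) ℂ)) (ε := 1)
        (by rw [Matrix.mul_one, one_smul]) hone 0
      rwa [zero_smul, add_zero] at h4
    · exact orth_pres hcl h3 hLa (gam_mem k) (gam_mem l) (hgg k) (hgg l) (by
        rw [h.bq_gam, if_neg hkl])
  have q4 : Pres H (blk j (Γ j l * v)) := orth_pres hcl h3 hLa (gam_mem l) hv (hgg l) hvv (by
    rw [bq_symm, hvl])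
  have q5 : Pres H (blk j (v * s)) := orth_pres hcl h3 hLa hv hs hvv hss (by
    rw [bq_symm, hsv])
  exact htr _ _ _ hv hvv (htr _ _ _ (gam_mem l) (hgg l) (htr _ _ _ (gam_mem k) (hgg k)
    (htr _ _ _ hu huu q1 q2) q3) q4) q5

include hcl h3 hLa hone in
theorem spin_pres {j : J} {g : GL (N j) ℂ} (hg : g ∈ SpG (Γ j)) :
    Pres H (blk j g.val) ∧ Pres H (blk j (g⁻¹).val) := by
  induction hg using Subgroup.closure_induction with
  | mem x hx =>
    obtain ⟨t, ht, s, hs, htt, hss, hx⟩ := hx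
    have h1 : (x⁻¹).val = s * t := by
      have h2 : x.val * (s * t) = 1 := by
        calc x.val * (s * t) = t * (s * s) * t := by
              rw [hx]
              simp only [Matrix.mul_assoc]
          _ = 1 := by rw [hss, Matrix.mul_one, htt]
      calc (x⁻¹).val = (x⁻¹).val * (x.val * (s * t)) := by rw [h2, Matrix.mul_one]
        _ = s * t := by rw [← Matrix.mul_assoc, iv, Matrix.one_mul]
    rw [h1, hx]
    rw [sq_bq (hcl j) ht] at htt
    rw [sq_bq (hcl j) hs] at hss
    exact ⟨two_pres hcl h3 hLa hone ht hs htt hss, two_pres hcl h3 hLa hone hs ht hss htt⟩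
  | one =>
    rw [inv_one, Units.val_one, blk_one]
    have h4 := pres_of_stab (X := (1 : Matrix (Σ j, N j) (Σ j, N j) ℂ)) (ε := 1)
      (by rw [Matrix.mul_one, one_smul]) hone 0
    rw [zero_smul, add_zero] at h4
    exact ⟨h4, h4⟩
  | mul x y _ _ hx hy =>
    rw [_root_.mul_inv_rev, Units.val_mul, Units.val_mul, blk_mul, blk_mul]
    exact ⟨hx.1.mul hy.1, hy.2.mul hx.2⟩
  | inv x _ hx =>
    rw [inv_inv]
    exact ⟨hx.2, hx.1⟩

include hcl h3 hLa hone in
/-- **Generation.** -/
theorem all_pres {g : ∀ j, GL (N j) ℂ} (hg : ∀ j, g j ∈ SpG (Γ j)) (c : ℂ) :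
    Pres H (c • bd fun j => (g j).val) := by
  have h1 : ∀ s : Finset J, Pres H (bd fun j => if j ∈ s then (g j).val else 1) := by
    intro s
    induction s using Finset.induction_on with
    | empty =>
      have h2 : (fun j => if j ∈ (∅ : Finset J) then (g j).val else 1) =
          (1 : ∀ j, Matrix (N j) (N j) ℂ) := by
        funext j
        rw [if_neg (Finset.notMem_empty j), Pi.one_apply]
      rw [h2, map_one]
      have h4 := pres_of_stab (X := (1 : Matrix (Σ j, N j) (Σ j, N j) ℂ)) (ε := 1)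
        (by rw [Matrix.mul_one, one_smul]) hone 0
      rwa [zero_smul, add_zero] at h4
    | insert i s hi ih =>
      have h2 : (fun j => if j ∈ insert i s then (g j).val else 1) =
          (Pi.mulSingle i (g i).val : ∀ j, Matrix (N j) (N j) ℂ) *
            (fun j => if j ∈ s then (g j).val else 1) := by
        funext j
        rw [Pi.mul_apply]
        by_cases hij : j = i
        · subst hij
          rw [Pi.mulSingle_eq_same, if_neg hi, if_pos (Finset.mem_insert_self j s), mul_one]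
        · rw [Pi.mulSingle_eq_of_ne hij, one_mul]
          by_cases hjs : j ∈ s
          · rw [if_pos hjs, if_pos (Finset.mem_insert_of_mem hjs)]
          · rw [if_neg hjs, if_neg]
            rw [Finset.mem_insert]
            tauto
      rw [h2, map_mul]
      exact (spin_pres hcl h3 hLa hone (hg i)).1.mul ih
  have h2 := h1 Finset.univ
  simp only [Finset.mem_univ, if_true] at h2
  haveI : Nonempty (Σ j, N j) := ⟨⟨Classical.arbitrary J, Classical.arbitrary _⟩⟩
  have h4 := (Cl.pres_scalar hone c).mul h2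
  rwa [Matrix.smul_mul, Matrix.one_mul] at h4

end pres

end Pool.Agent.TH164.Spin
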