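import Pool.Agent.TH164.Spin.AlgG

/-!
# Parts of a system of Clifford matrices, and averaging
-/

set_option autoImplicit false
set_option linter.unusedSectionVars false
set_option linter.unusedVariables false

open Module Matrix

namespace Pool.Agent.TH164.Spin

variable {N : Type} [Fintype N] [DecidableEq N] [Nonempty N] {n : ℕ}
variable {Γ : Fin n → Matrix N N ℂ}

/-- The part of the system in the set `A`. -/
def col (Γ : Fin n → Matrix N N ℂ) (A : Finset (Fin n)) : Fin n → Matrix N N ℂ :=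
  fun i => if i ∈ A then Γ i else 0

theorem col_mem {A : Finset (Fin n)} {i : Fin n} (hi : i ∈ A) : col Γ A i = Γ i := if_pos hi

theorem col_not {A : Finset (Fin n)} {i : Fin n} (hi : i ∉ A) : col Γ A i = 0 := if_neg hi

theorem gam_col {A : Finset (Fin n)} {i : Fin n} (hi : i ∈ A) : Γ i ∈ Ts (col Γ A) := by
  rw [← col_mem (Γ := Γ) hi]
  exact gam_mem i

theorem Ts_col_mono {A B : Finset (Fin n)} (h : A ⊆ B) : Ts (col Γ A) ≤ Ts (col Γ B) := by
  refine Submodule.span_le.2 ?_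
  rintro _ ⟨i, rfl⟩
  by_cases hi : i ∈ A
  · rw [col_mem hi]
    exact gam_col (h hi)
  · rw [col_not hi]
    exact Submodule.zero_mem _

theorem Ts_col_le {A : Finset (Fin n)} : Ts (col Γ A) ≤ Ts Γ := by
  refine Submodule.span_le.2 ?_
  rintro _ ⟨i, rfl⟩
  by_cases hi : i ∈ A
  · rw [col_mem hi]
    exact gam_mem i
  · rw [col_not hi]
    exact Submodule.zero_mem _

theorem La_mono {m m' : ℕ} {G : Fin m → Matrix N N ℂ} {G' : Fin m' → Matrix N N ℂ}
    (h : Ts G ≤ Ts G') : La G ≤ La G' := by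
  refine Submodule.span_le.2 ?_
  rintro _ ⟨t, ht, s, hs, rfl⟩
  exact Submodule.subset_span ⟨t, h ht, s, h hs, rfl⟩

theorem Ev_col_mono {A B : Finset (Fin n)} (h : A ⊆ B) : Ev (col Γ A) ≤ Ev (col Γ B) := by
  refine Algebra.adjoin_le ?_
  rintro _ ⟨i, j, rfl⟩
  by_cases hi : i ∈ A
  · by_cases hj : j ∈ A
    · rw [col_mem hi, col_mem hj, ← col_mem (Γ := Γ) (h hi), ← col_mem (Γ := Γ) (h hj)]
      exact two_mem_Ev i j
    · rw [col_not hj, Matrix.mul_zero]
      exact Subalgebra.zero_mem _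
  · rw [col_not hi, Matrix.zero_mul]
    exact Subalgebra.zero_mem _

theorem two_col {A : Finset (Fin n)} {i j : Fin n} (hi : i ∈ A) (hj : j ∈ A) :
    Γ i * Γ j ∈ Ev (col Γ A) := by
  rw [← col_mem (Γ := Γ) hi, ← col_mem (Γ := Γ) hj]
  exact two_mem_Ev i j

theorem col_alg (hΓ : ∀ i a b, IsAlgebraic ℚ (Γ i a b)) (A : Finset (Fin n)) :
    ∀ i a b, IsAlgebraic ℚ (col Γ A i a b) := by
  intro i a b
  by_cases hi : i ∈ A
  · rw [col_mem hi]
    exact hΓ i a b
  · rw [col_not hi]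
    exact isAlgebraic_zero

/-- Commutation with an algebra. -/
theorem com_adjoin {s : Set (Matrix N N ℂ)} {X : Matrix N N ℂ} (h : ∀ y ∈ s, X * y = y * X)
    {Y : Matrix N N ℂ} (hY : Y ∈ Algebra.adjoin ℂ s) : X * Y = Y * X := by
  induction hY using Algebra.adjoin_induction with
  | mem x hx => exact h x hx
  | algebraMap r => exact (Algebra.commutes r X).symm
  | add x y _ _ hx hy => rw [Matrix.mul_add, Matrix.add_mul, hx, hy]
  | mul x y _ _ hx hy => rw [← Matrix.mul_assoc, hx, Matrix.mul_assoc, hy, Matrix.mul_assoc]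

namespace Cl

/-- Even elements commute with the generators outside. -/
theorem ev_col_com (h : Cl Γ) {A : Finset (Fin n)} {y : Matrix N N ℂ} (hy : y ∈ Ev (col Γ A))
    {i : Fin n} (hi : i ∉ A) : y * Γ i = Γ i * y := by
  refine (com_adjoin (X := Γ i) ?_ hy).symm
  rintro _ ⟨j, k, rfl⟩
  by_cases hj : j ∈ A
  · by_cases hk : k ∈ A
    · have hji : j ≠ i := fun h1 => hi (h1 ▸ hj)
      have hki : k ≠ i := fun h1 => hi (h1 ▸ hk)
      rw [col_mem hj, col_mem hk, ← Matrix.mul_assoc, h.anti' hji.symm, Matrix.neg_mul,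
        Matrix.mul_assoc, h.anti' hki.symm, Matrix.mul_neg, neg_neg, Matrix.mul_assoc]
    · rw [col_not hk, Matrix.mul_zero, Matrix.mul_zero, Matrix.zero_mul]
  · rw [col_not hj, Matrix.zero_mul, Matrix.mul_zero, Matrix.zero_mul]

theorem ev_col_com' (h : Cl Γ) {A B : Finset (Fin n)} (hAB : Disjoint A B) {x y : Matrix N N ℂ}
    (hx : x ∈ Ev (col Γ A)) (hy : y ∈ Ev (col Γ B)) : x * y = y * x := by
  refine com_adjoin ?_ hy
  rintro _ ⟨j, k, rfl⟩
  by_cases hj : j ∈ B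
  · by_cases hk : k ∈ B
    · rw [col_mem hj, col_mem hk, ← Matrix.mul_assoc,
        h.ev_col_com hx (fun h1 => Finset.disjoint_left.1 hAB h1 hj), Matrix.mul_assoc,
        h.ev_col_com hx (fun h1 => Finset.disjoint_left.1 hAB h1 hk), Matrix.mul_assoc]
    · rw [col_not hk, Matrix.mul_zero, Matrix.mul_zero, Matrix.zero_mul]
  · rw [col_not hj, Matrix.zero_mul, Matrix.mul_zero, Matrix.zero_mul]

end Cl

/-- Averaging over one generator. -/
noncomputable def av1 (Γ : Fin n → Matrix N N ℂ) (i : Fin n) : Matrix N N ℂ →ₗ[ℂ] Matrix N N ℂ where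
  toFun X := (1 / 2 : ℂ) • (X + Γ i * X * Γ i)
  map_add' X Y := by
    rw [Matrix.mul_add, Matrix.add_mul, ← smul_add]
    congr 1
    abel
  map_smul' c X := by
    rw [Matrix.mul_smul, Matrix.smul_mul, ← smul_add, smul_comm]
    rfl

theorem av1_apply (i : Fin n) (X : Matrix N N ℂ) :
    av1 Γ i X = (1 / 2 : ℂ) • (X + Γ i * X * Γ i) := rfl

/-- Averaging over a list of generators. -/
noncomputable def avl (Γ : Fin n → Matrix N N ℂ) : List (Fin n) → Matrix N N ℂ →ₗ[ℂ] Matrix N N ℂ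
  | [] => LinearMap.id
  | i :: l => av1 Γ i ∘ₗ avl Γ l

theorem avl_nil (X : Matrix N N ℂ) : avl Γ [] X = X := rfl

theorem avl_cons (i : Fin n) (l : List (Fin n)) (X : Matrix N N ℂ) :
    avl Γ (i :: l) X = av1 Γ i (avl Γ l X) := rfl

theorem av1_mul {i : Fin n} {X : Matrix N N ℂ} (hX : X * Γ i = Γ i * X) (Y : Matrix N N ℂ) :
    av1 Γ i (X * Y) = X * av1 Γ i Y := by
  rw [av1_apply, av1_apply, Matrix.mul_smul, Matrix.mul_add, ← Matrix.mul_assoc, ← hX,
    Matrix.mul_assoc X (Γ i) Y, Matrix.mul_assoc X (Γ i * Y) (Γ i)]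

theorem av1_mul' {i : Fin n} {X : Matrix N N ℂ} (hX : X * Γ i = Γ i * X) (Y : Matrix N N ℂ) :
    av1 Γ i (Y * X) = av1 Γ i Y * X := by
  rw [av1_apply, av1_apply, Matrix.smul_mul, Matrix.add_mul]
  congr 2
  calc Γ i * (Y * X) * Γ i = Γ i * Y * (X * Γ i) := by simp only [Matrix.mul_assoc]
    _ = Γ i * Y * Γ i * X := by rw [hX]; simp only [Matrix.mul_assoc]

namespace Cl

theorem av1_one (h : Cl Γ) (i : Fin n) : av1 Γ i 1 = 1 := by
  rw [av1_apply, Matrix.mul_one, h.sq_one, ← two_smul ℂ (1 : Matrix N N ℂ), smul_smul]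
  norm_num

theorem av1_com (h : Cl Γ) (i : Fin n) (X : Matrix N N ℂ) :
    av1 Γ i X * Γ i = Γ i * av1 Γ i X := by
  rw [av1_apply, Matrix.smul_mul, Matrix.mul_smul, Matrix.add_mul, Matrix.mul_add,
    Matrix.mul_assoc (Γ i * X) (Γ i) (Γ i), h.sq_one, Matrix.mul_one, Matrix.mul_assoc (Γ i) X (Γ i),
    ← Matrix.mul_assoc (Γ i) (Γ i) (X * Γ i), h.sq_one, Matrix.one_mul, add_comm]

theorem av1_pres (h : Cl Γ) (i j : Fin n) {X : Matrix N N ℂ} (hX : X * Γ j = Γ j * X) :
    av1 Γ i X * Γ j = Γ j * av1 Γ i X := by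
  by_cases hij : i = j
  · subst hij
    exact h.av1_com i X
  rw [av1_apply, Matrix.smul_mul, Matrix.mul_smul, Matrix.add_mul, Matrix.mul_add, hX]
  congr 2
  calc Γ i * X * Γ i * Γ j = Γ i * X * (Γ i * Γ j) := by simp only [Matrix.mul_assoc]
    _ = -(Γ i * (X * Γ j) * Γ i) := by
      rw [h.anti' hij, Matrix.mul_neg]
      simp only [Matrix.mul_assoc]
    _ = -(Γ i * Γ j * X * Γ i) := by rw [hX]; simp only [Matrix.mul_assoc]
    _ = Γ j * (Γ i * X * Γ i) := by
      rw [h.anti' hij, Matrix.neg_mul, Matrix.neg_mul, neg_neg]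
      simp only [Matrix.mul_assoc]

theorem av1_trace (h : Cl Γ) (i : Fin n) (X : Matrix N N ℂ) : (av1 Γ i X).trace = X.trace := by
  rw [av1_apply, Matrix.trace_smul, Matrix.trace_add, Matrix.trace_mul_cycle, h.sq_one,
    Matrix.one_mul, smul_eq_mul]
  ring

theorem avl_mul (h : Cl Γ) {l : List (Fin n)} {X : Matrix N N ℂ}
    (hX : ∀ i ∈ l, X * Γ i = Γ i * X) (Y : Matrix N N ℂ) : avl Γ l (X * Y) = X * avl Γ l Y := by
  induction l with
  | nil => rfl
  | cons i l ih =>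
    rw [avl_cons, avl_cons, ih fun j hj => hX j (List.mem_cons_of_mem _ hj),
      av1_mul (hX i List.mem_cons_self)]

theorem avl_mul' (h : Cl Γ) {l : List (Fin n)} {X : Matrix N N ℂ}
    (hX : ∀ i ∈ l, X * Γ i = Γ i * X) (Y : Matrix N N ℂ) : avl Γ l (Y * X) = avl Γ l Y * X := by
  induction l with
  | nil => rfl
  | cons i l ih =>
    rw [avl_cons, avl_cons, ih fun j hj => hX j (List.mem_cons_of_mem _ hj),
      av1_mul' (hX i List.mem_cons_self)]

theorem avl_one (h : Cl Γ) (l : List (Fin n)) : avl Γ l 1 = 1 := by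
  induction l with
  | nil => rfl
  | cons i l ih => rw [avl_cons, ih, h.av1_one]

theorem avl_fix (h : Cl Γ) {l : List (Fin n)} {X : Matrix N N ℂ}
    (hX : ∀ i ∈ l, X * Γ i = Γ i * X) : avl Γ l X = X := by
  have h1 := h.avl_mul hX 1
  rwa [Matrix.mul_one, h.avl_one, Matrix.mul_one] at h1

theorem avl_pres (h : Cl Γ) (l : List (Fin n)) (j : Fin n) {X : Matrix N N ℂ}
    (hX : X * Γ j = Γ j * X) : avl Γ l X * Γ j = Γ j * avl Γ l X := by
  induction l with
  | nil => exact hX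
  | cons i l ih => exact h.av1_pres i j ih

theorem avl_com (h : Cl Γ) {l : List (Fin n)} {j : Fin n} (hj : j ∈ l) (X : Matrix N N ℂ) :
    avl Γ l X * Γ j = Γ j * avl Γ l X := by
  induction l with
  | nil => exact absurd hj List.not_mem_nil
  | cons i l ih =>
    rw [avl_cons]
    rcases List.mem_cons.1 hj with rfl | h1
    · exact h.av1_com _ _
    · exact h.av1_pres i j (ih h1)

theorem avl_trace (h : Cl Γ) (l : List (Fin n)) (X : Matrix N N ℂ) :
    (avl Γ l X).trace = X.trace := by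
  induction l with
  | nil => rfl
  | cons i l ih => rw [avl_cons, h.av1_trace, ih]

end Cl

/-- The projection to the part `A`: averaging over the generators outside `A`. -/
noncomputable def EE (Γ : Fin n → Matrix N N ℂ) (A : Finset (Fin n)) :
    Matrix N N ℂ →ₗ[ℂ] Matrix N N ℂ := avl Γ (Aᶜ).toList

namespace Cl

theorem EE_mul (h : Cl Γ) {A : Finset (Fin n)} {X : Matrix N N ℂ} (hX : X ∈ Ev (col Γ A))
    (Y : Matrix N N ℂ) : EE Γ A (X * Y) = X * EE Γ A Y :=
  h.avl_mul (fun i hi => h.ev_col_com hX (Finset.mem_compl.1 (Finset.mem_toList.1 hi))) Y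

theorem EE_mul' (h : Cl Γ) {A : Finset (Fin n)} {X : Matrix N N ℂ} (hX : X ∈ Ev (col Γ A))
    (Y : Matrix N N ℂ) : EE Γ A (Y * X) = EE Γ A Y * X :=
  h.avl_mul' (fun i hi => h.ev_col_com hX (Finset.mem_compl.1 (Finset.mem_toList.1 hi))) Y

theorem EE_fix (h : Cl Γ) {A : Finset (Fin n)} {X : Matrix N N ℂ} (hX : X ∈ Ev (col Γ A)) :
    EE Γ A X = X :=
  h.avl_fix (fun i hi => h.ev_col_com hX (Finset.mem_compl.1 (Finset.mem_toList.1 hi)))

theorem EE_scalar (h : Cl Γ) {A B : Finset (Fin n)} (hAB : Disjoint A B) {y : Matrix N N ℂ}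
    (hy : y ∈ Ev (col Γ B)) :
    EE Γ A y = (y.trace / (Fintype.card N : ℂ)) • (1 : Matrix N N ℂ) := by
  obtain ⟨c, hc⟩ := h.scalar_of_commute (X := EE Γ A y) (fun i => by
    by_cases hi : i ∈ A
    · exact h.avl_pres _ _ (h.ev_col_com hy (Finset.disjoint_left.1 hAB hi))
    · exact h.avl_com (Finset.mem_toList.2 (Finset.mem_compl.2 hi)) _)
  have h1 := h.avl_trace (Aᶜ).toList y
  have h2 : (EE Γ A y).trace = y.trace := h1
  rw [hc, Matrix.trace_smul, Matrix.trace_one, smul_eq_mul] at h2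
  rw [hc, ← h2, mul_div_assoc, div_self card_ne, mul_one]

theorem la_le_ev {A : Finset (Fin n)} {X : Matrix N N ℂ} (hX : X ∈ La (col Γ A)) :
    X ∈ Ev (col Γ A) := La_le_Ev hX

theorem la_trace' {m : ℕ} {G : Fin m → Matrix N N ℂ} {X : Matrix N N ℂ} (hX : X ∈ La G) :
    X.trace = 0 := by
  induction hX using Submodule.span_induction with
  | mem y hy =>
    obtain ⟨a, ha, b, hb, rfl⟩ := hy
    rw [Matrix.trace_sub, Matrix.trace_mul_comm, sub_self]
  | zero => simp
  | add a b _ _ ha hb => rw [Matrix.trace_add, ha, hb, add_zero]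
  | smul c a _ ha => rw [Matrix.trace_smul, ha, smul_zero]

theorem EE_zero (h : Cl Γ) {A B : Finset (Fin n)} (hAB : Disjoint A B) {y : Matrix N N ℂ}
    (hy : y ∈ La (col Γ B)) : EE Γ A y = 0 := by
  rw [h.EE_scalar hAB (La_le_Ev hy), la_trace' hy, zero_div, zero_smul]

theorem EE_id (h : Cl Γ) {A B : Finset (Fin n)} (hAB : B ⊆ A) {y : Matrix N N ℂ}
    (hy : y ∈ La (col Γ B)) : EE Γ A y = y :=
  h.EE_fix (Ev_col_mono hAB (La_le_Ev hy))

/-- **Projection of a generated algebra.** -/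
theorem proj_adjoin (h : Cl Γ) {A B : Finset (Fin n)} (hAB : Disjoint A B)
    {l : Submodule ℂ (Matrix N N ℂ)}
    (hl : ∀ x ∈ l, ∃ a ∈ La (col Γ A), ∃ b ∈ La (col Γ B), x = a + b)
    {x : Matrix N N ℂ} (hx : x ∈ Algebra.adjoin ℂ (l : Set (Matrix N N ℂ)))
    (hxA : x ∈ Ev (col Γ A)) :
    x ∈ Algebra.adjoin ℂ ((l.map (EE Γ A) : Submodule ℂ (Matrix N N ℂ)) : Set (Matrix N N ℂ)) := by
  set D := Algebra.adjoin ℂ ((l.map (EE Γ A) : Submodule ℂ (Matrix N N ℂ)) :
    Set (Matrix N N ℂ)) with hD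
  have key : ∀ Y : Matrix N N ℂ, (∀ w ∈ Ev (col Γ B), EE Γ A (w * Y) ∈ D) →
      ∀ w ∈ Ev (col Γ B), EE Γ A (w * (x * Y)) ∈ D := by
    clear hxA
    induction hx using Algebra.adjoin_induction with
    | mem x hx =>
      intro Y hY w hw
      obtain ⟨a, ha, b, hb, rfl⟩ := hl x hx
      have h1 : w * ((a + b) * Y) = a * (w * Y) + (w * b) * Y := by
        rw [Matrix.add_mul, Matrix.mul_add, ← Matrix.mul_assoc w a Y,
          ← h.ev_col_com' hAB (la_le_ev ha) hw]
        simp only [Matrix.mul_assoc]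
      have h2 : EE Γ A (a + b) = a := by
        rw [map_add, h.EE_zero hAB hb, h.EE_id (Finset.Subset.refl A) ha, add_zero]
      rw [h1, map_add, h.EE_mul (la_le_ev ha)]
      refine D.add_mem (D.mul_mem (Algebra.subset_adjoin ⟨a + b, hx, h2⟩) (hY w hw)) ?_
      exact hY _ (Subalgebra.mul_mem _ hw (la_le_ev hb))
    | algebraMap r =>
      intro Y hY w hw
      rw [Algebra.algebraMap_eq_smul_one, Matrix.smul_mul, Matrix.one_mul, Matrix.mul_smul,
        map_smul]
      exact D.smul_mem (hY w hw) _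
    | add x y _ _ hx hy =>
      intro Y hY w hw
      rw [Matrix.add_mul, Matrix.mul_add, map_add]
      exact D.add_mem (hx Y hY w hw) (hy Y hY w hw)
    | mul x y _ _ hx hy =>
      intro Y hY w hw
      rw [Matrix.mul_assoc x y Y]
      exact hx _ (hy Y hY) w hw
  have h1 := key 1 (fun w hw => by
    rw [Matrix.mul_one, h.EE_scalar hAB hw]
    exact D.smul_mem D.one_mem _) 1 (Subalgebra.one_mem _)
  rwa [Matrix.one_mul, Matrix.mul_one, h.EE_fix hxA] at h1

end Cl

end Pool.Agent.TH164.Spin
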