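import Pool.Agent.TH164.Spin.Rm1

/-!
# Minimal stable subspaces for a part of a system of Clifford matrices
-/

set_option autoImplicit false
set_option linter.unusedSectionVars false
set_option linter.unusedVariables false

open Module Matrix

attribute [local instance 100] LieRing.ofAssociativeRing

namespace Pool.Agent.TH164.Spin

variable {N : Type} [Fintype N] [DecidableEq N] [Nonempty N] {n : ℕ}
variable {Γ : Fin n → Matrix N N ℂ}

/-- A minimal nonzero subspace stable under the generators in `A`. -/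
structure Mn (Γ : Fin n → Matrix N N ℂ) (A : Finset (Fin n)) (W : Submodule ℂ (N → ℂ)) : Prop where
  st : ∀ i ∈ A, ∀ w ∈ W, Γ i *ᵥ w ∈ W
  ne : W ≠ ⊥
  mi : ∀ U ≤ W, (∀ i ∈ A, ∀ w ∈ U, Γ i *ᵥ w ∈ U) → U ≠ ⊥ → U = W

theorem exists_Mn (Γ : Fin n → Matrix N N ℂ) (A : Finset (Fin n)) : ∃ W, Mn Γ A W := by
  classical
  have h1 : ∃ m : ℕ, ∃ W : Submodule ℂ (N → ℂ), W ≠ ⊥ ∧ (∀ i ∈ A, ∀ w ∈ W, Γ i *ᵥ w ∈ W) ∧
      finrank ℂ W = m :=
    ⟨_, ⊤, top_ne_bot, fun _ _ _ _ => trivial, rfl⟩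
  obtain ⟨W, h2, h3, h4⟩ := Nat.find_spec h1
  refine ⟨W, h3, h2, fun U hU hU1 hU2 => ?_⟩
  refine Submodule.eq_of_le_of_finrank_le hU ?_
  rw [h4]
  exact Nat.find_le ⟨U, hU2, hU1, rfl⟩

theorem ev_stable_of {A : Finset (Fin n)} {W : Submodule ℂ (N → ℂ)}
    (hst : ∀ i ∈ A, ∀ w ∈ W, Γ i *ᵥ w ∈ W) {X : Matrix N N ℂ} (hX : X ∈ Ev (col Γ A)) {w : N → ℂ}
    (hw : w ∈ W) : X *ᵥ w ∈ W := by
  have h1 : ∀ i, ∀ w ∈ W, col Γ A i *ᵥ w ∈ W := by
    intro i w hw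
    by_cases hi : i ∈ A
    · rw [col_mem hi]
      exact hst i hi w hw
    · rw [col_not hi, Matrix.zero_mulVec]
      exact W.zero_mem
  induction hX using Algebra.adjoin_induction generalizing w with
  | mem x hx =>
    obtain ⟨i, j, rfl⟩ := hx
    rw [← Matrix.mulVec_mulVec]
    exact h1 i _ (h1 j _ hw)
  | algebraMap r =>
    rw [Algebra.algebraMap_eq_smul_one, Matrix.smul_mulVec, Matrix.one_mulVec]
    exact W.smul_mem _ hw
  | add x y _ _ hx hy =>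
    rw [Matrix.add_mulVec]
    exact W.add_mem (hx hw) (hy hw)
  | mul x y _ _ hx hy =>
    rw [← Matrix.mulVec_mulVec]
    exact hx (hy hw)

theorem prod_mem_col {A : Finset (Fin n)} : ∀ (m : ℕ) (l : List (Fin n)), l.length = m + m →
    (∀ i ∈ l, i ∈ A) → (l.map Γ).prod ∈ Ev (col Γ A) := by
  intro m l hl hA
  have h1 : l.map Γ = l.map (col Γ A) := List.map_congr_left fun i hi => (col_mem (hA i hi)).symm
  rw [h1]
  exact prod_mem_Ev m l hl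

/-- The product of the generators in `A`. -/
noncomputable def om (Γ : Fin n → Matrix N N ℂ) (A : Finset (Fin n)) : Matrix N N ℂ :=
  (A.toList.map Γ).prod

namespace Cl

theorem om_gam (h : Cl Γ) (A : Finset (Fin n)) (i : Fin n) :
    Γ i * om Γ A = (∏ j ∈ A, if i = j then (1 : ℂ) else -1) • (om Γ A * Γ i) := by
  have h3 := sgn (Γ := Γ) (x := Γ i) (ε := fun j => if i = j then 1 else -1) (fun j => by
    by_cases hij : i = j
    · simp only [hij, if_true, one_smul]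
    · simp only [if_neg hij, neg_one_smul]
      exact h.anti' hij) A.toList
  rwa [Finset.prod_map_toList] at h3

theorem om_in (h : Cl Γ) {A : Finset (Fin n)} {i : Fin n} (hi : i ∈ A) :
    Γ i * om Γ A = ((-1 : ℂ) ^ (A.card - 1)) • (om Γ A * Γ i) := by
  rw [h.om_gam A i, Finset.prod_ite, Finset.prod_const_one, one_mul, Finset.prod_const]
  congr 2
  rw [Finset.filter_ne, Finset.card_erase_of_mem hi]

theorem om_out (h : Cl Γ) {A : Finset (Fin n)} {i : Fin n} (hi : i ∉ A) :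
    Γ i * om Γ A = ((-1 : ℂ) ^ A.card) • (om Γ A * Γ i) := by
  rw [h.om_gam A i, Finset.prod_congr rfl (g := fun _ => (-1 : ℂ)) (fun j hj => by
    rw [if_neg]
    rintro rfl
    exact hi hj), Finset.prod_const]

theorem om_unit (h : Cl Γ) (A : Finset (Fin n)) : IsUnit (om Γ A) := by
  refine List.prod_isUnit fun m hm => ?_
  obtain ⟨i, -, rfl⟩ := List.mem_map.1 hm
  exact ⟨⟨Γ i, Γ i, h.sq_one i, h.sq_one i⟩, rfl⟩

/-- A multiple of the product with square one. -/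
theorem exists_z (h : Cl Γ) (A : Finset (Fin n)) : ∃ ζ : ℂ, (ζ • om Γ A) * (ζ • om Γ A) = 1 := by
  have h2 : ∀ i, ∃ ε : ℂ, ε * ε = 1 ∧ Γ i * om Γ A = ε • (om Γ A * Γ i) := by
    intro i
    have h3 : ∀ m : ℕ, ((-1 : ℂ) ^ m) * ((-1 : ℂ) ^ m) = 1 := by
      intro m
      rw [← mul_pow, neg_mul_neg, one_mul, one_pow]
    by_cases hi : i ∈ A
    · exact ⟨_, h3 _, h.om_in hi⟩
    · exact ⟨_, h3 _, h.om_out hi⟩
  have h3 : ∀ i, om Γ A * om Γ A * Γ i = Γ i * (om Γ A * om Γ A) := by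
    intro i
    obtain ⟨ε, h4, h5⟩ := h2 i
    symm
    calc Γ i * (om Γ A * om Γ A) = (Γ i * om Γ A) * om Γ A := by rw [Matrix.mul_assoc]
      _ = (ε • (om Γ A * Γ i)) * om Γ A := by rw [h5]
      _ = ε • (om Γ A * (Γ i * om Γ A)) := by rw [Matrix.smul_mul, Matrix.mul_assoc]
      _ = (ε * ε) • (om Γ A * (om Γ A * Γ i)) := by rw [h5, Matrix.mul_smul, smul_smul]
      _ = _ := by rw [h4, one_smul, Matrix.mul_assoc]
  obtain ⟨c, hc⟩ := h.scalar_of_commute h3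
  have hc0 : c ≠ 0 := by
    rintro rfl
    have h4 := (h.om_unit A).mul (h.om_unit A)
    rw [hc, zero_smul] at h4
    exact not_isUnit_zero h4
  obtain ⟨ζ, hζ⟩ := IsAlgClosed.exists_pow_nat_eq c⁻¹ two_pos
  refine ⟨ζ, ?_⟩
  rw [Matrix.smul_mul, Matrix.mul_smul, hc, smul_smul, smul_smul, ← pow_two, hζ,
    inv_mul_cancel₀ hc0, one_smul]

/-- Odd parts: subspaces stable under even elements. -/
theorem mn_odd (h : Cl Γ) {A : Finset (Fin n)} (hA : Odd A.card) {W : Submodule ℂ (N → ℂ)}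
    (hW : Mn Γ A W) {U : Submodule ℂ (N → ℂ)} (hU : U ≤ W)
    (hE : ∀ X ∈ Ev (col Γ A), ∀ w ∈ U, X *ᵥ w ∈ U) (h0 : U ≠ ⊥) : U = W := by
  obtain ⟨ζ, hζ⟩ := h.exists_z A
  set z := ζ • om Γ A with hz
  have hzc : ∀ i ∈ A, Γ i * z = z * Γ i := by
    intro i hi
    have h1 : Even (A.card - 1) := by
      obtain ⟨m, hm⟩ := hA
      exact ⟨m, by omega⟩
    rw [hz, Matrix.mul_smul, h.om_in hi, h1.neg_one_pow, one_smul, Matrix.smul_mul]
  have hzz : ∀ w : N → ℂ, z *ᵥ (z *ᵥ w) = w := by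
    intro w
    rw [Matrix.mulVec_mulVec, hζ, Matrix.one_mulVec]
  have hstl : ∀ (l : List (Fin n)), (∀ i ∈ l, i ∈ A) → ∀ w ∈ W, (l.map Γ).prod *ᵥ w ∈ W := by
    intro l
    induction l with
    | nil =>
      intro _ w hw
      rw [List.map_nil, List.prod_nil, Matrix.one_mulVec]
      exact hw
    | cons i l ih =>
      intro hl w hw
      rw [List.map_cons, List.prod_cons, ← Matrix.mulVec_mulVec]
      exact hW.st i (hl i List.mem_cons_self) _ (ih (fun j hj => hl j (List.mem_cons_of_mem _ hj))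
        w hw)
  have hzW : ∀ w ∈ W, z *ᵥ w ∈ W := by
    intro w hw
    rw [hz, Matrix.smul_mulVec]
    exact W.smul_mem _ (hstl _ (fun i hi => Finset.mem_toList.1 hi) w hw)
  -- the eigenspaces
  have hsc : ∃ ε : ℂ, ε * ε = 1 ∧ ∀ w ∈ W, z *ᵥ w = ε • w := by
    have hP : ∀ ε : ℂ, ε * ε = 1 → (∃ w ∈ W, w ≠ 0 ∧ z *ᵥ w = ε • w) →
        ∀ w ∈ W, z *ᵥ w = ε • w := by
      rintro ε hε ⟨w0, hw0, hw1, hw2⟩
      have h1 := hW.mi
        { carrier := {w | w ∈ W ∧ z *ᵥ w = ε • w}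
          zero_mem' := ⟨W.zero_mem, by rw [Matrix.mulVec_zero, smul_zero]⟩
          add_mem' := by
            rintro a b ⟨ha, ha'⟩ ⟨hb, hb'⟩
            exact ⟨W.add_mem ha hb, by rw [Matrix.mulVec_add, ha', hb', smul_add]⟩
          smul_mem' := by
            rintro c a ⟨ha, ha'⟩
            exact ⟨W.smul_mem _ ha, by rw [Matrix.mulVec_smul, ha', smul_comm]⟩ }
        (fun w hw => hw.1) (by
          rintro i hi w ⟨hw, hw'⟩
          refine ⟨hW.st i hi w hw, ?_⟩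
          rw [Matrix.mulVec_mulVec, ← hzc i hi, ← Matrix.mulVec_mulVec, hw', Matrix.mulVec_smul])
        ((Submodule.ne_bot_iff _).2 ⟨w0, ⟨hw0, hw2⟩, hw1⟩)
      intro w hw
      rw [← h1] at hw
      exact hw.2
    by_cases h1 : ∃ w ∈ W, w ≠ 0 ∧ z *ᵥ w = (1 : ℂ) • w
    · exact ⟨1, one_mul 1, hP 1 (one_mul 1) h1⟩
    · refine ⟨-1, by norm_num, hP (-1) (by norm_num) ?_⟩
      obtain ⟨w, hw, hw0⟩ := Submodule.exists_mem_ne_zero_of_ne_bot hW.ne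
      refine ⟨w - z *ᵥ w, W.sub_mem hw (hzW w hw), ?_, ?_⟩
      · intro h2
        exact h1 ⟨w, hw, hw0, by rw [one_smul]; exact (sub_eq_zero.1 h2).symm⟩
      · rw [Matrix.mulVec_sub, hzz, neg_one_smul, neg_sub]
  obtain ⟨ε, hε, hzε⟩ := hsc
  refine hW.mi U hU (fun i hi w hw => ?_) h0
  have h1 : Γ i *ᵥ w = ε • ((Γ i * z) *ᵥ w) := by
    rw [← Matrix.mulVec_mulVec, hzε w (hU hw), Matrix.mulVec_smul, smul_smul, hε, one_smul]
  rw [h1]
  refine U.smul_mem _ (hE _ ?_ w hw)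
  rw [hz, Matrix.mul_smul]
  refine Subalgebra.smul_mem _ ?_ _
  obtain ⟨m, hm⟩ := hA
  have h2 := prod_mem_col (Γ := Γ) (A := A) (m + 1) (i :: A.toList) (by
    rw [List.length_cons, Finset.length_toList, hm]
    omega) (by
    intro j hj
    rcases List.mem_cons.1 hj with rfl | hj
    · exact hi
    · exact Finset.mem_toList.1 hj)
  rwa [List.map_cons, List.prod_cons] at h2

/-- Even parts: the grading. -/
theorem exists_sgA (h : Cl Γ) {A : Finset (Fin n)} (hA : Even A.card) (h0 : 0 < A.card) :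
    ∃ σ : Matrix N N ℂ, σ * σ = 1 ∧ (∀ i ∈ A, σ * Γ i = -(Γ i * σ)) ∧ σ ∈ Ev (col Γ A) := by
  obtain ⟨ζ, hζ⟩ := h.exists_z A
  refine ⟨ζ • om Γ A, hζ, fun i hi => ?_, ?_⟩
  · have h1 : Odd (A.card - 1) := by
      obtain ⟨m, hm⟩ := hA
      exact ⟨m - 1, by omega⟩
    rw [Matrix.smul_mul, Matrix.mul_smul, h.om_in hi, h1.neg_one_pow, neg_one_smul, smul_neg,
      neg_neg]
  · refine Subalgebra.smul_mem _ ?_ _
    obtain ⟨m, hm⟩ := hA
    exact prod_mem_col m _ (by rw [Finset.length_toList, hm]) fun i hi => Finset.mem_toList.1 hi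

theorem mn_even (h : Cl Γ) {A : Finset (Fin n)} (h0 : 0 < A.card) {σ : Matrix N N ℂ}
    (h1 : σ * σ = 1) (h2 : ∀ i ∈ A, σ * Γ i = -(Γ i * σ)) (h3 : σ ∈ Ev (col Γ A))
    {W : Submodule ℂ (N → ℂ)}
    (hW : Mn Γ A W) {U : Submodule ℂ (N → ℂ)} (hU : U ≤ W)
    (hE : ∀ X ∈ Ev (col Γ A), ∀ w ∈ U, X *ᵥ w ∈ U) (hne : U ≠ ⊥) : U = W ∨
      ∃ ε : ℂ, (ε = 1 ∨ ε = -1) ∧ ∀ m ∈ W, m ∈ U ↔ σ *ᵥ m = ε • m := by
  obtain ⟨i0, hi0⟩ := Finset.card_pos.1 h0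
  have hs : ∀ m : N → ℂ, σ *ᵥ (σ *ᵥ m) = m := by
    intro m
    rw [Matrix.mulVec_mulVec, h1, Matrix.one_mulVec]
  have hΓΓ : ∀ i (m : N → ℂ), Γ i *ᵥ (Γ i *ᵥ m) = m := by
    intro i m
    rw [Matrix.mulVec_mulVec, h.sq_one, Matrix.one_mulVec]
  have hcomm : ∀ X ∈ Ev (col Γ A), σ * X = X * σ := by
    intro X hX
    refine com_adjoin ?_ hX
    rintro _ ⟨j, k, rfl⟩
    by_cases hj : j ∈ A
    · by_cases hk : k ∈ A
      · rw [col_mem hj, col_mem hk, ← Matrix.mul_assoc, h2 j hj, Matrix.neg_mul,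
          Matrix.mul_assoc, h2 k hk, Matrix.mul_neg, neg_neg, Matrix.mul_assoc]
      · rw [col_not hk, Matrix.mul_zero, Matrix.mul_zero, Matrix.zero_mul]
    · rw [col_not hj, Matrix.zero_mul, Matrix.mul_zero, Matrix.zero_mul]
  have key : ∀ ε : ℂ, (ε = 1 ∨ ε = -1) → (∃ u ∈ U, u ≠ 0 ∧ σ *ᵥ u = ε • u) →
      ∀ w ∈ W, σ *ᵥ w = ε • w → w ∈ U := by
    rintro ε hε ⟨u0, hu0, hu1, hu2⟩ w hw hw2
    set Uε : Submodule ℂ (N → ℂ) :=
      { carrier := {w | w ∈ U ∧ σ *ᵥ w = ε • w}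
        zero_mem' := ⟨U.zero_mem, by rw [Matrix.mulVec_zero, smul_zero]⟩
        add_mem' := by
          rintro a b ⟨ha, ha'⟩ ⟨hb, hb'⟩
          exact ⟨U.add_mem ha hb, by rw [Matrix.mulVec_add, ha', hb', smul_add]⟩
        smul_mem' := by
          rintro c a ⟨ha, ha'⟩
          exact ⟨U.smul_mem _ ha, by rw [Matrix.mulVec_smul, ha', smul_comm]⟩ } with hUε
    have hUE : ∀ X ∈ Ev (col Γ A), ∀ w ∈ Uε, X *ᵥ w ∈ Uε := by
      rintro X hX w ⟨hw, hw'⟩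
      refine ⟨hE X hX w hw, ?_⟩
      rw [Matrix.mulVec_mulVec, hcomm X hX, ← Matrix.mulVec_mulVec, hw', Matrix.mulVec_smul]
    set V : Submodule ℂ (N → ℂ) := Uε ⊔ Uε.map (Matrix.mulVecLin (Γ i0)) with hV
    have hmemV : ∀ v, v ∈ V ↔ ∃ a ∈ Uε, ∃ b ∈ Uε, a + Γ i0 *ᵥ b = v := by
      intro v
      rw [hV, Submodule.mem_sup]
      constructor
      · rintro ⟨a, ha, _, ⟨b, hb, rfl⟩, rfl⟩
        exact ⟨a, ha, b, hb, rfl⟩
      · rintro ⟨a, ha, b, hb, rfl⟩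
        exact ⟨a, ha, _, ⟨b, hb, rfl⟩, rfl⟩
    have hVW : V = W := by
      refine hW.mi V ?_ ?_ ?_
      · intro v hv
        obtain ⟨a, ha, b, hb, rfl⟩ := (hmemV v).1 hv
        exact W.add_mem (hU ha.1) (hW.st i0 hi0 _ (hU hb.1))
      · intro i hi v hv
        obtain ⟨a, ha, b, hb, rfl⟩ := (hmemV v).1 hv
        refine (hmemV _).2 ⟨(Γ i * Γ i0) *ᵥ b, hUE _ (two_col hi hi0) b hb,
          (Γ i0 * Γ i) *ᵥ a, hUE _ (two_col hi0 hi) a ha, ?_⟩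
        rw [← Matrix.mulVec_mulVec, ← Matrix.mulVec_mulVec, hΓΓ, Matrix.mulVec_add, add_comm]
      · exact (Submodule.ne_bot_iff _).2 ⟨u0, (hmemV u0).2 ⟨u0, ⟨hu0, hu2⟩, 0, Uε.zero_mem, by
          rw [Matrix.mulVec_zero, add_zero]⟩, hu1⟩
    rw [← hVW] at hw
    obtain ⟨a, ha, b, hb, rfl⟩ := (hmemV w).1 hw
    have h4 : σ *ᵥ (Γ i0 *ᵥ b) = -(ε • (Γ i0 *ᵥ b)) := by
      rw [Matrix.mulVec_mulVec, h2 i0 hi0, Matrix.neg_mulVec, ← Matrix.mulVec_mulVec, hb.2,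
        Matrix.mulVec_smul]
    rw [Matrix.mulVec_add, ha.2, h4, smul_add, add_right_inj] at hw2
    have hε0 : ε ≠ 0 := by
      rcases hε with rfl | rfl
      · exact one_ne_zero
      · norm_num
    have h5 : (2 : ℂ) • (ε • (Γ i0 *ᵥ b)) = 0 := by
      rw [two_smul]
      nth_rewrite 1 [← hw2]
      exact neg_add_cancel _
    have h6 : Γ i0 *ᵥ b = 0 := by
      rw [smul_eq_zero, or_iff_right two_ne_zero, smul_eq_zero, or_iff_right hε0] at h5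
      exact h5
    rw [h6, add_zero]
    exact ha.1
  have hsplit : ∀ m : N → ℂ, m = (2 : ℂ)⁻¹ • (m + σ *ᵥ m) + (2 : ℂ)⁻¹ • (m - σ *ᵥ m) := by
    intro m
    rw [← smul_add, add_add_sub_cancel, ← two_smul ℂ m, smul_smul, inv_mul_cancel₀ two_ne_zero,
      one_smul]
  have hp : ∀ m : N → ℂ, σ *ᵥ ((2 : ℂ)⁻¹ • (m + σ *ᵥ m)) =
      (1 : ℂ) • ((2 : ℂ)⁻¹ • (m + σ *ᵥ m)) := by
    intro m
    rw [Matrix.mulVec_smul, Matrix.mulVec_add, hs, one_smul, add_comm]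
  have hm : ∀ m : N → ℂ, σ *ᵥ ((2 : ℂ)⁻¹ • (m - σ *ᵥ m)) =
      (-1 : ℂ) • ((2 : ℂ)⁻¹ • (m - σ *ᵥ m)) := by
    intro m
    rw [Matrix.mulVec_smul, Matrix.mulVec_sub, hs, neg_one_smul, ← smul_neg, neg_sub]
  have hUσ : ∀ w ∈ U, σ *ᵥ w ∈ U := fun w hw => hE σ h3 w hw
  have hWσ : ∀ w ∈ W, σ *ᵥ w ∈ W := fun w hw => ev_stable_of hW.st h3 hw
  by_cases c1 : ∃ w ∈ U, w ≠ 0 ∧ σ *ᵥ w = (1 : ℂ) • w
  · by_cases c2 : ∃ w ∈ U, w ≠ 0 ∧ σ *ᵥ w = (-1 : ℂ) • w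
    · left
      refine le_antisymm hU fun m hmW => ?_
      rw [hsplit m]
      exact U.add_mem (key 1 (Or.inl rfl) c1 _ (W.smul_mem _ (W.add_mem hmW (hWσ m hmW))) (hp m))
        (key (-1) (Or.inr rfl) c2 _ (W.smul_mem _ (W.sub_mem hmW (hWσ m hmW))) (hm m))
    · push Not at c2
      right
      refine ⟨1, Or.inl rfl, fun m hmW => ⟨fun hmU => ?_, fun h5 =>
        key 1 (Or.inl rfl) c1 m hmW h5⟩⟩
      have h4 : (2 : ℂ)⁻¹ • (m - σ *ᵥ m) = 0 := by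
        by_contra h5
        exact c2 _ (U.smul_mem _ (U.sub_mem hmU (hUσ m hmU))) h5 (hm m)
      rw [smul_eq_zero, or_iff_right (by norm_num), sub_eq_zero] at h4
      rw [one_smul]
      exact h4.symm
  · push Not at c1
    obtain ⟨w, hw, hw0⟩ := Submodule.exists_mem_ne_zero_of_ne_bot hne
    have h5 : ∀ m ∈ U, σ *ᵥ m = (-1 : ℂ) • m := by
      intro m hmU
      have h4 : (2 : ℂ)⁻¹ • (m + σ *ᵥ m) = 0 := by
        by_contra h5
        exact c1 _ (U.smul_mem _ (U.add_mem hmU (hUσ m hmU))) h5 (hp m)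
      rw [smul_eq_zero, or_iff_right (by norm_num)] at h4
      rw [neg_one_smul]
      exact eq_neg_of_add_eq_zero_right h4
    right
    exact ⟨-1, Or.inr rfl, fun m hmW => ⟨fun hmU => h5 m hmU, fun h6 =>
      key (-1) (Or.inr rfl) ⟨w, hw, hw0, h5 w hw⟩ m hmW h6⟩⟩

end Cl

end Pool.Agent.TH164.Spin
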