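import Pool.Agent.TH164.Spin.Rm2

/-!
# The classification for a part of a system of Clifford matrices
-/

set_option autoImplicit false
set_option linter.unusedSectionVars false
set_option linter.unusedVariables false

open Module Matrix

attribute [local instance 100] LieRing.ofAssociativeRing

namespace Pool.Agent.TH164.Spin

variable {N : Type} [Fintype N] [DecidableEq N] [Nonempty N] {n : ℕ}
variable {Γ : Fin n → Matrix N N ℂ}

/-- The operator `y` on `W` is the restriction of the matrix `X`. -/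
def IsR {W : Submodule ℂ (N → ℂ)} (X : Matrix N N ℂ) (y : End ℂ W) : Prop :=
  ∀ w : W, ((y w : W) : N → ℂ) = X *ᵥ (w : N → ℂ)

namespace IsR

variable {W : Submodule ℂ (N → ℂ)} {X X' : Matrix N N ℂ} {y y' : End ℂ W}

theorem uniq (h : IsR X y) (h' : IsR X y') : y = y' :=
  LinearMap.ext fun w => Subtype.ext ((h w).trans (h' w).symm)

theorem zero : IsR (0 : Matrix N N ℂ) (0 : End ℂ W) := fun w => by
  rw [Matrix.zero_mulVec]
  rfl

theorem one : IsR (1 : Matrix N N ℂ) (1 : End ℂ W) := fun w => by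
  rw [Matrix.one_mulVec]
  rfl

theorem add (h : IsR X y) (h' : IsR X' y') : IsR (X + X') (y + y') := fun w => by
  rw [Matrix.add_mulVec, ← h w, ← h' w]
  rfl

theorem sub (h : IsR X y) (h' : IsR X' y') : IsR (X - X') (y - y') := fun w => by
  rw [Matrix.sub_mulVec, ← h w, ← h' w]
  rfl

theorem smul (c : ℂ) (h : IsR X y) : IsR (c • X) (c • y) := fun w => by
  rw [Matrix.smul_mulVec, ← h w]
  rfl

theorem neg (h : IsR X y) : IsR (-X) (-y) := fun w => by
  rw [Matrix.neg_mulVec, ← h w]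
  rfl

theorem mul (h : IsR X y) (h' : IsR X' y') : IsR (X * X') (y * y') := fun w => by
  rw [← Matrix.mulVec_mulVec, ← h' w, ← h (y' w)]
  rfl

end IsR

/-- Restriction. -/
noncomputable def rop (W : Submodule ℂ (N → ℂ)) (X : Matrix N N ℂ)
    (hX : ∀ w ∈ W, X *ᵥ w ∈ W) : End ℂ W := (Matrix.mulVecLin X).restrict hX

theorem rop_isR {W : Submodule ℂ (N → ℂ)} {X : Matrix N N ℂ} (hX : ∀ w ∈ W, X *ᵥ w ∈ W) :
    IsR X (rop W X hX) := fun w => rfl

/-- The operators on `W` given by matrices in `V`. -/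
def rsub (W : Submodule ℂ (N → ℂ)) (V : Submodule ℂ (Matrix N N ℂ)) : Submodule ℂ (End ℂ W) where
  carrier := {y | ∃ X ∈ V, IsR X y}
  zero_mem' := ⟨0, V.zero_mem, IsR.zero⟩
  add_mem' := by
    rintro a b ⟨X, hX, h1⟩ ⟨Y, hY, h2⟩
    exact ⟨X + Y, V.add_mem hX hY, h1.add h2⟩
  smul_mem' := by
    rintro c a ⟨X, hX, h1⟩
    exact ⟨c • X, V.smul_mem _ hX, h1.smul c⟩

theorem mem_rsub {W : Submodule ℂ (N → ℂ)} {V : Submodule ℂ (Matrix N N ℂ)} {y : End ℂ W} :
    y ∈ rsub W V ↔ ∃ X ∈ V, IsR X y := Iff.rfl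

/-- The bilinear form of the trace on `W`. -/
noncomputable def tq (W : Submodule ℂ (N → ℂ)) : End ℂ W →ₗ[ℂ] End ℂ W →ₗ[ℂ] ℂ :=
  LinearMap.mk₂ ℂ (fun t s => LinearMap.trace ℂ W (t * s) / (finrank ℂ W : ℂ))
    (fun a b c => by rw [add_mul, map_add, add_div])
    (fun c a b => by rw [smul_mul_assoc, map_smul, smul_eq_mul, smul_eq_mul, mul_div_assoc])
    (fun a b c => by rw [mul_add, map_add, add_div])
    (fun c a b => by rw [mul_smul_comm, map_smul, smul_eq_mul, smul_eq_mul, mul_div_assoc])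

theorem tq_apply {W : Submodule ℂ (N → ℂ)} (t s : End ℂ W) :
    tq W t s = LinearMap.trace ℂ W (t * s) / (finrank ℂ W : ℂ) := rfl

namespace Cl

theorem tq_eq (h : Cl Γ) {W : Submodule ℂ (N → ℂ)} (hW : W ≠ ⊥) {X Y : Matrix N N ℂ}
    (hX : X ∈ Ts Γ) (hY : Y ∈ Ts Γ) {t s : End ℂ W} (ht : IsR X t) (hs : IsR Y s) :
    tq W t s = bq X Y ∧ t * s + s * t = algebraMap ℂ (End ℂ W) (2 * tq W t s) := by
  have hfr : (finrank ℂ W : ℂ) ≠ 0 := by
    have h1 : finrank ℂ W ≠ 0 := fun h2 => hW (Submodule.finrank_eq_zero.1 h2)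
    exact_mod_cast h1
  have h1 : t * s + s * t = (2 * bq X Y) • (1 : End ℂ W) := by
    refine IsR.uniq (X := X * Y + Y * X) ((ht.mul hs).add (hs.mul ht)) ?_
    rw [h.relT hX hY]
    exact IsR.one.smul _
  have h2 : tq W t s = bq X Y := by
    have h3 := congrArg (LinearMap.trace ℂ W) h1
    rw [map_add, LinearMap.trace_mul_comm ℂ s t, map_smul, LinearMap.trace_one, smul_eq_mul,
      ← two_mul, mul_assoc] at h3
    have h4 := mul_left_cancel₀ (two_ne_zero' ℂ) h3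
    rw [tq_apply, h4, mul_div_assoc, div_self hfr, mul_one]
  exact ⟨h2, by rw [h1, h2, Algebra.algebraMap_eq_smul_one]⟩

theorem bq_col (h : Cl Γ) {A : Finset (Fin n)} {v : Matrix N N ℂ} (hv : v ∈ Ts (col Γ A))
    {j : Fin n} (hj : j ∉ A) : bq v (Γ j) = 0 := by
  induction hv using Submodule.span_induction with
  | mem x hx =>
    obtain ⟨i, rfl⟩ := hx
    by_cases hi : i ∈ A
    · rw [col_mem hi, h.bq_gam, if_neg]
      rintro rfl
      exact hj hi
    · rw [col_not hi, map_zero, LinearMap.zero_apply]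
  | zero => rw [map_zero, LinearMap.zero_apply]
  | add a b _ _ ha hb => rw [map_add, LinearMap.add_apply, ha, hb, add_zero]
  | smul c a _ ha => rw [map_smul, LinearMap.smul_apply, ha, smul_zero]

theorem nd_col (h : Cl Γ) {A : Finset (Fin n)} {v : Matrix N N ℂ} (hv : v ∈ Ts (col Γ A))
    (h0 : ∀ s ∈ Ts (col Γ A), bq v s = 0) : v = 0 := by
  refine h.nd (Ts_col_le hv) fun s hs => ?_
  obtain ⟨c, rfl⟩ := mem_Ts.1 hs
  rw [map_sum]
  refine Finset.sum_eq_zero fun j _ => ?_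
  rw [map_smul]
  by_cases hj : j ∈ A
  · rw [h0 _ (gam_col hj), smul_zero]
  · rw [h.bq_col hv hj, smul_zero]

theorem la_vec_col (h : Cl Γ) {A : Finset (Fin n)} {X t : Matrix N N ℂ}
    (hX : X ∈ La (col Γ A)) (ht : t ∈ Ts (col Γ A)) : X * t - t * X ∈ Ts (col Γ A) := by
  induction hX using Submodule.span_induction with
  | mem x hx =>
    obtain ⟨a, ha, b, hb, rfl⟩ := hx
    rw [h.com_vec (Ts_col_le ha) (Ts_col_le hb) (Ts_col_le ht)]
    exact Submodule.smul_mem _ _ (Submodule.sub_mem _ (Submodule.smul_mem _ _ ha)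
      (Submodule.smul_mem _ _ hb))
  | zero => simp
  | add a b _ _ ha hb =>
    rw [Matrix.add_mul, Matrix.mul_add, add_sub_add_comm]
    exact Submodule.add_mem _ ha hb
  | smul c a _ ha =>
    rw [Matrix.smul_mul, Matrix.mul_smul, ← smul_sub]
    exact Submodule.smul_mem _ _ ha

theorem la_br_col (h : Cl Γ) {A : Finset (Fin n)} {X Y : Matrix N N ℂ}
    (hX : X ∈ La (col Γ A)) (hY : Y ∈ La (col Γ A)) : X * Y - Y * X ∈ La (col Γ A) := by
  induction hY using Submodule.span_induction with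
  | mem y hy =>
    obtain ⟨a, ha, b, hb, rfl⟩ := hy
    have h1 : X * (a * b - b * a) - (a * b - b * a) * X =
        ((X * a - a * X) * b - b * (X * a - a * X)) + (a * (X * b - b * X) -
          (X * b - b * X) * a) := by
      noncomm_ring
    rw [h1]
    exact Submodule.add_mem _ (Submodule.subset_span ⟨_, h.la_vec_col hX ha, _, hb, rfl⟩)
      (Submodule.subset_span ⟨_, ha, _, h.la_vec_col hX hb, rfl⟩)
  | zero => simp
  | add a b _ _ ha hb =>
    rw [Matrix.add_mul, Matrix.mul_add, add_sub_add_comm]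
    exact Submodule.add_mem _ ha hb
  | smul c a _ ha =>
    rw [Matrix.smul_mul, Matrix.mul_smul, ← smul_sub]
    exact Submodule.smul_mem _ _ ha

/-- Vectors act faithfully. -/
theorem vec_faith (h : Cl Γ) {A : Finset (Fin n)} {W : Submodule ℂ (N → ℂ)} (hW : Mn Γ A W)
    {v : Matrix N N ℂ} (hv : v ∈ Ts (col Γ A)) (h0 : ∀ w ∈ W, v *ᵥ w = 0) : v = 0 := by
  have hst : ∀ s ∈ Ts (col Γ A), ∀ w ∈ W, s *ᵥ w ∈ W := by
    intro s hs w hw
    obtain ⟨c, rfl⟩ := mem_Ts.1 hs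
    rw [Matrix.sum_mulVec]
    refine W.sum_mem fun i _ => ?_
    rw [Matrix.smul_mulVec]
    refine W.smul_mem _ ?_
    by_cases hi : i ∈ A
    · rw [col_mem hi]
      exact hW.st i hi w hw
    · rw [col_not hi, Matrix.zero_mulVec]
      exact W.zero_mem
  obtain ⟨w, hw, hw0⟩ := Submodule.exists_mem_ne_zero_of_ne_bot hW.ne
  refine h.nd_col hv fun s hs => ?_
  have h1 := congrArg (fun X : Matrix N N ℂ => X *ᵥ w) (h.relT (Ts_col_le hv) (Ts_col_le hs))
  simp only [Matrix.add_mulVec, ← Matrix.mulVec_mulVec, Matrix.smul_mulVec, Matrix.one_mulVec] at h1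
  rw [h0 w hw, h0 _ (hst s hs w hw), Matrix.mulVec_zero, add_zero] at h1
  have h2 := (smul_eq_zero.1 h1.symm).resolve_right hw0
  exact (mul_eq_zero.1 h2).resolve_left two_ne_zero

theorem la_faith (h : Cl Γ) {A : Finset (Fin n)} {W : Submodule ℂ (N → ℂ)} (hW : Mn Γ A W)
    {X : Matrix N N ℂ} (hX : X ∈ La (col Γ A)) (h0 : ∀ w ∈ W, X *ᵥ w = 0) : X = 0 := by
  obtain ⟨c, hc⟩ := h.scalar_of_commute (X := X) (fun i => by
    by_cases hi : i ∈ A
    · have h1 := h.vec_faith hW (h.la_vec_col hX (gam_col hi)) (fun w hw => by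
        rw [Matrix.sub_mulVec, ← Matrix.mulVec_mulVec, ← Matrix.mulVec_mulVec, h0 w hw,
          h0 _ (hW.st i hi w hw), Matrix.mulVec_zero, sub_zero])
      exact sub_eq_zero.1 h1
    · exact h.ev_col_com (La_le_Ev hX) hi)
  have h1 := la_trace' hX
  rw [hc, Matrix.trace_smul, Matrix.trace_one, smul_eq_mul, mul_eq_zero] at h1
  rw [hc, h1.resolve_right card_ne, zero_smul]

end Cl

/-- The Lie algebra of operators on `W`. -/
def Lw (W : Submodule ℂ (N → ℂ)) (l : Submodule ℂ (Matrix N N ℂ))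
    (hbr : ∀ X ∈ l, ∀ Y ∈ l, X * Y - Y * X ∈ l) : LieSubalgebra ℂ (End ℂ W) :=
  { rsub W l with
    lie_mem' := by
      rintro a b ⟨X, hX, h1⟩ ⟨Y, hY, h2⟩
      exact ⟨X * Y - Y * X, hbr X hX Y hY, (h1.mul h2).sub (h2.mul h1)⟩ }

theorem mem_Lw {W : Submodule ℂ (N → ℂ)} {l : Submodule ℂ (Matrix N N ℂ)}
    {hbr : ∀ X ∈ l, ∀ Y ∈ l, X * Y - Y * X ∈ l} {y : End ℂ W} :
    y ∈ Lw W l hbr ↔ ∃ X ∈ l, IsR X y := Iff.rfl

/-- The form on the operators given by vectors. -/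
noncomputable def qw (Γ : Fin n → Matrix N N ℂ) (A : Finset (Fin n)) (W : Submodule ℂ (N → ℂ)) :
    rsub W (Ts (col Γ A)) →ₗ[ℂ] rsub W (Ts (col Γ A)) →ₗ[ℂ] ℂ :=
  (tq W).compl₁₂ (rsub W (Ts (col Γ A))).subtype (rsub W (Ts (col Γ A))).subtype

namespace Cl

section part

variable {A : Finset (Fin n)} {W : Submodule ℂ (N → ℂ)}

theorem vec_stable (h : Cl Γ) (hW : Mn Γ A W) {s : Matrix N N ℂ} (hs : s ∈ Ts (col Γ A))
    {w : N → ℂ} (hw : w ∈ W) : s *ᵥ w ∈ W := by
  obtain ⟨c, rfl⟩ := mem_Ts.1 hs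
  rw [Matrix.sum_mulVec]
  refine W.sum_mem fun i _ => ?_
  rw [Matrix.smul_mulVec]
  refine W.smul_mem _ ?_
  by_cases hi : i ∈ A
  · rw [col_mem hi]
    exact hW.st i hi w hw
  · rw [col_not hi, Matrix.zero_mulVec]
    exact W.zero_mem

theorem p_hq (h : Cl Γ) (hW : Mn Γ A W) (t s : rsub W (Ts (col Γ A))) :
    (t : End ℂ W) * s + (s : End ℂ W) * t = algebraMap ℂ (End ℂ W) (2 * qw Γ A W t s) := by
  obtain ⟨t, X, hX, ht⟩ := t
  obtain ⟨s, Y, hY, hs⟩ := s
  exact (h.tq_eq hW.ne (Ts_col_le hX) (Ts_col_le hY) ht hs).2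

theorem p_nd (h : Cl Γ) (hW : Mn Γ A W) (t : rsub W (Ts (col Γ A)))
    (h0 : ∀ s, qw Γ A W t s = 0) : t = 0 := by
  obtain ⟨t, X, hX, ht⟩ := t
  have h1 : X = 0 := h.nd_col hX fun s hs => by
    have h2 := h0 ⟨rop W s fun w hw => h.vec_stable hW hs hw, s, hs, rop_isR _⟩
    have h3 := (h.tq_eq hW.ne (Ts_col_le hX) (Ts_col_le hs) ht
      (rop_isR fun w hw => h.vec_stable hW hs hw)).1
    rw [← h3]
    exact h2
  refine Subtype.ext (IsR.uniq ht ?_)
  rw [h1]
  exact IsR.zero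

theorem p_fr (h : Cl Γ) (hW : Mn Γ A W) : finrank ℂ (rsub W (Ts (col Γ A))) = A.card := by
  set G : A → End ℂ W := fun i => rop W (Γ i) (hW.st i i.2) with hG
  have hGR : ∀ i : A, IsR (Γ i) (G i) := fun i => rop_isR _
  have hli : LinearIndependent ℂ G := by
    refine (Fintype.linearIndependent_iff (R := ℂ) (v := G)).2 ?_
    intro g hg i
    have h1 : tq W (∑ j, g j • G j) (G i) = g i := by
      rw [map_sum, LinearMap.sum_apply, Finset.sum_eq_single i]
      · rw [map_smul, LinearMap.smul_apply, (h.tq_eq hW.ne (gam_mem _) (gam_mem _) (hGR i)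
          (hGR i)).1, h.bq_gam, if_pos rfl, smul_eq_mul, mul_one]
      · intro j _ hj
        rw [map_smul, LinearMap.smul_apply, (h.tq_eq hW.ne (gam_mem _) (gam_mem _) (hGR j)
          (hGR i)).1, h.bq_gam, if_neg (fun h2 => hj (Subtype.ext h2)), smul_zero]
      · intro hi
        exact absurd (Finset.mem_univ _) hi
    rw [hg, map_zero, LinearMap.zero_apply] at h1
    exact h1.symm
  have hsp : rsub W (Ts (col Γ A)) = Submodule.span ℂ (Set.range G) := by
    refine le_antisymm ?_ ?_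
    · rintro y ⟨X, hX, hy⟩
      have key : ∀ X ∈ Ts (col Γ A), ∃ y' ∈ Submodule.span ℂ (Set.range G), IsR X y' := by
        intro X hX
        induction hX using Submodule.span_induction with
        | mem x hx =>
          obtain ⟨i, rfl⟩ := hx
          by_cases hi : i ∈ A
          · rw [col_mem hi]
            exact ⟨G ⟨i, hi⟩, Submodule.subset_span ⟨_, rfl⟩, hGR ⟨i, hi⟩⟩
          · rw [col_not hi]
            exact ⟨0, Submodule.zero_mem _, IsR.zero⟩
        | zero => exact ⟨0, Submodule.zero_mem _, IsR.zero⟩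
        | add a b _ _ ha hb =>
          obtain ⟨a', ha1, ha2⟩ := ha
          obtain ⟨b', hb1, hb2⟩ := hb
          exact ⟨a' + b', Submodule.add_mem _ ha1 hb1, ha2.add hb2⟩
        | smul c a _ ha =>
          obtain ⟨a', ha1, ha2⟩ := ha
          exact ⟨c • a', Submodule.smul_mem _ _ ha1, ha2.smul c⟩
      obtain ⟨y', hy1, hy2⟩ := key X hX
      rw [hy.uniq hy2]
      exact hy1
    · refine Submodule.span_le.2 ?_
      rintro _ ⟨i, rfl⟩
      exact ⟨Γ i, gam_col i.2, hGR i⟩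
  rw [hsp, finrank_span_eq_card hli, Fintype.card_coe]

variable {l : Submodule ℂ (Matrix N N ℂ)} {hbr : ∀ X ∈ l, ∀ Y ∈ l, X * Y - Y * X ∈ l}

theorem p_hL (h : Cl Γ) (hW : Mn Γ A W) (hle : l ≤ La (col Γ A)) (x : End ℂ W)
    (hx : x ∈ Lw W l hbr) : x ∈ Submodule.span ℂ {y | ∃ t s : rsub W (Ts (col Γ A)),
      y = (t : End ℂ W) * s - s * t} := by
  obtain ⟨X, hX, hy⟩ := hx
  have key : ∀ X ∈ La (col Γ A), ∃ y' ∈ Submodule.span ℂ {y | ∃ t s : rsub W (Ts (col Γ A)),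
      y = (t : End ℂ W) * s - s * t}, IsR X y' := by
    intro X hX
    induction hX using Submodule.span_induction with
    | mem x hx =>
      obtain ⟨t, ht, s, hs, rfl⟩ := hx
      have h1 : IsR t (rop W t fun w hw => h.vec_stable hW ht hw) := rop_isR _
      have h2 : IsR s (rop W s fun w hw => h.vec_stable hW hs hw) := rop_isR _
      exact ⟨_, Submodule.subset_span ⟨⟨_, t, ht, h1⟩, ⟨_, s, hs, h2⟩, rfl⟩,
        (h1.mul h2).sub (h2.mul h1)⟩
    | zero => exact ⟨0, Submodule.zero_mem _, IsR.zero⟩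
    | add a b _ _ ha hb =>
      obtain ⟨a', ha1, ha2⟩ := ha
      obtain ⟨b', hb1, hb2⟩ := hb
      exact ⟨a' + b', Submodule.add_mem _ ha1 hb1, ha2.add hb2⟩
    | smul c a _ ha =>
      obtain ⟨a', ha1, ha2⟩ := ha
      exact ⟨c • a', Submodule.smul_mem _ _ ha1, ha2.smul c⟩
  obtain ⟨y', hy1, hy2⟩ := key X (hle hX)
  rw [hy.uniq hy2]
  exact hy1

/-- Stable subspaces of `W` as subspaces of the whole space. -/
theorem p_stable (h : Cl Γ) (hW : Mn Γ A W) (hle : l ≤ La (col Γ A))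
    (hirr : Ev (col Γ A) ≤ Algebra.adjoin ℂ (l : Set (Matrix N N ℂ))) {U : Submodule ℂ W}
    (hU : ∀ x ∈ Lw W l hbr, ∀ m ∈ U, x m ∈ U) :
    ∀ X ∈ Ev (col Γ A), ∀ w ∈ U.map W.subtype, X *ᵥ w ∈ U.map W.subtype := by
  intro X hX0
  have hX := hirr hX0
  clear hX0
  induction hX using Algebra.adjoin_induction with
  | mem x hx =>
    rintro _ ⟨u, hu, rfl⟩
    have h1 : ∀ w ∈ W, x *ᵥ w ∈ W := fun w hw => ev_stable_of hW.st (La_le_Ev (hle hx)) hw
    exact ⟨rop W x h1 u, hU _ ⟨x, hx, rop_isR h1⟩ u hu, rfl⟩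
  | algebraMap r =>
    intro w hw
    rw [Algebra.algebraMap_eq_smul_one, Matrix.smul_mulVec, Matrix.one_mulVec]
    exact Submodule.smul_mem _ _ hw
  | add x y _ _ hx hy =>
    intro w hw
    rw [Matrix.add_mulVec]
    exact Submodule.add_mem _ (hx w hw) (hy w hw)
  | mul x y _ _ hx hy =>
    intro w hw
    rw [← Matrix.mulVec_mulVec]
    exact hx _ (hy w hw)

theorem map_le (U : Submodule ℂ W) : U.map W.subtype ≤ W := by
  rintro _ ⟨u, _, rfl⟩
  exact u.2

theorem map_ne {U : Submodule ℂ W} (hU : U ≠ ⊥) : U.map W.subtype ≠ ⊥ := by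
  intro h1
  refine hU ((Submodule.eq_bot_iff _).2 fun u hu => ?_)
  have h2 : (u : N → ℂ) ∈ U.map W.subtype := ⟨u, hu, rfl⟩
  rw [h1, Submodule.mem_bot] at h2
  exact Subtype.ext h2

theorem top_of_map {U : Submodule ℂ W} (hU : U.map W.subtype = W) : U = ⊤ := by
  rw [eq_top_iff]
  intro w _
  have h1 : (w : N → ℂ) ∈ U.map W.subtype := by
    rw [hU]
    exact w.2
  obtain ⟨u, hu, h2⟩ := h1
  rw [← Subtype.ext h2]
  exact hu

/-- Odd parts are irreducible. -/
theorem p_irr (h : Cl Γ) (hW : Mn Γ A W) (hA : Odd A.card) (hle : l ≤ La (col Γ A))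
    (hirr : Ev (col Γ A) ≤ Algebra.adjoin ℂ (l : Set (Matrix N N ℂ))) (U : Submodule ℂ W)
    (hU : ∀ x ∈ Lw W l hbr, ∀ m ∈ U, x m ∈ U) (h0 : U ≠ ⊥) : U = ⊤ :=
  top_of_map (h.mn_odd hA hW (map_le U) (h.p_stable hW hle hirr hU) (map_ne h0))

/-- Vectors act irreducibly. -/
theorem p_irc (h : Cl Γ) (hW : Mn Γ A W) (U : Submodule ℂ W)
    (hU : ∀ t : rsub W (Ts (col Γ A)), ∀ m ∈ U, (t : End ℂ W) m ∈ U) (h0 : U ≠ ⊥) : U = ⊤ := by
  refine top_of_map (hW.mi _ (map_le U) ?_ (map_ne h0))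
  rintro i hi _ ⟨u, hu, rfl⟩
  exact ⟨rop W (Γ i) (hW.st i hi) u, hU ⟨_, Γ i, gam_col hi, rop_isR (hW.st i hi)⟩ u hu, rfl⟩

/-- Even parts: the structure. -/
theorem p_gr (h : Cl Γ) (hW : Mn Γ A W) (hA : Even A.card) (h3 : 0 < A.card)
    (hle : l ≤ La (col Γ A))
    (hirr : Ev (col Γ A) ≤ Algebra.adjoin ℂ (l : Set (Matrix N N ℂ))) :
    ∃ σ : End ℂ W, Gr (Lw W l hbr) (rsub W (Ts (col Γ A))) (qw Γ A W) σ := by
  obtain ⟨σ, s1, s2, s3⟩ := h.exists_sgA hA h3
  have hσW : ∀ w ∈ W, σ *ᵥ w ∈ W := fun w hw => ev_stable_of hW.st s3 hw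
  have hσR : IsR σ (rop W σ hσW) := rop_isR hσW
  refine ⟨rop W σ hσW, ?_⟩
  refine ⟨h.p_hq hW, h.p_nd hW, h.p_hL hW hle, ?_, ?_, ?_⟩
  · refine IsR.uniq (hσR.mul hσR) ?_
    rw [s1]
    exact IsR.one
  · rintro ⟨t, X, hX, ht⟩
    refine IsR.uniq (hσR.mul ht) ?_
    have h1 : σ * X = -(X * σ) := by
      clear ht
      induction hX using Submodule.span_induction with
      | mem x hx =>
        obtain ⟨i, rfl⟩ := hx
        by_cases hi : i ∈ A
        · rw [col_mem hi]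
          exact s2 i hi
        · rw [col_not hi, Matrix.mul_zero, Matrix.zero_mul, neg_zero]
      | zero => rw [Matrix.mul_zero, Matrix.zero_mul, neg_zero]
      | add a b _ _ ha hb => rw [Matrix.mul_add, Matrix.add_mul, ha, hb, neg_add]
      | smul c a _ ha => rw [Matrix.mul_smul, Matrix.smul_mul, ha, smul_neg]
    rw [h1]
    exact (ht.mul hσR).neg
  · intro U hU h0
    rcases h.mn_even h3 s1 s2 s3 hW (map_le U) (h.p_stable hW hle hirr hU) (map_ne h0) with
      h1 | ⟨ε, hε, h1⟩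
    · exact Or.inl (top_of_map h1)
    · refine Or.inr ⟨ε, hε, fun m => ?_⟩
      have h2 := h1 m m.2
      constructor
      · intro hm
        exact Subtype.ext (h2.1 ⟨m, hm, rfl⟩)
      · intro hm
        obtain ⟨u, hu, h4⟩ := h2.2 (congrArg Subtype.val hm)
        rw [← Subtype.ext h4]
        exact hu

end part

/-- **The classification for a part.** -/
theorem part_full (h : Cl Γ) {A : Finset (Fin n)} (h3 : 3 ≤ A.card) (h5 : A.card ≠ 5)
    {l : Submodule ℂ (Matrix N N ℂ)} (hbr : ∀ X ∈ l, ∀ Y ∈ l, X * Y - Y * X ∈ l)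
    (hle : l ≤ La (col Γ A))
    (hirr : Ev (col Γ A) ≤ Algebra.adjoin ℂ (l : Set (Matrix N N ℂ))) : La (col Γ A) ≤ l := by
  obtain ⟨W, hW⟩ := exists_Mn Γ A
  haveI : Nontrivial W := Submodule.nontrivial_iff_ne_bot.2 hW.ne
  have key : ∀ t s : rsub W (Ts (col Γ A)), (t : End ℂ W) * s - s * t ∈ Lw W l hbr := by
    rcases Nat.even_or_odd A.card with hA | hA
    · obtain ⟨σ, hσ⟩ := h.p_gr (hbr := hbr) hW hA (by omega) hle hirr
      intro t s
      exact hσ.full (fun U hU h0 => h.p_irc hW U hU h0) (by rw [h.p_fr hW]; exact h3) t s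
    · intro t s
      exact spin_full _ _ (qw Γ A W) (h.p_hq hW) (h.p_nd hW) (h.p_hL hW hle)
        (fun U hU h0 => h.p_irr hW hA hle hirr U hU h0) (by rw [h.p_fr hW]; exact h5) t s
  refine Submodule.span_le.2 ?_
  rintro _ ⟨t, ht, s, hs, rfl⟩
  have h1 : IsR t (rop W t fun w hw => h.vec_stable hW ht hw) := rop_isR _
  have h2 : IsR s (rop W s fun w hw => h.vec_stable hW hs hw) := rop_isR _
  have h9 := key ⟨_, t, ht, h1⟩ ⟨_, s, hs, h2⟩
  obtain ⟨X, hX, h4⟩ := h9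
  have h6 : IsR (t * s - s * t) (rop W t (fun w hw => h.vec_stable hW ht hw) *
      rop W s (fun w hw => h.vec_stable hW hs hw) -
      rop W s (fun w hw => h.vec_stable hW hs hw) *
      rop W t (fun w hw => h.vec_stable hW ht hw)) := (h1.mul h2).sub (h2.mul h1)
  have h7 := h.la_faith hW (Submodule.sub_mem _ (hle hX)
    (Submodule.subset_span ⟨t, ht, s, hs, rfl⟩)) (fun w hw => by
      rw [Matrix.sub_mulVec, sub_eq_zero]
      have h8 : w = ((⟨w, hw⟩ : W) : N → ℂ) := rfl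
      rw [h8]
      exact (h4 (⟨w, hw⟩ : W)).symm.trans (h6 (⟨w, hw⟩ : W)))
  rw [← sub_eq_zero.1 h7]
  exact hX

theorem ev_le_adjoin_la (A : Finset (Fin n)) (h : Cl Γ) :
    Ev (col Γ A) ≤ Algebra.adjoin ℂ (La (col Γ A) : Set (Matrix N N ℂ)) := by
  refine Algebra.adjoin_le ?_
  rintro _ ⟨i, j, rfl⟩
  by_cases hi : i ∈ A
  · by_cases hj : j ∈ A
    · by_cases hij : i = j
      · rw [hij, col_mem hj, h.sq_one]
        exact Subalgebra.one_mem _
      · have h1 : col Γ A i * col Γ A j = (1 / 2 : ℂ) •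
            (col Γ A i * col Γ A j - col Γ A j * col Γ A i) := by
          rw [col_mem hi, col_mem hj, h.anti' (fun h2 => hij h2.symm), sub_neg_eq_add,
            ← two_smul ℂ (Γ i * Γ j), smul_smul]
          norm_num
        have h2 : col Γ A i * col Γ A j - col Γ A j * col Γ A i ∈ La (col Γ A) :=
          Submodule.subset_span ⟨_, gam_mem i, _, gam_mem j, rfl⟩
        rw [h1]
        exact Subalgebra.smul_mem _ (Algebra.subset_adjoin h2) _
    · rw [col_not hj, Matrix.mul_zero]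
      exact Subalgebra.zero_mem _
  · rw [col_not hi, Matrix.zero_mul]
    exact Subalgebra.zero_mem _

/-- **There are no abelian ideals.** -/
theorem no_ab (h : Cl Γ) {A : Finset (Fin n)} (h3 : 3 ≤ A.card)
    {a : Submodule ℂ (Matrix N N ℂ)} (ha : a ≤ La (col Γ A))
    (hi : ∀ X ∈ La (col Γ A), ∀ Y ∈ a, X * Y - Y * X ∈ a)
    (hab : ∀ X ∈ a, ∀ Y ∈ a, X * Y = Y * X) : a = ⊥ := by
  obtain ⟨W, hW⟩ := exists_Mn Γ A
  haveI : Nontrivial W := Submodule.nontrivial_iff_ne_bot.2 hW.ne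
  have hbr : ∀ X ∈ La (col Γ A), ∀ Y ∈ La (col Γ A), X * Y - Y * X ∈ La (col Γ A) :=
    fun X hX Y hY => h.la_br_col hX hY
  have hirr := ev_le_adjoin_la A h
  set L := Lw W (La (col Γ A)) hbr with hL
  have hr : LieAlgebra.HasTrivialRadical ℂ L := by
    rcases Nat.even_or_odd A.card with hA | hA
    · obtain ⟨σ, hσ⟩ := h.p_gr (hbr := hbr) hW hA (by omega) le_rfl hirr
      exact hσ.rad_bot (by rw [h.p_fr hW]; exact h3)
    · have htr : ∀ x : L, LinearMap.trace ℂ W (LieModule.toEnd ℂ L W x) = 0 := by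
        rintro ⟨x, hx⟩
        change LinearMap.trace ℂ W x = 0
        have h1 := h.p_hL (hbr := hbr) hW le_rfl x hx
        clear hx
        induction h1 using Submodule.span_induction with
        | mem x hx =>
          obtain ⟨a, b, rfl⟩ := hx
          refine (map_sub (LinearMap.trace ℂ W) _ _).trans (sub_eq_zero.2 ?_)
          exact LinearMap.trace_mul_comm ℂ _ _
        | zero => exact map_zero _
        | add a b _ _ ha hb => exact (map_add _ _ _).trans (by rw [ha, hb, add_zero])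
        | smul c a _ ha => exact (map_smul _ _ _).trans (by rw [ha, smul_zero])
      haveI i3 : LieModule.IsIrreducible ℂ L W := LieModule.IsIrreducible.mk fun U hU => by
        have h1 := h.p_irr (hbr := hbr) hW hA le_rfl hirr U.toSubmodule
          (fun x hx m hm => U.lie_mem (x := ⟨x, hx⟩) hm) (by
          intro h2
          exact hU (by simpa using h2))
        simpa using h1
      exact LieAlgebra.hasTrivialRadical_of_isIrreducible_of_isFaithful ℂ L W htr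
  rw [LieAlgebra.hasTrivialRadical_iff_no_abelian_ideals] at hr
  let I : LieIdeal ℂ L :=
    { (rsub W a).comap (L : LieSubalgebra ℂ (End ℂ W)).toSubmodule.subtype with
      lie_mem := by
        rintro ⟨x, X, hX, hx⟩ ⟨y, hy0⟩ ⟨Y, hY, hy⟩
        exact ⟨X * Y - Y * X, hi X hX Y hY, (hx.mul hy).sub (hy.mul hx)⟩ }
  have hmemI : ∀ x : L, x ∈ I ↔ ∃ X ∈ a, IsR X (x : End ℂ W) := fun x => Iff.rfl
  have hIab : IsLieAbelian I := by
    refine ⟨?_⟩
    rintro ⟨⟨x, hx⟩, X, hX, h1⟩ ⟨⟨y, hy⟩, Y, hY, h2⟩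
    refine Subtype.ext (Subtype.ext ?_)
    change x * y - y * x = 0
    refine IsR.uniq ((IsR.mul h1 h2).sub (IsR.mul h2 h1)) ?_
    rw [hab X hX Y hY, sub_self]
    exact IsR.zero
  have hI := hr I hIab
  rw [Submodule.eq_bot_iff]
  intro X hX
  have hst : ∀ w ∈ W, X *ᵥ w ∈ W := fun w hw => ev_stable_of hW.st (La_le_Ev (ha hX)) hw
  have h1 : (⟨rop W X hst, X, ha hX, rop_isR hst⟩ : L) ∈ I := (hmemI _).2 ⟨X, hX, rop_isR hst⟩
  rw [hI, LieSubmodule.mem_bot] at h1
  have h2 : rop W X hst = 0 := congrArg Subtype.val h1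
  refine h.la_faith hW (ha hX) fun w hw => ?_
  have h4 := (rop_isR hst ⟨w, hw⟩).symm
  rw [h2] at h4
  exact h4

end Cl

end Pool.Agent.TH164.Spin
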