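import Pool.Agent.TH164.Spin.Rm3

/-!
# Two commuting parts
-/

set_option autoImplicit false
set_option linter.unusedSectionVars false
set_option linter.unusedVariables false

open Module Matrix

namespace Pool.Agent.TH164.Spin

variable {N : Type} [Fintype N] [DecidableEq N] [Nonempty N] {n : ℕ}
variable {Γ : Fin n → Matrix N N ℂ}

theorem bq_symm (X Y : Matrix N N ℂ) : bq X Y = bq Y X := by
  rw [bq_apply, bq_apply, Matrix.trace_mul_comm]

/-- Invariance. -/
theorem bq_inv (X Y Z : Matrix N N ℂ) : bq (X * Y - Y * X) Z = bq X (Y * Z - Z * Y) := by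
  rw [bq_apply, bq_apply, Matrix.sub_mul, Matrix.mul_sub, Matrix.trace_sub, Matrix.trace_sub,
    Matrix.trace_mul_cycle Y X Z, ← Matrix.mul_assoc X Z Y, Matrix.mul_assoc Z Y X,
    Matrix.trace_mul_comm Z (Y * X), ← Matrix.mul_assoc X Y Z]
  congr 2
  rw [Matrix.mul_assoc Y X Z, Matrix.trace_mul_comm Y (X * Z)]

/-- Dual bases. -/
theorem exists_dual (U : Submodule ℂ (Matrix N N ℂ))
    (hnd : ∀ X ∈ U, (∀ Y ∈ U, bq X Y = 0) → X = 0) :
    ∃ (p : ℕ) (u w : Fin p → Matrix N N ℂ), (∀ i, u i ∈ U) ∧ (∀ i, w i ∈ U) ∧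
      (∀ i j, bq (w i) (u j) = if i = j then 1 else 0) ∧
      (∀ X ∈ U, X = ∑ i, bq X (w i) • u i) ∧ (∀ X ∈ U, X = ∑ i, bq X (u i) • w i) := by
  let β : LinearMap.BilinForm ℂ U := (bq (N := N)).compl₁₂ U.subtype U.subtype
  have hβa : ∀ x y : U, β x y = bq (x : Matrix N N ℂ) y := fun x y => rfl
  have hβ : β.Nondegenerate := by
    rw [LinearMap.BilinForm.nondegenerate_iff_ker_eq_bot]
    rw [LinearMap.ker_eq_bot']
    intro x hx
    refine Subtype.ext (hnd x x.2 fun Y hY => ?_)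
    exact LinearMap.congr_fun hx ⟨Y, hY⟩
  let b := Module.finBasis ℂ U
  have h1 : ∀ i j, β (β.dualBasis hβ b i) (b j) = if j = i then 1 else 0 := fun i j =>
    LinearMap.BilinForm.apply_dualBasis_left hβ b i j
  have e1 : ∀ X : U, X = ∑ i, β X (β.dualBasis hβ b i) • b i := by
    intro X
    have h2 : ∀ i, β X (β.dualBasis hβ b i) = b.repr X i := by
      intro i
      conv_lhs => rw [← b.sum_repr X]
      rw [map_sum, LinearMap.sum_apply, Finset.sum_eq_single i]
      · rw [map_smul, LinearMap.smul_apply, hβa, bq_symm, ← hβa, h1, if_pos rfl, smul_eq_mul,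
          mul_one]
      · intro j _ hj
        rw [map_smul, LinearMap.smul_apply, hβa, bq_symm, ← hβa, h1, if_neg hj, smul_zero]
      · intro hi
        exact absurd (Finset.mem_univ _) hi
    simp only [h2]
    exact (b.sum_repr X).symm
  have e2 : ∀ X : U, X = ∑ i, β X (b i) • β.dualBasis hβ b i := by
    intro X
    have h2 : ∀ i, β X (b i) = (β.dualBasis hβ b).repr X i := by
      intro i
      conv_lhs => rw [← (β.dualBasis hβ b).sum_repr X]
      rw [map_sum, LinearMap.sum_apply, Finset.sum_eq_single i]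
      · rw [map_smul, LinearMap.smul_apply, h1, if_pos rfl, smul_eq_mul, mul_one]
      · intro j _ hj
        rw [map_smul, LinearMap.smul_apply, h1, if_neg hj.symm, smul_zero]
      · intro hi
        exact absurd (Finset.mem_univ _) hi
    simp only [h2]
    exact ((β.dualBasis hβ b).sum_repr X).symm
  refine ⟨_, fun i => (b i : Matrix N N ℂ), fun i => (β.dualBasis hβ b i : Matrix N N ℂ),
    fun i => (b i).2, fun i => (β.dualBasis hβ b i).2, fun i j => ?_, fun X hX => ?_,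
    fun X hX => ?_⟩
  · rw [← hβa, h1]
    by_cases hij : i = j
    · rw [if_pos hij, if_pos hij.symm]
    · rw [if_neg hij, if_neg (fun h => hij h.symm)]
  · have h3 := congrArg Subtype.val (e1 ⟨X, hX⟩)
    rw [Submodule.coe_sum] at h3
    exact h3
  · have h3 := congrArg Subtype.val (e2 ⟨X, hX⟩)
    rw [Submodule.coe_sum] at h3
    exact h3

/-- Functionals on a space with a nondegenerate form. -/
theorem exists_rep (V : Submodule ℂ (Matrix N N ℂ))
    (hnd : ∀ X ∈ V, (∀ Y ∈ V, bq X Y = 0) → X = 0) (f : Matrix N N ℂ →ₗ[ℂ] ℂ) :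
    ∃ z ∈ V, ∀ Y ∈ V, bq z Y = f Y := by
  obtain ⟨p, u, w, hu, hw, h1, h2, h3⟩ := exists_dual V hnd
  refine ⟨∑ i, f (u i) • w i, Submodule.sum_mem _ fun i _ => Submodule.smul_mem _ _ (hw i),
    fun Y hY => ?_⟩
  have h4 := congrArg f (h2 Y hY)
  rw [map_sum] at h4
  rw [h4, map_sum, LinearMap.sum_apply]
  refine Finset.sum_congr rfl fun i _ => ?_
  rw [map_smul, LinearMap.smul_apply, map_smul, smul_eq_mul, smul_eq_mul, bq_symm Y, mul_comm]

namespace Cl

/-- The form is nondegenerate on a part. -/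
theorem la_nd (h : Cl Γ) {A : Finset (Fin n)} {X : Matrix N N ℂ} (hX : X ∈ La (col Γ A))
    (h0 : ∀ Y ∈ La (col Γ A), bq X Y = 0) : X = 0 := by
  obtain ⟨c, hc⟩ := h.scalar_of_commute (X := X) (fun i => by
    by_cases hi : i ∈ A
    · have h1 : X * Γ i - Γ i * X = 0 := h.nd_col (h.la_vec_col hX (gam_col hi)) fun s hs => by
        rw [bq_inv]
        exact h0 _ (Submodule.subset_span ⟨_, gam_col hi, s, hs, rfl⟩)
      exact sub_eq_zero.1 h1
    · exact h.ev_col_com (La_le_Ev hX) hi)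
  have h1 := la_trace' hX
  rw [hc, Matrix.trace_smul, Matrix.trace_one, smul_eq_mul, mul_eq_zero] at h1
  rw [hc, h1.resolve_right card_ne, zero_smul]

/-- Disjoint parts are orthogonal. -/
theorem la_orth (h : Cl Γ) {A B : Finset (Fin n)} (hAB : Disjoint A B) {X Y : Matrix N N ℂ}
    (hX : X ∈ La (col Γ A)) (hY : Y ∈ La (col Γ B)) : bq X Y = 0 := by
  have h1 : EE Γ A (X * Y) = 0 := by
    rw [h.EE_mul (La_le_Ev hX), h.EE_zero hAB hY, Matrix.mul_zero]
  have h2 : (EE Γ A (X * Y)).trace = (X * Y).trace := h.avl_trace _ _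
  rw [h1, Matrix.trace_zero] at h2
  rw [bq_apply, ← h2, zero_div]

/-- **Two commuting parts.** -/
theorem pair (h : Cl Γ) {a b : Finset (Fin n)} (hab : Disjoint a b) (h3 : 3 ≤ a.card)
    {B : Submodule ℂ (Matrix N N ℂ)} (hB : B ≤ La (col Γ b))
    (hBbr : ∀ X ∈ B, ∀ Y ∈ B, X * Y - Y * X ∈ B)
    (hBnd : ∀ X ∈ B, (∀ Y ∈ B, bq X Y = 0) → X = 0) {M : Submodule ℂ (Matrix N N ℂ)}
    (hM : ∀ m ∈ M, ∃ x ∈ La (col Γ a), ∃ y ∈ B, x + y = m)
    (hMbr : ∀ X ∈ M, ∀ Y ∈ M, X * Y - Y * X ∈ M)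
    (p1 : ∀ x ∈ La (col Γ a), ∃ y ∈ B, x + y ∈ M) (p2 : ∀ y ∈ B, ∃ x ∈ La (col Γ a), x + y ∈ M)
    (hC : ∀ Ω ∈ Submodule.span ℂ {z | ∃ x ∈ La (col Γ a), ∃ y ∈ B, z = x * y},
      (∀ m ∈ M, Ω * m = m * Ω) → ∀ x ∈ La (col Γ a), Ω * x = x * Ω) :
    ∀ x ∈ La (col Γ a), ∀ y ∈ B, x + y ∈ M := by
  have hcom : ∀ x ∈ La (col Γ a), ∀ y ∈ B, x * y = y * x := fun x hx y hy =>
    h.ev_col_com' hab (La_le_Ev hx) (La_le_Ev (hB hy))
  have horth : ∀ x ∈ La (col Γ a), ∀ y ∈ B, bq x y = 0 := fun x hx y hy =>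
    h.la_orth hab hx (hB hy)
  have hbra : ∀ x ∈ La (col Γ a), ∀ y ∈ La (col Γ a), x * y - y * x ∈ La (col Γ a) :=
    fun x hx y hy => h.la_br_col hx hy
  set V : Submodule ℂ (Matrix N N ℂ) := La (col Γ a) ⊔ B with hV
  have hVm : ∀ z, z ∈ V ↔ ∃ x ∈ La (col Γ a), ∃ y ∈ B, x + y = z := fun z => Submodule.mem_sup
  have hVnd : ∀ X ∈ V, (∀ Y ∈ V, bq X Y = 0) → X = 0 := by
    intro X hX h0
    obtain ⟨x, hx, y, hy, rfl⟩ := (hVm X).1 hX
    have h1 : x = 0 := h.la_nd hx fun x' hx' => by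
      have h2 := h0 x' ((hVm _).2 ⟨x', hx', 0, B.zero_mem, add_zero _⟩)
      rwa [map_add, LinearMap.add_apply, bq_symm y, horth x' hx' y hy, add_zero] at h2
    have h2 : y = 0 := hBnd y hy fun y' hy' => by
      have h2 := h0 y' ((hVm _).2 ⟨0, Submodule.zero_mem _, y', hy', zero_add _⟩)
      rwa [map_add, LinearMap.add_apply, horth x hx y' hy', zero_add] at h2
    rw [h1, h2, add_zero]
  -- the orthogonal complement
  set K : Submodule ℂ (Matrix N N ℂ) :=
    { carrier := {z | z ∈ V ∧ ∀ m ∈ M, bq z m = 0}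
      zero_mem' := ⟨V.zero_mem, fun m _ => by rw [map_zero, LinearMap.zero_apply]⟩
      add_mem' := by
        rintro z z' ⟨h1, h2⟩ ⟨h4, h5⟩
        refine ⟨V.add_mem h1 h4, fun m hm => ?_⟩
        rw [map_add, LinearMap.add_apply, h2 m hm, h5 m hm, add_zero]
      smul_mem' := by
        rintro c z ⟨h1, h2⟩
        refine ⟨V.smul_mem _ h1, fun m hm => ?_⟩
        rw [map_smul, LinearMap.smul_apply, h2 m hm, smul_zero] } with hK
  have hKm : ∀ z, z ∈ K ↔ z ∈ V ∧ ∀ m ∈ M, bq z m = 0 := fun z => Iff.rfl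
  have hMV : ∀ m ∈ M, m ∈ V := fun m hm => (hVm m).2 (hM m hm)
  have hVbr : ∀ X ∈ V, ∀ Y ∈ V, X * Y - Y * X ∈ V := by
    intro X hX Y hY
    obtain ⟨x, hx, y, hy, rfl⟩ := (hVm X).1 hX
    obtain ⟨x', hx', y', hy', rfl⟩ := (hVm Y).1 hY
    refine (hVm _).2 ⟨x * x' - x' * x, hbra x hx x' hx', y * y' - y' * y, hBbr y hy y' hy', ?_⟩
    simp only [Matrix.mul_add, Matrix.add_mul]
    rw [hcom x hx y' hy', hcom x' hx' y hy]
    abel
  have hKM : ∀ m ∈ M, ∀ z ∈ K, m * z - z * m ∈ K := by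
    rintro m hm z ⟨h1, h2⟩
    refine ⟨hVbr m (hMV m hm) z h1, fun m' hm' => ?_⟩
    have h4 : bq (m * z - z * m) m' = -bq (z * m - m * z) m' := by
      rw [← LinearMap.neg_apply, ← map_neg, neg_sub]
    rw [h4, bq_inv, h2 _ (hMbr m hm m' hm'), neg_zero]
  have hKB : ∀ y ∈ B, y ∈ K → y = 0 := by
    rintro y hy ⟨_, h2⟩
    refine hBnd y hy fun y' hy' => ?_
    obtain ⟨x, hx, hxy⟩ := p2 y' hy'
    have h4 := h2 _ hxy
    rwa [map_add, bq_symm y x, horth x hx y hy, zero_add] at h4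
  have hKA : ∀ x ∈ La (col Γ a), x ∈ K → x = 0 := by
    rintro x hx ⟨_, h2⟩
    refine h.la_nd hx fun x' hx' => ?_
    obtain ⟨y, hy, hxy⟩ := p1 x' hx'
    have h4 := h2 _ hxy
    rwa [map_add, horth x hx y hy, add_zero] at h4
  -- the projection of the complement
  set U : Submodule ℂ (Matrix N N ℂ) :=
    { carrier := {u | u ∈ La (col Γ a) ∧ ∃ v ∈ B, u + v ∈ K}
      zero_mem' := ⟨Submodule.zero_mem _, 0, B.zero_mem, by
        rw [add_zero]
        exact K.zero_mem⟩
      add_mem' := by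
        rintro u u' ⟨h1, v, hv, h2⟩ ⟨h4, v', hv', h5⟩
        refine ⟨Submodule.add_mem _ h1 h4, v + v', B.add_mem hv hv', ?_⟩
        have := K.add_mem h2 h5
        rwa [add_add_add_comm] at this
      smul_mem' := by
        rintro c u ⟨h1, v, hv, h2⟩
        refine ⟨Submodule.smul_mem _ _ h1, c • v, B.smul_mem _ hv, ?_⟩
        rw [← smul_add]
        exact K.smul_mem _ h2 } with hU
  have hUm : ∀ u, u ∈ U ↔ u ∈ La (col Γ a) ∧ ∃ v ∈ B, u + v ∈ K := fun u => Iff.rfl
  have hUi : ∀ x ∈ La (col Γ a), ∀ u ∈ U, x * u - u * x ∈ U := by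
    rintro x hx u ⟨hu, v, hv, huv⟩
    obtain ⟨y, hy, hxy⟩ := p1 x hx
    refine ⟨hbra x hx u hu, y * v - v * y, hBbr y hy v hv, ?_⟩
    have h1 := hKM _ hxy _ huv
    have h2 : (x + y) * (u + v) - (u + v) * (x + y) = (x * u - u * x) + (y * v - v * y) := by
      simp only [Matrix.mul_add, Matrix.add_mul]
      rw [hcom x hx v hv, hcom u hu y hy]
      abel
    rwa [h2] at h1
  have hUnd : ∀ X ∈ U, (∀ Y ∈ U, bq X Y = 0) → X = 0 := by
    have h1 := h.no_ab h3 (a :=
      { carrier := {u | u ∈ U ∧ ∀ u' ∈ U, bq u u' = 0}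
        zero_mem' := ⟨U.zero_mem, fun m _ => by rw [map_zero, LinearMap.zero_apply]⟩
        add_mem' := by
          rintro z z' ⟨h1, h2⟩ ⟨h4, h5⟩
          refine ⟨U.add_mem h1 h4, fun m hm => ?_⟩
          rw [map_add, LinearMap.add_apply, h2 m hm, h5 m hm, add_zero]
        smul_mem' := by
          rintro c z ⟨h1, h2⟩
          refine ⟨U.smul_mem _ h1, fun m hm => ?_⟩
          rw [map_smul, LinearMap.smul_apply, h2 m hm, smul_zero] })
      (fun u hu => hu.1.1) (by
        rintro X hX u ⟨hu, hu'⟩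
        refine ⟨hUi X hX u hu, fun u' hu'' => ?_⟩
        have h4 : bq (X * u - u * X) u' = -bq (u * X - X * u) u' := by
          rw [← LinearMap.neg_apply, ← map_neg, neg_sub]
        rw [h4, bq_inv, hu' _ (hUi X hX u' hu''), neg_zero]) (by
        rintro u ⟨hu, hu'⟩ u1 ⟨hu1, _⟩
        rw [← sub_eq_zero]
        refine h.la_nd (hbra u hu.1 u1 hu1.1) fun x hx => ?_
        rw [bq_inv]
        refine hu' _ ?_
        have := U.neg_mem (hUi x hx u1 hu1)
        rwa [neg_sub] at this)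
    intro X hX h0
    have h2 : X ∈ (⊥ : Submodule ℂ (Matrix N N ℂ)) := by
      rw [← h1]
      exact ⟨hX, h0⟩
    exact (Submodule.mem_bot ℂ).1 h2
  obtain ⟨p, u, w, hu, hw, hwu, hu2, hw2⟩ := exists_dual U hUnd
  choose v hv huv using fun i => (hu i).2
  set Ω := ∑ i, w i * v i with hΩ
  have hΩs : Ω ∈ Submodule.span ℂ {z | ∃ x ∈ La (col Γ a), ∃ y ∈ B, z = x * y} :=
    Submodule.sum_mem _ fun i _ => Submodule.subset_span ⟨_, (hw i).1, _, hv i, rfl⟩
  have hΩM : ∀ m ∈ M, Ω * m = m * Ω := by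
    intro m hm
    obtain ⟨x, hx, y, hy, rfl⟩ := hM m hm
    have h1 : ∀ i, x * w i - w i * x = -∑ j, bq (x * u j - u j * x) (w i) • w j := by
      intro i
      rw [hw2 _ (hUi x hx _ (hw i)), ← Finset.sum_neg_distrib]
      refine Finset.sum_congr rfl fun j _ => ?_
      have h4 : bq (x * w i - w i * x) (u j) = -bq (x * u j - u j * x) (w i) := by
        rw [bq_inv, bq_inv, ← map_neg, neg_sub]
      rw [h4, neg_smul]
    have h2 : ∀ i, y * v i - v i * y = ∑ j, bq (x * u i - u i * x) (w j) • v j := by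
      intro i
      rw [← sub_eq_zero]
      have h4 := hKM _ hm _ (huv i)
      have h5 : (x + y) * (u i + v i) - (u i + v i) * (x + y) =
          (x * u i - u i * x) + (y * v i - v i * y) := by
        simp only [Matrix.mul_add, Matrix.add_mul]
        rw [hcom x hx _ (hv i), hcom _ (hu i).1 y hy]
        abel
      rw [h5] at h4
      have h6 : ∑ j, bq (x * u i - u i * x) (w j) • (u j + v j) ∈ K :=
        Submodule.sum_mem _ fun j _ => Submodule.smul_mem _ _ (huv j)
      simp only [smul_add, Finset.sum_add_distrib] at h6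
      rw [← hu2 _ (hUi x hx _ (hu i))] at h6
      have h7 := K.sub_mem h4 h6
      rw [add_sub_add_left_eq_sub] at h7
      exact hKB _ (B.sub_mem (hBbr y hy _ (hv i))
        (Submodule.sum_mem _ fun j _ => B.smul_mem _ (hv j))) h7
    rw [← sub_eq_zero]
    have h4 : Ω * (x + y) - (x + y) * Ω = -∑ i, ((x * w i - w i * x) * v i +
        w i * (y * v i - v i * y)) := by
      rw [hΩ, Finset.sum_mul, Finset.mul_sum, ← Finset.sum_sub_distrib, ← Finset.sum_neg_distrib]
      refine Finset.sum_congr rfl fun i _ => ?_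
      have e1 := hcom x hx _ (hv i)
      have e2 := hcom _ (hw i).1 y hy
      calc w i * v i * (x + y) - (x + y) * (w i * v i) =
          w i * (v i * x) + w i * (v i * y) - x * w i * v i - (y * w i) * v i := by
            noncomm_ring
        _ = w i * (x * v i) + w i * (v i * y) - x * w i * v i - (w i * y) * v i := by
            rw [← e1, ← e2]
        _ = _ := by noncomm_ring
    rw [h4, neg_eq_zero, Finset.sum_add_distrib]
    have h5 : ∑ i, (x * w i - w i * x) * v i =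
        -∑ i, ∑ j, bq (x * u j - u j * x) (w i) • (w j * v i) := by
      rw [← Finset.sum_neg_distrib]
      refine Finset.sum_congr rfl fun i _ => ?_
      rw [h1 i, Matrix.neg_mul, Finset.sum_mul]
      congr 1
      refine Finset.sum_congr rfl fun j _ => ?_
      rw [Matrix.smul_mul]
    have h6 : ∑ i, w i * (y * v i - v i * y) =
        ∑ i, ∑ j, bq (x * u i - u i * x) (w j) • (w i * v j) := by
      refine Finset.sum_congr rfl fun i _ => ?_
      rw [h2 i, Finset.mul_sum]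
      refine Finset.sum_congr rfl fun j _ => ?_
      rw [Matrix.mul_smul]
    rw [h5, h6, Finset.sum_comm, neg_add_cancel]
  have hΩx := hC Ω hΩs hΩM
  have hv0 : ∀ i, v i = 0 := by
    have hc : ∀ y ∈ B, ∑ i, bq (v i) y • w i = 0 := by
      intro y hy
      have h1 := h.no_ab h3 (a :=
        { carrier := {z | z ∈ La (col Γ a) ∧ ∀ x ∈ La (col Γ a), x * z = z * x}
          zero_mem' := ⟨Submodule.zero_mem _, fun m _ => by rw [Matrix.mul_zero, Matrix.zero_mul]⟩
          add_mem' := by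
            rintro z z' ⟨h1, h2⟩ ⟨h4, h5⟩
            refine ⟨Submodule.add_mem _ h1 h4, fun m hm => ?_⟩
            rw [Matrix.mul_add, Matrix.add_mul, h2 m hm, h5 m hm]
          smul_mem' := by
            rintro c z ⟨h1, h2⟩
            refine ⟨Submodule.smul_mem _ _ h1, fun m hm => ?_⟩
            rw [Matrix.mul_smul, Matrix.smul_mul, h2 m hm] })
        (fun u hu => hu.1) (by
          rintro X hX z ⟨hz, hz'⟩
          rw [hz' X hX, sub_self]
          exact Submodule.zero_mem _) (by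
          rintro z ⟨hz, hz'⟩ z1 ⟨hz1, hz1'⟩
          exact hz1' z hz)
      have h2 : ∑ i, bq (v i) y • w i ∈ (⊥ : Submodule ℂ (Matrix N N ℂ)) := by
        rw [← h1]
        refine ⟨Submodule.sum_mem _ fun i _ => Submodule.smul_mem _ _ (hw i).1, fun x hx => ?_⟩
        have h4 := hΩx x hx
        rw [← sub_eq_zero]
        have h5 : ∑ i, (x * w i - w i * x) * (v i * y) = (x * Ω - Ω * x) * y := by
          rw [hΩ, Finset.mul_sum, Finset.sum_mul, ← Finset.sum_sub_distrib, Finset.sum_mul]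
          refine Finset.sum_congr rfl fun i _ => ?_
          have e1 := hcom x hx _ (hv i)
          calc (x * w i - w i * x) * (v i * y) = (x * (w i * v i) - w i * (x * v i)) * y := by
                noncomm_ring
            _ = _ := by rw [e1]; noncomm_ring
        rw [h4, sub_self, Matrix.zero_mul] at h5
        have h6 := congrArg (EE Γ a) h5
        rw [map_zero, map_sum] at h6
        rw [Finset.mul_sum, Finset.sum_mul, ← Finset.sum_sub_distrib, ← h6]
        refine Finset.sum_congr rfl fun i _ => ?_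
        rw [h.EE_mul (La_le_Ev (hbra x hx _ (hw i).1)), h.EE_scalar hab
          (Subalgebra.mul_mem _ (La_le_Ev (hB (hv i))) (La_le_Ev (hB hy))), ← bq_apply,
          Matrix.mul_smul, Matrix.mul_smul, Matrix.smul_mul, Matrix.mul_one, ← smul_sub]
      exact (Submodule.mem_bot ℂ).1 h2
    intro j
    refine hBnd _ (hv j) fun y hy => ?_
    have h1 := congrArg (fun z => bq z (u j)) (hc y hy)
    simp only [map_zero, LinearMap.zero_apply, map_sum, LinearMap.sum_apply] at h1
    rw [Finset.sum_eq_single j] at h1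
    · rwa [map_smul, LinearMap.smul_apply, hwu, if_pos rfl, smul_eq_mul, mul_one] at h1
    · intro i _ hij
      rw [map_smul, LinearMap.smul_apply, hwu, if_neg hij, smul_zero]
    · intro hj
      exact absurd (Finset.mem_univ _) hj
  have hu0 : ∀ i, u i = 0 := by
    intro i
    have h1 := huv i
    rw [hv0 i, add_zero] at h1
    exact hKA _ (hu i).1 h1
  have hK0 : ∀ z ∈ K, z = 0 := by
    intro z hz
    obtain ⟨x, hx, y, hy, rfl⟩ := (hVm z).1 hz.1
    have h1 : x = 0 := by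
      rw [hu2 x ⟨hx, y, hy, hz⟩]
      refine Finset.sum_eq_zero fun i _ => ?_
      rw [hu0 i, smul_zero]
    rw [h1, zero_add] at hz ⊢
    exact hKB y hy hz
  intro x hx y hy
  by_contra hcon
  obtain ⟨f, hf0, hf⟩ := Submodule.exists_le_ker_of_notMem hcon
  obtain ⟨z, hz, hzf⟩ := exists_rep V hVnd f
  have h1 := hK0 z ⟨hz, fun m hm => by
    rw [hzf m (hMV m hm)]
    exact LinearMap.mem_ker.1 (hf hm)⟩
  apply hf0
  rw [← hzf _ ((hVm _).2 ⟨x, hx, y, hy, rfl⟩), h1, map_zero, LinearMap.zero_apply]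

end Cl

end Pool.Agent.TH164.Spin
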