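import Pool.Agent.TH164.Spin.Rm4

/-!
# Several commuting parts: the classification
-/

set_option autoImplicit false
set_option linter.unusedSectionVars false
set_option linter.unusedVariables false

open Module Matrix

namespace Pool.Agent.TH164.Spin

variable {N : Type} [Fintype N] [DecidableEq N] [Nonempty N] {n r : ℕ}
variable {Γ : Fin n → Matrix N N ℂ} {κ : Fin n → Fin r}

/-- The generators of colour in `D`. -/
def cD (κ : Fin n → Fin r) (D : Finset (Fin r)) : Finset (Fin n) :=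
  Finset.univ.filter fun i => κ i ∈ D

/-- The generators of colour `c`. -/
def cs (κ : Fin n → Fin r) (c : Fin r) : Finset (Fin n) := Finset.univ.filter fun i => κ i = c

theorem mem_cs {c : Fin r} {i : Fin n} : i ∈ cs κ c ↔ κ i = c := by
  rw [cs, Finset.mem_filter, and_iff_right (Finset.mem_univ _)]

theorem mem_cD {D : Finset (Fin r)} {i : Fin n} : i ∈ cD κ D ↔ κ i ∈ D := by
  rw [cD, Finset.mem_filter, and_iff_right (Finset.mem_univ _)]

theorem cs_sub {D : Finset (Fin r)} {c : Fin r} (hc : c ∈ D) : cs κ c ⊆ cD κ D := by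
  intro i hi
  rw [mem_cs] at hi
  rw [mem_cD, hi]
  exact hc

theorem cs_disj {c d : Fin r} (hcd : c ≠ d) : Disjoint (cs κ c) (cs κ d) := by
  rw [Finset.disjoint_left]
  intro i hi hj
  rw [mem_cs] at hi hj
  exact hcd (hi.symm.trans hj)

theorem cD_disj {c : Fin r} {D : Finset (Fin r)} (hcd : c ∉ D) : Disjoint (cs κ c) (cD κ D) := by
  rw [Finset.disjoint_left]
  intro i hi hj
  rw [mem_cs] at hi
  rw [mem_cD, hi] at hj
  exact hcd hj

theorem cD_disj' {c : Fin r} {D : Finset (Fin r)} (hcd : c ∉ D) : Disjoint (cD κ D) (cs κ c) :=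
  (cD_disj hcd).symm

/-- The sum of the Lie algebras of the colours in `D`. -/
def LD (Γ : Fin n → Matrix N N ℂ) (κ : Fin n → Fin r) (D : Finset (Fin r)) :
    Submodule ℂ (Matrix N N ℂ) :=
  Submodule.span ℂ {y | ∃ c ∈ D, y ∈ La (col Γ (cs κ c))}

theorem La_le_LD {D : Finset (Fin r)} {c : Fin r} (hc : c ∈ D) :
    La (col Γ (cs κ c)) ≤ LD Γ κ D := fun x hx => Submodule.subset_span ⟨c, hc, hx⟩

theorem LD_mono {D E : Finset (Fin r)} (h : D ⊆ E) : LD Γ κ D ≤ LD Γ κ E := by
  refine Submodule.span_le.2 ?_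
  rintro x ⟨c, hc, hx⟩
  exact La_le_LD (h hc) hx

theorem LD_le {D : Finset (Fin r)} : LD Γ κ D ≤ La (col Γ (cD κ D)) := by
  refine Submodule.span_le.2 ?_
  rintro x ⟨c, hc, hx⟩
  exact La_mono (Ts_col_mono (cs_sub hc)) hx

namespace Cl

theorem EEc_La (h : Cl Γ) {c d : Fin r} {x : Matrix N N ℂ} (hx : x ∈ La (col Γ (cs κ d))) :
    EE Γ (cs κ c) x = if c = d then x else 0 := by
  split_ifs with hcd
  · rw [hcd]
    exact h.EE_id (Finset.Subset.refl _) hx
  · exact h.EE_zero (cs_disj hcd) hx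

theorem EED_La (h : Cl Γ) {D : Finset (Fin r)} {d : Fin r} {x : Matrix N N ℂ}
    (hx : x ∈ La (col Γ (cs κ d))) : EE Γ (cD κ D) x = if d ∈ D then x else 0 := by
  split_ifs with hcd
  · exact h.EE_id (cs_sub hcd) hx
  · exact h.EE_zero (cD_disj' hcd) hx

theorem EEc_LD (h : Cl Γ) {D : Finset (Fin r)} {x : Matrix N N ℂ} (hx : x ∈ LD Γ κ D)
    (c : Fin r) : EE Γ (cs κ c) x ∈ La (col Γ (cs κ c)) := by
  induction hx using Submodule.span_induction with
  | mem x hx =>
    obtain ⟨d, hd, hx⟩ := hx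
    rw [h.EEc_La hx]
    split_ifs with hcd
    · rw [hcd]
      exact hx
    · exact Submodule.zero_mem _
  | zero =>
    rw [map_zero]
    exact Submodule.zero_mem _
  | add a b _ _ ha hb =>
    rw [map_add]
    exact Submodule.add_mem _ ha hb
  | smul c a _ ha =>
    rw [map_smul]
    exact Submodule.smul_mem _ _ ha

theorem EEc_not (h : Cl Γ) {D : Finset (Fin r)} {x : Matrix N N ℂ} (hx : x ∈ LD Γ κ D)
    {c : Fin r} (hc : c ∉ D) : EE Γ (cs κ c) x = 0 :=
  h.EE_zero (cD_disj hc) (LD_le hx)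

theorem LD_sum (h : Cl Γ) {D : Finset (Fin r)} {x : Matrix N N ℂ} (hx : x ∈ LD Γ κ D) :
    ∑ c ∈ D, EE Γ (cs κ c) x = x := by
  induction hx using Submodule.span_induction with
  | mem x hx =>
    obtain ⟨d, hd, hx⟩ := hx
    rw [Finset.sum_congr rfl fun c _ => h.EEc_La (c := c) hx, Finset.sum_ite_eq' D d, if_pos hd]
  | zero => simp
  | add a b _ _ ha hb =>
    simp only [map_add, Finset.sum_add_distrib]
    rw [ha, hb]
  | smul c a _ ha =>
    simp only [map_smul]
    rw [← Finset.smul_sum, ha]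

theorem EED_LD (h : Cl Γ) {D E : Finset (Fin r)} {x : Matrix N N ℂ} (hx : x ∈ LD Γ κ E) :
    EE Γ (cD κ D) x = ∑ c ∈ D, EE Γ (cs κ c) x := by
  induction hx using Submodule.span_induction with
  | mem x hx =>
    obtain ⟨d, hd, hx⟩ := hx
    rw [Finset.sum_congr rfl fun c _ => h.EEc_La (c := c) hx, Finset.sum_ite_eq' D d,
      h.EED_La hx]
  | zero => simp
  | add a b _ _ ha hb =>
    simp only [map_add, Finset.sum_add_distrib]
    rw [ha, hb]
  | smul c a _ ha =>
    simp only [map_smul]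
    rw [← Finset.smul_sum, ha]

theorem EED_mem (h : Cl Γ) {D E : Finset (Fin r)} {x : Matrix N N ℂ} (hx : x ∈ LD Γ κ E) :
    EE Γ (cD κ D) x ∈ LD Γ κ D := by
  rw [h.EED_LD hx]
  exact Submodule.sum_mem _ fun c hc => La_le_LD hc (h.EEc_LD hx c)

/-- The sum is a Lie algebra. -/
theorem LD_br (h : Cl Γ) {D : Finset (Fin r)} {X Y : Matrix N N ℂ} (hX : X ∈ LD Γ κ D)
    (hY : Y ∈ LD Γ κ D) : X * Y - Y * X ∈ LD Γ κ D := by
  induction hX using Submodule.span_induction with
  | mem x hx =>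
    obtain ⟨c, hc, hx⟩ := hx
    induction hY using Submodule.span_induction with
    | mem y hy =>
      obtain ⟨d, hd, hy⟩ := hy
      by_cases hcd : c = d
      · subst hcd
        exact La_le_LD hc (h.la_br_col hx hy)
      · rw [h.ev_col_com' (cs_disj hcd) (La_le_Ev hx) (La_le_Ev hy), sub_self]
        exact Submodule.zero_mem _
    | zero =>
      rw [Matrix.mul_zero, Matrix.zero_mul, sub_zero]
      exact Submodule.zero_mem _
    | add a b _ _ ha hb =>
      rw [Matrix.mul_add, Matrix.add_mul, add_sub_add_comm]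
      exact Submodule.add_mem _ ha hb
    | smul c a _ ha =>
      rw [Matrix.mul_smul, Matrix.smul_mul, ← smul_sub]
      exact Submodule.smul_mem _ _ ha
  | zero =>
    rw [Matrix.mul_zero, Matrix.zero_mul, sub_zero]
    exact Submodule.zero_mem _
  | add a b _ _ ha hb =>
    rw [Matrix.mul_add, Matrix.add_mul, add_sub_add_comm]
    exact Submodule.add_mem _ ha hb
  | smul c a _ ha =>
    rw [Matrix.mul_smul, Matrix.smul_mul, ← smul_sub]
    exact Submodule.smul_mem _ _ ha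

theorem LD_nd (h : Cl Γ) {D : Finset (Fin r)} {X : Matrix N N ℂ} (hX : X ∈ LD Γ κ D)
    (h0 : ∀ Y ∈ LD Γ κ D, bq X Y = 0) : X = 0 := by
  rw [← h.LD_sum hX]
  refine Finset.sum_eq_zero fun c hc => ?_
  refine h.la_nd (h.EEc_LD hX c) fun Y hY => ?_
  have h1 := h0 Y (La_le_LD hc hY)
  rw [← h.LD_sum hX, map_sum, LinearMap.sum_apply, Finset.sum_eq_single c] at h1
  · exact h1
  · intro d _ hdc
    exact h.la_orth (cs_disj hdc) (h.EEc_LD hX d) hY
  · intro hc'
    exact absurd hc hc'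

/-- Elements of different colours commute. -/
theorem LD_com (h : Cl Γ) {D E : Finset (Fin r)} (hDE : Disjoint D E) {X Y : Matrix N N ℂ}
    (hX : X ∈ LD Γ κ D) (hY : Y ∈ LD Γ κ E) : X * Y = Y * X := by
  refine h.ev_col_com' ?_ (La_le_Ev (LD_le hX)) (La_le_Ev (LD_le hY))
  rw [Finset.disjoint_left]
  intro i hi hj
  rw [mem_cD] at hi hj
  exact Finset.disjoint_left.1 hDE hi hj

/-- Splitting off the colours in `D`. -/
theorem LD_split (h : Cl Γ) (D : Finset (Fin r)) {x : Matrix N N ℂ}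
    (hx : x ∈ LD Γ κ Finset.univ) :
    x = EE Γ (cD κ D) x + EE Γ (cD κ Dᶜ) x := by
  rw [h.EED_LD hx, h.EED_LD hx, Finset.sum_add_sum_compl, h.LD_sum hx]

/-- The projections are homomorphisms. -/
theorem EED_br (h : Cl Γ) (D : Finset (Fin r)) {x y : Matrix N N ℂ}
    (hx : x ∈ LD Γ κ Finset.univ) (hy : y ∈ LD Γ κ Finset.univ) :
    EE Γ (cD κ D) (x * y - y * x) = EE Γ (cD κ D) x * EE Γ (cD κ D) y -
      EE Γ (cD κ D) y * EE Γ (cD κ D) x := by
  set x1 := EE Γ (cD κ D) x with hx1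
  set y1 := EE Γ (cD κ D) y with hy1
  have e1 := h.LD_split D hx
  have e2 := h.LD_split D hy
  have m1 : x1 ∈ LD Γ κ D := h.EED_mem hx
  have m2 : y1 ∈ LD Γ κ D := h.EED_mem hy
  have m3 : EE Γ (cD κ Dᶜ) x ∈ LD Γ κ Dᶜ := h.EED_mem hx
  have m4 : EE Γ (cD κ Dᶜ) y ∈ LD Γ κ Dᶜ := h.EED_mem hy
  have h5 : x * y - y * x = (x1 * y1 - y1 * x1) + (EE Γ (cD κ Dᶜ) x * EE Γ (cD κ Dᶜ) y -
      EE Γ (cD κ Dᶜ) y * EE Γ (cD κ Dᶜ) x) := by
    conv_lhs => rw [e1, e2]
    rw [← hx1, ← hy1]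
    simp only [Matrix.mul_add, Matrix.add_mul]
    rw [h.LD_com disjoint_compl_right m1 m4, h.LD_com disjoint_compl_right m2 m3]
    abel
  have m5 := h.LD_br m1 m2
  have m6 := h.LD_br m3 m4
  have h6 : ∀ z ∈ LD Γ κ D, EE Γ (cD κ D) z = z := by
    intro z hz
    rw [h.EED_LD hz, h.LD_sum hz]
  have h7 : ∀ z ∈ LD Γ κ Dᶜ, EE Γ (cD κ D) z = 0 := by
    intro z hz
    rw [h.EED_LD hz]
    exact Finset.sum_eq_zero fun c hc => h.EEc_not hz (by
      rw [Finset.mem_compl, not_not]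
      exact hc)
  rw [h5, map_add, h6 _ m5, h7 _ m6, add_zero]

/-- **The classification for several colours.** -/
theorem spinK (h : Cl Γ) (h3 : ∀ c, 3 ≤ (cs κ c).card) (h5 : ∀ c, (cs κ c).card ≠ 5)
    {l : Submodule ℂ (Matrix N N ℂ)} (hbr : ∀ X ∈ l, ∀ Y ∈ l, X * Y - Y * X ∈ l)
    (hle : l ≤ LD Γ κ Finset.univ)
    (hirr : ∀ c, Ev (col Γ (cs κ c)) ≤ Algebra.adjoin ℂ (l : Set (Matrix N N ℂ))) :
    LD Γ κ Finset.univ ≤ l := by
  have hEc : ∀ c : Fin r, cs κ c = cD κ {c} := by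
    intro c
    ext i
    rw [mem_cs, mem_cD, Finset.mem_singleton]
  -- one colour
  have hone : ∀ c, La (col Γ (cs κ c)) ≤ l.map (EE Γ (cs κ c)) := by
    intro c
    refine h.part_full (h3 c) (h5 c) ?_ ?_ ?_
    · rintro _ ⟨X, hX, rfl⟩ _ ⟨Y, hY, rfl⟩
      refine ⟨X * Y - Y * X, hbr X hX Y hY, ?_⟩
      rw [hEc c]
      exact h.EED_br _ (hle hX) (hle hY)
    · rintro _ ⟨X, hX, rfl⟩
      exact h.EEc_LD (hle hX) c
    · intro x hx
      refine h.proj_adjoin (A := cs κ c) (B := cD κ ({c} : Finset (Fin r))ᶜ)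
        (cD_disj (by simp)) (fun x hx => ?_) (hirr c hx) hx
      refine ⟨EE Γ (cs κ c) x, h.EEc_LD (hle hx) c, EE Γ (cD κ {c}ᶜ) x,
        LD_le (h.EED_mem (hle hx)), ?_⟩
      have := h.LD_split {c} (hle hx)
      rwa [← hEc c] at this
  have key : ∀ D : Finset (Fin r), LD Γ κ D ≤ l.map (EE Γ (cD κ D)) := by
    intro D
    induction D using Finset.induction_on with
    | empty =>
      refine Submodule.span_le.2 ?_
      rintro x ⟨c, hc, -⟩
      exact absurd hc (Finset.notMem_empty c)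
    | insert c D hcD ih =>
      have hsum : ∀ x ∈ l, EE Γ (cD κ (insert c D)) x = EE Γ (cs κ c) x + EE Γ (cD κ D) x := by
        intro x hx
        rw [h.EED_LD (hle hx), h.EED_LD (hle hx), Finset.sum_insert hcD]
      have hp := h.pair (a := cs κ c) (b := cD κ D) (cD_disj hcD) (h3 c)
        (B := LD Γ κ D) LD_le (fun X hX Y hY => h.LD_br hX hY) (fun X hX h0 => h.LD_nd hX h0)
        (M := l.map (EE Γ (cD κ (insert c D)))) (by
          rintro _ ⟨x, hx, rfl⟩
          exact ⟨_, h.EEc_LD (hle hx) c, _, h.EED_mem (hle hx), (hsum x hx).symm⟩) (by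
          rintro _ ⟨X, hX, rfl⟩ _ ⟨Y, hY, rfl⟩
          exact ⟨X * Y - Y * X, hbr X hX Y hY, h.EED_br _ (hle hX) (hle hY)⟩) (by
          intro x hx
          obtain ⟨X, hX, rfl⟩ := hone c hx
          exact ⟨EE Γ (cD κ D) X, h.EED_mem (hle hX), X, hX, hsum X hX⟩) (by
          intro y hy
          obtain ⟨X, hX, rfl⟩ := ih hy
          exact ⟨EE Γ (cs κ c) X, h.EEc_LD (hle hX) c, X, hX, hsum X hX⟩) (by
          intro Ω hΩ hΩM x hx
          refine com_adjoin (s := (l : Set (Matrix N N ℂ))) (fun y hy => ?_)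
            (hirr c (La_le_Ev hx))
          have e1 := h.LD_split (insert c D) (hle hy)
          have e2 := hΩM _ ⟨y, hy, rfl⟩
          have e3 : Ω * EE Γ (cD κ (insert c D)ᶜ) y = EE Γ (cD κ (insert c D)ᶜ) y * Ω := by
            have m1 : EE Γ (cD κ (insert c D)ᶜ) y ∈ LD Γ κ (insert c D)ᶜ := h.EED_mem (hle hy)
            clear hΩM e2
            induction hΩ using Submodule.span_induction with
            | mem z hz =>
              obtain ⟨u, hu, v, hv, rfl⟩ := hz
              have f1 := h.LD_com disjoint_compl_right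
                (La_le_LD (Finset.mem_insert_self c D) hu) m1
              have f2 := h.LD_com disjoint_compl_right
                (LD_mono (Finset.subset_insert c D) hv) m1
              rw [Matrix.mul_assoc, f2, ← Matrix.mul_assoc, f1, Matrix.mul_assoc]
            | zero => rw [Matrix.zero_mul, Matrix.mul_zero]
            | add a b _ _ ha hb => rw [Matrix.mul_add, Matrix.add_mul, ha, hb]
            | smul c a _ ha => rw [Matrix.mul_smul, Matrix.smul_mul, ha]
          rw [e1, Matrix.mul_add, Matrix.add_mul, e2, e3])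
      refine Submodule.span_le.2 ?_
      rintro x ⟨d, hd, hx⟩
      rcases Finset.mem_insert.1 hd with rfl | hd
      · have := hp x hx 0 (Submodule.zero_mem _)
        rwa [add_zero] at this
      · have := hp 0 (Submodule.zero_mem _) x (La_le_LD hd hx)
        rwa [zero_add] at this
  intro x hx
  obtain ⟨y, hy, hyx⟩ := key Finset.univ hx
  have h6 : EE Γ (cD κ Finset.univ) y = y := by
    rw [h.EED_LD (hle hy), h.LD_sum (hle hy)]
  rw [h6] at hyx
  rw [← hyx]
  exact hy

end Cl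

end Pool.Agent.TH164.Spin
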