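import Pool.Agent.TH164.Spin.Rm5

/-!
# Several commuting parts: the stabilizer
-/

set_option autoImplicit false
set_option linter.unusedSectionVars false
set_option linter.unusedVariables false

open Module Matrix

namespace Pool.Agent.TH164.Spin

open Pool.Agent.TH119.MX Pool.Agent.TH119.DR Pool.Agent.TH164.A1

variable {N : Type} [Fintype N] [DecidableEq N] [Nonempty N] {n r : ℕ}
variable {Γ : Fin n → Matrix N N ℂ} {κ : Fin n → Fin r} {H : Set (Matrix N N ℂ)}

/-- The algebra generated by the products of two generators of the same colour. -/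
def Ek (Γ : Fin n → Matrix N N ℂ) (κ : Fin n → Fin r) : Subalgebra ℂ (Matrix N N ℂ) :=
  Algebra.adjoin ℂ {x | ∃ i j, κ i = κ j ∧ x = Γ i * Γ j}

/-- The vectors of colour `c`. -/
abbrev Tk (Γ : Fin n → Matrix N N ℂ) (κ : Fin n → Fin r) (c : Fin r) :
    Submodule ℂ (Matrix N N ℂ) := Ts (col Γ (cs κ c))

theorem gam_Tk (i : Fin n) : Γ i ∈ Tk Γ κ (κ i) := gam_col (mem_cs.2 rfl)

theorem gam_Tk' {i : Fin n} {c : Fin r} (hi : κ i = c) : Γ i ∈ Tk Γ κ c := gam_col (mem_cs.2 hi)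

theorem Ev_le_Ek (c : Fin r) : Ev (col Γ (cs κ c)) ≤ Ek Γ κ := by
  refine Algebra.adjoin_le ?_
  rintro _ ⟨i, j, rfl⟩
  by_cases hi : i ∈ cs κ c
  · by_cases hj : j ∈ cs κ c
    · rw [col_mem hi, col_mem hj]
      exact Algebra.subset_adjoin ⟨i, j, (mem_cs.1 hi).trans (mem_cs.1 hj).symm, rfl⟩
    · rw [col_not hj, Matrix.mul_zero]
      exact Subalgebra.zero_mem _
  · rw [col_not hi, Matrix.zero_mul]
    exact Subalgebra.zero_mem _

theorem LD_le_Ek {X : Matrix N N ℂ} {D : Finset (Fin r)} (hX : X ∈ LD Γ κ D) : X ∈ Ek Γ κ := by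
  have h1 : LD Γ κ D ≤ (Ek Γ κ).toSubmodule := by
    refine Submodule.span_le.2 ?_
    rintro x ⟨c, -, hx⟩
    exact Ev_le_Ek c (La_le_Ev hx)
  exact h1 hX

theorem Ek_der (hΓ : ∀ i a b, IsAlgebraic ℚ (Γ i a b)) (δ : Derivation ℚ ℂ ℂ)
    {X : Matrix N N ℂ} (hX : X ∈ Ek Γ κ) : X.map δ ∈ Ek Γ κ := by
  induction hX using Algebra.adjoin_induction with
  | mem x hx =>
    obtain ⟨i, j, -, rfl⟩ := hx
    rw [map_mul_der, map_gam hΓ, map_gam hΓ, Matrix.zero_mul, Matrix.mul_zero, add_zero]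
    exact Subalgebra.zero_mem _
  | algebraMap r =>
    rw [Algebra.algebraMap_eq_smul_one, map_smul_der, map_one_der, smul_zero, add_zero]
    exact Subalgebra.smul_mem _ (Subalgebra.one_mem _) _
  | add x y _ _ hx hy =>
    have : (x + y).map δ = x.map δ + y.map δ := by
      ext i j
      exact map_add δ _ _
    rw [this]
    exact Subalgebra.add_mem _ hx hy
  | mul x y hx' hy' hx hy =>
    rw [map_mul_der]
    exact Subalgebra.add_mem _ (Subalgebra.mul_mem _ hx hy') (Subalgebra.mul_mem _ hx' hy)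

namespace Cl

theorem LD_vec (h : Cl Γ) {D : Finset (Fin r)} {X t : Matrix N N ℂ} (hX : X ∈ LD Γ κ D)
    {c : Fin r} (ht : t ∈ Tk Γ κ c) : X * t - t * X ∈ Tk Γ κ c := by
  induction hX using Submodule.span_induction with
  | mem x hx =>
    obtain ⟨d, hd, hx⟩ := hx
    by_cases hcd : d = c
    · subst hcd
      exact h.la_vec_col hx ht
    · have h1 : x * t = t * x := by
        obtain ⟨v, rfl⟩ := mem_Ts.1 ht
        rw [Finset.mul_sum, Finset.sum_mul]
        refine Finset.sum_congr rfl fun i _ => ?_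
        rw [Matrix.mul_smul, Matrix.smul_mul]
        congr 1
        by_cases hi : i ∈ cs κ c
        · rw [col_mem hi]
          refine h.ev_col_com (La_le_Ev hx) fun hi' => hcd ?_
          rw [mem_cs] at hi hi'
          exact hi'.symm.trans hi
        · rw [col_not hi, Matrix.mul_zero, Matrix.zero_mul]
      rw [h1, sub_self]
      exact Submodule.zero_mem _
  | zero => simp
  | add a b _ _ ha hb =>
    rw [Matrix.add_mul, Matrix.mul_add, add_sub_add_comm]
    exact Submodule.add_mem _ ha hb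
  | smul c a _ ha =>
    rw [Matrix.smul_mul, Matrix.mul_smul, ← smul_sub]
    exact Submodule.smul_mem _ _ ha

/-- The Lie algebra of the normalizer. -/
theorem decompK (h : Cl Γ) {X : Matrix N N ℂ}
    (hX : ∀ c, ∀ t ∈ Tk Γ κ c, X * t - t * X ∈ Tk Γ κ c) :
    ∃ Y ∈ LD Γ κ Finset.univ, ∃ c : ℂ, X = Y + c • (1 : Matrix N N ℂ) := by
  obtain ⟨z, hz, hz2⟩ := exists_rep (LD Γ κ Finset.univ) (fun X hX h0 => h.LD_nd hX h0) (bq X)
  obtain ⟨c, hc⟩ := h.scalar_of_commute (X := X - z) (fun i => by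
    rw [← sub_eq_zero]
    have h1 : (X - z) * Γ i - Γ i * (X - z) = (X * Γ i - Γ i * X) - (z * Γ i - Γ i * z) := by
      rw [Matrix.sub_mul, Matrix.mul_sub]
      abel
    refine h.nd_col (A := cs κ (κ i)) ?_ fun s hs => ?_
    · rw [h1]
      exact Submodule.sub_mem _ (hX _ _ (gam_Tk i)) (h.LD_vec hz (gam_Tk i))
    · rw [bq_inv, map_sub bq X z, LinearMap.sub_apply, sub_eq_zero]
      refine (hz2 _ ?_).symm
      exact La_le_LD (Finset.mem_univ _) (Submodule.subset_span ⟨_, gam_Tk i, s, hs, rfl⟩))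
  exact ⟨z, hz, c, by rw [← hc]; abel⟩

end Cl

/-- Elements of the normalizer of the spaces of vectors, with their inverses. -/
def InK (Γ : Fin n → Matrix N N ℂ) (κ : Fin n → Fin r) (g g' : Matrix N N ℂ) : Prop :=
  g * g' = 1 ∧ g' * g = 1 ∧ ∀ c, InG (col Γ (cs κ c)) g g'

/-- The stabilizer inside the Lie algebra of the normalizer. -/
def HdK (Γ : Fin n → Matrix N N ℂ) (κ : Fin n → Fin r) (H : Set (Matrix N N ℂ)) (d : ℕ) :
    Submodule ℂ (Matrix N N ℂ) where
  carrier := {X | (∀ c, ∀ t ∈ Tk Γ κ c, X * t - t * X ∈ Tk Γ κ c) ∧ Stab H d X}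
  zero_mem' := ⟨fun c t _ => by
    rw [Matrix.zero_mul, Matrix.mul_zero, sub_zero]
    exact Submodule.zero_mem _, Stab.zero⟩
  add_mem' := by
    rintro X Y ⟨h1, h2⟩ ⟨h3, h4⟩
    refine ⟨fun c t ht => ?_, h2.add h4⟩
    rw [Matrix.add_mul, Matrix.mul_add, add_sub_add_comm]
    exact Submodule.add_mem _ (h1 c t ht) (h3 c t ht)
  smul_mem' := by
    rintro a X ⟨h1, h2⟩
    refine ⟨fun c t ht => ?_, h2.smul a⟩
    rw [Matrix.smul_mul, Matrix.mul_smul, ← smul_sub]
    exact Submodule.smul_mem _ _ (h1 c t ht)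

theorem HdK_der (hH : AlgGrp QA H) (hΓ : ∀ i a b, IsAlgebraic ℚ (Γ i a b)) (d : ℕ)
    (δ : Derivation ℚ ℂ ℂ) {X : Matrix N N ℂ} (hX : X ∈ HdK Γ κ H d) :
    X.map δ ∈ HdK Γ κ H d :=
  ⟨fun c => (Hd_der hH (col_alg hΓ (cs κ c)) d δ ⟨hX.1 c, hX.2⟩).1,
    hH.stab_map (derK δ QA fun x hx => mem_QA.1 hx) hX.2⟩

theorem HdK_P (hH : AlgGrp QA H) (hΓ : ∀ i a b, IsAlgebraic ℚ (Γ i a b)) {P P' : Matrix N N ℂ}
    (hG : InK Γ κ P P') {B B' : Matrix N N ℂ}
    (hB : B * B' = 1) (hBa : ∀ i j, B' i j ∈ QA) (hPB : P * B ∈ H) (d : ℕ)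
    (δ : Derivation ℚ ℂ ℂ) : P.map δ * P' ∈ HdK Γ κ H d := by
  have hA : (1 : Matrix N N ℂ) * 1 = 1 := Matrix.one_mul 1
  have hAa : ∀ i j, IsAlgebraic ℚ ((1 : Matrix N N ℂ) i j) := by
    intro i j
    rw [Matrix.one_apply]
    split_ifs
    · exact isAlgebraic_one
    · exact isAlgebraic_zero
  have h1 : ∀ c, P.map δ * P' ∈ Hd (col Γ (cs κ c)) H d := fun c =>
    Hd_P hH (col_alg hΓ (cs κ c)) hG.1 hG.2.1 (by
      rw [Matrix.mul_one, Matrix.one_mul]
      exact hG.2.2 c) hA hAa hB hBa hPB d δ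
  exact ⟨fun c => (h1 c).1, hH.stab_der le_rfl (fun x hx => mem_QA.1 hx) hG.1 hG.2.1 hB hBa hPB δ⟩

namespace Cl

/-- **The stabilizer is everything.** -/
theorem stab_allK (h : Cl Γ) (h3 : ∀ c, 3 ≤ (cs κ c).card) (h5 : ∀ c, (cs κ c).card ≠ 5)
    (hH : AlgGrp QA H)
    (hΓ : ∀ i a b, IsAlgebraic ℚ (Γ i a b)) {P P' : Matrix N N ℂ}
    (hG : InK Γ κ P P') (hPE : P ∈ Ek Γ κ)
    {B B' : Matrix N N ℂ}
    (hB : B * B' = 1) (hBa : ∀ i j, B' i j ∈ QA) (hPB : P * B ∈ H)
    (hW : ∀ B : Matrix N N ℂ, (∀ i j, IsAlgebraic ℚ (B i j)) → ∑ p : N × N,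
      B p.1 p.2 * P p.1 p.2 = 0 → ∀ x ∈ Ek Γ κ, ∑ p : N × N, B p.1 p.2 * x p.1 p.2 = 0)
    (hdet : ¬ IsAlgebraic ℚ P.det) (d : ℕ) :
    (∀ X ∈ LD Γ κ Finset.univ, Stab H d X) ∧ Stab H d (1 : Matrix N N ℂ) := by
  have hP := hG.1
  have hP' := hG.2.1
  have hA : (1 : Matrix N N ℂ) * 1 = 1 := Matrix.one_mul 1
  have hAa : ∀ i j, IsAlgebraic ℚ ((1 : Matrix N N ℂ) i j) := by
    intro i j
    rw [Matrix.one_apply]
    split_ifs
    · exact isAlgebraic_one
    · exact isAlgebraic_zero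
  have hgen := adjoin_ge (Ek Γ κ) (HdK Γ κ H d) (A := 1) (A' := 1) hP hP'
    (fun δ X hX => Ek_der hΓ δ hX) (fun δ X hX => HdK_der hH hΓ d δ hX) (by
      rintro X ⟨h1, h2⟩
      obtain ⟨Y, hY, c, rfl⟩ := h.decompK h1
      exact Subalgebra.add_mem _ (LD_le_Ek hY) (Subalgebra.smul_mem _ (Subalgebra.one_mem _) c))
    (fun δ => HdK_P hH hΓ hG hB hBa hPB d δ) hA hAa (by rwa [Matrix.mul_one]) (by
      intro B hB h1 x hx
      rw [Matrix.mul_one]
      exact hW B hB h1 x hx)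
  set l : Submodule ℂ (Matrix N N ℂ) :=
    { carrier := {Y | Y ∈ LD Γ κ Finset.univ ∧ ∃ c : ℂ, Stab H d (Y + c • (1 : Matrix N N ℂ))}
      zero_mem' := ⟨Submodule.zero_mem _, 0, by
        rw [zero_smul, add_zero]
        exact Stab.zero⟩
      add_mem' := by
        rintro X Y ⟨h1, c, h2⟩ ⟨h3, c', h4⟩
        refine ⟨Submodule.add_mem _ h1 h3, c + c', ?_⟩
        have h5 : X + Y + (c + c') • (1 : Matrix N N ℂ) = (X + c • (1 : Matrix N N ℂ)) +
            (Y + c' • (1 : Matrix N N ℂ)) := by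
          rw [add_smul]
          abel
        rw [h5]
        exact h2.add h4
      smul_mem' := by
        rintro a X ⟨h1, c, h2⟩
        refine ⟨Submodule.smul_mem _ _ h1, a * c, ?_⟩
        have h5 : a • X + (a * c) • (1 : Matrix N N ℂ) = a • (X + c • (1 : Matrix N N ℂ)) := by
          rw [smul_add, smul_smul]
        rw [h5]
        exact h2.smul a } with hl
  have hbr : ∀ X Y : Matrix N N ℂ, ∀ c c' : ℂ, (X + c • (1 : Matrix N N ℂ)) *
      (Y + c' • (1 : Matrix N N ℂ)) - (Y + c' • (1 : Matrix N N ℂ)) *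
      (X + c • (1 : Matrix N N ℂ)) = X * Y - Y * X := by
    intro X Y c c'
    simp only [Matrix.add_mul, Matrix.mul_add, Matrix.smul_mul, Matrix.mul_smul, Matrix.one_mul,
      Matrix.mul_one]
    module
  have hadj : Ek Γ κ ≤ Algebra.adjoin ℂ (l : Set (Matrix N N ℂ)) := by
    refine hgen.trans (Algebra.adjoin_le ?_)
    rintro X ⟨h1, h2⟩
    obtain ⟨Y, hY, c, rfl⟩ := h.decompK h1
    refine Subalgebra.add_mem _ (Algebra.subset_adjoin ⟨hY, c, h2⟩) ?_
    exact Subalgebra.smul_mem _ (Subalgebra.one_mem _) c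
  have hle := h.spinK h3 h5 (l := l) (by
    rintro X ⟨h1, c, h2⟩ Y ⟨h3, c', h4⟩
    refine ⟨h.LD_br h1 h3, 0, ?_⟩
    rw [zero_smul, add_zero, ← hbr X Y c c']
    exact h2.comm h4) (fun X hX => hX.1) (fun c => (Ev_le_Ek c).trans hadj)
  have hst : ∀ i k : Fin n, κ i = κ k → Stab H d (Γ i * Γ k - Γ k * Γ i) := by
    intro i k hik'
    by_cases hik : i = k
    · rw [hik, sub_self]
      exact Stab.zero
    have hj : ∃ j : Fin n, κ j = κ i ∧ j ≠ i ∧ j ≠ k := by
      have h6 : 0 < (((cs κ (κ i)).erase i).erase k).card := by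
        have h7 : i ∈ cs κ (κ i) := mem_cs.2 rfl
        have h8 : k ∈ (cs κ (κ i)).erase i :=
          Finset.mem_erase.2 ⟨fun h9 => hik h9.symm, mem_cs.2 hik'.symm⟩
        rw [Finset.card_erase_of_mem h8, Finset.card_erase_of_mem h7]
        have := h3 (κ i)
        omega
      obtain ⟨j, hj⟩ := Finset.card_pos.1 h6
      rw [Finset.mem_erase, Finset.mem_erase, mem_cs] at hj
      exact ⟨j, hj.2.2, hj.2.1, hj.1⟩
    obtain ⟨j, hjc, hji, hjk⟩ := hj
    have hm : ∀ a b : Fin n, κ a = κ b → Γ a * Γ b - Γ b * Γ a ∈ LD Γ κ Finset.univ := by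
      intro a b hab
      exact La_le_LD (Finset.mem_univ (κ a))
        (Submodule.subset_span ⟨_, gam_Tk' rfl, _, gam_Tk' hab.symm, rfl⟩)
    obtain ⟨-, c, hc⟩ := hle (hm i j hjc.symm)
    obtain ⟨-, c', hc'⟩ := hle (hm j k (hjc.trans hik'))
    have h6 := hc.comm hc'
    rw [hbr, h.triple hji.symm hjk hik] at h6
    have h7 := h6.smul (4 : ℂ)⁻¹
    rwa [smul_smul, inv_mul_cancel₀ (by norm_num), one_smul] at h7
  have hLa : ∀ X ∈ LD Γ κ Finset.univ, Stab H d X := by
    intro X hX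
    induction hX using Submodule.span_induction with
    | mem y hy =>
      obtain ⟨c, -, hy⟩ := hy
      induction hy using Submodule.span_induction with
      | mem y hy =>
        obtain ⟨a, ha, b, hb, rfl⟩ := hy
        induction ha using Submodule.span_induction with
        | mem x hx =>
          obtain ⟨i, rfl⟩ := hx
          induction hb using Submodule.span_induction with
          | mem y hy =>
            obtain ⟨k, rfl⟩ := hy
            by_cases hi : i ∈ cs κ c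
            · by_cases hk : k ∈ cs κ c
              · rw [col_mem hi, col_mem hk]
                exact hst i k ((mem_cs.1 hi).trans (mem_cs.1 hk).symm)
              · rw [col_not hk, Matrix.mul_zero, Matrix.zero_mul, sub_zero]
                exact Stab.zero
            · rw [col_not hi, Matrix.mul_zero, Matrix.zero_mul, sub_zero]
              exact Stab.zero
          | zero =>
            rw [Matrix.mul_zero, Matrix.zero_mul, sub_zero]
            exact Stab.zero
          | add a b _ _ ha hb =>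
            rw [Matrix.mul_add, Matrix.add_mul, add_sub_add_comm]
            exact ha.add hb
          | smul c a _ ha =>
            rw [Matrix.smul_mul, Matrix.mul_smul, ← smul_sub]
            exact ha.smul c
        | zero =>
          rw [Matrix.mul_zero, Matrix.zero_mul, sub_zero]
          exact Stab.zero
        | add a b _ _ ha hb =>
          rw [Matrix.mul_add, Matrix.add_mul, add_sub_add_comm]
          exact ha.add hb
        | smul c a _ ha =>
          rw [Matrix.smul_mul, Matrix.mul_smul, ← smul_sub]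
          exact ha.smul c
      | zero => exact Stab.zero
      | add a b _ _ ha hb => exact ha.add hb
      | smul c a _ ha => exact ha.smul c
    | zero => exact Stab.zero
    | add a b _ _ ha hb => exact ha.add hb
    | smul c a _ ha => exact ha.smul c
  refine ⟨hLa, ?_⟩
  obtain ⟨δ, hδ⟩ := exists_deriv hdet
  obtain ⟨h6, h7⟩ := HdK_P hH hΓ hG hB hBa hPB d δ
  obtain ⟨Y, hY, c, hc⟩ := h.decompK h6
  have htr : Y.trace = 0 := la_trace' (LD_le hY)
  have h8 := der_det' δ hP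
  rw [hc, Matrix.trace_add, htr, zero_add, Matrix.trace_smul, Matrix.trace_one,
    smul_eq_mul] at h8
  have hc0 : c ≠ 0 := by
    rintro rfl
    rw [zero_mul, mul_zero] at h8
    exact hδ h8
  rw [hc] at h7
  have h9 := h7.add ((hLa Y hY).smul (-1))
  have h10 : Y + c • (1 : Matrix N N ℂ) + (-1 : ℂ) • Y = c • (1 : Matrix N N ℂ) := by
    rw [neg_one_smul]
    abel
  rw [h10] at h9
  have h11 := h9.smul c⁻¹
  rwa [smul_smul, inv_mul_cancel₀ hc0, one_smul] at h11

/-- Products of two vectors. -/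
theorem prod_pres' (h : Cl Γ) {t s : Matrix N N ℂ} (ht : t ∈ Ts Γ)
    (hs : s ∈ Ts Γ) (hLa : ∀ d, Stab H d (t * s - s * t))
    (hone : ∀ d, Stab H d (1 : Matrix N N ℂ)) (ht0 : bq t t ≠ 0) (hs0 : bq s s ≠ 0) :
    Pres H (t * s) := by
  obtain ⟨d, hd⟩ := IsAlgClosed.exists_pow_nat_eq (bq t s ^ 2 - bq t t * bq s s) two_pos
  set r := bq t s + d with hr
  have hr0 : r * (bq t s - d) = bq t t * bq s s := by
    rw [hr]
    linear_combination -hd
  have hrne : r ≠ 0 := by
    intro h1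
    rw [h1, zero_mul] at hr0
    exact mul_ne_zero ht0 hs0 hr0.symm
  have hst : s * t = (2 * bq t s) • (1 : Matrix N N ℂ) - t * s := by
    rw [← h.relT ht hs, add_sub_cancel_left]
  have hZ : (t * s) * (t * s) = (2 * bq t s) • (t * s) -
      (bq t t * bq s s) • (1 : Matrix N N ℂ) := by
    calc (t * s) * (t * s) = t * (s * t) * s := by simp only [Matrix.mul_assoc]
      _ = (2 * bq t s) • (t * s) - (t * t) * (s * s) := by
        rw [hst, Matrix.mul_sub, Matrix.sub_mul, Matrix.mul_smul, Matrix.mul_one,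
          Matrix.smul_mul]
        simp only [Matrix.mul_assoc]
      _ = _ := by
        rw [h.sq_vec ht, h.sq_vec hs, Matrix.smul_mul, Matrix.one_mul, smul_smul]
  have hX : (t * s - r • (1 : Matrix N N ℂ)) * (t * s - r • (1 : Matrix N N ℂ)) =
      ((bq t s - d) - r) • (t * s - r • (1 : Matrix N N ℂ)) := by
    rw [Matrix.sub_mul, Matrix.mul_sub, Matrix.mul_sub, hZ, Matrix.mul_smul, Matrix.smul_mul,
      Matrix.smul_mul, Matrix.mul_one, Matrix.one_mul, ← hr0, hr, Matrix.mul_smul, Matrix.mul_one]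
    module
  have hS : ∀ e, Stab H e (t * s - r • (1 : Matrix N N ℂ)) := by
    intro e
    have h1 : t * s - r • (1 : Matrix N N ℂ) = (1 / 2 : ℂ) • (t * s - s * t) +
        (bq t s - r) • (1 : Matrix N N ℂ) := by
      rw [hst]
      module
    rw [h1]
    exact ((hLa e).smul _).add ((hone e).smul _)
  have h1 := pres_of_stab hX hS r⁻¹
  have h2 : (1 : Matrix N N ℂ) + r⁻¹ • (t * s - r • (1 : Matrix N N ℂ)) = r⁻¹ • (t * s) := by
    rw [smul_sub, smul_smul, inv_mul_cancel₀ hrne, one_smul]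
    abel
  rw [h2] at h1
  have h3 := (pres_scalar hone r).mul h1
  rwa [Matrix.smul_mul, Matrix.one_mul, smul_smul, mul_inv_cancel₀ hrne, one_smul] at h3

theorem bq_Tk (h : Cl Γ) {c d : Fin r} (hcd : c ≠ d) {t s : Matrix N N ℂ} (ht : t ∈ Tk Γ κ c)
    (hs : s ∈ Tk Γ κ d) : bq t s = 0 := by
  induction hs using Submodule.span_induction with
  | mem x hx =>
    obtain ⟨i, rfl⟩ := hx
    by_cases hi : i ∈ cs κ d
    · rw [col_mem hi]
      refine h.bq_col ht fun hi' => hcd ?_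
      rw [mem_cs] at hi hi'
      exact hi'.symm.trans hi
    · rw [col_not hi, map_zero]
  | zero => rw [map_zero]
  | add a b _ _ ha hb => rw [map_add, ha, hb, add_zero]
  | smul c a _ ha => rw [map_smul, ha, smul_zero]

theorem tstK (h : Cl Γ) {c d : Fin r} {t s : Matrix N N ℂ} (ht : t ∈ Tk Γ κ c)
    (hs : s ∈ Tk Γ κ d) : t * s * t ∈ Tk Γ κ d := by
  have h1 : t * s = (2 * bq t s) • (1 : Matrix N N ℂ) - s * t :=
    eq_sub_of_add_eq (h.relT (Ts_col_le ht) (Ts_col_le hs))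
  rw [h1, Matrix.sub_mul, Matrix.mul_assoc, h.sq_vec (Ts_col_le ht), Matrix.smul_mul,
    Matrix.one_mul, Matrix.mul_smul, Matrix.mul_one]
  refine Submodule.sub_mem _ ?_ (Submodule.smul_mem _ _ hs)
  by_cases hcd : c = d
  · subst hcd
    exact Submodule.smul_mem _ _ ht
  · rw [h.bq_Tk hcd ht hs, mul_zero, zero_smul]
    exact Submodule.zero_mem _

theorem prod_InK (h : Cl Γ) {c : Fin r} {t s : Matrix N N ℂ} (ht : t ∈ Tk Γ κ c)
    (hs : s ∈ Tk Γ κ c) (ht0 : bq t t ≠ 0) (hs0 : bq s s ≠ 0) :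
    InK Γ κ (t * s) ((bq t t * bq s s)⁻¹ • (s * t)) := by
  have h1 := h.prod_InG (Ts_col_le ht) (Ts_col_le hs) ht0 hs0
  refine ⟨h1.r, h1.l, fun d => ⟨h1.r, h1.l, fun x hx => ?_, fun x hx => ?_⟩⟩
  · rw [Matrix.mul_smul]
    have e3 : t * s * x * (s * t) = t * (s * x * s) * t := by simp only [Matrix.mul_assoc]
    rw [e3]
    exact Submodule.smul_mem _ _ (h.tstK ht (h.tstK hs hx))
  · rw [Matrix.smul_mul, Matrix.smul_mul]
    have e3 : s * t * x * (t * s) = s * (t * x * t) * s := by simp only [Matrix.mul_assoc]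
    rw [e3]
    exact Submodule.smul_mem _ _ (h.tstK hs (h.tstK ht hx))

/-- Elements of the algebra commute with the product of the generators of one colour. -/
theorem ek_om (h : Cl Γ) {x : Matrix N N ℂ} (hx : x ∈ Ek Γ κ) (c : Fin r) :
    om Γ (cs κ c) * x = x * om Γ (cs κ c) := by
  refine com_adjoin ?_ hx
  rintro _ ⟨i, j, hij, rfl⟩
  have h2 : ∃ ε : ℂ, ε * ε = 1 ∧ Γ i * om Γ (cs κ c) = ε • (om Γ (cs κ c) * Γ i) ∧
      Γ j * om Γ (cs κ c) = ε • (om Γ (cs κ c) * Γ j) := by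
    have h3 : ∀ m : ℕ, ((-1 : ℂ) ^ m) * ((-1 : ℂ) ^ m) = 1 := by
      intro m
      rw [← mul_pow, neg_mul_neg, one_mul, one_pow]
    by_cases hi : κ i = c
    · exact ⟨_, h3 _, h.om_in (mem_cs.2 hi), h.om_in (mem_cs.2 (hij.symm.trans hi))⟩
    · exact ⟨_, h3 _, h.om_out (fun h4 => hi (mem_cs.1 h4)),
        h.om_out (fun h4 => hi (hij.trans (mem_cs.1 h4)))⟩
  obtain ⟨ε, h3, h4, h5⟩ := h2
  symm
  calc Γ i * Γ j * om Γ (cs κ c) = Γ i * (Γ j * om Γ (cs κ c)) := Matrix.mul_assoc _ _ _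
    _ = ε • ((Γ i * om Γ (cs κ c)) * Γ j) := by
      rw [h5, Matrix.mul_smul]
      simp only [Matrix.mul_assoc]
    _ = (ε * ε) • (om Γ (cs κ c) * (Γ i * Γ j)) := by
      rw [h4, Matrix.smul_mul, smul_smul]
      simp only [Matrix.mul_assoc]
    _ = _ := by rw [h3, one_smul]

theorem no_flipK (h : Cl Γ) {x x' : Matrix N N ℂ} (hxx : x * x' = 1) (hxE : x ∈ Ek Γ κ)
    {k : Fin n} {c : Fin r} (hk : κ k = c)
    (h1 : ∀ i, i ≠ k → κ i = c → x * Γ i = Γ i * x) (h2 : x * Γ k = -(Γ k * x)) : False := by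
  set W := om Γ (cs κ c) with hW
  have h3 := sgn (Γ := col Γ (cs κ c)) (x := x) (ε := fun j => if j = k then -1 else 1)
    (fun j => by
      by_cases hj : j ∈ cs κ c
      · rw [col_mem hj]
        by_cases hij : j = k
        · simp only [hij, if_true, neg_one_smul]
          exact h2
        · simp only [if_neg hij, one_smul]
          exact h1 j hij (mem_cs.1 hj)
      · rw [col_not hj, Matrix.mul_zero, Matrix.zero_mul, smul_zero]) (cs κ c).toList
  have h4 : (cs κ c).toList.map (col Γ (cs κ c)) = (cs κ c).toList.map Γ :=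
    List.map_congr_left fun i hi => col_mem (Finset.mem_toList.1 hi)
  have h5 : ((cs κ c).toList.map (col Γ (cs κ c))).prod = W := by rw [h4]; rfl
  rw [h5, Finset.prod_map_toList, Finset.prod_ite_eq' (cs κ c) k, if_pos (mem_cs.2 hk),
    ← h.ek_om hxE, neg_one_smul] at h3
  obtain ⟨u, hu⟩ := h.om_unit (cs κ c)
  have hx0 : x ≠ 0 := by
    rintro rfl
    rw [Matrix.zero_mul] at hxx
    exact zero_ne_one hxx
  have h6 : (2 : ℂ) • (W * x) = 0 := by
    rw [two_smul]
    nth_rewrite 1 [h3]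
    exact neg_add_cancel _
  have h7 : W * x = 0 := (smul_eq_zero.1 h6).resolve_left two_ne_zero
  rw [hW, ← hu] at h7
  apply hx0
  calc x = (u⁻¹).val * (u.val * x) := by
        rw [← Matrix.mul_assoc]
        change x = ((u⁻¹).val * u.val) * x
        rw [Units.inv_mul, Matrix.one_mul]
    _ = 0 := by rw [h7, Matrix.mul_zero]

end Cl

end Pool.Agent.TH164.Spin
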