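import Pool.Agent.TH164.Spin.Wt

/-!
# Roots
-/

set_option autoImplicit false
set_option linter.unusedSectionVars false
set_option linter.unusedVariables false

open Module LieModule LieAlgebra LieAlgebra.IsKilling

namespace Pool.Agent.TH164.Spin

variable {k L : Type*} [Field k] [IsAlgClosed k] [CharZero k] [LieRing L] [LieAlgebra k L]
  [FiniteDimensional k L] [LieAlgebra.IsKilling k L] {H : LieSubalgebra k L}
  [H.IsCartanSubalgebra]

theorem mem_wt_iff_rootSpace {β : H → k} {x : L} : x ∈ wt H L β ↔ x ∈ rootSpace H β := by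
  constructor
  · intro h
    refine LieModule.weightSpace_le_genWeightSpace L β ?_
    rw [LieModule.mem_weightSpace]
    exact h
  · intro h m
    exact lie_eq_smul_of_mem_rootSpace h m

theorem diag_L : Diag H L := by
  have h1 := LieModule.iSup_genWeightSpace_eq_top k H L
  have h2 : (⨆ χ : H → k, (LieModule.genWeightSpace L χ : Submodule k L)) = ⊤ := by
    rw [← LieSubmodule.iSup_toSubmodule, h1]
    rfl
  unfold Diag
  rw [← h2]
  congr 1
  funext χ
  ext x
  exact mem_wt_iff_rootSpace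

theorem wt_zero_L {x : L} : x ∈ wt H L 0 ↔ x ∈ H := by
  rw [mem_wt_iff_rootSpace]
  have h1 := LieAlgebra.rootSpace_zero_eq k L H
  rw [h1]
  rfl

variable (H) in
/-- Roots, as functions. -/
def IsRt (β : H → k) : Prop := β ≠ 0 ∧ wt H L β ≠ ⊥

/-- The weight given by a root. -/
def wgt {β : H → k} (hβ : IsRt H β) : Weight k H L where
  toFun := β
  genWeightSpace_ne_bot' := by
    intro h
    apply hβ.2
    rw [eq_bot_iff]
    intro x hx
    rw [mem_wt_iff_rootSpace] at hx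
    have : x ∈ (⊥ : LieSubmodule k H L) := by
      rw [← h]
      exact hx
    simpa using this

theorem wgt_coe {β : H → k} (hβ : IsRt H β) : ((wgt hβ : Weight k H L) : H → k) = β := rfl

theorem wgt_ne {β : H → k} (hβ : IsRt H β) : (wgt hβ).IsNonZero := fun h => hβ.1 h

open Classical in
/-- The coroot. -/
noncomputable def cv (β : H → k) : H := if h : IsRt H β then coroot (wgt h) else 0

theorem cv_eq {β : H → k} (hβ : IsRt H β) : cv β = coroot (wgt hβ) := by
  unfold cv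
  rw [dif_pos hβ]

theorem rt_two {β : H → k} (hβ : IsRt H β) : β (cv β) = 2 := by
  rw [cv_eq hβ]
  exact root_apply_coroot (wgt_ne hβ)

theorem rt_triple {β : H → k} (hβ : IsRt H β) : ∃ e ∈ wt H L β, ∃ f ∈ wt H L (-β),
    IsSl2Triple ((cv β : H) : L) e f := by
  obtain ⟨h, e, f, ht, he, hf⟩ := exists_isSl2Triple_of_weight_isNonZero (wgt_ne hβ)
  have h1 := ht.h_eq_coroot (wgt_ne hβ) he hf
  refine ⟨e, mem_wt_iff_rootSpace.2 he, f, mem_wt_iff_rootSpace.2 hf, ?_⟩
  rw [cv_eq hβ, ← h1]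
  exact ht

theorem rt_one {β : H → k} (hβ : IsRt H β) {x y : L} (hx : x ∈ wt H L β) (hy : y ∈ wt H L β)
    (h0 : x ≠ 0) : ∃ c : k, y = c • x := by
  have h1 := finrank_rootSpace_eq_one (wgt hβ) (wgt_ne hβ)
  rw [mem_wt_iff_rootSpace] at hx hy
  have h2 := (finrank_eq_one_iff_of_nonzero' (⟨x, hx⟩ : rootSpace H β) (fun h => h0
    (congrArg Subtype.val h))).1 h1 ⟨y, hy⟩
  obtain ⟨c, hc⟩ := h2
  exact ⟨c, (congrArg Subtype.val hc).symm⟩

theorem rt_neg {β : H → k} (hβ : IsRt H β) : IsRt H (-β) := by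
  obtain ⟨e, he, f, hf, ht⟩ := rt_triple hβ
  refine ⟨neg_ne_zero.2 hβ.1, fun h => ht.f_ne_zero ?_⟩
  rw [h] at hf
  exact (Submodule.mem_bot k).1 hf

theorem cv_neg {β : H → k} (hβ : IsRt H β) : cv (-β) = -cv β := by
  rw [cv_eq hβ, cv_eq (rt_neg hβ), ← coroot_neg]
  rfl

theorem rt_smul {β γ : H → k} (hβ : IsRt H β) (hγ : IsRt H γ) {c : k} (h : γ = c • β) :
    γ = β ∨ γ = -β := by
  rcases eq_neg_or_eq_of_eq_smul (wgt hβ) (wgt hγ) (wgt_ne hγ) c h with h1 | h1
  · right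
    exact congrArg (fun w : Weight k H L => (w : H → k)) h1
  · left
    exact congrArg (fun w : Weight k H L => (w : H → k)) h1

theorem rt_int {α β : H → k} (hα : IsRt H α) (hβ : IsRt H β) : ∃ z : ℤ, β (cv α) = z := by
  rw [cv_eq hα]
  exact ⟨_, apply_coroot_eq_cast (wgt hα) (wgt hβ)⟩

/-- The index of a root. -/
noncomputable def idx {β : H → k} (hβ : IsRt H β) : H.root (K := k) :=
  ⟨wgt hβ, by simpa using wgt_ne hβ⟩

theorem rt_prod {α β : H → k} (hα : IsRt H α) (hβ : IsRt H β) (hαβ : ∀ c : k, β ≠ c • α)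
    {a b : ℤ} (ha : β (cv α) = a) (hb : α (cv β) = b) :
    a * b ≤ 3 ∧ (a = 0 ↔ b = 0) ∧ (0 < a ↔ 0 < b) ∧ a ≤ 3 ∧ -3 ≤ a := by
  set P := rootSystem H with hP
  have h1 : P.pairingIn ℤ (idx hβ) (idx hα) = a := by
    have h2 := P.algebraMap_pairingIn ℤ (idx hβ) (idx hα)
    replace h2 := h2.trans (rootSystem_pairing_apply (H := H) _ _)
    have h3 : (algebraMap ℤ k) (P.pairingIn ℤ (idx hβ) (idx hα)) = (algebraMap ℤ k) a := by
      rw [h2]
      change β (coroot (wgt hα)) = _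
      rw [← cv_eq hα, ha]
      simp
    exact FaithfulSMul.algebraMap_injective ℤ k h3
  have h1' : P.pairingIn ℤ (idx hα) (idx hβ) = b := by
    have h2 := P.algebraMap_pairingIn ℤ (idx hα) (idx hβ)
    replace h2 := h2.trans (rootSystem_pairing_apply (H := H) _ _)
    have h3 : (algebraMap ℤ k) (P.pairingIn ℤ (idx hα) (idx hβ)) = (algebraMap ℤ k) b := by
      rw [h2]
      change α (coroot (wgt hβ)) = _
      rw [← cv_eq hβ, hb]
      simp
    exact FaithfulSMul.algebraMap_injective ℤ k h3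
  have hne : P.root (idx hβ) ≠ P.root (idx hα) := by
    intro h
    refine hαβ 1 ?_
    rw [one_smul]
    funext x
    exact LinearMap.congr_fun h x
  have hne' : P.root (idx hβ) ≠ -P.root (idx hα) := by
    intro h
    refine hαβ (-1) ?_
    rw [neg_one_smul]
    funext x
    have h2 := LinearMap.congr_fun h x
    exact h2
  have h4 := P.pairingIn_pairingIn_mem_set_of_isCrystal_of_isRed' _ _ hne hne'
  rw [h1, h1'] at h4
  simp only [Set.mem_insert_iff, Set.mem_singleton_iff, Prod.mk.injEq] at h4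
  rcases h4 with ⟨rfl, rfl⟩ | ⟨rfl, rfl⟩ | ⟨rfl, rfl⟩ | ⟨rfl, rfl⟩ | ⟨rfl, rfl⟩ | ⟨rfl, rfl⟩ |
    ⟨rfl, rfl⟩ | ⟨rfl, rfl⟩ | ⟨rfl, rfl⟩ | ⟨rfl, rfl⟩ | ⟨rfl, rfl⟩ <;> norm_num

theorem finite_rt : {β : H → k | IsRt H β}.Finite :=
  (finite_wt (H := H) (M := L)).subset fun β hβ => hβ.2

end Pool.Agent.TH164.Spin
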