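import Pool.Agent.TH164.Spin.Evn
import Pool.Agent.W417.K3.FftA

/-!
# Multilinear forms and derivations
-/

set_option autoImplicit false
set_option linter.unusedSectionVars false
set_option linter.unusedVariables false

open Module Matrix Finset

namespace Pool.Agent.TH164.Spin

section ml

variable {U : Type*} [AddCommGroup U] [Module ℂ U] {m : ℕ}

/-- The sum over all slots. -/
def KX (c : MultilinearMap ℂ (fun _ : Fin m => U) ℂ) (X : U → U) (v : Fin m → U) : ℂ :=
  ∑ j, c (Function.update v j (X (v j)))

theorem KX_update (c : MultilinearMap ℂ (fun _ : Fin m => U) ℂ) (Y : U → U) (v : Fin m → U)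
    (i : Fin m) (x : U) : KX c Y (Function.update v i x) = c (Function.update v i (Y x)) +
      ∑ j ∈ univ.erase i, c (Function.update (Function.update v j (Y (v j))) i x) := by
  rw [KX, ← Finset.add_sum_erase _ _ (mem_univ i), Function.update_self, Function.update_idem]
  congr 1
  refine Finset.sum_congr rfl fun j hj => ?_
  have hji : j ≠ i := (mem_erase.1 hj).1
  rw [Function.update_of_ne hji, Function.update_comm hji]

/-- The commutation rule. -/
theorem KX_comm (c : MultilinearMap ℂ (fun _ : Fin m => U) ℂ) (X Y : U → U) (v : Fin m → U) :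
    ∑ i, KX c Y (Function.update v i (X (v i))) - ∑ i, KX c X (Function.update v i (Y (v i))) =
      ∑ i, (c (Function.update v i (Y (X (v i)))) - c (Function.update v i (X (Y (v i))))) := by
  simp only [KX_update, Finset.sum_add_distrib, Finset.sum_sub_distrib]
  have h1 : ∑ i, ∑ j ∈ univ.erase i, c (Function.update (Function.update v j (Y (v j))) i (X (v i))) =
      ∑ i, ∑ j ∈ univ.erase i, c (Function.update (Function.update v j (X (v j))) i (Y (v i))) := by
    rw [Finset.sum_comm' (t' := univ) (s' := fun j => univ.erase j) (by
      intro x y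
      simp only [mem_univ, mem_erase, true_and, and_true]
      exact ne_comm)]
    refine Finset.sum_congr rfl fun j _ => Finset.sum_congr rfl fun i hi => ?_
    rw [Function.update_comm (mem_erase.1 hi).1.symm]
  rw [h1]
  ring

/-- An operator which kills the form. -/
def Kills (c : MultilinearMap ℂ (fun _ : Fin m => U) ℂ) (X : U → U) : Prop :=
  ∀ v, KX c X v = 0

variable {c : MultilinearMap ℂ (fun _ : Fin m => U) ℂ}

theorem Kills.add {X Y : U → U} (hX : Kills c X) (hY : Kills c Y) :
    Kills c (fun v => X v + Y v) := by
  intro v
  have h1 := hX v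
  have h2 := hY v
  unfold KX at h1 h2 ⊢
  simp only [MultilinearMap.map_update_add, Finset.sum_add_distrib]
  rw [h1, h2, add_zero]

theorem Kills.smul {X : U → U} (hX : Kills c X) (z : ℂ) : Kills c (fun v => z • X v) := by
  intro v
  have h1 := hX v
  unfold KX at h1 ⊢
  simp only [MultilinearMap.map_update_smul, ← Finset.smul_sum]
  rw [h1, smul_zero]

theorem Kills.comm {X Y : U → U} (hX : Kills c X) (hY : Kills c Y) :
    Kills c (fun v => X (Y v) - Y (X v)) := by
  intro v
  have h1 := KX_comm c Y X v
  rw [Finset.sum_eq_zero fun i _ => hX _, Finset.sum_eq_zero fun i _ => hY _, sub_self] at h1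
  unfold KX
  simp only [MultilinearMap.map_update_sub]
  exact h1.symm

/-- Semilinear operators attached to derivations. -/
structure Semi (δ : Derivation ℚ ℂ ℂ) (D : U → U) : Prop where
  add : ∀ v w, D (v + w) = D v + D w
  smul : ∀ (z : ℂ) v, D (z • v) = δ z • v + z • D v

/-- The defect. -/
noncomputable def defect {δ : Derivation ℚ ℂ ℂ} {D : U → U} (hD : Semi δ D)
    (c : MultilinearMap ℂ (fun _ : Fin m => U) ℂ) : MultilinearMap ℂ (fun _ : Fin m => U) ℂ where
  toFun v := δ (c v) - KX c D v
  map_update_add' := by
    intro inst v i x y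
    have hinst : inst = instDecidableEqFin m := Subsingleton.elim _ _
    subst hinst
    rw [KX_update, KX_update, KX_update, hD.add]
    simp only [MultilinearMap.map_update_add, map_add, Finset.sum_add_distrib]
    ring
  map_update_smul' := by
    intro inst v i z x
    have hinst : inst = instDecidableEqFin m := Subsingleton.elim _ _
    subst hinst
    rw [KX_update, KX_update, hD.smul]
    simp only [MultilinearMap.map_update_add, MultilinearMap.map_update_smul, smul_eq_mul,
      Derivation.leibniz, ← Finset.mul_sum]
    ring

theorem defect_apply {δ : Derivation ℚ ℂ ℂ} {D : U → U} (hD : Semi δ D) (v : Fin m → U) :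
    defect hD c v = δ (c v) - KX c D v := rfl

/-- Derivation of the values of a form which is algebraic on a constant basis. -/
theorem der_form {ι : Type*} [Finite ι] (b : Basis ι ℂ U) {δ : Derivation ℚ ℂ ℂ} {D : U → U}
    (hD : Semi δ D) (hb : ∀ i, D (b i) = 0) (hc : ∀ I : Fin m → ι, IsAlgebraic ℚ (c fun j => b (I j)))
    (v : Fin m → U) : δ (c v) = KX c D v := by
  have h1 : defect hD c = 0 := by
    refine Basis.ext_multilinear (fun _ => b) fun I => ?_
    rw [defect_apply, Pool.Agent.TH119.DR.deriv_alg δ (hc I), zero_sub, _root_.zero_apply,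
      neg_eq_zero, KX]
    refine Finset.sum_eq_zero fun j _ => ?_
    rw [hb, MultilinearMap.map_update_zero]
  have h2 := congrArg (fun f => f v) h1
  simp only [defect_apply, _root_.zero_apply] at h2
  exact sub_eq_zero.1 h2

/-- The operators which kill are stable under derivations. -/
theorem Kills.der {ι : Type*} [Finite ι] (b : Basis ι ℂ U) {δ : Derivation ℚ ℂ ℂ} {D : U → U}
    (hD : Semi δ D) (hb : ∀ i, D (b i) = 0) (hc : ∀ I : Fin m → ι, IsAlgebraic ℚ (c fun j => b (I j)))
    {X Y : U → U} (hX : Kills c X) (hY : ∀ v, Y v = D (X v) - X (D v)) : Kills c Y := by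
  intro v
  have h1 := KX_comm c X D v
  rw [Finset.sum_eq_zero (s := univ) (f := fun i => KX c X (Function.update v i (D (v i))))
    fun i _ => hX _, sub_zero] at h1
  have h2 : ∑ i, KX c D (Function.update v i (X (v i))) = 0 := by
    have h3 : ∑ i, KX c D (Function.update v i (X (v i))) = δ (KX c X v) := by
      rw [KX, map_sum]
      exact Finset.sum_congr rfl fun i _ => (der_form b hD hb hc _).symm
    rw [h3, hX v, map_zero]
  rw [h2] at h1
  unfold KX
  simp only [hY, MultilinearMap.map_update_sub]
  exact h1.symm

/-- The logarithmic derivative of an operator `g` such that the form is algebraic on the image of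
the basis. -/
theorem kills_log {ι : Type*} [Finite ι] (b : Basis ι ℂ U) {δ : Derivation ℚ ℂ ℂ} {D : U → U}
    (hD : Semi δ D) (hb : ∀ i, D (b i) = 0) (hc : ∀ I : Fin m → ι, IsAlgebraic ℚ (c fun j => b (I j)))
    (g : U →ₗ[ℂ] U) (g' : U → U) (hg : ∀ v, g (g' v) = v)
    (hcg : ∀ I : Fin m → ι, IsAlgebraic ℚ (c fun j => g (b (I j))))
    {Y : U → U} (hY : ∀ v, Y (g v) = D (g v) - g (D v)) : Kills c Y := by
  intro w
  set v : Fin m → U := fun j => g' (w j) with hv
  have hw : w = fun j => g (v j) := by
    funext j
    exact (hg (w j)).symm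
  have h1 := der_form (c := c.compLinearMap fun _ => g) b hD hb (by
    intro I
    rw [MultilinearMap.compLinearMap_apply]
    exact hcg I) v
  have h2 := der_form b hD hb hc w
  rw [MultilinearMap.compLinearMap_apply, ← hw, h2] at h1
  unfold KX at h1 ⊢
  simp only [MultilinearMap.compLinearMap_apply] at h1
  have h3 : ∀ j, c (Function.update w j (Y (w j))) = c (Function.update w j (D (w j))) -
      c (fun i => g (Function.update v j (D (v j)) i)) := by
    intro j
    have h4 : (fun i => g (Function.update v j (D (v j)) i)) =
        Function.update w j (g (D (v j))) := by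
      rw [hw]
      funext i
      by_cases hij : i = j
      · subst hij
        rw [Function.update_self, Function.update_self]
      · rw [Function.update_of_ne hij, Function.update_of_ne hij]
    have h5 : w j = g (v j) := congrFun hw j
    rw [h4, ← MultilinearMap.map_update_sub, h5, hY]
  rw [Finset.sum_congr rfl fun j _ => h3 j, Finset.sum_sub_distrib, h1, sub_self]

end ml

end Pool.Agent.TH164.Spin
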