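import Pool.Agent.TH164.Spin.Tens

/-!
# Forms on the cohomology
-/

set_option autoImplicit false
set_option linter.unusedSectionVars false
set_option linter.unusedVariables false

open Module Matrix Finset

namespace Pool.Agent.TH164.Spin

open Pool.Agent.TH119.MX Pool.Agent.TH119.DR Pool.Agent.TH164.A1

variable {N : Type} [Fintype N] [DecidableEq N] [Nonempty N] {n a m : ℕ}
variable {Γ : Fin n → Matrix N N ℂ}

/-- The basis. -/
noncomputable def Cl.bs (h : Cl Γ) (a : ℕ) : Basis (Fin a ⊕ Fin n) ℂ ((Fin a → ℂ) × Ts Γ) :=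
  (Pi.basisFun ℂ (Fin a)).prod (Basis.span h.li)

theorem Cl.bs_inl (h : Cl Γ) (l : Fin a) : h.bs a (Sum.inl l) = (Pi.single l 1, 0) := by
  rw [Cl.bs, Basis.prod_apply, Sum.elim_inl, Function.comp_apply, Pi.basisFun_apply]
  rfl

theorem Cl.bs_inr (h : Cl Γ) (i : Fin n) : h.bs a (Sum.inr i) = (0, ⟨Γ i, gam_mem i⟩) := by
  rw [Cl.bs, Basis.prod_apply, Sum.elim_inr, Function.comp_apply]
  refine Prod.ext rfl ?_
  exact Basis.span_apply h.li i

/-- The operators on the cohomology given by matrices. -/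
noncomputable def adU (a : ℕ) (Γ : Fin n → Matrix N N ℂ) (X : Matrix N N ℂ)
    (v : (Fin a → ℂ) × Ts Γ) : (Fin a → ℂ) × Ts Γ :=
  (0, ∑ i, bq (X * (v.2 : Matrix N N ℂ) - (v.2 : Matrix N N ℂ) * X) (Γ i) •
    (⟨Γ i, gam_mem i⟩ : Ts Γ))

theorem bq_expand (h : Cl Γ) {t : Matrix N N ℂ} (ht : t ∈ Ts Γ) : ∑ i, bq t (Γ i) • Γ i = t := by
  obtain ⟨v, rfl⟩ := mem_Ts.1 ht
  simp only [h.bq_sum]

theorem adU_snd (h : Cl Γ) {X : Matrix N N ℂ} (hX : ∀ t ∈ Ts Γ, X * t - t * X ∈ Ts Γ)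
    (v : (Fin a → ℂ) × Ts Γ) : ((adU a Γ X v).2 : Matrix N N ℂ) = X * v.2 - v.2 * X := by
  rw [adU]
  simp only [Submodule.coe_sum, Submodule.coe_smul]
  exact bq_expand h (hX _ v.2.2)

theorem adU_eq (h : Cl Γ) {X : Matrix N N ℂ} (hX : ∀ t ∈ Ts Γ, X * t - t * X ∈ Ts Γ)
    (v : (Fin a → ℂ) × Ts Γ) : adU a Γ X v = (0, ⟨X * v.2 - v.2 * X, hX _ v.2.2⟩) :=
  Prod.ext rfl (Subtype.ext (adU_snd h hX v))

theorem adU_add (X Y : Matrix N N ℂ) (v : (Fin a → ℂ) × Ts Γ) :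
    adU a Γ (X + Y) v = adU a Γ X v + adU a Γ Y v := by
  refine Prod.ext ?_ ?_
  · simp [adU]
  · simp only [adU, Prod.snd_add]
    rw [← Finset.sum_add_distrib]
    refine Finset.sum_congr rfl fun i _ => ?_
    rw [← add_smul]
    congr 1
    rw [Matrix.add_mul, Matrix.mul_add, add_sub_add_comm, map_add, LinearMap.add_apply]

theorem adU_smul (z : ℂ) (X : Matrix N N ℂ) (v : (Fin a → ℂ) × Ts Γ) :
    adU a Γ (z • X) v = z • adU a Γ X v := by
  refine Prod.ext ?_ ?_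
  · simp [adU]
  · simp only [adU, Prod.smul_snd]
    rw [Finset.smul_sum]
    refine Finset.sum_congr rfl fun i _ => ?_
    rw [smul_smul]
    congr 1
    rw [Matrix.smul_mul, Matrix.mul_smul, ← smul_sub, map_smul, LinearMap.smul_apply,
      smul_eq_mul]

theorem adU_zero (v : (Fin a → ℂ) × Ts Γ) : adU a Γ 0 v = 0 := by
  have h1 := adU_smul (Γ := Γ) (0 : ℂ) 0 v
  rwa [zero_smul, zero_smul] at h1

theorem adU_one (v : (Fin a → ℂ) × Ts Γ) : adU a Γ 1 v = 0 := by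
  refine Prod.ext rfl ?_
  simp only [adU, Matrix.one_mul, Matrix.mul_one, sub_self, map_zero, LinearMap.zero_apply,
    zero_smul, Finset.sum_const_zero]
  rfl

theorem adU_comm (h : Cl Γ) {X Y : Matrix N N ℂ} (hX : ∀ t ∈ Ts Γ, X * t - t * X ∈ Ts Γ)
    (hY : ∀ t ∈ Ts Γ, Y * t - t * Y ∈ Ts Γ) (v : (Fin a → ℂ) × Ts Γ) :
    adU a Γ (X * Y - Y * X) v = adU a Γ X (adU a Γ Y v) - adU a Γ Y (adU a Γ X v) := by
  have hXY : ∀ t ∈ Ts Γ, (X * Y - Y * X) * t - t * (X * Y - Y * X) ∈ Ts Γ := by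
    intro t ht
    have h1 := Submodule.sub_mem _ (hX _ (hY t ht)) (hY _ (hX t ht))
    have h2 : (X * Y - Y * X) * t - t * (X * Y - Y * X) = X * (Y * t - t * Y) - (Y * t - t * Y) * X -
        (Y * (X * t - t * X) - (X * t - t * X) * Y) := by
      noncomm_ring
    rw [h2]
    exact h1
  refine Prod.ext ?_ (Subtype.ext ?_)
  · simp [adU]
  · rw [adU_snd h hXY, Prod.snd_sub, Submodule.coe_sub]
    simp only [adU_snd h hX, adU_snd h hY]
    noncomm_ring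

/-- The derivation of the cohomology. -/
noncomputable def dU (a : ℕ) (hΓ : ∀ i a b, IsAlgebraic ℚ (Γ i a b)) (δ : Derivation ℚ ℂ ℂ)
    (v : (Fin a → ℂ) × Ts Γ) : (Fin a → ℂ) × Ts Γ :=
  (fun i => δ (v.1 i), ⟨(v.2 : Matrix N N ℂ).map δ, map_Ts hΓ δ v.2.2⟩)

theorem dU_snd (hΓ : ∀ i a b, IsAlgebraic ℚ (Γ i a b)) (δ : Derivation ℚ ℂ ℂ)
    (v : (Fin a → ℂ) × Ts Γ) : ((dU a hΓ δ v).2 : Matrix N N ℂ) = (v.2 : Matrix N N ℂ).map δ := rfl

theorem map_add_der (δ : Derivation ℚ ℂ ℂ) (X Y : Matrix N N ℂ) :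
    (X + Y).map δ = X.map δ + Y.map δ := by
  ext i j
  exact map_add δ _ _

theorem map_sub_der (δ : Derivation ℚ ℂ ℂ) (X Y : Matrix N N ℂ) :
    (X - Y).map δ = X.map δ - Y.map δ := by
  ext i j
  exact map_sub δ _ _

theorem semi_dU (hΓ : ∀ i a b, IsAlgebraic ℚ (Γ i a b)) (δ : Derivation ℚ ℂ ℂ) :
    Semi δ (dU (Γ := Γ) a hΓ δ) where
  add v w := by
    refine Prod.ext ?_ (Subtype.ext ?_)
    · funext i
      exact map_add δ _ _
    · exact map_add_der δ _ _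
  smul z v := by
    refine Prod.ext ?_ (Subtype.ext ?_)
    · funext i
      change δ (z * v.1 i) = δ z * v.1 i + z * δ (v.1 i)
      rw [Derivation.leibniz, smul_eq_mul, smul_eq_mul]
      ring
    · exact map_smul_der δ _ _

theorem dU_bs (h : Cl Γ) (hΓ : ∀ i a b, IsAlgebraic ℚ (Γ i a b)) (δ : Derivation ℚ ℂ ℂ)
    (i : Fin a ⊕ Fin n) : dU a hΓ δ (h.bs a i) = 0 := by
  rcases i with l | i
  · rw [h.bs_inl]
    refine Prod.ext ?_ (Subtype.ext ?_)
    · funext j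
      change δ (Pi.single (M := fun _ => ℂ) l 1 j) = 0
      by_cases hj : j = l
      · rw [hj, Pi.single_eq_same]
        exact Derivation.map_one_eq_zero δ
      · rw [Pi.single_eq_of_ne hj, map_zero]
    · ext x y
      exact map_zero δ
  · rw [h.bs_inr]
    refine Prod.ext ?_ (Subtype.ext ?_)
    · funext j
      exact map_zero δ
    · exact map_gam hΓ δ i

/-- The action of the group. -/
noncomputable def gU (a : ℕ) {g g' : Matrix N N ℂ} (hg : InG Γ g g') :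
    ((Fin a → ℂ) × Ts Γ) →ₗ[ℂ] ((Fin a → ℂ) × Ts Γ) where
  toFun v := (v.1, ⟨g * v.2 * g', hg.c _ v.2.2⟩)
  map_add' v w := by
    refine Prod.ext rfl (Subtype.ext ?_)
    change g * ((v.2 : Matrix N N ℂ) + w.2) * g' = g * v.2 * g' + g * w.2 * g'
    rw [Matrix.mul_add, Matrix.add_mul]
  map_smul' z v := by
    refine Prod.ext rfl (Subtype.ext ?_)
    change g * (z • (v.2 : Matrix N N ℂ)) * g' = z • (g * v.2 * g')
    rw [Matrix.mul_smul, Matrix.smul_mul]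

theorem gU_snd {g g' : Matrix N N ℂ} (hg : InG Γ g g') (v : (Fin a → ℂ) × Ts Γ) :
    ((gU a hg v).2 : Matrix N N ℂ) = g * v.2 * g' := rfl

theorem log_vec (hΓ : ∀ i a b, IsAlgebraic ℚ (Γ i a b)) {g g' : Matrix N N ℂ} (hg : InG Γ g g')
    (δ : Derivation ℚ ℂ ℂ) (t : Matrix N N ℂ) : (g.map δ * g') * (g * t * g') -
      (g * t * g') * (g.map δ * g') = (g * t * g').map δ - g * t.map δ * g' := by
  have h1 : (g.map δ) * g' + g * g'.map δ = 0 := by
    rw [← map_mul_der, hg.r, map_one_der]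
  have h2 : g'.map δ = -(g' * (g.map δ * g')) := by
    have h3 := eq_neg_of_add_eq_zero_right h1
    calc g'.map δ = g' * (g * g'.map δ) := by rw [← Matrix.mul_assoc, hg.l, Matrix.one_mul]
      _ = _ := by rw [h3, Matrix.mul_neg]
  rw [map_mul_der, map_mul_der, h2]
  have h4 : g.map δ * g' * (g * t * g') = g.map δ * t * g' := by
    calc g.map δ * g' * (g * t * g') = g.map δ * (g' * g) * t * g' := by
          simp only [Matrix.mul_assoc]
      _ = _ := by rw [hg.l, Matrix.mul_one]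
  rw [h4]
  simp only [Matrix.add_mul, Matrix.mul_neg, Matrix.mul_assoc]
  abel

theorem log_mem (hΓ : ∀ i a b, IsAlgebraic ℚ (Γ i a b)) {g g' : Matrix N N ℂ} (hg : InG Γ g g')
    (δ : Derivation ℚ ℂ ℂ) {t : Matrix N N ℂ} (ht : t ∈ Ts Γ) :
    (g.map δ * g') * t - t * (g.map δ * g') ∈ Ts Γ := by
  have h1 := log_vec hΓ hg δ (g' * t * g)
  have h3 : g * (g' * t * g) * g' = t := by
    calc g * (g' * t * g) * g' = (g * g') * t * (g * g') := by simp only [Matrix.mul_assoc]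
      _ = t := by rw [hg.r, Matrix.one_mul, Matrix.mul_one]
  rw [h3] at h1
  rw [h1]
  exact Submodule.sub_mem _ (map_Ts hΓ δ ht) (hg.c _ (map_Ts hΓ δ (hg.c' t ht)))

/-- The matrices which kill the form. -/
noncomputable def Hc (Γ : Fin n → Matrix N N ℂ)
    (c : MultilinearMap ℂ (fun _ : Fin m => (Fin a → ℂ) × Ts Γ) ℂ) :
    Submodule ℂ (Matrix N N ℂ) where
  carrier := {X | X ∈ Ev Γ ∧ (∀ t ∈ Ts Γ, X * t - t * X ∈ Ts Γ) ∧ Kills c (adU a Γ X)}
  zero_mem' := by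
    refine ⟨Subalgebra.zero_mem _, fun t _ => ?_, fun v => ?_⟩
    · rw [Matrix.zero_mul, Matrix.mul_zero, sub_zero]
      exact Submodule.zero_mem _
    · exact Finset.sum_eq_zero fun j _ => by rw [adU_zero, MultilinearMap.map_update_zero]
  add_mem' := by
    rintro X Y ⟨h0, h1, h2⟩ ⟨h0', h3, h4⟩
    refine ⟨Subalgebra.add_mem _ h0 h0', fun t ht => ?_, ?_⟩
    · rw [Matrix.add_mul, Matrix.mul_add, add_sub_add_comm]
      exact Submodule.add_mem _ (h1 t ht) (h3 t ht)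
    · have := h2.add h4
      intro v
      rw [← this v]
      refine Finset.sum_congr rfl fun j _ => ?_
      rw [adU_add]
  smul_mem' := by
    rintro z X ⟨h0, h1, h2⟩
    refine ⟨Subalgebra.smul_mem _ h0 z, fun t ht => ?_, ?_⟩
    · rw [Matrix.smul_mul, Matrix.mul_smul, ← smul_sub]
      exact Submodule.smul_mem _ _ (h1 t ht)
    · have := h2.smul z
      intro v
      rw [← this v]
      refine Finset.sum_congr rfl fun j _ => ?_
      rw [adU_smul]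

variable {c : MultilinearMap ℂ (fun _ : Fin m => (Fin a → ℂ) × Ts Γ) ℂ}

theorem vec_der (hΓ : ∀ i a b, IsAlgebraic ℚ (Γ i a b)) (δ : Derivation ℚ ℂ ℂ)
    {X : Matrix N N ℂ} (hX : ∀ t ∈ Ts Γ, X * t - t * X ∈ Ts Γ) :
    ∀ t ∈ Ts Γ, X.map δ * t - t * X.map δ ∈ Ts Γ := by
  intro t ht
  have h1 := map_Ts hΓ δ (hX t ht)
  have h2 := hX _ (map_Ts hΓ δ ht)
  have h3 : (X * t - t * X).map δ = X.map δ * t - t * X.map δ + (X * t.map δ - t.map δ * X) := by
    rw [map_sub_der, map_mul_der, map_mul_der]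
    abel
  rw [h3] at h1
  have h4 := Submodule.sub_mem _ h1 h2
  rwa [add_sub_cancel_right] at h4

theorem Hc_der (h : Cl Γ) (hΓ : ∀ i a b, IsAlgebraic ℚ (Γ i a b))
    (hc : ∀ I : Fin m → Fin a ⊕ Fin n, IsAlgebraic ℚ (c fun j => h.bs a (I j)))
    (δ : Derivation ℚ ℂ ℂ) {X : Matrix N N ℂ} (hX : X ∈ Hc Γ c) : X.map δ ∈ Hc Γ c := by
  obtain ⟨h0, h1, h2⟩ := hX
  refine ⟨Ev_der hΓ δ h0, vec_der hΓ δ h1, ?_⟩
  refine h2.der (h.bs a) (semi_dU hΓ δ) (dU_bs h hΓ δ) hc ?_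
  intro v
  refine Prod.ext ?_ (Subtype.ext ?_)
  · funext i
    simp [adU, dU]
  · rw [adU_snd h (vec_der hΓ δ h1), Prod.snd_sub, Submodule.coe_sub, dU_snd, adU_snd h h1,
      adU_snd h h1, dU_snd, map_sub_der, map_mul_der, map_mul_der]
    abel

theorem Hc_P (h : Cl Γ) (hΓ : ∀ i a b, IsAlgebraic ℚ (Γ i a b))
    (hc : ∀ I : Fin m → Fin a ⊕ Fin n, IsAlgebraic ℚ (c fun j => h.bs a (I j)))
    {g g' : Matrix N N ℂ} (hg : InG Γ g g') (hgE : g ∈ Ev Γ) (hgE' : g' ∈ Ev Γ)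
    (hcg : ∀ I : Fin m → Fin a ⊕ Fin n, IsAlgebraic ℚ (c fun j => gU a hg (h.bs a (I j))))
    (δ : Derivation ℚ ℂ ℂ) : g.map δ * g' ∈ Hc Γ c := by
  refine ⟨Subalgebra.mul_mem _ (Ev_der hΓ δ hgE) hgE', fun t ht => log_mem hΓ hg δ ht, ?_⟩
  refine kills_log (h.bs a) (semi_dU hΓ δ) (dU_bs h hΓ δ) hc (gU a hg) (gU a hg.symm) ?_ hcg ?_
  · intro v
    refine Prod.ext rfl (Subtype.ext ?_)
    change g * (g' * v.2 * g) * g' = v.2
    calc g * (g' * v.2 * g) * g' = (g * g') * v.2 * (g * g') := by simp only [Matrix.mul_assoc]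
      _ = v.2 := by rw [hg.r, Matrix.one_mul, Matrix.mul_one]
  · intro v
    refine Prod.ext ?_ (Subtype.ext ?_)
    · funext i
      change (0 : ℂ) = δ (v.1 i) - δ (v.1 i)
      rw [sub_self]
    · rw [adU_snd h (fun t ht => log_mem hΓ hg δ ht), gU_snd, log_vec hΓ hg δ]
      rfl

end Pool.Agent.TH164.Spin
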