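import Pool.Agent.TH164.Spin.Tens2

/-!
# Forms killed by the orthogonal Lie algebra
-/

set_option autoImplicit false
set_option linter.unusedSectionVars false
set_option linter.unusedVariables false

open Module Matrix Finset

namespace Pool.Agent.TH164.Spin

open Pool.Agent.TH119.MX Pool.Agent.TH119.DR Pool.Agent.TH164.A1
open Pool.Agent.W417.K3.Fft

variable {N : Type} [Fintype N] [DecidableEq N] [Nonempty N] {n a m : ℕ}
variable {Γ : Fin n → Matrix N N ℂ}
variable {c : MultilinearMap ℂ (fun _ : Fin m => (Fin a → ℂ) × Ts Γ) ℂ}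

theorem kills_all (h : Cl Γ) (hcls : ∀ l : Submodule ℂ (Matrix N N ℂ),
      (∀ X ∈ l, ∀ Y ∈ l, X * Y - Y * X ∈ l) → l ≤ La Γ →
      Ev Γ ≤ Algebra.adjoin ℂ (l : Set (Matrix N N ℂ)) → La Γ ≤ l)
    (hΓ : ∀ i a b, IsAlgebraic ℚ (Γ i a b))
    (hc : ∀ I : Fin m → Fin a ⊕ Fin n, IsAlgebraic ℚ (c fun j => h.bs a (I j)))
    {g g' : Matrix N N ℂ} (hg : InG Γ g g') (hgE : g ∈ Ev Γ) (hgE' : g' ∈ Ev Γ)
    (hcg : ∀ I : Fin m → Fin a ⊕ Fin n, IsAlgebraic ℚ (c fun j => gU a hg (h.bs a (I j))))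
    (hW : ∀ B : Matrix N N ℂ, (∀ i j, IsAlgebraic ℚ (B i j)) → ∑ p : N × N,
      B p.1 p.2 * g p.1 p.2 = 0 → ∀ x ∈ Ev Γ, ∑ p : N × N, B p.1 p.2 * x p.1 p.2 = 0) :
    ∀ X ∈ La Γ, Kills c (adU a Γ X) := by
  have h1 := adjoin_ge (Ev Γ) (Hc Γ c) (A := 1) (A' := 1) hg.r hg.l (fun δ X hX => Ev_der hΓ δ hX)
    (fun δ X hX => Hc_der h hΓ hc δ hX) (fun X hX => hX.1)
    (fun δ => Hc_P h hΓ hc hg hgE hgE' hcg δ) (Matrix.one_mul 1) (fun i j => by
      rw [Matrix.one_apply]
      split_ifs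
      · exact isAlgebraic_one
      · exact isAlgebraic_zero) (by rwa [Matrix.mul_one]) (by
      intro B hB h2 x hx
      rw [Matrix.mul_one]
      exact hW B hB h2 x hx)
  set l : Submodule ℂ (Matrix N N ℂ) :=
    { carrier := {Y | Y ∈ La Γ ∧ Kills c (adU a Γ Y)}
      zero_mem' := ⟨Submodule.zero_mem _, ((Hc Γ c).zero_mem).2.2⟩
      add_mem' := by
        rintro X Y ⟨h1, h2⟩ ⟨h3, h4⟩
        refine ⟨Submodule.add_mem _ h1 h3, ?_⟩
        intro v
        rw [← (h2.add h4) v]
        exact Finset.sum_congr rfl fun j _ => by rw [adU_add]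
      smul_mem' := by
        rintro z X ⟨h1, h2⟩
        refine ⟨Submodule.smul_mem _ _ h1, ?_⟩
        intro v
        rw [← (h2.smul z) v]
        exact Finset.sum_congr rfl fun j _ => by rw [adU_smul] } with hl
  have h2 := hcls l (by
    rintro X ⟨hX, hX'⟩ Y ⟨hY, hY'⟩
    refine ⟨h.la_br hX hY, ?_⟩
    intro v
    rw [← (hX'.comm hY') v]
    refine Finset.sum_congr rfl fun j _ => ?_
    rw [adU_comm h (fun t ht => h.la_vec hX ht) (fun t ht => h.la_vec hY ht)])
    (fun X hX => hX.1) (by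
    refine h1.trans (Algebra.adjoin_le ?_)
    rintro X ⟨hX1, hX2, hX3⟩
    obtain ⟨Y, hY, z, rfl⟩ := h.decomp fun i => hX2 _ (gam_mem i)
    refine Subalgebra.add_mem _ (Algebra.subset_adjoin ⟨hY, ?_⟩)
      (Subalgebra.smul_mem _ (Subalgebra.one_mem _) z)
    intro v
    rw [← hX3 v]
    refine Finset.sum_congr rfl fun j _ => ?_
    rw [adU_add, adU_smul, adU_one, smul_zero, add_zero])
  exact fun X hX => (h2 hX).2

/-- The vectors in the slots `S`, and fixed classes in the other slots. -/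
noncomputable def mix (h : Cl Γ) (S : Finset (Fin m)) (l : Fin m → Fin a) (J : Fin m → Fin n) :
    Fin m → (Fin a → ℂ) × Ts Γ :=
  fun j => if j ∈ S then h.bs a (Sum.inr (J j)) else h.bs a (Sum.inl (l j))

theorem adU_bs_inl (h : Cl Γ) (X : Matrix N N ℂ) (l : Fin a) :
    adU a Γ X (h.bs a (Sum.inl l)) = 0 := by
  rw [h.bs_inl, adU]
  refine Prod.ext rfl ?_
  simp

theorem adU_bs_inr (h : Cl Γ) (x y k : Fin n) :
    adU a Γ (Γ x * Γ y - Γ y * Γ x) (h.bs a (Sum.inr k)) =
      (if y = k then (4 : ℂ) else 0) • h.bs a (Sum.inr x) -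
        (if x = k then (4 : ℂ) else 0) • h.bs a (Sum.inr y) := by
  have h1 : ∀ t ∈ Ts Γ, (Γ x * Γ y - Γ y * Γ x) * t - t * (Γ x * Γ y - Γ y * Γ x) ∈ Ts Γ :=
    fun t ht => h.la_vec (Submodule.subset_span ⟨_, gam_mem x, _, gam_mem y, rfl⟩) ht
  rw [h.bs_inr, h.bs_inr, h.bs_inr]
  refine Prod.ext ?_ (Subtype.ext ?_)
  · rw [Prod.fst_sub, Prod.smul_fst, Prod.smul_fst, smul_zero, smul_zero, sub_zero]
    rfl
  · rw [adU_snd h h1, Prod.snd_sub, Prod.smul_snd, Prod.smul_snd, Submodule.coe_sub,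
      Submodule.coe_smul, Submodule.coe_smul]
    change (Γ x * Γ y - Γ y * Γ x) * Γ k - Γ k * (Γ x * Γ y - Γ y * Γ x) = _
    rw [h.com_vec (gam_mem x) (gam_mem y) (gam_mem k), h.bq_gam, h.bq_gam, smul_sub]
    congr 1
    · split_ifs
      · rw [one_smul]
      · rw [zero_smul, smul_zero]
    · split_ifs
      · rw [one_smul]
      · rw [zero_smul, smul_zero]

theorem mix_update (h : Cl Γ) {S : Finset (Fin m)} (l : Fin m → Fin a) (J : Fin m → Fin n)
    {j : Fin m} (hj : j ∈ S) (x : Fin n) : Function.update (mix h S l J) j (h.bs a (Sum.inr x)) =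
      mix h S l (Function.update J j x) := by
  funext i
  by_cases hij : i = j
  · subst hij
    rw [Function.update_self, mix, if_pos hj, Function.update_self]
  · rw [Function.update_of_ne hij, mix, mix, Function.update_of_ne hij]

theorem mix_gens (h : Cl Γ) (hk : ∀ X ∈ La Γ, Kills c (adU a Γ X)) {S : Finset (Fin m)}
    (hS : S.card < n) (l : Fin m → Fin a) :
    (fun J => c (mix h S l J)) ∈ Submodule.span ℂ (Gens (fun _ : Fin n => (1 : ℂ)) S) := by
  refine key (fun _ => 1) (fun _ => one_ne_zero) S hS _ ?_ ?_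
  · intro J J' hJ
    change c (mix h S l J) = c (mix h S l J')
    congr 1
    funext j
    unfold mix
    split_ifs with hj
    · rw [hJ j hj]
    · rfl
  · intro x y hxy J
    have h1 := hk _ (Submodule.subset_span ⟨_, gam_mem x, _, gam_mem y, rfl⟩) (mix h S l J)
    unfold KX at h1
    rw [← Finset.sum_add_sum_compl S] at h1
    have h2 : ∑ j ∈ Sᶜ, c (Function.update (mix h S l J) j
        (adU a Γ (Γ x * Γ y - Γ y * Γ x) (mix h S l J j))) = 0 := by
      refine Finset.sum_eq_zero fun j hj => ?_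
      rw [Finset.mem_compl] at hj
      have h3 : mix h S l J j = h.bs a (Sum.inl (l j)) := if_neg hj
      rw [h3, adU_bs_inl, MultilinearMap.map_update_zero]
    have h3 : ∀ j ∈ S, c (Function.update (mix h S l J) j
        (adU a Γ (Γ x * Γ y - Γ y * Γ x) (mix h S l J j))) =
        (if J j = y then (4 : ℂ) * c (mix h S l (Function.update J j x)) else 0) -
          (if J j = x then (4 : ℂ) * c (mix h S l (Function.update J j y)) else 0) := by
      intro j hj
      have h4 : mix h S l J j = h.bs a (Sum.inr (J j)) := if_pos hj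
      rw [h4, adU_bs_inr, MultilinearMap.map_update_sub, MultilinearMap.map_update_smul,
        MultilinearMap.map_update_smul, mix_update h l J hj, mix_update h l J hj, smul_eq_mul,
        smul_eq_mul, ite_mul, ite_mul, zero_mul, zero_mul]
      simp only [eq_comm (a := y), eq_comm (a := x)]
    rw [h2, add_zero, Finset.sum_congr rfl h3, Finset.sum_sub_distrib, ← Finset.sum_filter,
      ← Finset.sum_filter, ← Finset.mul_sum, ← Finset.mul_sum, ← mul_sub, mul_eq_zero,
      or_iff_right (by norm_num), sub_eq_zero] at h1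
    simp only [one_mul]
    exact h1.symm

end Pool.Agent.TH164.Spin
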