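import Pool.Agent.TH164.Spin.Tens3

/-!
# Products of pairings and coordinates
-/

set_option autoImplicit false
set_option linter.unusedSectionVars false
set_option linter.unusedVariables false

open Module Matrix Finset

namespace Pool.Agent.TH164.Spin

open Pool.Agent.TH119.MX Pool.Agent.TH119.DR Pool.Agent.TH164.A1
open Pool.Agent.W417.K3.Fft

variable {N : Type} [Fintype N] [DecidableEq N] [Nonempty N] {n a m : ℕ}
variable {Γ : Fin n → Matrix N N ℂ}

/-- The factors. -/
noncomputable def fac (σ : Fin m → Fin m) (l : Fin m → Fin a) (v : Fin m → (Fin a → ℂ) × Ts Γ)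
    (j : Fin m) : ℂ :=
  if σ j = j then (v j).1 (l j) else if j < σ j then
    bq (v j).2.1 (v (σ j)).2.1 else 1

theorem prod_update (σ : Fin m → Fin m) (l : Fin m → Fin a) (v : Fin m → (Fin a → ℂ) × Ts Γ)
    (x : (Fin a → ℂ) × Ts Γ) (i k : Fin m)
    (hk : ∀ j, j ≠ k → j ≠ i ∧ σ j ≠ i ∨ σ j ≠ j ∧ ¬ j < σ j) :
    ∏ j, fac σ l (Function.update v i x) j = fac σ l (Function.update v i x) k *
      ∏ j ∈ univ.erase k, fac σ l v j := by
  rw [← Finset.mul_prod_erase _ _ (mem_univ k)]
  congr 1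
  refine Finset.prod_congr rfl fun j hj => ?_
  rcases hk j (mem_erase.1 hj).1 with ⟨h1, h2⟩ | ⟨h1, h2⟩
  · unfold fac
    rw [Function.update_of_ne h1, Function.update_of_ne h2]
  · unfold fac
    rw [if_neg h1, if_neg h1, if_neg h2, if_neg h2]

theorem exists_fac {σ : Fin m → Fin m} (hσ : ∀ j, σ (σ j) = j) (l : Fin m → Fin a)
    (v : Fin m → (Fin a → ℂ) × Ts Γ) (i : Fin m) :
    ∃ (φ : ((Fin a → ℂ) × Ts Γ) →ₗ[ℂ] ℂ) (C : ℂ), ∀ x,
      ∏ j, fac σ l (Function.update v i x) j = φ x * C := by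
  rcases lt_trichotomy i (σ i) with h | h | h
  · refine ⟨(bq (N := N)).flip (v (σ i)).2.1 ∘ₗ (Ts Γ).subtype ∘ₗ LinearMap.snd ℂ _ _,
      ∏ j ∈ univ.erase i, fac σ l v j, fun x => ?_⟩
    rw [prod_update σ l v x i i]
    · congr 1
      unfold fac
      rw [if_neg (ne_of_gt h), if_pos h, Function.update_self, Function.update_of_ne (ne_of_gt h)]
      rfl
    · intro j hj
      by_cases h1 : σ j = i
      · right
        have h2 : j = σ i := by rw [← h1, hσ]
        rw [h1]
        exact ⟨hj.symm, by rw [h2]; exact not_lt.2 h.le⟩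
      · exact Or.inl ⟨hj, h1⟩
  · refine ⟨LinearMap.proj (l i) ∘ₗ LinearMap.fst ℂ _ _, ∏ j ∈ univ.erase i, fac σ l v j,
      fun x => ?_⟩
    rw [prod_update σ l v x i i]
    · congr 1
      unfold fac
      rw [if_pos h.symm, Function.update_self]
      rfl
    · intro j hj
      left
      refine ⟨hj, fun h1 => hj ?_⟩
      rw [← hσ j, h1, ← h]
  · refine ⟨bq (v (σ i)).2.1 ∘ₗ (Ts Γ).subtype ∘ₗ LinearMap.snd ℂ _ _,
      ∏ j ∈ univ.erase (σ i), fac σ l v j, fun x => ?_⟩
    rw [prod_update σ l v x i (σ i)]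
    · congr 1
      unfold fac
      rw [hσ, if_neg (ne_of_gt h), if_pos h, Function.update_self, Function.update_of_ne (ne_of_lt h)]
      rfl
    · intro j hj
      by_cases h1 : j = i
      · right
        rw [h1]
        exact ⟨ne_of_lt h, not_lt.2 h.le⟩
      · left
        refine ⟨h1, fun h2 => hj ?_⟩
        rw [← h2, hσ]

/-- The product of all factors. -/
noncomputable def cyc (Γ : Fin n → Matrix N N ℂ) {σ : Fin m → Fin m} (hσ : ∀ j, σ (σ j) = j)
    (l : Fin m → Fin a) : MultilinearMap ℂ (fun _ : Fin m => (Fin a → ℂ) × Ts Γ) ℂ where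
  toFun v := ∏ j, fac σ l v j
  map_update_add' := by
    intro inst v i x y
    have hinst : inst = instDecidableEqFin m := Subsingleton.elim _ _
    subst hinst
    obtain ⟨φ, C, h⟩ := exists_fac hσ l v i
    rw [h, h, h, map_add, add_mul]
  map_update_smul' := by
    intro inst v i z x
    have hinst : inst = instDecidableEqFin m := Subsingleton.elim _ _
    subst hinst
    obtain ⟨φ, C, h⟩ := exists_fac hσ l v i
    rw [h, h, map_smul, smul_eq_mul, smul_eq_mul, mul_assoc]

theorem cyc_apply {σ : Fin m → Fin m} (hσ : ∀ j, σ (σ j) = j) (l : Fin m → Fin a)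
    (v : Fin m → (Fin a → ℂ) × Ts Γ) : cyc Γ hσ l v = ∏ j, fac σ l v j := rfl

/-- The slots with vectors. -/
def supp (I : Fin m → Fin a ⊕ Fin n) : Finset (Fin m) := univ.filter fun j => (I j).isRight

/-- The labels. -/
def lab (l₀ : Fin a) (I : Fin m → Fin a ⊕ Fin n) (j : Fin m) : Fin a := (I j).elim id fun _ => l₀

/-- The vectors. -/
def vec (i₀ : Fin n) (I : Fin m → Fin a ⊕ Fin n) (j : Fin m) : Fin n := (I j).elim (fun _ => i₀) id

theorem mix_eq (h : Cl Γ) (l₀ : Fin a) (i₀ : Fin n) (I : Fin m → Fin a ⊕ Fin n) :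
    mix h (supp I) (lab l₀ I) (vec i₀ I) = fun j => h.bs a (I j) := by
  funext j
  unfold mix supp lab vec
  rcases hj : I j with l | i
  · rw [if_neg (by simp [hj])]
    rfl
  · rw [if_pos (by simp [hj])]
    rfl

/-- The extension by zero. -/
noncomputable def ext0 (l₀ : Fin a) (i₀ : Fin n) (S : Finset (Fin m)) (l : Fin m → Fin a) :
    ((Fin m → Fin n) → ℂ) →ₗ[ℂ] ((Fin m → Fin a ⊕ Fin n) → ℂ) where
  toFun f I := if supp I = S ∧ lab l₀ I = l then f (vec i₀ I) else 0
  map_add' f g := by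
    funext I
    simp only [Pi.add_apply]
    split_ifs
    · rfl
    · rw [add_zero]
  map_smul' z f := by
    funext I
    simp only [Pi.smul_apply, RingHom.id_apply]
    split_ifs
    · rfl
    · rw [smul_zero]

theorem ext0_apply (l₀ : Fin a) (i₀ : Fin n) (S : Finset (Fin m)) (l : Fin m → Fin a)
    (f : (Fin m → Fin n) → ℂ) (I : Fin m → Fin a ⊕ Fin n) :
    ext0 l₀ i₀ S l f I = if supp I = S ∧ lab l₀ I = l then f (vec i₀ I) else 0 := rfl

theorem cyc_bs (h : Cl Γ) (l₀ : Fin a) (i₀ : Fin n) {σ : Fin m → Fin m} (hσ : ∀ j, σ (σ j) = j)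
    {S : Finset (Fin m)} (h1 : ∀ j ∈ S, σ j ≠ j) (h2 : ∀ j ∉ S, σ j = j) {l : Fin m → Fin a}
    (hl : ∀ j ∈ S, l j = l₀) {s : (Fin m → Fin n) → ℂ}
    (hs : ∀ I, s I = ∏ j with j < σ j, DD (fun _ => (1 : ℂ)) (I j) (I (σ j))) :
    (fun I => cyc Γ hσ l fun j => h.bs a (I j)) = ext0 l₀ i₀ S l s := by
  funext I
  rw [ext0_apply, cyc_apply]
  have hsS : ∀ j ∈ S, σ j ∈ S := by
    intro j hj
    by_contra h3
    have h4 := h2 _ h3
    rw [hσ] at h4
    exact h1 j hj h4.symm
  split_ifs with hI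
  · obtain ⟨hI1, hI2⟩ := hI
    rw [hs, Finset.prod_filter]
    refine Finset.prod_congr rfl fun j _ => ?_
    unfold fac
    beta_reduce
    have hright : ∀ j ∈ S, I j = Sum.inr (vec i₀ I j) := by
      intro j hj
      rw [← hI1, supp, Finset.mem_filter] at hj
      unfold vec
      rcases h3 : I j with x | x
      · rw [h3] at hj
        exact absurd hj.2 (by simp)
      · rfl
    have hleft : ∀ j ∉ S, I j = Sum.inl (l j) := by
      intro j hj
      rw [← hI1, supp, Finset.mem_filter] at hj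
      rw [← hI2]
      unfold lab
      rcases h3 : I j with x | x
      · rfl
      · rw [h3] at hj
        exact absurd hj (by simp)
    by_cases hj : j ∈ S
    · rw [if_neg (h1 j hj)]
      split_ifs with h3
      · rw [hright j hj, hright _ (hsS j hj), h.bs_inr, h.bs_inr]
        change bq (Γ _) (Γ _) = _
        rw [h.bq_gam, DD]
      · rfl
    · rw [if_pos (h2 j hj), hleft j hj, h.bs_inl, if_neg (by rw [h2 j hj]; exact lt_irrefl _)]
      exact Pi.single_eq_same _ _
  · by_contra hne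
    replace hne := Finset.prod_ne_zero_iff.1 hne
    apply hI
    have hr : ∀ j ∈ S, (I j).isRight = true := by
      intro j hj
      by_contra h3
      obtain ⟨x, hx⟩ : ∃ x, I j = Sum.inl x := by
        rcases h4 : I j with x | x
        · exact ⟨x, rfl⟩
        · rw [h4] at h3
          exact absurd rfl h3
      rcases lt_or_gt_of_ne (h1 j hj) with h4 | h4
      · have h5 := hne (σ j) (mem_univ _)
        unfold fac at h5
        beta_reduce at h5
        rw [hσ, if_neg (ne_of_gt h4), if_pos h4, hx, h.bs_inl] at h5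
        exact h5 (map_zero _)
      · have h5 := hne j (mem_univ _)
        unfold fac at h5
        beta_reduce at h5
        rw [if_neg (ne_of_gt h4), if_pos h4, hx, h.bs_inl] at h5
        refine h5 ?_
        change bq 0 _ = 0
        rw [map_zero, LinearMap.zero_apply]
    have hlft : ∀ j ∉ S, I j = Sum.inl (l j) := by
      intro j hj
      have h5 := hne j (mem_univ _)
      unfold fac at h5
      beta_reduce at h5
      rw [if_pos (h2 j hj)] at h5
      rcases h4 : I j with x | x
      · rw [h4, h.bs_inl] at h5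
        by_contra h6
        exact h5 (Pi.single_eq_of_ne (fun h7 => h6 (by rw [h7])) _)
      · rw [h4, h.bs_inr] at h5
        exact absurd rfl h5
    refine ⟨?_, ?_⟩
    · ext j
      rw [supp, Finset.mem_filter]
      constructor
      · rintro ⟨-, h3⟩
        by_contra h4
        rw [hlft j h4] at h3
        exact absurd h3 (by simp)
      · intro h3
        exact ⟨mem_univ _, hr j h3⟩
    · funext j
      unfold lab
      by_cases hj : j ∈ S
      · have h3 := hr j hj
        rcases h4 : I j with x | x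
        · rw [h4] at h3
          exact absurd h3 (by simp)
        · exact (hl j hj).symm
      · rw [hlft j hj]
        rfl

variable {c : MultilinearMap ℂ (fun _ : Fin m => (Fin a → ℂ) × Ts Γ) ℂ}

/-- **The form is a combination of products.** -/
theorem span_cyc (h : Cl Γ) (hm : m < n) (ha : 0 < a) (hk : ∀ X ∈ La Γ, Kills c (adU a Γ X)) :
    c ∈ Submodule.span ℂ (Set.range fun p : {σ : Fin m → Fin m // ∀ j, σ (σ j) = j} ×
      (Fin m → Fin a) => cyc Γ p.1.2 p.2) := by
  have hn : 0 < n := by omega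
  set l₀ : Fin a := ⟨0, ha⟩
  set i₀ : Fin n := ⟨0, hn⟩
  let evq : MultilinearMap ℂ (fun _ : Fin m => (Fin a → ℂ) × Ts Γ) ℂ →ₗ[ℂ]
      ((Fin m → Fin a ⊕ Fin n) → ℂ) :=
    { toFun := fun T I => T (fun j => h.bs a (I j))
      map_add' := fun _ _ => rfl
      map_smul' := fun _ _ => rfl }
  have hinj : Function.Injective evq := by
    intro T T' h1
    exact Basis.ext_multilinear (fun _ => h.bs a) fun J => congrFun h1 J
  set E := Submodule.span ℂ (Set.range fun p : {σ : Fin m → Fin m // ∀ j, σ (σ j) = j} ×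
      (Fin m → Fin a) => cyc Γ p.1.2 p.2) with hE
  have h1 : evq c ∈ E.map evq := by
    have h2 : evq c = ∑ S : Finset (Fin m), ∑ l : Fin m → Fin a,
        ext0 l₀ i₀ S l (fun J => c (mix h S l J)) := by
      funext I
      rw [Finset.sum_apply]
      simp only [Finset.sum_apply, ext0_apply]
      rw [Finset.sum_eq_single (supp I)]
      · rw [Finset.sum_eq_single (lab l₀ I)]
        · rw [if_pos ⟨rfl, rfl⟩, mix_eq]
          rfl
        · intro l _ hl
          rw [if_neg fun h3 => hl h3.2.symm]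
        · intro h3
          exact absurd (mem_univ _) h3
      · intro S _ hS
        refine Finset.sum_eq_zero fun l _ => ?_
        rw [if_neg fun h3 => hS h3.1.symm]
      · intro h3
        exact absurd (mem_univ _) h3
    rw [h2]
    refine Submodule.sum_mem _ fun S _ => Submodule.sum_mem _ fun l _ => ?_
    by_cases hl : ∀ j ∈ S, l j = l₀
    · have h3 : Submodule.span ℂ (Gens (fun _ : Fin n => (1 : ℂ)) S) ≤
          (E.map evq).comap (ext0 l₀ i₀ S l) := by
        refine Submodule.span_le.2 ?_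
        rintro s ⟨σ, hσ1, hσ2, hσ3, hσ4⟩
        refine ⟨cyc Γ hσ1 l, Submodule.subset_span ⟨(⟨σ, hσ1⟩, l), rfl⟩, ?_⟩
        exact cyc_bs h l₀ i₀ hσ1 hσ2 hσ3 hl hσ4
      refine h3 (mix_gens h hk (lt_of_le_of_lt ?_ hm) l)
      calc S.card ≤ (univ : Finset (Fin m)).card := Finset.card_le_card (Finset.subset_univ S)
        _ = m := by rw [Finset.card_univ, Fintype.card_fin]
    · push Not at hl
      obtain ⟨j, hj, hlj⟩ := hl
      have h3 : ext0 l₀ i₀ S l (fun J => c (mix h S l J)) = 0 := by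
        funext I
        rw [ext0_apply, if_neg]
        · rfl
        rintro ⟨h4, h5⟩
        rw [← h4, supp, Finset.mem_filter] at hj
        apply hlj
        rw [← h5]
        unfold lab
        rcases h6 : I j with x | x
        · rw [h6] at hj
          exact absurd hj.2 (by simp)
        · rfl
      rw [h3]
      exact Submodule.zero_mem _
  obtain ⟨T, hT, hT'⟩ := h1
  rw [← hinj hT']
  exact hT

/-- The rational projection. -/
theorem exists_proj : ∃ π : ℂ →ₗ[ℚ] ℚ, ∀ (q : ℚ) (z : ℂ), π ((q : ℂ) * z) = q * π z ∧ π (q : ℂ) = q := by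
  obtain ⟨π, hπ⟩ := LinearMap.exists_leftInverse_of_injective (Algebra.linearMap ℚ ℂ)
    (LinearMap.ker_eq_bot.2 (algebraMap ℚ ℂ).injective)
  refine ⟨π, fun q z => ⟨?_, ?_⟩⟩
  · have h1 : ((q : ℚ) : ℂ) * z = q • z := by
      rw [Algebra.smul_def]
      rfl
    rw [h1, map_smul, smul_eq_mul]
  · exact LinearMap.congr_fun hπ q

/-- **Rational coefficients.** -/
theorem rat_cyc {κ : Type*} [Finite κ] (b : Basis κ ℂ ((Fin a → ℂ) × Ts Γ))
    (hc : ∀ I : Fin m → κ, ∃ q : ℚ, c (fun j => b (I j)) = q)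
    (hb : ∀ (σ : Fin m → Fin m) (l : Fin m → Fin a) (I : Fin m → κ) (j : Fin m),
      ∃ q : ℚ, fac σ l (fun j => b (I j)) j = q)
    (hspan : c ∈ Submodule.span ℂ (Set.range fun p : {σ : Fin m → Fin m // ∀ j, σ (σ j) = j} ×
      (Fin m → Fin a) => cyc Γ p.1.2 p.2)) :
    ∃ z : {σ : Fin m → Fin m // ∀ j, σ (σ j) = j} → (Fin m → Fin a) → ℚ, ∀ v,
      c v = ∑ σ, ∑ l, (z σ l : ℂ) * ∏ j, fac σ.1 l v j := by
  obtain ⟨w, hw⟩ := (Submodule.mem_span_range_iff_exists_fun ℂ).1 hspan
  obtain ⟨π, hπ⟩ := exists_proj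
  refine ⟨fun σ l => π (w (σ, l)), ?_⟩
  have h1 : c = ∑ p : {σ : Fin m → Fin m // ∀ j, σ (σ j) = j} × (Fin m → Fin a),
      ((π (w p) : ℚ) : ℂ) • cyc Γ p.1.2 p.2 := by
    refine Basis.ext_multilinear (fun _ => b) fun I => ?_
    obtain ⟨q, hq⟩ := hc I
    have h2 : ∀ p : {σ : Fin m → Fin m // ∀ j, σ (σ j) = j} × (Fin m → Fin a), ∃ r : ℚ,
        cyc Γ p.1.2 p.2 (fun j => b (I j)) = r := by
      intro p
      choose r hr using fun j => hb p.1 p.2 I j
      refine ⟨∏ j, r j, ?_⟩
      rw [cyc_apply, Finset.prod_congr rfl fun j _ => hr j]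
      push_cast
      rfl
    choose r hr using h2
    have h3 := congrArg (fun f => f fun j => b (I j)) hw
    simp only [_root_.sum_apply, _root_.smul_apply, smul_eq_mul, hr] at h3 ⊢
    rw [hq] at h3 ⊢
    have h4 := congrArg π h3
    rw [(hπ q 0).2, map_sum] at h4
    rw [← h4]
    push_cast
    refine Finset.sum_congr rfl fun p _ => ?_
    rw [mul_comm (w p), (hπ _ _).1]
    push_cast
    ring
  intro v
  have h2 := congrArg (fun f => f v) h1
  simp only [_root_.sum_apply, _root_.smul_apply, smul_eq_mul] at h2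
  rw [h2, Fintype.sum_prod_type]
  rfl

end Pool.Agent.TH164.Spin
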