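import Pool.Agent.TH164.Spin.Rt
import Pool.Agent.TH164.Spin.Fun

/-!
# Strings of weights
-/

set_option autoImplicit false
set_option linter.unusedSectionVars false
set_option linter.unusedVariables false

open Module LieModule LieAlgebra LieAlgebra.IsKilling

namespace Pool.Agent.TH164.Spin

variable {k L : Type*} [Field k] [IsAlgClosed k] [CharZero k] [LieRing L] [LieAlgebra k L]
  [FiniteDimensional k L] [LieAlgebra.IsKilling k L] {H : LieSubalgebra k L}
  [H.IsCartanSubalgebra]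
variable {M : Type*} [AddCommGroup M] [Module k M] [LieRingModule L M] [LieModule k L M]
  [FiniteDimensional k M]

/-- A standard triple of a root. -/
structure Tri (β : H → k) (e f : L) : Prop where
  rt : IsRt H β
  he : e ∈ wt H L β
  hf : f ∈ wt H L (-β)
  ht : IsSl2Triple ((cv β : H) : L) e f

theorem exists_tri {β : H → k} (hβ : IsRt H β) : ∃ e f : L, Tri β e f := by
  obtain ⟨e, he, f, hf, ht⟩ := rt_triple hβ
  exact ⟨e, f, hβ, he, hf, ht⟩

theorem Tri.neg {β : H → k} {e f : L} (t : Tri β e f) : Tri (-β) f e where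
  rt := rt_neg t.rt
  he := t.hf
  hf := by
    rw [neg_neg]
    exact t.he
  ht := by
    rw [cv_neg t.rt]
    exact t.ht.symm

theorem Tri.lie_e {β : H → k} {e f : L} (t : Tri β e f) {χ : H → k} {m : M}
    (hm : m ∈ wt H M χ) : ⁅e, m⁆ ∈ wt H M (χ + β) := lie_mem_wt t.he hm

theorem Tri.lie_f {β : H → k} {e f : L} (t : Tri β e f) {χ : H → k} {m : M}
    (hm : m ∈ wt H M χ) : ⁅f, m⁆ ∈ wt H M (χ - β) := by
  rw [sub_eq_add_neg]
  exact lie_mem_wt t.hf hm

/-- Powers of the raising operator. -/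
def up {L M : Type*} [LieRing L] [AddCommGroup M] [LieRingModule L M] (e : L) (n : ℕ) (m : M) : M :=
  (fun m => ⁅e, m⁆)^[n] m

theorem up_zero (e : L) (m : M) : up e 0 m = m := rfl

theorem up_succ (e : L) (n : ℕ) (m : M) : up e (n + 1) m = ⁅e, up e n m⁆ :=
  Function.iterate_succ_apply' _ _ _

theorem up_eq (e : L) (n : ℕ) (m : M) : up e n m = ((toEnd k L M e) ^ n) m := by
  induction n with
  | zero => rfl
  | succ n ih =>
    rw [up_succ, ih, pow_succ']
    rfl

theorem up_add (e : L) (n p : ℕ) (m : M) : up e (n + p) m = up e n (up e p m) :=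
  Function.iterate_add_apply _ _ _ _

theorem up_smul (e : L) (n : ℕ) (c : k) (m : M) : up e n (c • m) = c • up e n m := by
  rw [up_eq (k := k), up_eq (k := k), map_smul]

theorem up_one (e : L) (m : M) : up e 1 m = ⁅e, m⁆ := by
  rw [up_succ, up_zero]

theorem Tri.up_mem {β : H → k} {e f : L} (t : Tri β e f) {χ : H → k} {m : M}
    (hm : m ∈ wt H M χ) (n : ℕ) : up e n m ∈ wt H M (χ + n • β) := by
  induction n with
  | zero => 
    rw [up_zero, zero_smul, add_zero]
    exact hm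
  | succ n ih =>
    rw [up_succ]
    refine lie_mem_wt' t.he ih ?_
    rw [succ_nsmul]
    abel

theorem Tri.dn_mem {β : H → k} {e f : L} (t : Tri β e f) {χ : H → k} {m : M}
    (hm : m ∈ wt H M χ) (n : ℕ) : up f n m ∈ wt H M (χ - n • β) := by
  have := t.neg.up_mem hm n
  rwa [smul_neg, ← sub_eq_add_neg] at this

theorem Tri.prim {β : H → k} {e f : L} (t : Tri β e f) {χ : H → k} {m : M}
    (hm : m ∈ wt H M χ) (h0 : m ≠ 0) : ∃ p : ℕ, up e p m ≠ 0 ∧ up e (p + 1) m = 0 := by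
  have h1 : ∃ n : ℕ, up e n m = 0 := by
    by_contra hcon
    push Not at hcon
    have hinj : Function.Injective fun n : ℕ => χ + n • β := by
      intro a b hab
      simp only [add_right_inj] at hab
      have h2 := congrFun hab (cv β)
      rw [Pi.smul_apply, Pi.smul_apply, rt_two t.rt] at h2
      simp only [nsmul_eq_mul] at h2
      have h3 := mul_right_cancel₀ (two_ne_zero' k) h2
      exact_mod_cast h3
    refine Set.infinite_range_of_injective hinj ((finite_wt (H := H) (M := M)).subset ?_)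
    rintro _ ⟨n, rfl⟩ h2
    refine hcon n ?_
    have h3 := t.up_mem hm n
    rw [h2] at h3
    exact (Submodule.mem_bot k).1 h3
  refine Nat.exists_not_and_succ_of_not_zero_of_exists (p := fun n => up e n m = 0) ?_ h1
  rw [up_zero]
  exact h0

theorem Tri.pv {β : H → k} {e f : L} (t : Tri β e f) {χ : H → k} {m : M}
    (hm : m ∈ wt H M χ) (h0 : m ≠ 0) (h1 : ⁅e, m⁆ = 0) :
    t.ht.HasPrimitiveVectorWith m (χ (cv β)) where
  ne_zero := h0
  lie_h := hm (cv β)
  lie_e := h1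

/-- The string below a primitive vector. -/
theorem Tri.nat {β : H → k} {e f : L} (t : Tri β e f) {χ : H → k} {m : M}
    (hm : m ∈ wt H M χ) (h0 : m ≠ 0) (h1 : ⁅e, m⁆ = 0) :
    ∃ N : ℕ, χ (cv β) = N ∧ (∀ i ≤ N, up f i m ≠ 0) ∧ up f (N + 1) m = 0 := by
  have P := t.pv hm h0 h1
  obtain ⟨N, hN⟩ := P.exists_nat
  refine ⟨N, hN, fun i hi => ?_, ?_⟩
  · rw [up_eq (k := k)]
    exact P.pow_toEnd_f_ne_zero_of_eq_nat hN hi
  · rw [up_eq (k := k)]
    exact P.pow_toEnd_f_eq_zero_of_eq_nat hN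

theorem Tri.e_f {β : H → k} {e f : L} (t : Tri β e f) {χ : H → k} {m : M}
    (hm : m ∈ wt H M χ) (h0 : m ≠ 0) (h1 : ⁅e, m⁆ = 0) (n : ℕ) :
    ⁅e, up f (n + 1) m⁆ = ((n + 1) * (χ (cv β) - n)) • up f n m := by
  rw [up_eq (k := k), up_eq (k := k)]
  exact (t.pv hm h0 h1).lie_e_pow_succ_toEnd_f n

theorem Tri.inj {β : H → k} {e f : L} (t : Tri β e f) {χ : H → k} {m : M}
    (hm : m ∈ wt H M χ) (h0 : m ≠ 0) {z : ℤ} (hz : χ (cv β) = z) (hz0 : 0 < z) :
    ⁅f, m⁆ ≠ 0 := by
  intro h1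
  obtain ⟨N, hN, -⟩ := t.neg.nat hm h0 h1
  rw [cv_neg t.rt] at hN
  have h2 : χ (-cv β) = -χ (cv β) := by
    have h3 := hm (-cv β)
    have h4 : ((-cv β : H) : L) = -((cv β : H) : L) := rfl
    rw [h4, neg_lie, hm (cv β), ← neg_smul] at h3
    exact (smul_left_injective k h0 h3).symm
  rw [h2, hz] at hN
  have h3 : (-z : ℤ) = (N : ℤ) := by exact_mod_cast hN
  omega

theorem Tri.inj' {β : H → k} {e f : L} (t : Tri β e f) {χ : H → k} {m : M}
    (hm : m ∈ wt H M χ) (h0 : m ≠ 0) {z : ℤ} (hz : χ (cv β) = z) (hz0 : z < 0) :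
    ⁅e, m⁆ ≠ 0 := by
  intro h1
  obtain ⟨N, hN, -⟩ := t.nat hm h0 h1
  rw [hz] at hN
  have h3 : (z : ℤ) = (N : ℤ) := by exact_mod_cast hN
  omega

theorem exists_string_top {β χ : H → k} (hβ : β ≠ 0) (h : wt H M χ ≠ ⊥) :
    ∃ p : ℕ, wt H M (χ + p • β) ≠ ⊥ ∧ wt H M (χ + (p + 1) • β) = ⊥ := by
  have h1 : ∃ n : ℕ, wt H M (χ + n • β) = ⊥ := by
    by_contra hcon
    push Not at hcon
    have hinj : Function.Injective fun n : ℕ => χ + n • β := by
      intro a b hab
      simp only [add_right_inj] at hab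
      obtain ⟨x, hx⟩ := Function.ne_iff.1 hβ
      have h2 := congrFun hab x
      rw [Pi.smul_apply, Pi.smul_apply] at h2
      simp only [nsmul_eq_mul] at h2
      have h3 := mul_right_cancel₀ hx h2
      exact_mod_cast h3
    refine Set.infinite_range_of_injective hinj ((finite_wt (H := H) (M := M)).subset ?_)
    rintro _ ⟨n, rfl⟩
    exact hcon n
  refine Nat.exists_not_and_succ_of_not_zero_of_exists (p := fun n => wt H M (χ + n • β) = ⊥)
    ?_ h1
  rwa [zero_smul, add_zero]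

theorem Tri.int {β : H → k} {e f : L} (t : Tri β e f) {χ : H → k} (h : wt H M χ ≠ ⊥) :
    ∃ z : ℤ, χ (cv β) = z := by
  obtain ⟨m, hm, h0⟩ := Submodule.exists_mem_ne_zero_of_ne_bot h
  obtain ⟨p, hp0, hp1⟩ := t.prim hm h0
  obtain ⟨N, hN, -⟩ := t.nat (t.up_mem hm p) hp0 (by rw [← up_succ]; exact hp1)
  refine ⟨(N : ℤ) - 2 * p, ?_⟩
  push_cast
  rw [← hN, Pi.add_apply, Pi.smul_apply, rt_two t.rt, nsmul_eq_mul]
  ring

/-- The string below a weight with a positive value. -/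
theorem Tri.str {β : H → k} {e f : L} (t : Tri β e f) {χ : H → k} (h : wt H M χ ≠ ⊥) {z : ℤ}
    (hz : χ (cv β) = z) {i : ℕ} (hi : (i : ℤ) ≤ z) : wt H M (χ - i • β) ≠ ⊥ := by
  obtain ⟨m, hm, h0⟩ := Submodule.exists_mem_ne_zero_of_ne_bot h
  obtain ⟨p, hp0, hp1⟩ := t.prim hm h0
  have hu := t.up_mem hm p
  obtain ⟨N, hN, hN1, -⟩ := t.nat hu hp0 (by rw [← up_succ]; exact hp1)
  have h1 : (χ + p • β) (cv β) = χ (cv β) + 2 * p := by
    rw [Pi.add_apply, Pi.smul_apply, rt_two t.rt, nsmul_eq_mul]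
    ring
  rw [h1, hz] at hN
  have hN3 : z + 2 * p = N := by exact_mod_cast hN
  have h2 := hN1 (p + i) (by omega)
  have h3 := t.dn_mem hu (p + i)
  intro h4
  refine h2 ?_
  have h5 : χ + p • β - (p + i) • β = χ - i • β := by
    rw [add_smul]
    abel
  rw [h5, h4] at h3
  exact (Submodule.mem_bot k).1 h3

theorem apply_neg {χ : H → k} (h : wt H M χ ≠ ⊥) (x : H) : χ (-x) = -χ x := by
  obtain ⟨m, hm, h0⟩ := Submodule.exists_mem_ne_zero_of_ne_bot h
  have h3 := hm (-x)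
  have h4 : ((-x : H) : L) = -((x : H) : L) := rfl
  rw [h4, neg_lie, hm x, ← neg_smul] at h3
  exact (smul_left_injective k h0 h3).symm

/-- The string above a weight with a negative value. -/
theorem Tri.str' {β : H → k} {e f : L} (t : Tri β e f) {χ : H → k} (h : wt H M χ ≠ ⊥) {z : ℤ}
    (hz : χ (cv β) = z) {i : ℕ} (hi : (i : ℤ) ≤ -z) : wt H M (χ + i • β) ≠ ⊥ := by
  have h1 : χ (cv (-β)) = (-z : ℤ) := by
    rw [cv_neg t.rt, apply_neg h, hz]
    push_cast
    rfl
  have h2 := t.neg.str h h1 hi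
  rwa [smul_neg, sub_neg_eq_add] at h2

/-! ### Vectors in spans of weight vectors -/

theorem mem_span_wt {ι : Type*} {v : ι → M} {X : ι → H → k} (hv : ∀ i, v i ∈ wt H M (X i))
    {m : M} (hm : m ∈ Submodule.span k (Set.range v)) {χ : H → k} (hχ : m ∈ wt H M χ) :
    m ∈ Submodule.span k (v '' {i | X i = χ}) := by
  have key : ∃ a ∈ Submodule.span k (v '' {i | X i = χ}),
      m - a ∈ lv (H := H) (M := M) (fun ψ => ψ ≠ χ) := by
    clear hχ
    induction hm using Submodule.span_induction with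
    | mem x hx =>
      obtain ⟨i, rfl⟩ := hx
      by_cases h : X i = χ
      · refine ⟨v i, Submodule.subset_span ⟨i, h, rfl⟩, ?_⟩
        rw [sub_self]
        exact Submodule.zero_mem _
      · refine ⟨0, Submodule.zero_mem _, ?_⟩
        rw [sub_zero]
        exact wt_le_lv (P := fun ψ => ψ ≠ χ) h (hv i)
    | zero =>
      refine ⟨0, Submodule.zero_mem _, ?_⟩
      rw [sub_zero]
      exact Submodule.zero_mem _
    | add x y _ _ hx hy =>
      obtain ⟨a, ha, h1⟩ := hx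
      obtain ⟨b, hb, h2⟩ := hy
      refine ⟨a + b, Submodule.add_mem _ ha hb, ?_⟩
      rw [add_sub_add_comm]
      exact Submodule.add_mem _ h1 h2
    | smul c x _ hx =>
      obtain ⟨a, ha, h1⟩ := hx
      refine ⟨c • a, Submodule.smul_mem _ c ha, ?_⟩
      rw [← smul_sub]
      exact Submodule.smul_mem _ c h1
  obtain ⟨a, ha, h1⟩ := key
  have h2 : a ∈ wt H M χ := by
    refine (Submodule.span_le.2 ?_ : _ ≤ wt H M χ) ha
    rintro _ ⟨i, hi, rfl⟩
    rw [← hi]
    exact hv i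
  have h3 : m - a = 0 := by
    have h4 := Submodule.sub_mem _ hχ h2
    rw [wt_eq_lv] at h4
    exact eq_zero_of_mem_lv (fun ψ h5 h6 => h5 h6) h1 h4
  rw [sub_eq_zero.1 h3]
  exact ha

end Pool.Agent.TH164.Spin
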