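import Mathlib

/-!
# Weight spaces of modules over a Lie algebra with a Cartan subalgebra
-/

set_option autoImplicit false
set_option linter.unusedSectionVars false
set_option linter.unusedVariables false

open Module

namespace Pool.Agent.TH164.Spin

variable {k L : Type*} [Field k] [LieRing L] [LieAlgebra k L] (H : LieSubalgebra k L)
variable (M : Type*) [AddCommGroup M] [Module k M] [LieRingModule L M] [LieModule k L M]

/-- The weight space. -/
def wt (χ : H → k) : Submodule k M where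
  carrier := {m | ∀ h : H, ⁅(h : L), m⁆ = χ h • m}
  zero_mem' h := by rw [lie_zero, smul_zero]
  add_mem' := by
    intro m n hm hn h
    rw [lie_add, hm, hn, smul_add]
  smul_mem' := by
    intro c m hm h
    rw [lie_smul, hm, smul_comm]

variable {M} {H}

theorem mem_wt {χ : H → k} {m : M} : m ∈ wt H M χ ↔ ∀ h : H, ⁅(h : L), m⁆ = χ h • m := Iff.rfl

theorem lie_mem_wt {β χ : H → k} {x : L} (hx : x ∈ wt H L β) {m : M} (hm : m ∈ wt H M χ) :
    ⁅x, m⁆ ∈ wt H M (χ + β) := by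
  intro h
  rw [leibniz_lie, hx h, hm h, lie_smul, smul_lie, ← add_smul, Pi.add_apply, add_comm (χ h)]

theorem lie_mem_wt' {β χ ψ : H → k} {x : L} (hx : x ∈ wt H L β) {m : M} (hm : m ∈ wt H M χ)
    (h : χ + β = ψ) : ⁅x, m⁆ ∈ wt H M ψ := by
  rw [← h]
  exact lie_mem_wt hx hm

theorem iSupIndep_wt [LieRing.IsNilpotent H] : iSupIndep (wt H M) := by
  have h1 := LieModule.iSupIndep_genWeightSpace k H M
  have h2 : iSupIndep fun χ : H → k => (LieModule.genWeightSpace M χ).toSubmodule :=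
    LieSubmodule.iSupIndep_toSubmodule.mpr h1
  refine h2.mono fun χ m hm => ?_
  refine LieModule.weightSpace_le_genWeightSpace M χ ?_
  rw [LieModule.mem_weightSpace]
  exact hm

/-- The sum of weight spaces. -/
def lv (P : (H → k) → Prop) : Submodule k M := ⨆ (χ : H → k) (_ : P χ), wt H M χ

theorem wt_le_lv {P : (H → k) → Prop} {χ : H → k} (h : P χ) : wt H M χ ≤ lv (M := M) P :=
  le_iSup₂_of_le χ h le_rfl

theorem lv_mono {P Q : (H → k) → Prop} (h : ∀ χ, wt H M χ ≠ ⊥ → P χ → Q χ) :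
    lv (M := M) P ≤ lv (M := M) Q := by
  refine iSup₂_le fun χ hχ => ?_
  by_cases h0 : wt H M χ = ⊥
  · rw [h0]
    exact bot_le
  · exact wt_le_lv (h χ h0 hχ)

theorem lv_disjoint [LieRing.IsNilpotent H] {P Q : (H → k) → Prop} (h : ∀ χ, P χ → ¬ Q χ) :
    Disjoint (lv (M := M) P) (lv (M := M) Q) := by
  have h1 := (iSupIndep_wt (H := H) (M := M)).disjoint_biSup_biSup (s := {χ | P χ})
    (t := {χ | Q χ}) (Set.disjoint_left.2 h)
  exact h1

theorem eq_zero_of_mem_lv [LieRing.IsNilpotent H] {P Q : (H → k) → Prop} (h : ∀ χ, P χ → ¬ Q χ)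
    {m : M} (h1 : m ∈ lv (M := M) P) (h2 : m ∈ lv (M := M) Q) : m = 0 := by
  have := (lv_disjoint (M := M) h).le_bot ⟨h1, h2⟩
  simpa using this

theorem wt_eq_lv (χ : H → k) : wt H M χ = lv (M := M) (fun ψ => ψ = χ) := by
  refine le_antisymm (wt_le_lv rfl) (iSup₂_le ?_)
  rintro ψ rfl
  exact le_rfl

theorem eq_zero_of_mem_wt [LieRing.IsNilpotent H] {χ ψ : H → k} (h : χ ≠ ψ)
    {m : M} (h1 : m ∈ wt H M χ) (h2 : m ∈ wt H M ψ) : m = 0 := by
  rw [wt_eq_lv] at h1 h2
  refine eq_zero_of_mem_lv ?_ h1 h2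
  rintro _ rfl h3
  exact h h3

variable (M) (H) in
/-- The module is a sum of weight spaces. -/
def Diag : Prop := ⨆ χ : H → k, wt H M χ = ⊤

theorem Diag.lv_sup (h : Diag H M) (P : (H → k) → Prop) :
    lv (M := M) P ⊔ lv (M := M) (fun χ => ¬ P χ) = ⊤ := by
  rw [eq_top_iff, ← h]
  refine iSup_le fun χ => ?_
  by_cases hP : P χ
  · exact (wt_le_lv hP).trans le_sup_left
  · exact (wt_le_lv (P := fun χ => ¬ P χ) hP).trans le_sup_right

theorem Diag.lv_true (h : Diag H M) {P : (H → k) → Prop} (hP : ∀ χ, wt H M χ ≠ ⊥ → P χ) :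
    lv (M := M) P = ⊤ := by
  rw [eq_top_iff, ← h]
  refine iSup_le fun χ => ?_
  by_cases h0 : wt H M χ = ⊥
  · rw [h0]
    exact bot_le
  · exact wt_le_lv (hP χ h0)

/-- Induction on elements. -/
theorem Diag.induction (h : Diag H M) {p : M → Prop} (m : M) (h1 : ∀ χ, ∀ m ∈ wt H M χ, p m)
    (h0 : p 0) (h2 : ∀ m n, p m → p n → p (m + n)) : p m := by
  have hm : m ∈ ⨆ χ : H → k, wt H M χ := by
    rw [h]
    exact Submodule.mem_top
  exact Submodule.iSup_induction _ (motive := p) hm h1 h0 h2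

theorem lv_induction {P : (H → k) → Prop} {p : M → Prop} {m : M} (hm : m ∈ lv (M := M) P)
    (h1 : ∀ χ, P χ → ∀ m ∈ wt H M χ, p m)
    (h0 : p 0) (h2 : ∀ m n, p m → p n → p (m + n)) : p m := by
  unfold lv at hm
  rw [iSup_subtype'] at hm
  refine Submodule.iSup_induction (fun χ : {χ // P χ} => wt H M χ.1) (motive := p) hm ?_ h0 h2
  exact fun χ m hm => h1 χ.1 χ.2 m hm

/-- Stability under an operator. -/
theorem lv_map {P Q : (H → k) → Prop} {f : M →ₗ[k] M} (h : ∀ χ, P χ → ∀ m ∈ wt H M χ, f m ∈ lv Q)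
    {m : M} (hm : m ∈ lv (M := M) P) : f m ∈ lv (M := M) Q := by
  refine lv_induction (p := fun m => f m ∈ lv (M := M) Q) hm h ?_ ?_
  · rw [map_zero]
    exact Submodule.zero_mem _
  · intro m n h1 h2
    rw [map_add]
    exact Submodule.add_mem _ h1 h2

theorem exists_wt_ne [Nontrivial M] (h : Diag H M) : ∃ χ, wt H M χ ≠ ⊥ := by
  by_contra hcon
  push Not at hcon
  obtain ⟨m, hm⟩ := exists_ne (0 : M)
  refine hm (h.induction (p := fun m => m = 0) m ?_ rfl ?_)
  · intro χ m hm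
    rw [hcon] at hm
    exact (Submodule.mem_bot k).1 hm
  · rintro _ _ rfl rfl
    rw [add_zero]

/-- Finitely many weights. -/
theorem finite_wt [LieRing.IsNilpotent H] [FiniteDimensional k M] :
    {χ : H → k | wt H M χ ≠ ⊥}.Finite :=
  WellFoundedGT.finite_ne_bot_of_iSupIndep iSupIndep_wt

/-! ### Generation -/

/-- The smallest subspace which contains `U` and is stable under the operators in `X`. -/
def gen {M : Type*} [AddCommGroup M] [Module k M] (X : Set (M →ₗ[k] M)) (U : Submodule k M) :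
    Submodule k M :=
  sInf {W | U ≤ W ∧ ∀ x ∈ X, ∀ w ∈ W, x w ∈ W}

section gen

variable {M : Type*} [AddCommGroup M] [Module k M] {X : Set (M →ₗ[k] M)} {U : Submodule k M}

theorem le_gen : U ≤ gen X U := le_sInf fun W hW => hW.1

theorem gen_le {W : Submodule k M} (h1 : U ≤ W) (h2 : ∀ x ∈ X, ∀ w ∈ W, x w ∈ W) :
    gen X U ≤ W := sInf_le ⟨h1, h2⟩

theorem gen_stable {x : M →ₗ[k] M} (hx : x ∈ X) {w : M} (hw : w ∈ gen X U) : x w ∈ gen X U := by
  unfold gen at hw ⊢
  rw [Submodule.mem_sInf] at hw ⊢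
  exact fun W hW => hW.2 x hx w (hw W hW)

/-- The transfer principle: if the operators in `Y` map `U` to the subspace and the products `y x`
can be rewritten, they preserve the subspace. -/
theorem gen_transfer {Y : Set (M →ₗ[k] M)} (hU : ∀ y ∈ Y, ∀ u ∈ U, y u ∈ gen X U)
    (hc : ∀ y ∈ Y, ∀ x ∈ X, ∀ w ∈ gen X U, (∀ y ∈ Y, y w ∈ gen X U) → y (x w) ∈ gen X U) :
    ∀ y ∈ Y, ∀ w ∈ gen X U, y w ∈ gen X U := by
  set W' : Submodule k M :=
    { carrier := {w | w ∈ gen X U ∧ ∀ y ∈ Y, y w ∈ gen X U}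
      zero_mem' := ⟨Submodule.zero_mem _, fun y _ => by
        rw [map_zero]
        exact Submodule.zero_mem _⟩
      add_mem' := by
        rintro a b ⟨h1, h2⟩ ⟨h3, h4⟩
        refine ⟨Submodule.add_mem _ h1 h3, fun y hy => ?_⟩
        rw [map_add]
        exact Submodule.add_mem _ (h2 y hy) (h4 y hy)
      smul_mem' := by
        rintro c a ⟨h1, h2⟩
        refine ⟨Submodule.smul_mem _ c h1, fun y hy => ?_⟩
        rw [map_smul]
        exact Submodule.smul_mem _ c (h2 y hy) } with hW'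
  have h1 : gen X U ≤ W' := by
    refine gen_le ?_ ?_
    · intro u hu
      exact ⟨le_gen hu, fun y hy => hU y hy u hu⟩
    · rintro x hx w ⟨h1, h2⟩
      exact ⟨gen_stable hx h1, fun y hy => hc y hy x hx w h1 h2⟩
  exact fun y hy w hw => (h1 hw).2 y hy

end gen

end Pool.Agent.TH164.Spin
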